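import Pool.Agent.Lib_helper15.KZF.DefsC

/-!
# Assembly: wanted statements (blocks DAT.., A.., B..)
-/

set_option autoImplicit false

namespace Pool.Agent.KZ

open Finset

variable {V C : Type} [Fintype V] [DecidableEq V] [Fintype C] [DecidableEq C]

/-- the `M₀` squares -/
def m0set (O : Finset C) (z0 : C → V) : Finset (Sq V C) :=
  (univ \ O).image (fun i => ((0 : Fin 3), i, z0 i))

/-- the data common to the two regimes after the stages 1 - 3 -/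
structure Dat (σ : C → Equiv.Perm V) (O Es Lv : Finset C) (Uu : Finset V)
    (z0 z1 u v v' w b : C → V) (ρ : V → ℕ) (ty : C → Fin 3) (lev : V → ℕ) (h : ℕ) (m : C → ℕ)
    (dir : C → Bool) (gl : C → Fin 3) (Ls Lm : Finset (Sq V C)) (Ru : Finset C) : Prop where
  hd : HD σ
  out : Out1 σ O z0 z1 u v v' w b ρ
  esO : ∀ i ∈ Es, i ∉ O
  lvO : ∀ i ∈ Lv, i ∉ O
  uuE : ∀ i ∉ O, u i ∉ Uu ∧ v i ∉ Uu
  lev1 : ∀ x, 1 ≤ lev x ∧ lev x ≤ h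
  m1 : ∀ i ∈ Es, 1 ≤ m i ∧ 20 * m i ≤ Fintype.card V
  gl0 : ∀ i, gl i ≠ 0
  spl : Spl σ z0 Lv Uu u v Es m ty lev dir gl Ls
  lt : Lett σ z0 Lv u v Es m ty dir gl Ls Lm Ru

section Common

variable {σ : C → Equiv.Perm V} {O Es Lv : Finset C} {Uu : Finset V}
  {z0 z1 u v v' w b : C → V} {ρ : V → ℕ} {ty : C → Fin 3} {lev : V → ℕ} {h : ℕ} {m : C → ℕ}
  {dir : C → Bool} {gl : C → Fin 3} {Ls Lm : Finset (Sq V C)} {Ru : Finset C}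

end Common

/-! ### regime A -/

/-- all squares before the merging (regime A) -/
def asetA (O Y : Finset C) (z0 : C → V) (Lm : Finset (Sq V C)) (p q : C → C)
    (zp zq ze : C → V) : Finset (Sq V C) :=
  (m0set O z0 ∪ Lm) ∪ (O.image (fun i => ((1 : Fin 3), p i, zp i)) ∪
    O.image (fun i => ((2 : Fin 3), q i, zq i)) ∪ Y.image (fun i => ((1 : Fin 3), i, ze i)))

structure DatA (σ : C → Equiv.Perm V) (O X Y Es Lv : Finset C)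
    (z0 z1 u v v' w b : C → V) (ρ : V → ℕ) (ty : C → Fin 3) (lev : V → ℕ) (h : ℕ) (m : C → ℕ)
    (dir : C → Bool) (gl : C → Fin 3) (Ls Lm : Finset (Sq V C)) (Ru : Finset C)
    (bt : C → V) (p q : C → C) (zp zq ze : C → V) (Rg : C → Finset C) : Prop where
  dat : Dat σ O Es Lv ∅ z0 z1 u v v' w b ρ ty lev h m dir gl Ls Lm Ru
  part : ∀ i, i ∉ O → i ∉ X → i ∈ Es
  xO : ∀ i ∈ X, i ∉ O ∧ i ∉ Es
  lvk : ∀ j ∈ Lv, ∀ i ∈ O, σ i (b i) ≠ u j ∧ σ i (b i) ≠ v j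
  gad : Gadg σ O X Lv u v b ty Ru bt p q zp zq Rg
  yy : ∀ i, i ∈ Y ↔ i ∈ X ∧ ∀ j ∈ O, i ≠ p j ∧ i ≠ q j
  ext : Extr σ Y Lv u v ty lev ze

section A

variable {σ : C → Equiv.Perm V} {O X Y Es Lv : Finset C}
  {z0 z1 u v v' w b : C → V} {ρ : V → ℕ} {ty : C → Fin 3} {lev : V → ℕ} {h : ℕ} {m : C → ℕ}
  {dir : C → Bool} {gl : C → Fin 3} {Ls Lm : Finset (Sq V C)} {Ru : Finset C}
  {bt : C → V} {p q : C → C} {zp zq ze : C → V} {Rg : C → Finset C}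

end A

/-! ### regime B -/

/-- `(is, z)` joins two untouched reserve pairs -/
def freshE (σ : C → Equiv.Perm V) (is : C) (Lv : Finset C) (u v : C → V) (ty : C → Fin 3)
    (Ru : Finset C) (z : V) : Prop :=
  ∃ j ∈ Lv, ∃ j' ∈ Lv, j ∉ Ru ∧ j' ∉ Ru ∧ j ≠ j' ∧ ty j = 0 ∧ ty j' = 0 ∧
    (z = u j ∨ z = v j) ∧ (σ is z = u j' ∨ σ is z = v j')

structure DatB (σ : C → Equiv.Perm V) (is : C) (x1 x2 : V) (Es Lv : Finset C) (Uu : Finset V)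
    (z0 z1 u v v' w b : C → V) (ρ : V → ℕ) (ty : C → Fin 3) (lev : V → ℕ) (h : ℕ) (m : C → ℕ)
    (dir : C → Bool) (gl : C → Fin 3) (Ls Lm : Finset (Sq V C)) (Ru : Finset C) : Prop where
  dat : Dat σ ∅ Es Lv Uu z0 z1 u v v' w b ρ ty lev h m dir gl Ls Lm Ru
  es : ∀ i, i ∈ Es ↔ i ≠ is
  dis : Disjoint ({x1, σ is x1} : Finset V) {x2, σ is x2}
  lv : ∀ j, j ∈ Lv ↔ u j ∉ ({x1, σ is x1, x2, σ is x2} : Finset V) ∧
    v j ∉ ({x1, σ is x1, x2, σ is x2} : Finset V)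
  uu : ∀ x, x ∈ Uu ↔ x ∉ ({x1, σ is x1, x2, σ is x2} : Finset V) ∧ ∀ j, x ≠ u j ∧ x ≠ v j
  fresh : ∃ z, freshE σ is Lv u v ty Ru z

/-- the bridge letters `Br` of the special colour -/
structure Brd (σ : C → Equiv.Perm V) (is : C) (x1 x2 : V) (Lv : Finset C)
    (z0 u v b : C → V) (ty : C → Fin 3) (Ru : Finset C) (Lm Br : Finset (Sq V C)) : Prop where
  base : Base σ ⟨∅, b, b⟩ ((m0set ∅ z0 ∪ Lm) ∪ Br)
  acy : (Gam σ ((m0set ∅ z0 ∪ Lm) ∪ Br)).IsAcyclic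
  col : ∀ g i z, (g, i, z) ∈ Br → i = is ∧ g ≠ 0
  shape : ∀ g i z, (g, i, z) ∈ Br → (g = 1 ∧ z = x1) ∨ (g = 2 ∧ z = x2) ∨
    (Br = {(g, i, z)} ∧ freshE σ is Lv u v ty Ru z)
  ex : ∃ g z, (g, is, z) ∈ Br
  r1 : (Gam σ ((m0set ∅ z0 ∪ Lm) ∪ Br)).Reachable x1 (σ is x1)
  r2 : (Gam σ ((m0set ∅ z0 ∪ Lm) ∪ Br)).Reachable x2 (σ is x2)
  f1 : ¬ cov σ ((m0set ∅ z0 ∪ Lm) ∪ Br) 2 x1 ∧ ¬ cov σ ((m0set ∅ z0 ∪ Lm) ∪ Br) 2 (σ is x1)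
  f2 : ¬ cov σ ((m0set ∅ z0 ∪ Lm) ∪ Br) 1 x2 ∧ ¬ cov σ ((m0set ∅ z0 ∪ Lm) ∪ Br) 1 (σ is x2)
  lf : ∀ x, leaf Lv u v ty x → ¬ cov σ ((m0set ∅ z0 ∪ Lm) ∪ Br) 1 x ∧
    ¬ cov σ ((m0set ∅ z0 ∪ Lm) ∪ Br) 2 x

section B

variable {σ : C → Equiv.Perm V} {is : C} {x1 x2 : V} {Es Lv : Finset C} {Uu : Finset V}
  {z0 z1 u v v' w b : C → V} {ρ : V → ℕ} {ty : C → Fin 3} {lev : V → ℕ} {h : ℕ} {m : C → ℕ}
  {dir : C → Bool} {gl : C → Fin 3} {Ls Lm : Finset (Sq V C)} {Ru : Finset C}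

end B

/-! ### small facts -/

end Pool.Agent.KZ

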