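import Pool.Agent.Lib_helper15.KZF.DefsC

/-!
# Nibbles: wanted statements (stage 1 and the spine nibble)

`N = card V`, `n = card C`, `o = card O`, `e = n - o`.
-/

set_option autoImplicit false

namespace Pool.Agent.KZ

open Finset

/-- probability of the class `k`: odd classes `n / (τ N)`, the class `2 t` has `n / (τ N)` for `t`
even and `(n - 2 o) / (τ N)` for `t` odd; the class `0` has the rest -/
noncomputable def pcl (N n o τ k : ℕ) : ℝ :=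
  if k = 0 then 1 - ((2 * τ + 1) * n - τ * o) / (τ * N)
  else if 2 * τ + 1 < k then 0
  else if k % 4 = 2 then (n - 2 * o) / (τ * N) else n / (τ * N)

variable {V C : Type} [Fintype V] [DecidableEq V] [Fintype C] [DecidableEq C]

/-- regular classes -/
structure Phi (σ : C → Equiv.Perm V) (O : Finset C) (τ : ℕ) (ε : ℝ) (φ : V → ℕ) : Prop where
  le : ∀ x, φ x ≤ 2 * τ + 1
  f1 : ∀ x k, k ≤ 2 * τ + 1 →
    |(((univ : Finset (C × Bool)).filter (fun p => p.1 ∉ O ∧ φ (nb σ p x) = k)).card : ℝ) -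
      2 * (Fintype.card C - O.card) * pcl (Fintype.card V) (Fintype.card C) O.card τ k| ≤
      ε * Fintype.card V
  f1' : ∀ x k s, k ≤ 2 * τ + 1 → |((O.filter (fun i => φ (nb σ (i, s) x) = k)).card : ℝ) -
      O.card * pcl (Fintype.card V) (Fintype.card C) O.card τ k| ≤ ε * Fintype.card V
  f2 : ∀ i k k', k ≤ 2 * τ + 1 → k' ≤ 2 * τ + 1 →
    |((univ.filter (fun x => φ x = k ∧ φ (σ i x) = k')).card : ℝ) -
      Fintype.card V * pcl (Fintype.card V) (Fintype.card C) O.card τ k *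
        pcl (Fintype.card V) (Fintype.card C) O.card τ k'| ≤ ε * Fintype.card V
  f3 : ∀ i i', Fintype.card V * pcl (Fintype.card V) (Fintype.card C) O.card τ 0 ^ 3 -
    ε * Fintype.card V ≤
    (univ.filter (fun v => φ v = 0 ∧ φ ((σ i)⁻¹ v) = 0 ∧ φ (σ i' v) = 0)).card

/-- vertices of the classes `1 .. 2 τ` -/
def tset (φ : V → ℕ) (τ : ℕ) : Finset V := univ.filter (fun x => 1 ≤ φ x ∧ φ x ≤ 2 * τ)

/-! ### cells of the first nibble -/

abbrev Rs (V C : Type) := (Fin 3 × V) ⊕ (Fin 3 × C)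

abbrev Ce (V C : Type) := (V × (C × Bool) × (C × Bool)) ⊕ (V × C)

def inc1 (σ : C → Equiv.Perm V) : Ce V C → Finset (Rs V C)
  | Sum.inl (v, p, p') => {Sum.inl (0, nb σ p v), Sum.inl (1, v), Sum.inl (2, nb σ p' v),
      Sum.inr (0, p.1), Sum.inr (1, p'.1)}
  | Sum.inr (b, i) => {Sum.inl (0, b), Sum.inl (2, σ i b), Sum.inr (2, i)}

def okP (σ : C → Equiv.Perm V) (O : Finset C) (τ : ℕ) (φ : V → ℕ) (v : V) (p p' : C × Bool) :
    Prop :=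
  p.1 ∉ O ∧ p'.1 ∉ O ∧ p.1 ≠ p'.1 ∧ ∃ t, 1 ≤ t ∧ t ≤ τ ∧ φ v = 2 * t ∧
    φ (nb σ p v) = 2 * t - 1 ∧ φ (nb σ p' v) = 2 * t + 1

def okO (σ : C → Equiv.Perm V) (O : Finset C) (τ : ℕ) (φ : V → ℕ) (b : V) (i : C) : Prop :=
  i ∈ O ∧ ∃ t, t % 2 = 1 ∧ t ≤ τ ∧ φ b = 2 * t - 1 ∧ φ (σ i b) = 2 * t + 1

open Classical in
/-- weights of the cells -/
noncomputable def w1 (σ : C → Equiv.Perm V) (O : Finset C) (τ : ℕ) (φ : V → ℕ) : Ce V C → ℝ
  | Sum.inl (v, p, p') => if okP σ O τ φ v p p' then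
      (τ * Fintype.card V) ^ 2 / (4 * (Fintype.card C - O.card) ^ 2 * (Fintype.card C) ^ 2) else 0
  | Sum.inr (b, i) => if okO σ O τ φ b i then
      2 * τ * Fintype.card V / (Fintype.card C) ^ 2 else 0

/-- load of a resource -/
noncomputable def ld (σ : C → Equiv.Perm V) (O : Finset C) (τ : ℕ) (φ : V → ℕ) (r : Rs V C) : ℝ :=
  ∑ c ∈ univ.filter (fun c => r ∈ inc1 σ c), w1 σ O τ φ c

/-- the hypotheses of the load estimates -/
structure LHyp (σ : C → Equiv.Perm V) (O : Finset C) (τ : ℕ) (φ : V → ℕ) (ε : ℝ) : Prop where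
  hd : HD σ
  h7 : Fintype.card V ≤ 7 * Fintype.card C
  ho : 2 * O.card ≤ Fintype.card C
  tau : 2 ≤ τ
  even : τ % 2 = 0
  e0 : 1 / (Fintype.card V : ℝ) ≤ ε
  e1 : ε ≤ 1
  phi : Phi σ O τ ε φ

open Classical in
/-- result of the first nibble -/
structure Nib (σ : C → Equiv.Perm V) (O : Finset C) (τ : ℕ) (φ : V → ℕ)
    (D1 : Finset (V × (C × Bool) × (C × Bool))) (D2 : Finset (V × C)) (ε : ℝ) : Prop where
  ok1 : ∀ v p p', (v, p, p') ∈ D1 → okP σ O τ φ v p p'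
  ok2 : ∀ b i, (b, i) ∈ D2 → okO σ O τ φ b i
  d1 : ∀ v p p' v1 p1 p1', (v, p, p') ∈ D1 → (v1, p1, p1') ∈ D1 →
    (v = v1 ∨ nb σ p v = nb σ p1 v1 ∨ nb σ p' v = nb σ p1' v1 ∨ p.1 = p1.1 ∨ p'.1 = p1'.1) →
    (v, p, p') = (v1, p1, p1')
  d2 : ∀ b i b1 i1, (b, i) ∈ D2 → (b1, i1) ∈ D2 → (b = b1 ∨ σ i b = σ i1 b1 ∨ i = i1) →
    (b, i) = (b1, i1)
  d3 : ∀ v p p' b i, (v, p, p') ∈ D1 → (b, i) ∈ D2 → nb σ p v ≠ b ∧ nb σ p' v ≠ σ i b
  c0 : ((univ.filter (fun i => i ∉ O ∧ ∀ v p p', (v, p, p') ∈ D1 → p.1 ≠ i)).card : ℝ) ≤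
    ε * Fintype.card V
  c1 : ((univ.filter (fun i => i ∉ O ∧ ∀ v p p', (v, p, p') ∈ D1 → p'.1 ≠ i)).card : ℝ) ≤
    ε * Fintype.card V
  c2 : ((O.filter (fun i => ∀ b, (b, i) ∉ D2)).card : ℝ) ≤ ε * Fintype.card V
  cR : ((univ.filter (fun v => (∃ t, 1 ≤ t ∧ t ≤ τ ∧ φ v = 2 * t) ∧
    ∀ p p', (v, p, p') ∉ D1)).card : ℝ) ≤ ε * Fintype.card V
  cZ : ((univ.filter (fun x => (∃ t, 1 ≤ t ∧ t ≤ τ ∧ φ x = 2 * t - 1) ∧
    (∀ v p p', (v, p, p') ∈ D1 → nb σ p v ≠ x) ∧ ∀ i, (x, i) ∉ D2)).card : ℝ) ≤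
    ε * Fintype.card V

/-! ### the spine nibble -/

open Classical in
/-- the weight of the cell `(i, x)`, `x` the start of an allowed edge in the mandatory region:
`1 / number of the allowed edges in its interval` -/
noncomputable def w2 (σ : C → Equiv.Perm V) (z0 : C → V) (Lv : Finset C) (Uu : Finset V)
    (u v : C → V) (Es : Finset C) (m : C → ℕ) (ty : C → Fin 3) (lev : V → ℕ) (dir : C → Bool)
    (gl : C → Fin 3) (c : C × V) : ℝ :=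
  if h : c.1 ∈ Es ∧ ∃ r, mand σ z0 dir m c.1 c.2 r ∧
      (alw Lv Uu u v ty lev (lb (gl c.1) r) c.2 (σ c.1 c.2) ∨
        alw Lv Uu u v ty lev (lb (gl c.1) r) (σ c.1 c.2) c.2) then
    1 / ((univ.filter (fun x => mand σ z0 dir m c.1 x (Classical.choose h.2) ∧
      (alw Lv Uu u v ty lev (lb (gl c.1) (Classical.choose h.2)) x (σ c.1 x) ∨
        alw Lv Uu u v ty lev (lb (gl c.1) (Classical.choose h.2)) (σ c.1 x) x))).card : ℝ)
  else 0

end Pool.Agent.KZ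

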