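import Pool.Agent.Lib_helper15.KZF.DefsA
import Pool.Agent.Lib_helper15.KZF.DefsN

set_option autoImplicit false
set_option linter.unusedSectionVars false

namespace Pool.Agent.KZ

open Finset

variable {V C : Type} [Fintype V] [DecidableEq V] [Fintype C] [DecidableEq C]
variable {σ : C → Equiv.Perm V}

theorem ed_ai (s : Equiv.Perm V) (x : V) : s (s⁻¹ x) = x := by simp
theorem ed_ia (s : Equiv.Perm V) (x : V) : s⁻¹ (s x) = x := by simp

theorem hd_ne (h : HD σ) (i : C) (x : V) : σ i x ≠ x ∧ σ i x ≠ (σ i)⁻¹ x := by
  constructor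
  · intro hx
    have h1 : ∀ k : ℕ, (σ i ^ k) x = x := by
      intro k
      induction k with
      | zero => simp
      | succ k ih => rw [pow_succ, Equiv.Perm.mul_apply, hx, ih]
    have h2 : (univ : Finset V) ⊆ {x} := by
      intro y _
      obtain ⟨k, hk⟩ := h.cyc i x y
      rw [mem_singleton, ← hk, h1]
    have h3 := card_le_card h2
    rw [card_univ, card_singleton] at h3
    have := h.three
    omega
  · intro hx
    have hx2 : σ i (σ i x) = x := by
      rw [hx, ed_ai]
    have h1 : ∀ k : ℕ, (σ i ^ k) x = x ∨ (σ i ^ k) x = σ i x := by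
      intro k
      induction k with
      | zero => left; simp
      | succ k ih =>
        rw [pow_succ', Equiv.Perm.mul_apply]
        rcases ih with ih | ih
        · right; rw [ih]
        · left; rw [ih, hx2]
    have h2 : (univ : Finset V) ⊆ {x, σ i x} := by
      intro y _
      obtain ⟨k, hk⟩ := h.cyc i x y
      rw [mem_insert, mem_singleton, ← hk]
      exact h1 k
    have h3 := card_le_card h2
    rw [card_univ] at h3
    have h4 : ({x, σ i x} : Finset V).card ≤ 2 := card_le_two
    have := h.three
    omega

theorem ed_inj (h : HD σ) {i j : C} {x y : V} (he : ed σ i x = ed σ j y) : i = j ∧ x = y := by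
  unfold ed at he
  rw [Sym2.eq_iff] at he
  by_cases hij : i = j
  · subst hij
    refine ⟨rfl, ?_⟩
    rcases he with ⟨h1, _⟩ | ⟨h1, h2⟩
    · exact h1
    · exfalso
      apply (hd_ne h i x).2
      rw [h2, h1, ed_ia]
  · exfalso
    rcases he with ⟨h1, h2⟩ | ⟨h1, h2⟩
    · rw [← h1] at h2
      exact (h.disj i j x hij).1 h2
    · apply (h.disj i j x hij).2
      rw [h2, h1, ed_ia]

theorem hd_deg (h : HD σ) : 2 * Fintype.card C + 1 ≤ Fintype.card V := by
  have hne : Nonempty V := Fintype.card_pos_iff.mp (by have := h.three; omega)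
  obtain ⟨x⟩ := hne
  set f : Option (C ⊕ C) → V := fun o => match o with
    | none => x
    | some (Sum.inl i) => σ i x
    | some (Sum.inr i) => (σ i)⁻¹ x with hf
  have hinv : ∀ i, (σ i)⁻¹ x ≠ x := by
    intro i hi
    apply (hd_ne h i x).1
    conv_lhs => rw [← hi, ed_ai]
  have hmix : ∀ i j, σ i x ≠ (σ j)⁻¹ x := by
    intro i j
    by_cases hij : i = j
    · subst hij; exact (hd_ne h i x).2
    · exact (h.disj i j x hij).2
  have hinj : Function.Injective f := by
    intro o o' ho
    rcases o with _ | (i | i) <;> rcases o' with _ | (j | j)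
    · rfl
    · exact absurd ho.symm (hd_ne h j x).1
    · exact absurd ho.symm (hinv j)
    · exact absurd ho (hd_ne h i x).1
    · by_cases hij : i = j
      · rw [hij]
      · exact absurd ho (h.disj i j x hij).1
    · exact absurd ho (hmix i j)
    · exact absurd ho (hinv i)
    · exact absurd ho.symm (hmix j i)
    · by_cases hij : i = j
      · rw [hij]
      · exfalso
        have h1 : (σ i)⁻¹ x = (σ j)⁻¹ x := ho
        apply (h.disj i j ((σ i)⁻¹ x) hij).1
        rw [ed_ai, h1, ed_ai]
  have hc := Fintype.card_le_of_injective f hinj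
  rw [Fintype.card_option, Fintype.card_sum] at hc
  omega

end Pool.Agent.KZ
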