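import Pool.Agent.Lib_helper15.KZF.CYC
import Pool.Agent.Lib_helper15.KZF.DefsA
import Pool.Agent.Lib_helper15.KZF.DefsN
import Pool.Agent.Lib_helper15.KZF.ED

set_option autoImplicit false

namespace Pool.Agent.KZ

open Finset

variable {V C : Type} [Fintype V] [DecidableEq V] [Fintype C] [DecidableEq C]

section Common

variable {σ : C → Equiv.Perm V} {O Es Lv : Finset C} {Uu : Finset V}
  {z0 z1 u v v' w b : C → V} {ρ : V → ℕ} {ty : C → Fin 3} {lev : V → ℕ} {h : ℕ} {m : C → ℕ}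
  {dir : C → Bool} {gl : C → Fin 3} {Ls Lm : Finset (Sq V C)} {Ru : Finset C}

theorem dbase_m0 {g : Fin 3} {i : C} {z : V} :
    (g, i, z) ∈ m0set O z0 ↔ g = 0 ∧ i ∉ O ∧ z = z0 i := by
  unfold m0set
  simp only [mem_image, mem_sdiff, mem_univ, true_and, Prod.mk.injEq]
  constructor
  · rintro ⟨j, hj, h1, h2, h3⟩
    subst h2
    exact ⟨h1.symm, hj, h3.symm⟩
  · rintro ⟨h1, h2, h3⟩
    exact ⟨i, h2, h1.symm, rfl, h3.symm⟩

/-- two disjoint pairs have no common point -/
theorem dbase_pair (D : Dat σ O Es Lv Uu z0 z1 u v v' w b ρ ty lev h m dir gl Ls Lm Ru)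
    {i j : C} (hi : i ∉ O) (hj : j ∉ O) {x : V} (h1 : x = u i ∨ x = v i)
    (h2 : x = u j ∨ x = v j) : i = j := by
  by_contra hij
  have h3 := D.out.dis0 i hi j hj hij
  rw [Finset.disjoint_left] at h3
  refine h3 (a := x) ?_ ?_
  · rw [mem_insert, mem_singleton]; exact h1
  · rw [mem_insert, mem_singleton]; exact h2

theorem dbase_ed {i : C} {z x y : V} (he : ed σ i z = s(x, y)) :
    (x = z ∧ y = σ i z) ∨ (x = σ i z ∧ y = z) := by
  have h1 : s(z, σ i z) = s(x, y) := he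
  rw [Sym2.eq_iff] at h1
  rcases h1 with ⟨h1, h2⟩ | ⟨h1, h2⟩
  · exact Or.inl ⟨h1.symm, h2.symm⟩
  · exact Or.inr ⟨h2.symm, h1.symm⟩

theorem dbase_uv (D : Dat σ O Es Lv Uu z0 z1 u v v' w b ρ ty lev h m dir gl Ls Lm Ru)
    {i : C} (hi : i ∉ O) : u i ≠ v i := by
  intro he
  have h1 := D.out.e0 i hi
  rcases dbase_ed h1 with ⟨h2, h3⟩ | ⟨h2, h3⟩
  · exact (hd_ne D.hd i (z0 i)).1 (by rw [← h3, ← he, h2])
  · exact (hd_ne D.hd i (z0 i)).1 (by rw [← h2, he, h3])

theorem dbase_ne0 (D : Dat σ O Es Lv Uu z0 z1 u v v' w b ρ ty lev h m dir gl Ls Lm Ru)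
    {g : Fin 3} {i : C} {z : V} (hL : (g, i, z) ∈ Lm) : g ≠ 0 ∧ z ≠ z0 i := by
  obtain ⟨-, r, hr, hg⟩ := D.lt.lab g i z hL
  refine ⟨?_, hr.1⟩
  rw [hg]
  exact (lb_ne (D.gl0 i) r).1

/-- a spine vertex is not in a reserve pair -/
theorem dbase_spin (D : Dat σ O Es Lv Uu z0 z1 u v v' w b ρ ty lev h m dir gl Ls Lm Ru)
    {x : V} (hx : spin Lv Uu u v ty x) {j : C} (hj : j ∈ Lv) (h0 : ty j = 0)
    (hxj : x = u j ∨ x = v j) : False := by
  have hjO := D.lvO j hj
  rcases hx with ⟨i, hi, hx⟩ | hx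
  · have hxi : x = u i ∨ x = v i := by
      rcases hx with ⟨-, hx⟩ | ⟨-, hx⟩
      · exact Or.inr hx
      · exact Or.inl hx
    have hij := dbase_pair D (D.lvO i hi) hjO hxi hxj
    subst hij
    rcases hx with ⟨hx, -⟩ | ⟨hx, -⟩
    · rw [h0] at hx; exact absurd hx (by decide)
    · rw [h0] at hx; exact absurd hx (by decide)
  · rcases hxj with h1 | h1
    · exact (D.uuE j hjO).1 (h1 ▸ hx)
    · exact (D.uuE j hjO).2 (h1 ▸ hx)

/-- the ends of a reserve letter -/
theorem dbase_res (D : Dat σ O Es Lv Uu z0 z1 u v v' w b ρ ty lev h m dir gl Ls Lm Ru)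
    {g : Fin 3} {i : C} {z : V} (hL : (g, i, z) ∈ Lm) (hS : (g, i, z) ∉ Ls) {x : V}
    (hx : x = z ∨ x = σ i z) : ∃ j ∈ Ru, j ∈ Lv ∧ ty j = 0 ∧ (x = u j ∨ x = v j) := by
  obtain ⟨j, hj, j', hj', -, h1, h2⟩ := D.lt.res g i z hL hS
  have a1 := mem_filter.mp (D.lt.ru hj)
  have a2 := mem_filter.mp (D.lt.ru hj')
  rcases hx with rfl | rfl
  · exact ⟨j, hj, a1.1, a1.2, h1⟩
  · exact ⟨j', hj', a2.1, a2.2, h2⟩

/-- the ends of a spine letter -/
theorem dbase_sp (D : Dat σ O Es Lv Uu z0 z1 u v v' w b ρ ty lev h m dir gl Ls Lm Ru)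
    {g : Fin 3} {i : C} {z : V} (hS : (g, i, z) ∈ Ls) {x : V}
    (hx : x = z ∨ x = σ i z) : spin Lv Uu u v ty x := by
  obtain ⟨-, -, h1⟩ := D.spl.s1 g i z hS
  rcases h1 with h1 | h1 <;> rcases hx with rfl | rfl
  · exact h1.1
  · exact h1.2.1
  · exact h1.2.1
  · exact h1.1

theorem dat_base (D : Dat σ O Es Lv Uu z0 z1 u v v' w b ρ ty lev h m dir gl Ls Lm Ru)
    (b0 bt0 : C → V) : Base σ ⟨∅, b0, bt0⟩ (m0set O z0 ∪ Lm) := by
  refine ⟨?_, ?_, ?_, ?_, ?_, ?_, ?_, ?_⟩
  · intro g i z _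
    exact notMem_empty i
  · intro g g' i z h1 h2
    rw [mem_union, dbase_m0] at h1 h2
    rcases h1 with h1 | h1 <;> rcases h2 with h2 | h2
    · rw [h1.1, h2.1]
    · exact absurd h1.2.2 (dbase_ne0 D h2).2
    · exact absurd h2.2.2 (dbase_ne0 D h1).2
    · obtain ⟨-, r, hr, hg⟩ := D.lt.lab g i z h1
      obtain ⟨-, r', hr', hg'⟩ := D.lt.lab g' i z h2
      rw [hg, hg', mand_unique hr hr']
  · intro g i z i' z' h1 h2 hne
    rw [mem_union, dbase_m0] at h1 h2
    rcases h1 with h1 | h1 <;> rcases h2 with h2 | h2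
    · obtain ⟨-, hi, hz⟩ := h1
      obtain ⟨-, hi', hz'⟩ := h2
      have hii : i ≠ i' := by
        rintro rfl
        exact hne (by rw [hz, hz'])
      have key : ∀ j, j ∉ O → ({z0 j, σ j (z0 j)} : Finset V) = {u j, v j} := by
        intro j hj
        rcases dbase_ed (D.out.e0 j hj) with ⟨a1, a2⟩ | ⟨a1, a2⟩
        · rw [a1, a2]
        · rw [a1, a2, pair_comm]
      rw [hz, hz', key i hi, key i' hi']
      exact D.out.dis0 i hi i' hi' hii
    · exact absurd h1.1 (dbase_ne0 D h2).1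
    · exact absurd h2.1 (dbase_ne0 D h1).1
    · by_cases s1 : (g, i, z) ∈ Ls <;> by_cases s2 : (g, i', z') ∈ Ls
      · exact D.spl.s3 g i z i' z' s1 s2 hne
      · rw [Finset.disjoint_left]
        intro x hx hx'
        rw [mem_insert, mem_singleton] at hx hx'
        obtain ⟨j, -, hj, hj0, hxj⟩ := dbase_res D h2 s2 hx'
        exact dbase_spin D (dbase_sp D s1 hx) hj hj0 hxj
      · rw [Finset.disjoint_left]
        intro x hx hx'
        rw [mem_insert, mem_singleton] at hx hx'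
        obtain ⟨j, -, hj, hj0, hxj⟩ := dbase_res D h1 s1 hx
        exact dbase_spin D (dbase_sp D s2 hx') hj hj0 hxj
      · rw [Finset.disjoint_left]
        intro x hx hx'
        rw [mem_insert, mem_singleton] at hx hx'
        obtain ⟨j, hjR, hj, hj0, hxj⟩ := dbase_res D h1 s1 hx
        have e1 : z = u j ∨ z = v j ∨ σ i z = u j ∨ σ i z = v j := by
          rcases hx with hx | hx
          · rw [← hx]
            rcases hxj with hxj | hxj
            · exact Or.inl hxj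
            · exact Or.inr (Or.inl hxj)
          · rw [← hx]
            rcases hxj with hxj | hxj
            · exact Or.inr (Or.inr (Or.inl hxj))
            · exact Or.inr (Or.inr (Or.inr hxj))
        have e2 : z' = u j ∨ z' = v j ∨ σ i' z' = u j ∨ σ i' z' = v j := by
          rcases hx' with hx | hx
          · rw [← hx]
            rcases hxj with hxj | hxj
            · exact Or.inl hxj
            · exact Or.inr (Or.inl hxj)
          · rw [← hx]
            rcases hxj with hxj | hxj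
            · exact Or.inr (Or.inr (Or.inl hxj))
            · exact Or.inr (Or.inr (Or.inr hxj))
        have := D.lt.one j hjR g i z g i' z' h1 s1 h2 s2 e1 e2
        exact hne (congrArg Prod.snd this)
  · intro t i hi
    exact absurd hi (notMem_empty i)
  · intro g i hi
    exact absurd hi (notMem_empty i)
  · intro i hi
    exact absurd hi (notMem_empty i)
  · intro i hi
    exact absurd hi (notMem_empty i)
  · intro i hi
    exact absurd hi (notMem_empty i)

end Common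

end Pool.Agent.KZ
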