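import Pool.Agent.Lib_helper15.KZF.CYC
import Pool.Agent.Lib_helper15.KZF.DBASE
import Pool.Agent.Lib_helper15.KZF.DefsA
import Pool.Agent.Lib_helper15.KZF.DefsN
import Pool.Agent.Lib_helper15.KZF.ED

/-!
# Block ABASE
-/

set_option autoImplicit false
set_option linter.unusedSectionVars false

namespace Pool.Agent.KZ

open Finset

variable {V C : Type} [Fintype V] [DecidableEq V] [Fintype C] [DecidableEq C]

variable {σ : C → Equiv.Perm V} {O X Y Es Lv : Finset C}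
  {z0 z1 u v v' w b : C → V} {ρ : V → ℕ} {ty : C → Fin 3} {lev : V → ℕ} {h : ℕ} {m : C → ℕ}
  {dir : C → Bool} {gl : C → Fin 3} {Ls Lm : Finset (Sq V C)} {Ru : Finset C}
  {bt : C → V} {p q : C → C} {zp zq ze : C → V} {Rg : C → Finset C}

/-- the vertex `x` is in the live pair `j`: `k = 0` reserve, `k = 1` leaf, `k = 2` spine -/
def ABASE_pr (Lv : Finset C) (u v : C → V) (ty : C → Fin 3) (x : V) (j : C) (k : Fin 3) : Prop :=
  j ∈ Lv ∧ ((ty j = 0 ∧ k = 0 ∧ (x = u j ∨ x = v j)) ∨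
    (ty j = 1 ∧ ((k = 1 ∧ x = u j) ∨ (k = 2 ∧ x = v j))) ∨
    (ty j = 2 ∧ ((k = 1 ∧ x = v j) ∨ (k = 2 ∧ x = u j))))

theorem ABASE_pr_uv {x : V} {j : C} {k : Fin 3} (hx : ABASE_pr Lv u v ty x j k) :
    j ∈ Lv ∧ (x = u j ∨ x = v j) := by
  obtain ⟨h1, h2⟩ := hx
  refine ⟨h1, ?_⟩
  tauto

theorem ABASE_spin {x : V} : spin Lv ∅ u v ty x ↔ ∃ j, ABASE_pr Lv u v ty x j 2 := by
  constructor
  · rintro (⟨i, hi, h1 | h1⟩ | h1)
    · exact ⟨i, hi, Or.inr (Or.inl ⟨h1.1, Or.inr ⟨rfl, h1.2⟩⟩)⟩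
    · exact ⟨i, hi, Or.inr (Or.inr ⟨h1.1, Or.inr ⟨rfl, h1.2⟩⟩)⟩
    · exact absurd h1 (Finset.notMem_empty x)
  · rintro ⟨j, hj, h1 | h1 | h1⟩
    · exact absurd h1.2.1 (by decide)
    · rcases h1 with ⟨h1, h2 | h2⟩
      · exact absurd h2.1 (by decide)
      · exact Or.inl ⟨j, hj, Or.inl ⟨h1, h2.2⟩⟩
    · rcases h1 with ⟨h1, h2 | h2⟩
      · exact absurd h2.1 (by decide)
      · exact Or.inl ⟨j, hj, Or.inr ⟨h1, h2.2⟩⟩

theorem ABASE_leaf {x : V} : leaf Lv u v ty x ↔ ∃ j, ABASE_pr Lv u v ty x j 1 := by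
  constructor
  · rintro ⟨i, hi, h1 | h1⟩
    · exact ⟨i, hi, Or.inr (Or.inl ⟨h1.1, Or.inl ⟨rfl, h1.2⟩⟩)⟩
    · exact ⟨i, hi, Or.inr (Or.inr ⟨h1.1, Or.inl ⟨rfl, h1.2⟩⟩)⟩
  · rintro ⟨j, hj, h1 | h1 | h1⟩
    · exact absurd h1.2.1 (by decide)
    · rcases h1 with ⟨h1, h2 | h2⟩
      · exact ⟨j, hj, Or.inl ⟨h1, h2.2⟩⟩
      · exact absurd h2.1 (by decide)
    · rcases h1 with ⟨h1, h2 | h2⟩
      · exact ⟨j, hj, Or.inr ⟨h1, h2.2⟩⟩
      · exact absurd h2.1 (by decide)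

theorem ABASE_rese {x : V} : rese Lv u v ty x ↔ ∃ j, ABASE_pr Lv u v ty x j 0 := by
  constructor
  · rintro ⟨i, hi, h1, h2⟩
    exact ⟨i, hi, Or.inl ⟨h1, rfl, h2⟩⟩
  · rintro ⟨j, hj, h1 | h1 | h1⟩
    · exact ⟨j, hj, h1.1, h1.2.2⟩
    · rcases h1 with ⟨h1, h2 | h2⟩
      · exact absurd h2.1 (by decide)
      · exact absurd h2.1 (by decide)
    · rcases h1 with ⟨h1, h2 | h2⟩
      · exact absurd h2.1 (by decide)
      · exact absurd h2.1 (by decide)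

theorem ABASE_oleaf {x : V} (hx : oleaf Lv u v ty lev x) : leaf Lv u v ty x := by
  obtain ⟨i, hi, h1 | h1⟩ := hx
  · exact ⟨i, hi, Or.inl ⟨h1.1, h1.2.1⟩⟩
  · exact ⟨i, hi, Or.inr ⟨h1.1, h1.2.1⟩⟩

theorem ABASE_ends {i : C} {z a c x : V} (he : ed σ i z = s(a, c)) :
    (x = z ∨ x = σ i z) ↔ (x = a ∨ x = c) := by
  rw [← Sym2.mem_iff, ← Sym2.mem_iff, ← he]
  rfl

theorem ABASE_uv_ne (D : Dat σ O Es Lv ∅ z0 z1 u v v' w b ρ ty lev h m dir gl Ls Lm Ru) {j : C}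
    (hj : j ∉ O) : u j ≠ v j := by
  intro he
  have h1 := D.out.e0 j hj
  rw [he] at h1
  have h2 : (ed σ j (z0 j)).IsDiag := by rw [h1]; exact Sym2.mk_isDiag_iff.2 rfl
  rw [ed, Sym2.mk_isDiag_iff] at h2
  exact (hd_ne D.hd j (z0 j)).1 h2.symm

theorem ABASE_pair (D : Dat σ O Es Lv ∅ z0 z1 u v v' w b ρ ty lev h m dir gl Ls Lm Ru) {i j : C}
    (hi : i ∉ O) (hj : j ∉ O) {x : V} (h1 : x = u i ∨ x = v i) (h2 : x = u j ∨ x = v j) : i = j := by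
  by_contra hne
  have h3 := D.out.dis0 i hi j hj hne
  rw [Finset.disjoint_left] at h3
  exact h3 (a := x) (by simpa using h1) (by simpa using h2)

theorem ABASE_pr_uniq (D : Dat σ O Es Lv ∅ z0 z1 u v v' w b ρ ty lev h m dir gl Ls Lm Ru)
    {x : V} {i j : C} {k l : Fin 3} (h1 : ABASE_pr Lv u v ty x i k) (h2 : ABASE_pr Lv u v ty x j l) :
    i = j ∧ k = l := by
  have h3 := ABASE_pr_uv h1
  have h4 := ABASE_pr_uv h2
  have h5 : i = j := ABASE_pair D (D.lvO i h3.1) (D.lvO j h4.1) h3.2 h4.2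
  subst h5
  refine ⟨rfl, ?_⟩
  have hne := ABASE_uv_ne D (D.lvO i h3.1)
  rcases h1.2 with ⟨a1, a2, a3⟩ | ⟨a1, ⟨a2, a3⟩ | ⟨a2, a3⟩⟩ | ⟨a1, ⟨a2, a3⟩ | ⟨a2, a3⟩⟩ <;>
  rcases h2.2 with ⟨b1, b2, b3⟩ | ⟨b1, ⟨b2, b3⟩ | ⟨b2, b3⟩⟩ | ⟨b1, ⟨b2, b3⟩ | ⟨b2, b3⟩⟩ <;>
  first
    | exact a2.trans b2.symm
    | exact absurd (a1.symm.trans b1) (by decide)
    | exact absurd (a3.symm.trans b3) hne
    | exact absurd (b3.symm.trans a3) hne

section DatA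

variable (D : DatA σ O X Y Es Lv z0 z1 u v v' w b ρ ty lev h m dir gl Ls Lm Ru bt p q
    zp zq ze Rg)

include D

theorem ABASE_pr_b {i : C} (hi : i ∈ O) {j : C} {k : Fin 3} : ¬ ABASE_pr Lv u v ty (b i) j k := by
  intro hx
  have h1 := ABASE_pr_uv hx
  have h2 := D.dat.out.b0 i hi j (D.dat.lvO j h1.1)
  rcases h1.2 with h3 | h3
  · exact h2.1 h3
  · exact h2.2 h3

theorem ABASE_pr_c {i : C} (hi : i ∈ O) {j : C} {k : Fin 3} :
    ¬ ABASE_pr Lv u v ty (σ i (b i)) j k := by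
  intro hx
  have h1 := ABASE_pr_uv hx
  have h2 := D.lvk j h1.1 i hi
  rcases h1.2 with h3 | h3
  · exact h2.1 h3
  · exact h2.2 h3

/-- ends of the letters -/
theorem ABASE_pr_lm {g : Fin 3} {i : C} {z : V} (hL : (g, i, z) ∈ Lm) {x : V}
    (hx : x = z ∨ x = σ i z) :
    ((g, i, z) ∈ Ls ∧ ∃ j, ABASE_pr Lv u v ty x j 2) ∨
      ((g, i, z) ∉ Ls ∧ ∃ j ∈ Ru, ABASE_pr Lv u v ty x j 0) := by
  by_cases hs : (g, i, z) ∈ Ls
  · left
    refine ⟨hs, ABASE_spin.1 ?_⟩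
    obtain ⟨-, -, h1 | h1⟩ := D.dat.spl.s1 g i z hs
    · rcases hx with rfl | rfl
      · exact h1.1
      · exact h1.2.1
    · rcases hx with rfl | rfl
      · exact h1.2.1
      · exact h1.1
  · right
    refine ⟨hs, ?_⟩
    obtain ⟨j, hj, j', hj', -, h1, h2⟩ := D.dat.lt.res g i z hL hs
    rcases hx with rfl | rfl
    · have h3 := D.dat.lt.ru hj
      rw [Finset.mem_filter] at h3
      exact ⟨j, hj, h3.1, Or.inl ⟨h3.2, rfl, h1⟩⟩
    · have h3 := D.dat.lt.ru hj'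
      rw [Finset.mem_filter] at h3
      exact ⟨j', hj', h3.1, Or.inl ⟨h3.2, rfl, h2⟩⟩

theorem ABASE_pr_rg {i : C} (hi : i ∈ O) {x : V}
    (hx : x = bt i ∨ x = σ i (bt i) ∨ x = (σ i)⁻¹ (bt i)) :
    ∃ j ∈ Rg i, j ∉ Ru ∧ ABASE_pr Lv u v ty x j 0 := by
  obtain ⟨j, hj, h1⟩ := D.gad.rgb i hi x hx
  have h2 := D.gad.rg i hi hj
  rw [Finset.mem_sdiff, Finset.mem_filter] at h2
  exact ⟨j, hj, h2.2, h2.1.1, Or.inl ⟨h2.1.2, rfl, h1⟩⟩

theorem ABASE_pr_y {y : C} (hy : y ∈ Y) {x : V} (hx : x = ze y ∨ x = σ y (ze y)) :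
    ∃ j, ABASE_pr Lv u v ty x j 1 := by
  have h1 := D.ext.ol y hy
  rcases hx with rfl | rfl
  · exact ABASE_leaf.1 (ABASE_oleaf h1.1)
  · exact ABASE_leaf.1 (ABASE_oleaf h1.2)

theorem ABASE_rg_eq {i i' j : C} (hi : i ∈ O) (hi' : i' ∈ O) (h1 : j ∈ Rg i) (h2 : j ∈ Rg i') :
    i = i' := by
  by_contra hne
  exact Finset.disjoint_left.1 (D.gad.rgd i hi i' hi' hne) h1 h2

omit D in
theorem ABASE_mem {g : Fin 3} {i : C} {z : V} : (g, i, z) ∈ asetA O Y z0 Lm p q zp zq ze ↔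
    (g, i, z) ∈ m0set O z0 ∪ Lm ∨ (∃ j ∈ O, g = 1 ∧ i = p j ∧ z = zp j) ∨
      (∃ j ∈ O, g = 2 ∧ i = q j ∧ z = zq j) ∨ (i ∈ Y ∧ g = 1 ∧ z = ze i) := by
  have e1 : (∃ a ∈ O, ((1 : Fin 3), p a, zp a) = (g, i, z)) ↔
      ∃ j ∈ O, g = 1 ∧ i = p j ∧ z = zp j := by
    constructor
    · rintro ⟨a, ha, he⟩
      simp only [Prod.mk.injEq] at he
      exact ⟨a, ha, he.1.symm, he.2.1.symm, he.2.2.symm⟩
    · rintro ⟨a, ha, rfl, rfl, rfl⟩
      exact ⟨a, ha, rfl⟩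
  have e2 : (∃ a ∈ O, ((2 : Fin 3), q a, zq a) = (g, i, z)) ↔
      ∃ j ∈ O, g = 2 ∧ i = q j ∧ z = zq j := by
    constructor
    · rintro ⟨a, ha, he⟩
      simp only [Prod.mk.injEq] at he
      exact ⟨a, ha, he.1.symm, he.2.1.symm, he.2.2.symm⟩
    · rintro ⟨a, ha, rfl, rfl, rfl⟩
      exact ⟨a, ha, rfl⟩
  have e3 : (∃ a ∈ Y, ((1 : Fin 3), a, ze a) = (g, i, z)) ↔ (i ∈ Y ∧ g = 1 ∧ z = ze i) := by
    constructor
    · rintro ⟨a, ha, he⟩
      simp only [Prod.mk.injEq] at he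
      obtain ⟨rfl, rfl, rfl⟩ := he
      exact ⟨ha, rfl, rfl⟩
    · rintro ⟨ha, rfl, rfl⟩
      exact ⟨i, ha, rfl⟩
  rw [asetA, Finset.mem_union, Finset.mem_union (s := _ ∪ _), Finset.mem_union (s := image _ _),
    Finset.mem_image, Finset.mem_image, Finset.mem_image, e1, e2, e3, or_assoc]

omit D in
theorem ABASE_m0 {g : Fin 3} {i : C} {z : V} :
    (g, i, z) ∈ m0set O z0 ↔ g = 0 ∧ i ∉ O ∧ z = z0 i := by
  rw [m0set, Finset.mem_image]
  constructor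
  · rintro ⟨a, ha, he⟩
    simp only [Prod.mk.injEq] at he
    obtain ⟨rfl, rfl, rfl⟩ := he
    exact ⟨rfl, (Finset.mem_sdiff.1 ha).2, rfl⟩
  · rintro ⟨rfl, hi, rfl⟩
    exact ⟨i, Finset.mem_sdiff.2 ⟨Finset.mem_univ _, hi⟩, rfl⟩

/-- a letter has a nonzero label -/
theorem ABASE_lm_ne {g : Fin 3} {i : C} {z : V} (hL : (g, i, z) ∈ Lm) : g ≠ 0 := by
  obtain ⟨-, r, -, rfl⟩ := D.dat.lt.lab g i z hL
  exact (lb_ne (D.dat.gl0 i) r).1


/-- block AES -/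
theorem datA_es : ∀ g, ∀ i ∈ Es, ∀ z, (g, i, z) ∈ asetA O Y z0 Lm p q zp zq ze ↔
      (g, i, z) ∈ m0set O z0 ∪ Lm := by
  intro g i hi z
  rw [ABASE_mem]
  constructor
  · rintro (h1 | ⟨j, hj, -, rfl, -⟩ | ⟨j, hj, -, rfl, -⟩ | ⟨hy, -, -⟩)
    · exact h1
    · exact absurd hi (D.xO _ (D.gad.px j hj).1).2
    · exact absurd hi (D.xO _ (D.gad.px j hj).2).2
    · exact absurd hi (D.xO _ ((D.yy i).1 hy).1).2
  · exact fun h1 => Or.inl h1

theorem ABASE_even {g : Fin 3} {i : C} {z : V} (hA : (g, i, z) ∈ asetA O Y z0 Lm p q zp zq ze) :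
    i ∉ O := by
  rw [ABASE_mem] at hA
  rcases hA with h1 | ⟨j, hj, -, rfl, -⟩ | ⟨j, hj, -, rfl, -⟩ | ⟨hy, -, -⟩
  · rcases Finset.mem_union.1 h1 with h2 | h2
    · exact (ABASE_m0.1 h2).2.1
    · exact D.dat.esO i (D.dat.lt.lab g i z h2).1
  · exact (D.xO _ (D.gad.px j hj).1).1
  · exact (D.xO _ (D.gad.px j hj).2).1
  · exact (D.xO _ ((D.yy i).1 hy).1).1

/-- an `M₀` edge is not a square of the gaps 1, 2 -/
theorem ABASE_z0 {g : Fin 3} {i : C} {z : V} (hA : (g, i, z) ∈ asetA O Y z0 Lm p q zp zq ze)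
    (hz : z = z0 i) : g = 0 := by
  have hO := ABASE_even D hA
  have he := D.dat.out.e0 i hO
  rw [ABASE_mem] at hA
  rcases hA with h1 | ⟨j, hj, -, rfl, h3⟩ | ⟨j, hj, -, rfl, h3⟩ | ⟨hy, -, h3⟩
  · rcases Finset.mem_union.1 h1 with h2 | h2
    · exact (ABASE_m0.1 h2).1
    · obtain ⟨-, r, hr, -⟩ := D.dat.lt.lab g i z h2
      exact absurd hz hr.1
  · exfalso
    have h4 := D.gad.ep j hj
    rw [← h3, hz, he] at h4
    have h5 : b j ∈ s(u (p j), v (p j)) := by rw [h4]; exact Sym2.mem_mk_left _ _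
    have h6 := D.dat.out.b0 j hj (p j) hO
    rcases Sym2.mem_iff.1 h5 with h7 | h7
    · exact h6.1 h7
    · exact h6.2 h7
  · exfalso
    have h4 := D.gad.eq j hj
    rw [← h3, hz, he] at h4
    have h5 : σ j (bt j) ∈ s(u (q j), v (q j)) := by rw [h4]; exact Sym2.mem_mk_right _ _
    have h6 : σ j (b j) ∈ s(u (q j), v (q j)) := by rw [h4]; exact Sym2.mem_mk_left _ _
    obtain ⟨k, hk, -, h7⟩ := ABASE_pr_rg D hj (x := σ j (bt j)) (Or.inr (Or.inl rfl))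
    have h8 := ABASE_pr_uv h7
    have h9 := ABASE_pair D.dat (D.dat.lvO k h8.1) hO h8.2 (Sym2.mem_iff.1 h5)
    subst h9
    have h10 := D.lvk _ h8.1 j hj
    rcases Sym2.mem_iff.1 h6 with h7 | h7
    · exact h10.1 h7
    · exact h10.2 h7
  · exfalso
    rw [hz] at h3
    have h4 := D.ext.ol i hy
    have h5 : ∀ x, x = u i ∨ x = v i → oleaf Lv u v ty lev x := by
      intro x hx
      have h6 := (ABASE_ends he).2 hx
      rw [h3] at h6
      rcases h6 with rfl | rfl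
      · exact h4.1
      · exact h4.2
    have h6 := ABASE_leaf.1 (ABASE_oleaf (h5 (u i) (Or.inl rfl)))
    have h7 := ABASE_leaf.1 (ABASE_oleaf (h5 (v i) (Or.inr rfl)))
    obtain ⟨j, hj⟩ := h6
    obtain ⟨k, hk⟩ := h7
    have hj' := ABASE_pr_uv hj
    have hk' := ABASE_pr_uv hk
    have e1 : j = i := ABASE_pair D.dat (D.dat.lvO j hj'.1) hO hj'.2 (Or.inl rfl)
    have e2 : k = i := ABASE_pair D.dat (D.dat.lvO k hk'.1) hO hk'.2 (Or.inr rfl)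
    subst e1
    subst e2
    have hne := ABASE_uv_ne D.dat hO
    rcases hj.2 with ⟨-, a2, -⟩ | ⟨a1, ⟨-, a3⟩ | ⟨a2, -⟩⟩ | ⟨a1, ⟨-, a3⟩ | ⟨a2, -⟩⟩
    · exact absurd a2 (by decide)
    · rcases hk.2 with ⟨-, b2, -⟩ | ⟨b1, ⟨-, b3⟩ | ⟨b2, -⟩⟩ | ⟨b1, ⟨-, b3⟩ | ⟨b2, -⟩⟩
      · exact absurd b2 (by decide)
      · exact hne b3.symm
      · exact absurd b2 (by decide)
      · exact absurd (a1.symm.trans b1) (by decide)
      · exact absurd b2 (by decide)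
    · exact absurd a2 (by decide)
    · exact hne a3
    · exact absurd a2 (by decide)

theorem ABASE_one {g g' : Fin 3} {i : C} {z : V}
    (hA : (g, i, z) ∈ asetA O Y z0 Lm p q zp zq ze)
    (hA' : (g', i, z) ∈ asetA O Y z0 Lm p q zp zq ze) : g = g' := by
  by_cases hz : z = z0 i
  · rw [ABASE_z0 D hA hz, ABASE_z0 D hA' hz]
  have key : ∀ j ∈ O, p j = q j → zp j ≠ zq j := by
    intro j hj hpq he
    have h4 := D.gad.ep j hj
    have h5 := D.gad.eq j hj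
    rw [hpq, he, h5] at h4
    have h6 : b j ∈ s(σ j (b j), σ j (bt j)) := by rw [h4]; exact Sym2.mem_mk_left _ _
    rcases Sym2.mem_iff.1 h6 with h7 | h7
    · exact (hd_ne D.dat.hd j (b j)).1 h7.symm
    · obtain ⟨k, -, -, h8⟩ := ABASE_pr_rg D hj (x := σ j (bt j)) (Or.inr (Or.inl rfl))
      rw [← h7] at h8
      exact ABASE_pr_b D hj h8
  have hes : ∀ g z, (g, i, z) ∈ m0set O z0 ∪ Lm → z ≠ z0 i → i ∈ Es ∧ (g, i, z) ∈ Lm := by
    intro g z h1 h2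
    rcases Finset.mem_union.1 h1 with h3 | h3
    · exact absurd (ABASE_m0.1 h3).2.2 h2
    · exact ⟨(D.dat.lt.lab g i z h3).1, h3⟩
  rw [ABASE_mem] at hA hA'
  rcases hA with h1 | ⟨j, hj, rfl, rfl, h3⟩ | ⟨j, hj, rfl, rfl, h3⟩ | ⟨hy, rfl, h3⟩
  · obtain ⟨hiE, h1L⟩ := hes g z h1 hz
    rcases hA' with h1' | ⟨j, hj, -, rfl, -⟩ | ⟨j, hj, -, rfl, -⟩ | ⟨hy, -, -⟩
    · obtain ⟨-, h1L'⟩ := hes g' z h1' hz
      obtain ⟨-, r, hr, rfl⟩ := D.dat.lt.lab g i z h1L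
      obtain ⟨-, r', hr', rfl⟩ := D.dat.lt.lab g' i z h1L'
      rw [mand_unique hr hr']
    · exact absurd hiE (D.xO _ (D.gad.px j hj).1).2
    · exact absurd hiE (D.xO _ (D.gad.px j hj).2).2
    · exact absurd hiE (D.xO _ ((D.yy i).1 hy).1).2
  · rcases hA' with h1' | ⟨j', hj', rfl, h4, -⟩ | ⟨j', hj', rfl, h4, h5⟩ | ⟨hy, rfl, -⟩
    · obtain ⟨hiE, -⟩ := hes g' z h1' hz
      exact absurd hiE (D.xO _ (D.gad.px j hj).1).2
    · rfl
    · by_cases hjj : j = j'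
      · subst hjj
        exact absurd (h3.symm.trans h5) (key j hj h4)
      · exact absurd h4 (D.gad.col j hj j' hj' hjj).2.1
    · rfl
  · rcases hA' with h1' | ⟨j', hj', rfl, h4, h5⟩ | ⟨j', hj', rfl, h4, -⟩ | ⟨hy, rfl, -⟩
    · obtain ⟨hiE, -⟩ := hes g' z h1' hz
      exact absurd hiE (D.xO _ (D.gad.px j hj).2).2
    · by_cases hjj : j = j'
      · subst hjj
        exact absurd (h5.symm.trans h3) (key j hj h4.symm)
      · exact absurd h4 (D.gad.col j hj j' hj' hjj).2.2.1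
    · rfl
    · exact absurd rfl (((D.yy _).1 hy).2 j hj).2
  · rcases hA' with h1' | ⟨j', hj', rfl, h4, -⟩ | ⟨j', hj', rfl, rfl, -⟩ | ⟨-, rfl, -⟩
    · obtain ⟨hiE, -⟩ := hes g' z h1' hz
      exact absurd hiE (D.xO _ ((D.yy i).1 hy).1).2
    · rfl
    · exact absurd rfl (((D.yy _).1 hy).2 j' hj').2
    · rfl

/-- the kinds of the ends of the squares of the gaps 1, 2 -/
theorem ABASE_kind {g : Fin 3} {i : C} {z x : V}
    (hA : (g, i, z) ∈ asetA O Y z0 Lm p q zp zq ze) (hx : x = z ∨ x = σ i z) :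
    (g = 0 ∧ (g, i, z) ∈ m0set O z0 ∪ Lm ∧ (x = u i ∨ x = v i)) ∨
    (g ≠ 0 ∧ (g, i, z) ∈ m0set O z0 ∪ Lm ∧ ((∃ j, ABASE_pr Lv u v ty x j 2) ∨
      ∃ j ∈ Ru, ABASE_pr Lv u v ty x j 0)) ∨
    (g = 1 ∧ ∃ j ∈ O, i = p j ∧ z = zp j ∧ (x = b j ∨
      (x = (σ j)⁻¹ (bt j) ∧ ∃ k ∈ Rg j, k ∉ Ru ∧ ABASE_pr Lv u v ty x k 0))) ∨
    (g = 2 ∧ ∃ j ∈ O, i = q j ∧ z = zq j ∧ (x = σ j (b j) ∨
      (x = σ j (bt j) ∧ ∃ k ∈ Rg j, k ∉ Ru ∧ ABASE_pr Lv u v ty x k 0))) ∨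
    (g = 1 ∧ i ∈ Y ∧ z = ze i ∧ ∃ j, ABASE_pr Lv u v ty x j 1) := by
  rw [ABASE_mem] at hA
  rcases hA with h1 | ⟨j, hj, rfl, rfl, rfl⟩ | ⟨j, hj, rfl, rfl, rfl⟩ | ⟨hy, rfl, rfl⟩
  · by_cases hg : g = 0
    · left
      refine ⟨hg, h1, ?_⟩
      rcases Finset.mem_union.1 h1 with h2 | h2
      · obtain ⟨-, h3, rfl⟩ := ABASE_m0.1 h2
        exact (ABASE_ends (D.dat.out.e0 i h3)).1 hx
      · exact absurd hg (ABASE_lm_ne D h2)
    · right; left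
      refine ⟨hg, h1, ?_⟩
      rcases Finset.mem_union.1 h1 with h2 | h2
      · exact absurd (ABASE_m0.1 h2).1 hg
      · rcases ABASE_pr_lm D h2 hx with h3 | h3
        · exact Or.inl h3.2
        · exact Or.inr h3.2
  · right; right; left
    refine ⟨rfl, j, hj, rfl, rfl, ?_⟩
    rcases (ABASE_ends (D.gad.ep j hj)).1 hx with h1 | h1
    · exact Or.inl h1
    · exact Or.inr ⟨h1, ABASE_pr_rg D hj (Or.inr (Or.inr h1))⟩
  · right; right; right; left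
    refine ⟨rfl, j, hj, rfl, rfl, ?_⟩
    rcases (ABASE_ends (D.gad.eq j hj)).1 hx with h1 | h1
    · exact Or.inl h1
    · exact Or.inr ⟨h1, ABASE_pr_rg D hj (Or.inr (Or.inl h1))⟩
  · right; right; right; right
    exact ⟨rfl, hy, rfl, ABASE_pr_y D hy hx⟩

theorem ABASE_sep {g : Fin 3} {i i' : C} {z z' : V}
    (hA : (g, i, z) ∈ asetA O Y z0 Lm p q zp zq ze)
    (hA' : (g, i', z') ∈ asetA O Y z0 Lm p q zp zq ze) {x : V} (hx : x = z ∨ x = σ i z)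
    (hx' : x = z' ∨ x = σ i' z') : (i, z) = (i', z') := by
  have hpr : ∀ {j j' : C} {k k' : Fin 3}, ABASE_pr Lv u v ty x j k → ABASE_pr Lv u v ty x j' k' →
      j = j' ∧ k = k' := fun h1 h2 => ABASE_pr_uniq D.dat h1 h2
  rcases ABASE_kind D hA hx with ⟨a1, a2, a3⟩ | ⟨a1, a2, a3⟩ | ⟨a1, j, hj, a2, a3, a4⟩ |
    ⟨a1, j, hj, a2, a3, a4⟩ | ⟨a1, a2, a3, a4⟩ <;>
  rcases ABASE_kind D hA' hx' with ⟨b1, b2, b3⟩ | ⟨b1, b2, b3⟩ | ⟨b1, j', hj', b2, b3, b4⟩ |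
    ⟨b1, j', hj', b2, b3, b4⟩ | ⟨b1, b2, b3, b4⟩
  · by_contra hne
    have h1 := (dat_base D.dat (b0 := b) (bt0 := b)).sep g i z i' z' a2 b2 hne
    exact Finset.disjoint_left.1 h1 (show x ∈ ({z, σ i z} : Finset V) by simpa using hx)
      (show x ∈ ({z', σ i' z'} : Finset V) by simpa using hx')
  · exact absurd a1 b1
  · exact absurd (a1.symm.trans b1) (by decide)
  · exact absurd (a1.symm.trans b1) (by decide)
  · exact absurd (a1.symm.trans b1) (by decide)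
  · exact absurd b1 a1
  · by_contra hne
    have h1 := (dat_base D.dat (b0 := b) (bt0 := b)).sep g i z i' z' a2 b2 hne
    exact Finset.disjoint_left.1 h1 (show x ∈ ({z, σ i z} : Finset V) by simpa using hx)
      (show x ∈ ({z', σ i' z'} : Finset V) by simpa using hx')
  · exfalso
    rcases b4 with rfl | ⟨-, k, hk, hkR, b4⟩
    · rcases a3 with ⟨l, a3⟩ | ⟨l, -, a3⟩ <;> exact ABASE_pr_b D hj' a3
    · rcases a3 with ⟨l, a3⟩ | ⟨l, hl, a3⟩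
      · exact absurd (hpr a3 b4).2 (by decide)
      · exact hkR ((hpr a3 b4).1 ▸ hl)
  · exfalso
    rcases b4 with rfl | ⟨-, k, hk, hkR, b4⟩
    · rcases a3 with ⟨l, a3⟩ | ⟨l, -, a3⟩ <;> exact ABASE_pr_c D hj' a3
    · rcases a3 with ⟨l, a3⟩ | ⟨l, hl, a3⟩
      · exact absurd (hpr a3 b4).2 (by decide)
      · exact hkR ((hpr a3 b4).1 ▸ hl)
  · exfalso
    obtain ⟨k, b4⟩ := b4
    rcases a3 with ⟨l, a3⟩ | ⟨l, hl, a3⟩ <;> exact absurd (hpr a3 b4).2 (by decide)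
  · exact absurd (a1.symm.trans b1) (by decide)
  · exfalso
    rcases a4 with rfl | ⟨-, k, hk, hkR, a4⟩
    · rcases b3 with ⟨l, b3⟩ | ⟨l, -, b3⟩ <;> exact ABASE_pr_b D hj b3
    · rcases b3 with ⟨l, b3⟩ | ⟨l, hl, b3⟩
      · exact absurd (hpr b3 a4).2 (by decide)
      · exact hkR ((hpr b3 a4).1 ▸ hl)
  · have hjj : j = j' := by
      rcases a4 with rfl | ⟨-, k, hk, -, a4⟩
      · rcases b4 with b4 | ⟨-, k', hk', -, b4⟩
        · exact D.dat.out.binj j hj j' hj' b4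
        · exact absurd b4 (ABASE_pr_b D hj)
      · rcases b4 with rfl | ⟨-, k', hk', -, b4⟩
        · exact absurd a4 (ABASE_pr_b D hj')
        · have := (hpr a4 b4).1
          subst this
          exact ABASE_rg_eq D hj hj' hk hk'
    subst hjj
    rw [a2, a3, b2, b3]
  · exact absurd (a1.symm.trans b1) (by decide)
  · exfalso
    obtain ⟨l, b4⟩ := b4
    rcases a4 with rfl | ⟨-, k, hk, -, a4⟩
    · exact ABASE_pr_b D hj b4
    · exact absurd (hpr a4 b4).2 (by decide)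
  · exact absurd (a1.symm.trans b1) (by decide)
  · exfalso
    rcases a4 with rfl | ⟨-, k, hk, hkR, a4⟩
    · rcases b3 with ⟨l, b3⟩ | ⟨l, -, b3⟩ <;> exact ABASE_pr_c D hj b3
    · rcases b3 with ⟨l, b3⟩ | ⟨l, hl, b3⟩
      · exact absurd (hpr b3 a4).2 (by decide)
      · exact hkR ((hpr b3 a4).1 ▸ hl)
  · exact absurd (a1.symm.trans b1) (by decide)
  · have hjj : j = j' := by
      rcases a4 with rfl | ⟨-, k, hk, -, a4⟩
      · rcases b4 with b4 | ⟨-, k', hk', -, b4⟩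
        · exact D.dat.out.cinj j hj j' hj' b4
        · exact absurd b4 (ABASE_pr_c D hj)
      · rcases b4 with rfl | ⟨-, k', hk', -, b4⟩
        · exact absurd a4 (ABASE_pr_c D hj')
        · have := (hpr a4 b4).1
          subst this
          exact ABASE_rg_eq D hj hj' hk hk'
    subst hjj
    rw [a2, a3, b2, b3]
  · exact absurd (a1.symm.trans b1) (by decide)
  · exact absurd (a1.symm.trans b1) (by decide)
  · exfalso
    obtain ⟨k, a4⟩ := a4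
    rcases b3 with ⟨l, b3⟩ | ⟨l, hl, b3⟩ <;> exact absurd (hpr b3 a4).2 (by decide)
  · exfalso
    obtain ⟨l, a4⟩ := a4
    rcases b4 with rfl | ⟨-, k, hk, -, b4⟩
    · exact ABASE_pr_b D hj' a4
    · exact absurd (hpr a4 b4).2 (by decide)
  · exact absurd (a1.symm.trans b1) (by decide)
  · by_contra hne
    have hii : i ≠ i' := by
      rintro rfl
      exact hne (by rw [a3, b3])
    have h1 := D.ext.dis i a2 i' b2 hii
    rw [← a3, ← b3] at h1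
    exact Finset.disjoint_left.1 h1 (show x ∈ ({z, σ i z} : Finset V) by simpa using hx)
      (show x ∈ ({z', σ i' z'} : Finset V) by simpa using hx')

/-- block ABASE -/
theorem datA_base : Base σ ⟨O, b, bt⟩ (asetA O Y z0 Lm p q zp zq ze) := by
  have hbt : ∀ i ∈ O, ∀ i' ∈ O, ∀ x, (x = bt i ∨ x = σ i (bt i) ∨ x = (σ i)⁻¹ (bt i)) →
      (x = bt i' ∨ x = σ i' (bt i') ∨ x = (σ i')⁻¹ (bt i')) → i = i' := by
    intro i hi i' hi' x hx hx'
    obtain ⟨k, hk, -, h1⟩ := ABASE_pr_rg D hi hx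
    obtain ⟨k', hk', -, h2⟩ := ABASE_pr_rg D hi' hx'
    have h3 := (ABASE_pr_uniq D.dat h1 h2).1
    subst h3
    exact ABASE_rg_eq D hi hi' hk hk'
  refine ⟨fun g i z hA => ABASE_even D hA, fun g g' i z h1 h2 => ABASE_one D h1 h2, ?_, ?_, ?_, ?_,
    ?_, ?_⟩
  · intro g i z i' z' h1 h2 hne
    rw [Finset.disjoint_left]
    intro x hx hx'
    exact hne (ABASE_sep D h1 h2 (x := x) (by simpa using hx) (by simpa using hx'))
  · intro t i hi i' hi' he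
    unfold tok at he
    dsimp only at he
    split_ifs at he
    · exact D.dat.out.binj i hi i' hi' he
    · exact hbt i hi i' hi' (bt i) (Or.inl rfl) (Or.inl he)
    · exact D.dat.out.cinj i hi i' hi' he
  · rintro g i hi ⟨i', z, hA, hx⟩
    dsimp only at hi hx
    have hc := ABASE_kind D hA hx
    unfold tok at hc
    dsimp only at hc
    fin_cases g
    · simp only [Fin.castSucc_zero, Fin.zero_eta, Fin.isValue, if_true] at hc
      rcases hc with ⟨-, h1, h2⟩ | ⟨h1, -⟩ | ⟨h1, -⟩ | ⟨h1, -⟩ | ⟨h1, -⟩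
      · have h3 := D.dat.out.b0 i hi i' (ABASE_even D hA)
        rcases h2 with h2 | h2
        · exact h3.1 h2
        · exact h3.2 h2
      · exact absurd rfl h1
      · exact absurd h1 (by decide)
      · exact absurd h1 (by decide)
      · exact absurd h1 (by decide)
    · have e1 : ¬ (Fin.castSucc ⟨1, by decide⟩ : Fin 4) = 0 := by decide
      have e2 : ¬ (Fin.castSucc ⟨1, by decide⟩ : Fin 4) = 2 := by decide
      rw [if_neg e1, if_neg e2] at hc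
      rcases hc with ⟨h1, -⟩ | ⟨-, -, h1⟩ | ⟨-, j, hj, -, -, h1⟩ | ⟨h1, -⟩ | ⟨-, -, -, h1⟩
      · exact absurd h1 (by decide)
      · rcases h1 with ⟨j, h1⟩ | ⟨j, -, h1⟩ <;> exact ABASE_pr_c D hi h1
      · rcases h1 with h1 | ⟨-, k, -, -, h1⟩
        · exact D.dat.out.bc j hj i hi h1.symm
        · exact ABASE_pr_c D hi h1
      · exact absurd h1 (by decide)
      · obtain ⟨j, h1⟩ := h1
        exact ABASE_pr_c D hi h1
    · have e1 : ¬ (Fin.castSucc ⟨2, by decide⟩ : Fin 4) = 0 := by decide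
      have e2 : (Fin.castSucc ⟨2, by decide⟩ : Fin 4) = 2 := by decide
      rw [if_neg e1, if_pos e2] at hc
      obtain ⟨k, hk, hkR, h0⟩ := ABASE_pr_rg D hi (x := bt i) (Or.inl rfl)
      rcases hc with ⟨h1, -⟩ | ⟨-, -, h1⟩ | ⟨h1, -⟩ | ⟨-, j, hj, -, -, h1⟩ | ⟨h1, -⟩
      · exact absurd h1 (by decide)
      · rcases h1 with ⟨j, h1⟩ | ⟨j, hj, h1⟩
        · exact absurd (ABASE_pr_uniq D.dat h0 h1).2 (by decide)
        · exact hkR ((ABASE_pr_uniq D.dat h0 h1).1 ▸ hj)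
      · exact absurd h1 (by decide)
      · rcases h1 with h1 | ⟨h1, -⟩
        · rw [h1] at h0
          exact ABASE_pr_c D hj h0
        · have h2 := hbt i hi j hj (bt i) (Or.inl rfl) (Or.inr (Or.inl h1))
          subst h2
          exact (hd_ne D.dat.hd i (bt i)).1 h1.symm
      · exact absurd h1 (by decide)
  · intro i hi
    exact ⟨p i, zp i, ABASE_mem.2 (Or.inr (Or.inl ⟨i, hi, rfl, rfl, rfl⟩)), D.gad.ep i hi⟩
  · intro i hi
    exact ⟨q i, zq i, ABASE_mem.2 (Or.inr (Or.inr (Or.inl ⟨i, hi, rfl, rfl, rfl⟩))), D.gad.eq i hi⟩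
  · intro i hi i' hi' hne
    dsimp only at hi hi'
    rw [Finset.disjoint_left]
    intro x hx hx'
    simp only [Finset.mem_insert, Finset.mem_singleton] at hx hx'
    have hc : ∀ i : C, (x = b i ∨ x = σ i (b i) ∨ x = (σ i)⁻¹ (bt i) ∨ x = bt i ∨ x = σ i (bt i)) →
        x = b i ∨ x = σ i (b i) ∨ (x = bt i ∨ x = σ i (bt i) ∨ x = (σ i)⁻¹ (bt i)) := by
      intro i h1
      tauto
    rcases hc i hx with h1 | h1 | h1 <;> rcases hc i' hx' with h2 | h2 | h2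
    · exact hne (D.dat.out.binj i hi i' hi' (h1.symm.trans h2))
    · exact D.dat.out.bc i hi i' hi' (h1.symm.trans h2)
    · obtain ⟨k, -, -, h3⟩ := ABASE_pr_rg D hi' h2
      rw [h1] at h3
      exact ABASE_pr_b D hi h3
    · exact D.dat.out.bc i' hi' i hi (h2.symm.trans h1)
    · exact hne (D.dat.out.cinj i hi i' hi' (h1.symm.trans h2))
    · obtain ⟨k, -, -, h3⟩ := ABASE_pr_rg D hi' h2
      rw [h1] at h3
      exact ABASE_pr_c D hi h3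
    · obtain ⟨k, -, -, h3⟩ := ABASE_pr_rg D hi h1
      rw [h2] at h3
      exact ABASE_pr_b D hi' h3
    · obtain ⟨k, -, -, h3⟩ := ABASE_pr_rg D hi h1
      rw [h2] at h3
      exact ABASE_pr_c D hi' h3
    · exact hne (hbt i hi i' hi' x h1 h2)

end DatA

end Pool.Agent.KZ
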