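import Pool.Agent.Lib_helper15.KZF.DefsA
import Pool.Agent.Lib_helper15.KZF.DefsN

/-! Block CYC (helper38): one-cycle permutations and positions. -/

set_option autoImplicit false

namespace Pool.Agent.KZ

open Finset

variable {V C : Type} [Fintype V] [DecidableEq V] [Fintype C] [DecidableEq C]
variable {σ : C → Equiv.Perm V}

omit [Fintype V] [DecidableEq V] in
theorem CYC_ai (f : Equiv.Perm V) (x : V) : f (f⁻¹ x) = x := f.apply_symm_apply x

theorem CYC_on (h : HD σ) (i : C) : (σ i).IsCycleOn ((univ : Finset V) : Set V) := by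
  refine ⟨?_, ?_⟩
  · rw [Finset.coe_univ]
    exact (σ i).bijective.bijOn_univ
  · intro x _ y _
    obtain ⟨k, hk⟩ := h.cyc i x y
    exact ⟨k, by rw [zpow_natCast]; exact hk⟩

theorem cyc_inj (h : HD σ) (i : C) (x : V) {r s : ℕ} (hr : r < Fintype.card V)
    (hs : s < Fintype.card V) (he : (σ i ^ r) x = (σ i ^ s) x) : r = s := by
  have h1 := ((CYC_on h i).pow_apply_eq_pow_apply (mem_univ x)).mp he
  rw [Finset.card_univ] at h1
  exact Nat.ModEq.eq_of_lt_of_lt h1 hr hs

theorem cyc_surj (h : HD σ) (i : C) (x y : V) : ∃ r < Fintype.card V, (σ i ^ r) x = y := by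
  have h1 := (CYC_on h i).exists_pow_eq (mem_univ x) (mem_univ y)
  rwa [Finset.card_univ] at h1

theorem cyc_card (h : HD σ) (i : C) (x : V) : (σ i ^ Fintype.card V) x = x := by
  rw [(CYC_on h i).pow_apply_eq (mem_univ x), Finset.card_univ]

theorem ps_spec (h : HD σ) (z0 : C → V) (i : C) (x : V) :
    (σ i ^ (ps σ z0 i x + 1)) (z0 i) = x ∧ ps σ z0 i x < Fintype.card V := by
  obtain ⟨r, hr, h1⟩ := cyc_surj h i (σ i (z0 i)) x
  have h2 : r ∈ {r : ℕ | (σ i ^ (r + 1)) (z0 i) = x} := by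
    show (σ i ^ (r + 1)) (z0 i) = x
    rw [pow_succ, Equiv.Perm.mul_apply]
    exact h1
  refine ⟨Nat.sInf_mem ⟨r, h2⟩, lt_of_le_of_lt (Nat.sInf_le h2) hr⟩

theorem ps_eq (h : HD σ) (z0 : C → V) (i : C) (x : V) {r : ℕ} (hr : r < Fintype.card V)
    (he : (σ i ^ (r + 1)) (z0 i) = x) : ps σ z0 i x = r := by
  obtain ⟨h1, h2⟩ := ps_spec h z0 i x
  rw [pow_succ, Equiv.Perm.mul_apply] at h1 he
  exact cyc_inj h i (σ i (z0 i)) h2 hr (h1.trans he.symm)

theorem ps_z0 (h : HD σ) (z0 : C → V) (i : C) :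
    ps σ z0 i (z0 i) = Fintype.card V - 1 := by
  have h3 := h.three
  apply ps_eq h z0 i (z0 i) (by omega)
  rw [Nat.sub_add_cancel (by omega)]
  exact cyc_card h i (z0 i)

theorem ps_lt (h : HD σ) (z0 : C → V) (i : C) {x : V} (hx : x ≠ z0 i) :
    ps σ z0 i x < Fintype.card V - 1 := by
  have h3 := h.three
  obtain ⟨h1, h2⟩ := ps_spec h z0 i x
  by_contra hc
  have h4 : ps σ z0 i x + 1 = Fintype.card V := by omega
  rw [h4, cyc_card h i (z0 i)] at h1
  exact hx h1.symm

theorem ps_succ (h : HD σ) (z0 : C → V) (i : C) {x : V} (hx : x ≠ z0 i) :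
    ps σ z0 i (σ i x) = ps σ z0 i x + 1 := by
  have h3 := ps_lt h z0 i hx
  obtain ⟨h1, h2⟩ := ps_spec h z0 i x
  apply ps_eq h z0 i (σ i x) (by omega)
  rw [pow_succ', Equiv.Perm.mul_apply, h1]

theorem CYC_ne (h : HD σ) (i : C) (x : V) : σ i x ≠ x := by
  intro h1
  have h3 := h.three
  have h2 := cyc_inj h i x (r := 1) (s := 0) (by omega) (by omega) (by simpa using h1)
  omega

theorem CYC_ne2 (h : HD σ) (i : C) (x : V) : σ i x ≠ (σ i)⁻¹ x := by
  intro h1
  have h3 := h.three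
  have h2 : σ i (σ i x) = x := by
    rw [h1]
    exact CYC_ai (σ i) x
  have h4 := cyc_inj h i x (r := 2) (s := 0) (by omega) (by omega) (by
    rw [pow_two, Equiv.Perm.mul_apply, h2]
    rfl)
  omega

theorem nb_inj (h : HD σ) (x : V) : Function.Injective (fun p : C × Bool => nb σ p x) := by
  rintro ⟨i, s⟩ ⟨j, t⟩ hp
  by_cases hij : i = j
  · subst hij
    unfold nb at hp
    cases s <;> cases t
    · rfl
    · simp only [if_true] at hp
      exact absurd hp.symm (CYC_ne2 h i x)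
    · simp only [if_true] at hp
      exact absurd hp (CYC_ne2 h i x)
    · rfl
  · exfalso
    unfold nb at hp
    cases s <;> cases t
    · simp only [Bool.false_eq_true, if_false] at hp
      have h1 := (h.disj i j ((σ i)⁻¹ x) hij).1
      apply h1
      rw [CYC_ai, hp, CYC_ai]
    · simp only [Bool.false_eq_true, if_false, if_true] at hp
      exact (h.disj j i x (Ne.symm hij)).2 hp.symm
    · simp only [Bool.false_eq_true, if_false, if_true] at hp
      exact (h.disj i j x hij).2 hp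
    · simp only [if_true] at hp
      exact (h.disj i j x hij).1 hp

theorem nb_ne (h : HD σ) (p : C × Bool) (x : V) : nb σ p x ≠ x := by
  obtain ⟨i, s⟩ := p
  unfold nb
  cases s
  · simp only [Bool.false_eq_true, if_false]
    intro h1
    apply CYC_ne h i x
    rw [Equiv.Perm.inv_eq_iff_eq] at h1
    exact h1.symm
  · simp only [if_true]
    exact CYC_ne h i x

theorem ed_nb (σ : C → Equiv.Perm V) (p : C × Bool) (x : V) :
    ed σ p.1 (es σ p x) = s(x, nb σ p x) := by
  obtain ⟨i, s⟩ := p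
  unfold ed es nb
  cases s
  · simp only [Bool.false_eq_true, if_false]
    rw [CYC_ai, Sym2.eq_swap]
  · simp only [if_true]

theorem nb_nb (σ : C → Equiv.Perm V) (i : C) (s : Bool) (x : V) :
    nb σ (i, !s) (nb σ (i, s) x) = x := by
  unfold nb
  cases s
  · simp
  · simp

theorem CYC_mand_aux {a b L n : ℕ} (hab : a < b) (h1 : b * L ≤ n) (h2 : n < (a + 1) * L) :
    False := by
  have h3 : (a + 1) * L ≤ b * L := Nat.mul_le_mul_right L hab
  omega

theorem mand_unique {z0 : C → V} {dir : C → Bool} {m : C → ℕ} {i : C} {x : V} {r s : ℕ}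
    (h1 : mand σ z0 dir m i x r) (h2 : mand σ z0 dir m i x s) : r = s := by
  obtain ⟨-, -, a1, a2⟩ := h1
  obtain ⟨-, -, b1, b2⟩ := h2
  rcases lt_trichotomy r s with h | h | h
  · exact (CYC_mand_aux h b1 a2).elim
  · exact h
  · exact (CYC_mand_aux h a1 b2).elim

theorem mand_optr {z0 : C → V} {dir : C → Bool} {m : C → ℕ} {i : C} {x : V} {r : ℕ}
    (h1 : mand σ z0 dir m i x r) (h2 : optr σ z0 dir i x) : False := by
  obtain ⟨-, a1, -, a2⟩ := h1
  obtain ⟨-, b1⟩ := h2
  have h3 : (r + 1) * ((Fintype.card V - 1) / 2 / m i) ≤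
      m i * ((Fintype.card V - 1) / 2 / m i) := Nat.mul_le_mul_right _ a1
  have h4 := Nat.mul_div_le ((Fintype.card V - 1) / 2) (m i)
  omega

theorem CYC_lb (g : Fin 3) (hg : g ≠ 0) : g ≠ (if g = 1 then 2 else 1) ∧
    (if g = 1 then (2 : Fin 3) else 1) ≠ 0 := by
  revert hg
  revert g
  decide

theorem lb_ne {g : Fin 3} (hg : g ≠ 0) (r : ℕ) : lb g r ≠ 0 ∧ lb g r ≠ lb g (r + 1) := by
  obtain ⟨h1, h2⟩ := CYC_lb g hg
  unfold lb
  rcases Nat.mod_two_eq_zero_or_one r with h | h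
  · have h' : ¬ (r + 1) % 2 = 0 := by omega
    rw [if_pos h, if_neg h']
    exact ⟨hg, h1⟩
  · have h' : (r + 1) % 2 = 0 := by omega
    have h'' : ¬ r % 2 = 0 := by omega
    rw [if_neg h'', if_pos h']
    exact ⟨h2, h1.symm⟩

end Pool.Agent.KZ
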