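import Pool.Agent.Lib_helper15.KZF.ABASE
import Pool.Agent.Lib_helper15.KZF.CYC
import Pool.Agent.Lib_helper15.KZF.DefsA
import Pool.Agent.Lib_helper15.KZF.DefsN
import Pool.Agent.Lib_helper15.KZF.ED

/-!
# Block AFREE
-/

set_option autoImplicit false
set_option linter.unusedSectionVars false

namespace Pool.Agent.KZ

open Finset

variable {V C : Type} [Fintype V] [DecidableEq V] [Fintype C] [DecidableEq C]

variable {σ : C → Equiv.Perm V} {O X Y Es Lv : Finset C}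
  {z0 z1 u v v' w b : C → V} {ρ : V → ℕ} {ty : C → Fin 3} {lev : V → ℕ} {h : ℕ} {m : C → ℕ}
  {dir : C → Bool} {gl : C → Fin 3} {Ls Lm : Finset (Sq V C)} {Ru : Finset C}
  {bt : C → V} {p q : C → C} {zp zq ze : C → V} {Rg : C → Finset C}

/-- the vertex `x` is in the live pair `j`: `k = 0` reserve, `k = 1` leaf, `k = 2` spine -/
def AFREE_pr (Lv : Finset C) (u v : C → V) (ty : C → Fin 3) (x : V) (j : C) (k : Fin 3) : Prop :=
  j ∈ Lv ∧ ((ty j = 0 ∧ k = 0 ∧ (x = u j ∨ x = v j)) ∨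
    (ty j = 1 ∧ ((k = 1 ∧ x = u j) ∨ (k = 2 ∧ x = v j))) ∨
    (ty j = 2 ∧ ((k = 1 ∧ x = v j) ∨ (k = 2 ∧ x = u j))))

theorem AFREE_pr_uv {x : V} {j : C} {k : Fin 3} (hx : AFREE_pr Lv u v ty x j k) :
    j ∈ Lv ∧ (x = u j ∨ x = v j) := by
  obtain ⟨h1, h2⟩ := hx
  refine ⟨h1, ?_⟩
  tauto

theorem AFREE_spin {x : V} : spin Lv ∅ u v ty x ↔ ∃ j, AFREE_pr Lv u v ty x j 2 := by
  constructor
  · rintro (⟨i, hi, h1 | h1⟩ | h1)
    · exact ⟨i, hi, Or.inr (Or.inl ⟨h1.1, Or.inr ⟨rfl, h1.2⟩⟩)⟩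
    · exact ⟨i, hi, Or.inr (Or.inr ⟨h1.1, Or.inr ⟨rfl, h1.2⟩⟩)⟩
    · exact absurd h1 (Finset.notMem_empty x)
  · rintro ⟨j, hj, h1 | h1 | h1⟩
    · exact absurd h1.2.1 (by decide)
    · rcases h1 with ⟨h1, h2 | h2⟩
      · exact absurd h2.1 (by decide)
      · exact Or.inl ⟨j, hj, Or.inl ⟨h1, h2.2⟩⟩
    · rcases h1 with ⟨h1, h2 | h2⟩
      · exact absurd h2.1 (by decide)
      · exact Or.inl ⟨j, hj, Or.inr ⟨h1, h2.2⟩⟩

theorem AFREE_leaf {x : V} : leaf Lv u v ty x ↔ ∃ j, AFREE_pr Lv u v ty x j 1 := by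
  constructor
  · rintro ⟨i, hi, h1 | h1⟩
    · exact ⟨i, hi, Or.inr (Or.inl ⟨h1.1, Or.inl ⟨rfl, h1.2⟩⟩)⟩
    · exact ⟨i, hi, Or.inr (Or.inr ⟨h1.1, Or.inl ⟨rfl, h1.2⟩⟩)⟩
  · rintro ⟨j, hj, h1 | h1 | h1⟩
    · exact absurd h1.2.1 (by decide)
    · rcases h1 with ⟨h1, h2 | h2⟩
      · exact ⟨j, hj, Or.inl ⟨h1, h2.2⟩⟩
      · exact absurd h2.1 (by decide)
    · rcases h1 with ⟨h1, h2 | h2⟩
      · exact ⟨j, hj, Or.inr ⟨h1, h2.2⟩⟩
      · exact absurd h2.1 (by decide)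

theorem AFREE_rese {x : V} : rese Lv u v ty x ↔ ∃ j, AFREE_pr Lv u v ty x j 0 := by
  constructor
  · rintro ⟨i, hi, h1, h2⟩
    exact ⟨i, hi, Or.inl ⟨h1, rfl, h2⟩⟩
  · rintro ⟨j, hj, h1 | h1 | h1⟩
    · exact ⟨j, hj, h1.1, h1.2.2⟩
    · rcases h1 with ⟨h1, h2 | h2⟩
      · exact absurd h2.1 (by decide)
      · exact absurd h2.1 (by decide)
    · rcases h1 with ⟨h1, h2 | h2⟩
      · exact absurd h2.1 (by decide)
      · exact absurd h2.1 (by decide)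

theorem AFREE_oleaf {x : V} (hx : oleaf Lv u v ty lev x) : leaf Lv u v ty x := by
  obtain ⟨i, hi, h1 | h1⟩ := hx
  · exact ⟨i, hi, Or.inl ⟨h1.1, h1.2.1⟩⟩
  · exact ⟨i, hi, Or.inr ⟨h1.1, h1.2.1⟩⟩

theorem AFREE_ends {i : C} {z a c x : V} (he : ed σ i z = s(a, c)) :
    (x = z ∨ x = σ i z) ↔ (x = a ∨ x = c) := by
  rw [← Sym2.mem_iff, ← Sym2.mem_iff, ← he]
  rfl

theorem AFREE_uv_ne (D : Dat σ O Es Lv ∅ z0 z1 u v v' w b ρ ty lev h m dir gl Ls Lm Ru) {j : C}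
    (hj : j ∉ O) : u j ≠ v j := by
  intro he
  have h1 := D.out.e0 j hj
  rw [he] at h1
  have h2 : (ed σ j (z0 j)).IsDiag := by rw [h1]; exact Sym2.mk_isDiag_iff.2 rfl
  rw [ed, Sym2.mk_isDiag_iff] at h2
  exact (hd_ne D.hd j (z0 j)).1 h2.symm

theorem AFREE_pair (D : Dat σ O Es Lv ∅ z0 z1 u v v' w b ρ ty lev h m dir gl Ls Lm Ru) {i j : C}
    (hi : i ∉ O) (hj : j ∉ O) {x : V} (h1 : x = u i ∨ x = v i) (h2 : x = u j ∨ x = v j) : i = j := by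
  by_contra hne
  have h3 := D.out.dis0 i hi j hj hne
  rw [Finset.disjoint_left] at h3
  exact h3 (a := x) (by simpa using h1) (by simpa using h2)

theorem AFREE_pr_uniq (D : Dat σ O Es Lv ∅ z0 z1 u v v' w b ρ ty lev h m dir gl Ls Lm Ru)
    {x : V} {i j : C} {k l : Fin 3} (h1 : AFREE_pr Lv u v ty x i k) (h2 : AFREE_pr Lv u v ty x j l) :
    i = j ∧ k = l := by
  have h3 := AFREE_pr_uv h1
  have h4 := AFREE_pr_uv h2
  have h5 : i = j := AFREE_pair D (D.lvO i h3.1) (D.lvO j h4.1) h3.2 h4.2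
  subst h5
  refine ⟨rfl, ?_⟩
  have hne := AFREE_uv_ne D (D.lvO i h3.1)
  rcases h1.2 with ⟨a1, a2, a3⟩ | ⟨a1, ⟨a2, a3⟩ | ⟨a2, a3⟩⟩ | ⟨a1, ⟨a2, a3⟩ | ⟨a2, a3⟩⟩ <;>
  rcases h2.2 with ⟨b1, b2, b3⟩ | ⟨b1, ⟨b2, b3⟩ | ⟨b2, b3⟩⟩ | ⟨b1, ⟨b2, b3⟩ | ⟨b2, b3⟩⟩ <;>
  first
    | exact a2.trans b2.symm
    | exact absurd (a1.symm.trans b1) (by decide)
    | exact absurd (a3.symm.trans b3) hne
    | exact absurd (b3.symm.trans a3) hne

section DatA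

variable (D : DatA σ O X Y Es Lv z0 z1 u v v' w b ρ ty lev h m dir gl Ls Lm Ru bt p q
    zp zq ze Rg)

include D

theorem AFREE_pr_b {i : C} (hi : i ∈ O) {j : C} {k : Fin 3} : ¬ AFREE_pr Lv u v ty (b i) j k := by
  intro hx
  have h1 := AFREE_pr_uv hx
  have h2 := D.dat.out.b0 i hi j (D.dat.lvO j h1.1)
  rcases h1.2 with h3 | h3
  · exact h2.1 h3
  · exact h2.2 h3

theorem AFREE_pr_c {i : C} (hi : i ∈ O) {j : C} {k : Fin 3} :
    ¬ AFREE_pr Lv u v ty (σ i (b i)) j k := by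
  intro hx
  have h1 := AFREE_pr_uv hx
  have h2 := D.lvk j h1.1 i hi
  rcases h1.2 with h3 | h3
  · exact h2.1 h3
  · exact h2.2 h3

/-- ends of the letters -/
theorem AFREE_pr_lm {g : Fin 3} {i : C} {z : V} (hL : (g, i, z) ∈ Lm) {x : V}
    (hx : x = z ∨ x = σ i z) :
    ((g, i, z) ∈ Ls ∧ ∃ j, AFREE_pr Lv u v ty x j 2) ∨
      ((g, i, z) ∉ Ls ∧ ∃ j ∈ Ru, AFREE_pr Lv u v ty x j 0) := by
  by_cases hs : (g, i, z) ∈ Ls
  · left
    refine ⟨hs, AFREE_spin.1 ?_⟩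
    obtain ⟨-, -, h1 | h1⟩ := D.dat.spl.s1 g i z hs
    · rcases hx with rfl | rfl
      · exact h1.1
      · exact h1.2.1
    · rcases hx with rfl | rfl
      · exact h1.2.1
      · exact h1.1
  · right
    refine ⟨hs, ?_⟩
    obtain ⟨j, hj, j', hj', -, h1, h2⟩ := D.dat.lt.res g i z hL hs
    rcases hx with rfl | rfl
    · have h3 := D.dat.lt.ru hj
      rw [Finset.mem_filter] at h3
      exact ⟨j, hj, h3.1, Or.inl ⟨h3.2, rfl, h1⟩⟩
    · have h3 := D.dat.lt.ru hj'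
      rw [Finset.mem_filter] at h3
      exact ⟨j', hj', h3.1, Or.inl ⟨h3.2, rfl, h2⟩⟩

theorem AFREE_pr_rg {i : C} (hi : i ∈ O) {x : V}
    (hx : x = bt i ∨ x = σ i (bt i) ∨ x = (σ i)⁻¹ (bt i)) :
    ∃ j ∈ Rg i, j ∉ Ru ∧ AFREE_pr Lv u v ty x j 0 := by
  obtain ⟨j, hj, h1⟩ := D.gad.rgb i hi x hx
  have h2 := D.gad.rg i hi hj
  rw [Finset.mem_sdiff, Finset.mem_filter] at h2
  exact ⟨j, hj, h2.2, h2.1.1, Or.inl ⟨h2.1.2, rfl, h1⟩⟩

theorem AFREE_pr_y {y : C} (hy : y ∈ Y) {x : V} (hx : x = ze y ∨ x = σ y (ze y)) :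
    ∃ j, AFREE_pr Lv u v ty x j 1 := by
  have h1 := D.ext.ol y hy
  rcases hx with rfl | rfl
  · exact AFREE_leaf.1 (AFREE_oleaf h1.1)
  · exact AFREE_leaf.1 (AFREE_oleaf h1.2)

theorem AFREE_rg_eq {i i' j : C} (hi : i ∈ O) (hi' : i' ∈ O) (h1 : j ∈ Rg i) (h2 : j ∈ Rg i') :
    i = i' := by
  by_contra hne
  exact Finset.disjoint_left.1 (D.gad.rgd i hi i' hi' hne) h1 h2

omit D in
theorem AFREE_mem {g : Fin 3} {i : C} {z : V} : (g, i, z) ∈ asetA O Y z0 Lm p q zp zq ze ↔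
    (g, i, z) ∈ m0set O z0 ∪ Lm ∨ (∃ j ∈ O, g = 1 ∧ i = p j ∧ z = zp j) ∨
      (∃ j ∈ O, g = 2 ∧ i = q j ∧ z = zq j) ∨ (i ∈ Y ∧ g = 1 ∧ z = ze i) := by
  have e1 : (∃ a ∈ O, ((1 : Fin 3), p a, zp a) = (g, i, z)) ↔
      ∃ j ∈ O, g = 1 ∧ i = p j ∧ z = zp j := by
    constructor
    · rintro ⟨a, ha, he⟩
      simp only [Prod.mk.injEq] at he
      exact ⟨a, ha, he.1.symm, he.2.1.symm, he.2.2.symm⟩
    · rintro ⟨a, ha, rfl, rfl, rfl⟩
      exact ⟨a, ha, rfl⟩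
  have e2 : (∃ a ∈ O, ((2 : Fin 3), q a, zq a) = (g, i, z)) ↔
      ∃ j ∈ O, g = 2 ∧ i = q j ∧ z = zq j := by
    constructor
    · rintro ⟨a, ha, he⟩
      simp only [Prod.mk.injEq] at he
      exact ⟨a, ha, he.1.symm, he.2.1.symm, he.2.2.symm⟩
    · rintro ⟨a, ha, rfl, rfl, rfl⟩
      exact ⟨a, ha, rfl⟩
  have e3 : (∃ a ∈ Y, ((1 : Fin 3), a, ze a) = (g, i, z)) ↔ (i ∈ Y ∧ g = 1 ∧ z = ze i) := by
    constructor
    · rintro ⟨a, ha, he⟩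
      simp only [Prod.mk.injEq] at he
      obtain ⟨rfl, rfl, rfl⟩ := he
      exact ⟨ha, rfl, rfl⟩
    · rintro ⟨ha, rfl, rfl⟩
      exact ⟨i, ha, rfl⟩
  rw [asetA, Finset.mem_union, Finset.mem_union (s := _ ∪ _), Finset.mem_union (s := image _ _),
    Finset.mem_image, Finset.mem_image, Finset.mem_image, e1, e2, e3, or_assoc]

omit D in
theorem AFREE_m0 {g : Fin 3} {i : C} {z : V} :
    (g, i, z) ∈ m0set O z0 ↔ g = 0 ∧ i ∉ O ∧ z = z0 i := by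
  rw [m0set, Finset.mem_image]
  constructor
  · rintro ⟨a, ha, he⟩
    simp only [Prod.mk.injEq] at he
    obtain ⟨rfl, rfl, rfl⟩ := he
    exact ⟨rfl, (Finset.mem_sdiff.1 ha).2, rfl⟩
  · rintro ⟨rfl, hi, rfl⟩
    exact ⟨i, Finset.mem_sdiff.2 ⟨Finset.mem_univ _, hi⟩, rfl⟩

/-- a letter has a nonzero label -/
theorem AFREE_lm_ne {g : Fin 3} {i : C} {z : V} (hL : (g, i, z) ∈ Lm) : g ≠ 0 := by
  obtain ⟨-, r, -, rfl⟩ := D.dat.lt.lab g i z hL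
  exact (lb_ne (D.dat.gl0 i) r).1


/-- where an occupied vertex of the gaps 1, 2 can be -/
theorem AFREE_occ {g : Fin 3} (hg : g ≠ 0) {x : V}
    (hx : occ σ ⟨O, b, bt⟩ (asetA O Y z0 Lm p q zp zq ze) g x) :
    (∃ i z, (g, i, z) ∈ Lm ∧ (g, i, z) ∈ Ls ∧ (x = z ∨ x = σ i z) ∧ ∃ j, AFREE_pr Lv u v ty x j 2) ∨
    (∃ i z, (g, i, z) ∈ Lm ∧ (g, i, z) ∉ Ls ∧ (x = z ∨ x = σ i z) ∧
      ∃ j ∈ Ru, AFREE_pr Lv u v ty x j 0) ∨
    (g = 1 ∧ ∃ j ∈ O, x = b j ∨ (x = (σ j)⁻¹ (bt j) ∧ ∃ k ∈ Rg j, k ∉ Ru ∧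
      AFREE_pr Lv u v ty x k 0)) ∨
    (g = 2 ∧ ∃ j ∈ O, x = σ j (b j) ∨ (x = σ j (bt j) ∧ ∃ k ∈ Rg j, k ∉ Ru ∧
      AFREE_pr Lv u v ty x k 0)) ∨
    (g = 1 ∧ ∃ y ∈ Y, (x = ze y ∨ x = σ y (ze y)) ∧ oleaf Lv u v ty lev x ∧
      ∃ j, AFREE_pr Lv u v ty x j 1) ∨
    (g = 1 ∧ ∃ j ∈ O, x = σ j (b j)) ∨
    (g = 2 ∧ ∃ j ∈ O, x = bt j ∧ ∃ k ∈ Rg j, k ∉ Ru ∧ AFREE_pr Lv u v ty x k 0) := by
  rcases hx with ⟨i, z, hA, hx⟩ | ⟨i, hi, hx⟩
  · rw [AFREE_mem] at hA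
    rcases hA with h1 | ⟨j, hj, rfl, rfl, rfl⟩ | ⟨j, hj, rfl, rfl, rfl⟩ | ⟨hy, rfl, rfl⟩
    · rcases Finset.mem_union.1 h1 with h2 | h2
      · exact absurd (AFREE_m0.1 h2).1 hg
      · rcases AFREE_pr_lm D h2 hx with h3 | h3
        · exact Or.inl ⟨i, z, h2, h3.1, hx, h3.2⟩
        · exact Or.inr (Or.inl ⟨i, z, h2, h3.1, hx, h3.2⟩)
    · right; right; left
      refine ⟨rfl, j, hj, ?_⟩
      rcases (AFREE_ends (D.gad.ep j hj)).1 hx with h1 | h1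
      · exact Or.inl h1
      · exact Or.inr ⟨h1, AFREE_pr_rg D hj (Or.inr (Or.inr h1))⟩
    · right; right; right; left
      refine ⟨rfl, j, hj, ?_⟩
      rcases (AFREE_ends (D.gad.eq j hj)).1 hx with h1 | h1
      · exact Or.inl h1
      · exact Or.inr ⟨h1, AFREE_pr_rg D hj (Or.inr (Or.inl h1))⟩
    · right; right; right; right; left
      refine ⟨rfl, i, hy, hx, ?_, AFREE_pr_y D hy hx⟩
      have h1 := D.ext.ol i hy
      rcases hx with rfl | rfl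
      · exact h1.1
      · exact h1.2
  · dsimp only at hi
    unfold tok at hx
    dsimp only at hx
    fin_cases g
    · exact absurd rfl hg
    · right; right; right; right; right; left
      have e1 : ¬ (Fin.castSucc ⟨1, by decide⟩ : Fin 4) = 0 := by decide
      have e2 : ¬ (Fin.castSucc ⟨1, by decide⟩ : Fin 4) = 2 := by decide
      rw [if_neg e1, if_neg e2] at hx
      exact ⟨rfl, i, hi, hx⟩
    · right; right; right; right; right; right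
      have e1 : ¬ (Fin.castSucc ⟨2, by decide⟩ : Fin 4) = 0 := by decide
      have e2 : (Fin.castSucc ⟨2, by decide⟩ : Fin 4) = 2 := by decide
      rw [if_neg e1, if_pos e2] at hx
      exact ⟨rfl, i, hi, hx, AFREE_pr_rg D hi (Or.inl hx)⟩

theorem AFREE_bt {i i' : C} (hi : i ∈ O) (hi' : i' ∈ O) {x x' : V}
    (hx : x = bt i ∨ x = σ i (bt i) ∨ x = (σ i)⁻¹ (bt i))
    (hx' : x' = bt i' ∨ x' = σ i' (bt i') ∨ x' = (σ i')⁻¹ (bt i')) {j : C} {k : Fin 3}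
    (h1 : AFREE_pr Lv u v ty x j k) {k' : Fin 3} (h2 : AFREE_pr Lv u v ty x' j k') : i = i' := by
  obtain ⟨l, hl, -, h3⟩ := AFREE_pr_rg D hi hx
  obtain ⟨l', hl', -, h4⟩ := AFREE_pr_rg D hi' hx'
  have e1 := (AFREE_pr_uniq D.dat h3 h1).1
  have e2 := (AFREE_pr_uniq D.dat h4 h2).1
  subst e1
  subst e2
  exact AFREE_rg_eq D hi hi' hl hl'

/-- reserve pairs: an occupied vertex of a reserve pair -/
theorem AFREE_res {g : Fin 3} (hg : g ≠ 0) {x : V} {j : C} (hj : AFREE_pr Lv u v ty x j 0)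
    (hx : occ σ ⟨O, b, bt⟩ (asetA O Y z0 Lm p q zp zq ze) g x) :
    (j ∈ Ru ∧ ∃ i z, (g, i, z) ∈ Lm ∧ (g, i, z) ∉ Ls ∧ (x = z ∨ x = σ i z)) ∨
    (j ∉ Ru ∧ ∃ i ∈ O, (g = 1 ∧ x = (σ i)⁻¹ (bt i)) ∨ (g = 2 ∧ (x = σ i (bt i) ∨ x = bt i))) := by
  rcases AFREE_occ D hg hx with ⟨i, z, h1, h2, h3, l, h4⟩ | ⟨i, z, h1, h2, h3, l, hl, h4⟩ |
    ⟨h1, i, hi, h2⟩ | ⟨h1, i, hi, h2⟩ | ⟨h1, y, hy, -, -, l, h4⟩ | ⟨h1, i, hi, h2⟩ |
    ⟨h1, i, hi, h2, l, hl, hlR, h3⟩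
  · exact absurd (AFREE_pr_uniq D.dat hj h4).2 (by decide)
  · exact Or.inl ⟨(AFREE_pr_uniq D.dat hj h4).1 ▸ hl, i, z, h1, h2, h3⟩
  · rcases h2 with rfl | ⟨h2, l, hl, hlR, h3⟩
    · exact absurd hj (AFREE_pr_b D hi)
    · exact Or.inr ⟨(AFREE_pr_uniq D.dat hj h3).1 ▸ hlR, i, hi, Or.inl ⟨h1, h2⟩⟩
  · rcases h2 with rfl | ⟨h2, l, hl, hlR, h3⟩
    · exact absurd hj (AFREE_pr_c D hi)
    · exact Or.inr ⟨(AFREE_pr_uniq D.dat hj h3).1 ▸ hlR, i, hi, Or.inr ⟨h1, Or.inl h2⟩⟩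
  · exact absurd (AFREE_pr_uniq D.dat hj h4).2 (by decide)
  · rw [h2] at hj
    exact absurd hj (AFREE_pr_c D hi)
  · exact Or.inr ⟨(AFREE_pr_uniq D.dat hj h3).1 ▸ hlR, i, hi, Or.inr ⟨h1, Or.inr h2⟩⟩

omit D in
/-- a letter touching a reserve pair -/
theorem AFREE_touch {x : V} {j : C} (hj : AFREE_pr Lv u v ty x j 0) {i : C} {z : V}
    (hx : x = z ∨ x = σ i z) : z = u j ∨ z = v j ∨ σ i z = u j ∨ σ i z = v j := by
  have h1 := (AFREE_pr_uv hj).2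
  rcases hx with rfl | rfl
  · rcases h1 with h | h
    · exact Or.inl h
    · exact Or.inr (Or.inl h)
  · exact Or.inr (Or.inr h1)

theorem AFREE_leaf12 {x : V} (hx : leaf Lv u v ty x) {g : Fin 3} (hg : g ≠ 0)
    (hno : g = 1 → ∀ y ∈ Y, x ≠ ze y ∧ x ≠ σ y (ze y)) :
    ¬ occ σ ⟨O, b, bt⟩ (asetA O Y z0 Lm p q zp zq ze) g x := by
  intro hocc
  obtain ⟨j, hj⟩ := AFREE_leaf.1 hx
  rcases AFREE_occ D hg hocc with ⟨i, z, h1, h2, h3, l, h4⟩ | ⟨i, z, h1, h2, h3, l, hl, h4⟩ |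
    ⟨h1, i, hi, h2⟩ | ⟨h1, i, hi, h2⟩ | ⟨h1, y, hy, h2, -, -⟩ | ⟨h1, i, hi, h2⟩ |
    ⟨h1, i, hi, h2, l, hl, hlR, h3⟩
  · exact absurd (AFREE_pr_uniq D.dat hj h4).2 (by decide)
  · exact absurd (AFREE_pr_uniq D.dat hj h4).2 (by decide)
  · rcases h2 with rfl | ⟨h2, l, hl, hlR, h3⟩
    · exact AFREE_pr_b D hi hj
    · exact absurd (AFREE_pr_uniq D.dat hj h3).2 (by decide)
  · rcases h2 with rfl | ⟨h2, l, hl, hlR, h3⟩
    · exact AFREE_pr_c D hi hj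
    · exact absurd (AFREE_pr_uniq D.dat hj h3).2 (by decide)
  · rcases h2 with h2 | h2
    · exact (hno h1 y hy).1 h2
    · exact (hno h1 y hy).2 h2
  · rw [h2] at hj
    exact AFREE_pr_c D hi hj
  · exact absurd (AFREE_pr_uniq D.dat hj h3).2 (by decide)

/-- block ALEAF -/
theorem datA_leaf (x : V) (hx : leaf Lv u v ty x)
    (hx2 : ∀ i ∈ Y, x ≠ ze i ∧ x ≠ σ i (ze i)) :
    ¬ occ σ ⟨O, b, bt⟩ (asetA O Y z0 Lm p q zp zq ze) 1 x ∧
    ¬ occ σ ⟨O, b, bt⟩ (asetA O Y z0 Lm p q zp zq ze) 2 x :=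
  ⟨AFREE_leaf12 D hx (by decide) fun _ => hx2, AFREE_leaf12 D hx (by decide) fun _ => hx2⟩

/-- block AFREE -/
theorem datA_free :
    FreeHyp σ ⟨O, b, bt⟩ (asetA O Y z0 Lm p q zp zq ze) Lv u v z0 ty lev h := by
  refine ⟨D.dat.hd, datA_base D, ?_, ?_, fun x => (D.dat.lev1 x).2, ?_, ?_, ?_, ?_, ?_, ?_, ?_, ?_,
    ?_⟩
  · intro i hi
    dsimp only at hi
    exact ⟨AFREE_mem.2 (Or.inl (Finset.mem_union_left _ (AFREE_m0.2 ⟨rfl, hi, rfl⟩))),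
      D.dat.out.e0 i hi⟩
  · intro i hi
    exact Finset.mem_sdiff.2 ⟨Finset.mem_univ _, D.dat.lvO i hi⟩
  · intro g i z hg hA hs
    rw [AFREE_mem] at hA
    have hs' : ∃ x, (x = z ∨ x = σ i z) ∧ ∃ j, AFREE_pr Lv u v ty x j 2 := by
      rcases hs with hs | hs
      · exact ⟨z, Or.inl rfl, AFREE_spin.1 hs⟩
      · exact ⟨σ i z, Or.inr rfl, AFREE_spin.1 hs⟩
    obtain ⟨x, hx, j, hj⟩ := hs'
    rcases hA with h1 | ⟨j', hj', rfl, rfl, rfl⟩ | ⟨j', hj', rfl, rfl, rfl⟩ | ⟨hy, rfl, rfl⟩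
    · rcases Finset.mem_union.1 h1 with h2 | h2
      · exact absurd (AFREE_m0.1 h2).1 hg
      · rcases AFREE_pr_lm D h2 hx with h3 | ⟨-, l, hl, h3⟩
        · exact (D.dat.spl.s1 g i z h3.1).2.2
        · exact absurd (AFREE_pr_uniq D.dat hj h3).2 (by decide)
    · exfalso
      rcases (AFREE_ends (D.gad.ep j' hj')).1 hx with h1 | h1
      · rw [h1] at hj
        exact AFREE_pr_b D hj' hj
      · obtain ⟨l, -, -, h2⟩ := AFREE_pr_rg D hj' (Or.inr (Or.inr h1))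
        exact absurd (AFREE_pr_uniq D.dat hj h2).2 (by decide)
    · exfalso
      rcases (AFREE_ends (D.gad.eq j' hj')).1 hx with h1 | h1
      · rw [h1] at hj
        exact AFREE_pr_c D hj' hj
      · obtain ⟨l, -, -, h2⟩ := AFREE_pr_rg D hj' (Or.inr (Or.inl h1))
        exact absurd (AFREE_pr_uniq D.dat hj h2).2 (by decide)
    · exfalso
      obtain ⟨l, h2⟩ := AFREE_pr_y D hy hx
      exact absurd (AFREE_pr_uniq D.dat hj h2).2 (by decide)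
  · intro i hi t hs
    dsimp only at hi
    obtain ⟨j, hj⟩ := AFREE_spin.1 hs
    unfold tok at hj
    dsimp only at hj
    split_ifs at hj
    · exact AFREE_pr_b D hi hj
    · obtain ⟨l, -, -, h2⟩ := AFREE_pr_rg D hi (x := bt i) (Or.inl rfl)
      exact absurd (AFREE_pr_uniq D.dat hj h2).2 (by decide)
    · exact AFREE_pr_c D hi hj
  · intro x hx hno
    have key : ∀ y ∈ Y, x ≠ ze y ∧ x ≠ σ y (ze y) := by
      intro y hy
      have h1 := D.ext.ol y hy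
      constructor
      · rintro rfl
        exact hno h1.1
      · rintro rfl
        exact hno h1.2
    exact ⟨AFREE_leaf12 D hx (by decide) fun _ => key, AFREE_leaf12 D hx (by decide) fun _ => key⟩
  · intro x hx
    exact AFREE_leaf12 D (AFREE_oleaf hx) (by decide) fun h => absurd h (by decide)
  · intro j hj hty g hg hocc
    have hju : AFREE_pr Lv u v ty (u j) j 0 := ⟨hj, Or.inl ⟨hty, rfl, Or.inl rfl⟩⟩
    have hjv : AFREE_pr Lv u v ty (v j) j 0 := ⟨hj, Or.inl ⟨hty, rfl, Or.inr rfl⟩⟩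
    have hjO := D.dat.lvO j hj
    have hne := AFREE_uv_ne D.dat hjO
    rcases AFREE_res D hg hju hocc.1 with ⟨hR, i, z, h1, h2, h3⟩ | ⟨hR, i, hi, h1⟩
    · rcases AFREE_res D hg hjv hocc.2 with ⟨-, i', z', h1', h2', h3'⟩ | ⟨hR', -⟩
      · have h4 := D.dat.lt.one j hR g i z g i' z' h1 h2 h1' h2' (AFREE_touch hju h3)
          (AFREE_touch hjv h3')
        simp only [Prod.mk.injEq] at h4
        obtain ⟨-, rfl, rfl⟩ := h4
        obtain ⟨k, hk, k', hk', hkk, h5, h6⟩ := D.dat.lt.res g i z h1 h2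
        have hkL := (Finset.mem_filter.1 (D.dat.lt.ru hk)).1
        have hkL' := (Finset.mem_filter.1 (D.dat.lt.ru hk')).1
        have hkO := D.dat.lvO k hkL
        have hkO' := D.dat.lvO k' hkL'
        have e1 : z = u j ∨ z = v j := by
          rcases h3 with h3 | h3
          · exact Or.inl h3.symm
          · rcases h3' with h3' | h3'
            · exact Or.inr h3'.symm
            · exact absurd (h3.trans h3'.symm) hne
        have e2 : σ i z = u j ∨ σ i z = v j := by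
          rcases h3 with h3 | h3
          · rcases h3' with h3' | h3'
            · exact absurd (h3.trans h3'.symm) hne
            · exact Or.inr h3'.symm
          · exact Or.inl h3.symm
        have e3 := AFREE_pair D.dat hkO hjO h5 e1
        have e4 := AFREE_pair D.dat hkO' hjO h6 e2
        exact hkk (e3.trans e4.symm)
      · exact hR' hR
    · rcases AFREE_res D hg hjv hocc.2 with ⟨hR', -⟩ | ⟨-, i', hi', h1'⟩
      · exact hR hR'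
      · have hii : i = i' := by
          refine AFREE_bt D hi hi' (x := u j) (x' := v j) ?_ ?_ hju hjv
          · tauto
          · tauto
        subst hii
        rcases h1 with ⟨a1, a2⟩ | ⟨a1, a2⟩
        · rcases h1' with ⟨-, b2⟩ | ⟨b1, -⟩
          · exact hne (a2.trans b2.symm)
          · exact absurd (a1.symm.trans b1) (by decide)
        · rcases h1' with ⟨b1, -⟩ | ⟨-, b2⟩
          · exact absurd (a1.symm.trans b1) (by decide)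
          · have h5 : ed σ i (bt i) = ed σ j (z0 j) := by
              rw [D.dat.out.e0 j hjO, ed]
              rcases a2 with a2 | a2 <;> rcases b2 with b2 | b2
              · exact absurd (a2.trans b2.symm) hne
              · rw [a2, b2, Sym2.eq_swap]
              · rw [a2, b2]
              · exact absurd (a2.trans b2.symm) hne
            have h6 := (ed_inj D.dat.hd h5).1
            exact hjO (h6 ▸ hi)
  · rintro x hx ⟨hocc1, hocc2⟩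
    obtain ⟨j, hj⟩ := AFREE_rese.1 hx
    rcases AFREE_res D (by decide) hj hocc1 with ⟨hR, i, z, h1, h2, h3⟩ | ⟨hR, i, hi, h1⟩
    · rcases AFREE_res D (by decide) hj hocc2 with ⟨-, i', z', h1', h2', h3'⟩ | ⟨hR', -⟩
      · have h4 := D.dat.lt.one j hR _ i z _ i' z' h1 h2 h1' h2' (AFREE_touch hj h3)
          (AFREE_touch hj h3')
        simp only [Prod.mk.injEq] at h4
        exact absurd h4.1 (by decide)
      · exact hR' hR
    · rcases AFREE_res D (by decide) hj hocc2 with ⟨hR', -⟩ | ⟨-, i', hi', h1'⟩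
      · exact hR hR'
      · have a2 : x = (σ i)⁻¹ (bt i) := by
          rcases h1 with ⟨-, a2⟩ | ⟨a1, -⟩
          · exact a2
          · exact absurd a1 (by decide)
        have b2 : x = σ i' (bt i') ∨ x = bt i' := by
          rcases h1' with ⟨b1, -⟩ | ⟨-, b2⟩
          · exact absurd b1 (by decide)
          · exact b2
        have hii : i = i' := by
          refine AFREE_bt D hi hi' (x := x) (x' := x) ?_ ?_ hj hj
          · tauto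
          · tauto
        subst hii
        rcases b2 with b2 | b2
        · exact (hd_ne D.dat.hd i (bt i)).2 (b2.symm.trans a2)
        · have h5 := (hd_ne D.dat.hd i ((σ i)⁻¹ (bt i))).1
          rw [show σ i ((σ i)⁻¹ (bt i)) = bt i from (σ i).apply_symm_apply (bt i)] at h5
          exact h5 (b2.symm.trans a2)
  · intro i hi
    dsimp only at hi ⊢
    have key : ∀ x, (x = bt i ∨ x = σ i (bt i) ∨ x = (σ i)⁻¹ (bt i)) → rese Lv u v ty x := by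
      intro x hx
      obtain ⟨l, -, -, h2⟩ := AFREE_pr_rg D hi hx
      exact AFREE_rese.2 ⟨l, h2⟩
    exact ⟨key _ (Or.inr (Or.inr rfl)), key _ (Or.inl rfl), key _ (Or.inr (Or.inl rfl))⟩
  · intro i hi hocc
    dsimp only at hi hocc
    rcases AFREE_occ D (by decide) hocc with ⟨i', z, h1, h2, h3, l, h4⟩ |
      ⟨i', z, h1, h2, h3, l, hl, h4⟩ | ⟨h1, i', hi', h2⟩ | ⟨h1, i', hi', h2⟩ |
      ⟨h1, y, hy, h2, -, -⟩ | ⟨h1, i', hi', h2⟩ | ⟨h1, i', hi', h2, l, hl, hlR, h3⟩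
    · exact AFREE_pr_b D hi h4
    · exact AFREE_pr_b D hi h4
    · exact absurd h1 (by decide)
    · rcases h2 with h2 | ⟨h2, l, hl, hlR, h3⟩
      · exact D.dat.out.bc i hi i' hi' h2
      · exact AFREE_pr_b D hi h3
    · exact absurd h1 (by decide)
    · exact absurd h1 (by decide)
    · exact AFREE_pr_b D hi h3
  · intro x g hg hocc
    rcases AFREE_occ D hg hocc with ⟨i', z, h1, h2, h3, h4⟩ |
      ⟨i', z, h1, h2, h3, l, hl, h4⟩ | ⟨h1, i', hi', h2⟩ | ⟨h1, i', hi', h2⟩ |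
      ⟨h1, y, hy, h2, h3, -⟩ | ⟨h1, i', hi', h2⟩ | ⟨h1, i', hi', h2, l, hl, hlR, h3⟩
    · exact Or.inl (AFREE_spin.2 h4)
    · exact Or.inr (Or.inr (Or.inl (AFREE_rese.2 ⟨l, h4⟩)))
    · rcases h2 with h2 | ⟨h2, l, hl, hlR, h3⟩
      · exact Or.inr (Or.inr (Or.inr ⟨i', hi', Or.inl h2⟩))
      · exact Or.inr (Or.inr (Or.inl (AFREE_rese.2 ⟨l, h3⟩)))
    · rcases h2 with h2 | ⟨h2, l, hl, hlR, h3⟩
      · exact Or.inr (Or.inr (Or.inr ⟨i', hi', Or.inr h2⟩))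
      · exact Or.inr (Or.inr (Or.inl (AFREE_rese.2 ⟨l, h3⟩)))
    · exact Or.inr (Or.inl (AFREE_oleaf h3))
    · exact Or.inr (Or.inr (Or.inr ⟨i', hi', Or.inr h2⟩))
    · exact Or.inr (Or.inr (Or.inl (AFREE_rese.2 ⟨l, h3⟩)))

end DatA

end Pool.Agent.KZ
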