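import Pool.Agent.Lib_helper15.KZF.DefsA
import Pool.Agent.Lib_helper15.KZF.DefsN

/-! # General graph lemmas of the merging part (blocks M1, M1b, M3, ACY) -/

set_option autoImplicit false
set_option linter.unusedSectionVars false

namespace Pool.Agent.KZ

open Finset

section General

variable {U : Type} [Fintype U] [DecidableEq U]

lemma sw_adj_h56 (G : SimpleGraph U) (a a' b b' : U) (x y : U) :
    (sw G a a' b b').Adj x y ↔ (G.Adj x y ∧ s(x, y) ≠ s(a, a') ∧ s(x, y) ≠ s(b, b')) ∨
      ((s(x, y) = s(a, b) ∨ s(x, y) = s(a', b')) ∧ x ≠ y) := by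
  unfold sw
  rw [SimpleGraph.sup_adj, SimpleGraph.deleteEdges_adj, SimpleGraph.fromEdgeSet_adj]
  simp only [Set.mem_insert_iff, Set.mem_singleton_iff, not_or]

lemma sw_comm_h56 (G : SimpleGraph U) (a a' b b' : U) : sw G a a' b b' = sw G b b' a a' := by
  ext x y
  rw [sw_adj_h56, sw_adj_h56, Sym2.eq_swap (a := a) (b := b), Sym2.eq_swap (a := a') (b := b')]
  tauto

lemma deg2_cycles_h56 {G : SimpleGraph U} (h2 : Deg2 G) : G.IsCycles := fun v _ => h2 v

lemma sw_reach_aux_h56 {G : SimpleGraph U} (h2 : Deg2 G) {a a' b b' : U} (ha : G.Adj a a')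
    (hab : ¬ G.Reachable a b) : (sw G a a' b b').Reachable a a' := by
  have h1 := (deg2_cycles_h56 h2).reachable_deleteEdges ha
  obtain ⟨p⟩ := h1
  have hle : G.deleteEdges {s(a, a')} ≤ G := SimpleGraph.deleteEdges_le _
  have hsup : ∀ x ∈ p.support, G.Reachable a x := by
    intro x hx
    exact ((p.takeUntil x hx).reachable).mono hle
  refine ⟨p.transfer (sw G a a' b b') ?_⟩
  intro e he
  have he1 := p.edges_subset_edgeSet he
  induction e using Sym2.ind with
  | _ x y =>
    rw [SimpleGraph.mem_edgeSet, SimpleGraph.deleteEdges_adj] at he1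
    rw [SimpleGraph.mem_edgeSet, sw_adj_h56]
    refine Or.inl ⟨he1.1, fun h => he1.2 h, fun h => ?_⟩
    rw [h] at he
    exact hab (hsup _ (p.fst_mem_support_of_mem_edges he))

lemma sw_le_h56 (G : SimpleGraph U) (h2 : Deg2 G) {a a' b b' : U} (ha : G.Adj a a')
    (hb : G.Adj b b') (hab : ¬ G.Reachable a b) {x y : U} (hxy : G.Reachable x y) :
    (sw G a a' b b').Reachable x y := by
  obtain ⟨p⟩ := hxy
  induction p with
  | nil => exact SimpleGraph.Reachable.refl _
  | cons h p ih =>
    refine SimpleGraph.Reachable.trans ?_ ih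
    rename_i x y z
    have r1 := sw_reach_aux_h56 (b := b) (b' := b') h2 ha hab
    have r2 := sw_reach_aux_h56 (b := a) (b' := a') h2 hb (fun h => hab h.symm)
    rw [sw_comm_h56] at r2
    by_cases e1 : s(x, y) = s(a, a')
    · rw [Sym2.eq_iff] at e1
      rcases e1 with ⟨rfl, rfl⟩ | ⟨rfl, rfl⟩
      · exact r1
      · exact r1.symm
    by_cases e2 : s(x, y) = s(b, b')
    · rw [Sym2.eq_iff] at e2
      rcases e2 with ⟨rfl, rfl⟩ | ⟨rfl, rfl⟩
      · exact r2
      · exact r2.symm
    exact SimpleGraph.Adj.reachable ((sw_adj_h56 _ _ _ _ _ _ _).2 (Or.inl ⟨h, e1, e2⟩))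

lemma sw_ab_h56 {G : SimpleGraph U} {a a' b b' : U} (hab : ¬ G.Reachable a b) :
    (sw G a a' b b').Adj a b :=
  (sw_adj_h56 _ _ _ _ _ _ _).2 (Or.inr ⟨Or.inl rfl, by
    rintro rfl; exact hab (SimpleGraph.Reachable.refl _)⟩)

/-- block M1b: exactly the two components are joined -/
theorem sw_reach (G : SimpleGraph U) (h2 : Deg2 G) {a a' b b' : U} (ha : G.Adj a a')
    (hb : G.Adj b b') (hab : ¬ G.Reachable a b) (x y : U) :
    (sw G a a' b b').Reachable x y ↔ G.Reachable x y ∨
      (G.Reachable x a ∧ G.Reachable y b) ∨ (G.Reachable x b ∧ G.Reachable y a) := by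
  constructor
  · rintro ⟨p⟩
    induction p with
    | nil => exact Or.inl (SimpleGraph.Reachable.refl _)
    | cons h p ih =>
      rename_i x y z
      have hxy : G.Reachable x y ∨ (G.Reachable x a ∧ G.Reachable y b) ∨
          (G.Reachable x b ∧ G.Reachable y a) := by
        rcases (sw_adj_h56 _ _ _ _ _ _ _).1 h with h | ⟨h, -⟩
        · exact Or.inl h.1.reachable
        · have rv : G.Reachable a' a := (SimpleGraph.Adj.reachable ha).symm
          have rw' : G.Reachable b' b := (SimpleGraph.Adj.reachable hb).symm
          simp only [Sym2.eq_iff] at h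
          rcases h with (⟨rfl, rfl⟩ | ⟨rfl, rfl⟩) | (⟨rfl, rfl⟩ | ⟨rfl, rfl⟩)
          · exact Or.inr (Or.inl ⟨SimpleGraph.Reachable.refl _, SimpleGraph.Reachable.refl _⟩)
          · exact Or.inr (Or.inr ⟨SimpleGraph.Reachable.refl _, SimpleGraph.Reachable.refl _⟩)
          · exact Or.inr (Or.inl ⟨rv, rw'⟩)
          · exact Or.inr (Or.inr ⟨rw', rv⟩)
      rcases hxy with hxy | ⟨hx, hy⟩ | ⟨hx, hy⟩
      · rcases ih with ih | ⟨i1, i2⟩ | ⟨i1, i2⟩
        · exact Or.inl (hxy.trans ih)
        · exact Or.inr (Or.inl ⟨hxy.trans i1, i2⟩)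
        · exact Or.inr (Or.inr ⟨hxy.trans i1, i2⟩)
      · rcases ih with ih | ⟨i1, i2⟩ | ⟨i1, i2⟩
        · exact Or.inr (Or.inl ⟨hx, ih.symm.trans hy⟩)
        · exact absurd (i1.symm.trans hy) hab
        · exact Or.inl (hx.trans i2.symm)
      · rcases ih with ih | ⟨i1, i2⟩ | ⟨i1, i2⟩
        · exact Or.inr (Or.inr ⟨hx, ih.symm.trans hy⟩)
        · exact Or.inl (hx.trans i2.symm)
        · exact absurd (hy.symm.trans i1) hab
  · have hvw' : (sw G a a' b b').Adj a b := sw_ab_h56 hab
    rintro (h | ⟨h1, h3⟩ | ⟨h1, h3⟩)
    · exact sw_le_h56 G h2 ha hb hab h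
    · exact (sw_le_h56 G h2 ha hb hab h1).trans
        (hvw'.reachable.trans (sw_le_h56 G h2 ha hb hab h3).symm)
    · exact (sw_le_h56 G h2 ha hb hab h1).trans
        (hvw'.symm.reachable.trans (sw_le_h56 G h2 ha hb hab h3).symm)

lemma ncc_lt_h56 {F F' : SimpleGraph U}
    (hle : ∀ a b, F.Reachable a b → F'.Reachable a b) {x y : U} (h1 : ¬ F.Reachable x y)
    (h2 : F'.Reachable x y) : ncc F' < ncc F := by
  classical
  unfold ncc
  have : Finite F.ConnectedComponent := Quot.finite _
  have : Finite F'.ConnectedComponent := Quot.finite _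
  have := Fintype.ofFinite F.ConnectedComponent
  have := Fintype.ofFinite F'.ConnectedComponent
  rw [Nat.card_eq_fintype_card, Nat.card_eq_fintype_card]
  let φ : F.ConnectedComponent → F'.ConnectedComponent := fun c =>
    c.lift (fun a => F'.connectedComponentMk a) (fun a b p _ => by
      rw [SimpleGraph.ConnectedComponent.eq]
      exact hle a b ⟨p⟩)
  have hφ : ∀ a, φ (F.connectedComponentMk a) = F'.connectedComponentMk a := fun a => rfl
  refine Fintype.card_lt_of_surjective_not_injective φ ?_ ?_
  · intro c
    obtain ⟨a, rfl⟩ := c.exists_rep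
    exact ⟨F.connectedComponentMk a, rfl⟩
  · intro hinj
    apply h1
    rw [← SimpleGraph.ConnectedComponent.eq]
    apply hinj
    rw [hφ, hφ, SimpleGraph.ConnectedComponent.eq]
    exact h2

lemma ncc_le_h56 {F F' : SimpleGraph U}
    (hle : ∀ a b, F.Reachable a b → F'.Reachable a b) : ncc F' ≤ ncc F := by
  classical
  unfold ncc
  have : Finite F.ConnectedComponent := Quot.finite _
  have : Finite F'.ConnectedComponent := Quot.finite _
  let φ : F.ConnectedComponent → F'.ConnectedComponent := fun c =>
    c.lift (fun a => F'.connectedComponentMk a) (fun a b p _ => by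
      rw [SimpleGraph.ConnectedComponent.eq]
      exact hle a b ⟨p⟩)
  refine Nat.card_le_card_of_surjective φ ?_
  intro c
  obtain ⟨a, rfl⟩ := c.exists_rep
  exact ⟨F.connectedComponentMk a, rfl⟩

/-- block M1: switching two edges of different components of a 2-regular graph -/
theorem sw_merge (G : SimpleGraph U) (h2 : Deg2 G) {a a' b b' : U} (ha : G.Adj a a')
    (hb : G.Adj b b') (hab : ¬ G.Reachable a b) :
    (∀ x y, G.Reachable x y → (sw G a a' b b').Reachable x y) ∧
    (sw G a a' b b').Reachable a b ∧ ncc (sw G a a' b b') < ncc G := by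
  have h1 : ∀ x y, G.Reachable x y → (sw G a a' b b').Reachable x y :=
    fun x y h => sw_le_h56 G h2 ha hb hab h
  have h3 : (sw G a a' b b').Reachable a b := (sw_ab_h56 hab).reachable
  exact ⟨h1, h3, ncc_lt_h56 h1 hab h3⟩

/-- deleting one edge creates at most one new component -/
lemma ncc_delete_one_h56 (G : SimpleGraph U) (e : Sym2 U) :
    ncc (G.deleteEdges {e}) ≤ ncc G + 1 := by
  classical
  induction e using Sym2.ind with
  | _ x y =>
    by_cases hxy : G.Adj x y
    · -- map components of the small graph except the one of `y` injectively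
      set G' := G.deleteEdges {s(x, y)} with hG'
      have hle : G' ≤ G := SimpleGraph.deleteEdges_le _
      have key : ∀ a b, G.Reachable a b → G'.Reachable a b ∨
          (G'.Reachable a x ∨ G'.Reachable a y) ∧ (G'.Reachable b x ∨ G'.Reachable b y) := by
        rintro a b ⟨p⟩
        induction p with
        | nil => exact Or.inl (SimpleGraph.Reachable.refl _)
        | cons h p ih =>
          rename_i a b c
          by_cases e : s(a, b) = s(x, y)
          · rw [Sym2.eq_iff] at e
            right
            have ha : G'.Reachable a x ∨ G'.Reachable a y := by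
              rcases e with ⟨rfl, rfl⟩ | ⟨rfl, rfl⟩
              · exact Or.inl (SimpleGraph.Reachable.refl _)
              · exact Or.inr (SimpleGraph.Reachable.refl _)
            have hb : G'.Reachable b x ∨ G'.Reachable b y := by
              rcases e with ⟨rfl, rfl⟩ | ⟨rfl, rfl⟩
              · exact Or.inr (SimpleGraph.Reachable.refl _)
              · exact Or.inl (SimpleGraph.Reachable.refl _)
            refine ⟨ha, ?_⟩
            rcases ih with ih | ⟨_, ih⟩
            · rcases hb with hb | hb
              · exact Or.inl (ih.symm.trans hb)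
              · exact Or.inr (ih.symm.trans hb)
            · exact ih
          · have hab : G'.Adj a b := by
              rw [hG', SimpleGraph.deleteEdges_adj]
              exact ⟨h, e⟩
            rcases ih with ih | ⟨ih1, ih2⟩
            · exact Or.inl (hab.reachable.trans ih)
            · right
              refine ⟨?_, ih2⟩
              rcases ih1 with ih1 | ih1
              · exact Or.inl (hab.reachable.trans ih1)
              · exact Or.inr (hab.reachable.trans ih1)
      unfold ncc
      have : Finite G.ConnectedComponent := Quot.finite _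
      have : Finite G'.ConnectedComponent := Quot.finite _
      have := Fintype.ofFinite G.ConnectedComponent
      have := Fintype.ofFinite G'.ConnectedComponent
      have e1 : Nat.card G.ConnectedComponent + 1 = Nat.card (Option G.ConnectedComponent) := by
        rw [Nat.card_eq_fintype_card, Nat.card_eq_fintype_card, Fintype.card_option]
      rw [e1]
      let ψ : G'.ConnectedComponent → G.ConnectedComponent := fun c =>
        c.lift (fun a => G.connectedComponentMk a) (fun a b p _ => by
          rw [SimpleGraph.ConnectedComponent.eq]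
          exact SimpleGraph.Reachable.mono hle ⟨p⟩)
      let φ : G'.ConnectedComponent → Option G.ConnectedComponent := fun c =>
        if c = G'.connectedComponentMk y then none else some (ψ c)
      refine Nat.card_le_card_of_injective φ ?_
      intro c c' hcc
      simp only [φ] at hcc
      by_cases e1 : c = G'.connectedComponentMk y
      · by_cases e2 : c' = G'.connectedComponentMk y
        · exact e1.trans e2.symm
        · rw [if_pos e1, if_neg e2] at hcc
          exact absurd hcc (by simp)
      · by_cases e2 : c' = G'.connectedComponentMk y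
        · rw [if_neg e1, if_pos e2] at hcc
          exact absurd hcc (by simp)
        · rw [if_neg e1, if_neg e2, Option.some.injEq] at hcc
          obtain ⟨a, rfl⟩ := c.exists_rep
          obtain ⟨b, rfl⟩ := c'.exists_rep
          change G.connectedComponentMk a = G.connectedComponentMk b at hcc
          change G'.connectedComponentMk a = G'.connectedComponentMk b
          change G'.connectedComponentMk a ≠ G'.connectedComponentMk y at e1
          change G'.connectedComponentMk b ≠ G'.connectedComponentMk y at e2
          rw [SimpleGraph.ConnectedComponent.eq] at hcc ⊢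
          rw [Ne, SimpleGraph.ConnectedComponent.eq] at e1 e2
          rcases key a b hcc with h | ⟨h1 | h1, h2 | h2⟩
          · exact h
          · exact h1.trans h2.symm
          · exact absurd h2 e2
          · exact absurd h1 e1
          · exact absurd h1 e1
    · have : G.deleteEdges {s(x, y)} = G := by
        ext a b
        rw [SimpleGraph.deleteEdges_adj]
        constructor
        · exact fun h => h.1
        · intro h
          refine ⟨h, fun e => hxy ?_⟩
          rw [Set.mem_singleton_iff] at e
          rw [← SimpleGraph.mem_edgeSet, ← e]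
          exact h
      rw [this]
      omega

/-- block M3: deleting edges -/
theorem ncc_delete (G G' : SimpleGraph U) (S : Finset (Sym2 U))
    (h : G.deleteEdges (S : Set (Sym2 U)) ≤ G') : ncc G' ≤ ncc G + S.card := by
  classical
  have key : ∀ S : Finset (Sym2 U), ncc (G.deleteEdges (S : Set (Sym2 U))) ≤ ncc G + S.card := by
    intro S
    induction S using Finset.induction_on with
    | empty =>
      simp
    | insert e S he ih =>
      have h1 : G.deleteEdges ((insert e S : Finset (Sym2 U)) : Set (Sym2 U)) =
          (G.deleteEdges (S : Set (Sym2 U))).deleteEdges {e} := by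
        rw [SimpleGraph.deleteEdges_deleteEdges, Finset.coe_insert, Set.insert_eq, Set.union_comm]
      rw [h1, Finset.card_insert_of_notMem he]
      have := ncc_delete_one_h56 (G.deleteEdges (S : Set (Sym2 U))) e
      omega
  refine le_trans (ncc_le_h56 fun a b hab => hab.mono h) (key S)

theorem ncc_pos [Nonempty U] (G : SimpleGraph U) : 0 < ncc G := by
  unfold ncc
  have : Finite G.ConnectedComponent := Quot.finite _
  have : Nonempty G.ConnectedComponent := ⟨G.connectedComponentMk (Classical.arbitrary U)⟩
  exact Nat.card_pos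

theorem ncc_one (G : SimpleGraph U) [Nonempty U] (h : ∀ x y, G.Reachable x y) :
    G.Connected := ⟨fun x y => h x y⟩

end General

/-- block ACY: a graph with parents of smaller rank is acyclic -/
theorem acyclic_of_parent {U : Type} [Fintype U] [DecidableEq U] (G : SimpleGraph U)
    (r : U → ℕ) (par : U → U)
    (h : ∀ x y, G.Adj x y → (y = par x ∧ r y < r x) ∨ (x = par y ∧ r x < r y)) :
    G.IsAcyclic := by
  classical
  intro v c hc
  -- a vertex of maximal rank on the cycle
  have hne : c.support.toFinset.Nonempty := ⟨v, by simp⟩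
  obtain ⟨x, hx, hmax⟩ := Finset.exists_max_image c.support.toFinset r hne
  rw [List.mem_toFinset] at hx
  -- rotate the cycle to start at `x`
  set c' := c.rotate x hx with hcc
  have hc' : c'.IsCycle := (SimpleGraph.Walk.isCycle_rotate hx).2 hc
  have hsup : ∀ y ∈ c'.support, r y ≤ r x := by
    intro y hy
    apply hmax
    rw [List.mem_toFinset]
    rw [SimpleGraph.Walk.mem_support_rotate_iff] at hy
    exact hy
  -- the two neighbours of `x` on the cycle
  have hnn : ¬ c'.Nil := hc'.not_nil
  have h1 : G.Adj x c'.snd := c'.adj_snd hnn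
  have h2 : G.Adj c'.penultimate x := c'.adj_penultimate hnn
  have hne2 : c'.snd ≠ c'.penultimate := hc'.snd_ne_penultimate
  have r1 := hsup c'.snd (c'.getVert_mem_support 1)
  have r2 := hsup c'.penultimate (c'.getVert_mem_support _)
  have e1 : c'.snd = par x := by
    rcases h _ _ h1 with ⟨e, _⟩ | ⟨_, e⟩
    · exact e
    · omega
  have e2 : c'.penultimate = par x := by
    rcases h _ _ h2.symm with ⟨e, _⟩ | ⟨_, e⟩
    · exact e
    · omega
  exact hne2 (e1.trans e2.symm)

end Pool.Agent.KZ
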