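import Pool.Agent.Lib_helper15.KZF.DBASE
import Pool.Agent.Lib_helper15.KZF.DefsA
import Pool.Agent.Lib_helper15.KZF.DefsN
import Pool.Agent.Lib_helper15.KZF.ED
import Pool.Agent.Lib_helper15.KZF.MM1

set_option autoImplicit false

namespace Pool.Agent.KZ

open Finset

variable {V C : Type} [Fintype V] [DecidableEq V] [Fintype C] [DecidableEq C]

/-- a graph with a rank such that every vertex has at most one lower neighbour is acyclic -/
theorem dacy_rank {U : Type} [Fintype U] [DecidableEq U] (G : SimpleGraph U) (r : U → ℕ)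
    (h1 : ∀ x y, G.Adj x y → r x ≠ r y)
    (h2 : ∀ x y y', G.Adj x y → G.Adj x y' → r y < r x → r y' < r x → y = y') : G.IsAcyclic := by
  classical
  refine acyclic_of_parent G r
    (fun x => if h : ∃ y, G.Adj x y ∧ r y < r x then h.choose else x) ?_
  have key : ∀ x y, G.Adj x y → r y < r x →
      y = (if h : ∃ y, G.Adj x y ∧ r y < r x then h.choose else x) := by
    intro x y hxy hr
    have h : ∃ y, G.Adj x y ∧ r y < r x := ⟨y, hxy, hr⟩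
    rw [dif_pos h]
    exact h2 x y _ hxy h.choose_spec.1 hr h.choose_spec.2
  intro x y hxy
  rcases lt_or_gt_of_ne (h1 x y hxy) with hr | hr
  · exact Or.inr ⟨key y x hxy.symm hr, hr⟩
  · exact Or.inl ⟨key x y hxy hr, hr⟩

section Common

variable {σ : C → Equiv.Perm V} {O Es Lv : Finset C} {Uu : Finset V}
  {z0 z1 u v v' w b : C → V} {ρ : V → ℕ} {ty : C → Fin 3} {lev : V → ℕ} {h : ℕ} {m : C → ℕ}
  {dir : C → Bool} {gl : C → Fin 3} {Ls Lm : Finset (Sq V C)} {Ru : Finset C}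

/-- mates -/
def dacy_mt (O : Finset C) (u v : C → V) (x y : V) : Prop :=
  ∃ i, i ∉ O ∧ ((x = u i ∧ y = v i) ∨ (x = v i ∧ y = u i))

/-- tail of a reserve letter -/
def dacy_tl (Ls Lm : Finset (Sq V C)) (x : V) : Prop :=
  ∃ g i, (g, i, x) ∈ Lm ∧ (g, i, x) ∉ Ls

/-- head of a reserve letter -/
def dacy_hd (σ : C → Equiv.Perm V) (Ls Lm : Finset (Sq V C)) (x : V) : Prop :=
  ∃ g i z, (g, i, z) ∈ Lm ∧ (g, i, z) ∉ Ls ∧ x = σ i z

open Classical in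
/-- the rank -/
noncomputable def dacy_r (σ : C → Equiv.Perm V) (O Lv : Finset C) (Uu : Finset V) (u v : C → V)
    (ty : C → Fin 3) (lev : V → ℕ) (h : ℕ) (Ls Lm : Finset (Sq V C)) (x : V) : ℕ :=
  if spin Lv Uu u v ty x then lev x
  else if leaf Lv u v ty x then h + 1
  else if dacy_tl Ls Lm x then 0
  else if dacy_hd σ Ls Lm x then 1
  else if ∃ y, dacy_mt O u v x y ∧ dacy_tl Ls Lm y then 1
  else if ∃ y, dacy_mt O u v x y ∧ dacy_hd σ Ls Lm y then 2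
  else if ∃ i, i ∉ O ∧ x = u i then 0 else 1

theorem dacy_mt_uniq (D : Dat σ O Es Lv Uu z0 z1 u v v' w b ρ ty lev h m dir gl Ls Lm Ru)
    {x y y' : V} (h1 : dacy_mt O u v x y) (h2 : dacy_mt O u v x y') : y = y' := by
  obtain ⟨i, hi, h1⟩ := h1
  obtain ⟨j, hj, h2⟩ := h2
  have hij : i = j := by
    refine dbase_pair D hi hj (x := x) ?_ ?_
    · rcases h1 with h1 | h1
      · exact Or.inl h1.1
      · exact Or.inr h1.1
    · rcases h2 with h2 | h2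
      · exact Or.inl h2.1
      · exact Or.inr h2.1
  subst hij
  have huv := dbase_uv D hi
  rcases h1 with ⟨h1, h1'⟩ | ⟨h1, h1'⟩ <;> rcases h2 with ⟨h2, h2'⟩ | ⟨h2, h2'⟩
  · rw [h1', h2']
  · exact absurd (h1.symm.trans h2) huv
  · exact absurd (h2.symm.trans h1) huv
  · rw [h1', h2']

theorem dacy_mt_symm {x y : V} (h1 : dacy_mt O u v x y) : dacy_mt O u v y x := by
  obtain ⟨i, hi, h1⟩ := h1
  refine ⟨i, hi, ?_⟩
  rcases h1 with ⟨h1, h2⟩ | ⟨h1, h2⟩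
  · exact Or.inr ⟨h2, h1⟩
  · exact Or.inl ⟨h2, h1⟩

/-- the leaf is not spine -/
theorem dacy_leaf_spin (D : Dat σ O Es Lv Uu z0 z1 u v v' w b ρ ty lev h m dir gl Ls Lm Ru)
    {x : V} (hl : leaf Lv u v ty x) : ¬ spin Lv Uu u v ty x := by
  intro hs
  obtain ⟨i, hi, hl⟩ := hl
  have hiO := D.lvO i hi
  have hxi : x = u i ∨ x = v i := by
    rcases hl with ⟨-, hl⟩ | ⟨-, hl⟩
    · exact Or.inl hl
    · exact Or.inr hl
  rcases hs with ⟨j, hj, hs⟩ | hs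
  · have hxj : x = u j ∨ x = v j := by
      rcases hs with ⟨-, hs⟩ | ⟨-, hs⟩
      · exact Or.inr hs
      · exact Or.inl hs
    have hij := dbase_pair D hiO (D.lvO j hj) hxi hxj
    subst hij
    have huv := dbase_uv D hiO
    rcases hl with ⟨hl, hl'⟩ | ⟨hl, hl'⟩ <;> rcases hs with ⟨hs, hs'⟩ | ⟨hs, hs'⟩
    · exact huv (hl'.symm.trans hs')
    · rw [hl] at hs; exact absurd hs (by decide)
    · rw [hl] at hs; exact absurd hs (by decide)
    · exact huv (hs'.symm.trans hl')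
  · rcases hxi with h1 | h1
    · exact (D.uuE i hiO).1 (h1 ▸ hs)
    · exact (D.uuE i hiO).2 (h1 ▸ hs)

/-- a leaf is not in a reserve pair -/
theorem dacy_leaf_res (D : Dat σ O Es Lv Uu z0 z1 u v v' w b ρ ty lev h m dir gl Ls Lm Ru)
    {x : V} (hl : leaf Lv u v ty x) {j : C} (hj : j ∈ Lv) (h0 : ty j = 0)
    (hxj : x = u j ∨ x = v j) : False := by
  obtain ⟨i, hi, hl⟩ := hl
  have hxi : x = u i ∨ x = v i := by
    rcases hl with ⟨-, hl⟩ | ⟨-, hl⟩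
    · exact Or.inl hl
    · exact Or.inr hl
  have hij := dbase_pair D (D.lvO i hi) (D.lvO j hj) hxi hxj
  subst hij
  rcases hl with ⟨hl, -⟩ | ⟨hl, -⟩
  · rw [h0] at hl; exact absurd hl (by decide)
  · rw [h0] at hl; exact absurd hl (by decide)

/-- a spine vertex in a pair: its mate is a leaf -/
theorem dacy_spin_mt (D : Dat σ O Es Lv Uu z0 z1 u v v' w b ρ ty lev h m dir gl Ls Lm Ru)
    {x y : V} (hs : spin Lv Uu u v ty x) (hm : dacy_mt O u v x y) : leaf Lv u v ty y := by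
  obtain ⟨i, hi, hm⟩ := hm
  have hxi : x = u i ∨ x = v i := by
    rcases hm with ⟨hm, -⟩ | ⟨hm, -⟩
    · exact Or.inl hm
    · exact Or.inr hm
  rcases hs with ⟨j, hj, hs⟩ | hs
  · have hxj : x = u j ∨ x = v j := by
      rcases hs with ⟨-, hs⟩ | ⟨-, hs⟩
      · exact Or.inr hs
      · exact Or.inl hs
    have hij := dbase_pair D hi (D.lvO j hj) hxi hxj
    subst hij
    have huv := dbase_uv D hi
    refine ⟨i, hj, ?_⟩
    rcases hs with ⟨hs, hs'⟩ | ⟨hs, hs'⟩ <;> rcases hm with ⟨hm, hm'⟩ | ⟨hm, hm'⟩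
    · exact absurd (hm.symm.trans hs') huv
    · exact Or.inl ⟨hs, hm'⟩
    · exact Or.inr ⟨hs, hm'⟩
    · exact absurd (hs'.symm.trans hm) huv
  · rcases hxi with h1 | h1
    · exact absurd (h1 ▸ hs) (D.uuE i hi).1
    · exact absurd (h1 ▸ hs) (D.uuE i hi).2

theorem dacy_leaf_mt (D : Dat σ O Es Lv Uu z0 z1 u v v' w b ρ ty lev h m dir gl Ls Lm Ru)
    {x y : V} (hs : leaf Lv u v ty x) (hm : dacy_mt O u v x y) : spin Lv Uu u v ty y := by
  obtain ⟨i, hi, hm⟩ := hm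
  have hxi : x = u i ∨ x = v i := by
    rcases hm with ⟨hm, -⟩ | ⟨hm, -⟩
    · exact Or.inl hm
    · exact Or.inr hm
  obtain ⟨j, hj, hs⟩ := hs
  have hxj : x = u j ∨ x = v j := by
    rcases hs with ⟨-, hs⟩ | ⟨-, hs⟩
    · exact Or.inl hs
    · exact Or.inr hs
  have hij := dbase_pair D hi (D.lvO j hj) hxi hxj
  subst hij
  have huv := dbase_uv D hi
  refine Or.inl ⟨i, hj, ?_⟩
  rcases hs with ⟨hs, hs'⟩ | ⟨hs, hs'⟩ <;> rcases hm with ⟨hm, hm'⟩ | ⟨hm, hm'⟩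
  · exact Or.inl ⟨hs, hm'⟩
  · exact absurd (hs'.symm.trans hm) huv
  · exact absurd (hm.symm.trans hs') huv
  · exact Or.inr ⟨hs, hm'⟩

/-- the place of a touched vertex -/
theorem dacy_touch (D : Dat σ O Es Lv Uu z0 z1 u v v' w b ρ ty lev h m dir gl Ls Lm Ru)
    {x : V} (hx : dacy_tl Ls Lm x ∨ dacy_hd σ Ls Lm x) :
    ∃ j ∈ Ru, j ∈ Lv ∧ ty j = 0 ∧ (x = u j ∨ x = v j) := by
  rcases hx with ⟨g, i, h1, h2⟩ | ⟨g, i, z, h1, h2, h3⟩
  · exact dbase_res D h1 h2 (Or.inl rfl)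
  · exact dbase_res D h1 h2 (Or.inr h3)

theorem dacy_notspin (D : Dat σ O Es Lv Uu z0 z1 u v v' w b ρ ty lev h m dir gl Ls Lm Ru)
    {x : V} (hx : dacy_tl Ls Lm x ∨ dacy_hd σ Ls Lm x) :
    ¬ spin Lv Uu u v ty x ∧ ¬ leaf Lv u v ty x := by
  obtain ⟨j, -, hj, h0, hxj⟩ := dacy_touch D hx
  exact ⟨fun hs => dbase_spin D hs hj h0 hxj, fun hl => dacy_leaf_res D hl hj h0 hxj⟩

theorem dacy_notspin_mt (D : Dat σ O Es Lv Uu z0 z1 u v v' w b ρ ty lev h m dir gl Ls Lm Ru)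
    {x y : V} (hm : dacy_mt O u v x y) (hx : dacy_tl Ls Lm y ∨ dacy_hd σ Ls Lm y) :
    ¬ spin Lv Uu u v ty x ∧ ¬ leaf Lv u v ty x :=
  ⟨fun hs => (dacy_notspin D hx).2 (dacy_spin_mt D hs hm),
    fun hl => (dacy_notspin D hx).1 (dacy_leaf_mt D hl hm)⟩

/-- two touched vertices of the same pair are equal and of the same kind: they belong to the same
letter at the same end -/
theorem dacy_same (D : Dat σ O Es Lv Uu z0 z1 u v v' w b ρ ty lev h m dir gl Ls Lm Ru)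
    {g : Fin 3} {i : C} {z : V} {g' : Fin 3} {i' : C} {z' : V} {x x' : V} {j : C} (hj : j ∈ Ru)
    (h1 : (g, i, z) ∈ Lm) (h1' : (g, i, z) ∉ Ls) (h2 : (g', i', z') ∈ Lm)
    (h2' : (g', i', z') ∉ Ls) (hx : x = z ∨ x = σ i z) (hx' : x' = z' ∨ x' = σ i' z')
    (hxj : x = u j ∨ x = v j) (hxj' : x' = u j ∨ x' = v j) :
    (g, i, z) = (g', i', z') ∧ ((x = z ∧ x' = z') ∨ (x = σ i z ∧ x' = σ i' z')) := by
  have hjO : j ∉ O := D.lvO j (mem_filter.mp (D.lt.ru hj)).1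
  have t1 : z = u j ∨ z = v j ∨ σ i z = u j ∨ σ i z = v j := by
    rcases hx with hx | hx <;> rw [← hx] <;> tauto
  have t2 : z' = u j ∨ z' = v j ∨ σ i' z' = u j ∨ σ i' z' = v j := by
    rcases hx' with hx | hx <;> rw [← hx] <;> tauto
  have he := D.lt.one j hj g i z g' i' z' h1 h1' h2 h2' t1 t2
  refine ⟨he, ?_⟩
  rw [Prod.mk.injEq, Prod.mk.injEq] at he
  obtain ⟨e1, e2, e3⟩ := he
  subst e1 e2 e3
  obtain ⟨j1, hj1, j2, hj2, hne, a1, a2⟩ := D.lt.res g i z h1 h1'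
  have hO1 : j1 ∉ O := D.lvO j1 (mem_filter.mp (D.lt.ru hj1)).1
  have hO2 : j2 ∉ O := D.lvO j2 (mem_filter.mp (D.lt.ru hj2)).1
  rcases hx with hx | hx <;> rcases hx' with hx' | hx'
  · exact Or.inl ⟨hx, hx'⟩
  · exfalso
    have b1 : j = j1 := dbase_pair D hjO hO1 hxj (by rw [hx]; exact a1)
    have b2 : j = j2 := dbase_pair D hjO hO2 hxj' (by rw [hx']; exact a2)
    exact hne (b1.symm.trans b2)
  · exfalso
    have b1 : j = j1 := dbase_pair D hjO hO1 hxj' (by rw [hx']; exact a1)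
    have b2 : j = j2 := dbase_pair D hjO hO2 hxj (by rw [hx]; exact a2)
    exact hne (b1.symm.trans b2)
  · exact Or.inr ⟨hx, hx'⟩

/-- a tail is not a head -/
theorem dacy_tl_hd (D : Dat σ O Es Lv Uu z0 z1 u v v' w b ρ ty lev h m dir gl Ls Lm Ru)
    {x : V} (hx : dacy_tl Ls Lm x) (hx' : dacy_hd σ Ls Lm x) : False := by
  obtain ⟨j, hj, -, -, hxj⟩ := dacy_touch D (Or.inl hx)
  obtain ⟨g, i, h1, h2⟩ := hx
  obtain ⟨g', i', z', h1', h2', h3'⟩ := hx'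
  obtain ⟨he, hc⟩ := dacy_same D hj h1 h2 h1' h2' (Or.inl rfl) (Or.inr h3') hxj hxj
  rw [Prod.mk.injEq, Prod.mk.injEq] at he
  obtain ⟨-, e2, e3⟩ := he
  rcases hc with ⟨-, hc⟩ | ⟨hc, -⟩
  · rw [h3'] at hc
    exact (hd_ne D.hd i' z').1 hc
  · exact (hd_ne D.hd i x).1 hc.symm

/-- the mate of a touched vertex is untouched -/
theorem dacy_mate (D : Dat σ O Es Lv Uu z0 z1 u v v' w b ρ ty lev h m dir gl Ls Lm Ru)
    {x y : V} (hm : dacy_mt O u v x y) (hx : dacy_tl Ls Lm x ∨ dacy_hd σ Ls Lm x)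
    (hy : dacy_tl Ls Lm y ∨ dacy_hd σ Ls Lm y) : False := by
  obtain ⟨j, hj, hjL, -, hxj⟩ := dacy_touch D hx
  have hjO := D.lvO j hjL
  obtain ⟨i, hi, hm⟩ := hm
  have hxi : x = u i ∨ x = v i := by
    rcases hm with ⟨hm, -⟩ | ⟨hm, -⟩
    · exact Or.inl hm
    · exact Or.inr hm
  have hij := dbase_pair D hi hjO hxi hxj
  subst hij
  have hyj : y = u i ∨ y = v i := by
    rcases hm with ⟨-, hm⟩ | ⟨-, hm⟩
    · exact Or.inr hm
    · exact Or.inl hm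
  have hxy : x ≠ y := by
    have huv := dbase_uv D hi
    rcases hm with ⟨h1, h2⟩ | ⟨h1, h2⟩
    · rw [h1, h2]; exact huv
    · rw [h1, h2]; exact huv.symm
  have form : ∀ t : V, dacy_tl Ls Lm t ∨ dacy_hd σ Ls Lm t → ∃ g i z, (g, i, z) ∈ Lm ∧
      (g, i, z) ∉ Ls ∧ (t = z ∨ t = σ i z) := by
    intro t ht
    rcases ht with ⟨g, i, h1, h2⟩ | ⟨g, i, z, h1, h2, h3⟩
    · exact ⟨g, i, t, h1, h2, Or.inl rfl⟩
    · exact ⟨g, i, z, h1, h2, Or.inr h3⟩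
  obtain ⟨g1, i1, t1, a1, a2, a3⟩ := form x hx
  obtain ⟨g2, i2, t2, b1, b2, b3⟩ := form y hy
  obtain ⟨he, hc⟩ := dacy_same D hj a1 a2 b1 b2 a3 b3 hxj hyj
  rw [Prod.mk.injEq, Prod.mk.injEq] at he
  obtain ⟨-, e2, e3⟩ := he
  subst e2 e3
  rcases hc with ⟨h1, h2⟩ | ⟨h1, h2⟩
  · exact hxy (h1.trans h2.symm)
  · exact hxy (h1.trans h2.symm)

section Rank

variable (D : Dat σ O Es Lv Uu z0 z1 u v v' w b ρ ty lev h m dir gl Ls Lm Ru)
include D

theorem dacy_r_spin {x : V} (hx : spin Lv Uu u v ty x) :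
    dacy_r σ O Lv Uu u v ty lev h Ls Lm x = lev x := by
  unfold dacy_r
  rw [if_pos hx]

theorem dacy_r_leaf {x : V} (hx : leaf Lv u v ty x) :
    dacy_r σ O Lv Uu u v ty lev h Ls Lm x = h + 1 := by
  unfold dacy_r
  rw [if_neg (dacy_leaf_spin D hx), if_pos hx]

theorem dacy_r_tl {x : V} (hx : dacy_tl Ls Lm x) :
    dacy_r σ O Lv Uu u v ty lev h Ls Lm x = 0 := by
  unfold dacy_r
  have h1 := dacy_notspin D (Or.inl hx)
  rw [if_neg h1.1, if_neg h1.2, if_pos hx]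

theorem dacy_r_hd {x : V} (hx : dacy_hd σ Ls Lm x) :
    dacy_r σ O Lv Uu u v ty lev h Ls Lm x = 1 := by
  unfold dacy_r
  have h1 := dacy_notspin D (Or.inr hx)
  rw [if_neg h1.1, if_neg h1.2, if_neg (fun ht => dacy_tl_hd D ht hx), if_pos hx]

theorem dacy_r_mtl {x y : V} (hm : dacy_mt O u v x y) (hy : dacy_tl Ls Lm y) :
    dacy_r σ O Lv Uu u v ty lev h Ls Lm x = 1 := by
  unfold dacy_r
  have h1 := dacy_notspin_mt D hm (Or.inl hy)
  rw [if_neg h1.1, if_neg h1.2, if_neg (fun ht => dacy_mate D hm (Or.inl ht) (Or.inl hy)),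
    if_neg (fun ht => dacy_mate D hm (Or.inr ht) (Or.inl hy)), if_pos ⟨y, hm, hy⟩]

theorem dacy_r_mhd {x y : V} (hm : dacy_mt O u v x y) (hy : dacy_hd σ Ls Lm y) :
    dacy_r σ O Lv Uu u v ty lev h Ls Lm x = 2 := by
  unfold dacy_r
  have h1 := dacy_notspin_mt D hm (Or.inr hy)
  rw [if_neg h1.1, if_neg h1.2, if_neg (fun ht => dacy_mate D hm (Or.inl ht) (Or.inr hy)),
    if_neg (fun ht => dacy_mate D hm (Or.inr ht) (Or.inr hy)), if_neg, if_pos ⟨y, hm, hy⟩]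
  rintro ⟨y', hm', hy'⟩
  rw [← dacy_mt_uniq D hm hm'] at hy'
  exact dacy_tl_hd D hy' hy

theorem dacy_r_other {i : C} (hi : i ∉ O)
    (hs : ¬ spin Lv Uu u v ty (u i) ∧ ¬ spin Lv Uu u v ty (v i))
    (hu : ¬ dacy_tl Ls Lm (u i) ∧ ¬ dacy_hd σ Ls Lm (u i))
    (hv : ¬ dacy_tl Ls Lm (v i) ∧ ¬ dacy_hd σ Ls Lm (v i)) :
    dacy_r σ O Lv Uu u v ty lev h Ls Lm (u i) = 0 ∧
    dacy_r σ O Lv Uu u v ty lev h Ls Lm (v i) = 1 := by
  have hmu : dacy_mt O u v (u i) (v i) := ⟨i, hi, Or.inl ⟨rfl, rfl⟩⟩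
  have hmv : dacy_mt O u v (v i) (u i) := ⟨i, hi, Or.inr ⟨rfl, rfl⟩⟩
  have hlu : ¬ leaf Lv u v ty (u i) := fun hl => hs.2 (dacy_leaf_mt D hl hmu)
  have hlv : ¬ leaf Lv u v ty (v i) := fun hl => hs.1 (dacy_leaf_mt D hl hmv)
  constructor
  · unfold dacy_r
    rw [if_neg hs.1, if_neg hlu, if_neg hu.1, if_neg hu.2, if_neg, if_neg, if_pos ⟨i, hi, rfl⟩]
    · rintro ⟨y, hm, hy⟩
      rw [← dacy_mt_uniq D hmu hm] at hy
      exact hv.2 hy
    · rintro ⟨y, hm, hy⟩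
      rw [← dacy_mt_uniq D hmu hm] at hy
      exact hv.1 hy
  · unfold dacy_r
    rw [if_neg hs.2, if_neg hlv, if_neg hv.1, if_neg hv.2, if_neg, if_neg, if_neg]
    · rintro ⟨j, hj, hvj⟩
      have hij := dbase_pair D hi hj (Or.inr rfl) (Or.inl hvj)
      subst hij
      exact dbase_uv D hi hvj.symm
    · rintro ⟨y, hm, hy⟩
      rw [← dacy_mt_uniq D hmv hm] at hy
      exact hu.2 hy
    · rintro ⟨y, hm, hy⟩
      rw [← dacy_mt_uniq D hmv hm] at hy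
      exact hu.1 hy

/-- the ranks of mates are different -/
theorem dacy_r_mt {x y : V} (hm : dacy_mt O u v x y) :
    dacy_r σ O Lv Uu u v ty lev h Ls Lm x ≠ dacy_r σ O Lv Uu u v ty lev h Ls Lm y := by
  by_cases s1 : spin Lv Uu u v ty x
  · rw [dacy_r_spin D s1, dacy_r_leaf D (dacy_spin_mt D s1 hm)]
    have := (D.lev1 x).2
    omega
  by_cases s2 : spin Lv Uu u v ty y
  · rw [dacy_r_spin D s2, dacy_r_leaf D (dacy_spin_mt D s2 (dacy_mt_symm hm))]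
    have := (D.lev1 y).2
    omega
  by_cases t1 : dacy_tl Ls Lm x
  · rw [dacy_r_tl D t1, dacy_r_mtl D (dacy_mt_symm hm) t1]
    omega
  by_cases t2 : dacy_hd σ Ls Lm x
  · rw [dacy_r_hd D t2, dacy_r_mhd D (dacy_mt_symm hm) t2]
    omega
  by_cases t3 : dacy_tl Ls Lm y
  · rw [dacy_r_tl D t3, dacy_r_mtl D hm t3]
    omega
  by_cases t4 : dacy_hd σ Ls Lm y
  · rw [dacy_r_hd D t4, dacy_r_mhd D hm t4]
    omega
  obtain ⟨i, hi, hm⟩ := hm
  rcases hm with ⟨h1, h2⟩ | ⟨h1, h2⟩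
  · subst h1 h2
    obtain ⟨a1, a2⟩ := dacy_r_other D hi ⟨s1, s2⟩ ⟨t1, t2⟩ ⟨t3, t4⟩
    rw [a1, a2]; omega
  · subst h1 h2
    obtain ⟨a1, a2⟩ := dacy_r_other D hi ⟨s2, s1⟩ ⟨t3, t4⟩ ⟨t1, t2⟩
    rw [a1, a2]; omega

/-- the three kinds of edges -/
theorem dacy_adj {x y : V} (hxy : (Gam σ (m0set O z0 ∪ Lm)).Adj x y) :
    dacy_mt O u v x y ∨
    (∃ g i z, (g, i, z) ∈ Ls ∧ ((x = z ∧ y = σ i z) ∨ (x = σ i z ∧ y = z))) ∨
    (∃ g i z, (g, i, z) ∈ Lm ∧ (g, i, z) ∉ Ls ∧ ((x = z ∧ y = σ i z) ∨ (x = σ i z ∧ y = z))) := by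
  obtain ⟨-, g, i, z, hA, he⟩ := hxy
  rw [mem_union, dbase_m0] at hA
  rcases hA with ⟨-, hi, hz⟩ | hA
  · left
    subst hz
    refine ⟨i, hi, ?_⟩
    have h1 : s(x, y) = s(u i, v i) := he.trans (D.out.e0 i hi)
    rw [Sym2.eq_iff] at h1
    exact h1
  · right
    have h2 := dbase_ed he.symm
    by_cases hS : (g, i, z) ∈ Ls
    · exact Or.inl ⟨g, i, z, hS, h2⟩
    · exact Or.inr ⟨g, i, z, hA, hS, h2⟩

/-- spine edges: lower neighbour -/
theorem dacy_low {g : Fin 3} {i : C} {z x y : V} (hS : (g, i, z) ∈ Ls)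
    (hxy : (x = z ∧ y = σ i z) ∨ (x = σ i z ∧ y = z)) :
    spin Lv Uu u v ty x ∧ spin Lv Uu u v ty y ∧
      ((lev y = lev x + 1 ∧ lamb (lev y) = g) ∨ (lev x = lev y + 1 ∧ lamb (lev x) = g)) := by
  obtain ⟨-, -, h1⟩ := D.spl.s1 g i z hS
  rcases hxy with ⟨rfl, rfl⟩ | ⟨rfl, rfl⟩ <;> rcases h1 with ⟨a1, a2, a3, a4⟩ | ⟨a1, a2, a3, a4⟩
  · exact ⟨a1, a2, Or.inl ⟨a3, a4⟩⟩
  · exact ⟨a2, a1, Or.inr ⟨a3, a4⟩⟩
  · exact ⟨a2, a1, Or.inr ⟨a3, a4⟩⟩
  · exact ⟨a1, a2, Or.inl ⟨a3, a4⟩⟩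

end Rank

theorem dat_acyclic (D : Dat σ O Es Lv Uu z0 z1 u v v' w b ρ ty lev h m dir gl Ls Lm Ru) :
    (Gam σ (m0set O z0 ∪ Lm)).IsAcyclic := by
  set r := dacy_r σ O Lv Uu u v ty lev h Ls Lm with hr
  -- tail and head of a letter
  have hth : ∀ {g : Fin 3} {i : C} {z x y : V}, (g, i, z) ∈ Lm → (g, i, z) ∉ Ls →
      ((x = z ∧ y = σ i z) ∨ (x = σ i z ∧ y = z)) →
      (dacy_tl Ls Lm x ∧ dacy_hd σ Ls Lm y) ∨ (dacy_hd σ Ls Lm x ∧ dacy_tl Ls Lm y) := by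
    intro g i z x y h1 h2 hxy
    rcases hxy with ⟨rfl, rfl⟩ | ⟨rfl, rfl⟩
    · exact Or.inl ⟨⟨g, i, h1, h2⟩, ⟨g, i, _, h1, h2, rfl⟩⟩
    · exact Or.inr ⟨⟨g, i, _, h1, h2, rfl⟩, ⟨g, i, h1, h2⟩⟩
  refine dacy_rank _ r ?_ ?_
  · intro x y hxy
    rcases dacy_adj D hxy with hm | ⟨g, i, z, hS, he⟩ | ⟨g, i, z, hL, hS, he⟩
    · exact dacy_r_mt D hm
    · obtain ⟨a1, a2, a3⟩ := dacy_low D hS he
      rw [hr, dacy_r_spin D a1, dacy_r_spin D a2]
      rcases a3 with ⟨a3, -⟩ | ⟨a3, -⟩ <;> omega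
    · rcases hth hL hS he with ⟨b1, b2⟩ | ⟨b1, b2⟩
      · rw [hr, dacy_r_tl D b1, dacy_r_hd D b2]; omega
      · rw [hr, dacy_r_hd D b1, dacy_r_tl D b2]; omega
  · -- auxiliary impossibilities
    have hm2 : ∀ {x y : V}, dacy_mt O u v x y → spin Lv Uu u v ty x → r y < r x → False := by
      intro x y hm hs hlt
      rw [hr, dacy_r_spin D hs, dacy_r_leaf D (dacy_spin_mt D hs hm)] at hlt
      have := (D.lev1 x).2
      omega
    have hm3 : ∀ {x y : V}, dacy_mt O u v x y → dacy_tl Ls Lm x ∨ dacy_hd σ Ls Lm x →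
        r y < r x → False := by
      intro x y hm hs hlt
      rcases hs with hs | hs
      · rw [hr, dacy_r_tl D hs] at hlt
        omega
      · rw [hr, dacy_r_hd D hs, dacy_r_mhd D (dacy_mt_symm hm) hs] at hlt
        omega
    intro x y y' hxy hxy' hlt hlt'
    rcases dacy_adj D hxy with hm | ⟨g, i, z, hS, he⟩ | ⟨g, i, z, hL, hS, he⟩ <;>
      rcases dacy_adj D hxy' with hm' | ⟨g', i', z', hS', he'⟩ | ⟨g', i', z', hL', hS', he'⟩
    · exact dacy_mt_uniq D hm hm'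
    · exact (hm2 hm (dacy_low D hS' he').1 hlt).elim
    · refine (hm3 hm ?_ hlt).elim
      rcases hth hL' hS' he' with ⟨b1, -⟩ | ⟨b1, -⟩
      · exact Or.inl b1
      · exact Or.inr b1
    · exact (hm2 hm' (dacy_low D hS he).1 hlt').elim
    · -- two spine letters
      obtain ⟨a1, a2, a3⟩ := dacy_low D hS he
      obtain ⟨a1', a2', a3'⟩ := dacy_low D hS' he'
      rw [hr, dacy_r_spin D a1, dacy_r_spin D a2] at hlt
      rw [hr, dacy_r_spin D a1, dacy_r_spin D a2'] at hlt'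
      have hg : lamb (lev x) = g := by
        rcases a3 with ⟨a3, -⟩ | ⟨-, a3⟩
        · omega
        · exact a3
      have hg' : lamb (lev x) = g' := by
        rcases a3' with ⟨a3', -⟩ | ⟨-, a3'⟩
        · omega
        · exact a3'
      have hgg : g = g' := hg.symm.trans hg'
      subst hgg
      by_cases hne : (i, z) = (i', z')
      · rw [Prod.mk.injEq] at hne
        obtain ⟨e1, e2⟩ := hne
        subst e1 e2
        rcases he with ⟨h1, h2⟩ | ⟨h1, h2⟩ <;> rcases he' with ⟨h1', h2'⟩ | ⟨h1', h2'⟩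
        · rw [h2, h2']
        · exact absurd (h1'.symm.trans h1) (hd_ne D.hd i z).1
        · exact absurd (h1.symm.trans h1') (hd_ne D.hd i z).1
        · rw [h2, h2']
      · exfalso
        have hd := D.spl.s3 g i z i' z' hS hS' hne
        rw [Finset.disjoint_left] at hd
        refine hd (a := x) ?_ ?_
        · rw [mem_insert, mem_singleton]
          rcases he with ⟨h1, -⟩ | ⟨h1, -⟩
          · exact Or.inl h1
          · exact Or.inr h1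
        · rw [mem_insert, mem_singleton]
          rcases he' with ⟨h1, -⟩ | ⟨h1, -⟩
          · exact Or.inl h1
          · exact Or.inr h1
    · exfalso
      have a1 := (dacy_low D hS he).1
      rcases hth hL' hS' he' with ⟨b1, -⟩ | ⟨b1, -⟩
      · exact (dacy_notspin D (Or.inl b1)).1 a1
      · exact (dacy_notspin D (Or.inr b1)).1 a1
    · refine (hm3 hm' ?_ hlt').elim
      rcases hth hL hS he with ⟨b1, -⟩ | ⟨b1, -⟩
      · exact Or.inl b1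
      · exact Or.inr b1
    · exfalso
      have a1 := (dacy_low D hS' he').1
      rcases hth hL hS he with ⟨b1, -⟩ | ⟨b1, -⟩
      · exact (dacy_notspin D (Or.inl b1)).1 a1
      · exact (dacy_notspin D (Or.inr b1)).1 a1
    · -- two reserve letters
      rcases hth hL hS he with ⟨b1, -⟩ | ⟨b1, b2⟩
      · rw [hr, dacy_r_tl D b1] at hlt; omega
      rcases hth hL' hS' he' with ⟨b1', -⟩ | ⟨b1', b2'⟩
      · rw [hr, dacy_r_tl D b1'] at hlt'; omega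
      obtain ⟨j, hj, -, -, hxj⟩ := dacy_touch D (Or.inr b1)
      have hxe : x = z ∨ x = σ i z := by
        rcases he with ⟨h1, -⟩ | ⟨h1, -⟩
        · exact Or.inl h1
        · exact Or.inr h1
      have hxe' : x = z' ∨ x = σ i' z' := by
        rcases he' with ⟨h1, -⟩ | ⟨h1, -⟩
        · exact Or.inl h1
        · exact Or.inr h1
      obtain ⟨hq, -⟩ := dacy_same D hj hL hS hL' hS' hxe hxe' hxj hxj
      rw [Prod.mk.injEq, Prod.mk.injEq] at hq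
      obtain ⟨-, e2, e3⟩ := hq
      subst e2 e3
      rcases he with ⟨h1, h2⟩ | ⟨h1, h2⟩ <;> rcases he' with ⟨h1', h2'⟩ | ⟨h1', h2'⟩
      · rw [h2, h2']
      · exact absurd (h1'.symm.trans h1) (hd_ne D.hd i z).1
      · exact absurd (h1.symm.trans h1') (hd_ne D.hd i z).1
      · rw [h2, h2']

end Common

end Pool.Agent.KZ
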