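import Pool.Agent.Lib_helper15.KZF.CYC
import Pool.Agent.Lib_helper15.KZF.DefsA
import Pool.Agent.Lib_helper15.KZF.DefsN

/-! Block DCARD (helper38). -/

set_option autoImplicit false

namespace Pool.Agent.KZ

open Finset

variable {V C : Type} [Fintype V] [DecidableEq V] [Fintype C] [DecidableEq C]

variable {σ : C → Equiv.Perm V} {O Es Lv : Finset C} {Uu : Finset V}
  {z0 z1 u v v' w b : C → V} {ρ : V → ℕ} {ty : C → Fin 3} {lev : V → ℕ} {h : ℕ} {m : C → ℕ}
  {dir : C → Bool} {gl : C → Fin 3} {Ls Lm : Finset (Sq V C)} {Ru : Finset C}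

/-- block DCARD -/
theorem dat_card (D : Dat σ O Es Lv Uu z0 z1 u v v' w b ρ ty lev h m dir gl Ls Lm Ru) :
    (univ \ O).card + ∑ i ∈ Es, m i ≤ (m0set O z0 ∪ Lm).card := by
  classical
  have hdis : Disjoint (m0set O z0) Lm := by
    rw [Finset.disjoint_left]
    rintro ⟨g, i, z⟩ h1 h2
    unfold m0set at h1
    rw [Finset.mem_image] at h1
    obtain ⟨j, -, hj⟩ := h1
    obtain ⟨-, r, -, hr⟩ := D.lt.lab g i z h2
    have h3 := (lb_ne (D.gl0 i) r).1
    rw [← hr] at h3
    have h4 := congrArg Prod.fst hj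
    exact h3 h4.symm
  rw [Finset.card_union_of_disjoint hdis]
  apply Nat.add_le_add
  · unfold m0set
    rw [Finset.card_image_of_injective]
    intro i j hij
    have h1 := congrArg (fun s : Sq V C => s.2.1) hij
    exact h1
  · have hch : ∀ p : Σ _ : C, ℕ, ∃ z, p.1 ∈ Es → p.2 < m p.1 →
        (lb (gl p.1) p.2, p.1, z) ∈ Lm ∧ mand σ z0 dir m p.1 z p.2 := by
      intro p
      by_cases h1 : p.1 ∈ Es
      · by_cases h2 : p.2 < m p.1
        · obtain ⟨z, hz⟩ := D.lt.all p.1 h1 p.2 h2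
          exact ⟨z, fun _ _ => hz⟩
        · exact ⟨z0 p.1, fun _ h3 => absurd h3 h2⟩
      · exact ⟨z0 p.1, fun h3 => absurd h3 h1⟩
    choose f hf using hch
    have hcard : ∑ i ∈ Es, m i = (Es.sigma fun i => Finset.range (m i)).card := by
      rw [Finset.card_sigma]
      simp
    rw [hcard]
    apply Finset.card_le_card_of_injOn
      (fun p : Σ _ : C, ℕ => ((lb (gl p.1) p.2, p.1, f p) : Sq V C))
    · intro p hp
      rw [Finset.mem_coe, Finset.mem_sigma, Finset.mem_range] at hp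
      exact (hf p hp.1 hp.2).1
    · intro p hp p' hp' heq
      rw [Finset.mem_coe, Finset.mem_sigma, Finset.mem_range] at hp hp'
      obtain ⟨i, r⟩ := p
      obtain ⟨i', r'⟩ := p'
      have h1 : i = i' := congrArg (fun s : Sq V C => s.2.1) heq
      subst h1
      have h2 : f ⟨i, r⟩ = f ⟨i, r'⟩ := congrArg (fun s : Sq V C => s.2.2) heq
      have h3 := (hf ⟨i, r⟩ hp.1 hp.2).2
      have h4 := (hf ⟨i, r'⟩ hp'.1 hp'.2).2
      rw [h2] at h3
      have h5 := mand_unique h3 h4
      simp only at h5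
      rw [h5]

end Pool.Agent.KZ
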