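import Pool.Agent.Lib_helper15.KZF.DefsA
import Pool.Agent.Lib_helper15.KZF.DefsN
import Pool.Agent.Lib_helper15.KZF.ED

/-!
# Block REG3: the three layer class 0 is 2-regular
-/

set_option autoImplicit false

namespace Pool.Agent.KZ

open Finset

variable {V C : Type} [Fintype V] [DecidableEq V] [Fintype C] [DecidableEq C]
variable {σ : C → Equiv.Perm V} {D : OddD V C} {A : Finset (Sq V C)}

/-- the directed horizontal edges of class 0 that come from an odd colour, with their gap -/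
def reg3L (l g : Fin 3) (b c m t p x y : V) : Prop :=
  (g = 0 ∧ x = b ∧ y = c) ∨ (g = 1 ∧ x = c ∧ y = b) ∨
  (g = 2 ∧ l = 2 ∧ x = t ∧ y = m) ∨ (g = 2 ∧ l = 0 ∧ x = t ∧ y = p) ∨
  (g = 1 ∧ l = 2 ∧ x = b ∧ y = c) ∨ (g = 1 ∧ l = 2 ∧ x = m ∧ y = t) ∨
  (g = 2 ∧ l = 0 ∧ x = c ∧ y = b) ∨ (g = 2 ∧ l = 0 ∧ x = p ∧ y = t)

/-- five distinct points -/
def reg3P (b c m t p : V) : Prop :=
  b ≠ c ∧ b ≠ m ∧ b ≠ t ∧ b ≠ p ∧ c ≠ m ∧ c ≠ t ∧ c ≠ p ∧ m ≠ t ∧ m ≠ p ∧ t ≠ p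

omit [Fintype V] [DecidableEq V] in
theorem reg3_L_fun {l g : Fin 3} {b c m t p x y y' : V} (P : reg3P b c m t p)
    (h1 : reg3L l g b c m t p x y) (h2 : reg3L l g b c m t p x y') : y = y' := by
  obtain ⟨p1, p2, p3, p4, p5, p6, p7, p8, p9, p10⟩ := P
  have q1 := p1.symm
  have q2 := p2.symm
  have q3 := p3.symm
  have q4 := p4.symm
  have q5 := p5.symm
  have q6 := p6.symm
  have q7 := p7.symm
  have q8 := p8.symm
  have q9 := p9.symm
  have q10 := p10.symm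
  unfold reg3L at h1 h2
  rcases h1 with h1 | h1 | h1 | h1 | h1 | h1 | h1 | h1 <;>
  rcases h2 with h2 | h2 | h2 | h2 | h2 | h2 | h2 | h2 <;>
  simp_all

omit [Fintype V] [DecidableEq V] in
theorem reg3_L_ne {l g : Fin 3} {b c m t p x y : V} (P : reg3P b c m t p)
    (h1 : reg3L l g b c m t p x y) : x ≠ y := by
  obtain ⟨p1, p2, p3, p4, p5, p6, p7, p8, p9, p10⟩ := P
  have q1 := p1.symm
  have q8 := p8.symm
  have q10 := p10.symm
  unfold reg3L at h1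
  rcases h1 with h1 | h1 | h1 | h1 | h1 | h1 | h1 | h1 <;> simp_all

omit [Fintype V] [DecidableEq V] in
theorem reg3_L_gap {l g g' : Fin 3} {b c m t p x y y' : V} (P : reg3P b c m t p)
    (hg : g = l) (hg' : g' = l + 2)
    (h1 : reg3L l g b c m t p x y) (h2 : reg3L l g' b c m t p x y') : False := by
  obtain ⟨p1, p2, p3, p4, p5, p6, p7, p8, p9, p10⟩ := P
  have q1 := p1.symm
  have q2 := p2.symm
  have q3 := p3.symm
  have q4 := p4.symm
  have q5 := p5.symm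
  have q6 := p6.symm
  have q7 := p7.symm
  have q8 := p8.symm
  have q9 := p9.symm
  have q10 := p10.symm
  have d1 : ((0 : Fin 3) + 2) = 2 := rfl
  have d2 : ((1 : Fin 3) + 2) = 0 := rfl
  have d3 : ((2 : Fin 3) + 2) = 1 := rfl
  subst hg hg'
  unfold reg3L at h1 h2
  rcases h1 with ⟨rfl, h1⟩ | ⟨rfl, h1⟩ | ⟨rfl, h1⟩ | ⟨rfl, h1⟩ | ⟨rfl, h1⟩ | ⟨rfl, h1⟩ | ⟨rfl, h1⟩ |
    ⟨rfl, h1⟩ <;>
  rcases h2 with h2 | h2 | h2 | h2 | h2 | h2 | h2 | h2 <;>
  simp_all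

omit [Fintype V] [DecidableEq V] in
theorem reg3_L_mem {l g : Fin 3} {b c m t p x y : V}
    (h1 : reg3L l g b c m t p x y) : x = b ∨ x = c ∨ x = m ∨ x = t ∨ x = p := by
  unfold reg3L at h1
  rcases h1 with h1 | h1 | h1 | h1 | h1 | h1 | h1 | h1 <;> simp_all

/-- the directed horizontal edges of class 0 in the layer `l` that replace a vertical edge of the
gap `g` -/
def reg3R (σ : C → Equiv.Perm V) (D : OddD V C) (A : Finset (Sq V C)) (l g : Fin 3) (x y : V) :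
    Prop :=
  (∃ i z, (g, i, z) ∈ A ∧ s(x, y) = ed σ i z ∧ ∀ i', ¬ bor σ D l g i z i') ∨
  (∃ i ∈ D.O, reg3L l g (D.b i) (σ i (D.b i)) ((σ i)⁻¹ (D.bt i)) (D.bt i) (σ i (D.bt i)) x y)

theorem reg3_pts (h : HD σ) (B : Base σ D A) {i : C} (hi : i ∈ D.O) :
    reg3P (D.b i) (σ i (D.b i)) ((σ i)⁻¹ (D.bt i)) (D.bt i) (σ i (D.bt i)) := by
  obtain ⟨p, z, hpz, hpe⟩ := B.helpb i hi
  obtain ⟨q, z', hqz, hqe⟩ := B.helpc i hi
  have hp : p ≠ i := fun e => B.even _ _ _ hpz (e ▸ hi)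
  have hq : q ≠ i := fun e => B.even _ _ _ hqz (e ▸ hi)
  have hinv : σ i ((σ i)⁻¹ (D.bt i)) = D.bt i := (σ i).apply_symm_apply _
  have e1 : ∀ y, ed σ p z ≠ ed σ i y := fun y hy => hp (ed_inj h hy).1
  have e2 : ∀ y, ed σ q z' ≠ ed σ i y := fun y hy => hq (ed_inj h hy).1
  have hdiag : ∀ (j : C) (y : V), ¬ (ed σ j y).IsDiag := by
    intro j y hy
    exact (hd_ne h j y).1 (Sym2.mk_isDiag_iff.1 hy).symm
  have hbt : D.b i ≠ D.bt i := by
    intro e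
    apply e1 ((σ i)⁻¹ (D.bt i))
    rw [hpe, e]
    unfold ed
    rw [hinv, Sym2.eq_swap]
  refine ⟨(hd_ne h i _).1.symm, ?_, hbt, ?_, ?_, ?_, ?_, ?_, ?_, (hd_ne h i _).1.symm⟩
  · intro e
    apply hdiag p z
    rw [hpe, e]
    exact Sym2.mk_isDiag_iff.2 rfl
  · intro e
    apply e2 (σ i (D.bt i))
    rw [hqe, e]
    unfold ed
    rw [Sym2.eq_swap]
  · intro e
    apply e1 (D.b i)
    rw [hpe]
    unfold ed
    rw [e]
  · intro e
    apply hbt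
    have : (σ i)⁻¹ (σ i (D.b i)) = (σ i)⁻¹ (D.bt i) := by rw [e]
    have e3 : (σ i)⁻¹ (σ i (D.b i)) = D.b i := (σ i).symm_apply_apply _
    -- b = sigma^-1 beta, so the helper edge is a loop
    exfalso
    apply hdiag p z
    rw [hpe, ← this, e3]
    exact Sym2.mk_isDiag_iff.2 rfl
  · intro e
    apply hdiag q z'
    rw [hqe, e]
    exact Sym2.mk_isDiag_iff.2 rfl
  · intro e
    have := (hd_ne h i ((σ i)⁻¹ (D.bt i))).1
    rw [hinv] at this
    exact this e.symm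
  · intro e
    exact (hd_ne h i (D.bt i)).2 e.symm

theorem reg3_same (B : Base σ D A) {i j : C} (hi : i ∈ D.O) (hj : j ∈ D.O) {x : V}
    (h1 : x = D.b i ∨ x = σ i (D.b i) ∨ x = (σ i)⁻¹ (D.bt i) ∨ x = D.bt i ∨ x = σ i (D.bt i))
    (h2 : x = D.b j ∨ x = σ j (D.b j) ∨ x = (σ j)⁻¹ (D.bt j) ∨ x = D.bt j ∨ x = σ j (D.bt j)) :
    i = j := by
  by_contra hne
  have := B.five i hi j hj hne
  rw [Finset.disjoint_left] at this
  apply this (a := x)
  · simpa using h1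
  · simpa using h2

/-- the square that covers a vertex in a gap is unique -/
theorem reg3_sep (B : Base σ D A) {g : Fin 3} {i i' : C} {z z' x : V} (h1 : (g, i, z) ∈ A)
    (h2 : (g, i', z') ∈ A) (hx : x = z ∨ x = σ i z) (hx' : x = z' ∨ x = σ i' z') :
    i = i' ∧ z = z' := by
  by_contra hne
  have := B.sep g i z i' z' h1 h2 (fun e => hne (by simpa using e))
  rw [Finset.disjoint_left] at this
  apply this (a := x)
  · simpa using hx
  · simpa using hx'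

omit [Fintype V] [DecidableEq V] [Fintype C] [DecidableEq C] in
theorem reg3_ed_mem {i : C} {z x y : V} (he : s(x, y) = ed σ i z) :
    (x = z ∧ y = σ i z) ∨ (x = σ i z ∧ y = z) := by
  unfold ed at he
  rw [Sym2.eq_iff] at he
  exact he

theorem reg3_tok (g : Fin 3) (i : C) :
    (g = 0 → tok σ D g.castSucc i = D.b i) ∧ (g = 1 → tok σ D g.castSucc i = σ i (D.b i)) ∧
    (g = 2 → tok σ D g.castSucc i = D.bt i) := by
  refine ⟨?_, ?_, ?_⟩
  · rintro rfl; rfl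
  · rintro rfl; rfl
  · rintro rfl; rfl

/-- a horizontal edge for the gap `g` exists iff the vertex is occupied -/
theorem reg3_occ (B : Base σ D A) {l g : Fin 3} {x y : V} (hR : reg3R σ D A l g x y) :
    occ σ D A g x := by
  rcases hR with ⟨i, z, hA, he, _⟩ | ⟨i, hi, hL⟩
  · left
    refine ⟨i, z, hA, ?_⟩
    rcases reg3_ed_mem he with h | h
    · exact Or.inl h.1
    · exact Or.inr h.1
  · have hb := B.helpb i hi
    have hc := B.helpc i hi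
    obtain ⟨t0, t1, t2⟩ := reg3_tok (σ := σ) (D := D) g i
    unfold reg3L at hL
    rcases hL with h | h | h | h | h | h | h | h
    · exact Or.inr ⟨i, hi, by rw [t0 h.1]; exact h.2.1⟩
    · exact Or.inr ⟨i, hi, by rw [t1 h.1]; exact h.2.1⟩
    · exact Or.inr ⟨i, hi, by rw [t2 h.1]; exact h.2.2.1⟩
    · exact Or.inr ⟨i, hi, by rw [t2 h.1]; exact h.2.2.1⟩
    · obtain ⟨rfl, _, rfl, _⟩ := h
      obtain ⟨p, z, hpz, hpe⟩ := hb
      refine Or.inl ⟨p, z, hpz, ?_⟩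
      rcases reg3_ed_mem hpe.symm with h | h
      · exact Or.inl h.1
      · exact Or.inr h.1
    · obtain ⟨rfl, _, rfl, _⟩ := h
      obtain ⟨p, z, hpz, hpe⟩ := hb
      refine Or.inl ⟨p, z, hpz, ?_⟩
      rcases reg3_ed_mem hpe.symm with h | h
      · exact Or.inr h.2
      · exact Or.inl h.2
    · obtain ⟨rfl, _, rfl, _⟩ := h
      obtain ⟨p, z, hpz, hpe⟩ := hc
      refine Or.inl ⟨p, z, hpz, ?_⟩
      rcases reg3_ed_mem hpe.symm with h | h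
      · exact Or.inl h.1
      · exact Or.inr h.1
    · obtain ⟨rfl, _, rfl, _⟩ := h
      obtain ⟨p, z, hpz, hpe⟩ := hc
      refine Or.inl ⟨p, z, hpz, ?_⟩
      rcases reg3_ed_mem hpe.symm with h | h
      · exact Or.inr h.2
      · exact Or.inl h.2

theorem reg3_exists {l g : Fin 3} (hg : g = l ∨ g = l + 2) {x : V}
    (ho : occ σ D A g x) : ∃ y, reg3R σ D A l g x y := by
  rcases ho with ⟨i, z, hA, hx⟩ | ⟨i, hi, hx⟩
  · by_cases hb : ∃ i', bor σ D l g i z i'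
    · obtain ⟨i', hi', hb'⟩ := hb
      rcases hb' with ⟨rfl, rfl, he⟩ | ⟨rfl, rfl, he⟩
      · have hx' : x = D.b i' ∨ x = (σ i')⁻¹ (D.bt i') := by
          rcases reg3_ed_mem he.symm with h | h
          · rcases hx with hx | hx
            · left; rw [hx, h.1]
            · right; rw [hx, h.2]
          · rcases hx with hx | hx
            · right; rw [hx, h.2]
            · left; rw [hx, h.1]
        rcases hx' with hx' | hx'
        · exact ⟨σ i' (D.b i'), Or.inr ⟨i', hi', by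
            unfold reg3L
            exact Or.inr (Or.inr (Or.inr (Or.inr (Or.inl ⟨rfl, rfl, hx', rfl⟩))))⟩⟩
        · exact ⟨D.bt i', Or.inr ⟨i', hi', by
            unfold reg3L
            exact Or.inr (Or.inr (Or.inr (Or.inr (Or.inr (Or.inl ⟨rfl, rfl, hx', rfl⟩)))))⟩⟩
      · have hx' : x = σ i' (D.b i') ∨ x = σ i' (D.bt i') := by
          rcases reg3_ed_mem he.symm with h | h
          · rcases hx with hx | hx
            · left; rw [hx, h.1]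
            · right; rw [hx, h.2]
          · rcases hx with hx | hx
            · right; rw [hx, h.2]
            · left; rw [hx, h.1]
        rcases hx' with hx' | hx'
        · exact ⟨D.b i', Or.inr ⟨i', hi', by
            unfold reg3L
            exact Or.inr (Or.inr (Or.inr (Or.inr (Or.inr (Or.inr (Or.inl ⟨rfl, rfl, hx', rfl⟩))))))⟩⟩
        · exact ⟨D.bt i', Or.inr ⟨i', hi', by
            unfold reg3L
            exact Or.inr (Or.inr (Or.inr (Or.inr (Or.inr (Or.inr (Or.inr ⟨rfl, rfl, hx', rfl⟩))))))⟩⟩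
    · have hb' : ∀ i', ¬ bor σ D l g i z i' := fun i' hi' => hb ⟨i', hi'⟩
      rcases hx with rfl | rfl
      · exact ⟨σ i x, Or.inl ⟨i, x, hA, rfl, hb'⟩⟩
      · exact ⟨z, Or.inl ⟨i, z, hA, Sym2.eq_swap, hb'⟩⟩
  · obtain ⟨t0, t1, t2⟩ := reg3_tok (σ := σ) (D := D) g i
    have h3 : g = 0 ∨ g = 1 ∨ g = 2 := by
      clear hg hx t0 t1 t2
      revert g; decide
    rcases h3 with h3 | h3 | h3
    · exact ⟨σ i (D.b i), Or.inr ⟨i, hi, Or.inl ⟨h3, by rw [hx, t0 h3], rfl⟩⟩⟩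
    · exact ⟨D.b i, Or.inr ⟨i, hi, Or.inr (Or.inl ⟨h3, by rw [hx, t1 h3], rfl⟩)⟩⟩
    · rcases hg with hg | hg
      · refine ⟨(σ i)⁻¹ (D.bt i), Or.inr ⟨i, hi, Or.inr (Or.inr (Or.inl ⟨h3, ?_, by rw [hx, t2 h3], rfl⟩))⟩⟩
        rw [← hg, h3]
      · refine ⟨σ i (D.bt i), Or.inr ⟨i, hi, Or.inr (Or.inr (Or.inr (Or.inl ⟨h3, ?_, by rw [hx, t2 h3], rfl⟩)))⟩⟩
        rw [h3] at hg
        clear hx t0 t1 t2 h3
        revert l; decide

/-- an unborrowed square excludes the horizontal edges of the odd colours -/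
theorem reg3_excl (B : Base σ D A) {l g : Fin 3} {x y : V} {i : C} {z : V} (hA : (g, i, z) ∈ A)
    (hx : x = z ∨ x = σ i z) (hb : ∀ i', ¬ bor σ D l g i z i') {j : C} (hj : j ∈ D.O)
    (hL : reg3L l g (D.b j) (σ j (D.b j)) ((σ j)⁻¹ (D.bt j)) (D.bt j) (σ j (D.bt j)) x y) :
    False := by
  have htc := B.tokcov g j hj
  have hcov : cov σ A g x := ⟨i, z, hA, hx⟩
  obtain ⟨t0, t1, t2⟩ := reg3_tok (σ := σ) (D := D) g j
  unfold reg3L at hL
  rcases hL with h | h | h | h | h | h | h | h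
  · exact htc (by rw [t0 h.1, ← h.2.1]; exact hcov)
  · exact htc (by rw [t1 h.1, ← h.2.1]; exact hcov)
  · exact htc (by rw [t2 h.1, ← h.2.2.1]; exact hcov)
  · exact htc (by rw [t2 h.1, ← h.2.2.1]; exact hcov)
  · obtain ⟨rfl, rfl, rfl, _⟩ := h
    obtain ⟨p, z', hpz, hpe⟩ := B.helpb j hj
    have hx' : D.b j = z' ∨ D.b j = σ p z' := by
      rcases reg3_ed_mem hpe.symm with h | h
      · exact Or.inl h.1
      · exact Or.inr h.1
    obtain ⟨rfl, rfl⟩ := reg3_sep B hA hpz hx hx'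
    exact hb j ⟨hj, Or.inl ⟨rfl, rfl, hpe⟩⟩
  · obtain ⟨rfl, rfl, rfl, _⟩ := h
    obtain ⟨p, z', hpz, hpe⟩ := B.helpb j hj
    have hx' : (σ j)⁻¹ (D.bt j) = z' ∨ (σ j)⁻¹ (D.bt j) = σ p z' := by
      rcases reg3_ed_mem hpe.symm with h | h
      · exact Or.inr h.2
      · exact Or.inl h.2
    obtain ⟨rfl, rfl⟩ := reg3_sep B hA hpz hx hx'
    exact hb j ⟨hj, Or.inl ⟨rfl, rfl, hpe⟩⟩
  · obtain ⟨rfl, rfl, rfl, _⟩ := h
    obtain ⟨p, z', hpz, hpe⟩ := B.helpc j hj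
    have hx' : σ j (D.b j) = z' ∨ σ j (D.b j) = σ p z' := by
      rcases reg3_ed_mem hpe.symm with h | h
      · exact Or.inl h.1
      · exact Or.inr h.1
    obtain ⟨rfl, rfl⟩ := reg3_sep B hA hpz hx hx'
    exact hb j ⟨hj, Or.inr ⟨rfl, rfl, hpe⟩⟩
  · obtain ⟨rfl, rfl, rfl, _⟩ := h
    obtain ⟨p, z', hpz, hpe⟩ := B.helpc j hj
    have hx' : σ j (D.bt j) = z' ∨ σ j (D.bt j) = σ p z' := by
      rcases reg3_ed_mem hpe.symm with h | h
      · exact Or.inr h.2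
      · exact Or.inl h.2
    obtain ⟨rfl, rfl⟩ := reg3_sep B hA hpz hx hx'
    exact hb j ⟨hj, Or.inr ⟨rfl, rfl, hpe⟩⟩

theorem reg3_fun (h : HD σ) (B : Base σ D A) {l g : Fin 3} {x y y' : V}
    (h1 : reg3R σ D A l g x y) (h2 : reg3R σ D A l g x y') : y = y' := by
  rcases h1 with ⟨i, z, hA, he, hb⟩ | ⟨i, hi, hL⟩ <;>
  rcases h2 with ⟨i', z', hA', he', hb'⟩ | ⟨i', hi', hL'⟩
  · have hx : x = z ∨ x = σ i z := by
      rcases reg3_ed_mem he with h | h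
      · exact Or.inl h.1
      · exact Or.inr h.1
    have hx' : x = z' ∨ x = σ i' z' := by
      rcases reg3_ed_mem he' with h | h
      · exact Or.inl h.1
      · exact Or.inr h.1
    obtain ⟨rfl, rfl⟩ := reg3_sep B hA hA' hx hx'
    rw [← he'] at he
    exact Sym2.congr_right.1 he
  · have hx : x = z ∨ x = σ i z := by
      rcases reg3_ed_mem he with h | h
      · exact Or.inl h.1
      · exact Or.inr h.1
    exact (reg3_excl B hA hx hb hi' hL').elim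
  · have hx' : x = z' ∨ x = σ i' z' := by
      rcases reg3_ed_mem he' with h | h
      · exact Or.inl h.1
      · exact Or.inr h.1
    exact (reg3_excl B hA' hx' hb' hi hL).elim
  · have : i = i' := reg3_same B hi hi' (reg3_L_mem hL) (reg3_L_mem hL')
    subst this
    exact reg3_L_fun (reg3_pts h B hi) hL hL'

omit [Fintype V] [DecidableEq V] [Fintype C] [DecidableEq C] in
/-- the horizontal edges of the odd colours have an odd colour -/
theorem reg3_L_ed {l g : Fin 3} {x y : V} {i : C}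
    (hL : reg3L l g (D.b i) (σ i (D.b i)) ((σ i)⁻¹ (D.bt i)) (D.bt i) (σ i (D.bt i)) x y) :
    s(x, y) = ed σ i (D.b i) ∨ (l = 2 ∧ s(x, y) = ed σ i ((σ i)⁻¹ (D.bt i))) ∨
      (l = 0 ∧ s(x, y) = ed σ i (D.bt i)) := by
  have hinv : σ i ((σ i)⁻¹ (D.bt i)) = D.bt i := (σ i).apply_symm_apply _
  unfold reg3L at hL
  unfold ed
  rw [hinv]
  rcases hL with h | h | h | h | h | h | h | h
  · left; rw [h.2.1, h.2.2]
  · left; rw [h.2.1, h.2.2, Sym2.eq_swap]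
  · right; left; exact ⟨h.2.1, by rw [h.2.2.1, h.2.2.2, Sym2.eq_swap]⟩
  · right; right; exact ⟨h.2.1, by rw [h.2.2.1, h.2.2.2]⟩
  · left; rw [h.2.2.1, h.2.2.2]
  · right; left; exact ⟨h.2.1, by rw [h.2.2.1, h.2.2.2]⟩
  · left; rw [h.2.2.1, h.2.2.2, Sym2.eq_swap]
  · right; right; exact ⟨h.2.1, by rw [h.2.2.1, h.2.2.2, Sym2.eq_swap]⟩

theorem reg3_gap (h : HD σ) (B : Base σ D A) {l : Fin 3} {x y : V}
    (h1 : reg3R σ D A l l x y) (h2 : reg3R σ D A l (l + 2) x y) : False := by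
  have hcol : ∀ {g : Fin 3} {i : C} {z : V} {j : C}, (g, i, z) ∈ A → j ∈ D.O →
      s(x, y) = ed σ i z → ∀ g' : Fin 3,
      reg3L l g' (D.b j) (σ j (D.b j)) ((σ j)⁻¹ (D.bt j)) (D.bt j) (σ j (D.bt j)) x y → False := by
    intro g i z j hA hj he g' hL
    have hne : i ≠ j := fun e => B.even _ _ _ hA (e ▸ hj)
    rcases reg3_L_ed hL with h3 | ⟨_, h3⟩ | ⟨_, h3⟩
    · rw [he] at h3; exact hne (ed_inj h h3).1
    · rw [he] at h3; exact hne (ed_inj h h3).1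
    · rw [he] at h3; exact hne (ed_inj h h3).1
  rcases h1 with ⟨i, z, hA, he, hb⟩ | ⟨i, hi, hL⟩ <;>
  rcases h2 with ⟨i', z', hA', he', hb'⟩ | ⟨i', hi', hL'⟩
  · rw [he] at he'
    obtain ⟨rfl, rfl⟩ := ed_inj h he'
    have := B.one _ _ _ _ hA hA'
    clear * - this
    revert l; decide
  · exact hcol hA hi' he _ hL'
  · exact hcol hA' hi he' _ hL
  · have : i = i' := reg3_same B hi hi' (reg3_L_mem hL) (reg3_L_mem hL')
    subst this
    exact reg3_L_gap (reg3_pts h B hi) rfl rfl hL hL'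

theorem reg3_ne (h : HD σ) (B : Base σ D A) {l g : Fin 3} {x y : V}
    (h1 : reg3R σ D A l g x y) : x ≠ y := by
  rcases h1 with ⟨i, z, _, he, _⟩ | ⟨i, hi, hL⟩
  · intro e
    have := (hd_ne h i z).1
    rcases reg3_ed_mem he with h3 | h3
    · exact this (h3.2.symm.trans (e.symm.trans h3.1))
    · exact this (h3.1.symm.trans (e.trans h3.2))
  · exact reg3_L_ne (reg3_pts h B hi) hL

theorem reg3_hor {l : Fin 3} {x y : V} :
    hor σ D A l x y ↔ reg3R σ D A l l x y ∨ reg3R σ D A l (l + 2) x y := by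
  have hgap : ∀ l g : Fin 3, l = g + 1 ↔ g = l + 2 := by decide
  have hl3 : l = 0 ∨ l = 1 ∨ l = 2 := by revert l; decide
  constructor
  · rintro (⟨g, i, z, hA, hg, he, hb⟩ | ⟨i, hi, he⟩ | ⟨hl, i, hi, he⟩ | ⟨hl, i, hi, he⟩)
    · rcases hg with rfl | hg
      · exact Or.inl (Or.inl ⟨i, z, hA, he, hb⟩)
      · rw [hgap] at hg
        subst hg
        exact Or.inr (Or.inl ⟨i, z, hA, he, hb⟩)
    · rcases reg3_ed_mem he with ⟨hx, hy⟩ | ⟨hx, hy⟩
      · rcases hl3 with rfl | rfl | rfl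
        · exact Or.inl (Or.inr ⟨i, hi, Or.inl ⟨rfl, hx, hy⟩⟩)
        · exact Or.inr (Or.inr ⟨i, hi, Or.inl ⟨rfl, hx, hy⟩⟩)
        · exact Or.inr (Or.inr ⟨i, hi,
            Or.inr (Or.inr (Or.inr (Or.inr (Or.inl ⟨rfl, rfl, hx, hy⟩))))⟩)
      · rcases hl3 with rfl | rfl | rfl
        · exact Or.inr (Or.inr ⟨i, hi,
            Or.inr (Or.inr (Or.inr (Or.inr (Or.inr (Or.inr (Or.inl ⟨rfl, rfl, hx, hy⟩))))))⟩)
        · exact Or.inl (Or.inr ⟨i, hi, Or.inr (Or.inl ⟨rfl, hx, hy⟩)⟩)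
        · exact Or.inr (Or.inr ⟨i, hi, Or.inr (Or.inl ⟨rfl, hx, hy⟩)⟩)
    · subst hl
      have hinv : σ i ((σ i)⁻¹ (D.bt i)) = D.bt i := (σ i).apply_symm_apply _
      rcases reg3_ed_mem he with ⟨hx, hy⟩ | ⟨hx, hy⟩
      · rw [hinv] at hy
        exact Or.inr (Or.inr ⟨i, hi,
            Or.inr (Or.inr (Or.inr (Or.inr (Or.inr (Or.inl ⟨rfl, rfl, hx, hy⟩)))))⟩)
      · rw [hinv] at hx
        exact Or.inl (Or.inr ⟨i, hi, Or.inr (Or.inr (Or.inl ⟨rfl, rfl, hx, hy⟩))⟩)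
    · subst hl
      rcases reg3_ed_mem he with ⟨hx, hy⟩ | ⟨hx, hy⟩
      · exact Or.inr (Or.inr ⟨i, hi, Or.inr (Or.inr (Or.inr (Or.inl ⟨rfl, rfl, hx, hy⟩)))⟩)
      · exact Or.inr (Or.inr ⟨i, hi,
            Or.inr (Or.inr (Or.inr (Or.inr (Or.inr (Or.inr (Or.inr ⟨rfl, rfl, hx, hy⟩))))))⟩)
  · have key : ∀ g : Fin 3, (l = g ∨ l = g + 1) → reg3R σ D A l g x y → hor σ D A l x y := by
      rintro g hg (⟨i, z, hA, he, hb⟩ | ⟨i, hi, hL⟩)
      · exact Or.inl ⟨g, i, z, hA, hg, he, hb⟩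
      · rcases reg3_L_ed hL with h3 | ⟨h2, h3⟩ | ⟨h2, h3⟩
        · exact Or.inr (Or.inl ⟨i, hi, h3⟩)
        · exact Or.inr (Or.inr (Or.inl ⟨h2, i, hi, h3⟩))
        · exact Or.inr (Or.inr (Or.inr ⟨h2, i, hi, h3⟩))
    rintro (h1 | h1)
    · exact key _ (Or.inl rfl) h1
    · exact key _ (Or.inr ((hgap _ _).2 rfl)) h1

theorem reg3_adj (h : HD σ) (B : Base σ D A) (x : V) (l : Fin 3) (q : V × Fin 3) :
    (F0 σ D A).Adj (x, l) q ↔ (q = (x, l + 1) ∧ ¬ occ σ D A l x) ∨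
      (q = (x, l + 2) ∧ ¬ occ σ D A (l + 2) x) ∨
      (q.2 = l ∧ reg3R σ D A l l x q.1) ∨ (q.2 = l ∧ reg3R σ D A l (l + 2) x q.1) := by
  have hgap : ∀ l g : Fin 3, l = g + 1 ↔ g = l + 2 := by decide
  have hne1 : ∀ l : Fin 3, l ≠ l + 1 ∧ l ≠ l + 2 := by decide
  obtain ⟨y, l'⟩ := q
  change ((x, l) ≠ (y, l') ∧ ((x = y ∧ ((l' = l + 1 ∧ ¬ occ σ D A l x) ∨
      (l = l' + 1 ∧ ¬ occ σ D A l' y))) ∨ (l = l' ∧ hor σ D A l x y))) ↔ _
  rw [reg3_hor]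
  constructor
  · rintro ⟨_, ⟨rfl, ⟨rfl, ho⟩ | ⟨hl, ho⟩⟩ | ⟨rfl, hR | hR⟩⟩
    · exact Or.inl ⟨rfl, ho⟩
    · rw [hgap] at hl
      subst hl
      exact Or.inr (Or.inl ⟨rfl, ho⟩)
    · exact Or.inr (Or.inr (Or.inl ⟨rfl, hR⟩))
    · exact Or.inr (Or.inr (Or.inr ⟨rfl, hR⟩))
  · rintro (⟨he, ho⟩ | ⟨he, ho⟩ | ⟨hl, hR⟩ | ⟨hl, hR⟩)
    · obtain ⟨rfl, rfl⟩ := Prod.mk.inj he
      exact ⟨fun e => (hne1 l).1 (Prod.mk.inj e).2, Or.inl ⟨rfl, Or.inl ⟨rfl, ho⟩⟩⟩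
    · obtain ⟨rfl, rfl⟩ := Prod.mk.inj he
      exact ⟨fun e => (hne1 l).2 (Prod.mk.inj e).2, Or.inl ⟨rfl, Or.inr ⟨(hgap _ _).2 rfl, ho⟩⟩⟩
    · simp only at hl hR
      subst hl
      exact ⟨fun e => reg3_ne h B hR (Prod.mk.inj e).1, Or.inr ⟨rfl, Or.inl hR⟩⟩
    · simp only at hl hR
      subst hl
      exact ⟨fun e => reg3_ne h B hR (Prod.mk.inj e).1, Or.inr ⟨rfl, Or.inr hR⟩⟩

theorem F0_deg2 (h : HD σ) (B : Base σ D A) : Deg2 (F0 σ D A) := by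
  rintro ⟨x, l⟩
  have hne1 : ∀ l : Fin 3, l ≠ l + 1 ∧ l ≠ l + 2 ∧ l + 1 ≠ l + 2 := by decide
  obtain ⟨n1, n2, n3⟩ := hne1 l
  -- the neighbour for a gap
  have hq : ∀ (g : Fin 3) (r : Fin 3), (g = l ∨ g = l + 2) → r ≠ l → ∃ q : V × Fin 3,
      (∀ q', (q' = (x, r) ∧ ¬ occ σ D A g x) ∨ (q'.2 = l ∧ reg3R σ D A l g x q'.1) ↔ q' = q) ∧
      (q = (x, r) ∨ (q.2 = l ∧ reg3R σ D A l g x q.1)) := by
    intro g r hg hr
    by_cases ho : occ σ D A g x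
    · obtain ⟨y, hy⟩ := reg3_exists hg ho
      refine ⟨(y, l), fun q' => ⟨?_, ?_⟩, Or.inr ⟨rfl, hy⟩⟩
      · rintro (⟨_, h2⟩ | ⟨h1, h2⟩)
        · exact absurd ho h2
        · exact Prod.ext (reg3_fun h B h2 hy) h1
      · rintro rfl
        exact Or.inr ⟨rfl, hy⟩
    · refine ⟨(x, r), fun q' => ⟨?_, ?_⟩, Or.inl rfl⟩
      · rintro (⟨h1, _⟩ | ⟨_, h2⟩)
        · exact h1
        · exact absurd (reg3_occ B h2) ho
      · rintro rfl
        exact Or.inl ⟨rfl, ho⟩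
  obtain ⟨q1, hq1, hq1'⟩ := hq l (l + 1) (Or.inl rfl) n1.symm
  obtain ⟨q2, hq2, hq2'⟩ := hq (l + 2) (l + 2) (Or.inr rfl) n2.symm
  have hset : (F0 σ D A).neighborSet (x, l) = {q1, q2} := by
    ext q
    rw [SimpleGraph.mem_neighborSet, reg3_adj h B, Set.mem_insert_iff, Set.mem_singleton_iff,
      ← hq1, ← hq2]
    tauto
  have hne : q1 ≠ q2 := by
    intro e
    subst e
    rcases hq1' with h1 | ⟨h1, h1'⟩ <;> rcases hq2' with h2 | ⟨h2, h2'⟩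
    · rw [h1] at h2
      exact n3 (Prod.mk.inj h2).2
    · rw [h1] at h2
      exact n1 h2.symm
    · rw [h2] at h1
      exact n2 h1.symm
    · exact reg3_gap h B h1' h2'
  rw [hset, Set.ncard_pair hne]

end Pool.Agent.KZ
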