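import Pool.Agent.Lib_helper15.KZF.DefsA
import Pool.Agent.Lib_helper15.KZF.DefsN
import Pool.Agent.Lib_helper15.KZF.ED

/-!
# Block UPD of KZ: adding a square with two free verticals is a switch
-/

set_option autoImplicit false

namespace Pool.Agent.KZ

open Finset

variable {V C : Type} [Fintype V] [DecidableEq V] [Fintype C] [DecidableEq C]
variable {σ : C → Equiv.Perm V} {D : OddD V C} {A : Finset (Sq V C)}

omit [Fintype V] [Fintype C] in
theorem upd_cov (g : Fin 3) (i : C) (z : V) (g' : Fin 3) (x : V) :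
    cov σ (insert (g, i, z) A) g' x ↔ cov σ A g' x ∨ (g' = g ∧ (x = z ∨ x = σ i z)) := by
  unfold cov
  constructor
  · rintro ⟨i1, z1, h, hx⟩
    rw [mem_insert] at h
    rcases h with h | h
    · rw [Prod.mk.injEq, Prod.mk.injEq] at h
      obtain ⟨rfl, rfl, rfl⟩ := h
      exact Or.inr ⟨rfl, hx⟩
    · exact Or.inl ⟨i1, z1, h, hx⟩
  · rintro (⟨i1, z1, h, hx⟩ | ⟨rfl, hx⟩)
    · exact ⟨i1, z1, mem_insert_of_mem h, hx⟩
    · exact ⟨i, z, mem_insert_self _ _, hx⟩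

omit [Fintype V] [Fintype C] in
theorem upd_occ (g : Fin 3) (i : C) (z : V) (g' : Fin 3) (x : V) :
    occ σ D (insert (g, i, z) A) g' x ↔ occ σ D A g' x ∨ (g' = g ∧ (x = z ∨ x = σ i z)) := by
  unfold occ
  rw [upd_cov]
  exact or_right_comm

omit [Fintype V] [Fintype C] in
theorem upd_hor (g : Fin 3) (i : C) (z : V) (hb : ∀ l i', ¬ bor σ D l g i z i') (l : Fin 3)
    (x y : V) : hor σ D (insert (g, i, z) A) l x y ↔
      hor σ D A l x y ∨ ((l = g ∨ l = g + 1) ∧ s(x, y) = ed σ i z) := by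
  unfold hor
  have key : (∃ g1 i1 z1, (g1, i1, z1) ∈ insert (g, i, z) A ∧ (l = g1 ∨ l = g1 + 1) ∧
      s(x, y) = ed σ i1 z1 ∧ ∀ i', ¬ bor σ D l g1 i1 z1 i') ↔
      (∃ g1 i1 z1, (g1, i1, z1) ∈ A ∧ (l = g1 ∨ l = g1 + 1) ∧
      s(x, y) = ed σ i1 z1 ∧ ∀ i', ¬ bor σ D l g1 i1 z1 i') ∨
      ((l = g ∨ l = g + 1) ∧ s(x, y) = ed σ i z) := by
    constructor
    · rintro ⟨g1, i1, z1, h, h1, h2, h3⟩
      rw [mem_insert] at h
      rcases h with h | h
      · rw [Prod.mk.injEq, Prod.mk.injEq] at h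
        obtain ⟨rfl, rfl, rfl⟩ := h
        exact Or.inr ⟨h1, h2⟩
      · exact Or.inl ⟨g1, i1, z1, h, h1, h2, h3⟩
    · rintro (⟨g1, i1, z1, h, h1, h2, h3⟩ | ⟨h1, h2⟩)
      · exact ⟨g1, i1, z1, mem_insert_of_mem h, h1, h2, h3⟩
      · exact ⟨g, i, z, mem_insert_self _ _, h1, h2, hb l⟩
  rw [key]
  exact or_right_comm

theorem upd_nobor (h : HD σ) (B : Base σ D A) {g : Fin 3} {i : C} {z : V}
    (hlab : ∀ g', (g', i, z) ∉ A) (l : Fin 3) (i' : C) : ¬ bor σ D l g i z i' := by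
  rintro ⟨hi', ⟨-, -, h3⟩ | ⟨-, -, h3⟩⟩
  · obtain ⟨p, z', hm, he⟩ := B.helpb i' hi'
    rw [← he] at h3
    obtain ⟨rfl, rfl⟩ := ed_inj h h3
    exact hlab _ hm
  · obtain ⟨p, z', hm, he⟩ := B.helpc i' hi'
    rw [← he] at h3
    obtain ⟨rfl, rfl⟩ := ed_inj h h3
    exact hlab _ hm

omit [Fintype V] [Fintype C] [DecidableEq C] in
theorem upd_disj {g : Fin 3} {i : C} {z : V} (h1 : ¬ occ σ D A g z)
    (h2 : ¬ occ σ D A g (σ i z)) {i' : C} {z' : V} (hm : (g, i', z') ∈ A) :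
    Disjoint ({z, σ i z} : Finset V) {z', σ i' z'} := by
  rw [Finset.disjoint_left]
  intro a ha ha'
  rw [mem_insert, mem_singleton] at ha ha'
  have hc : occ σ D A g a := Or.inl ⟨i', z', hm, ha'⟩
  rcases ha with rfl | rfl
  · exact h1 hc
  · exact h2 hc

omit [Fintype V] [Fintype C] in
theorem upd_base (B : Base σ D A) {g : Fin 3} {i : C} {z : V} (hi : i ∉ D.O)
    (hlab : ∀ g', (g', i, z) ∉ A) (h1 : ¬ occ σ D A g z) (h2 : ¬ occ σ D A g (σ i z)) :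
    Base σ D (insert (g, i, z) A) where
  even := by
    intro g1 i1 z1 hm
    rw [mem_insert] at hm
    rcases hm with hm | hm
    · rw [Prod.mk.injEq, Prod.mk.injEq] at hm
      rw [hm.2.1]; exact hi
    · exact B.even g1 i1 z1 hm
  one := by
    intro g1 g2 i1 z1 hm1 hm2
    rw [mem_insert] at hm1 hm2
    rcases hm1 with hm1 | hm1 <;> rcases hm2 with hm2 | hm2
    · rw [Prod.mk.injEq, Prod.mk.injEq] at hm1 hm2
      rw [hm1.1, hm2.1]
    · rw [Prod.mk.injEq, Prod.mk.injEq] at hm1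
      obtain ⟨rfl, rfl, rfl⟩ := hm1
      exact absurd hm2 (hlab _)
    · rw [Prod.mk.injEq, Prod.mk.injEq] at hm2
      obtain ⟨rfl, rfl, rfl⟩ := hm2
      exact absurd hm1 (hlab _)
    · exact B.one g1 g2 i1 z1 hm1 hm2
  sep := by
    intro g1 i1 z1 i2 z2 hm1 hm2 hne
    rw [mem_insert] at hm1 hm2
    rcases hm1 with hm1 | hm1 <;> rcases hm2 with hm2 | hm2
    · rw [Prod.mk.injEq] at hm1 hm2
      exact absurd (hm1.2.trans hm2.2.symm) hne
    · rw [Prod.mk.injEq, Prod.mk.injEq] at hm1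
      obtain ⟨rfl, rfl, rfl⟩ := hm1
      exact upd_disj h1 h2 hm2
    · rw [Prod.mk.injEq, Prod.mk.injEq] at hm2
      obtain ⟨rfl, rfl, rfl⟩ := hm2
      exact (upd_disj h1 h2 hm1).symm
    · exact B.sep g1 i1 z1 i2 z2 hm1 hm2 hne
  tokinj := B.tokinj
  tokcov := by
    intro g1 i1 hi1 hc
    rw [upd_cov] at hc
    rcases hc with hc | ⟨rfl, hc⟩
    · exact B.tokcov g1 i1 hi1 hc
    · rcases hc with hc | hc
      · exact h1 (Or.inr ⟨i1, hi1, hc.symm⟩)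
      · exact h2 (Or.inr ⟨i1, hi1, hc.symm⟩)
  helpb := by
    intro i1 hi1
    obtain ⟨p, z', hm, he⟩ := B.helpb i1 hi1
    exact ⟨p, z', mem_insert_of_mem hm, he⟩
  helpc := by
    intro i1 hi1
    obtain ⟨p, z', hm, he⟩ := B.helpc i1 hi1
    exact ⟨p, z', mem_insert_of_mem hm, he⟩
  five := B.five

theorem upd_f1 (l : Fin 3) : l + 1 ≠ l := by revert l; decide

theorem upd_f2 (l : Fin 3) : l + 1 + 1 ≠ l := by revert l; decide

omit [Fintype V] [DecidableEq V] in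
theorem upd_vert (x z : V) (l g : Fin 3) :
    (s((x, l), (x, l + 1)) : Sym2 (V × Fin 3)) = s((z, g), (z, g + 1)) ↔ x = z ∧ l = g := by
  rw [Sym2.eq_iff]
  simp only [Prod.mk.injEq]
  constructor
  · rintro (⟨⟨h1, h2⟩, -⟩ | ⟨⟨h1, h2⟩, -, h4⟩)
    · exact ⟨h1, h2⟩
    · exfalso
      subst h2
      exact upd_f2 g h4
  · rintro ⟨rfl, rfl⟩
    simp

omit [Fintype V] [DecidableEq V] in
theorem upd_hh (x y z : V) (l g : Fin 3) :
    (s((x, l), (y, l)) : Sym2 (V × Fin 3)) ≠ s((z, g), (z, g + 1)) := by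
  rw [Ne, Sym2.eq_iff]
  simp only [Prod.mk.injEq]
  rintro (⟨⟨-, h2⟩, -, h4⟩ | ⟨⟨-, h2⟩, -, h4⟩)
  · subst h2; exact upd_f1 l h4.symm
  · subst h4; exact upd_f1 l h2.symm

omit [Fintype V] [DecidableEq V] in
theorem upd_hor_eq (x y z w : V) (l g : Fin 3) :
    (s((x, l), (y, l)) : Sym2 (V × Fin 3)) = s((z, g), (w, g)) ↔ l = g ∧ s(x, y) = s(z, w) := by
  rw [Sym2.eq_iff, Sym2.eq_iff]
  simp only [Prod.mk.injEq]
  tauto

theorem F0_insert (h : HD σ) (B : Base σ D A) {g : Fin 3} {i : C} {z : V} (hi : i ∉ D.O)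
    (hlab : ∀ g', (g', i, z) ∉ A) (h1 : ¬ occ σ D A g z) (h2 : ¬ occ σ D A g (σ i z)) :
    Base σ D (insert (g, i, z) A) ∧ F0 σ D (insert (g, i, z) A) = swg (F0 σ D A) g z (σ i z) := by
  refine ⟨upd_base B hi hlab h1 h2, ?_⟩
  have hb : ∀ l i', ¬ bor σ D l g i z i' := fun l i' => upd_nobor h B hlab l i'
  ext ⟨x, l⟩ ⟨y, l'⟩
  simp only [swg, sw, SimpleGraph.sup_adj, SimpleGraph.deleteEdges_adj,
    SimpleGraph.fromEdgeSet_adj, Set.mem_insert_iff, Set.mem_singleton_iff]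
  simp only [F0, upd_occ, upd_hor g i z hb]
  constructor
  · rintro ⟨hne, h | h⟩
    · obtain ⟨hxy, h⟩ := h
      subst hxy
      left
      rcases h with ⟨hl, h⟩ | ⟨hl, h⟩
      · subst hl
        refine ⟨⟨hne, Or.inl ⟨rfl, Or.inl ⟨rfl, fun hc => h (Or.inl hc)⟩⟩⟩, ?_⟩
        rw [upd_vert, upd_vert]
        rintro (⟨rfl, rfl⟩ | ⟨rfl, rfl⟩)
        · exact h (Or.inr ⟨rfl, Or.inl rfl⟩)
        · exact h (Or.inr ⟨rfl, Or.inr rfl⟩)
      · subst hl
        refine ⟨⟨hne, Or.inl ⟨rfl, Or.inr ⟨rfl, fun hc => h (Or.inl hc)⟩⟩⟩, ?_⟩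
        rw [Sym2.eq_swap, upd_vert, upd_vert]
        rintro (⟨rfl, rfl⟩ | ⟨rfl, rfl⟩)
        · exact h (Or.inr ⟨rfl, Or.inl rfl⟩)
        · exact h (Or.inr ⟨rfl, Or.inr rfl⟩)
    · obtain ⟨hl, h⟩ := h
      subst hl
      rcases h with h | ⟨hl, h⟩
      · left
        refine ⟨⟨hne, Or.inr ⟨rfl, h⟩⟩, ?_⟩
        rintro (h' | h')
        · exact upd_hh _ _ _ _ _ h'
        · exact upd_hh _ _ _ _ _ h'
      · right
        refine ⟨?_, hne⟩
        rcases hl with rfl | rfl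
        · left
          rw [upd_hor_eq]
          exact ⟨rfl, h⟩
        · right
          rw [upd_hor_eq]
          exact ⟨rfl, h⟩
  · rintro (⟨⟨hne, h⟩, hn⟩ | ⟨h, hne⟩)
    · refine ⟨hne, ?_⟩
      rcases h with ⟨hxy, h⟩ | ⟨hl, h⟩
      · subst hxy
        left
        refine ⟨rfl, ?_⟩
        rcases h with ⟨hl, h⟩ | ⟨hl, h⟩
        · subst hl
          left
          refine ⟨rfl, ?_⟩
          rw [upd_vert, upd_vert] at hn
          rintro (hc | ⟨rfl, hc⟩)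
          · exact h hc
          · exact hn (by rcases hc with hc | hc <;> simp [hc])
        · subst hl
          right
          refine ⟨rfl, ?_⟩
          rw [Sym2.eq_swap, upd_vert, upd_vert] at hn
          rintro (hc | ⟨rfl, hc⟩)
          · exact h hc
          · exact hn (by rcases hc with hc | hc <;> simp [hc])
      · exact Or.inr ⟨hl, Or.inl h⟩
    · refine ⟨hne, Or.inr ?_⟩
      have hll : l = l' := by
        rcases h with h | h
        · rw [Sym2.eq_iff] at h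
          simp only [Prod.mk.injEq] at h
          rcases h with ⟨⟨-, h3⟩, -, h4⟩ | ⟨⟨-, h3⟩, -, h4⟩ <;> rw [h3, h4]
        · rw [Sym2.eq_iff] at h
          simp only [Prod.mk.injEq] at h
          rcases h with ⟨⟨-, h3⟩, -, h4⟩ | ⟨⟨-, h3⟩, -, h4⟩ <;> rw [h3, h4]
      subst hll
      refine ⟨rfl, Or.inr ?_⟩
      rcases h with h | h
      · rw [upd_hor_eq] at h
        exact ⟨Or.inl h.1, h.2⟩
      · rw [upd_hor_eq] at h
        exact ⟨Or.inr h.1, h.2⟩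

end Pool.Agent.KZ
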