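import Pool.Agent.Lib_helper15.KZF.DefsA
import Pool.Agent.Lib_helper15.KZF.DefsN
import Pool.Agent.Lib_helper15.KZF.ED
import Pool.Agent.Lib_helper15.KZF.MM1
import Pool.Agent.Lib_helper15.KZF.REG3
import Pool.Agent.Lib_helper15.KZF.UPD

/-! # Forests of squares (block M2) -/

set_option autoImplicit false
set_option linter.unusedSectionVars false

namespace Pool.Agent.KZ

open Finset

variable {V C : Type} [Fintype V] [DecidableEq V] [Fintype C] [DecidableEq C]
variable {σ : C → Equiv.Perm V} {D : OddD V C} {A : Finset (Sq V C)}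

lemma f3_ne_h56 (g : Fin 3) : g ≠ g + 1 := by revert g; decide

lemma F0_vert_h56 {g : Fin 3} {x : V} (h : ¬ occ σ D A g x) :
    (F0 σ D A).Adj (x, g) (x, g + 1) := by
  refine ⟨?_, Or.inl ⟨rfl, Or.inl ⟨rfl, h⟩⟩⟩
  intro h'
  exact f3_ne_h56 g (Prod.mk.inj h').2

lemma Gam_adj_h56 (A : Finset (Sq V C)) (x y : V) :
    (Gam σ A).Adj x y ↔ x ≠ y ∧ ∃ g i z, (g, i, z) ∈ A ∧ s(x, y) = ed σ i z := Iff.rfl

lemma base_sub_h56 (B : Base σ D A) (hO : D.O = ∅) {A' : Finset (Sq V C)} (h : A' ⊆ A) :
    Base σ D A' := by
  refine ⟨fun g i z hz => B.even g i z (h hz), fun g g' i z h1 h2 => B.one g g' i z (h h1) (h h2),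
    fun g i z i' z' h1 h2 h3 => B.sep g i z i' z' (h h1) (h h2) h3, B.tokinj, ?_, ?_, ?_, B.five⟩
  all_goals
    intros
    rename_i hi
    try rw [hO] at hi
    simp_all

lemma F0_empty_adj_h56 (hO : D.O = ∅) (p q : V × Fin 3) :
    (F0 σ D (∅ : Finset (Sq V C))).Adj p q ↔ p.1 = q.1 ∧ p.2 ≠ q.2 := by
  have h1 : ∀ g x, ¬ occ σ D (∅ : Finset (Sq V C)) g x := by
    intro g x
    unfold occ cov
    simp [hO]
  have h2 : ∀ l x y, ¬ hor σ D (∅ : Finset (Sq V C)) l x y := by
    intro l x y
    unfold hor
    simp [hO]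
  have key : ∀ g l : Fin 3, g ≠ l ↔ (l = g + 1 ∨ g = l + 1) := by decide
  change (p ≠ q ∧ _) ↔ _
  simp only [h1, h2, not_false_eq_true, and_true, and_false, or_false]
  rw [key]
  constructor
  · rintro ⟨_, h⟩; exact h
  · intro h
    refine ⟨?_, h⟩
    rintro rfl
    rcases h.2 with h | h
    · exact f3_ne_h56 _ h
    · exact f3_ne_h56 _ h

/-- block M2: forests of squares (no odd colours) -/
theorem forest_reach (h : HD σ) (B : Base σ D A) (hO : D.O = ∅) (hac : (Gam σ A).IsAcyclic) :
    (∀ x y l l', (F0 σ D A).Reachable (x, l) (y, l') ↔ (Gam σ A).Reachable x y) ∧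
    ncc (F0 σ D A) + A.card ≤ Fintype.card V := by
  classical
  induction A using Finset.induction_on with
  | empty =>
    have hr : ∀ a b : V × Fin 3, (F0 σ D (∅ : Finset (Sq V C))).Reachable a b ↔ a.1 = b.1 := by
      intro a b
      constructor
      · rintro ⟨p⟩
        induction p with
        | nil => rfl
        | cons h p ih =>
          rw [F0_empty_adj_h56 hO] at h
          exact h.1.trans ih
      · intro h
        by_cases h2 : a.2 = b.2
        · have : a = b := Prod.ext h h2
          rw [this]
        · exact SimpleGraph.Adj.reachable ((F0_empty_adj_h56 hO a b).2 ⟨h, h2⟩)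
    refine ⟨fun x y l l' => ?_, ?_⟩
    · rw [hr]
      constructor
      · intro h
        simp only at h
        rw [h]
      · rintro ⟨p⟩
        cases p with
        | nil => rfl
        | cons h p =>
          rw [Gam_adj_h56] at h
          obtain ⟨_, g, i, z, h, _⟩ := h
          simp at h
    · rw [Finset.card_empty, add_zero]
      unfold ncc
      rw [← Nat.card_eq_fintype_card]
      have : Finite (F0 σ D (∅ : Finset (Sq V C))).ConnectedComponent := Quot.finite _
      let φ : V → (F0 σ D (∅ : Finset (Sq V C))).ConnectedComponent :=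
        fun v => (F0 σ D (∅ : Finset (Sq V C))).connectedComponentMk (v, 0)
      refine Nat.card_le_card_of_surjective φ ?_
      intro c
      induction c using SimpleGraph.ConnectedComponent.ind with
      | h a =>
        refine ⟨a.1, ?_⟩
        rw [SimpleGraph.ConnectedComponent.eq, hr]
  | insert s S hs ih =>
    obtain ⟨g, i, z⟩ := s
    have hBS : Base σ D S := base_sub_h56 B hO (Finset.subset_insert _ S)
    have hiO : i ∉ D.O := by rw [hO]; simp
    have hlab : ∀ g', (g', i, z) ∉ S := by
      intro g' hg'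
      have := B.one g g' i z (Finset.mem_insert_self _ _) (Finset.mem_insert_of_mem hg')
      rw [← this] at hg'
      exact hs hg'
    have hocc : ∀ x, (x = z ∨ x = σ i z) → ¬ occ σ D S g x := by
      rintro x hx (⟨i', z', h1, h2⟩ | ⟨i', hi', _⟩)
      · have hne : (i, z) ≠ (i', z') := by
          intro e
          rw [Prod.mk.injEq] at e
          rw [← e.1, ← e.2] at h1
          exact hs h1
        have hd := B.sep g i z i' z' (Finset.mem_insert_self _ _) (Finset.mem_insert_of_mem h1) hne
        rw [Finset.disjoint_left] at hd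
        have m1 : x ∈ ({z, σ i z} : Finset V) := by
          simp only [Finset.mem_insert, Finset.mem_singleton]; exact hx
        have m2 : x ∈ ({z', σ i' z'} : Finset V) := by
          simp only [Finset.mem_insert, Finset.mem_singleton]; exact h2
        exact hd m1 m2
      · rw [hO] at hi'; simp at hi'
    have ho1 := hocc z (Or.inl rfl)
    have ho2 := hocc (σ i z) (Or.inr rfl)
    obtain ⟨-, hF⟩ := F0_insert h hBS hiO hlab ho1 ho2
    have hle : Gam σ S ≤ Gam σ (insert (g, i, z) S) := by
      intro v w h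
      rw [Gam_adj_h56] at h ⊢
      obtain ⟨hne, g', i', z', hs', e⟩ := h
      exact ⟨hne, g', i', z', Finset.mem_insert_of_mem hs', e⟩
    have hac' : (Gam σ S).IsAcyclic := hac.anti hle
    obtain ⟨i1, i2⟩ := ih hBS hac'
    have hzne : z ≠ σ i z := fun e => (hd_ne h i z).1 e.symm
    have hadj : (Gam σ (insert (g, i, z) S)).Adj z (σ i z) := by
      rw [Gam_adj_h56]
      exact ⟨hzne, g, i, z, Finset.mem_insert_self _ _, rfl⟩
    have hnS : ¬ (Gam σ S).Adj z (σ i z) := by
      rw [Gam_adj_h56]
      rintro ⟨_, g', i', z', hs', e⟩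
      have := ed_inj h (i := i) (j := i') (x := z) (y := z') e
      rw [← this.1, ← this.2] at hs'
      exact hlab g' hs'
    have hdel : Gam σ S ≤ (Gam σ (insert (g, i, z) S)).deleteEdges {s(z, σ i z)} := by
      intro v w h
      rw [SimpleGraph.deleteEdges_adj]
      refine ⟨hle h, ?_⟩
      intro he
      rw [Set.mem_singleton_iff] at he
      apply hnS
      rw [← SimpleGraph.mem_edgeSet, ← he, SimpleGraph.mem_edgeSet]
      exact h
    have hnr : ¬ (Gam σ S).Reachable z (σ i z) := by
      have hb := (SimpleGraph.isAcyclic_iff_forall_adj_isBridge.1 hac) hadj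
      rw [SimpleGraph.isBridge_iff] at hb
      exact fun h => hb (h.mono hdel)
    have hn : ¬ (F0 σ D S).Reachable (z, g) (σ i z, g) := by
      rw [i1]; exact hnr
    have hreg := F0_deg2 h hBS
    have a1 := F0_vert_h56 ho1
    have a2 := F0_vert_h56 ho2
    rw [hF]
    unfold swg
    refine ⟨fun x y l l' => ?_, ?_⟩
    · rw [sw_reach _ hreg a1 a2 hn, i1, i1, i1, i1, i1]
      constructor
      · rintro (h | ⟨ha, hb⟩ | ⟨ha, hb⟩)
        · exact h.mono hle
        · exact (ha.mono hle).trans (hadj.reachable.trans (hb.mono hle).symm)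
        · exact (ha.mono hle).trans (hadj.symm.reachable.trans (hb.mono hle).symm)
      · rintro ⟨p⟩
        induction p with
        | nil => exact Or.inl (SimpleGraph.Reachable.refl _)
        | cons h p ih2 =>
          rename_i x y w
          have hxy : (Gam σ S).Adj x y ∨ (x = z ∧ y = σ i z) ∨ (x = σ i z ∧ y = z) := by
            rw [Gam_adj_h56] at h
            obtain ⟨hne, g', i', z', hs', e⟩ := h
            rcases Finset.mem_insert.1 hs' with e' | hs'
            · right
              simp only [Prod.mk.injEq] at e'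
              obtain ⟨rfl, rfl, rfl⟩ := e'
              unfold ed at e
              rw [Sym2.eq_iff] at e
              exact e
            · left
              rw [Gam_adj_h56]
              exact ⟨hne, g', i', z', hs', e⟩
          rcases hxy with hxy | ⟨rfl, rfl⟩ | ⟨rfl, rfl⟩
          · rcases ih2 with ih2 | ⟨j1, j2⟩ | ⟨j1, j2⟩
            · exact Or.inl (hxy.reachable.trans ih2)
            · exact Or.inr (Or.inl ⟨hxy.reachable.trans j1, j2⟩)
            · exact Or.inr (Or.inr ⟨hxy.reachable.trans j1, j2⟩)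
          · rcases ih2 with ih2 | ⟨j1, j2⟩ | ⟨j1, j2⟩
            · exact Or.inr (Or.inl ⟨SimpleGraph.Reachable.refl _, ih2.symm⟩)
            · exact Or.inr (Or.inl ⟨SimpleGraph.Reachable.refl _, j2⟩)
            · exact Or.inl j2.symm
          · rcases ih2 with ih2 | ⟨j1, j2⟩ | ⟨j1, j2⟩
            · exact Or.inr (Or.inr ⟨SimpleGraph.Reachable.refl _, ih2.symm⟩)
            · exact Or.inl j2.symm
            · exact Or.inr (Or.inr ⟨SimpleGraph.Reachable.refl _, j2⟩)
    · have := (sw_merge _ hreg a1 a2 hn).2.2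
      rw [Finset.card_insert_of_notMem hs]
      omega

end Pool.Agent.KZ
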