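import Pool.Agent.Lib_helper15.KZF.DefsA
import Pool.Agent.Lib_helper15.KZF.DefsN
import Pool.Agent.Lib_helper15.KZF.MM1

/-!
# Block MODD (helper29): number of components with odd colours and extra squares
-/

set_option autoImplicit false

namespace Pool.Agent.KZ

open Finset

variable {V C : Type} [Fintype V] [DecidableEq V] [Fintype C] [DecidableEq C]
variable {σ : C → Equiv.Perm V} {D : OddD V C} {A : Finset (Sq V C)}

/-- the vertical edge at `x` in the gap `g` -/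
def modd_e (g : Fin 3) (x : V) : Sym2 (V × Fin 3) := s((x, g), (x, g + 1))

/-- the deleted verticals -/
noncomputable def modd_S (σ : C → Equiv.Perm V) (D : OddD V C) (A A0 : Finset (Sq V C)) :
    Finset (Sym2 (V × Fin 3)) :=
  ((D.O ×ˢ (Finset.univ : Finset (Fin 3))).image
      fun s => modd_e s.2 (tok σ D s.2.castSucc s.1)) ∪
    (((A \ A0).image fun s => modd_e s.1 s.2.2) ∪
      ((A \ A0).image fun s => modd_e s.1 (σ s.2.1 s.2.2)))

theorem modd_card (A0 : Finset (Sq V C)) :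
    (modd_S σ D A A0).card ≤ 3 * D.O.card + 2 * (A \ A0).card := by
  unfold modd_S
  refine (card_union_le _ _).trans ?_
  have h1 : ((D.O ×ˢ (Finset.univ : Finset (Fin 3))).image
      fun s => modd_e s.2 (tok σ D s.2.castSucc s.1)).card ≤ 3 * D.O.card := by
    refine card_image_le.trans ?_
    rw [card_product, card_univ, Fintype.card_fin, mul_comm]
  have h2 : (((A \ A0).image fun s => modd_e s.1 s.2.2) ∪
      ((A \ A0).image fun s => modd_e s.1 (σ s.2.1 s.2.2))).card ≤ 2 * (A \ A0).card := by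
    refine (card_union_le _ _).trans ?_
    rw [two_mul]
    exact add_le_add card_image_le card_image_le
  exact add_le_add h1 h2

theorem modd_occ (A0 : Finset (Sq V C)) {D0 : OddD V C} {g : Fin 3} {x : V}
    (h0 : ¬ occ σ D0 A0 g x) (hS : modd_e g x ∉ modd_S σ D A A0) : ¬ occ σ D A g x := by
  unfold modd_S at hS
  rw [mem_union, mem_union, not_or, not_or] at hS
  obtain ⟨hS1, hS2, hS3⟩ := hS
  rintro (⟨i, z, hA, hx⟩ | ⟨i, hi, hx⟩)
  · by_cases hA0 : (g, i, z) ∈ A0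
    · exact h0 (Or.inl ⟨i, z, hA0, hx⟩)
    · have hm : (g, i, z) ∈ A \ A0 := mem_sdiff.2 ⟨hA, hA0⟩
      rcases hx with rfl | rfl
      · exact hS2 (mem_image.2 ⟨_, hm, rfl⟩)
      · exact hS3 (mem_image.2 ⟨_, hm, rfl⟩)
  · subst hx
    exact hS1 (mem_image.2 ⟨(i, g), mem_product.2 ⟨hi, mem_univ _⟩, rfl⟩)

theorem modd_le (A0 : Finset (Sq V C)) (D0 : OddD V C) (hO : D0.O = ∅) (hA : A0 ⊆ A)
    (hg : ∀ s ∈ A0, ∀ i ∈ D.O, ∀ l g, ¬ bor σ D l g s.2.1 s.2.2 i) :
    (F0 σ D0 A0).deleteEdges (modd_S σ D A A0 : Set (Sym2 (V × Fin 3))) ≤ F0 σ D A := by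
  rintro ⟨x, l⟩ ⟨y, l'⟩ hadj
  rw [SimpleGraph.deleteEdges_adj] at hadj
  obtain ⟨⟨hne, hadj⟩, hS⟩ := hadj
  refine ⟨hne, ?_⟩
  rcases hadj with ⟨h1, h2⟩ | ⟨h1, h2⟩
  · left
    refine ⟨h1, ?_⟩
    simp only at h1 h2 ⊢
    subst h1
    rcases h2 with ⟨h2, h3⟩ | ⟨h2, h3⟩
    · left
      refine ⟨h2, modd_occ A0 h3 ?_⟩
      subst h2
      exact hS
    · right
      refine ⟨h2, modd_occ A0 h3 ?_⟩
      subst h2
      rw [Sym2.eq_swap] at hS
      exact hS
  · right
    refine ⟨h1, ?_⟩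
    simp only at h1 h2 ⊢
    rcases h2 with ⟨g, i, z, hm, hl, he, -⟩ | ⟨i, hi, -⟩ | ⟨-, i, hi, -⟩ | ⟨-, i, hi, -⟩
    · left
      refine ⟨g, i, z, hA hm, hl, he, fun i' hb => ?_⟩
      exact hg _ hm i' hb.1 l g hb
    · rw [hO] at hi
      exact absurd hi (notMem_empty _)
    · rw [hO] at hi
      exact absurd hi (notMem_empty _)
    · rw [hO] at hi
      exact absurd hi (notMem_empty _)

/-- block MODD: from the forest without odd colours to the graph with odd colours and extra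
squares: number of components -/
theorem ncc_odd (h : HD σ) (A0 : Finset (Sq V C)) (D0 : OddD V C) (hO : D0.O = ∅)
    (B0 : Base σ D0 A0) (B : Base σ D A) (hA : A0 ⊆ A)
    (hg : ∀ s ∈ A0, ∀ i ∈ D.O, ∀ l g, ¬ bor σ D l g s.2.1 s.2.2 i) :
    ncc (F0 σ D A) ≤ ncc (F0 σ D0 A0) + 3 * D.O.card + 2 * (A \ A0).card := by
  have h1 := ncc_delete (F0 σ D0 A0) (F0 σ D A) (modd_S σ D A A0) (modd_le A0 D0 hO hA hg)
  have h2 := modd_card (σ := σ) (D := D) (A := A) A0
  omega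

example : @ncc_odd = @ncc_odd := rfl

end Pool.Agent.KZ
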