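import Pool.Agent.Lib_helper15.KZF.ABASE
import Pool.Agent.Lib_helper15.KZF.DACY
import Pool.Agent.Lib_helper15.KZF.DBASE
import Pool.Agent.Lib_helper15.KZF.DCARD
import Pool.Agent.Lib_helper15.KZF.DefsA
import Pool.Agent.Lib_helper15.KZF.DefsN
import Pool.Agent.Lib_helper15.KZF.ED
import Pool.Agent.Lib_helper15.KZF.MM2
import Pool.Agent.Lib_helper15.KZF.MODD

/-!
# Block ANCC: number of components in regime A
-/

set_option autoImplicit false

namespace Pool.Agent.KZ

open Finset

variable {V C : Type} [Fintype V] [DecidableEq V] [Fintype C] [DecidableEq C]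

variable {σ : C → Equiv.Perm V} {O X Y Es Lv : Finset C}
  {z0 z1 u v v' w b : C → V} {ρ : V → ℕ} {ty : C → Fin 3} {lev : V → ℕ} {h : ℕ} {m : C → ℕ}
  {dir : C → Bool} {gl : C → Fin 3} {Ls Lm : Finset (Sq V C)} {Ru : Finset C}
  {bt : C → V} {p q : C → C} {zp zq ze : C → V} {Rg : C → Finset C}

/-- a helper square is not a square of the old set -/
theorem ANCC_help
    (D : DatA σ O X Y Es Lv z0 z1 u v v' w b ρ ty lev h m dir gl Ls Lm Ru bt p q zp zq ze Rg)
    {s : Sq V C} (hs : s ∈ m0set O z0 ∪ Lm) {g : Fin 3} {c : C} {z : V} (hc : c ∈ X)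
    (hA : (g, c, z) ∈ asetA O Y z0 Lm p q zp zq ze) (hg : g ≠ 0)
    (he : ed σ s.2.1 s.2.2 = ed σ c z) : False := by
  obtain ⟨g', i, x⟩ := s
  obtain ⟨h1, h2⟩ := ed_inj D.dat.hd he
  simp only at h1 h2
  subst h1
  subst h2
  rcases mem_union.1 hs with hs | hs
  · have h3 := hs
    rw [m0set, mem_image] at h3
    obtain ⟨j, hj, h4⟩ := h3
    have h5 : g' = 0 := (congrArg Prod.fst h4).symm
    have hA' : (g', i, x) ∈ asetA O Y z0 Lm p q zp zq ze :=
      mem_union_left _ (mem_union_left _ hs)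
    have := (datA_base D).one _ _ _ _ hA hA'
    rw [this] at hg
    exact hg h5
  · exact (D.xO i hc).2 (D.dat.lt.lab _ _ _ hs).1

/-- block ANCC -/
theorem datA_ncc (D : DatA σ O X Y Es Lv z0 z1 u v v' w b ρ ty lev h m dir gl Ls Lm Ru bt p q
    zp zq ze Rg) :
    ncc (F0 σ ⟨O, b, bt⟩ (asetA O Y z0 Lm p q zp zq ze)) + (univ \ O).card + ∑ i ∈ Es, m i ≤
      Fintype.card V + 7 * O.card + 2 * Y.card := by
  have hB0 : Base σ ⟨∅, b, b⟩ (m0set O z0 ∪ Lm) := dat_base D.dat b b
  have hF := (forest_reach D.dat.hd hB0 rfl (dat_acyclic D.dat)).2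
  have hcard := dat_card D.dat
  have hsub : m0set O z0 ∪ Lm ⊆ asetA O Y z0 Lm p q zp zq ze := subset_union_left
  have hbor : ∀ s ∈ m0set O z0 ∪ Lm, ∀ i ∈ (⟨O, b, bt⟩ : OddD V C).O, ∀ l g,
      ¬ bor σ ⟨O, b, bt⟩ l g s.2.1 s.2.2 i := by
    intro s hs i hi l g hb
    obtain ⟨hiO, hb | hb⟩ := hb
    · have hA : ((1 : Fin 3), p i, zp i) ∈ asetA O Y z0 Lm p q zp zq ze := by
        refine mem_union_right _ (mem_union_left _ (mem_union_left _ ?_))
        exact mem_image_of_mem _ hiO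
      exact ANCC_help D hs (D.gad.px i hiO).1 hA (by decide)
        (hb.2.2.trans (D.gad.ep i hiO).symm)
    · have hA : ((2 : Fin 3), q i, zq i) ∈ asetA O Y z0 Lm p q zp zq ze := by
        refine mem_union_right _ (mem_union_left _ (mem_union_right _ ?_))
        exact mem_image_of_mem _ hiO
      exact ANCC_help D hs (D.gad.px i hiO).2 hA (by decide)
        (hb.2.2.trans (D.gad.eq i hiO).symm)
  have hmain := ncc_odd D.dat.hd (m0set O z0 ∪ Lm) ⟨∅, b, b⟩ rfl hB0 (datA_base D) hsub hbor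
  have hdiff : (asetA O Y z0 Lm p q zp zq ze \ (m0set O z0 ∪ Lm)).card ≤
      O.card + O.card + Y.card := by
    have h1 : asetA O Y z0 Lm p q zp zq ze \ (m0set O z0 ∪ Lm) ⊆
        (O.image (fun i => ((1 : Fin 3), p i, zp i)) ∪
          O.image (fun i => ((2 : Fin 3), q i, zq i)) ∪
          Y.image (fun i => ((1 : Fin 3), i, ze i))) := by
      intro s hs
      rw [mem_sdiff] at hs
      rcases mem_union.1 hs.1 with h | h
      · exact absurd h hs.2
      · exact h
    refine (card_le_card h1).trans ?_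
    refine (card_union_le _ _).trans ?_
    refine Nat.add_le_add ((card_union_le _ _).trans (Nat.add_le_add card_image_le card_image_le))
      card_image_le
  simp only at hmain
  omega

end Pool.Agent.KZ
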