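import Pool.Agent.Lib_helper15.KZF.CYC
import Pool.Agent.Lib_helper15.KZF.DefsA
import Pool.Agent.Lib_helper15.KZF.DefsN

/-! block WORD2 -/

set_option autoImplicit false

namespace Pool.Agent.KZ

open Finset

variable {V C : Type} [Fintype V] [DecidableEq V] [Fintype C] [DecidableEq C]
variable {σ : C → Equiv.Perm V} {D : OddD V C} {A : Finset (Sq V C)}

theorem WORD2_psinj (h : HD σ) (z0 : C → V) (i : C) {x y : V}
    (he : ps σ z0 i x = ps σ z0 i y) : x = y := by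
  rw [← (ps_spec h z0 i x).1, ← (ps_spec h z0 i y).1, he]

theorem WORD2_fwd (h : HD σ) (z0 : C → V) (i : C) (x : V) {r : ℕ}
    (hr : ps σ z0 i x + r < Fintype.card V) : ps σ z0 i ((σ i ^ r) x) = ps σ z0 i x + r := by
  apply ps_eq h z0 i _ hr
  have h1 : ps σ z0 i x + r + 1 = r + (ps σ z0 i x + 1) := by ring
  rw [h1, pow_add, Equiv.Perm.mul_apply, (ps_spec h z0 i x).1]

theorem WORD2_bwd (h : HD σ) (z0 : C → V) (i : C) (x : V) {r : ℕ}
    (hr : r + 1 ≤ ps σ z0 i x) :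
    ps σ z0 i (((σ i)⁻¹ ^ (r + 1)) x) = ps σ z0 i x - (r + 1) := by
  have h0 := (ps_spec h z0 i x).2
  apply ps_eq h z0 i _ (by omega)
  have h2 : ps σ z0 i x + 1 = (r + 1) + (ps σ z0 i x - (r + 1) + 1) := by omega
  have h3 := (ps_spec h z0 i x).1
  rw [h2, pow_add, Equiv.Perm.mul_apply] at h3
  conv_rhs => rw [← h3]
  rw [← Equiv.Perm.mul_apply, ← mul_pow_sub_one (by omega : r + 1 ≠ 0)]
  rw [mul_pow_sub_one (by omega : r + 1 ≠ 0), inv_pow, inv_mul_cancel, Equiv.Perm.one_apply]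

theorem WORD2_z0 (h : HD σ) (z0 : C → V) (i : C) (x : V) :
    ((σ i)⁻¹ ^ (ps σ z0 i x + 1)) x = z0 i := by
  conv_lhs => rw [← (ps_spec h z0 i x).1]
  rw [(ps_spec h z0 i x).1]
  have h3 := (ps_spec h z0 i x).1
  rw [inv_pow, Equiv.Perm.inv_eq_iff_eq, h3]

/-- consecutive letters have different labels -/
theorem WORD2_core (i : C) (z0 : C → V) (dir : C → Bool) (gl : C → Fin 3) (m : C → ℕ)
    (hgl : ∀ j, gl j ≠ 0)
    (hall : ∀ r < m i, ∃ z, (lb (gl i) r, i, z) ∈ A ∧ mand σ z0 dir m i z r)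
    (huni : ∀ g g' z z' r, (g, i, z) ∈ A → (g', i, z') ∈ A → mand σ z0 dir m i z r →
      mand σ z0 dir m i z' r → z = z' ∧ g = g')
    (hopt : ∀ g z, g ≠ 0 → (g, i, z) ∈ A → (¬ ∃ r, mand σ z0 dir m i z r) →
      g = lb (gl i) (m i) ∧ optr σ z0 dir i z)
    (hopt1 : ∀ g g' z z', (g, i, z) ∈ A → (g', i, z') ∈ A → optr σ z0 dir i z →
      optr σ z0 dir i z' → z = z')
    {a b : V} {g g' : Fin 3} (ha : (g, i, a) ∈ A) (hb : (g', i, b) ∈ A) (hg : g ≠ 0)
    (hg' : g' ≠ 0) (hab : pd σ z0 dir i a < pd σ z0 dir i b)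
    (hno : ∀ g'' z, (g'', i, z) ∈ A → z ≠ z0 i → pd σ z0 dir i a < pd σ z0 dir i z →
      pd σ z0 dir i z < pd σ z0 dir i b → False) : g ≠ g' := by
  set L := (Fintype.card V - 1) / 2 / m i with hL
  have hmL : m i * L ≤ (Fintype.card V - 1) / 2 := Nat.mul_div_le _ _
  have hne : a ≠ b := by
    rintro rfl
    exact absurd hab (lt_irrefl _)
  -- mandatory letters are before the optional region
  have hmo : ∀ z r, mand σ z0 dir m i z r → pd σ z0 dir i z < (Fintype.card V - 1) / 2 := by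
    intro z r hz
    refine lt_of_lt_of_le hz.2.2.2 (le_trans ?_ hmL)
    exact Nat.mul_le_mul_right _ hz.2.1
  have hlabel : ∀ g z r, (g, i, z) ∈ A → mand σ z0 dir m i z r → g = lb (gl i) r := by
    intro g z r hz hr
    obtain ⟨z', h1, h2⟩ := hall r hr.2.1
    exact (huni _ _ _ _ r hz h1 hr h2).2
  by_cases hma : ∃ r, mand σ z0 dir m i a r
  swap
  · exfalso
    have h1 := (hopt g a hg ha hma).2
    have hmb : ¬ ∃ r, mand σ z0 dir m i b r := by
      rintro ⟨r, hr⟩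
      have := hmo b r hr
      have := h1.2
      omega
    exact hne (hopt1 _ _ _ _ ha hb h1 (hopt g' b hg' hb hmb).2)
  obtain ⟨r, hr⟩ := hma
  have hga := hlabel g a r ha hr
  by_cases hmb : ∃ r, mand σ z0 dir m i b r
  · obtain ⟨r', hr'⟩ := hmb
    have hgb := hlabel g' b r' hb hr'
    have h1 : r * L < (r' + 1) * L := lt_of_le_of_lt hr.2.2.1 (hab.trans hr'.2.2.2)
    have h2 : r < r' + 1 := lt_of_mul_lt_mul_right h1 (Nat.zero_le _)
    have h3 : r ≠ r' := by
      rintro rfl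
      exact hne (huni _ _ _ _ r ha hb hr hr').1
    have h4 : r' = r + 1 := by
      by_contra h4
      have h5 : r + 1 < m i := by have := hr'.2.1; omega
      obtain ⟨z, h6, h7⟩ := hall (r + 1) h5
      refine hno _ z h6 h7.1 (lt_of_lt_of_le hr.2.2.2 h7.2.2.1) (lt_of_lt_of_le h7.2.2.2 ?_)
      refine le_trans ?_ hr'.2.2.1
      exact Nat.mul_le_mul_right _ (by omega)
    rw [hga, hgb, h4]
    exact (lb_ne (hgl i) r).2
  · obtain ⟨hgb, hob⟩ := hopt g' b hg' hb hmb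
    have h4 : m i = r + 1 := by
      by_contra h4
      have h5 : r + 1 < m i := by have := hr.2.1; omega
      obtain ⟨z, h6, h7⟩ := hall (r + 1) h5
      exact hno _ z h6 h7.1 (lt_of_lt_of_le hr.2.2.2 h7.2.2.1)
        (lt_of_lt_of_le (hmo z _ h7) hob.2)
    rw [hga, hgb, h4]
    exact (lb_ne (hgl i) r).2

/-- block WORD2: mandatory letters in intervals, at most one optional letter -/
theorem word_es (h : HD σ) (i : C) (z0 : C → V) (dir : C → Bool) (gl : C → Fin 3) (m : C → ℕ)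
    (hm : 1 ≤ m i) (hN : 20 * m i ≤ Fintype.card V) (hgl : ∀ j, gl j ≠ 0)
    (h0 : ∀ z, ((0 : Fin 3), i, z) ∈ A ↔ z = z0 i)
    (hall : ∀ r < m i, ∃ z, (lb (gl i) r, i, z) ∈ A ∧ mand σ z0 dir m i z r)
    (huni : ∀ g g' z z' r, (g, i, z) ∈ A → (g', i, z') ∈ A → mand σ z0 dir m i z r →
      mand σ z0 dir m i z' r → z = z' ∧ g = g')
    (hopt : ∀ g z, g ≠ 0 → (g, i, z) ∈ A → (¬ ∃ r, mand σ z0 dir m i z r) →
      g = lb (gl i) (m i) ∧ optr σ z0 dir i z)
    (hopt1 : ∀ g g' z z', (g, i, z) ∈ A → (g', i, z') ∈ A → optr σ z0 dir i z →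
      optr σ z0 dir i z' → z = z') : WordOk σ A i := by
  intro x
  have hcard : 20 ≤ Fintype.card V := by omega
  have hz0 : ∀ g, (g, i, z0 i) ∈ A → g = 0 := by
    intro g hg
    by_contra hg0
    exact (hopt g (z0 i) hg0 hg (fun ⟨r, hr⟩ => hr.1 rfl)).2.1 rfl
  have hzz : ∀ g z, (g, i, z) ∈ A → z ≠ z0 i → g ≠ 0 := by
    rintro g z hg hz rfl
    exact hz ((h0 z).mp hg)
  have hPx := (ps_spec h z0 i x).2
  -- forward
  have hf : ∃ s, ∃ g, (g, i, (σ i ^ s) x) ∈ A := by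
    obtain ⟨k, hk⟩ := h.cyc i x (z0 i)
    exact ⟨k, 0, by rw [hk]; exact (h0 _).mpr rfl⟩
  have hb : ∃ t, ∃ g, (g, i, ((σ i)⁻¹ ^ (t + 1)) x) ∈ A :=
    ⟨ps σ z0 i x, 0, by rw [WORD2_z0 h]; exact (h0 _).mpr rfl⟩
  classical
  obtain ⟨g, hg⟩ := Nat.find_spec hf
  obtain ⟨g', hg'⟩ := Nat.find_spec hb
  have hs := fun r (hr : r < Nat.find hf) => Nat.find_min hf hr
  have ht := fun r (hr : r < Nat.find hb) => Nat.find_min hb hr
  set s := Nat.find hf with hsdef
  set t := Nat.find hb with htdef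
  refine ⟨s, t, g, g', ?_, hg, fun r hr g'' hg'' => hs r hr ⟨g'', hg''⟩, hg',
    fun r hr g'' hg'' => ht r hr ⟨g'', hg''⟩⟩
  -- bounds for `s`, `t`
  have hsb : ps σ z0 i x + s ≤ Fintype.card V - 1 := by
    by_contra hcon
    have h1 : Fintype.card V - 1 - ps σ z0 i x < s := by omega
    apply hs _ h1
    refine ⟨0, ?_⟩
    rw [h0]
    apply WORD2_psinj h z0 i
    rw [ps_z0 h, WORD2_fwd h z0 i x (by omega)]
    omega
  have htb : t ≤ ps σ z0 i x := by
    by_contra hcon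
    apply ht (ps σ z0 i x) (by omega)
    exact ⟨0, by rw [WORD2_z0 h]; exact (h0 _).mpr rfl⟩
  have hps : ps σ z0 i ((σ i ^ s) x) = ps σ z0 i x + s := WORD2_fwd h z0 i x (by omega)
  -- no letters in between
  have hno1 : ∀ g'' z, (g'', i, z) ∈ A → ps σ z0 i x ≤ ps σ z0 i z →
      ps σ z0 i z < ps σ z0 i x + s → False := by
    intro g'' z hz h1 h2
    apply hs (ps σ z0 i z - ps σ z0 i x) (by omega)
    refine ⟨g'', ?_⟩
    have : (σ i ^ (ps σ z0 i z - ps σ z0 i x)) x = z := by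
      apply WORD2_psinj h z0 i
      rw [WORD2_fwd h z0 i x (by omega)]
      omega
    rw [this]
    exact hz
  have hno2 : ∀ g'' z, (g'', i, z) ∈ A → ps σ z0 i x - t ≤ ps σ z0 i z →
      ps σ z0 i z < ps σ z0 i x → False := by
    intro g'' z hz h1 h2
    apply ht (ps σ z0 i x - 1 - ps σ z0 i z) (by omega)
    refine ⟨g'', ?_⟩
    have : ((σ i)⁻¹ ^ (ps σ z0 i x - 1 - ps σ z0 i z + 1)) x = z := by
      apply WORD2_psinj h z0 i
      rw [WORD2_bwd h z0 i x (by omega)]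
      omega
    rw [this]
    exact hz
  set y := (σ i ^ s) x with hy
  set y' := ((σ i)⁻¹ ^ (t + 1)) x with hy'
  by_cases hyz : y = z0 i
  · -- forward edge is the `M₀` edge
    rw [hyz] at hg
    have hg0 := hz0 g hg
    rw [hg0]
    intro hcon
    have hy'z : y' = z0 i := (h0 _).mp (hcon ▸ hg')
    -- there is a mandatory letter
    obtain ⟨z, hz1, hz2⟩ := hall 0 (by omega)
    have h1 := ps_lt h z0 i hz2.1
    have h2 : ps σ z0 i x + s = Fintype.card V - 1 := by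
      rw [← hps, hyz, ps_z0 h]
    have h3 : t = ps σ z0 i x := by
      by_contra h3
      have h4 := WORD2_bwd h z0 i x (r := t) (by omega)
      rw [← hy', hy'z, ps_z0 h] at h4
      omega
    rcases lt_or_ge (ps σ z0 i z) (ps σ z0 i x) with h4 | h4
    · exact hno2 _ z hz1 (by omega) h4
    · exact hno1 _ z hz1 h4 (by omega)
  by_cases hyz' : y' = z0 i
  · rw [hyz'] at hg'
    rw [hz0 g' hg']
    exact hzz g y hg hyz
  have htb' : t + 1 ≤ ps σ z0 i x := by
    by_contra hcon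
    have h1 : t = ps σ z0 i x := by omega
    apply hyz'
    rw [hy', h1]
    exact WORD2_z0 h z0 i x
  have hps' := WORD2_bwd h z0 i x htb'
  rw [← hy'] at hps'
  have hno : ∀ g'' z, (g'', i, z) ∈ A → ps σ z0 i y' < ps σ z0 i z →
      ps σ z0 i z < ps σ z0 i y → False := by
    intro g'' z hz h1 h2
    rcases lt_or_ge (ps σ z0 i z) (ps σ z0 i x) with h4 | h4
    · exact hno2 _ z hz (by omega) h4
    · exact hno1 _ z hz h4 (by omega)
  have hlt : ps σ z0 i y' < ps σ z0 i y := by omega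
  have hly := ps_lt h z0 i hyz
  have hly' := ps_lt h z0 i hyz'
  cases hdir : dir i with
  | true =>
    have hpd : ∀ z, pd σ z0 dir i z = ps σ z0 i z := by
      intro z
      unfold pd
      rw [hdir, if_pos rfl]
    refine (WORD2_core i z0 dir gl m hgl hall huni hopt hopt1 hg' hg (hzz _ _ hg' hyz')
      (hzz _ _ hg hyz) ?_ ?_).symm
    · rw [hpd, hpd]
      exact hlt
    · intro g'' z hz _ h1 h2
      rw [hpd, hpd] at h1 h2
      exact hno g'' z hz h1 h2
  | false =>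
    have hpd : ∀ z, pd σ z0 dir i z = Fintype.card V - 2 - ps σ z0 i z := by
      intro z
      unfold pd
      rw [hdir, if_neg (by simp)]
    refine WORD2_core i z0 dir gl m hgl hall huni hopt hopt1 hg hg' (hzz _ _ hg hyz)
      (hzz _ _ hg' hyz') ?_ ?_
    · rw [hpd, hpd]
      omega
    · intro g'' z hz hzne h1 h2
      have h3 := ps_lt h z0 i hzne
      rw [hpd, hpd] at h1 h2
      exact hno g'' z hz (by omega) (by omega)

end Pool.Agent.KZ
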