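import Pool.Agent.Lib_helper15.KZF.CYC
import Pool.Agent.Lib_helper15.KZF.DefsA
import Pool.Agent.Lib_helper15.KZF.DefsN
import Pool.Agent.Lib_helper15.KZF.WORD2

/-!
# Block DWORD: `dat_word` and `dat_opt`
-/

set_option autoImplicit false
set_option linter.unusedSectionVars false

namespace Pool.Agent.KZ

open Finset

variable {V C : Type} [Fintype V] [DecidableEq V] [Fintype C] [DecidableEq C]

theorem DWORD_m0 {O : Finset C} {z0 : C → V} {g : Fin 3} {i : C} {z : V}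
    (h : (g, i, z) ∈ m0set O z0) : g = 0 ∧ i ∉ O ∧ z = z0 i := by
  unfold m0set at h
  rw [mem_image] at h
  obtain ⟨j, hj, he⟩ := h
  rw [mem_sdiff] at hj
  simp only [Prod.mk.injEq] at he
  obtain ⟨h1, h2, h3⟩ := he
  subst h2
  exact ⟨h1.symm, hj.2, h3.symm⟩

theorem DWORD_m0_mem {O : Finset C} {z0 : C → V} {i : C} (h : i ∉ O) :
    ((0 : Fin 3), i, z0 i) ∈ m0set O z0 := by
  unfold m0set
  rw [mem_image]
  exact ⟨i, by simp [h], rfl⟩

theorem DWORD_os {σ : C → Equiv.Perm V} {z0 : C → V} {Es : Finset C} {m : C → ℕ}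
    {dir : C → Bool} {gl : C → Fin 3} {g : Fin 3} {i : C} {z : V}
    (h : (g, i, z) ∈ Oset σ z0 Es m dir gl) :
    i ∈ Es ∧ g = lb (gl i) (m i) ∧ optr σ z0 dir i z := by
  unfold Oset at h
  simpa using h

section Common

variable {σ : C → Equiv.Perm V} {O Es Lv : Finset C} {Uu : Finset V}
  {z0 z1 u v v' w b : C → V} {ρ : V → ℕ} {ty : C → Fin 3} {lev : V → ℕ} {h : ℕ} {m : C → ℕ}
  {dir : C → Bool} {gl : C → Fin 3} {Ls Lm : Finset (Sq V C)} {Ru : Finset C}

theorem DWORD_optr (D : Dat σ O Es Lv Uu z0 z1 u v v' w b ρ ty lev h m dir gl Ls Lm Ru)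
    {g : Fin 3} {i : C} {z : V} (hm : (g, i, z) ∈ m0set O z0 ∪ Lm)
    (ho : optr σ z0 dir i z) : False := by
  rw [mem_union] at hm
  rcases hm with hm | hm
  · exact ho.1 (DWORD_m0 hm).2.2
  · obtain ⟨_, r, h1, _⟩ := D.lt.lab g i z hm
    exact mand_optr h1 ho

theorem dat_word (D : Dat σ O Es Lv Uu z0 z1 u v v' w b ρ ty lev h m dir gl Ls Lm Ru)
    {A Q : Finset (Sq V C)}
    (hA : ∀ g, ∀ i ∈ Es, ∀ z, (g, i, z) ∈ A ↔ (g, i, z) ∈ m0set O z0 ∪ Lm)
    (hQ : Q ⊆ Oset σ z0 Es m dir gl)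
    (hcol : ∀ g j z g' z', (g, j, z) ∈ Q → (g', j, z') ∈ Q → z = z') {i : C} (hi : i ∈ Es) :
    WordOk σ (A ∪ Q) i := by
  refine word_es D.hd i z0 dir gl m (D.m1 i hi).1 (D.m1 i hi).2 D.gl0 ?_ ?_ ?_ ?_ ?_
  · intro z
    constructor
    · intro hz
      rw [mem_union] at hz
      rcases hz with hz | hz
      · rw [hA _ _ hi, mem_union] at hz
        rcases hz with hz | hz
        · exact (DWORD_m0 hz).2.2
        · obtain ⟨_, r, _, h2⟩ := D.lt.lab _ i z hz
          exact absurd h2.symm (lb_ne (D.gl0 i) r).1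
      · exact absurd (DWORD_os (hQ hz)).2.1.symm (lb_ne (D.gl0 i) _).1
    · intro hz
      subst hz
      rw [mem_union]
      left
      rw [hA _ _ hi, mem_union]
      left
      exact DWORD_m0_mem (D.esO i hi)
  · intro r hr
    obtain ⟨z, h1, h2⟩ := D.lt.all i hi r hr
    refine ⟨z, ?_, h2⟩
    rw [mem_union]
    left
    rw [hA _ _ hi, mem_union]
    exact Or.inr h1
  · intro g g' z z' r hz hz' hr hr'
    have key : ∀ (g : Fin 3) (z : V), (g, i, z) ∈ A ∪ Q → mand σ z0 dir m i z r →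
        (g, i, z) ∈ Lm ∧ g = lb (gl i) r := by
      intro g z hz hr
      rw [mem_union] at hz
      rcases hz with hz | hz
      · rw [hA _ _ hi, mem_union] at hz
        rcases hz with hz | hz
        · exact absurd (DWORD_m0 hz).2.2 hr.1
        · refine ⟨hz, ?_⟩
          obtain ⟨_, r', h1, h2⟩ := D.lt.lab _ i z hz
          rw [h2, mand_unique h1 hr]
      · exact (mand_optr hr (DWORD_os (hQ hz)).2.2).elim
    obtain ⟨h1, h2⟩ := key g z hz hr
    obtain ⟨h3, h4⟩ := key g' z' hz' hr'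
    exact ⟨D.lt.uni g g' i z z' r h1 h3 hr hr', by rw [h2, h4]⟩
  · intro g z hg hz hno
    rw [mem_union] at hz
    rcases hz with hz | hz
    · rw [hA _ _ hi, mem_union] at hz
      rcases hz with hz | hz
      · exact absurd (DWORD_m0 hz).1 hg
      · obtain ⟨_, r', h1, h2⟩ := D.lt.lab _ i z hz
        exact absurd ⟨r', h1⟩ hno
    · exact (DWORD_os (hQ hz)).2
  · intro g g' z z' hz hz' ho ho'
    have key : ∀ (g : Fin 3) (z : V), (g, i, z) ∈ A ∪ Q → optr σ z0 dir i z → (g, i, z) ∈ Q := by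
      intro g z hz ho
      rw [mem_union] at hz
      rcases hz with hz | hz
      · rw [hA _ _ hi] at hz
        exact (DWORD_optr D hz ho).elim
      · exact hz
    exact hcol g i z g' z' (key g z hz ho) (key g' z' hz' ho')

/-- block DOPT -/
theorem dat_opt (D : Dat σ O Es Lv Uu z0 z1 u v v' w b ρ ty lev h m dir gl Ls Lm Ru)
    {A : Finset (Sq V C)} (hA : ∀ g, ∀ i ∈ Es, ∀ z, (g, i, z) ∈ A ↔ (g, i, z) ∈ m0set O z0 ∪ Lm)
    {D1 : OddD V C} (hD1 : D1.O = O) (hB : Base σ D1 A) :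
    OptSys σ D1 A (Oset σ z0 Es m dir gl) := by
  refine ⟨hB, ?_, ?_⟩
  · intro g j z hz
    obtain ⟨h1, h2, h3⟩ := DWORD_os hz
    refine ⟨?_, ?_, ?_⟩
    · rw [h2]
      exact (lb_ne (D.gl0 j) _).1
    · rw [hD1]
      exact D.esO j h1
    · intro g' hg'
      rw [hA _ _ h1] at hg'
      exact DWORD_optr D hg' h3
  · intro g g' j z z' hz hz'
    rw [(DWORD_os hz).2.1, (DWORD_os hz').2.1]

end Common

end Pool.Agent.KZ
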