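import Pool.Agent.Lib_helper15.KZF.DefsA
import Pool.Agent.Lib_helper15.KZF.DefsN

/-! Block WORD1 (helper38). -/

set_option autoImplicit false

namespace Pool.Agent.KZ

open Finset

variable {V C : Type} [Fintype V] [DecidableEq V] [Fintype C] [DecidableEq C]
variable {σ : C → Equiv.Perm V} {D : OddD V C} {A : Finset (Sq V C)}

/-- block WORD1: one `M₀` edge and one or two letters with different labels -/
theorem word_two (h : HD σ) (i : C) (z0 : V) (h0 : ∀ z, ((0 : Fin 3), i, z) ∈ A ↔ z = z0)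
    (hne : ∃ g z, g ≠ 0 ∧ (g, i, z) ∈ A)
    (h1 : ∀ g z z', (g, i, z) ∈ A → (g, i, z') ∈ A → z = z')
    (hone : ∀ g g' z, (g, i, z) ∈ A → (g', i, z) ∈ A → g = g') : WordOk σ A i := by
  classical
  intro x
  have hz0 : ((0 : Fin 3), i, z0) ∈ A := (h0 z0).mpr rfl
  have e1 : ∃ k : ℕ, ∃ g, (g, i, (σ i ^ k) x) ∈ A := by
    obtain ⟨k, hk⟩ := h.cyc i x z0
    exact ⟨k, 0, by rw [hk]; exact hz0⟩
  have e2 : ∃ k : ℕ, ∃ g, (g, i, ((σ i)⁻¹ ^ (k + 1)) x) ∈ A := by
    obtain ⟨k, hk⟩ := h.cyc i z0 ((σ i)⁻¹ x)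
    refine ⟨k, 0, ?_⟩
    have h2 : ((σ i)⁻¹ ^ (k + 1)) x = z0 := by
      rw [pow_succ, Equiv.Perm.mul_apply, ← hk, ← Equiv.Perm.mul_apply, inv_pow,
        inv_mul_cancel, Equiv.Perm.one_apply]
    rw [h2]
    exact hz0
  set s := Nat.find e1 with hs
  set t := Nat.find e2 with ht
  obtain ⟨g, hg⟩ := Nat.find_spec e1
  obtain ⟨g', hg'⟩ := Nat.find_spec e2
  rw [← hs] at hg
  rw [← ht] at hg'
  have m1 : ∀ r < s, ∀ g'', (g'', i, (σ i ^ r) x) ∉ A := fun r hr g'' hm =>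
    Nat.find_min e1 hr ⟨g'', hm⟩
  have m2 : ∀ r < t, ∀ g'', (g'', i, ((σ i)⁻¹ ^ (r + 1)) x) ∉ A := fun r hr g'' hm =>
    Nat.find_min e2 hr ⟨g'', hm⟩
  refine ⟨s, t, g, g', ?_, hg, m1, hg', m2⟩
  intro hgg
  subst hgg
  have hy : (σ i ^ s) x = ((σ i)⁻¹ ^ (t + 1)) x := h1 g _ _ hg hg'
  have hyx : (σ i ^ (t + 1)) ((σ i ^ s) x) = x := by
    rw [hy, ← Equiv.Perm.mul_apply, inv_pow, mul_inv_cancel, Equiv.Perm.one_apply]
  have hper : (σ i ^ (s + (t + 1))) ((σ i ^ s) x) = (σ i ^ s) x := by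
    rw [pow_add, Equiv.Perm.mul_apply, hyx]
  have key : ∀ w, (∃ g'', (g'', i, w) ∈ A) → w = (σ i ^ s) x := by
    intro w hw
    obtain ⟨g'', hw⟩ := hw
    obtain ⟨k, hk⟩ := h.cyc i ((σ i ^ s) x) w
    set n := s + (t + 1) with hn
    have hk' : (σ i ^ (k % n)) ((σ i ^ s) x) = w := by
      have h3 : ∀ q : ℕ, (σ i ^ (n * q)) ((σ i ^ s) x) = (σ i ^ s) x := by
        intro q
        induction q with
        | zero => simp
        | succ q ih => rw [Nat.mul_succ, pow_add, Equiv.Perm.mul_apply, hper, ih]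
      rw [← hk]
      conv_rhs => rw [← Nat.mod_add_div k n, pow_add, Equiv.Perm.mul_apply, h3]
    have hlt : k % n < n := Nat.mod_lt k (by omega)
    rcases Nat.eq_zero_or_pos (k % n) with h4 | h4
    · rw [h4] at hk'
      exact hk'.symm
    · exfalso
      by_cases h5 : k % n ≤ t
      · -- backward
        apply m2 (t - k % n) (by omega) g''
        have h6 : ((σ i)⁻¹ ^ (t - k % n + 1)) x = w := by
          rw [← hk', hy]
          have h7 : t + 1 = (k % n) + (t - k % n + 1) := by omega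
          have h8 : (σ i ^ (k % n)) (((σ i)⁻¹ ^ (k % n)) (((σ i)⁻¹ ^ (t - k % n + 1)) x)) =
              ((σ i)⁻¹ ^ (t - k % n + 1)) x := by
            rw [← Equiv.Perm.mul_apply (σ i ^ (k % n)), inv_pow (σ i) (k % n), mul_inv_cancel,
              Equiv.Perm.one_apply]
          conv_rhs => rw [h7, pow_add (σ i)⁻¹, Equiv.Perm.mul_apply, h8]
        rw [h6]
        exact hw
      · apply m1 (k % n - (t + 1)) (by omega) g''
        have h6 : (σ i ^ (k % n - (t + 1))) x = w := by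
          rw [← hk']
          have h7 : k % n = (k % n - (t + 1)) + (t + 1) := by omega
          conv_rhs => rw [h7, pow_add, Equiv.Perm.mul_apply, hyx]
        rw [h6]
        exact hw
  obtain ⟨g₁, z, hg1, hz⟩ := hne
  have h2 : z = z0 := (key z ⟨g₁, hz⟩).trans (key z0 ⟨0, hz0⟩).symm
  rw [h2] at hz
  exact hg1 (hone g₁ 0 z0 hz hz0)

end Pool.Agent.KZ
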