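import Pool.Agent.Lib_helper15.KZF.ABASE
import Pool.Agent.Lib_helper15.KZF.CYC
import Pool.Agent.Lib_helper15.KZF.DBASE
import Pool.Agent.Lib_helper15.KZF.DWORD
import Pool.Agent.Lib_helper15.KZF.DefsA
import Pool.Agent.Lib_helper15.KZF.DefsN
import Pool.Agent.Lib_helper15.KZF.ED
import Pool.Agent.Lib_helper15.KZF.WORD1

set_option autoImplicit false

namespace Pool.Agent.KZ

open Finset

variable {V C : Type} [Fintype V] [DecidableEq V] [Fintype C] [DecidableEq C]

section A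

variable {σ : C → Equiv.Perm V} {O X Y Es Lv : Finset C}
  {z0 z1 u v v' w b : C → V} {ρ : V → ℕ} {ty : C → Fin 3} {lev : V → ℕ} {h : ℕ} {m : C → ℕ}
  {dir : C → Bool} {gl : C → Fin 3} {Ls Lm : Finset (Sq V C)} {Ru : Finset C}
  {bt : C → V} {p q : C → C} {zp zq ze : C → V} {Rg : C → Finset C}

/-- the squares of regime A -/
theorem aplan_mem {g : Fin 3} {i : C} {z : V} :
    (g, i, z) ∈ asetA O Y z0 Lm p q zp zq ze ↔
      ((g = 0 ∧ i ∉ O ∧ z = z0 i) ∨ (g, i, z) ∈ Lm) ∨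
      (((∃ j ∈ O, g = 1 ∧ i = p j ∧ z = zp j) ∨ (∃ j ∈ O, g = 2 ∧ i = q j ∧ z = zq j)) ∨
        (g = 1 ∧ i ∈ Y ∧ z = ze i)) := by
  unfold asetA
  rw [mem_union, mem_union, mem_union, mem_union, dbase_m0]
  simp only [mem_image, Prod.mk.injEq]
  constructor
  · rintro ((h1 | h1) | ((⟨j, hj, h1, h2, h3⟩ | ⟨j, hj, h1, h2, h3⟩) | ⟨j, hj, h1, h2, h3⟩))
    · exact Or.inl (Or.inl h1)
    · exact Or.inl (Or.inr h1)
    · exact Or.inr (Or.inl (Or.inl ⟨j, hj, h1.symm, h2.symm, h3.symm⟩))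
    · exact Or.inr (Or.inl (Or.inr ⟨j, hj, h1.symm, h2.symm, h3.symm⟩))
    · subst h2
      exact Or.inr (Or.inr ⟨h1.symm, hj, h3.symm⟩)
  · rintro ((h1 | h1) | ((⟨j, hj, h1, h2, h3⟩ | ⟨j, hj, h1, h2, h3⟩) | ⟨h1, h2, h3⟩))
    · exact Or.inl (Or.inl h1)
    · exact Or.inl (Or.inr h1)
    · exact Or.inr (Or.inl (Or.inl ⟨j, hj, h1.symm, h2.symm, h3.symm⟩))
    · exact Or.inr (Or.inl (Or.inr ⟨j, hj, h1.symm, h2.symm, h3.symm⟩))
    · exact Or.inr (Or.inr ⟨i, h2, h1.symm, rfl, h3.symm⟩)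

theorem aplan_oset {m : C → ℕ} {g : Fin 3} {i : C} {z : V}
    (hz : (g, i, z) ∈ Oset σ z0 Es m dir gl) :
    i ∈ Es ∧ g = lb (gl i) (m i) ∧ optr σ z0 dir i z := by
  unfold Oset at hz
  exact ((@Finset.mem_filter _ _ (fun _ => Classical.propDecidable _) _ _).mp hz).2

theorem datA_plan (D : DatA σ O X Y Es Lv z0 z1 u v v' w b ρ ty lev h m dir gl Ls Lm Ru bt p q
    zp zq ze Rg) {Q : Finset (Sq V C)}
    (hQ : Adm σ ⟨O, b, bt⟩ (asetA O Y z0 Lm p q zp zq ze) (Oset σ z0 Es m dir gl) Q)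
    (hc : (F0 σ ⟨O, b, bt⟩ (asetA O Y z0 Lm p q zp zq ze ∪ Q)).Connected) :
    Plan σ ⟨O, b, bt⟩ (asetA O Y z0 Lm p q zp zq ze ∪ Q) u v v' w ρ := by
  have hQ0 : ∀ {g : Fin 3} {i : C} {z : V}, (g, i, z) ∈ Q → i ∈ Es ∧ g ≠ 0 := by
    intro g i z hz
    obtain ⟨h1, h2, -⟩ := aplan_oset (hQ.sub hz)
    refine ⟨h1, ?_⟩
    rw [h2]
    exact (lb_ne (D.dat.gl0 i) _).1
  have h00 : ∀ i, i ∉ O → ∀ z, ((0 : Fin 3), i, z) ∈ asetA O Y z0 Lm p q zp zq ze ∪ Q ↔
      z = z0 i := by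
    intro i hi z
    rw [mem_union, aplan_mem]
    constructor
    · rintro (((h1 | h1) | ((⟨j, hj, h1, -⟩ | ⟨j, hj, h1, -⟩) | ⟨h1, -⟩)) | h1)
      · exact h1.2.2
      · exact absurd rfl (dbase_ne0 D.dat h1).1
      · exact absurd h1 (by decide)
      · exact absurd h1 (by decide)
      · exact absurd h1 (by decide)
      · exact absurd rfl (hQ0 h1).2
    · intro hz
      exact Or.inl (Or.inl (Or.inl ⟨rfl, hi, hz⟩))
  refine
    { base := hQ.base
      m0 := ?_
      m0' := ?_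
      word := ?_
      sep' := D.dat.out.dis1
      tok' := D.dat.out.c1
      vv := D.dat.out.vv
      vv' := D.dat.out.vv'
      rho0 := D.dat.out.rho0
      rho1 := D.dat.out.rho1
      rho2 := D.dat.out.rho2
      conn := hc }
  · intro i hi
    exact ⟨z0 i, (h00 i hi _).mpr rfl, D.dat.out.e0 i hi, fun z' hz' => (h00 i hi z').mp hz'⟩
  · intro i hi
    refine ⟨z1 i, D.dat.out.e1 i hi, ?_⟩
    intro he
    rw [← D.dat.out.e1 i hi, ← D.dat.out.e0 i hi] at he
    exact D.dat.out.ne i hi (ed_inj D.dat.hd he).2.symm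
  · intro i hi
    by_cases hE : i ∈ Es
    · exact dat_word D.dat (datA_es D) hQ.sub hQ.col hE
    · have hX : i ∈ X := by
        by_contra hX
        exact hE (D.part i hi hX)
      have hLm : ∀ {g : Fin 3} {z : V}, (g, i, z) ∉ Lm := by
        intro g z hz
        exact hE (D.dat.lt.lab g i z hz).1
      have hQi : ∀ {g : Fin 3} {z : V}, (g, i, z) ∉ Q := fun hz => hE (hQ0 hz).1
      refine word_two D.dat.hd i (z0 i) (h00 i hi) ?_ ?_ ?_
      · by_cases hp : ∃ j ∈ O, i = p j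
        · obtain ⟨j, hj, hp⟩ := hp
          refine ⟨1, zp j, by decide, ?_⟩
          rw [mem_union, aplan_mem]
          exact Or.inl (Or.inr (Or.inl (Or.inl ⟨j, hj, rfl, hp, rfl⟩)))
        · by_cases hq : ∃ j ∈ O, i = q j
          · obtain ⟨j, hj, hq⟩ := hq
            refine ⟨2, zq j, by decide, ?_⟩
            rw [mem_union, aplan_mem]
            exact Or.inl (Or.inr (Or.inl (Or.inr ⟨j, hj, rfl, hq, rfl⟩)))
          · refine ⟨1, ze i, by decide, ?_⟩
            rw [mem_union, aplan_mem]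
            refine Or.inl (Or.inr (Or.inr ⟨rfl, ?_, rfl⟩))
            rw [D.yy]
            exact ⟨hX, fun j hj => ⟨fun h1 => hp ⟨j, hj, h1⟩, fun h1 => hq ⟨j, hj, h1⟩⟩⟩
      · intro g z z' hz hz'
        rw [mem_union, aplan_mem] at hz hz'
        rcases hz with ((h1 | h1) | ((⟨j, hj, h1, h2, h3⟩ | ⟨j, hj, h1, h2, h3⟩) | ⟨h1, h2, h3⟩)) | h1
        · rcases hz' with ((k1 | k1) | ((⟨l, hl, k1, k2, k3⟩ | ⟨l, hl, k1, k2, k3⟩) | ⟨k1, k2, k3⟩)) | k1
          · rw [h1.2.2, k1.2.2]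
          · exact absurd k1 hLm
          · rw [h1.1] at k1; exact absurd k1 (by decide)
          · rw [h1.1] at k1; exact absurd k1 (by decide)
          · rw [h1.1] at k1; exact absurd k1 (by decide)
          · exact absurd k1 hQi
        · exact absurd h1 hLm
        · rcases hz' with ((k1 | k1) | ((⟨l, hl, k1, k2, k3⟩ | ⟨l, hl, k1, k2, k3⟩) | ⟨k1, k2, k3⟩)) | k1
          · rw [h1] at k1; exact absurd k1.1 (by decide)
          · exact absurd k1 hLm
          · by_cases hjl : j = l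
            · rw [h3, k3, hjl]
            · exact absurd (h2.symm.trans k2) (D.gad.col j hj l hl hjl).1
          · rw [h1] at k1; exact absurd k1 (by decide)
          · exact absurd h2 (((D.yy i).mp k2).2 j hj).1
          · exact absurd k1 hQi
        · rcases hz' with ((k1 | k1) | ((⟨l, hl, k1, k2, k3⟩ | ⟨l, hl, k1, k2, k3⟩) | ⟨k1, k2, k3⟩)) | k1
          · rw [h1] at k1; exact absurd k1.1 (by decide)
          · exact absurd k1 hLm
          · rw [h1] at k1; exact absurd k1 (by decide)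
          · by_cases hjl : j = l
            · rw [h3, k3, hjl]
            · exact absurd (h2.symm.trans k2) (D.gad.col j hj l hl hjl).2.2.2
          · rw [h1] at k1; exact absurd k1 (by decide)
          · exact absurd k1 hQi
        · rcases hz' with ((k1 | k1) | ((⟨l, hl, k1, k2, k3⟩ | ⟨l, hl, k1, k2, k3⟩) | ⟨k1, k2, k3⟩)) | k1
          · rw [h1] at k1; exact absurd k1.1 (by decide)
          · exact absurd k1 hLm
          · exact absurd k2 (((D.yy i).mp h2).2 l hl).1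
          · rw [h1] at k1; exact absurd k1 (by decide)
          · rw [h3, k3]
          · exact absurd k1 hQi
        · exact absurd h1 hQi
      · intro g g' z hz hz'
        exact hQ.base.one g g' i z hz hz'

end A

end Pool.Agent.KZ
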