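import Pool.Agent.Lib_helper15.KZF.DefsA
import Pool.Agent.Lib_helper15.KZF.DefsN

/-! block FREE -/

set_option autoImplicit false

namespace Pool.Agent.KZ

open Finset

variable {V C : Type} [Fintype V] [DecidableEq V] [Fintype C] [DecidableEq C]
variable {σ : C → Equiv.Perm V} {D : OddD V C} {A : Finset (Sq V C)}

theorem FREE_hor {l : Fin 3} {x y : V} (h : hor σ D A l x y) :
    (F0 σ D A).Reachable (x, l) (y, l) := by
  by_cases hxy : x = y
  · subst hxy
    exact SimpleGraph.Reachable.refl _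
  · exact SimpleGraph.Adj.reachable ⟨fun h => hxy (congrArg Prod.fst h), Or.inr ⟨rfl, h⟩⟩

theorem FREE_sq {g l : Fin 3} {i : C} {z x y : V} (hA : (g, i, z) ∈ A) (hl : l = g ∨ l = g + 1)
    (he : s(x, y) = ed σ i z) (hb : ∀ i', ¬ bor σ D l g i z i') :
    (F0 σ D A).Reachable (x, l) (y, l) :=
  FREE_hor (Or.inl ⟨g, i, z, hA, hl, he, hb⟩)

theorem FREE_c {l : Fin 3} {i : C} (hi : i ∈ D.O) :
    (F0 σ D A).Reachable (σ i (D.b i), l) (D.b i, l) :=
  FREE_hor (Or.inr (Or.inl ⟨i, hi, by rw [Sym2.eq_swap]; rfl⟩))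

theorem FREE_sym {a b c d : V} (h : s(a, b) = s(c, d)) {x : V} (hx : x = c ∨ x = d) :
    x ∈ ({a, b} : Finset V) := by
  rw [Sym2.eq_iff] at h
  rw [Finset.mem_insert, Finset.mem_singleton]
  rcases h with ⟨rfl, rfl⟩ | ⟨rfl, rfl⟩ <;> tauto

section
variable {Lv : Finset C} {u v z0 : C → V} {ty : C → Fin 3} {lev : V → ℕ} {h : ℕ}

theorem FREE_not (F : FreeHyp σ D A Lv u v z0 ty lev h) {i : C} (hi : i ∈ Lv) : i ∉ D.O :=
  (Finset.mem_sdiff.mp (F.lv hi)).2

theorem FREE_pair (F : FreeHyp σ D A Lv u v z0 ty lev h) {i j : C} (hi : i ∈ Lv) (hj : j ∈ Lv)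
    {x : V} (hx : x = u i ∨ x = v i) (hx' : x = u j ∨ x = v j) : i = j := by
  by_contra hij
  obtain ⟨h1, h2⟩ := F.m0 i (FREE_not F hi)
  obtain ⟨h3, h4⟩ := F.m0 j (FREE_not F hj)
  have h5 := F.base.sep 0 i (z0 i) j (z0 j) h1 h3 (fun h => hij (congrArg Prod.fst h))
  exact Finset.disjoint_left.mp h5 (FREE_sym h2 hx) (FREE_sym h4 hx')

/-- the `M₀` edge in the layers `0` and `1` -/
theorem FREE_m0 (F : FreeHyp σ D A Lv u v z0 ty lev h) {i : C} (hi : i ∈ Lv) {l : Fin 3}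
    (hl : l = 0 ∨ l = 1) : (F0 σ D A).Reachable (u i, l) (v i, l) := by
  obtain ⟨h1, h2⟩ := F.m0 i (FREE_not F hi)
  refine FREE_sq h1 ?_ h2.symm ?_
  · rcases hl with h | h
    · exact Or.inl h
    · exact Or.inr h
  · rintro i' ⟨_, ⟨_, h, _⟩ | ⟨_, h, _⟩⟩
    · exact absurd h (by decide)
    · exact absurd h (by decide)

/-- the mate of a reserve vertex -/
theorem FREE_rese (F : FreeHyp σ D A Lv u v z0 ty lev h) {x : V} (hx : rese Lv u v ty x)
    {l g : Fin 3} (hl : l = 0 ∨ l = 1) (hg : g ≠ 0) (ho : occ σ D A g x) :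
    ∃ y, ¬ occ σ D A g y ∧ (F0 σ D A).Reachable (x, l) (y, l) := by
  obtain ⟨j, hj, ht, hx | hx⟩ := hx
  · subst hx
    exact ⟨v j, fun h => F.res j hj ht g hg ⟨ho, h⟩, FREE_m0 F hj hl⟩
  · subst hx
    exact ⟨u j, fun h => F.res j hj ht g hg ⟨h, ho⟩, (FREE_m0 F hj hl).symm⟩

/-- the mate of a spine vertex -/
theorem FREE_mate (F : FreeHyp σ D A Lv u v z0 ty lev h) {x : V} (hx : spin Lv ∅ u v ty x)
    {l : Fin 3} (hl : l = 0 ∨ l = 1) :
    ∃ y, leaf Lv u v ty y ∧ (lev x % 2 = 0 → ¬ oleaf Lv u v ty lev y) ∧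
      (F0 σ D A).Reachable (x, l) (y, l) := by
  rcases hx with ⟨i, hi, ⟨ht, hx⟩ | ⟨ht, hx⟩⟩ | hx
  · subst hx
    refine ⟨u i, ⟨i, hi, Or.inl ⟨ht, rfl⟩⟩, ?_, (FREE_m0 F hi hl).symm⟩
    rintro hl ⟨j, hj, ⟨h1, h2, h3⟩ | ⟨h1, h2, h3⟩⟩
    · have := FREE_pair F hi hj (Or.inl rfl) (Or.inl h2)
      subst this
      omega
    · have := FREE_pair F hi hj (Or.inl rfl) (Or.inr h2)
      subst this
      rw [ht] at h1
      exact absurd h1 (by decide)
  · subst hx
    refine ⟨v i, ⟨i, hi, Or.inr ⟨ht, rfl⟩⟩, ?_, FREE_m0 F hi hl⟩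
    rintro hl ⟨j, hj, ⟨h1, h2, h3⟩ | ⟨h1, h2, h3⟩⟩
    · have := FREE_pair F hi hj (Or.inr rfl) (Or.inl h2)
      subst this
      rw [ht] at h1
      exact absurd h1 (by decide)
    · have := FREE_pair F hi hj (Or.inr rfl) (Or.inr h2)
      subst this
      omega
  · exact absurd hx (Finset.notMem_empty _)

/-- the mate of a leaf with mate of odd level -/
theorem FREE_omate (F : FreeHyp σ D A Lv u v z0 ty lev h) {x : V}
    (hx : oleaf Lv u v ty lev x) {l : Fin 3} (hl : l = 0 ∨ l = 1) :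
    ∃ y, spin Lv ∅ u v ty y ∧ lev y % 2 = 1 ∧ (F0 σ D A).Reachable (x, l) (y, l) := by
  obtain ⟨i, hi, ⟨h1, h2, h3⟩ | ⟨h1, h2, h3⟩⟩ := hx
  · subst h2
    exact ⟨v i, Or.inl ⟨i, hi, Or.inl ⟨h1, rfl⟩⟩, h3, FREE_m0 F hi hl⟩
  · subst h2
    exact ⟨u i, Or.inl ⟨i, hi, Or.inr ⟨h1, rfl⟩⟩, h3, (FREE_m0 F hi hl).symm⟩

/-- a spine vertex occupied in the gap `g ≠ 0` is the end of a spine square -/
theorem FREE_spine (F : FreeHyp σ D A Lv u v z0 ty lev h) {x : V} (hx : spin Lv ∅ u v ty x)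
    {g : Fin 3} (hg : g ≠ 0) (ho : occ σ D A g x) :
    ∃ i z y, (g, i, z) ∈ A ∧ s(x, y) = ed σ i z ∧ spin Lv ∅ u v ty y ∧
      (alw Lv ∅ u v ty lev g x y ∨ alw Lv ∅ u v ty lev g y x) := by
  rcases ho with ⟨i, z, hA, hz⟩ | ⟨i, hi, hz⟩
  · have hs : spin Lv ∅ u v ty z ∨ spin Lv ∅ u v ty (σ i z) := by
      rcases hz with h | h
      · exact Or.inl (h ▸ hx)
      · exact Or.inr (h ▸ hx)
    have h1 := F.sp g i z hg hA hs
    have h2 : spin Lv ∅ u v ty z ∧ spin Lv ∅ u v ty (σ i z) := by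
      rcases h1 with h | h
      · exact ⟨h.1, h.2.1⟩
      · exact ⟨h.2.1, h.1⟩
    rcases hz with rfl | rfl
    · exact ⟨i, x, σ i x, hA, rfl, h2.2, h1⟩
    · exact ⟨i, z, z, hA, Sym2.eq_swap, h2.1, h1.symm⟩
  · exact absurd (hz ▸ hx) (F.spt i hi _)

/-- the target of the walk -/
def FREEt (σ : C → Equiv.Perm V) (D : OddD V C) (A : Finset (Sq V C)) (p : V × Fin 3) : Prop :=
  ∃ y g, g ≠ 0 ∧ ¬ occ σ D A g y ∧ (F0 σ D A).Reachable p (y, g)

theorem FREE_tr {p q : V × Fin 3} (h : (F0 σ D A).Reachable p q) (hq : FREEt σ D A q) :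
    FREEt σ D A p := by
  obtain ⟨y, g, h1, h2, h3⟩ := hq
  exact ⟨y, g, h1, h2, h.trans h3⟩

theorem FREE_here {x : V} {g l : Fin 3} (hg : g ≠ 0) (hl : l = g ∨ l = g + 1)
    (ho : ¬ occ σ D A g x) : FREEt σ D A (x, l) := by
  refine ⟨x, g, hg, ho, ?_⟩
  rcases hl with rfl | rfl
  · exact SimpleGraph.Reachable.refl _
  · refine SimpleGraph.Adj.reachable ⟨fun h => ?_, Or.inl ⟨rfl, Or.inr ⟨rfl, ho⟩⟩⟩
    have h1 : g + 1 = g := congrArg Prod.snd h
    revert h1
    clear h ho hg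
    revert g
    decide

theorem FREE_lam (j : ℕ) : lamb j ≠ lamb (j + 1) := by
  unfold lamb
  have : j % 2 = 0 ∨ j % 2 = 1 := by omega
  rcases this with h | h
  · rw [if_pos h, if_neg (by omega)]
    decide
  · rw [if_neg (by omega), if_pos (by omega)]
    decide

theorem FREE_lam0 (j : ℕ) : lamb j ≠ 0 := by
  unfold lamb
  split_ifs <;> decide

/-- one step in layer 2 -/
theorem FREE_step (F : FreeHyp σ D A Lv u v z0 ty lev h) (x : V) :
    FREEt σ D A (x, 2) ∨ ∃ y, lev y = lev x + 1 ∧ (F0 σ D A).Reachable (x, 2) (y, 2) := by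
  by_cases h2 : occ σ D A 2 x
  swap
  · exact Or.inl (FREE_here (by decide) (Or.inl rfl) h2)
  by_cases h1 : occ σ D A 1 x
  swap
  · exact Or.inl (FREE_here (g := 1) (by decide) (Or.inr rfl) h1)
  rcases F.oth x 1 (by decide) h1 with hx | hx | hx | ⟨i, hi, hx | hx⟩
  · -- spine
    right
    set g := lamb (lev x + 1) with hg
    have hg0 : g ≠ 0 := FREE_lam0 _
    have hgg : g = 1 ∨ g = 2 := by
      clear_value g
      clear hg
      revert hg0 
      revert g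
      decide
    have ho : occ σ D A g x := by
      rcases hgg with h | h
      · rw [h]; exact h1
      · rw [h]; exact h2
    obtain ⟨i, z, y, hA, he, hy, hal⟩ := FREE_spine F hx hg0 ho
    rcases hal with hal | hal
    · refine ⟨y, hal.2.2.1, FREE_sq hA ?_ he ?_⟩
      · rcases hgg with h | h
        · right; rw [h]; decide
        · left; rw [h]
      · rintro i' ⟨hi', ⟨_, _, h⟩ | ⟨h, _, _⟩⟩
        · rw [← he, Sym2.eq_iff] at h
          have h3 := F.spt i' hi' 0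
          have h4 : tok σ D 0 i' = D.b i' := by simp [tok]
          rw [h4] at h3
          rcases h with ⟨h, _⟩ | ⟨_, h⟩
          · exact h3 (h ▸ hx)
          · exact h3 (h ▸ hy)
        · exact absurd h (by decide)
    · exfalso
      have h3 := hal.2.2.2
      exact FREE_lam (lev x) (h3.trans hg)
  · exfalso
    by_cases ho : oleaf Lv u v ty lev x
    · exact F.odd x ho h2
    · exact (F.even x hx ho).1 h1
  · exact absurd ⟨h1, h2⟩ (F.res' x hx)
  · subst hx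
    exact absurd h2 (F.b2 i hi)
  · subst hx
    exact Or.inl (FREE_tr (FREE_c hi) (FREE_here (by decide) (Or.inl rfl) (F.b2 i hi)))

/-- layer 2 -/
theorem FREE_two (F : FreeHyp σ D A Lv u v z0 ty lev h) (n : ℕ) : ∀ x : V, h ≤ n + lev x →
    FREEt σ D A (x, 2) := by
  induction n with
  | zero =>
    intro x hxn
    rcases FREE_step F x with h1 | ⟨y, h1, h2⟩
    · exact h1
    · have := F.lev1 y
      omega
  | succ n ih =>
    intro x hxn
    rcases FREE_step F x with h1 | ⟨y, h1, h2⟩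
    · exact h1
    · exact FREE_tr h2 (ih y (by omega))

/-- layer 1, reserve -/
theorem FREE_one_rese (F : FreeHyp σ D A Lv u v z0 ty lev h) {x : V} (hx : rese Lv u v ty x) :
    FREEt σ D A (x, 1) := by
  by_cases h1 : occ σ D A 1 x
  swap
  · exact FREE_here (by decide) (Or.inl rfl) h1
  obtain ⟨y, h2, h3⟩ := FREE_rese F hx (l := 1) (Or.inr rfl) (by decide) h1
  exact FREE_tr h3 (FREE_here (by decide) (Or.inl rfl) h2)

/-- layer 1, spine of even level -/
theorem FREE_one_even (F : FreeHyp σ D A Lv u v z0 ty lev h) {x : V} (hx : spin Lv ∅ u v ty x)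
    (he : lev x % 2 = 0) : FREEt σ D A (x, 1) := by
  obtain ⟨y, h1, h2, h3⟩ := FREE_mate F hx (l := 1) (Or.inr rfl)
  exact FREE_tr h3 (FREE_here (by decide) (Or.inl rfl) (F.even y h1 (h2 he)).1)

/-- layer 1, spine of odd level -/
theorem FREE_one_odd (F : FreeHyp σ D A Lv u v z0 ty lev h) {x : V} (hx : spin Lv ∅ u v ty x)
    (he : lev x % 2 = 1) : FREEt σ D A (x, 1) := by
  by_cases h1 : occ σ D A 1 x
  swap
  · exact FREE_here (by decide) (Or.inl rfl) h1
  obtain ⟨i, z, y, hA, hs, hy, hal⟩ := FREE_spine F hx (by decide) h1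
  have hl : ∀ j, lamb j = 1 → j % 2 = 0 := by
    intro j hj
    unfold lamb at hj
    by_contra h
    rw [if_neg h] at hj
    exact absurd hj (by decide)
  rcases hal with hal | hal
  · refine FREE_tr (FREE_sq hA (Or.inl rfl) hs ?_) (FREE_one_even F hy (hl _ hal.2.2.2))
    rintro i' ⟨_, ⟨h, _, _⟩ | ⟨h, _, _⟩⟩
    · exact absurd h (by decide)
    · exact absurd h (by decide)
  · have := hl _ hal.2.2.2
    omega

/-- layer 1 -/
theorem FREE_one_b (F : FreeHyp σ D A Lv u v z0 ty lev h) {i : C} (hi : i ∈ D.O) :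
    FREEt σ D A (D.b i, 1) := by
  obtain ⟨p, z, hA, he⟩ := F.base.helpb i hi
  refine FREE_tr (FREE_sq hA (Or.inl rfl) he.symm ?_) (FREE_one_rese F (F.hres i hi).1)
  rintro i' ⟨_, ⟨h, _, _⟩ | ⟨h, _, _⟩⟩
  · exact absurd h (by decide)
  · exact absurd h (by decide)

theorem FREE_one (F : FreeHyp σ D A Lv u v z0 ty lev h) (x : V) : FREEt σ D A (x, 1) := by
  by_cases h1 : occ σ D A 1 x
  swap
  · exact FREE_here (by decide) (Or.inl rfl) h1
  rcases F.oth x 1 (by decide) h1 with hx | hx | hx | ⟨i, hi, hx | hx⟩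
  · rcases Nat.mod_two_eq_zero_or_one (lev x) with h | h
    · exact FREE_one_even F hx h
    · exact FREE_one_odd F hx h
  · by_cases ho : oleaf Lv u v ty lev x
    · obtain ⟨y, h2, h3, h4⟩ := FREE_omate F ho (l := 1) (Or.inr rfl)
      exact FREE_tr h4 (FREE_one_odd F h2 h3)
    · exact absurd h1 (F.even x hx ho).1
  · exact FREE_one_rese F hx
  · subst hx
    exact FREE_one_b F hi
  · subst hx
    exact FREE_tr (FREE_c hi) (FREE_one_b F hi)

theorem FREE_leaf (F : FreeHyp σ D A Lv u v z0 ty lev h) {x : V} (hx : leaf Lv u v ty x) :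
    ¬ occ σ D A 2 x := by
  by_cases ho : oleaf Lv u v ty lev x
  · exact F.odd x ho
  · exact (F.even x hx ho).2

theorem FREE_zero (F : FreeHyp σ D A Lv u v z0 ty lev h) (x : V) : FREEt σ D A (x, 0) := by
  have key : ∀ y, ¬ occ σ D A 2 y → FREEt σ D A (y, 0) := fun y hy =>
    FREE_here (g := 2) (by decide) (Or.inr (by decide)) hy
  by_cases h2 : occ σ D A 2 x
  swap
  · exact key x h2
  rcases F.oth x 2 (by decide) h2 with hx | hx | hx | ⟨i, hi, hx | hx⟩
  · obtain ⟨y, h3, _, h4⟩ := FREE_mate F hx (l := 0) (Or.inl rfl)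
    exact FREE_tr h4 (key y (FREE_leaf F h3))
  · exact absurd h2 (FREE_leaf F hx)
  · obtain ⟨y, h3, h4⟩ := FREE_rese F hx (l := 0) (Or.inl rfl) (by decide) h2
    exact FREE_tr h4 (key y h3)
  · subst hx
    exact absurd h2 (F.b2 i hi)
  · subst hx
    exact FREE_tr (FREE_c hi) (key _ (F.b2 i hi))

end

/-- block FREE -/
theorem free_lemma {Lv : Finset C} {u v z0 : C → V} {ty : C → Fin 3} {lev : V → ℕ} {h : ℕ}
    (F : FreeHyp σ D A Lv u v z0 ty lev h) (p : V × Fin 3) :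
    ∃ x g, g ≠ 0 ∧ ¬ occ σ D A g x ∧ (F0 σ D A).Reachable p (x, g) := by
  obtain ⟨x, l⟩ := p
  have hl : l = 0 ∨ l = 1 ∨ l = 2 := by
    clear F
    revert l
    decide
  rcases hl with rfl | rfl | rfl
  · exact FREE_zero F x
  · exact FREE_one F x
  · exact FREE_two F h x (Nat.le_add_right _ _)

end Pool.Agent.KZ
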