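import Pool.Agent.Lib_helper15.KZF.DefsA
import Pool.Agent.Lib_helper15.KZF.DefsN
import Pool.Agent.Lib_helper15.KZF.MM1
import Pool.Agent.Lib_helper15.KZF.MM2
import Pool.Agent.Lib_helper15.KZF.REG3
import Pool.Agent.Lib_helper15.KZF.UPD

/-! # The merging theorem (block K) -/

set_option autoImplicit false
set_option linter.unusedSectionVars false

namespace Pool.Agent.KZ

open Finset

variable {V C : Type} [Fintype V] [DecidableEq V] [Fintype C] [DecidableEq C]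
variable {σ : C → Equiv.Perm V} {D : OddD V C} {A : Finset (Sq V C)}

/-- vertices used by the squares of `Q` -/
def used_h56 (σ : C → Equiv.Perm V) (Q : Finset (Sq V C)) : Finset V :=
  Q.image (fun s => s.2.2) ∪ Q.image (fun s => σ s.2.1 s.2.2)

lemma used_card_h56 (Q : Finset (Sq V C)) : (used_h56 σ Q).card ≤ 2 * Q.card := by
  unfold used_h56
  have h1 := Finset.card_union_le (Q.image (fun s => s.2.2)) (Q.image (fun s => σ s.2.1 s.2.2))
  have h2 := Finset.card_image_le (s := Q) (f := fun s => s.2.2)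
  have h3 := Finset.card_image_le (s := Q) (f := fun s => σ s.2.1 s.2.2)
  omega

lemma not_cov_h56 {Q : Finset (Sq V C)} {x : V} (h : x ∉ used_h56 σ Q) (g : Fin 3) :
    ¬ cov σ Q g x := by
  rintro ⟨i, z, h1, h2⟩
  apply h
  unfold used_h56
  rw [Finset.mem_union, Finset.mem_image, Finset.mem_image]
  rcases h2 with rfl | rfl
  · exact Or.inl ⟨_, h1, rfl⟩
  · exact Or.inr ⟨_, h1, rfl⟩

lemma occ_union_h56 (Q : Finset (Sq V C)) (g : Fin 3) (x : V) :
    occ σ D (A ∪ Q) g x ↔ occ σ D A g x ∨ cov σ Q g x := by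
  unfold occ cov
  simp only [Finset.mem_union]
  constructor
  · rintro (⟨i, z, h1 | h1, h2⟩ | h)
    · exact Or.inl (Or.inl ⟨i, z, h1, h2⟩)
    · exact Or.inr ⟨i, z, h1, h2⟩
    · exact Or.inl (Or.inr h)
  · rintro ((⟨i, z, h1, h2⟩ | h) | ⟨i, z, h1, h2⟩)
    · exact Or.inl ⟨i, z, Or.inl h1, h2⟩
    · exact Or.inr h
    · exact Or.inl ⟨i, z, Or.inr h1, h2⟩

/-- vertices which cannot be joined to `v` -/
def bad_h56 (σ : C → Equiv.Perm V) (Q : Finset (Sq V C)) (v : V) : Finset V :=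
  used_h56 σ Q ∪ (Q.image (fun s => σ s.2.1 v) ∪ Q.image (fun s => (σ s.2.1)⁻¹ v))

lemma bad_card_h56 (Q : Finset (Sq V C)) (v : V) : (bad_h56 σ Q v).card ≤ 4 * Q.card := by
  unfold bad_h56
  have h0 := used_card_h56 (σ := σ) Q
  have h1 := Finset.card_union_le (used_h56 σ Q)
    (Q.image (fun s => σ s.2.1 v) ∪ Q.image (fun s => (σ s.2.1)⁻¹ v))
  have h4 := Finset.card_union_le (Q.image (fun s => σ s.2.1 v))
    (Q.image (fun s => (σ s.2.1)⁻¹ v))
  have h2 := Finset.card_image_le (s := Q) (f := fun s => σ s.2.1 v)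
  have h3 := Finset.card_image_le (s := Q) (f := fun s => (σ s.2.1)⁻¹ v)
  omega

lemma unused_of_not_bad_h56 {Q : Finset (Sq V C)} {v w : V} {j : C} {z : V}
    (h : w ∉ bad_h56 σ Q v) (he : s(v, w) = ed σ j z) : ∀ g' z', (g', j, z') ∉ Q := by
  intro g' z' hq
  apply h
  unfold bad_h56
  rw [Finset.mem_union, Finset.mem_union, Finset.mem_image, Finset.mem_image]
  right
  unfold ed at he
  rw [Sym2.eq_iff] at he
  rcases he with ⟨rfl, rfl⟩ | ⟨rfl, rfl⟩
  · exact Or.inl ⟨_, hq, rfl⟩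
  · exact Or.inr ⟨_, hq, by simp⟩

lemma not_bad_symm_h56 {Q : Finset (Sq V C)} {v w : V} {j : C} {z : V}
    (h : w ∉ bad_h56 σ Q v) (he : s(w, v) = ed σ j z) : ∀ g' z', (g', j, z') ∉ Q :=
  unused_of_not_bad_h56 h (by rw [Sym2.eq_swap]; exact he)

/-- adding one square that joins two components -/
lemma step_h56 (h : HD σ) {Oe Q : Finset (Sq V C)} (O : OptSys σ D A Oe)
    (hQ : Adm σ D A Oe Q) {g : Fin 3} {j : C} {z v w : V} (hs : (g, j, z) ∈ Oe)
    (he : s(v, w) = ed σ j z) (hcol : ∀ g' z', (g', j, z') ∉ Q)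
    (hv : ¬ occ σ D (A ∪ Q) g v) (hw : ¬ occ σ D (A ∪ Q) g w)
    (hn : ¬ (F0 σ D (A ∪ Q)).Reachable (v, g) (w, g)) :
    Adm σ D A Oe (insert (g, j, z) Q) ∧
    (∀ p q, (F0 σ D (A ∪ Q)).Reachable p q →
      (F0 σ D (A ∪ insert (g, j, z) Q)).Reachable p q) ∧
    (F0 σ D (A ∪ insert (g, j, z) Q)).Reachable (v, g) (w, g) ∧
    ncc (F0 σ D (A ∪ insert (g, j, z) Q)) + (insert (g, j, z) Q).card ≤
      ncc (F0 σ D (A ∪ Q)) + Q.card ∧
    Q.card < (insert (g, j, z) Q).card ∧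
    (∀ g' x, occ σ D (A ∪ insert (g, j, z) Q) g' x →
      occ σ D (A ∪ Q) g' x ∨ (g' = g ∧ (x = v ∨ x = w))) := by
  classical
  have hsQ : (g, j, z) ∉ Q := hcol g z
  obtain ⟨_, hjO, hjA⟩ := O.g0 g j z hs
  have hends : ∀ x, (x = z ∨ x = σ j z) ↔ (x = v ∨ x = w) := by
    intro x
    unfold ed at he
    rw [Sym2.eq_iff] at he
    rcases he with ⟨rfl, rfl⟩ | ⟨rfl, rfl⟩
    · exact Iff.rfl
    · exact or_comm
  have hlab : ∀ g', (g', j, z) ∉ A ∪ Q := by
    intro g' h'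
    rcases Finset.mem_union.1 h' with h' | h'
    · exact hjA g' h'
    · exact hcol g' z h'
  have hocc : ∀ x, (x = v ∨ x = w) → ¬ occ σ D (A ∪ Q) g x := by
    rintro x (rfl | rfl)
    · exact hv
    · exact hw
  have ho1 := hocc z ((hends z).1 (Or.inl rfl))
  have ho2 := hocc (σ j z) ((hends _).1 (Or.inr rfl))
  obtain ⟨hB, hF⟩ := F0_insert h hQ.base hjO hlab ho1 ho2
  rw [← Finset.union_insert] at hB hF
  have hreg := F0_deg2 h hQ.base
  have a1 := F0_vert_h56 ho1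
  have a2 := F0_vert_h56 ho2
  have hn' : ¬ (F0 σ D (A ∪ Q)).Reachable (z, g) (σ j z, g) := by
    unfold ed at he
    rw [Sym2.eq_iff] at he
    rcases he with ⟨rfl, rfl⟩ | ⟨rfl, rfl⟩
    · exact hn
    · exact fun h => hn h.symm
  obtain ⟨m1, m2, m3⟩ := sw_merge _ hreg a1 a2 hn'
  refine ⟨⟨?_, ?_, hB⟩, ?_, ?_, ?_, ?_, ?_⟩
  · intro x hx
    rcases Finset.mem_insert.1 hx with rfl | hx
    · exact hs
    · exact hQ.sub hx
  · intro g1 j1 z1 g2 z2 h1 h2
    rcases Finset.mem_insert.1 h1 with e1 | h1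
    · rcases Finset.mem_insert.1 h2 with e2 | h2
      · simp only [Prod.mk.injEq] at e1 e2
        rw [e1.2.2, e2.2.2]
      · simp only [Prod.mk.injEq] at e1
        rw [e1.2.1] at h2
        exact absurd h2 (hcol _ _)
    · rcases Finset.mem_insert.1 h2 with e2 | h2
      · simp only [Prod.mk.injEq] at e2
        rw [e2.2.1] at h1
        exact absurd h1 (hcol _ _)
      · exact hQ.col _ _ _ _ _ h1 h2
  · intro p q hpq
    rw [hF]
    exact m1 p q hpq
  · rw [hF]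
    unfold ed at he
    rw [Sym2.eq_iff] at he
    rcases he with ⟨rfl, rfl⟩ | ⟨rfl, rfl⟩
    · exact m2
    · exact m2.symm
  · rw [hF, Finset.card_insert_of_notMem hsQ]
    unfold swg
    omega
  · rw [Finset.card_insert_of_notMem hsQ]
    omega
  · intro g' x hx
    rw [occ_union_h56] at hx ⊢
    rcases hx with hx | ⟨i, z', h1, h2⟩
    · exact Or.inl (Or.inl hx)
    · rcases Finset.mem_insert.1 h1 with e1 | h1
      · simp only [Prod.mk.injEq] at e1
        obtain ⟨rfl, rfl, rfl⟩ := e1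
        exact Or.inr ⟨rfl, (hends x).1 h2⟩
      · exact Or.inl (Or.inr ⟨i, z', h1, h2⟩)

/-- the state after stage 1 -/
structure Good1_h56 (σ : C → Equiv.Perm V) (D : OddD V C) (A Oe : Finset (Sq V C)) (K : ℕ)
    {s : ℕ} (be : Finset (V × Fin 3 × Fin s)) (Q : Finset (Sq V C)) : Prop where
  adm : Adm σ D A Oe Q
  nc : ncc (F0 σ D (A ∪ Q)) + Q.card ≤ K
  reach : ∀ p q, (F0 σ D A).Reachable p q → (F0 σ D (A ∪ Q)).Reachable p q
  bee : ∀ b ∈ be, ¬ occ σ D (A ∪ Q) b.2.1 b.1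
  comp : ∀ p : V × Fin 3, (∃ v g, g ≠ 0 ∧ ¬ occ σ D (A ∪ Q) g v ∧
      (F0 σ D (A ∪ Q)).Reachable p (v, g) ∧
      ∀ b ∈ be, b.1 ≠ v) ∨ ∃ b ∈ be, (F0 σ D (A ∪ Q)).Reachable p (b.1, b.2.1)

/-- the state in stage 2 -/
structure Good2_h56 (σ : C → Equiv.Perm V) (D : OddD V C) (A Oe : Finset (Sq V C)) (K : ℕ)
    {s : ℕ} (be : Finset (V × Fin 3 × Fin s)) (Q1 : Finset (Sq V C)) (W1 : Finset V)
    (d : V → Option (Fin s)) (Q : Finset (Sq V C)) : Prop where
  adm : Adm σ D A Oe Q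
  nc : ncc (F0 σ D (A ∪ Q)) + Q.card ≤ K
  reach : ∀ p q, (F0 σ D (A ∪ Q1)).Reachable p q → (F0 σ D (A ∪ Q)).Reachable p q
  bee : ∀ b ∈ be, ¬ occ σ D (A ∪ Q) b.2.1 b.1 ∨
    ∃ w ∈ W1, d w = some b.2.2 ∧ (F0 σ D (A ∪ Q)).Reachable (b.1, b.2.1) (w, 0)

/-- a free leaf is connected through all its layers -/
lemma leaf_conn_h56 {B : Finset (Sq V C)} {w : V} (h1 : ¬ occ σ D B 1 w) (h2 : ¬ occ σ D B 2 w)
    (l : Fin 3) : (F0 σ D B).Reachable (w, l) (w, 0) := by
  have a1 := (F0_vert_h56 h1).reachable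
  have a2 := (F0_vert_h56 h2).reachable
  have e1 : (1 : Fin 3) + 1 = 2 := by decide
  have e2 : (2 : Fin 3) + 1 = 0 := by decide
  rw [e1] at a1
  rw [e2] at a2
  fin_cases l
  · exact SimpleGraph.Reachable.refl _
  · exact a1.trans a2
  · exact a2

/-- block K: the merging theorem -/
theorem merge_all [Nonempty V] {Oe : Finset (Sq V C)} {K s : ℕ} {W : Finset V}
    {J : V → V → Prop} {d : V → Option (Fin s)} {be : Finset (V × Fin 3 × Fin s)}
    (H : MergeHyp σ D A Oe K s W J d be) :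
    ∃ Q, Adm σ D A Oe Q ∧ (F0 σ D (A ∪ Q)).Connected := by
  classical
  -- stage 1: a maximal good set
  have hg0 : Good1_h56 σ D A Oe K be ∅ := by
    refine ⟨⟨by simp, by simp, by rw [Finset.union_empty]; exact H.opt.base⟩, ?_, ?_, ?_, ?_⟩
    · rw [Finset.union_empty, Finset.card_empty, add_zero]; exact H.nccK
    · intro p q h; rw [Finset.union_empty]; exact h
    · intro b hb; rw [Finset.union_empty]; exact (H.beW b hb).2.2
    · rw [Finset.union_empty]; exact H.comp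
  obtain ⟨Q1, hQ1, hmax1⟩ := Finset.exists_max_image
    (Finset.univ.filter (fun Q : Finset (Sq V C) => Good1_h56 σ D A Oe K be Q)) Finset.card
    ⟨∅, Finset.mem_filter.2 ⟨Finset.mem_univ _, hg0⟩⟩
  rw [Finset.mem_filter] at hQ1
  have G1 := hQ1.2
  have hmax : ∀ Q, Good1_h56 σ D A Oe K be Q → Q.card ≤ Q1.card := fun Q hQ =>
    hmax1 Q (Finset.mem_filter.2 ⟨Finset.mem_univ _, hQ⟩)
  have hQK : Q1.card ≤ K := by have := G1.nc; omega
  set W1 := W \ used_h56 σ Q1 with hW1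
  have hfree : ∀ w ∈ W1, ∀ g : Fin 3, g ≠ 0 → ¬ occ σ D (A ∪ Q1) g w := by
    intro w hw g hg
    rw [hW1, Finset.mem_sdiff] at hw
    rw [occ_union_h56]
    rintro (h | h)
    · have := H.leaf w hw.1
      rcases (by decide : ∀ g : Fin 3, g ≠ 0 → g = 1 ∨ g = 2) g hg with rfl | rfl
      · exact this.1 h
      · exact this.2 h
    · exact not_cov_h56 hw.2 g h
  have hbeW : ∀ w ∈ W, ∀ b ∈ be, b.1 ≠ w := by
    rintro w hw b hb rfl
    exact (H.beW b hb).1 hw
  -- at the maximum, optional squares at a free leaf do not join different components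
  have hstep : ∀ (g : Fin 3) (v w : V), w ∈ W1 → ¬ occ σ D (A ∪ Q1) g v →
      (∀ b ∈ be, b.1 ≠ v) → ∀ j z, (g, j, z) ∈ Oe → s(v, w) = ed σ j z →
      (∀ g' z', (g', j, z') ∉ Q1) → (F0 σ D (A ∪ Q1)).Reachable (v, g) (w, g) := by
    intro g v w hw hv hvb j z hs he hcol
    by_contra hn
    have hg : g ≠ 0 := (H.opt.g0 g j z hs).1
    have hwW : w ∈ W := by
      rw [hW1, Finset.mem_sdiff] at hw; exact hw.1
    obtain ⟨s1, s2, s3, s4, s5, s6⟩ :=
      step_h56 H.hd H.opt G1.adm hs he hcol hv (hfree w hw g hg) hn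
    have hgood : Good1_h56 σ D A Oe K be (insert (g, j, z) Q1) := by
      refine ⟨s1, ?_, ?_, ?_, ?_⟩
      · have := G1.nc; omega
      · intro p q hpq; exact s2 p q (G1.reach p q hpq)
      · intro b hb ho
        rcases s6 _ _ ho with ho | ⟨_, ho | ho⟩
        · exact G1.bee b hb ho
        · exact hvb b hb ho
        · exact hbeW w hwW b hb ho
      · intro p
        -- the other role of `w`
        obtain ⟨g', hg'0, hg'⟩ : ∃ g' : Fin 3, g' ≠ 0 ∧ g' ≠ g := by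
          clear hs he hcol hv hn s1 s2 s3 s4 s5 s6
          revert g; decide
        have hw' : ¬ occ σ D (A ∪ insert (g, j, z) Q1) g' w := by
          intro ho
          rcases s6 _ _ ho with ho | ⟨ho, _⟩
          · exact hfree w hw g' hg'0 ho
          · exact hg' ho
        have hww : ∀ l : Fin 3, (F0 σ D (A ∪ insert (g, j, z) Q1)).Reachable (w, l) (w, 0) :=
          fun l => s2 _ _ (leaf_conn_h56 (hfree w hw 1 (by decide)) (hfree w hw 2 (by decide)) l)
        rcases G1.comp p with ⟨v1, g1, h1, h2, h3, h4⟩ | ⟨b, hb, h1⟩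
        · by_cases ho : occ σ D (A ∪ insert (g, j, z) Q1) g1 v1
          · left
            refine ⟨w, g', hg'0, hw', ?_, hbeW w hwW⟩
            have hto : (F0 σ D (A ∪ insert (g, j, z) Q1)).Reachable (v1, g1) (w, g) := by
              rcases s6 _ _ ho with ho | ⟨rfl, rfl | rfl⟩
              · exact absurd ho h2
              · exact s3
              · exact SimpleGraph.Reachable.refl _
            exact (s2 _ _ h3).trans (hto.trans ((hww g).trans (hww g').symm))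
          · exact Or.inl ⟨v1, g1, h1, ho, s2 _ _ h3, h4⟩
        · exact Or.inr ⟨b, hb, s2 _ _ h1⟩
    have := hmax _ hgood
    omega
  have hconn1 : ∀ w ∈ W1, ∀ l : Fin 3, (F0 σ D (A ∪ Q1)).Reachable (w, l) (w, 0) :=
    fun w hw l => leaf_conn_h56 (hfree w hw 1 (by decide)) (hfree w hw 2 (by decide)) l
  -- choosing a good vertex in a large set
  have hchoose : ∀ (S : Finset V) (Q : Finset (Sq V C)) (v v' : V), Q.card ≤ K →
      20 * K + 20 ≤ S.card → ∃ w ∈ S, w ∉ bad_h56 σ Q v ∧ w ∉ bad_h56 σ Q v' ∧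
        w ∉ used_h56 σ Q1 := by
    intro S Q v v' hQ hS
    by_contra hcon
    push Not at hcon
    have hsub : S ⊆ bad_h56 σ Q v ∪ (bad_h56 σ Q v' ∪ used_h56 σ Q1) := by
      intro w hw
      rw [Finset.mem_union, Finset.mem_union]
      by_contra h'
      push Not at h'
      exact h'.2.2 (hcon w hw h'.1 h'.2.1)
    have c1 := Finset.card_le_card hsub
    have c2 := Finset.card_union_le (bad_h56 σ Q v) (bad_h56 σ Q v' ∪ used_h56 σ Q1)
    have c3 := Finset.card_union_le (bad_h56 σ Q v') (used_h56 σ Q1)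
    have c4 := bad_card_h56 (σ := σ) Q v
    have c5 := bad_card_h56 (σ := σ) Q v'
    have c6 := used_card_h56 (σ := σ) Q1
    omega
  -- every vertex is connected to a free leaf or to a bridge end
  have hleaf : ∀ p : V × Fin 3, (∃ w ∈ W1, (F0 σ D (A ∪ Q1)).Reachable p (w, 0)) ∨
      ∃ b ∈ be, (F0 σ D (A ∪ Q1)).Reachable p (b.1, b.2.1) := by
    intro p
    rcases G1.comp p with ⟨v, g, h1, h2, h3, h4⟩ | h
    · left
      obtain ⟨S, hSW, hS, hS2⟩ := H.deg1 v g h1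
      obtain ⟨w, hw, hb, -, hu⟩ := hchoose S Q1 v v hQK hS
      obtain ⟨-, j, z, hs, he⟩ := hS2 w hw
      have hwW1 : w ∈ W1 := by
        rw [hW1, Finset.mem_sdiff]
        exact ⟨hSW hw, hu⟩
      have hr := hstep g v w hwW1 h2 h4 j z hs he (unused_of_not_bad_h56 hb he)
      exact ⟨w, hwW1, h3.trans (hr.trans (hconn1 w hwW1 g))⟩
    · exact Or.inr h
  -- rigidity
  have hrig := H.rigid W1 (by rw [hW1]; exact Finset.sdiff_subset) (by
    rw [hW1]
    have : (W \ (W \ used_h56 σ Q1)) ⊆ used_h56 σ Q1 := by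
      intro x hx
      rw [Finset.mem_sdiff, Finset.mem_sdiff] at hx
      by_contra hn
      exact hx.2 ⟨hx.1, hn⟩
    have c1 := Finset.card_le_card this
    have c2 := used_card_h56 (σ := σ) Q1
    omega) (fun x y => (F0 σ D (A ∪ Q1)).Reachable (x, 0) (y, 0))
    ⟨fun x => SimpleGraph.Reachable.refl _, fun h => h.symm, fun h h' => h.trans h'⟩ (by
    intro x hx y hy hJ
    by_cases hxy : x = y
    · rw [hxy]
    have hxW : x ∈ W := by
      rw [hW1, Finset.mem_sdiff] at hx; exact hx.1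
    have hyW : y ∈ W := by
      rw [hW1, Finset.mem_sdiff] at hy; exact hy.1
    obtain ⟨S, hSW, hS, hS2⟩ := H.deg2 x hxW y hyW hxy hJ
    obtain ⟨w, hw, hb, hb', hu⟩ := hchoose S Q1 x y hQK hS
    obtain ⟨-, -, ⟨j, z, hs, he⟩, ⟨j', z', hs', he'⟩⟩ := hS2 w hw
    have hwW1 : w ∈ W1 := by
      rw [hW1, Finset.mem_sdiff]
      exact ⟨hSW hw, hu⟩
    have r1 := hstep 1 x w hwW1 (hfree x hx 1 (by decide)) (hbeW x hxW) j z hs he
      (unused_of_not_bad_h56 hb he)
    have r2 := hstep 2 w y hy (hfree w hwW1 2 (by decide)) (hbeW w (hSW hw)) j' z' hs' he'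
      (not_bad_symm_h56 hb' he')
    exact (hconn1 x hx 1).symm.trans (r1.trans ((hconn1 w hwW1 1).trans
      ((hconn1 w hwW1 2).symm.trans (r2.trans (hconn1 y hy 2))))))
  obtain ⟨hrig1, hrig2⟩ := hrig
  -- stage 2: attach the bridge ends
  have hg2 : Good2_h56 σ D A Oe K be Q1 W1 d Q1 :=
    ⟨G1.adm, G1.nc, fun _ _ h => h, fun b hb => Or.inl (G1.bee b hb)⟩
  obtain ⟨Q2, hQ2, hmax2'⟩ := Finset.exists_max_image
    (Finset.univ.filter (fun Q : Finset (Sq V C) => Good2_h56 σ D A Oe K be Q1 W1 d Q))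
    Finset.card ⟨Q1, Finset.mem_filter.2 ⟨Finset.mem_univ _, hg2⟩⟩
  rw [Finset.mem_filter] at hQ2
  have G2 := hQ2.2
  have hmax2 : ∀ Q, Good2_h56 σ D A Oe K be Q1 W1 d Q → Q.card ≤ Q2.card := fun Q hQ =>
    hmax2' Q (Finset.mem_filter.2 ⟨Finset.mem_univ _, hQ⟩)
  have hQ2K : Q2.card ≤ K := by have := G2.nc; omega
  have hatt : ∀ b ∈ be, ∃ w ∈ W1, d w = some b.2.2 ∧
      (F0 σ D (A ∪ Q2)).Reachable (b.1, b.2.1) (w, 0) := by
    intro b hb
    by_contra hcon
    have hocc : ¬ occ σ D (A ∪ Q2) b.2.1 b.1 := by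
      rcases G2.bee b hb with h | h
      · exact h
      · exact absurd h hcon
    obtain ⟨S, hSW, hS, hS2⟩ := H.beDeg b hb
    obtain ⟨w, hw, hbad, -, hu⟩ := hchoose S Q2 b.1 b.1 hQ2K hS
    obtain ⟨hdw, j, z, hs, he⟩ := hS2 w hw
    have hwW1 : w ∈ W1 := by
      rw [hW1, Finset.mem_sdiff]
      exact ⟨hSW hw, hu⟩
    have hwu : w ∉ used_h56 σ Q2 := by
      intro h'
      apply hbad
      unfold bad_h56
      exact Finset.mem_union_left _ h'
    have hg : b.2.1 ≠ 0 := (H.beW b hb).2.1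
    have hwo : ¬ occ σ D (A ∪ Q2) b.2.1 w := by
      rw [occ_union_h56]
      rintro (h | h)
      · have := H.leaf w (hSW hw)
        rcases (by decide : ∀ g : Fin 3, g ≠ 0 → g = 1 ∨ g = 2) b.2.1 hg with h' | h'
        · rw [h'] at h; exact this.1 h
        · rw [h'] at h; exact this.2 h
      · exact not_cov_h56 hwu _ h
    have hw0 : (F0 σ D (A ∪ Q2)).Reachable (w, b.2.1) (w, 0) := G2.reach _ _ (hconn1 w hwW1 _)
    have hn : ¬ (F0 σ D (A ∪ Q2)).Reachable (b.1, b.2.1) (w, b.2.1) := fun h' =>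
      hcon ⟨w, hwW1, hdw, h'.trans hw0⟩
    obtain ⟨s1, s2, s3, s4, s5, s6⟩ := step_h56 H.hd H.opt G2.adm hs he
      (unused_of_not_bad_h56 hbad he) hocc hwo hn
    have hgood : Good2_h56 σ D A Oe K be Q1 W1 d (insert (b.2.1, j, z) Q2) := by
      refine ⟨s1, ?_, fun p q h => s2 p q (G2.reach p q h), ?_⟩
      · have := G2.nc; omega
      · intro b' hb'
        by_cases hbb : b' = b
        · right
          rw [hbb]
          exact ⟨w, hwW1, hdw, s3.trans (s2 _ _ hw0)⟩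
        · rcases G2.bee b' hb' with h' | ⟨w', h1, h2, h3⟩
          · left
            intro ho
            rcases s6 _ _ ho with ho | ⟨_, ho | ho⟩
            · exact h' ho
            · exact hbb (H.beInj b' hb' b hb ho)
            · exact hbeW w (hSW hw) b' hb' ho
          · exact Or.inr ⟨w', h1, h2, s2 _ _ h3⟩
    have := hmax2 _ hgood
    omega
  -- the parts are connected
  have hsame : ∀ x ∈ W1, ∀ y ∈ W1, ∀ a, d x = some a → d y = some a →
      (F0 σ D (A ∪ Q2)).Reachable (x, 0) (y, 0) := by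
    intro x hx y hy a h1 h2
    refine G2.reach _ _ (hrig1 x hx y hy (h1.trans h2.symm) ?_)
    rw [h1]
    simp
  have htree := H.tree (fun a c => a = c ∨ ∃ x ∈ W1, ∃ y ∈ W1, d x = some a ∧ d y = some c ∧
      (F0 σ D (A ∪ Q2)).Reachable (x, 0) (y, 0)) ⟨fun a => Or.inl rfl, by
      rintro a c (rfl | ⟨x, hx, y, hy, h1, h2, h3⟩)
      · exact Or.inl rfl
      · exact Or.inr ⟨y, hy, x, hx, h2, h1, h3.symm⟩, by
      rintro a c e (rfl | ⟨x, hx, y, hy, h1, h2, h3⟩) h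
      · exact h
      · rcases h with rfl | ⟨x', hx', y', hy', h1', h2', h3'⟩
        · exact Or.inr ⟨x, hx, y, hy, h1, h2, h3⟩
        · exact Or.inr ⟨x, hx, y', hy', h1, h2',
            h3.trans ((hsame y hy x' hx' c h2 h1').trans h3')⟩⟩ (by
      intro b hb b' hb' hr
      obtain ⟨w, hw, hdw, h1⟩ := hatt b hb
      obtain ⟨w', hw', hdw', h1'⟩ := hatt b' hb'
      exact Or.inr ⟨w, hw, w', hw', hdw, hdw',
        h1.symm.trans ((G2.reach _ _ (G1.reach _ _ hr)).trans h1')⟩)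
  have hall : ∀ x ∈ W1, ∀ y ∈ W1, d x ≠ none → d y ≠ none →
      (F0 σ D (A ∪ Q2)).Reachable (x, 0) (y, 0) := by
    intro x hx y hy h1 h2
    obtain ⟨a, ha⟩ := Option.ne_none_iff_exists'.1 h1
    obtain ⟨c, hc⟩ := Option.ne_none_iff_exists'.1 h2
    rcases htree a c with rfl | ⟨x', hx', y', hy', h1', h2', h3'⟩
    · exact hsame x hx y hy a ha hc
    · exact (hsame x hx x' hx' a ha h1').trans (h3'.trans (hsame y' hy' y hy c h2' hc))
  have hto : ∀ p : V × Fin 3, ∃ y ∈ W1, d y ≠ none ∧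
      (F0 σ D (A ∪ Q2)).Reachable p (y, 0) := by
    intro p
    rcases hleaf p with ⟨w, hw, h1⟩ | ⟨b, hb, h1⟩
    · obtain ⟨y, hy, hdy, h2⟩ := hrig2 w hw
      exact ⟨y, hy, hdy, G2.reach _ _ (h1.trans h2)⟩
    · obtain ⟨w, hw, hdw, h2⟩ := hatt b hb
      exact ⟨w, hw, by rw [hdw]; simp, (G2.reach _ _ h1).trans h2⟩
  have : Nonempty (V × Fin 3) := ⟨(Classical.arbitrary V, 0)⟩
  refine ⟨Q2, G2.adm, ⟨fun p q => ?_⟩⟩
  obtain ⟨y, hy, h1, h2⟩ := hto p
  obtain ⟨y', hy', h1', h2'⟩ := hto q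
  exact h2.trans ((hall y hy y' hy' h1 h1').trans h2'.symm)

end Pool.Agent.KZ
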