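import Pool.Agent.Lib_helper15.KZF.DefsA
import Pool.Agent.Lib_helper15.KZF.DefsN

/-!
# Block SML: small facts
-/

set_option autoImplicit false

namespace Pool.Agent.KZ

open Finset

variable {V C : Type} [Fintype V] [DecidableEq V] [Fintype C] [DecidableEq C]

theorem SML_dcol_symm {σ : C → Equiv.Perm V} {x w y : V} (h : dcol σ x w y) : dcol σ y w x := by
  obtain ⟨i, j, z, z', hij, h1, h2⟩ := h
  exact ⟨j, i, z', z, hij.symm, by rw [Sym2.eq_swap]; exact h2, by rw [Sym2.eq_swap]; exact h1⟩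

/-- block SML -/
theorem cdD_comm (σ : C → Equiv.Perm V) (x y : V) : cdD σ x y = cdD σ y x := by
  unfold cdD
  congr 1
  ext w
  simp only [mem_filter, mem_univ, true_and]
  exact ⟨SML_dcol_symm, SML_dcol_symm⟩

theorem reg_mono {σ : C → Equiv.Perm V} {S : Finset V} {κ ε ε' : ℝ} {cl : C → Fin 3}
    (h : ε ≤ ε') (R : Reg σ S κ ε cl) : Reg σ S κ ε' cl := by
  have hm : ε * (Fintype.card V : ℝ) ≤ ε' * (Fintype.card V : ℝ) :=
    mul_le_mul_of_nonneg_right h (Nat.cast_nonneg _)
  refine ⟨fun i x L hL => (R.arc1 i x L hL).trans hm, fun i x L hL => (R.arc2 i x L hL).trans hm,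
    fun y k => (R.deg y k).trans hm, fun x y hxy => ?_⟩
  obtain ⟨T, hT, h1, h2⟩ := R.codeg x y hxy
  exact ⟨T, hT, h1, by linarith⟩

theorem types_mono {σ : C → Equiv.Perm V} {Lv : Finset C} {Uu : Finset V} {u v : C → V}
    {cl : C → Fin 3} {δ : ℝ} {h : ℕ} {q κ ε ε' : ℝ} {Sg : C → V → Finset V} {ty : C → Fin 3}
    {lev : V → ℕ} (hε : ε ≤ ε') (T : Types σ Lv Uu u v cl δ h q κ ε Sg ty lev) :
    Types σ Lv Uu u v cl δ h q κ ε' Sg ty lev := by
  have hm : ε * (Fintype.card V : ℝ) ≤ ε' * (Fintype.card V : ℝ) :=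
    mul_le_mul_of_nonneg_right hε (Nat.cast_nonneg _)
  refine ⟨T.lev1, fun i x L g hg hL => ?_, fun y j k h1 h2 => ?_, fun x y hxy => ?_,
    fun x => ?_, fun i x L hL => ?_, fun i => ?_, fun i b => ?_⟩
  · exact le_trans (by linarith) (T.t1 i x L g hg hL)
  · exact le_trans (T.t2 y j k h1 h2) (by linarith)
  · exact le_trans (by linarith) (T.t3 x y hxy)
  · exact le_trans (by linarith) (T.t3' x)
  · exact le_trans (by linarith) (T.t4 i x L hL)
  · exact le_trans (by linarith) (T.t5 i)
  · exact le_trans (by linarith) (T.t6 i b)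

open Classical in
theorem leaf_card (Lv : Finset C) (u v : C → V) (ty : C → Fin 3) :
    (univ.filter (fun x => leaf Lv u v ty x)).card ≤ Lv.card := by
  have hsub : (univ.filter (fun x => leaf Lv u v ty x)) ⊆
      Lv.image (fun i => if ty i = 1 then u i else v i) := by
    intro x hx
    rw [mem_filter] at hx
    obtain ⟨i, hi, h⟩ := hx.2
    rw [mem_image]
    refine ⟨i, hi, ?_⟩
    rcases h with ⟨h1, h2⟩ | ⟨h1, h2⟩
    · rw [if_pos h1]; exact h2.symm
    · rw [if_neg (by rw [h1]; decide)]; exact h2.symm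
  exact (card_le_card hsub).trans card_image_le

/-- choice of the classes in regime B -/
theorem msel (is : C) (L : ℕ) (h1 : Fintype.card C ≤ L + 1) (h2 : L ≤ 6 * Fintype.card C)
    (h3 : 8 ≤ Fintype.card C) : ∃ (cl : C → Fin 3) (mm : Fin 3 → ℕ), (∀ i, cl i = 0 ↔ i = is) ∧
      (∀ k, mm k ≤ 7) ∧ (∀ k, k ≠ 0 → 1 ≤ mm k) ∧
      ∑ i ∈ univ.filter (fun i => i ≠ is), mm (cl i) = L := by
  set n := Fintype.card C with hn
  have hcard : (univ.filter (fun i : C => i ≠ is)).card = n - 1 := by
    rw [filter_ne' univ is, card_erase_of_mem (mem_univ _), card_univ]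
  have hpos : 0 < n - 1 := by omega
  have hr : L % (n - 1) ≤ (univ.filter (fun i : C => i ≠ is)).card := by
    rw [hcard]; exact (Nat.mod_lt _ hpos).le
  obtain ⟨T, hT, hTc⟩ := exists_subset_card_eq hr
  have hm1 : 1 ≤ L / (n - 1) := by
    rw [Nat.le_div_iff_mul_le hpos]; omega
  have hm6 : L / (n - 1) ≤ 6 := by
    have : L / (n - 1) < 7 := by
      rw [Nat.div_lt_iff_lt_mul hpos]; omega
    omega
  have hisT : is ∉ T := fun h => by
    have := hT h
    rw [mem_filter] at this
    exact this.2 rfl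
  refine ⟨fun i => if i = is then 0 else if i ∈ T then 2 else 1,
    ![0, L / (n - 1), L / (n - 1) + 1], ?_, ?_, ?_, ?_⟩
  · intro i
    constructor
    · intro h
      by_contra hne
      by_cases hiT : i ∈ T
      · simp [hne, hiT] at h
      · simp [hne, hiT] at h
    · intro h
      simp [h]
  · intro k
    fin_cases k
    · simp
    · simp; omega
    · simp; omega
  · intro k hk
    fin_cases k
    · exact absurd rfl hk
    · simp; omega
    · simp
  · have hval : ∀ i ∈ univ.filter (fun i : C => i ≠ is),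
        (![0, L / (n - 1), L / (n - 1) + 1] : Fin 3 → ℕ)
          (if i = is then 0 else if i ∈ T then 2 else 1) =
        L / (n - 1) + (if i ∈ T then 1 else 0) := by
      intro i hi
      rw [mem_filter] at hi
      rw [if_neg hi.2]
      by_cases hiT : i ∈ T
      · simp [hiT]
      · simp [hiT]
    rw [sum_congr rfl hval, sum_add_distrib, sum_const, hcard, smul_eq_mul,
      ← sum_filter, sum_const, smul_eq_mul, mul_one]
    have hTf : (univ.filter (fun i : C => i ≠ is)).filter (fun i => i ∈ T) = T := by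
      ext i
      rw [mem_filter]
      exact ⟨fun h => h.2, fun h => ⟨hT h, h⟩⟩
    rw [hTf, hTc]
    exact Nat.div_add_mod L (n - 1)

end Pool.Agent.KZ
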