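import Pool.Agent.Lib_helper15.KZF.ABASE
import Pool.Agent.Lib_helper15.KZF.AFREE
import Pool.Agent.Lib_helper15.KZF.ANCC
import Pool.Agent.Lib_helper15.KZF.APLAN
import Pool.Agent.Lib_helper15.KZF.DWORD
import Pool.Agent.Lib_helper15.KZF.DefsA
import Pool.Agent.Lib_helper15.KZF.DefsN
import Pool.Agent.Lib_helper15.KZF.ED
import Pool.Agent.Lib_helper15.KZF.FREE
import Pool.Agent.Lib_helper15.KZF.MK
import Pool.Agent.Lib_helper15.KZF.SML

/-!
# Assembly of regime A
-/

set_option autoImplicit false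

namespace Pool.Agent.KZ

open Finset

section A

variable {V C : Type} [Fintype V] [DecidableEq V] [Fintype C] [DecidableEq C]
variable {σ : C → Equiv.Perm V} {O X Y Es Lv : Finset C}
  {z0 z1 u v v' w b : C → V} {ρ : V → ℕ} {ty : C → Fin 3} {lev : V → ℕ} {h : ℕ} {m : C → ℕ}
  {dir : C → Bool} {gl : C → Fin 3} {Ls Lm : Finset (Sq V C)} {Ru : Finset C}
  {bt : C → V} {p q : C → C} {zp zq ze : C → V} {Rg : C → Finset C}

theorem optn_ne (hσ : HD σ) {Oe : Finset (Sq V C)} {g : Fin 3} {x y : V} (h : optn σ Oe g x y) :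
    y ≠ x := by
  rintro rfl
  obtain ⟨j, z, -, h2⟩ := h
  have h3 : (y = z ∧ y = σ j z) ∨ (y = σ j z ∧ y = z) := by
    simpa [ed] using h2
  have h4 : σ j z = z := by
    rcases h3 with ⟨h3, h4⟩ | ⟨h3, h4⟩
    · rw [← h4, h3]
    · rw [← h3, h4]
  exact (hd_ne hσ j z).1 h4

theorem ed_pair {i : C} {z a b : V} (h : ed σ i z = s(a, b)) :
    ({z, σ i z} : Finset V) = {a, b} := by
  have h3 : (z = a ∧ σ i z = b) ∨ (z = b ∧ σ i z = a) := by
    simpa [ed] using h
  rcases h3 with ⟨h3, h4⟩ | ⟨h3, h4⟩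
  · rw [h4, h3]
  · rw [h4, h3, Finset.pair_comm]

open Classical in
theorem planA_core [Nonempty V]
    (D : DatA σ O X Y Es Lv z0 z1 u v v' w b ρ ty lev h m dir gl Ls Lm Ru bt p q zp zq ze Rg)
    {Db : Fin 3 → Finset V} {qq ε : ℝ}
    (T : Dirs σ z0 Lv ∅ u v Es m h qq ε ty lev Db dir gl)
    (K : ℕ) (hK : Fintype.card V + 7 * O.card + 2 * Y.card ≤ K + (univ \ O).card + ∑ i ∈ Es, m i)
    (hK2 : (20 * K + 20 : ℝ) + 2 * Y.card ≤ Fintype.card V / 20000)
    (z : ℕ) (hz : 6 * K + 6 + 2 * Y.card ≤ z) {s : ℕ} (hs : s = 1)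
    (d : V → Option (Fin s))
    (hd : ∀ W' ⊆ univ.filter (fun x => leaf Lv u v ty x),
      ((univ.filter (fun x => leaf Lv u v ty x)) \ W').card ≤ z →
      ∀ E : V → V → Prop, Equivalence E →
        (∀ x ∈ W', ∀ y ∈ W', (Fintype.card V : ℝ) / 100 ≤ cdD σ x y → E x y) →
        (∀ x ∈ W', ∀ y ∈ W', d x = d y → d x ≠ none → E x y) ∧
        (∀ x ∈ W', ∃ y ∈ W', d y ≠ none ∧ E x y)) :
    ∃ (D : OddD V C) (A : Finset (Sq V C)) (u v v' w : C → V) (ρ : V → ℕ),
      Plan σ D A u v v' w ρ := by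
  subst hs
  set A := asetA O Y z0 Lm p q zp zq ze with hA
  set Oe := Oset σ z0 Es m dir gl with hOe
  set W0 := univ.filter (fun x => leaf Lv u v ty x) with hW0
  set W := W0.filter (fun x => ∀ i ∈ Y, x ≠ ze i ∧ x ≠ σ i (ze i)) with hW
  have hσ : HD σ := D.dat.hd
  have hWsub : W ⊆ W0 := Finset.filter_subset _ _
  have hWc : (W0 \ W).card ≤ 2 * Y.card := by
    have h1 : W0 \ W ⊆ Y.image ze ∪ Y.image (fun i => σ i (ze i)) := by
      intro x hx
      rw [Finset.mem_sdiff] at hx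
      have h2 : ¬ ∀ i ∈ Y, x ≠ ze i ∧ x ≠ σ i (ze i) := fun h =>
        hx.2 (Finset.mem_filter.2 ⟨hx.1, h⟩)
      push Not at h2
      obtain ⟨i, hi, h3⟩ := h2
      rw [Finset.mem_union, Finset.mem_image, Finset.mem_image]
      by_cases h4 : x = ze i
      · exact Or.inl ⟨i, hi, h4.symm⟩
      · exact Or.inr ⟨i, hi, (h3 h4).symm⟩
    calc (W0 \ W).card ≤ _ := Finset.card_le_card h1
      _ ≤ _ := Finset.card_union_le _ _
      _ ≤ Y.card + Y.card := Nat.add_le_add Finset.card_image_le Finset.card_image_le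
      _ = 2 * Y.card := by ring
  have hleaf : ∀ w ∈ W, ¬ occ σ ⟨O, b, bt⟩ A 1 w ∧ ¬ occ σ ⟨O, b, bt⟩ A 2 w := by
    intro x hx
    rw [hW, Finset.mem_filter, hW0, Finset.mem_filter] at hx
    exact datA_leaf D x hx.1.2 hx.2
  -- from a set of leaves to a set of free leaves
  have hcut : ∀ (P : V → Prop) (t : ℝ), (Fintype.card V : ℝ) / 20000 ≤ t →
      t ≤ (univ.filter (fun w => leaf Lv u v ty w ∧ P w)).card →
      ∃ S ⊆ W, 20 * K + 20 ≤ S.card ∧ ∀ w ∈ S, P w := by
    intro P t ht h1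
    refine ⟨W.filter P, Finset.filter_subset _ _, ?_, fun w hw => (Finset.mem_filter.1 hw).2⟩
    have h2 : univ.filter (fun w => leaf Lv u v ty w ∧ P w) ⊆ W.filter P ∪ (W0 \ W) := by
      intro x hx
      rw [Finset.mem_filter] at hx
      rw [Finset.mem_union, Finset.mem_filter, Finset.mem_sdiff]
      have hx0 : x ∈ W0 := by rw [hW0, Finset.mem_filter]; exact ⟨Finset.mem_univ _, hx.2.1⟩
      by_cases hx1 : x ∈ W
      · exact Or.inl ⟨hx1, hx.2.2⟩
      · exact Or.inr ⟨hx0, hx1⟩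
    have h3 : (univ.filter (fun w => leaf Lv u v ty w ∧ P w)).card ≤
        (W.filter P).card + 2 * Y.card :=
      (Finset.card_le_card h2).trans ((Finset.card_union_le _ _).trans
        (Nat.add_le_add_left hWc _))
    have h4 : ((univ.filter (fun w => leaf Lv u v ty w ∧ P w)).card : ℝ) ≤
        (W.filter P).card + 2 * Y.card := by exact_mod_cast h3
    have h5 : ((20 * K + 20 : ℕ) : ℝ) ≤ (W.filter P).card := by
      push_cast
      linarith
    exact_mod_cast h5
  have hN0 : (0 : ℝ) ≤ Fintype.card V := Nat.cast_nonneg _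
  have hM : MergeHyp σ ⟨O, b, bt⟩ A Oe K 1 W
      (fun x y => (Fintype.card V : ℝ) / 100 ≤ cdD σ x y) d ∅ := by
    refine
      { hd := hσ
        opt := dat_opt D.dat (datA_es D) rfl (datA_base D)
        nccK := ?_
        leaf := hleaf
        Jsymm := ?_
        deg1 := ?_
        deg2 := ?_
        comp := ?_
        beW := by simp
        beInj := by simp
        beDeg := by simp
        beCard := by simp
        tree := ?_
        rigid := ?_ }
    · have := datA_ncc D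
      rw [← hA] at this
      omega
    · intro x y h1
      rw [cdD_comm]
      exact h1
    · intro x g hg
      obtain ⟨S, h1, h2, h3⟩ := hcut (fun w => optn σ Oe g x w) _ (by linarith) (T.u3 x g hg)
      exact ⟨S, h1, h2, fun w hw => ⟨optn_ne hσ (h3 w hw), h3 w hw⟩⟩
    · intro x hx y hy hxy hJ
      obtain ⟨S, h1, h2, h3⟩ := hcut (fun w => optn σ Oe 1 x w ∧ optn σ Oe 2 w y) _ le_rfl
        (by
          have h0 := T.u2 x y hxy hJ
          convert h0 using 4)
      exact ⟨S, h1, h2, fun w hw => ⟨optn_ne hσ (h3 w hw).1, (optn_ne hσ (h3 w hw).2).symm,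
        (h3 w hw).1, (h3 w hw).2⟩⟩
    · intro pt
      obtain ⟨x, g, h1, h2, h3⟩ := free_lemma (datA_free D) pt
      exact Or.inl ⟨x, g, h1, h2, h3, by simp⟩
    · intro E hE _ x y
      rw [Subsingleton.elim x y]
      exact hE.refl y
    · intro W' hW' hc E hE hJ
      refine hd W' (hW'.trans hWsub) ?_ E hE hJ
      have h1 : W0 \ W' ⊆ (W0 \ W) ∪ (W \ W') := by
        intro x hx
        rw [Finset.mem_sdiff] at hx
        rw [Finset.mem_union, Finset.mem_sdiff, Finset.mem_sdiff]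
        by_cases hx1 : x ∈ W
        · exact Or.inr ⟨hx1, hx.2⟩
        · exact Or.inl ⟨hx.1, hx1⟩
      have h2 := (Finset.card_le_card h1).trans (Finset.card_union_le _ _)
      omega
  obtain ⟨Q, hQ, hc⟩ := merge_all hM
  exact ⟨_, _, _, _, _, _, _, datA_plan D hQ hc⟩

end A

end Pool.Agent.KZ
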