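import Pool.Agent.Lib_helper15.KZF.AsmA
import Pool.Agent.Lib_helper15.KZF.DefsA
import Pool.Agent.Lib_helper15.KZF.DefsN

/-!
# Regime A: choice of the parameters
-/

set_option autoImplicit false

namespace Pool.Agent.KZ

open Finset

/-- numerical facts of regime A -/
structure NumA (e p N n o x : ℝ) : Prop where
  hp : p = 1 / 10 ^ 8
  e0 : 0 < e
  e1 : 2000 * e ≤ 1 / 10 ^ 12
  eN : 10 ^ 12 ≤ e * N
  h2 : 2 * n + 1 ≤ N
  hN : N ≤ (2 + e) * n
  o1 : e * n ≤ o
  o2 : o ≤ 2 * e * n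
  x0 : 0 ≤ x
  hx : |x - p * (n - o)| ≤ p / 1000 * N

namespace NumA

variable {e p N n o x : ℝ}

theorem n0 (H : NumA e p N n o x) : 0 < n := by
  have h1 := H.eN
  have h2 := H.e0
  have h3 := H.e1
  have h4 := H.hN
  have h5 : 0 < N := by
    by_contra h
    push Not at h
    nlinarith
  by_contra h
  push Not at h
  nlinarith

theorem N0 (H : NumA e p N n o x) : 0 < N := by
  have := H.n0
  have := H.h2
  linarith

theorem n1 (H : NumA e p N n o x) : 10 ^ 9 ≤ n := by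
  have h1 := H.eN
  have h2 := H.e0
  have h3 := H.e1
  have h4 := H.hN
  have h5 := H.n0
  have h6 := H.N0
  by_contra h
  push Not at h
  have h7 : N ≤ 3 * n := by nlinarith
  nlinarith

theorem N21 (H : NumA e p N n o x) : N ≤ 2.1 * n := by
  have := H.hN
  have := H.e0
  have := H.e1
  have := H.n0
  nlinarith

theorem o100 (H : NumA e p N n o x) : o ≤ n / 100 := by
  have := H.o2
  have := H.e1
  have := H.n0
  nlinarith

theorem o0 (H : NumA e p N n o x) : 0 ≤ o := by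
  have := H.o1
  have := H.e0
  have := H.n0
  nlinarith

theorem oN (H : NumA e p N n o x) : o ≤ e * N := by
  have := H.o2
  have := H.h2
  have := H.e0
  nlinarith

theorem c1 (H : NumA e p N n o x) : 2 * n - o ≤ (1 - e / 2) * N := by
  have h1 := H.o1
  have h2 := H.h2
  have h3 := H.e0
  have h4 := H.e1
  nlinarith

theorem xn (H : NumA e p N n o x) : x ≤ 1.01 * p * n := by
  have h1 := (abs_le.1 H.hx).2
  have h2 := H.N21
  have h3 := H.o0
  have h4 := H.n0
  have h5 := H.hp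
  rw [h5] at h1 ⊢
  nlinarith

theorem xl (H : NumA e p N n o x) : n - o - x ≤ (1 - 0.99 * p) * (n - o) := by
  have h1 := (abs_le.1 H.hx).1
  have h2 := H.N21
  have h3 := H.o100
  have h4 := H.n0
  have h5 := H.hp
  rw [h5] at h1 ⊢
  nlinarith

theorem kap (H : NumA e p N n o x) : 1 - 2 * (n - o) / N ≤ 5 * e := by
  have h1 := H.N0
  have h2 := H.o2
  have h3 := H.hN
  have h4 := H.h2
  have h5 := H.e0
  have h6 : (1 - 5 * e) * N ≤ 2 * (n - o) := by nlinarith
  have h7 : 1 - 5 * e ≤ 2 * (n - o) / N := by rwa [le_div_iff₀ h1]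
  linarith

theorem kap1 (H : NumA e p N n o x) : 2 * (n - o) / N ≤ 1 := by
  have h1 := H.N0
  rw [div_le_one h1]
  have := H.h2
  have := H.o0
  linarith

theorem kap99 (H : NumA e p N n o x) : 0.99 ≤ 2 * (n - o) / N := by
  have := H.kap
  have := H.e1
  linarith

theorem kK (H : NumA e p N n o x) {K : ℝ} (hK : K ≤ N + 9 * o + 3 * x - 2 * n) :
    K ≤ 4 * p * n := by
  have h1 := H.xn
  have h2 := H.hN
  have h3 := H.o2
  have h4 := H.e1
  have h5 := H.n0
  have h6 := H.hp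
  rw [h6] at h1 ⊢
  nlinarith

theorem hW (H : NumA e p N n o x) {δ : ℝ} (hδ : δ ≤ 1 / 10 ^ 6) (hδ0 : 0 < δ) :
    0.97 * 2 * n ^ 2 / N ≤ (1 - δ) * (2 * (n - o) / N) * n - 110 * e * N := by
  have h1 := H.N0
  have h2 := H.n0
  have h3 := H.o2
  have h4 := H.e1
  have h5 := H.N21
  have h6 := H.e0
  rw [div_le_iff₀ h1]
  have h7 : ((1 - δ) * (2 * (n - o) / N) * n - 110 * e * N) * N =
      (1 - δ) * (2 * (n - o)) * n - 110 * e * N ^ 2 := by
    field_simp
  rw [h7]
  have h8 : N ^ 2 ≤ 2.1 ^ 2 * n ^ 2 := by nlinarith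
  have h9 : e ≤ 1 / 10 ^ 15 := by linarith
  have h10 : 110 * e * N ^ 2 ≤ 110 * (1 / 10 ^ 15) * (2.1 ^ 2 * n ^ 2) := by
    have : 0 ≤ N ^ 2 := by positivity
    nlinarith
  have h11 : 0.999 * n ≤ n - o := by nlinarith
  have h12 : 0.999 * (2 * (0.999 * n)) * n ≤ (1 - δ) * (2 * (n - o)) * n := by
    have h13 : 0.999 ≤ 1 - δ := by linarith
    have h14 : 0.999 * (2 * (0.999 * n)) ≤ (1 - δ) * (2 * (n - o)) := by nlinarith
    nlinarith
  nlinarith

end NumA

end Pool.Agent.KZ
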