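import Pool.Agent.Lib_helper15.KZF.DefsA
import Pool.Agent.Lib_helper15.KZF.DefsN
import Pool.Agent.Lib_helper15.KZF.ED

/-!
# Neighbours and arcs of the Hamiltonian cycles
-/

set_option autoImplicit false
set_option linter.unusedSectionVars false

namespace Pool.Agent.KZ

open Finset

variable {V C : Type} [Fintype V] [DecidableEq V] [Fintype C] [DecidableEq C]
variable {σ : C → Equiv.Perm V}

/-- powers below the number of vertices do not fix a vertex -/
lemma nb_pow_ne_h56 (h : HD σ) (i : C) (x : V) {j : ℕ} (h0 : 0 < j) (h1 : j < Fintype.card V) :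
    (σ i ^ j) x ≠ x := by
  intro hx
  have hsub : (Finset.univ : Finset V) ⊆ (Finset.range j).image (fun r => (σ i ^ r) x) := by
    intro y _
    obtain ⟨k, hk⟩ := h.cyc i x y
    rw [Finset.mem_image]
    refine ⟨k % j, Finset.mem_range.2 (Nat.mod_lt _ h0), ?_⟩
    rw [← hk]
    have hmul : ∀ m, (σ i ^ (j * m)) x = x := by
      intro m
      induction m with
      | zero => simp
      | succ m ih => rw [Nat.mul_succ, pow_add, Equiv.Perm.mul_apply, hx, ih]
    conv_rhs => rw [← Nat.mod_add_div k j, pow_add, Equiv.Perm.mul_apply, hmul]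
  have := (Finset.card_le_card hsub).trans Finset.card_image_le
  rw [Finset.card_univ, Finset.card_range] at this
  omega

lemma nb_arc_inj_h56 (h : HD σ) (i : C) (x : V) {r s : ℕ} (hr : r < Fintype.card V)
    (hs : s < Fintype.card V) (e : (σ i ^ r) x = (σ i ^ s) x) : r = s := by
  have key : ∀ r s : ℕ, r < s → s < Fintype.card V → (σ i ^ r) x ≠ (σ i ^ s) x := by
    intro r s hrs hs e
    have e1 : (σ i ^ s) x = (σ i ^ r) ((σ i ^ (s - r)) x) := by
      rw [← Equiv.Perm.mul_apply, ← pow_add]
      congr 2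
      omega
    rw [e1] at e
    have := (σ i ^ r).injective e
    exact nb_pow_ne_h56 h i x (by omega) (by omega) this.symm
  rcases lt_trichotomy r s with h' | h' | h'
  · exact absurd e (key r s h' hs)
  · exact h'
  · exact absurd e.symm (key s r h' hr)

lemma nb_arc_image_h56 (h : HD σ) (i : C) (x : V) :
    (Finset.range (Fintype.card V)).image (fun r => (σ i ^ r) x) = Finset.univ := by
  apply Finset.eq_univ_of_card
  rw [Finset.card_image_of_injOn, Finset.card_range]
  intro r hr s hs e
  exact nb_arc_inj_h56 h i x (Finset.mem_range.1 hr) (Finset.mem_range.1 hs) e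

/-- a count along the whole cycle -/
lemma nb_arc_count_h56 (h : HD σ) (i : C) (x : V) (P : V → Prop) [DecidablePred P] :
    ((Finset.range (Fintype.card V)).filter (fun r => P ((σ i ^ r) x))).card =
      (Finset.univ.filter P).card := by
  rw [← nb_arc_image_h56 h i x, Finset.filter_image, Finset.card_image_of_injOn]
  intro r hr s hs e
  rw [Finset.coe_filter] at hr hs
  exact nb_arc_inj_h56 h i x (Finset.mem_range.1 hr.1) (Finset.mem_range.1 hs.1) e

lemma nb_arc_succ_h56 (i : C) (x : V) (r : ℕ) : (σ i ^ (r + 1)) x = σ i ((σ i ^ r) x) := by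
  rw [pow_succ', Equiv.Perm.mul_apply]

lemma nb_true_h56 (i : C) (x : V) : nb σ (i, true) x = σ i x := rfl

lemma nb_false_h56 (i : C) (x : V) : nb σ (i, false) x = (σ i)⁻¹ x := by
  unfold nb
  rw [if_neg (by simp)]

lemma nb_inj_h56 (h : HD σ) (y : V) {p p' : C × Bool} (e : nb σ p y = nb σ p' y) : p = p' := by
  obtain ⟨i, s⟩ := p
  obtain ⟨j, t⟩ := p'
  by_cases hij : i = j
  · subst hij
    have hne := (hd_ne h i y).2
    cases s <;> cases t
    · rfl
    · rw [nb_false_h56, nb_true_h56] at e
      exact absurd e.symm hne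
    · rw [nb_false_h56, nb_true_h56] at e
      exact absurd e hne
    · rfl
  · exfalso
    have d1 := h.disj i j y hij
    have d2 := h.disj j i y (Ne.symm hij)
    cases s <;> cases t
    · rw [nb_false_h56, nb_false_h56] at e
      -- `z = σ i ⁻¹ y = σ j ⁻¹ y`
      have d3 := (h.disj i j ((σ i)⁻¹ y) hij).1
      apply d3
      conv_rhs => rw [e]
      simp
    · rw [nb_false_h56, nb_true_h56] at e
      exact d2.2 e.symm
    · rw [nb_false_h56, nb_true_h56] at e
      exact d1.2 e
    · rw [nb_true_h56, nb_true_h56] at e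
      exact d1.1 e

lemma nb_ne_h56 (h : HD σ) (p : C × Bool) (y : V) : nb σ p y ≠ y := by
  obtain ⟨i, s⟩ := p
  cases s
  · rw [nb_false_h56]
    intro e
    have : σ i y = y := by
      conv_lhs => rw [← e]
      simp
    exact (hd_ne h i y).1 this
  · rw [nb_true_h56]
    exact (hd_ne h i y).1

lemma nb_card_ge_h56 (h : HD σ) : 2 * Fintype.card C + 1 ≤ Fintype.card V := hd_deg h

/-- the `nb`-count of a vertex set is at most its cardinality -/
lemma nb_fiber_h56 (h : HD σ) (y z : V) (S : Finset (C × Bool)) :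
    (S.filter (fun p => nb σ p y = z)).card ≤ 1 := by
  rw [Finset.card_le_one]
  intro p hp q hq
  rw [Finset.mem_filter] at hp hq
  exact nb_inj_h56 h y (hp.2.trans hq.2.symm)

lemma nb_arc_fiber_h56 (h : HD σ) (i : C) (x z : V) {L : ℕ} (hL : L ≤ Fintype.card V) :
    ((Finset.range L).filter (fun r => (σ i ^ r) x = z)).card ≤ 1 := by
  rw [Finset.card_le_one]
  intro r hr s hs
  rw [Finset.mem_filter, Finset.mem_range] at hr hs
  exact nb_arc_inj_h56 h i x (by omega) (by omega) (hr.2.trans hs.2.symm)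

lemma nb_arc_fiber1_h56 (h : HD σ) (i : C) (x z : V) {L : ℕ} (hL : L ≤ Fintype.card V) :
    ((Finset.range L).filter (fun r => (σ i ^ (r + 1)) x = z)).card ≤ 1 := by
  have : ∀ r, (σ i ^ (r + 1)) x = z ↔ (σ i ^ r) x = (σ i)⁻¹ z := by
    intro r
    rw [nb_arc_succ_h56, Equiv.Perm.eq_inv_iff_eq]
  simp only [this]
  exact nb_arc_fiber_h56 h i x _ hL

end Pool.Agent.KZ
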