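import Pool.Agent.Lib_helper15.KZF.BD

/-!
# Probabilities on finite product spaces and a uniform concentration statement
-/

set_option autoImplicit false
set_option linter.unusedSectionVars false

namespace Pool.Agent.KZ

open Finset

/-- **Concentration for polynomially many functions with bounded differences.** -/
theorem conc_h56 (ε : ℝ) (hε : 0 < ε) (c K : ℕ) : ∃ N₀ : ℕ, ∀ (I L : Type) [Fintype I]
    [DecidableEq I] [Fintype L] [Nonempty L] (N : ℕ), N₀ ≤ N → Fintype.card I ≤ N →
    ∀ (T : Type) [Fintype T], Fintype.card T ≤ N ^ K → ∀ (F : T → (I → L) → ℝ),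
      (∀ t, BD (fun _ => (c : ℝ)) (F t)) → ∃ ω, ∀ t, |F t ω - avg (F t)| ≤ ε * N := by
  set c' : ℝ := (c : ℝ) + 1 with hc'
  have hc0 : 0 < c' := by positivity
  set b : ℝ := ε ^ 2 / (2 * c' ^ 2) with hb
  have hb0 : 0 < b := by positivity
  obtain ⟨N₁, hN₁⟩ := exists_nat_gt (2 * ((K + 1).factorial : ℝ) / b ^ (K + 1))
  refine ⟨N₁ + 1, ?_⟩
  intro I L _ _ _ _ N hN hI T _ hT F hF
  have hNpos : (0 : ℝ) < N := by
    have : 0 < N := by omega
    exact_mod_cast this
  have hN1 : (N₁ : ℝ) < N := by
    have : N₁ < N := by omega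
    exact_mod_cast this
  have hsq : Real.sqrt N ^ 2 = N := Real.sq_sqrt hNpos.le
  have hsp : 0 < Real.sqrt N := Real.sqrt_pos.2 hNpos
  have h := exists_good F (fun _ _ => (c : ℝ)) hF (fun _ => c' * Real.sqrt N)
    (fun _ => by positivity) (fun _ => by
      rw [Finset.sum_const, Finset.card_univ, nsmul_eq_mul, mul_pow, hsq, mul_comm]
      have h1 : (c : ℝ) ^ 2 ≤ c' ^ 2 := by
        apply pow_le_pow_left₀ (Nat.cast_nonneg _)
        rw [hc']; linarith
      have h2 : (Fintype.card I : ℝ) ≤ N := by exact_mod_cast hI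
      have h3 : (0 : ℝ) ≤ Fintype.card I := Nat.cast_nonneg _
      nlinarith [sq_nonneg c', sq_nonneg (c : ℝ)])
    (ε * Real.sqrt N / c') (by positivity) (by
      have e1 : (ε * Real.sqrt N / c') ^ 2 / 2 = b * N := by
        rw [hb, div_pow, mul_pow, hsq]
        field_simp
      rw [e1]
      have hx : 0 < b * N := by positivity
      have hexp : (b * N) ^ (K + 1) / ((K + 1).factorial : ℝ) ≤ Real.exp (b * N) :=
        Real.pow_div_factorial_le_exp _ hx.le _
      have hfac : (0 : ℝ) < ((K + 1).factorial : ℝ) := by exact_mod_cast Nat.factorial_pos _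
      have hT' : (Fintype.card T : ℝ) ≤ (N : ℝ) ^ K := by exact_mod_cast hT
      rw [Real.exp_neg, ← div_eq_mul_inv, div_lt_one (Real.exp_pos _)]
      refine lt_of_le_of_lt (b := 2 * (N : ℝ) ^ K) ?_ (lt_of_lt_of_le ?_ hexp)
      · linarith
      · rw [lt_div_iff₀ hfac, mul_pow, pow_succ (N : ℝ) K]
        have h1 : 2 * ((K + 1).factorial : ℝ) < b ^ (K + 1) * N := by
          have := hN₁.trans hN1
          rw [div_lt_iff₀ (by positivity)] at this
          linarith
        have h2 : 0 < (N : ℝ) ^ K := by positivity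
        nlinarith)
  obtain ⟨ω, hω⟩ := h
  refine ⟨ω, fun t => (hω t).trans (le_of_eq ?_)⟩
  have : Real.sqrt N * Real.sqrt N = N := Real.mul_self_sqrt hNpos.le
  field_simp
  rw [pow_two, this]

section
variable {I L : Type} [Fintype I] [DecidableEq I] [Fintype L] [Nonempty L]

lemma bd_items_h56 {ι : Type} (S : Finset ι) (f : ι → (I → L) → ℝ)
    (h01 : ∀ s ∈ S, ∀ ω, 0 ≤ f s ω ∧ f s ω ≤ 1) (dep : I → ι → Prop)
    [∀ a, DecidablePred (dep a)]
    (hdep : ∀ s ∈ S, ∀ ω a l, ¬ dep a s → f s (Function.update ω a l) = f s ω) (c : ℕ)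
    (hc : ∀ a, (S.filter (dep a)).card ≤ c) :
    BD (fun _ => (c : ℝ)) (fun ω => ∑ s ∈ S, f s ω) := by
  intro a ω l
  simp only
  rw [← Finset.sum_sub_distrib]
  refine (Finset.abs_sum_le_sum_abs _ _).trans ?_
  have h1 : ∑ s ∈ S, |f s (Function.update ω a l) - f s ω| ≤
      ∑ s ∈ S, if dep a s then (1 : ℝ) else 0 := by
    refine Finset.sum_le_sum fun s hs => ?_
    by_cases hd : dep a s
    · rw [if_pos hd, abs_le]
      have := h01 s hs (Function.update ω a l)
      have := h01 s hs ω
      constructor <;> linarith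
    · rw [if_neg hd, hdep s hs ω a l hd, sub_self, abs_zero]
  refine h1.trans ?_
  rw [Finset.sum_boole]
  exact_mod_cast hc a

open Classical in
/-- indicator -/
noncomputable def ind_h56 (P : Prop) : ℝ := if P then (1 : ℝ) else 0

lemma ind_and_h56 (P Q : Prop) : ind_h56 (P ∧ Q) = ind_h56 P * ind_h56 Q := by
  unfold ind_h56
  by_cases hP : P <;> by_cases hQ : Q <;> simp [hP, hQ]

open Classical in
/-- probability of the event `P` -/
noncomputable def prb_h56 (P : (I → L) → Prop) : ℝ := avg (fun ω => if P ω then (1 : ℝ) else 0)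

lemma prb_mono_h56 {P Q : (I → L) → Prop} (h : ∀ ω, P ω → Q ω) : prb_h56 P ≤ prb_h56 Q := by
  classical
  unfold prb_h56
  refine avg_mono fun ω => ?_
  by_cases hP : P ω
  · rw [if_pos hP, if_pos (h ω hP)]
  · rw [if_neg hP]
    split_ifs <;> norm_num

lemma prb_nonneg_h56 (P : (I → L) → Prop) : 0 ≤ prb_h56 P := by
  classical
  unfold prb_h56
  have h0 := avg_const (I := I) (L := L) 0
  conv_lhs => rw [← h0]
  refine avg_mono fun ω => ?_
  split_ifs <;> norm_num

lemma prb_le_one_h56 (P : (I → L) → Prop) : prb_h56 P ≤ 1 := by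
  classical
  unfold prb_h56
  have h0 := avg_const (I := I) (L := L) 1
  conv_rhs => rw [← h0]
  refine avg_mono fun ω => ?_
  split_ifs <;> norm_num

lemma prb_true_h56 {P : (I → L) → Prop} (h : ∀ ω, P ω) : prb_h56 P = 1 := by
  classical
  unfold prb_h56
  have h0 := avg_const (I := I) (L := L) 1
  conv_rhs => rw [← h0]
  congr 1
  funext ω
  rw [if_pos (h ω)]

lemma prb_false_h56 {P : (I → L) → Prop} (h : ∀ ω, ¬ P ω) : prb_h56 P = 0 := by
  classical
  unfold prb_h56
  have h0 := avg_const (I := I) (L := L) 0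
  conv_rhs => rw [← h0]
  congr 1
  funext ω
  rw [if_neg (h ω)]

open Classical in
/-- two different coordinates -/
lemma prb_pair_h56 {a b : I} (hab : a ≠ b) (R : L → L → Prop) :
    prb_h56 (fun ω : I → L => R (ω a) (ω b)) =
      ((univ.filter (fun p : L × L => R p.1 p.2)).card : ℝ) / (Fintype.card L : ℝ) ^ 2 := by
  unfold prb_h56
  rw [← avg_av1 b, ← avg_av1 a]
  have h1 : av1 a (av1 b (fun ω : I → L => if R (ω a) (ω b) then (1 : ℝ) else 0)) =
      fun _ => ((univ.filter (fun p : L × L => R p.1 p.2)).card : ℝ) /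
        (Fintype.card L : ℝ) ^ 2 := by
    funext ω
    unfold av1
    have h2 : ∀ l l' : L, (if R (Function.update (Function.update ω a l) b l' a)
        (Function.update (Function.update ω a l) b l' b) then (1 : ℝ) else 0) =
        if R l l' then 1 else 0 := by
      intro l l'
      rw [Function.update_self, Function.update_of_ne hab, Function.update_self]
    simp only [h2]
    rw [← Finset.sum_div, div_div, ← pow_two]
    congr 1
    rw [Finset.card_filter, Nat.cast_sum, Fintype.sum_prod_type]
    refine Finset.sum_congr rfl fun l _ => Finset.sum_congr rfl fun l' _ => ?_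
    by_cases h : R l l' <;> simp [h]
  rw [h1, avg_const]

open Classical in
/-- one coordinate -/
lemma prb_one_h56 (a : I) (R : L → Prop) :
    prb_h56 (fun ω : I → L => R (ω a)) =
      ((univ.filter (fun l : L => R l)).card : ℝ) / (Fintype.card L : ℝ) := by
  unfold prb_h56
  rw [← avg_av1 a]
  have h1 : av1 a (fun ω : I → L => if R (ω a) then (1 : ℝ) else 0) =
      fun _ => ((univ.filter (fun l : L => R l)).card : ℝ) / (Fintype.card L : ℝ) := by
    funext ω
    unfold av1
    simp only [Function.update_self]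
    rw [Finset.sum_boole]
  rw [h1, avg_const]

open Classical in
/-- two different coordinates, product event -/
lemma prb_two_h56 {a b : I} (hab : a ≠ b) (R R' : L → Prop) :
    prb_h56 (fun ω : I → L => R (ω a) ∧ R' (ω b)) =
      (((univ.filter (fun l : L => R l)).card : ℝ) / (Fintype.card L : ℝ)) *
      (((univ.filter (fun l : L => R' l)).card : ℝ) / (Fintype.card L : ℝ)) := by
  rw [prb_pair_h56 hab (fun l l' => R l ∧ R' l')]
  have e : ∀ inst : DecidablePred (fun p : L × L => R p.1 ∧ R' p.2),
      ((@Finset.filter (L × L) (fun p => R p.1 ∧ R' p.2) inst univ).card : ℝ) =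
      ((univ.filter (fun l : L => R l)).card : ℝ) * ((univ.filter (fun l : L => R' l)).card : ℝ) := by
    intro inst
    rw [← Nat.cast_mul, ← Finset.card_product]
    congr 2
    ext p
    simp
  rw [e]
  ring

open Classical in
/-- the same event in all coordinates of `A` -/
lemma prb_all_h56 (A : Finset I) (R : L → Prop) :
    prb_h56 (fun ω : I → L => ∀ a ∈ A, R (ω a)) =
      (((univ.filter (fun l : L => R l)).card : ℝ) / (Fintype.card L : ℝ)) ^ A.card := by
  induction A using Finset.induction_on with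
  | empty =>
    rw [Finset.card_empty, pow_zero]
    exact prb_true_h56 fun ω => by simp
  | insert a A ha ih =>
    rw [Finset.card_insert_of_notMem ha, pow_succ, ← ih]
    unfold prb_h56
    rw [← avg_mul_right, ← avg_av1 a]
    congr 1
    funext ω
    unfold av1
    have h3 : ∀ l : L, (∀ b ∈ insert a A, R (Function.update ω a l b)) ↔
        ((∀ b ∈ A, R (ω b)) ∧ R l) := by
      intro l
      rw [Finset.forall_mem_insert, Function.update_self, and_comm]
      refine and_congr_left fun _ => forall₂_congr fun b hb => ?_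
      rw [Function.update_of_ne]
      rintro rfl; exact ha hb
    have h2 : ∀ l : L, ind_h56 (∀ b ∈ insert a A, R (Function.update ω a l b)) =
        ind_h56 (∀ b ∈ A, R (ω b)) * ind_h56 (R l) := by
      intro l
      rw [h3, ind_and_h56]
    rw [← mul_div_assoc]
    have h4 : ∑ l : L, ind_h56 (∀ b ∈ insert a A, R (Function.update ω a l b)) =
        ind_h56 (∀ b ∈ A, R (ω b)) * ((univ.filter (fun l : L => R l)).card : ℝ) := by
      rw [Finset.sum_congr rfl fun l _ => h2 l, ← Finset.mul_sum]
      congr 1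
      unfold ind_h56
      rw [Finset.sum_boole]
    exact congrArg (· / (Fintype.card L : ℝ)) h4

/-- average of a count -/
lemma avg_count_h56 {ι : Type} (S : Finset ι) (P : ι → (I → L) → Prop)
    [∀ ω, DecidablePred (fun s => P s ω)] :
    avg (fun ω => ((S.filter (fun s => P s ω)).card : ℝ)) = ∑ s ∈ S, prb_h56 (P s) := by
  unfold prb_h56
  rw [← avg_sum]
  congr 1
  funext ω
  rw [Finset.card_filter, Nat.cast_sum]
  refine Finset.sum_congr rfl fun s _ => ?_
  by_cases h : P s ω <;> simp [h]

lemma bd_count_h56 {ι : Type} (S : Finset ι) (P : ι → (I → L) → Prop)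
    [∀ ω, DecidablePred (fun s => P s ω)] (dep : I → ι → Prop)
    [∀ a, DecidablePred (dep a)]
    (hdep : ∀ s ∈ S, ∀ ω a l, ¬ dep a s → (P s (Function.update ω a l) ↔ P s ω)) (c : ℕ)
    (hc : ∀ a, (S.filter (dep a)).card ≤ c) :
    BD (fun _ => (c : ℝ)) (fun ω : I → L => ((S.filter (fun s => P s ω)).card : ℝ)) := by
  classical
  have h1 := bd_items_h56 S (fun s ω => ind_h56 (P s ω))
    (fun s _ ω => by unfold ind_h56; split_ifs <;> norm_num) dep (fun s hs ω a l h => by
      rw [propext (hdep s hs ω a l h)]) c hc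
  have e : (fun ω : I → L => ∑ s ∈ S, ind_h56 (P s ω)) =
      (fun ω : I → L => ((S.filter (fun s => P s ω)).card : ℝ)) := by
    funext ω
    rw [Finset.card_filter, Nat.cast_sum]
    refine Finset.sum_congr rfl fun x _ => ?_
    unfold ind_h56
    by_cases h : P x ω <;> simp [h]
  rw [← e]
  exact h1

end

end Pool.Agent.KZ
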