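import Pool.Agent.Lib_helper15.KZF.DefsA
import Pool.Agent.Lib_helper15.KZF.DefsN
import Pool.Agent.Lib_helper15.KZF.ED
import Pool.Agent.Lib_helper15.KZF.NB
import Pool.Agent.Lib_helper15.KZF.PR

/-!
# Random types: probabilities and dependence
-/

set_option autoImplicit false
set_option linter.unusedSectionVars false

namespace Pool.Agent.KZ

open Finset

variable {V C : Type} [Fintype V] [DecidableEq V] [Fintype C] [DecidableEq C]
variable {σ : C → Equiv.Perm V}

/-- ends of the `M₀` edges -/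
def uvp_h56 (u v : C → V) (p : C × Bool) : V := if p.2 then u p.1 else v p.1

/-- the pairs `{u i, v i}`, `i ∉ O` -/
structure Prs_h56 (σ : C → Equiv.Perm V) (O : Finset C) (z0 u v : C → V) : Prop where
  e0 : ∀ i ∉ O, ed σ i (z0 i) = s(u i, v i)
  dis : ∀ i ∉ O, ∀ j ∉ O, i ≠ j → Disjoint ({u i, v i} : Finset V) {u j, v j}
  ne : ∀ i ∉ O, u i ≠ v i

lemma prs_of_out1_h56 (h : HD σ) {O : Finset C} {z0 z1 u v v' w b : C → V} {ρ : V → ℕ}
    (H : Out1 σ O z0 z1 u v v' w b ρ) : Prs_h56 σ O z0 u v := by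
  refine ⟨H.e0, H.dis0, ?_⟩
  intro i hi e
  have h1 := H.e0 i hi
  rw [e] at h1
  unfold ed at h1
  rw [Sym2.eq_iff] at h1
  rcases h1 with ⟨h1, h2⟩ | ⟨h1, h2⟩
  · exact (hd_ne h i (z0 i)).1 (h2.trans h1.symm)
  · exact (hd_ne h i (z0 i)).1 (h2.trans h1.symm)

lemma cvd_iff_h56 {O : Finset C} {u v : C → V} {x : V} :
    x ∈ cvd O u v ↔ ∃ p : C × Bool, p.1 ∉ O ∧ x = uvp_h56 u v p := by
  classical
  unfold cvd
  simp only [Finset.mem_filter, Finset.mem_univ, true_and]
  constructor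
  · rintro ⟨i, hi, rfl | rfl⟩
    · exact ⟨(i, true), hi, rfl⟩
    · exact ⟨(i, false), hi, by unfold uvp_h56; simp⟩
  · rintro ⟨⟨i, b⟩, hi, rfl⟩
    refine ⟨i, hi, ?_⟩
    unfold uvp_h56
    cases b <;> simp

lemma uvp_inj_h56 {O : Finset C} {z0 u v : C → V} (P : Prs_h56 σ O z0 u v) {p p' : C × Bool}
    (hp : p.1 ∉ O) (hp' : p'.1 ∉ O) (e : uvp_h56 u v p = uvp_h56 u v p') : p = p' := by
  obtain ⟨i, s⟩ := p
  obtain ⟨j, t⟩ := p'
  simp only at hp hp'
  by_cases hij : i = j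
  · subst hij
    have := P.ne i hp
    unfold uvp_h56 at e
    cases s <;> cases t <;> simp at e ⊢
    · exact this e.symm
    · exact this e
  · exfalso
    have hd := P.dis i hp j hp' hij
    rw [Finset.disjoint_left] at hd
    refine hd (a := uvp_h56 u v (i, s)) ?_ ?_
    · unfold uvp_h56
      cases s <;> simp
    · rw [e]
      unfold uvp_h56
      cases t <;> simp

/-- type of `uvp p` as a spine vertex -/
def spt_h56 (b : Bool) : Fin 3 := if b then 2 else 1

/-- type of `uvp p` as a leaf -/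
def lft_h56 (b : Bool) : Fin 3 := if b then 1 else 2

section status
variable {O : Finset C} {z0 u v : C → V} {Uu : Finset V}

lemma spin_uvp_h56 (P : Prs_h56 σ O z0 u v) (hU : Disjoint Uu (cvd O u v)) (ty : C → Fin 3)
    {p : C × Bool} (hp : p.1 ∉ O) :
    spin (univ \ O) Uu u v ty (uvp_h56 u v p) ↔ ty p.1 = spt_h56 p.2 := by
  unfold spin
  constructor
  · rintro (⟨i, hi, ⟨h1, h2⟩ | ⟨h1, h2⟩⟩ | h)
    · rw [Finset.mem_sdiff] at hi
      have := uvp_inj_h56 P hp (p' := (i, false)) hi.2 (by rw [h2]; unfold uvp_h56; simp)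
      rw [this]
      exact h1
    · rw [Finset.mem_sdiff] at hi
      have := uvp_inj_h56 P hp (p' := (i, true)) hi.2 (by rw [h2]; unfold uvp_h56; simp)
      rw [this]
      exact h1
    · exfalso
      rw [Finset.disjoint_left] at hU
      exact hU h (cvd_iff_h56.2 ⟨p, hp, rfl⟩)
  · intro h
    left
    obtain ⟨i, b⟩ := p
    refine ⟨i, Finset.mem_sdiff.2 ⟨Finset.mem_univ _, hp⟩, ?_⟩
    unfold spt_h56 at h
    unfold uvp_h56
    cases b
    · left; simpa using h
    · right; simpa using h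

lemma leaf_uvp_h56 (P : Prs_h56 σ O z0 u v) (ty : C → Fin 3) {p : C × Bool} (hp : p.1 ∉ O) :
    leaf (univ \ O) u v ty (uvp_h56 u v p) ↔ ty p.1 = lft_h56 p.2 := by
  unfold leaf
  constructor
  · rintro ⟨i, hi, ⟨h1, h2⟩ | ⟨h1, h2⟩⟩
    · rw [Finset.mem_sdiff] at hi
      have := uvp_inj_h56 P hp (p' := (i, true)) hi.2 (by rw [h2]; unfold uvp_h56; simp)
      rw [this]
      exact h1
    · rw [Finset.mem_sdiff] at hi
      have := uvp_inj_h56 P hp (p' := (i, false)) hi.2 (by rw [h2]; unfold uvp_h56; simp)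
      rw [this]
      exact h1
  · intro h
    obtain ⟨i, b⟩ := p
    refine ⟨i, Finset.mem_sdiff.2 ⟨Finset.mem_univ _, hp⟩, ?_⟩
    unfold lft_h56 at h
    unfold uvp_h56
    cases b
    · right; simpa using h
    · left; simpa using h

lemma rese_uvp_h56 (P : Prs_h56 σ O z0 u v) (ty : C → Fin 3) {p : C × Bool} (hp : p.1 ∉ O) :
    rese (univ \ O) u v ty (uvp_h56 u v p) ↔ ty p.1 = 0 := by
  unfold rese
  constructor
  · rintro ⟨i, hi, h1, h2 | h2⟩
    · rw [Finset.mem_sdiff] at hi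
      have := uvp_inj_h56 P hp (p' := (i, true)) hi.2 (by rw [h2]; unfold uvp_h56; simp)
      rw [this]
      exact h1
    · rw [Finset.mem_sdiff] at hi
      have := uvp_inj_h56 P hp (p' := (i, false)) hi.2 (by rw [h2]; unfold uvp_h56; simp)
      rw [this]
      exact h1
  · intro h
    obtain ⟨i, b⟩ := p
    refine ⟨i, Finset.mem_sdiff.2 ⟨Finset.mem_univ _, hp⟩, h, ?_⟩
    unfold uvp_h56
    cases b
    · right; simp
    · left; simp

lemma spin_out_h56 (ty : C → Fin 3) {x : V} (hx : x ∉ cvd O u v) :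
    spin (univ \ O) Uu u v ty x ↔ x ∈ Uu := by
  unfold spin
  constructor
  · rintro (⟨i, hi, ⟨h1, h2⟩ | ⟨h1, h2⟩⟩ | h)
    · exact absurd (cvd_iff_h56.2 ⟨(i, false), (Finset.mem_sdiff.1 hi).2, by
        rw [h2]; unfold uvp_h56; simp⟩) hx
    · exact absurd (cvd_iff_h56.2 ⟨(i, true), (Finset.mem_sdiff.1 hi).2, by
        rw [h2]; unfold uvp_h56; simp⟩) hx
    · exact h
  · exact Or.inr

lemma leaf_cvd_h56 {ty : C → Fin 3} {x : V} (hx : leaf (univ \ O) u v ty x) :
    x ∈ cvd O u v := by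
  obtain ⟨i, hi, ⟨_, h⟩ | ⟨_, h⟩⟩ := hx
  · exact cvd_iff_h56.2 ⟨(i, true), (Finset.mem_sdiff.1 hi).2, by rw [h]; unfold uvp_h56; simp⟩
  · exact cvd_iff_h56.2 ⟨(i, false), (Finset.mem_sdiff.1 hi).2, by rw [h]; unfold uvp_h56; simp⟩

/-- dependence on the types -/
lemma spin_dep_h56 {Lv : Finset C} {ty ty' : C → Fin 3} {a : C} (h : ∀ i, i ≠ a → ty i = ty' i)
    {x : V} (h1 : x ≠ u a) (h2 : x ≠ v a) : spin Lv Uu u v ty x ↔ spin Lv Uu u v ty' x := by
  have key : ∀ ty ty' : C → Fin 3, (∀ i, i ≠ a → ty i = ty' i) →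
      spin Lv Uu u v ty x → spin Lv Uu u v ty' x := by
    rintro ty ty' h (⟨i, hi, h3⟩ | h3)
    · left
      refine ⟨i, hi, ?_⟩
      have hia : i ≠ a := by
        rintro rfl
        rcases h3 with h3 | h3
        · exact h2 h3.2
        · exact h1 h3.2
      rw [← h i hia]
      exact h3
    · exact Or.inr h3
  exact ⟨key ty ty' h, key ty' ty fun i hi => (h i hi).symm⟩

lemma leaf_dep_h56 {Lv : Finset C} {ty ty' : C → Fin 3} {a : C} (h : ∀ i, i ≠ a → ty i = ty' i)
    {x : V} (h1 : x ≠ u a) (h2 : x ≠ v a) : leaf Lv u v ty x ↔ leaf Lv u v ty' x := by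
  have key : ∀ ty ty' : C → Fin 3, (∀ i, i ≠ a → ty i = ty' i) →
      leaf Lv u v ty x → leaf Lv u v ty' x := by
    rintro ty ty' h ⟨i, hi, h3⟩
    refine ⟨i, hi, ?_⟩
    have hia : i ≠ a := by
      rintro rfl
      rcases h3 with h3 | h3
      · exact h1 h3.2
      · exact h2 h3.2
    rw [← h i hia]
    exact h3
  exact ⟨key ty ty' h, key ty' ty fun i hi => (h i hi).symm⟩

lemma rese_dep_h56 {Lv : Finset C} {ty ty' : C → Fin 3} {a : C} (h : ∀ i, i ≠ a → ty i = ty' i)
    {x : V} (h1 : x ≠ u a) (h2 : x ≠ v a) : rese Lv u v ty x ↔ rese Lv u v ty' x := by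
  have key : ∀ ty ty' : C → Fin 3, (∀ i, i ≠ a → ty i = ty' i) →
      rese Lv u v ty x → rese Lv u v ty' x := by
    rintro ty ty' h ⟨i, hi, h3, h4⟩
    refine ⟨i, hi, ?_, h4⟩
    have hia : i ≠ a := by
      rintro rfl
      rcases h4 with h4 | h4
      · exact h1 h4
      · exact h2 h4
    rw [← h i hia]
    exact h3
  exact ⟨key ty ty' h, key ty' ty fun i hi => (h i hi).symm⟩

end status

/-! ### probabilities -/

section prob

variable {O : Finset C} {z0 u v : C → V} {Uu : Finset V}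
variable {L : Type} [Fintype L] [Nonempty L]

open Classical in
/-- the law of the type of one colour -/
structure Law_h56 (τ : L → Fin 3) (δ' p' : ℝ) : Prop where
  l0 : ((univ.filter (fun l => τ l = 0)).card : ℝ) / (Fintype.card L : ℝ) = δ'
  l1 : ((univ.filter (fun l => τ l = 1)).card : ℝ) / (Fintype.card L : ℝ) = p'
  l2 : ((univ.filter (fun l => τ l = 2)).card : ℝ) / (Fintype.card L : ℝ) = p'
  d0 : 0 ≤ δ'
  d1 : δ' ≤ 1
  pd : p' = (1 - δ') / 2

variable {τ : L → Fin 3} {δ' p' : ℝ}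

lemma Law_h56.p_nonneg (T : Law_h56 τ δ' p') : 0 ≤ p' := by
  rw [T.pd]; linarith [T.d1]

lemma Law_h56.p_le (T : Law_h56 τ δ' p') : p' ≤ 1 / 2 := by
  rw [T.pd]; linarith [T.d0]

open Classical in
lemma Law_h56.spt (T : Law_h56 τ δ' p') (b : Bool) :
    ((univ.filter (fun l => τ l = spt_h56 b)).card : ℝ) / (Fintype.card L : ℝ) = p' := by
  unfold spt_h56
  cases b
  · simpa using T.l1
  · simpa using T.l2

open Classical in
lemma Law_h56.lft (T : Law_h56 τ δ' p') (b : Bool) :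
    ((univ.filter (fun l => τ l = lft_h56 b)).card : ℝ) / (Fintype.card L : ℝ) = p' := by
  unfold lft_h56
  cases b
  · simpa using T.l2
  · simpa using T.l1

/-- weight of a vertex: the probability to be on the spine -/
noncomputable def wt_h56 (O : Finset C) (u v : C → V) (Uu : Finset V) (p' : ℝ) (x : V) : ℝ :=
  letI := Classical.propDecidable
  if x ∈ cvd O u v then p' else if x ∈ Uu then 1 else 0

lemma prb_spin_h56 (P : Prs_h56 σ O z0 u v) (hU : Disjoint Uu (cvd O u v))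
    (T : Law_h56 τ δ' p') (x : V) :
    prb_h56 (fun ω : C → L => spin (univ \ O) Uu u v (fun i => τ (ω i)) x) =
      wt_h56 O u v Uu p' x := by
  classical
  unfold wt_h56
  by_cases hx : x ∈ cvd O u v
  · rw [if_pos hx]
    obtain ⟨p, hp, rfl⟩ := cvd_iff_h56.1 hx
    simp only [spin_uvp_h56 P hU _ hp]
    rw [prb_one_h56 p.1 (fun l => τ l = spt_h56 p.2)]
    convert T.spt p.2
  · rw [if_neg hx]
    by_cases hu : x ∈ Uu
    · rw [if_pos hu]
      exact prb_true_h56 fun ω => (spin_out_h56 _ hx).2 hu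
    · rw [if_neg hu]
      exact prb_false_h56 fun ω h => hu ((spin_out_h56 _ hx).1 h)

/-- `x`, `y` are mates -/
def mate_h56 (O : Finset C) (u v : C → V) (x y : V) : Prop := ∃ i ∉ O, s(x, y) = s(u i, v i)

lemma not_mate_h56 {x y : V} (hm : ¬ mate_h56 O u v x y) (hxy : x ≠ y) {p p' : C × Bool}
    (hp : p.1 ∉ O) (hx : x = uvp_h56 u v p) (hy : y = uvp_h56 u v p') : p.1 ≠ p'.1 := by
  intro e
  obtain ⟨i, s⟩ := p
  obtain ⟨j, t⟩ := p'
  simp only at e hp
  subst e
  unfold uvp_h56 at hx hy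
  cases s <;> cases t <;> simp at hx hy
  · exact hxy (hx.trans hy.symm)
  · exact hm ⟨i, hp, by rw [hx, hy, Sym2.eq_swap]⟩
  · exact hm ⟨i, hp, by rw [hx, hy]⟩
  · exact hxy (hx.trans hy.symm)

lemma prb_spin2_h56 (P : Prs_h56 σ O z0 u v) (hU : Disjoint Uu (cvd O u v))
    (T : Law_h56 τ δ' p') {x y : V} (hxy : x ≠ y) (hm : ¬ mate_h56 O u v x y) :
    prb_h56 (fun ω : C → L => spin (univ \ O) Uu u v (fun i => τ (ω i)) x ∧
      spin (univ \ O) Uu u v (fun i => τ (ω i)) y) =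
      wt_h56 O u v Uu p' x * wt_h56 O u v Uu p' y := by
  classical
  by_cases hx : x ∈ cvd O u v
  · by_cases hy : y ∈ cvd O u v
    · unfold wt_h56
      rw [if_pos hx, if_pos hy]
      obtain ⟨p, hp, ex⟩ := cvd_iff_h56.1 hx
      obtain ⟨p', hp', ey⟩ := cvd_iff_h56.1 hy
      have hne := not_mate_h56 hm hxy hp ex ey
      simp only [ex, ey, spin_uvp_h56 P hU _ hp, spin_uvp_h56 P hU _ hp']
      rw [prb_two_h56 hne (fun l => τ l = spt_h56 p.2) (fun l => τ l = spt_h56 p'.2)]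
      congr 1
      · convert T.spt p.2
      · convert T.spt p'.2
    · by_cases hu : y ∈ Uu
      · have e : (fun ω : C → L => spin (univ \ O) Uu u v (fun i => τ (ω i)) x ∧
            spin (univ \ O) Uu u v (fun i => τ (ω i)) y) =
            fun ω => spin (univ \ O) Uu u v (fun i => τ (ω i)) x := by
          funext ω
          rw [spin_out_h56 _ hy]
          simp [hu]
        rw [e, prb_spin_h56 P hU T]
        have : wt_h56 O u v Uu p' y = 1 := by
          unfold wt_h56; rw [if_neg hy, if_pos hu]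
        rw [this, mul_one]
      · have : wt_h56 O u v Uu p' y = 0 := by
          unfold wt_h56; rw [if_neg hy, if_neg hu]
        rw [this, mul_zero]
        exact prb_false_h56 fun ω h => hu ((spin_out_h56 _ hy).1 h.2)
  · by_cases hu : x ∈ Uu
    · have e : (fun ω : C → L => spin (univ \ O) Uu u v (fun i => τ (ω i)) x ∧
          spin (univ \ O) Uu u v (fun i => τ (ω i)) y) =
          fun ω => spin (univ \ O) Uu u v (fun i => τ (ω i)) y := by
        funext ω
        rw [spin_out_h56 _ hx]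
        simp [hu]
      rw [e, prb_spin_h56 P hU T]
      have : wt_h56 O u v Uu p' x = 1 := by
        unfold wt_h56; rw [if_neg hx, if_pos hu]
      rw [this, one_mul]
    · have : wt_h56 O u v Uu p' x = 0 := by
        unfold wt_h56; rw [if_neg hx, if_neg hu]
      rw [this, zero_mul]
      exact prb_false_h56 fun ω h => hu ((spin_out_h56 _ hx).1 h.1)

lemma prb_leaf_h56 (P : Prs_h56 σ O z0 u v) (T : Law_h56 τ δ' p') {x : V}
    (hx : x ∈ cvd O u v) :
    prb_h56 (fun ω : C → L => leaf (univ \ O) u v (fun i => τ (ω i)) x) = p' := by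
  classical
  obtain ⟨p, hp, rfl⟩ := cvd_iff_h56.1 hx
  simp only [leaf_uvp_h56 P _ hp]
  rw [prb_one_h56 p.1 (fun l => τ l = lft_h56 p.2)]
  convert T.lft p.2

lemma prb_leaf2_h56 (P : Prs_h56 σ O z0 u v) (T : Law_h56 τ δ' p') {x y : V} (hxy : x ≠ y)
    (hm : ¬ mate_h56 O u v x y) (hx : x ∈ cvd O u v) (hy : y ∈ cvd O u v) :
    prb_h56 (fun ω : C → L => leaf (univ \ O) u v (fun i => τ (ω i)) x ∧
      leaf (univ \ O) u v (fun i => τ (ω i)) y) = p' ^ 2 := by
  classical
  obtain ⟨p, hp, ex⟩ := cvd_iff_h56.1 hx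
  obtain ⟨p', hp', ey⟩ := cvd_iff_h56.1 hy
  have hne := not_mate_h56 hm hxy hp ex ey
  simp only [ex, ey, leaf_uvp_h56 P _ hp, leaf_uvp_h56 P _ hp']
  rw [prb_two_h56 hne (fun l => τ l = lft_h56 p.2) (fun l => τ l = lft_h56 p'.2), pow_two]
  congr 1
  · convert T.lft p.2
  · convert T.lft p'.2

/-- several vertices in the reserve -/
lemma prb_rese_h56 (P : Prs_h56 σ O z0 u v) (T : Law_h56 τ δ' p') (X : Finset V) {k : ℕ}
    (hk : X.card ≤ k) (hX : ∀ x ∈ X, x ∈ cvd O u v) :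
    δ' ^ k ≤ prb_h56 (fun ω : C → L => ∀ x ∈ X, rese (univ \ O) u v (fun i => τ (ω i)) x) := by
  classical
  rcases X.eq_empty_or_nonempty with rfl | ⟨x0, hx0⟩
  · rw [prb_true_h56 fun ω => by simp]
    exact pow_le_one₀ T.d0 T.d1
  have hne : Nonempty (C × Bool) := ⟨(cvd_iff_h56.1 (hX x0 hx0)).choose⟩
  choose! pf hpf using fun x hx => cvd_iff_h56.1 (hX x hx)
  have e : (fun ω : C → L => ∀ x ∈ X, rese (univ \ O) u v (fun i => τ (ω i)) x) =
      fun ω => ∀ a ∈ X.image (fun x => (pf x).1), τ (ω a) = 0 := by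
    funext ω
    rw [Finset.forall_mem_image]
    apply propext
    refine forall₂_congr fun x hx => ?_
    have h1 := hpf x hx
    conv_lhs => rw [h1.2]
    exact rese_uvp_h56 P _ h1.1
  rw [e, prb_all_h56 (X.image (fun x => (pf x).1)) (fun l => τ l = 0)]
  have h0 : ((univ.filter (fun l => τ l = 0)).card : ℝ) / (Fintype.card L : ℝ) = δ' := by
    convert T.l0
  have h1 : ∀ inst : DecidablePred (fun l => τ l = 0),
      (((@Finset.filter L (fun l => τ l = 0) inst univ).card : ℝ) / (Fintype.card L : ℝ)) = δ' := by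
    intro inst
    convert T.l0
  rw [h1]
  refine pow_le_pow_of_le_one T.d0 T.d1 ?_
  exact Finset.card_image_le.trans hk

end prob

end Pool.Agent.KZ
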