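import Pool.Agent.Lib_helper15.KZF.DefsA
import Pool.Agent.Lib_helper15.KZF.DefsN
import Pool.Agent.Lib_helper15.KZF.ED
import Pool.Agent.Lib_helper15.KZF.T_TA

/-!
# Random types: expectations
-/

set_option autoImplicit false
set_option linter.unusedSectionVars false

namespace Pool.Agent.KZ

open Finset

variable {V C : Type} [Fintype V] [DecidableEq V] [Fintype C] [DecidableEq C]
variable {σ : C → Equiv.Perm V} {O : Finset C} {z0 u v : C → V}
variable {L : Type} [Fintype L] [Nonempty L] {τ : L → Fin 3} {δ' p' : ℝ}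
variable {κ ε₀ : ℝ} {cl : C → Fin 3}

/-- uncovered usable vertices -/
noncomputable def Uf_h56 (O : Finset C) (u v : C → V) (full : Bool) : Finset V :=
  if full then univ \ cvd O u v else ∅

/-- the value of the weight outside of the covered vertices -/
noncomputable def ef_h56 (full : Bool) : ℝ := if full then 1 else 0

lemma Uf_disj_h56 (full : Bool) : Disjoint (Uf_h56 O u v full) (cvd O u v) := by
  unfold Uf_h56
  cases full
  · simp
  · simpa using Finset.sdiff_disjoint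

lemma wt_eq_h56 (full : Bool) (x : V) :
    wt_h56 O u v (Uf_h56 O u v full) p' x =
      ef_h56 full + (p' - ef_h56 full) * ind_h56 (x ∈ cvd O u v) := by
  classical
  unfold wt_h56 ind_h56 ef_h56 Uf_h56
  by_cases hx : x ∈ cvd O u v <;> cases full <;> simp [hx]

lemma sum_ind_h56 {ι : Type} (S : Finset ι) (P : ι → Prop) [DecidablePred P] :
    ∑ s ∈ S, ind_h56 (P s) = ((S.filter P).card : ℝ) := by
  classical
  rw [Finset.card_filter, Nat.cast_sum]
  refine Finset.sum_congr rfl fun x _ => ?_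
  unfold ind_h56
  by_cases h : P x <;> simp [h]

lemma ind_nonneg_h56 (P : Prop) : 0 ≤ ind_h56 P := by
  unfold ind_h56; split_ifs <;> norm_num

lemma ind_le_one_h56 (P : Prop) : ind_h56 P ≤ 1 := by
  unfold ind_h56; split_ifs <;> norm_num

lemma ind_true_h56 {P : Prop} (h : P) : ind_h56 P = 1 := by
  unfold ind_h56; rw [if_pos h]

lemma ind_false_h56 {P : Prop} (h : ¬ P) : ind_h56 P = 0 := by
  unfold ind_h56; rw [if_neg h]

lemma mate_arc_h56 (h : HD σ) (P : Prs_h56 σ O z0 u v) {i : C} {y : V}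
    (hm : mate_h56 O u v y (σ i y)) : y = z0 i := by
  obtain ⟨j, hj, e⟩ := hm
  rw [← P.e0 j hj] at e
  have := ed_inj h (i := i) (j := j) (x := y) (y := z0 j) e
  rw [this.1]
  exact this.2

/-- expectation of the number of spine-spine edges on an arc -/
lemma E1_h56 (h : HD σ) (P : Prs_h56 σ O z0 u v) (T : Law_h56 τ δ' p') (full : Bool)
    (R : Reg σ (cvd O u v) κ ε₀ cl) (he0 : 0 ≤ ε₀) (i : C) (x : V)
    {Lx : ℕ} (hL : Lx ≤ Fintype.card V) :
    (ef_h56 full + (p' - ef_h56 full) * κ) ^ 2 * Lx - 3 * ε₀ * Fintype.card V - 1 ≤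
      ∑ r ∈ range Lx, prb_h56 (fun ω : C → L =>
        spin (univ \ O) (Uf_h56 O u v full) u v (fun i => τ (ω i)) ((σ i ^ r) x) ∧
        spin (univ \ O) (Uf_h56 O u v full) u v (fun i => τ (ω i)) ((σ i ^ (r + 1)) x)) := by
  classical
  set S := cvd O u v with hS
  set e := ef_h56 full with hedef
  have hp0 := T.p_nonneg
  have hp2 := T.p_le
  have hwt : ∀ y, wt_h56 O u v (Uf_h56 O u v full) p' y = e + (p' - e) * ind_h56 (y ∈ S) :=
    fun y => wt_eq_h56 full y
  have he : e = 0 ∨ e = 1 := by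
    rw [hedef]; unfold ef_h56; cases full <;> simp
  have hw01 : ∀ y, 0 ≤ wt_h56 O u v (Uf_h56 O u v full) p' y ∧
      wt_h56 O u v (Uf_h56 O u v full) p' y ≤ 1 := by
    intro y
    rw [hwt]
    have h1 := ind_nonneg_h56 (y ∈ S)
    have h2 := ind_le_one_h56 (y ∈ S)
    rcases he with h' | h' <;> rw [h'] <;> constructor <;> nlinarith
  -- termwise bound
  have hterm : ∀ r ∈ range Lx, (e + (p' - e) * ind_h56 ((σ i ^ r) x ∈ S)) *
      (e + (p' - e) * ind_h56 ((σ i ^ (r + 1)) x ∈ S)) - ind_h56 ((σ i ^ r) x = z0 i) ≤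
      prb_h56 (fun ω : C → L =>
        spin (univ \ O) (Uf_h56 O u v full) u v (fun i => τ (ω i)) ((σ i ^ r) x) ∧
        spin (univ \ O) (Uf_h56 O u v full) u v (fun i => τ (ω i)) ((σ i ^ (r + 1)) x)) := by
    intro r _
    rw [← hwt, ← hwt]
    by_cases hz : (σ i ^ r) x = z0 i
    · rw [ind_true_h56 hz]
      have h1 := hw01 ((σ i ^ r) x)
      have h2 := hw01 ((σ i ^ (r + 1)) x)
      have h3 := prb_nonneg_h56 (fun ω : C → L =>
        spin (univ \ O) (Uf_h56 O u v full) u v (fun i => τ (ω i)) ((σ i ^ r) x) ∧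
        spin (univ \ O) (Uf_h56 O u v full) u v (fun i => τ (ω i)) ((σ i ^ (r + 1)) x))
      nlinarith
    · rw [ind_false_h56 hz, sub_zero]
      rw [prb_spin2_h56 P (Uf_disj_h56 full) T]
      · rw [nb_arc_succ_h56]
        exact fun e => (hd_ne h i _).1 e.symm
      · rw [nb_arc_succ_h56]
        exact fun hm => hz (mate_arc_h56 h P hm)
  refine le_trans ?_ (Finset.sum_le_sum hterm)
  rw [Finset.sum_sub_distrib]
  have hone : ∑ r ∈ range Lx, ind_h56 ((σ i ^ r) x = z0 i) ≤ 1 := by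
    rw [sum_ind_h56]
    exact_mod_cast nb_arc_fiber_h56 h i x (z0 i) hL
  have hexp : ∑ r ∈ range Lx, (e + (p' - e) * ind_h56 ((σ i ^ r) x ∈ S)) *
      (e + (p' - e) * ind_h56 ((σ i ^ (r + 1)) x ∈ S)) =
      e ^ 2 * Lx + e * (p' - e) * (((range Lx).filter (fun r => (σ i ^ r) x ∈ S)).card +
        ((range Lx).filter (fun r => (σ i ^ (r + 1)) x ∈ S)).card) +
      (p' - e) ^ 2 * ((range Lx).filter (fun r => (σ i ^ r) x ∈ S ∧
        (σ i ^ (r + 1)) x ∈ S)).card := by
    rw [← sum_ind_h56 (range Lx) (fun r => (σ i ^ r) x ∈ S),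
      ← sum_ind_h56 (range Lx) (fun r => (σ i ^ (r + 1)) x ∈ S),
      ← sum_ind_h56 (range Lx) (fun r => (σ i ^ r) x ∈ S ∧ (σ i ^ (r + 1)) x ∈ S)]
    have h1 : (e ^ 2 * Lx : ℝ) = ∑ r ∈ range Lx, e ^ 2 := by
      rw [Finset.sum_const, Finset.card_range, nsmul_eq_mul, mul_comm]
    rw [h1, ← Finset.sum_add_distrib, Finset.mul_sum, Finset.mul_sum, ← Finset.sum_add_distrib,
      ← Finset.sum_add_distrib]
    refine Finset.sum_congr rfl fun r _ => ?_
    rw [ind_and_h56]
    ring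
  rw [hexp]
  have r1 := abs_le.1 (R.arc1 i x Lx hL)
  have r2 := abs_le.1 (R.arc1 i (σ i x) Lx hL)
  have r3 := abs_le.1 (R.arc2 i x Lx hL)
  have hs : ∀ r, (σ i ^ r) (σ i x) = (σ i ^ (r + 1)) x := by
    intro r; rw [pow_succ, Equiv.Perm.mul_apply]
  simp only [hs] at r2
  have hN : (0 : ℝ) ≤ Fintype.card V := Nat.cast_nonneg _
  have hL0 : (0 : ℝ) ≤ Lx := Nat.cast_nonneg _
  have hεN : 0 ≤ ε₀ * Fintype.card V := mul_nonneg he0 hN
  -- abbreviations
  set s1 : ℝ := (((range Lx).filter (fun r => (σ i ^ r) x ∈ S)).card : ℝ) with hs1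
  set s2 : ℝ := (((range Lx).filter (fun r => (σ i ^ (r + 1)) x ∈ S)).card : ℝ) with hs2
  set a : ℝ := (((range Lx).filter (fun r => (σ i ^ r) x ∈ S ∧
    (σ i ^ (r + 1)) x ∈ S)).card : ℝ) with ha
  rcases he with h' | h' <;> rw [h']
  · have h1 : p' ^ 2 * (κ ^ 2 * Lx - ε₀ * Fintype.card V) ≤ p' ^ 2 * a :=
      mul_le_mul_of_nonneg_left (by linarith [r3.1]) (sq_nonneg _)
    have h2 : p' ^ 2 * (ε₀ * Fintype.card V) ≤ 1 * (ε₀ * Fintype.card V) :=
      mul_le_mul_of_nonneg_right (by nlinarith) hεN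
    have h3 : (0 + (p' - 0) * κ) ^ 2 * (Lx : ℝ) = p' ^ 2 * (κ ^ 2 * Lx) := by ring
    rw [h3]
    nlinarith
  · have h0 : 0 ≤ 1 - p' := by linarith
    have h1 : (1 - p') ^ 2 * (κ ^ 2 * Lx - ε₀ * Fintype.card V) ≤ (1 - p') ^ 2 * a :=
      mul_le_mul_of_nonneg_left (by linarith [r3.1]) (sq_nonneg _)
    have h2 : (1 - p') * (s1 + s2) ≤ (1 - p') * (2 * (κ * Lx) + 2 * (ε₀ * Fintype.card V)) :=
      mul_le_mul_of_nonneg_left (by linarith [r1.2, r2.2]) h0
    have h3 : (1 - p') ^ 2 * (ε₀ * Fintype.card V) ≤ 1 * (ε₀ * Fintype.card V) :=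
      mul_le_mul_of_nonneg_right (by nlinarith) hεN
    have h4 : (1 - p') * (2 * (ε₀ * Fintype.card V)) ≤ 1 * (2 * (ε₀ * Fintype.card V)) :=
      mul_le_mul_of_nonneg_right (by linarith) (by linarith)
    have h5 : (1 + (p' - 1) * κ) ^ 2 * (Lx : ℝ) =
        Lx - (1 - p') * (2 * (κ * Lx)) + (1 - p') ^ 2 * (κ ^ 2 * Lx) := by ring
    rw [h5]
    nlinarith

lemma card_cl_h56 (k : Fin 3) : ((univ : Finset (C × Bool)).filter (fun p => cl p.1 = k)).card =
    2 * (univ.filter (fun i => cl i = k)).card := by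
  classical
  have : (univ : Finset (C × Bool)).filter (fun p => cl p.1 = k) =
      (univ.filter (fun i => cl i = k)) ×ˢ (univ : Finset Bool) := by
    ext p; simp
  rw [this, Finset.card_product, Finset.card_univ, Fintype.card_bool, mul_comm]

/-- expectation of the number of spine neighbours -/
lemma E2_h56 (P : Prs_h56 σ O z0 u v) (T : Law_h56 τ δ' p') (full : Bool)
    (R : Reg σ (cvd O u v) κ ε₀ cl) (he0 : 0 ≤ ε₀) (y : V) (k : Fin 3) :
    ∑ p ∈ (univ : Finset (C × Bool)).filter (fun p => cl p.1 = k), prb_h56 (fun ω : C → L =>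
        spin (univ \ O) (Uf_h56 O u v full) u v (fun i => τ (ω i)) (nb σ p y)) ≤
      2 * (ef_h56 full + (p' - ef_h56 full) * κ) * (univ.filter (fun i => cl i = k)).card +
        ε₀ * Fintype.card V := by
  classical
  set S := cvd O u v with hS
  set e := ef_h56 full with hedef
  have hp0 := T.p_nonneg
  have hp2 := T.p_le
  have he : e = 0 ∨ e = 1 := by
    rw [hedef]; unfold ef_h56; cases full <;> simp
  have hN : (0 : ℝ) ≤ Fintype.card V := Nat.cast_nonneg _
  have hεN : 0 ≤ ε₀ * Fintype.card V := mul_nonneg he0 hN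
  have h1 : ∑ p ∈ (univ : Finset (C × Bool)).filter (fun p => cl p.1 = k),
      prb_h56 (fun ω : C → L =>
        spin (univ \ O) (Uf_h56 O u v full) u v (fun i => τ (ω i)) (nb σ p y)) =
      e * (2 * (univ.filter (fun i => cl i = k)).card) + (p' - e) *
        (((univ : Finset (C × Bool)).filter (fun p => cl p.1 = k ∧ nb σ p y ∈ S)).card : ℝ) := by
    rw [← Finset.filter_filter, ← sum_ind_h56 _ (fun p : C × Bool => nb σ p y ∈ S)]
    have h2 : e * (2 * ((univ.filter (fun i => cl i = k)).card : ℝ)) =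
        ∑ p ∈ (univ : Finset (C × Bool)).filter (fun p => cl p.1 = k), e := by
      rw [Finset.sum_const, card_cl_h56, nsmul_eq_mul]
      push_cast
      ring
    rw [h2, Finset.mul_sum, ← Finset.sum_add_distrib]
    refine Finset.sum_congr rfl fun p _ => ?_
    rw [prb_spin_h56 P (Uf_disj_h56 full) T, wt_eq_h56]
  rw [h1]
  have r := abs_le.1 (R.deg y k)
  set dg : ℝ := (((univ : Finset (C × Bool)).filter (fun p => cl p.1 = k ∧ nb σ p y ∈ S)).card : ℝ)
  set nk : ℝ := ((univ.filter (fun i => cl i = k)).card : ℝ)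
  rcases he with h' | h' <;> rw [h']
  · have h3 : p' * dg ≤ p' * (2 * κ * nk + ε₀ * Fintype.card V) :=
      mul_le_mul_of_nonneg_left (by linarith [r.2]) hp0
    have h4 : p' * (ε₀ * Fintype.card V) ≤ 1 * (ε₀ * Fintype.card V) :=
      mul_le_mul_of_nonneg_right (by linarith) hεN
    nlinarith
  · have h3 : (1 - p') * (2 * κ * nk - ε₀ * Fintype.card V) ≤ (1 - p') * dg :=
      mul_le_mul_of_nonneg_left (by linarith [r.1]) (by linarith)
    have h4 : (1 - p') * (ε₀ * Fintype.card V) ≤ 1 * (ε₀ * Fintype.card V) :=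
      mul_le_mul_of_nonneg_right (by linarith) hεN
    nlinarith

/-- expectation of the number of leaf common neighbours -/
lemma E3_h56 (P : Prs_h56 σ O z0 u v) (T : Law_h56 τ δ' p')
    (R : Reg σ (cvd O u v) κ ε₀ cl) {x y : V} (hxy : x ≠ y) :
    p' * (κ * cdD σ x y - ε₀ * Fintype.card V) ≤
      ∑ w : V, prb_h56 (fun ω : C → L =>
        leaf (univ \ O) u v (fun i => τ (ω i)) w ∧ dcol σ x w y) := by
  classical
  obtain ⟨T', hT1, hT2, hT3⟩ := R.codeg x y hxy
  have h1 : ∑ w ∈ T', prb_h56 (fun ω : C → L =>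
        leaf (univ \ O) u v (fun i => τ (ω i)) w ∧ dcol σ x w y) ≤
      ∑ w : V, prb_h56 (fun ω : C → L =>
        leaf (univ \ O) u v (fun i => τ (ω i)) w ∧ dcol σ x w y) :=
    Finset.sum_le_sum_of_subset_of_nonneg (Finset.subset_univ _)
      fun _ _ _ => prb_nonneg_h56 _
  refine le_trans ?_ h1
  have h2 : ∑ w ∈ T', prb_h56 (fun ω : C → L =>
        leaf (univ \ O) u v (fun i => τ (ω i)) w ∧ dcol σ x w y) = ∑ w ∈ T', p' := by
    refine Finset.sum_congr rfl fun w hw => ?_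
    rw [← prb_leaf_h56 P T (hT1 hw)]
    congr 1
    funext ω
    exact propext ⟨fun h => h.1, fun h => ⟨h, hT2 w hw⟩⟩
  rw [h2, Finset.sum_const, nsmul_eq_mul, mul_comm]
  exact mul_le_mul_of_nonneg_right hT3 T.p_nonneg

/-- expectation of the number of leaf neighbours -/
lemma E3'_h56 (P : Prs_h56 σ O z0 u v) (T : Law_h56 τ δ' p')
    (R : Reg σ (cvd O u v) κ ε₀ cl) (x : V) :
    p' * (2 * κ * Fintype.card C - 3 * ε₀ * Fintype.card V) ≤
      ∑ p : C × Bool, prb_h56 (fun ω : C → L =>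
        leaf (univ \ O) u v (fun i => τ (ω i)) (nb σ p x)) := by
  classical
  set S := cvd O u v with hS
  have h1 : ∑ p ∈ (univ : Finset (C × Bool)).filter (fun p => nb σ p x ∈ S),
      prb_h56 (fun ω : C → L => leaf (univ \ O) u v (fun i => τ (ω i)) (nb σ p x)) ≤
      ∑ p : C × Bool, prb_h56 (fun ω : C → L =>
        leaf (univ \ O) u v (fun i => τ (ω i)) (nb σ p x)) :=
    Finset.sum_le_sum_of_subset_of_nonneg (Finset.subset_univ _)
      fun _ _ _ => prb_nonneg_h56 _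
  refine le_trans ?_ h1
  have h2 : ∑ p ∈ (univ : Finset (C × Bool)).filter (fun p => nb σ p x ∈ S),
      prb_h56 (fun ω : C → L => leaf (univ \ O) u v (fun i => τ (ω i)) (nb σ p x)) =
      ∑ p ∈ (univ : Finset (C × Bool)).filter (fun p => nb σ p x ∈ S), p' := by
    refine Finset.sum_congr rfl fun p hp => ?_
    exact prb_leaf_h56 P T (Finset.mem_filter.1 hp).2
  rw [h2, Finset.sum_const, nsmul_eq_mul, mul_comm p']
  refine mul_le_mul_of_nonneg_right ?_ T.p_nonneg
  -- split by the classes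
  have h3 : ∀ k : Fin 3, 2 * κ * (univ.filter (fun i => cl i = k)).card - ε₀ * Fintype.card V ≤
      (((univ : Finset (C × Bool)).filter (fun p => cl p.1 = k ∧ nb σ p x ∈ S)).card : ℝ) := by
    intro k
    have := (abs_le.1 (R.deg x k)).1
    linarith
  have h4 : (((univ : Finset (C × Bool)).filter (fun p => nb σ p x ∈ S)).card : ℝ) =
      ∑ k : Fin 3, (((univ : Finset (C × Bool)).filter
        (fun p => cl p.1 = k ∧ nb σ p x ∈ S)).card : ℝ) := by
    rw [← Nat.cast_sum, Nat.cast_inj]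
    rw [Finset.card_eq_sum_card_fiberwise (f := fun p : C × Bool => cl p.1) (t := univ)
      (fun p _ => by simp)]
    refine Finset.sum_congr rfl fun k _ => ?_
    rw [Finset.filter_filter]
    congr 1
    ext p
    simp [and_comm]
  have h5 : (Fintype.card C : ℝ) = ∑ k : Fin 3, ((univ.filter (fun i => cl i = k)).card : ℝ) := by
    rw [← Nat.cast_sum, Nat.cast_inj, ← Finset.card_univ]
    exact Finset.card_eq_sum_card_fiberwise (fun p _ => by simp)
  rw [h4, h5]
  have h6 := Finset.sum_le_sum (s := (univ : Finset (Fin 3))) fun k _ => h3 k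
  refine le_trans (le_of_eq ?_) h6
  rw [Finset.sum_sub_distrib, ← Finset.mul_sum, Finset.sum_const, Finset.card_univ,
    Fintype.card_fin]
  simp
  ring

lemma prb_rese2_h56 (P : Prs_h56 σ O z0 u v) (T : Law_h56 τ δ' p') {x y : V}
    (hx : x ∈ cvd O u v) (hy : y ∈ cvd O u v) :
    δ' ^ 2 ≤ prb_h56 (fun ω : C → L => rese (univ \ O) u v (fun i => τ (ω i)) x ∧
      rese (univ \ O) u v (fun i => τ (ω i)) y) := by
  classical
  have := prb_rese_h56 P T ({x, y} : Finset V) (k := 2) Finset.card_le_two (by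
    intro z hz
    simp only [Finset.mem_insert, Finset.mem_singleton] at hz
    rcases hz with rfl | rfl
    · exact hx
    · exact hy)
  refine this.trans (prb_mono_h56 fun ω h => ⟨h x (by simp), h y (by simp)⟩)

lemma prb_rese3_h56 (P : Prs_h56 σ O z0 u v) (T : Law_h56 τ δ' p') {x y z : V}
    (hx : x ∈ cvd O u v) (hy : y ∈ cvd O u v) (hz : z ∈ cvd O u v) :
    δ' ^ 3 ≤ prb_h56 (fun ω : C → L => rese (univ \ O) u v (fun i => τ (ω i)) x ∧
      rese (univ \ O) u v (fun i => τ (ω i)) y ∧ rese (univ \ O) u v (fun i => τ (ω i)) z) := by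
  classical
  have := prb_rese_h56 P T ({x, y, z} : Finset V) (k := 3) Finset.card_le_three (by
    intro t ht
    simp only [Finset.mem_insert, Finset.mem_singleton] at ht
    rcases ht with rfl | rfl | rfl
    · exact hx
    · exact hy
    · exact hz)
  refine this.trans (prb_mono_h56 fun ω h => ⟨h x (by simp), h y (by simp), h z (by simp)⟩)

/-- expectation of the number of reserve edges on an arc -/
lemma E4_h56 (h : HD σ) (P : Prs_h56 σ O z0 u v) (T : Law_h56 τ δ' p')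
    (R : Reg σ (cvd O u v) κ ε₀ cl) (i : C) (x : V)
    {Lx : ℕ} (hL : Lx ≤ Fintype.card V) :
    δ' ^ 2 * (κ ^ 2 * Lx - ε₀ * Fintype.card V) - 1 ≤
      ∑ r ∈ range Lx, prb_h56 (fun ω : C → L =>
        rese (univ \ O) u v (fun i => τ (ω i)) ((σ i ^ r) x) ∧
        rese (univ \ O) u v (fun i => τ (ω i)) ((σ i ^ (r + 1)) x) ∧
        s((σ i ^ r) x, (σ i ^ (r + 1)) x) ≠ s(u i, v i)) := by
  classical
  set S := cvd O u v with hS
  have hd1 : δ' ^ 2 ≤ 1 := pow_le_one₀ T.d0 T.d1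
  have hterm : ∀ r ∈ range Lx, δ' ^ 2 * ind_h56 ((σ i ^ r) x ∈ S ∧ (σ i ^ (r + 1)) x ∈ S) -
      ind_h56 (s((σ i ^ r) x, (σ i ^ (r + 1)) x) = s(u i, v i)) ≤
      prb_h56 (fun ω : C → L =>
        rese (univ \ O) u v (fun i => τ (ω i)) ((σ i ^ r) x) ∧
        rese (univ \ O) u v (fun i => τ (ω i)) ((σ i ^ (r + 1)) x) ∧
        s((σ i ^ r) x, (σ i ^ (r + 1)) x) ≠ s(u i, v i)) := by
    intro r _
    have h0 := prb_nonneg_h56 (fun ω : C → L =>
        rese (univ \ O) u v (fun i => τ (ω i)) ((σ i ^ r) x) ∧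
        rese (univ \ O) u v (fun i => τ (ω i)) ((σ i ^ (r + 1)) x) ∧
        s((σ i ^ r) x, (σ i ^ (r + 1)) x) ≠ s(u i, v i))
    have h1 := ind_le_one_h56 ((σ i ^ r) x ∈ S ∧ (σ i ^ (r + 1)) x ∈ S)
    have h1' := ind_nonneg_h56 ((σ i ^ r) x ∈ S ∧ (σ i ^ (r + 1)) x ∈ S)
    by_cases he : s((σ i ^ r) x, (σ i ^ (r + 1)) x) = s(u i, v i)
    · rw [ind_true_h56 he]
      nlinarith [sq_nonneg δ']
    · rw [ind_false_h56 he, sub_zero]
      by_cases hb : (σ i ^ r) x ∈ S ∧ (σ i ^ (r + 1)) x ∈ S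
      · rw [ind_true_h56 hb, mul_one]
        refine (prb_rese2_h56 P T hb.1 hb.2).trans (prb_mono_h56 fun ω h => ⟨h.1, h.2, he⟩)
      · rw [ind_false_h56 hb, mul_zero]
        exact h0
  refine le_trans ?_ (Finset.sum_le_sum hterm)
  rw [Finset.sum_sub_distrib, ← Finset.mul_sum, sum_ind_h56, sum_ind_h56]
  have h1 : (((range Lx).filter (fun r => s((σ i ^ r) x, (σ i ^ (r + 1)) x) =
      s(u i, v i))).card : ℝ) ≤ 1 := by
    have : ((range Lx).filter (fun r => s((σ i ^ r) x, (σ i ^ (r + 1)) x) =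
      s(u i, v i))).card ≤ 1 := by
      rw [Finset.card_le_one]
      intro r hr s hs
      rw [Finset.mem_filter, Finset.mem_range] at hr hs
      rw [nb_arc_succ_h56] at hr hs
      have e := ed_inj h (i := i) (j := i) (x := (σ i ^ r) x) (y := (σ i ^ s) x)
        (hr.2.trans hs.2.symm)
      exact nb_arc_inj_h56 h i x (by omega) (by omega) e.2
    exact_mod_cast this
  have r3 := (abs_le.1 (R.arc2 i x Lx hL)).1
  have h2 : δ' ^ 2 * (κ ^ 2 * Lx - ε₀ * Fintype.card V) ≤ δ' ^ 2 *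
      (((range Lx).filter (fun r => (σ i ^ r) x ∈ S ∧ (σ i ^ (r + 1)) x ∈ S)).card : ℝ) :=
    mul_le_mul_of_nonneg_left (by linarith) (sq_nonneg _)
  linarith

/-- expectation of the number of leaf-leaf edges -/
lemma E5_h56 (h : HD σ) (P : Prs_h56 σ O z0 u v) (T : Law_h56 τ δ' p')
    (R : Reg σ (cvd O u v) κ ε₀ cl) (i : C) :
    p' ^ 2 * (κ ^ 2 * Fintype.card V - ε₀ * Fintype.card V) - 1 ≤
      ∑ x : V, prb_h56 (fun ω : C → L =>
        leaf (univ \ O) u v (fun i => τ (ω i)) x ∧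
        leaf (univ \ O) u v (fun i => τ (ω i)) (σ i x)) := by
  classical
  set S := cvd O u v with hS
  have hp1 : p' ^ 2 ≤ 1 := by
    have h1 := T.p_nonneg
    have h2 := T.p_le
    nlinarith
  have hterm : ∀ x ∈ (univ : Finset V), p' ^ 2 * ind_h56 (x ∈ S ∧ σ i x ∈ S) -
      ind_h56 (x = z0 i) ≤
      prb_h56 (fun ω : C → L =>
        leaf (univ \ O) u v (fun i => τ (ω i)) x ∧
        leaf (univ \ O) u v (fun i => τ (ω i)) (σ i x)) := by
    intro x _
    have h0 := prb_nonneg_h56 (fun ω : C → L =>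
        leaf (univ \ O) u v (fun i => τ (ω i)) x ∧
        leaf (univ \ O) u v (fun i => τ (ω i)) (σ i x))
    have h1 := ind_le_one_h56 (x ∈ S ∧ σ i x ∈ S)
    have h1' := ind_nonneg_h56 (x ∈ S ∧ σ i x ∈ S)
    by_cases he : x = z0 i
    · rw [ind_true_h56 he]
      nlinarith [sq_nonneg p']
    · rw [ind_false_h56 he, sub_zero]
      by_cases hb : x ∈ S ∧ σ i x ∈ S
      · rw [ind_true_h56 hb, mul_one]
        rw [prb_leaf2_h56 P T (fun e => (hd_ne h i x).1 e.symm)
          (fun hm => he (mate_arc_h56 h P hm)) hb.1 hb.2]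
      · rw [ind_false_h56 hb, mul_zero]
        exact h0
  refine le_trans ?_ (Finset.sum_le_sum hterm)
  rw [Finset.sum_sub_distrib, ← Finset.mul_sum, sum_ind_h56, sum_ind_h56]
  have h1 : (((univ : Finset V).filter (fun x => x = z0 i)).card : ℝ) ≤ 1 := by
    rw [Finset.filter_eq' univ (z0 i), if_pos (Finset.mem_univ _), Finset.card_singleton]
    norm_num
  have hV : Nonempty V := Fintype.card_pos_iff.1 (by have := h.three; omega)
  obtain ⟨x0⟩ := hV
  have r3 := (abs_le.1 (R.arc2 i x0 (Fintype.card V) le_rfl)).1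
  have e1 : ((range (Fintype.card V)).filter (fun r => (σ i ^ r) x0 ∈ S ∧
      (σ i ^ (r + 1)) x0 ∈ S)).card = ((univ : Finset V).filter
        (fun x => x ∈ S ∧ σ i x ∈ S)).card := by
    rw [← nb_arc_count_h56 h i x0 (fun x => x ∈ S ∧ σ i x ∈ S)]
    simp only [nb_arc_succ_h56]
  rw [e1] at r3
  have h2 : p' ^ 2 * (κ ^ 2 * Fintype.card V - ε₀ * Fintype.card V) ≤ p' ^ 2 *
      (((univ : Finset V).filter (fun x => x ∈ S ∧ σ i x ∈ S)).card : ℝ) :=
    mul_le_mul_of_nonneg_left (by linarith) (sq_nonneg _)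
  linarith

lemma cvd_card_h56 (h : HD σ) (R : Reg σ (cvd O u v) κ ε₀ cl) (i : C) :
    ((univ \ cvd O u v).card : ℝ) ≤ (1 - κ + ε₀) * Fintype.card V := by
  classical
  have hV : Nonempty V := Fintype.card_pos_iff.1 (by have := h.three; omega)
  obtain ⟨x0⟩ := hV
  have r := (abs_le.1 (R.arc1 i x0 (Fintype.card V) le_rfl)).1
  rw [nb_arc_count_h56 h i x0 (fun x => x ∈ cvd O u v)] at r
  have e : (univ : Finset V).filter (fun x => x ∈ cvd O u v) = cvd O u v := by
    ext x; simp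
  rw [e] at r
  rw [Finset.card_sdiff_of_subset (Finset.subset_univ _), Nat.cast_sub
    (Finset.card_le_card (Finset.subset_univ _)), Finset.card_univ]
  linarith

/-- expectation of the number of reserve triples -/
lemma E6_h56 (h : HD σ) (P : Prs_h56 σ O z0 u v) (T : Law_h56 τ δ' p')
    (R : Reg σ (cvd O u v) κ ε₀ cl) (i : C) (Sx : Finset V) :
    δ' ^ 3 * (Sx.card - 3 * ((1 - κ + ε₀) * Fintype.card V)) ≤
      ∑ β ∈ Sx, prb_h56 (fun ω : C → L =>
        rese (univ \ O) u v (fun i => τ (ω i)) β ∧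
        rese (univ \ O) u v (fun i => τ (ω i)) (σ i β) ∧
        rese (univ \ O) u v (fun i => τ (ω i)) ((σ i)⁻¹ β)) := by
  classical
  set S := cvd O u v with hS
  have h1 : ∑ β ∈ Sx.filter (fun β => β ∈ S ∧ σ i β ∈ S ∧ (σ i)⁻¹ β ∈ S), δ' ^ 3 ≤
      ∑ β ∈ Sx, prb_h56 (fun ω : C → L =>
        rese (univ \ O) u v (fun i => τ (ω i)) β ∧
        rese (univ \ O) u v (fun i => τ (ω i)) (σ i β) ∧
        rese (univ \ O) u v (fun i => τ (ω i)) ((σ i)⁻¹ β)) := by
    rw [Finset.sum_filter]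
    refine Finset.sum_le_sum fun β _ => ?_
    split_ifs with hb
    · exact prb_rese3_h56 P T hb.1 hb.2.1 hb.2.2
    · exact prb_nonneg_h56 _
  refine le_trans ?_ h1
  rw [Finset.sum_const, nsmul_eq_mul, mul_comm]
  refine mul_le_mul_of_nonneg_right ?_ (pow_nonneg T.d0 _)
  -- the bad vertices
  have hbad : Sx.filter (fun β => ¬ (β ∈ S ∧ σ i β ∈ S ∧ (σ i)⁻¹ β ∈ S)) ⊆
      (univ \ S) ∪ ((univ \ S).image (fun y => (σ i)⁻¹ y) ∪ (univ \ S).image (fun y => σ i y)) := by
    intro β hβ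
    rw [Finset.mem_filter] at hβ
    simp only [Finset.mem_union, Finset.mem_sdiff, Finset.mem_univ, true_and, Finset.mem_image]
    by_cases b1 : β ∈ S
    · by_cases b2 : σ i β ∈ S
      · have b3 : (σ i)⁻¹ β ∉ S := fun h => hβ.2 ⟨b1, b2, h⟩
        exact Or.inr (Or.inr ⟨_, b3, by simp⟩)
      · exact Or.inr (Or.inl ⟨_, b2, by simp⟩)
    · exact Or.inl b1
  have c1 := Finset.card_le_card hbad
  have c2 := Finset.card_union_le (univ \ S)
    ((univ \ S).image (fun y => (σ i)⁻¹ y) ∪ (univ \ S).image (fun y => σ i y))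
  have c3 := Finset.card_union_le ((univ \ S).image (fun y => (σ i)⁻¹ y))
    ((univ \ S).image (fun y => σ i y))
  have c4 := Finset.card_image_le (s := univ \ S) (f := fun y => (σ i)⁻¹ y)
  have c5 := Finset.card_image_le (s := univ \ S) (f := fun y => σ i y)
  have c6 := Finset.card_filter_add_card_filter_not (s := Sx)
    (fun β => β ∈ S ∧ σ i β ∈ S ∧ (σ i)⁻¹ β ∈ S)
  have c7 := cvd_card_h56 h R i
  have c8 : (Sx.card : ℝ) ≤ ((Sx.filter (fun β => β ∈ S ∧ σ i β ∈ S ∧ (σ i)⁻¹ β ∈ S)).card : ℝ) +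
      3 * ((univ \ S).card : ℝ) := by
    have : Sx.card ≤ (Sx.filter (fun β => β ∈ S ∧ σ i β ∈ S ∧ (σ i)⁻¹ β ∈ S)).card +
      3 * (univ \ S).card := by omega
    exact_mod_cast this
  linarith

end Pool.Agent.KZ
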