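import Pool.Agent.Lib_helper15.KZF.DefsA
import Pool.Agent.Lib_helper15.KZF.DefsN
import Pool.Agent.Lib_helper15.KZF.T_TB

/-!
# Random types: existence
-/

set_option autoImplicit false
set_option linter.unusedSectionVars false

namespace Pool.Agent.KZ

open Finset

/-- there is a law with `δ ≤ δ' ≤ δ + η` -/
lemma law_exists_h56 (δ η : ℝ) (hδ : 0 < δ) (hδ1 : δ ≤ 1 / 4) (hη : 0 < η) :
    ∃ (M : ℕ) (τ : Fin (M + 1) × Bool → Fin 3) (δ' p' : ℝ), Law_h56 τ δ' p' ∧ δ ≤ δ' ∧
      δ' ≤ δ + η := by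
  classical
  obtain ⟨M, hM⟩ := exists_nat_gt (1 / η + 4)
  set a0 : ℕ := ⌈δ * (M + 1 : ℕ)⌉₊ with ha0
  have hM4 : (4 : ℝ) < M := by
    have : 0 < 1 / η := by positivity
    linarith
  have hMp : (0 : ℝ) < ((M + 1 : ℕ) : ℝ) := by positivity
  have h1 : δ * ((M + 1 : ℕ) : ℝ) ≤ a0 := Nat.le_ceil _
  have h2 : (a0 : ℝ) < δ * ((M + 1 : ℕ) : ℝ) + 1 := Nat.ceil_lt_add_one (by positivity)
  have h3 : (a0 : ℝ) ≤ ((M + 1 : ℕ) : ℝ) := by
    push_cast at h2 ⊢
    nlinarith
  have h4 : a0 ≤ M + 1 := by exact_mod_cast h3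
  set τ : Fin (M + 1) × Bool → Fin 3 :=
    fun l => if l.1.val < a0 then 0 else if l.2 then 1 else 2 with hτ
  have hc0 : (univ.filter (fun l => τ l = 0)).card = 2 * a0 := by
    have e : univ.filter (fun l => τ l = 0) =
        (univ.filter (fun a : Fin (M + 1) => a.val < a0)) ×ˢ (univ : Finset Bool) := by
      ext ⟨a, b⟩
      simp only [hτ, Finset.mem_filter, Finset.mem_univ, true_and, Finset.mem_product, and_true]
      by_cases h : a.val < a0
      · simp [h]
      · cases b <;> simp [h]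
    rw [e, Finset.card_product, Fin.card_filter_val_lt, Finset.card_univ, Fintype.card_bool,
      min_eq_right h4]
    ring
  have hge : (univ.filter (fun a : Fin (M + 1) => ¬ a.val < a0)).card = M + 1 - a0 := by
    have := Finset.card_filter_add_card_filter_not (s := (univ : Finset (Fin (M + 1))))
      (fun a => a.val < a0)
    rw [Fin.card_filter_val_lt, min_eq_right h4, Finset.card_univ, Fintype.card_fin] at this
    omega
  have hc1 : (univ.filter (fun l => τ l = 1)).card = M + 1 - a0 := by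
    have e : univ.filter (fun l => τ l = 1) =
        (univ.filter (fun a : Fin (M + 1) => ¬ a.val < a0)) ×ˢ ({true} : Finset Bool) := by
      ext ⟨a, b⟩
      simp only [hτ, Finset.mem_filter, Finset.mem_univ, true_and, Finset.mem_product,
        Finset.mem_singleton]
      by_cases h : a.val < a0
      · simp [h]
      · cases b <;> simp [h]
    rw [e, Finset.card_product, hge, Finset.card_singleton, mul_one]
  have hc2 : (univ.filter (fun l => τ l = 2)).card = M + 1 - a0 := by
    have e : univ.filter (fun l => τ l = 2) =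
        (univ.filter (fun a : Fin (M + 1) => ¬ a.val < a0)) ×ˢ ({false} : Finset Bool) := by
      ext ⟨a, b⟩
      simp only [hτ, Finset.mem_filter, Finset.mem_univ, true_and, Finset.mem_product,
        Finset.mem_singleton]
      by_cases h : a.val < a0
      · simp [h]
      · cases b <;> simp [h]
    rw [e, Finset.card_product, hge, Finset.card_singleton, mul_one]
  have hcL : (Fintype.card (Fin (M + 1) × Bool) : ℝ) = 2 * ((M + 1 : ℕ) : ℝ) := by
    rw [Fintype.card_prod, Fintype.card_fin, Fintype.card_bool]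
    push_cast
    ring
  refine ⟨M, τ, a0 / ((M + 1 : ℕ) : ℝ), (1 - a0 / ((M + 1 : ℕ) : ℝ)) / 2,
    ⟨?_, ?_, ?_, by positivity, ?_, rfl⟩, ?_, ?_⟩
  · rw [hcL]
    have : (((univ.filter (fun l => τ l = 0)).card : ℕ) : ℝ) = 2 * a0 := by
      exact_mod_cast hc0
    convert congrArg (· / (2 * ((M + 1 : ℕ) : ℝ))) this using 1
    field_simp
  · rw [hcL]
    have : (((univ.filter (fun l => τ l = 1)).card : ℕ) : ℝ) = ((M + 1 : ℕ) : ℝ) - a0 := by
      rw [hc1, Nat.cast_sub h4]
    convert congrArg (· / (2 * ((M + 1 : ℕ) : ℝ))) this using 1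
    field_simp
  · rw [hcL]
    have : (((univ.filter (fun l => τ l = 2)).card : ℕ) : ℝ) = ((M + 1 : ℕ) : ℝ) - a0 := by
      rw [hc2, Nat.cast_sub h4]
    convert congrArg (· / (2 * ((M + 1 : ℕ) : ℝ))) this using 1
    field_simp
  · rw [div_le_one hMp]
    exact h3
  · rw [le_div_iff₀ hMp]
    exact h1
  · rw [div_le_iff₀ hMp]
    have h5 : 1 ≤ η * ((M + 1 : ℕ) : ℝ) := by
      have : 1 / η < ((M + 1 : ℕ) : ℝ) := by push_cast; linarith
      rw [div_lt_iff₀ hη] at this
      linarith
    nlinarith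

end Pool.Agent.KZ
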