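import Pool.Agent.Lib_helper15.KZF.DefsA
import Pool.Agent.Lib_helper15.KZF.DefsN
import Pool.Agent.Lib_helper15.KZF.T_TC

/-!
# Random types: stage A (types only)
-/

set_option autoImplicit false
set_option linter.unusedSectionVars false

namespace Pool.Agent.KZ

open Finset

lemma card_or_h56 {ι : Type} (S : Finset ι) (P Q : ι → Prop) [DecidablePred P]
    [DecidablePred Q] [DecidablePred (fun s => P s ∨ Q s)] {a b : ℕ} (h1 : (S.filter P).card ≤ a)
    (h2 : (S.filter Q).card ≤ b) : (S.filter (fun s => P s ∨ Q s)).card ≤ a + b := by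
  classical
  have e : S.filter (fun s => P s ∨ Q s) ⊆ S.filter P ∪ S.filter Q := by
    intro x hx
    simp only [Finset.mem_filter, Finset.mem_union] at hx ⊢
    tauto
  have := (Finset.card_le_card e).trans (Finset.card_union_le _ _)
  omega

variable {V C : Type} [Fintype V] [DecidableEq V] [Fintype C] [DecidableEq C]
variable {σ : C → Equiv.Perm V} {O : Finset C} {z0 u v : C → V}
variable {L : Type} [Fintype L] [Nonempty L] {τ : L → Fin 3} {δ' p' : ℝ}
variable {κ ε₀ : ℝ} {cl : C → Fin 3} {Lv : Finset C} {Uu : Finset V}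

lemma upd_ty_h56 (τ : L → Fin 3) (ω : C → L) (a : C) (l : L) :
    ∀ i, i ≠ a → (fun i => τ (Function.update ω a l i)) i = (fun i => τ (ω i)) i := by
  intro i hi
  simp only
  rw [Function.update_of_ne hi]

open Classical in
lemma B1_h56 (h : HD σ) (i : C) (x : V) {Lx : ℕ} (hL : Lx ≤ Fintype.card V) :
    BD (fun _ => ((6 : ℕ) : ℝ)) (fun ω : C → L => (((range Lx).filter (fun r =>
        spin Lv Uu u v (fun i => τ (ω i)) ((σ i ^ r) x) ∧
        spin Lv Uu u v (fun i => τ (ω i)) ((σ i ^ (r + 1)) x))).card : ℝ)) := by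
  refine bd_count_h56 (range Lx) (fun r ω => spin Lv Uu u v (fun i => τ (ω i)) ((σ i ^ r) x) ∧
        spin Lv Uu u v (fun i => τ (ω i)) ((σ i ^ (r + 1)) x))
    (fun a r => ((σ i ^ r) x = u a ∨ (σ i ^ r) x = v a) ∨
      ((σ i ^ (r + 1)) x = u a ∨ (σ i ^ (r + 1)) x = v a)) ?_ 6 ?_
  · intro r _ ω a l hd
    push Not at hd
    rw [spin_dep_h56 (upd_ty_h56 τ ω a l) hd.1.1 hd.1.2,
      spin_dep_h56 (upd_ty_h56 τ ω a l) hd.2.1 hd.2.2]
  · intro a
    refine (card_or_h56 _ _ _ (card_or_h56 _ _ _ (nb_arc_fiber_h56 h i x _ hL)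
      (nb_arc_fiber_h56 h i x _ hL)) (card_or_h56 _ _ _ (nb_arc_fiber1_h56 h i x _ hL)
      (nb_arc_fiber1_h56 h i x _ hL))).trans (by omega)

open Classical in
lemma B2_h56 (h : HD σ) (y : V) (S : Finset (C × Bool)) :
    BD (fun _ => ((6 : ℕ) : ℝ)) (fun ω : C → L => ((S.filter (fun p =>
        spin Lv Uu u v (fun i => τ (ω i)) (nb σ p y))).card : ℝ)) := by
  refine bd_count_h56 S (fun p ω => spin Lv Uu u v (fun i => τ (ω i)) (nb σ p y))
    (fun a p => nb σ p y = u a ∨ nb σ p y = v a) ?_ 6 ?_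
  · intro r _ ω a l hd
    push Not at hd
    exact spin_dep_h56 (upd_ty_h56 τ ω a l) hd.1 hd.2
  · intro a
    refine (card_or_h56 _ _ _ (nb_fiber_h56 h y _ _) (nb_fiber_h56 h y _ _)).trans (by omega)

lemma filter_eq_le_h56 (z : V) [DecidablePred fun w : V => w = z] :
    ((univ : Finset V).filter (fun w => w = z)).card ≤ 1 := by
  rw [Finset.card_le_one]
  intro a ha b hb
  rw [Finset.mem_filter] at ha hb
  exact ha.2.trans hb.2.symm

open Classical in
lemma B3_h56 (x y : V) :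
    BD (fun _ => ((6 : ℕ) : ℝ)) (fun ω : C → L => (((univ : Finset V).filter (fun w =>
        leaf Lv u v (fun i => τ (ω i)) w ∧ dcol σ x w y)).card : ℝ)) := by
  refine bd_count_h56 (univ : Finset V) (fun w ω => leaf Lv u v (fun i => τ (ω i)) w ∧
      dcol σ x w y) (fun a w => w = u a ∨ w = v a) ?_ 6 ?_
  · intro w _ ω a l hd
    push Not at hd
    rw [leaf_dep_h56 (upd_ty_h56 τ ω a l) hd.1 hd.2]
  · intro a
    exact (card_or_h56 _ _ _ (filter_eq_le_h56 _) (filter_eq_le_h56 _)).trans (by omega)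

open Classical in
lemma B3'_h56 (h : HD σ) (x : V) :
    BD (fun _ => ((6 : ℕ) : ℝ)) (fun ω : C → L => (((univ : Finset (C × Bool)).filter (fun p =>
        leaf Lv u v (fun i => τ (ω i)) (nb σ p x))).card : ℝ)) := by
  refine bd_count_h56 (univ : Finset (C × Bool))
    (fun p ω => leaf Lv u v (fun i => τ (ω i)) (nb σ p x))
    (fun a p => nb σ p x = u a ∨ nb σ p x = v a) ?_ 6 ?_
  · intro r _ ω a l hd
    push Not at hd
    exact leaf_dep_h56 (upd_ty_h56 τ ω a l) hd.1 hd.2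
  · intro a
    refine (card_or_h56 _ _ _ (nb_fiber_h56 h x _ _) (nb_fiber_h56 h x _ _)).trans (by omega)

open Classical in
lemma B4_h56 (h : HD σ) (i : C) (x : V) {Lx : ℕ} (hL : Lx ≤ Fintype.card V) :
    BD (fun _ => ((6 : ℕ) : ℝ)) (fun ω : C → L => (((range Lx).filter (fun r =>
        rese Lv u v (fun i => τ (ω i)) ((σ i ^ r) x) ∧
        rese Lv u v (fun i => τ (ω i)) ((σ i ^ (r + 1)) x) ∧
        s((σ i ^ r) x, (σ i ^ (r + 1)) x) ≠ s(u i, v i))).card : ℝ)) := by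
  refine bd_count_h56 (range Lx) (fun r ω => rese Lv u v (fun i => τ (ω i)) ((σ i ^ r) x) ∧
        rese Lv u v (fun i => τ (ω i)) ((σ i ^ (r + 1)) x) ∧
        s((σ i ^ r) x, (σ i ^ (r + 1)) x) ≠ s(u i, v i))
    (fun a r => ((σ i ^ r) x = u a ∨ (σ i ^ r) x = v a) ∨
      ((σ i ^ (r + 1)) x = u a ∨ (σ i ^ (r + 1)) x = v a)) ?_ 6 ?_
  · intro r _ ω a l hd
    push Not at hd
    rw [rese_dep_h56 (upd_ty_h56 τ ω a l) hd.1.1 hd.1.2,
      rese_dep_h56 (upd_ty_h56 τ ω a l) hd.2.1 hd.2.2]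
  · intro a
    refine (card_or_h56 _ _ _ (card_or_h56 _ _ _ (nb_arc_fiber_h56 h i x _ hL)
      (nb_arc_fiber_h56 h i x _ hL)) (card_or_h56 _ _ _ (nb_arc_fiber1_h56 h i x _ hL)
      (nb_arc_fiber1_h56 h i x _ hL))).trans (by omega)

lemma perm_fiber_h56 (π : Equiv.Perm V) (z : V) (S : Finset V) [DecidablePred fun w : V => π w = z] :
    (S.filter (fun w => π w = z)).card ≤ 1 := by
  rw [Finset.card_le_one]
  intro a ha b hb
  rw [Finset.mem_filter] at ha hb
  exact π.injective (ha.2.trans hb.2.symm)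

open Classical in
lemma B5_h56 (i : C) :
    BD (fun _ => ((6 : ℕ) : ℝ)) (fun ω : C → L => (((univ : Finset V).filter (fun x =>
        leaf Lv u v (fun i => τ (ω i)) x ∧
        leaf Lv u v (fun i => τ (ω i)) (σ i x))).card : ℝ)) := by
  refine bd_count_h56 (univ : Finset V) (fun x ω => leaf Lv u v (fun i => τ (ω i)) x ∧
        leaf Lv u v (fun i => τ (ω i)) (σ i x))
    (fun a x => (x = u a ∨ x = v a) ∨ (σ i x = u a ∨ σ i x = v a)) ?_ 6 ?_
  · intro r _ ω a l hd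
    push Not at hd
    rw [leaf_dep_h56 (upd_ty_h56 τ ω a l) hd.1.1 hd.1.2,
      leaf_dep_h56 (upd_ty_h56 τ ω a l) hd.2.1 hd.2.2]
  · intro a
    refine (card_or_h56 _ _ _ (card_or_h56 _ _ _ (filter_eq_le_h56 _) (filter_eq_le_h56 _))
      (card_or_h56 _ _ _ (perm_fiber_h56 _ _ _) (perm_fiber_h56 _ _ _))).trans (by omega)

open Classical in
lemma B6_h56 (i : C) (Sx : Finset V) :
    BD (fun _ => ((6 : ℕ) : ℝ)) (fun ω : C → L => ((Sx.filter (fun β =>
        rese Lv u v (fun i => τ (ω i)) β ∧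
        rese Lv u v (fun i => τ (ω i)) (σ i β) ∧
        rese Lv u v (fun i => τ (ω i)) ((σ i)⁻¹ β))).card : ℝ)) := by
  refine bd_count_h56 Sx (fun β ω => rese Lv u v (fun i => τ (ω i)) β ∧
        rese Lv u v (fun i => τ (ω i)) (σ i β) ∧
        rese Lv u v (fun i => τ (ω i)) ((σ i)⁻¹ β))
    (fun a x => (x = u a ∨ x = v a) ∨ ((σ i x = u a ∨ σ i x = v a) ∨
      ((σ i)⁻¹ x = u a ∨ (σ i)⁻¹ x = v a))) ?_ 6 ?_
  · intro r _ ω a l hd
    push Not at hd
    rw [rese_dep_h56 (upd_ty_h56 τ ω a l) hd.1.1 hd.1.2,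
      rese_dep_h56 (upd_ty_h56 τ ω a l) hd.2.1.1 hd.2.1.2,
      rese_dep_h56 (upd_ty_h56 τ ω a l) hd.2.2.1 hd.2.2.2]
  · intro a
    refine (card_or_h56 _ _ _ (card_or_h56 _ _ _ (perm_fiber_h56 1 _ _) (perm_fiber_h56 1 _ _))
      (card_or_h56 _ _ _ (card_or_h56 _ _ _ (perm_fiber_h56 _ _ _) (perm_fiber_h56 _ _ _))
        (card_or_h56 _ _ _ (perm_fiber_h56 _ _ _) (perm_fiber_h56 _ _ _)))).trans (by omega)

open Classical in
/-- output of stage A -/
structure TA_h56 (σ : C → Equiv.Perm V) (O : Finset C) (Uu : Finset V) (u v : C → V)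
    (cl : C → Fin 3) (δ q κ ε : ℝ) (Sg : C → V → Finset V) (ty : C → Fin 3) : Prop where
  a1 : ∀ i x (Lx : ℕ), Lx ≤ Fintype.card V → q ^ 2 * Lx - ε * Fintype.card V ≤
    ((range Lx).filter (fun r => spin (univ \ O) Uu u v ty ((σ i ^ r) x) ∧
      spin (univ \ O) Uu u v ty ((σ i ^ (r + 1)) x))).card
  a2 : ∀ y k, (((univ : Finset (C × Bool)).filter (fun p => cl p.1 = k ∧
      spin (univ \ O) Uu u v ty (nb σ p y))).card : ℝ) ≤
      2 * q * (univ.filter (fun i => cl i = k)).card + ε * Fintype.card V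
  a3 : ∀ x y, x ≠ y → (1 - δ) / 2 * κ * cdD σ x y - ε * Fintype.card V ≤
    (univ.filter (fun w => leaf (univ \ O) u v ty w ∧ dcol σ x w y)).card
  a3' : ∀ x, (1 - δ) * κ * Fintype.card C - ε * Fintype.card V ≤
    ((univ : Finset (C × Bool)).filter (fun p => leaf (univ \ O) u v ty (nb σ p x))).card
  a4 : ∀ i x (Lx : ℕ), Lx ≤ Fintype.card V → δ ^ 2 * κ ^ 2 * Lx - ε * Fintype.card V ≤
      ((range Lx).filter (fun r => rese (univ \ O) u v ty ((σ i ^ r) x) ∧
        rese (univ \ O) u v ty ((σ i ^ (r + 1)) x) ∧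
        s((σ i ^ r) x, (σ i ^ (r + 1)) x) ≠ s(u i, v i))).card
  a5 : ∀ i, ((1 - δ) / 2) ^ 2 * κ ^ 2 * Fintype.card V - ε * Fintype.card V ≤
      (univ.filter (fun x => leaf (univ \ O) u v ty x ∧ leaf (univ \ O) u v ty (σ i x))).card
  a6 : ∀ i b, δ ^ 3 * (Sg i b).card - ε * Fintype.card V ≤
      ((Sg i b).filter (fun β => rese (univ \ O) u v ty β ∧ rese (univ \ O) u v ty (σ i β) ∧
        rese (univ \ O) u v ty ((σ i)⁻¹ β))).card

end Pool.Agent.KZ
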