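import Pool.Agent.Lib_helper15.KZF.DefsA
import Pool.Agent.Lib_helper15.KZF.DefsN
import Pool.Agent.Lib_helper15.KZF.ED
import Pool.Agent.Lib_helper15.KZF.T_TD

/-!
# Random types: stage A, existence
-/

set_option autoImplicit false
set_option linter.unusedSectionVars false

namespace Pool.Agent.KZ

open Finset

lemma cdD_le_h56 {V C : Type} [Fintype V] [DecidableEq V] [Fintype C] [DecidableEq C]
    (σ : C → Equiv.Perm V) (x y : V) : cdD σ x y ≤ Fintype.card V := by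
  classical
  unfold cdD
  exact Finset.card_le_univ _

/-- stage A: random types -/
theorem stageA_h56 (δ ε : ℝ) (hδ : 0 < δ) (hδ1 : δ ≤ 1 / 4) (hε : 0 < ε) : ∃ N₀ : ℕ,
    ∀ (V C : Type) [Fintype V] [DecidableEq V] [Fintype C] [DecidableEq C]
      (σ : C → Equiv.Perm V), HD σ → N₀ ≤ Fintype.card V →
      ∀ (O : Finset C) (cl : C → Fin 3) (z0 u v : C → V) (κ ε₀ : ℝ)
        (full : Bool) (Sg : C → V → Finset V),
      Prs_h56 σ O z0 u v → 0 ≤ κ → κ ≤ 1 →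
      0 ≤ ε₀ → Reg σ (cvd O u v) κ ε₀ cl → ((∀ i x, Sg i x = ∅) ∨ 1 - κ ≤ ε₀) →
      ∃ ty : C → Fin 3,
        TA_h56 σ O (Uf_h56 O u v full) u v cl δ
          (κ * (1 - δ) / 2 + if full then 1 - κ else 0) κ (6 * ε₀ + ε) Sg ty := by
  classical
  obtain ⟨M, τ, δ', p', T, hd1, hd2⟩ := law_exists_h56 δ (ε / 8) hδ hδ1 (by positivity)
  obtain ⟨N₁, hN₁⟩ := conc_h56 (ε / 8) (by positivity) 6 5
  obtain ⟨N₂, hN₂⟩ := exists_nat_gt (8 / ε)
  refine ⟨N₁ + N₂ + 100, ?_⟩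
  intro V C _ _ _ _ σ h hN O cl z0 u v κ ε₀ full Sg P hκ0 hκ1 hε0 R hSg
  set N := Fintype.card V with hNdef
  have hn : 2 * Fintype.card C + 1 ≤ N := hd_deg h
  have hNR : (0 : ℝ) < N := by
    have : 0 < N := by omega
    exact_mod_cast this
  have h1N : 1 ≤ ε / 8 * N := by
    have h1 : (N₂ : ℝ) < N := by
      have : N₂ < N := by omega
      exact_mod_cast this
    have h2 := hN₂.trans h1
    rw [div_lt_iff₀ hε] at h2
    linarith
  set Lv : Finset C := univ \ O with hLv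
  set Uu := Uf_h56 O u v full with hUu
  -- the functionals
  let F1 : C × V × Fin (N + 1) → (C → Fin (M + 1) × Bool) → ℝ := fun t ω =>
    (((range t.2.2.val).filter (fun r =>
        spin Lv Uu u v (fun i => τ (ω i)) ((σ t.1 ^ r) t.2.1) ∧
        spin Lv Uu u v (fun i => τ (ω i)) ((σ t.1 ^ (r + 1)) t.2.1))).card : ℝ)
  obtain ⟨Sk, hSk⟩ : ∃ Sk : Fin 3 → Finset (C × Bool),
      ∀ k, Sk k = univ.filter (fun p => cl p.1 = k) := ⟨_, fun _ => rfl⟩
  let F2 : V × Fin 3 → (C → Fin (M + 1) × Bool) → ℝ := fun t ω =>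
    (((Sk t.2).filter (fun p =>
        spin Lv Uu u v (fun i => τ (ω i)) (nb σ p t.1))).card : ℝ)
  let F3 : V × V → (C → Fin (M + 1) × Bool) → ℝ := fun t ω =>
    (((univ : Finset V).filter (fun w =>
        leaf Lv u v (fun i => τ (ω i)) w ∧ dcol σ t.1 w t.2)).card : ℝ)
  let F3' : V → (C → Fin (M + 1) × Bool) → ℝ := fun t ω =>
    (((univ : Finset (C × Bool)).filter (fun p =>
        leaf Lv u v (fun i => τ (ω i)) (nb σ p t))).card : ℝ)
  let F4 : C × V × Fin (N + 1) → (C → Fin (M + 1) × Bool) → ℝ := fun t ω =>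
    (((range t.2.2.val).filter (fun r =>
        rese Lv u v (fun i => τ (ω i)) ((σ t.1 ^ r) t.2.1) ∧
        rese Lv u v (fun i => τ (ω i)) ((σ t.1 ^ (r + 1)) t.2.1) ∧
        s((σ t.1 ^ r) t.2.1, (σ t.1 ^ (r + 1)) t.2.1) ≠ s(u t.1, v t.1))).card : ℝ)
  let F5 : C → (C → Fin (M + 1) × Bool) → ℝ := fun t ω =>
    (((univ : Finset V).filter (fun x => leaf Lv u v (fun i => τ (ω i)) x ∧
        leaf Lv u v (fun i => τ (ω i)) (σ t x))).card : ℝ)
  let F6 : C × V → (C → Fin (M + 1) × Bool) → ℝ := fun t ω =>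
    (((Sg t.1 t.2).filter (fun β => rese Lv u v (fun i => τ (ω i)) β ∧
        rese Lv u v (fun i => τ (ω i)) (σ t.1 β) ∧
        rese Lv u v (fun i => τ (ω i)) ((σ t.1)⁻¹ β))).card : ℝ)
  have hcard : Fintype.card ((C × V × Fin (N + 1)) ⊕ ((V × Fin 3) ⊕ ((V × V) ⊕ (V ⊕
      ((C × V × Fin (N + 1)) ⊕ (C ⊕ (C × V))))))) ≤ N ^ 5 := by
    simp only [Fintype.card_sum, Fintype.card_prod, Fintype.card_fin]
    rw [← hNdef]
    have hCN : Fintype.card C ≤ N := by omega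
    have hN100 : 100 ≤ N := by omega
    have h1 : Fintype.card C * (N * (N + 1)) ≤ N * (N * (N + 1)) := Nat.mul_le_mul_right _ hCN
    have h2 : Fintype.card C * N ≤ N * N := Nat.mul_le_mul_right _ hCN
    have h3 : N ≤ N * N := by nlinarith
    have h4 : N * N * 100 ≤ N * N * N := Nat.mul_le_mul_left _ hN100
    have h5 : N * N * N * 100 ≤ N * N * N * N := Nat.mul_le_mul_left _ hN100
    have h6 : N * N * N * N ≤ N ^ 5 := by
      have : N ^ 5 = N * N * N * N * N := by ring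
      rw [this]
      exact Nat.le_mul_of_pos_right _ (by omega)
    have h7 : N * (N * (N + 1)) = N * N * N + N * N := by ring
    omega
  obtain ⟨ω, hω⟩ := hN₁ C (Fin (M + 1) × Bool) N (by omega) (by omega) _ hcard
    (Sum.elim F1 (Sum.elim F2 (Sum.elim F3 (Sum.elim F3' (Sum.elim F4 (Sum.elim F5 F6)))))) (by
      rintro (t | t | t | t | t | t | t)
      · exact B1_h56 h t.1 t.2.1 (by have := t.2.2.2; omega)
      · exact B2_h56 h t.1 _
      · exact B3_h56 t.1 t.2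
      · exact B3'_h56 h t
      · exact B4_h56 h t.1 t.2.1 (by have := t.2.2.2; omega)
      · exact B5_h56 t
      · exact B6_h56 t.1 _)
  have w1 : ∀ t, |F1 t ω - avg (F1 t)| ≤ ε / 8 * N := fun t => hω (Sum.inl t)
  have w2 : ∀ t, |F2 t ω - avg (F2 t)| ≤ ε / 8 * N := fun t => hω (Sum.inr (Sum.inl t))
  have w3 : ∀ t, |F3 t ω - avg (F3 t)| ≤ ε / 8 * N := fun t => hω (Sum.inr (Sum.inr (Sum.inl t)))
  have w3' : ∀ t, |F3' t ω - avg (F3' t)| ≤ ε / 8 * N :=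
    fun t => hω (Sum.inr (Sum.inr (Sum.inr (Sum.inl t))))
  have w4 : ∀ t, |F4 t ω - avg (F4 t)| ≤ ε / 8 * N :=
    fun t => hω (Sum.inr (Sum.inr (Sum.inr (Sum.inr (Sum.inl t)))))
  have w5 : ∀ t, |F5 t ω - avg (F5 t)| ≤ ε / 8 * N :=
    fun t => hω (Sum.inr (Sum.inr (Sum.inr (Sum.inr (Sum.inr (Sum.inl t))))))
  have w6 : ∀ t, |F6 t ω - avg (F6 t)| ≤ ε / 8 * N :=
    fun t => hω (Sum.inr (Sum.inr (Sum.inr (Sum.inr (Sum.inr (Sum.inr t))))))
  clear hω
  have hp0 := T.p_nonneg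
  have hp2 := T.p_le
  have hpd := T.pd
  -- relation between `q` and `q'`
  set q : ℝ := κ * (1 - δ) / 2 + if full then 1 - κ else 0 with hq
  set q' : ℝ := ef_h56 full + (p' - ef_h56 full) * κ with hq'
  have hqe : q = ef_h56 full + ((1 - δ) / 2 - ef_h56 full) * κ := by
    rw [hq]
    unfold ef_h56
    cases full
    · simp; ring
    · simp; ring
  have hqq : q - q' = (δ' - δ) / 2 * κ := by
    rw [hqe, hq', hpd]; ring
  have he01 : 0 ≤ ef_h56 full ∧ ef_h56 full ≤ 1 := by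
    unfold ef_h56; cases full <;> simp
  have hdd : 0 ≤ δ' - δ := by linarith
  have hqq0 : 0 ≤ q - q' := by rw [hqq]; positivity
  have hqq1 : q - q' ≤ ε / 16 := by
    rw [hqq]
    have : (δ' - δ) / 2 * κ ≤ (δ' - δ) / 2 * 1 := mul_le_mul_of_nonneg_left hκ1 (by linarith)
    linarith
  have hq'0 : 0 ≤ q' := by
    rw [hq']
    have : ef_h56 full + (p' - ef_h56 full) * κ = ef_h56 full * (1 - κ) + p' * κ := by ring
    rw [this]
    have h1 := mul_nonneg he01.1 (sub_nonneg.2 hκ1)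
    have h2 := mul_nonneg hp0 hκ0
    linarith
  have hq1 : q ≤ 1 := by
    rw [hqe]
    have e1 : ef_h56 full + ((1 - δ) / 2 - ef_h56 full) * κ =
      ef_h56 full * (1 - κ) + (1 - δ) / 2 * κ := by ring
    rw [e1]
    have h1 : ef_h56 full * (1 - κ) ≤ 1 * (1 - κ) :=
      mul_le_mul_of_nonneg_right he01.2 (by linarith)
    have h2 : (1 - δ) / 2 * κ ≤ 1 * κ := mul_le_mul_of_nonneg_right (by linarith) hκ0
    linarith
  have hqsq : q ^ 2 - q' ^ 2 ≤ ε / 8 := by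
    have : q ^ 2 - q' ^ 2 = (q - q') * (q + q') := by ring
    rw [this]
    have h1 : (q - q') * (q + q') ≤ (q - q') * 2 := by
      refine mul_le_mul_of_nonneg_left ?_ hqq0
      linarith
    linarith
  have hεN : 0 ≤ ε₀ * N := mul_nonneg hε0 hNR.le
  have hεN' : 0 ≤ ε * N := by positivity
  have hnR : 2 * (Fintype.card C : ℝ) ≤ N := by
    have : 2 * Fintype.card C ≤ N := by omega
    exact_mod_cast this
  have hn0 : (0 : ℝ) ≤ Fintype.card C := Nat.cast_nonneg _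
  have hpp : (1 - δ) / 2 - p' = (δ' - δ) / 2 := by rw [hpd]; ring
  have hpp0 : p' ≤ (1 - δ) / 2 := by linarith
  have hpp1 : (1 - δ) / 2 ≤ p' + ε / 16 := by linarith
  refine ⟨fun i => τ (ω i), ?_, ?_, ?_, ?_, ?_, ?_, ?_⟩
  · intro i x Lx hL
    have w := abs_le.1 (w1 (i, x, ⟨Lx, by omega⟩))
    have e1 : avg (F1 (i, x, ⟨Lx, by omega⟩)) = _ := avg_count_h56 (range Lx) (fun r ω =>
        spin Lv Uu u v (fun i => τ (ω i)) ((σ i ^ r) x) ∧
        spin Lv Uu u v (fun i => τ (ω i)) ((σ i ^ (r + 1)) x))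
    have e2 := E1_h56 h P T full R hε0 i x hL
    rw [e1] at w
    have hL0 : (0 : ℝ) ≤ Lx := Nat.cast_nonneg _
    have hLN : (Lx : ℝ) ≤ N := by exact_mod_cast hL
    have h3 : (q ^ 2 - q' ^ 2) * Lx ≤ ε / 8 * N := by
      have h4 : (q ^ 2 - q' ^ 2) * Lx ≤ ε / 8 * Lx := mul_le_mul_of_nonneg_right hqsq hL0
      have h5 : ε / 8 * (Lx : ℝ) ≤ ε / 8 * N := mul_le_mul_of_nonneg_left hLN (by positivity)
      linarith
    have h6 := w.1
    simp only [F1] at h6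
    rw [← hNdef] at e2
    change q ^ 2 * Lx - (6 * ε₀ + ε) * N ≤ _
    change q' ^ 2 * Lx - 3 * ε₀ * N - 1 ≤ _ at e2
    nlinarith
  · intro y k
    have w := abs_le.1 (w2 (y, k))
    have e1 : avg (F2 (y, k)) = _ := avg_count_h56 (Sk k) (fun p ω =>
        spin Lv Uu u v (fun i => τ (ω i)) (nb σ p y))
    have e2 := E2_h56 P T full R hε0 y k
    rw [e1] at w
    have h6 := w.2
    simp only [F2] at h6
    rw [← hNdef, ← hSk] at e2
    rw [← Finset.filter_filter, ← hSk]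
    change _ ≤ 2 * q * _ + (6 * ε₀ + ε) * (N : ℝ)
    change _ ≤ 2 * q' * _ + ε₀ * (N : ℝ) at e2
    have h7 : (0 : ℝ) ≤ ((univ.filter (fun i => cl i = k)).card : ℝ) := Nat.cast_nonneg _
    have h8 : 2 * q' * ((univ.filter (fun i => cl i = k)).card : ℝ) ≤
        2 * q * ((univ.filter (fun i => cl i = k)).card : ℝ) :=
      mul_le_mul_of_nonneg_right (by linarith) h7
    nlinarith
  · intro x y hxy
    have w := abs_le.1 (w3 (x, y))
    have e1 : avg (F3 (x, y)) = _ := avg_count_h56 (univ : Finset V) (fun w ω =>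
        leaf Lv u v (fun i => τ (ω i)) w ∧ dcol σ x w y)
    have e2 := E3_h56 P T R hxy
    rw [e1] at w
    have h6 := w.1
    simp only [F3] at h6
    rw [← hNdef] at e2
    change _ - (6 * ε₀ + ε) * (N : ℝ) ≤ _
    have hcd : (cdD σ x y : ℝ) ≤ N := by exact_mod_cast cdD_le_h56 σ x y
    have hcd0 : (0 : ℝ) ≤ cdD σ x y := Nat.cast_nonneg _
    have hk : κ * (cdD σ x y : ℝ) ≤ N := by nlinarith
    have hk0 : 0 ≤ κ * (cdD σ x y : ℝ) := mul_nonneg hκ0 hcd0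
    have h7 : ((1 - δ) / 2 - p') * (κ * (cdD σ x y : ℝ)) ≤ ε / 16 * N := by
      have h8 : ((1 - δ) / 2 - p') * (κ * (cdD σ x y : ℝ)) ≤ ε / 16 * (κ * (cdD σ x y : ℝ)) :=
        mul_le_mul_of_nonneg_right (by linarith) hk0
      have h9 : ε / 16 * (κ * (cdD σ x y : ℝ)) ≤ ε / 16 * N :=
        mul_le_mul_of_nonneg_left hk (by positivity)
      linarith
    have h10 : p' * (ε₀ * N) ≤ 1 * (ε₀ * N) := mul_le_mul_of_nonneg_right (by linarith) hεN
    nlinarith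
  · intro x
    have w := abs_le.1 (w3' x)
    have e1 : avg (F3' x) = _ := avg_count_h56 (univ : Finset (C × Bool)) (fun p ω =>
        leaf Lv u v (fun i => τ (ω i)) (nb σ p x))
    have e2 := E3'_h56 P T R x
    rw [e1] at w
    have h6 := w.1
    simp only [F3'] at h6
    rw [← hNdef] at e2
    change _ - (6 * ε₀ + ε) * (N : ℝ) ≤ _
    have hk : 2 * κ * (Fintype.card C : ℝ) ≤ N := by nlinarith
    have hk0 : 0 ≤ 2 * κ * (Fintype.card C : ℝ) := by positivity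
    have h7 : ((1 - δ) / 2 - p') * (2 * κ * (Fintype.card C : ℝ)) ≤ ε / 16 * N := by
      have h8 : ((1 - δ) / 2 - p') * (2 * κ * (Fintype.card C : ℝ)) ≤
          ε / 16 * (2 * κ * (Fintype.card C : ℝ)) :=
        mul_le_mul_of_nonneg_right (by linarith) hk0
      have h9 : ε / 16 * (2 * κ * (Fintype.card C : ℝ)) ≤ ε / 16 * N :=
        mul_le_mul_of_nonneg_left hk (by positivity)
      linarith
    have h10 : p' * (3 * (ε₀ * N)) ≤ 1 * (3 * (ε₀ * N)) :=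
      mul_le_mul_of_nonneg_right (by linarith) (by linarith)
    nlinarith
  · intro i x Lx hL
    have w := abs_le.1 (w4 (i, x, ⟨Lx, by omega⟩))
    have e1 : avg (F4 (i, x, ⟨Lx, by omega⟩)) = _ := avg_count_h56 (range Lx) (fun r ω =>
        rese Lv u v (fun i => τ (ω i)) ((σ i ^ r) x) ∧
        rese Lv u v (fun i => τ (ω i)) ((σ i ^ (r + 1)) x) ∧
        s((σ i ^ r) x, (σ i ^ (r + 1)) x) ≠ s(u i, v i))
    have e2 := E4_h56 h P T R i x hL
    rw [e1] at w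
    have h6 := w.1
    simp only [F4] at h6
    rw [← hNdef] at e2
    change _ - (6 * ε₀ + ε) * (N : ℝ) ≤ _
    have hL0 : (0 : ℝ) ≤ κ ^ 2 * Lx := by positivity
    have h7 : δ ^ 2 * (κ ^ 2 * (Lx : ℝ)) ≤ δ' ^ 2 * (κ ^ 2 * Lx) :=
      mul_le_mul_of_nonneg_right (pow_le_pow_left₀ hδ.le hd1 2) hL0
    have h8 : δ' ^ 2 ≤ 1 := pow_le_one₀ T.d0 T.d1
    have h9 : δ' ^ 2 * (ε₀ * N) ≤ 1 * (ε₀ * N) := mul_le_mul_of_nonneg_right h8 hεN
    nlinarith
  · intro i
    have w := abs_le.1 (w5 i)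
    have e1 : avg (F5 i) = _ := avg_count_h56 (univ : Finset V) (fun x ω =>
        leaf Lv u v (fun i => τ (ω i)) x ∧ leaf Lv u v (fun i => τ (ω i)) (σ i x))
    have e2 := E5_h56 h P T R i
    rw [e1] at w
    have h6 := w.1
    simp only [F5] at h6
    rw [← hNdef] at e2
    change _ - (6 * ε₀ + ε) * (N : ℝ) ≤ _
    have hk0 : 0 ≤ κ ^ 2 * (N : ℝ) := by positivity
    have hk1 : κ ^ 2 * (N : ℝ) ≤ N := by
      have : κ ^ 2 ≤ 1 := pow_le_one₀ hκ0 hκ1
      nlinarith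
    have h7 : ((1 - δ) / 2) ^ 2 - p' ^ 2 ≤ ε / 16 := by
      have e : ((1 - δ) / 2) ^ 2 - p' ^ 2 = ((1 - δ) / 2 - p') * ((1 - δ) / 2 + p') := by ring
      rw [e]
      have : ((1 - δ) / 2 - p') * ((1 - δ) / 2 + p') ≤ ((1 - δ) / 2 - p') * 1 :=
        mul_le_mul_of_nonneg_left (by linarith) (by linarith)
      linarith
    have h8 : (((1 - δ) / 2) ^ 2 - p' ^ 2) * (κ ^ 2 * (N : ℝ)) ≤ ε / 16 * N := by
      have h9 : (((1 - δ) / 2) ^ 2 - p' ^ 2) * (κ ^ 2 * (N : ℝ)) ≤ ε / 16 * (κ ^ 2 * (N : ℝ)) :=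
        mul_le_mul_of_nonneg_right h7 hk0
      have h10 : ε / 16 * (κ ^ 2 * (N : ℝ)) ≤ ε / 16 * N :=
        mul_le_mul_of_nonneg_left hk1 (by positivity)
      linarith
    have h11 : p' ^ 2 * (ε₀ * N) ≤ 1 * (ε₀ * N) :=
      mul_le_mul_of_nonneg_right (by nlinarith) hεN
    nlinarith
  · intro i b
    change _ - (6 * ε₀ + ε) * (N : ℝ) ≤ _
    rcases hSg with hS | hS
    · rw [hS i b]
      simp
      positivity
    · have w := abs_le.1 (w6 (i, b))
      have e1 : avg (F6 (i, b)) = _ := avg_count_h56 (Sg i b) (fun β ω =>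
        rese Lv u v (fun i => τ (ω i)) β ∧
        rese Lv u v (fun i => τ (ω i)) (σ i β) ∧
        rese Lv u v (fun i => τ (ω i)) ((σ i)⁻¹ β))
      have e2 := E6_h56 h P T R i (Sg i b)
      rw [e1] at w
      have h6 := w.1
      simp only [F6] at h6
      rw [← hNdef] at e2
      have hc0 : (0 : ℝ) ≤ (Sg i b).card := Nat.cast_nonneg _
      have h7 : δ ^ 3 * ((Sg i b).card : ℝ) ≤ δ' ^ 3 * ((Sg i b).card : ℝ) :=
        mul_le_mul_of_nonneg_right (pow_le_pow_left₀ hδ.le hd1 3) hc0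
      have h8 : δ' ^ 3 ≤ 1 := pow_le_one₀ T.d0 T.d1
      have h80 : 0 ≤ δ' ^ 3 := pow_nonneg T.d0 3
      have h9 : (1 - κ + ε₀) * (N : ℝ) ≤ 2 * (ε₀ * N) := by nlinarith
      have h10 : δ' ^ 3 * (3 * ((1 - κ + ε₀) * (N : ℝ))) ≤ δ' ^ 3 * (6 * (ε₀ * N)) :=
        mul_le_mul_of_nonneg_left (by linarith) h80
      have h11 : δ' ^ 3 * (6 * (ε₀ * N)) ≤ 1 * (6 * (ε₀ * N)) :=
        mul_le_mul_of_nonneg_right h8 (by linarith)
      nlinarith

end Pool.Agent.KZ
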