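import Pool.Agent.Lib_helper15.KZF.DefsA
import Pool.Agent.Lib_helper15.KZF.DefsN
import Pool.Agent.Lib_helper15.KZF.ED
import Pool.Agent.Lib_helper15.KZF.T_TE

/-!
# Random levels (stage B) and `types_exist`
-/

set_option autoImplicit false
set_option linter.unusedSectionVars false

namespace Pool.Agent.KZ

open Finset

/-! ### counting pairs of levels -/

/-- the condition on the levels of an edge of label `g` -/
def lvc_h56 (g : Fin 3) (a b : ℕ) : Prop :=
  (b = a + 1 ∧ lamb b = g) ∨ (a = b + 1 ∧ lamb a = g)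

/-- the same for `Fin` -/
def lvf_h56 {n : ℕ} (g : Fin 3) (a b : Fin n) : Prop := lvc_h56 g (a.val + 1) (b.val + 1)

/-- odd level -/
def odl_h56 {n : ℕ} (a : Fin n) : Prop := (a.val + 1) % 2 = 1

/-- level `j` -/
def lve_h56 {n : ℕ} (j : ℕ) (a : Fin n) : Prop := a.val + 1 = j

lemma lvc_count_h56 (m : ℕ) (g : Fin 3) (hg : g ≠ 0)
    [inst : DecidablePred (fun p : Fin (2 * m + 1) × Fin (2 * m + 1) => lvf_h56 g p.1 p.2)] :
    2 * m ≤ (univ.filter (fun p : Fin (2 * m + 1) × Fin (2 * m + 1) =>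
      lvf_h56 g p.1 p.2)).card := by
  -- the pairs `(2 t + s, 2 t + s + 1)`, `s = 0` for `g = 1`, `s = 1` for `g = 2`
  obtain ⟨s, hs1, hs⟩ : ∃ s : ℕ, s ≤ 1 ∧ ∀ t : ℕ, lamb (2 * t + s + 2) = g := by
    rcases (by decide : ∀ g : Fin 3, g ≠ 0 → g = 1 ∨ g = 2) g hg with rfl | rfl
    · refine ⟨0, by omega, fun t => ?_⟩
      unfold lamb
      rw [if_pos (by omega)]
    · refine ⟨1, by omega, fun t => ?_⟩
      unfold lamb
      rw [if_neg (by omega)]
  have hc : 2 * m = (univ : Finset (Fin m × Bool)).card := by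
    rw [Finset.card_univ, Fintype.card_prod, Fintype.card_fin, Fintype.card_bool, mul_comm]
  refine le_trans (le_of_eq hc) ?_
  refine Finset.card_le_card_of_injOn (fun q : Fin m × Bool =>
    if q.2 then ((⟨2 * q.1.val + s, by omega⟩ : Fin (2 * m + 1)),
      (⟨2 * q.1.val + s + 1, by omega⟩ : Fin (2 * m + 1)))
    else ((⟨2 * q.1.val + s + 1, by omega⟩ : Fin (2 * m + 1)),
      (⟨2 * q.1.val + s, by omega⟩ : Fin (2 * m + 1)))) ?_ ?_
  · rintro ⟨t, b⟩ _
    rw [Finset.coe_filter]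
    refine ⟨Finset.mem_univ _, ?_⟩
    unfold lvf_h56 lvc_h56
    cases b
    · right
      exact ⟨rfl, hs t.val⟩
    · left
      exact ⟨rfl, hs t.val⟩
  · rintro ⟨t, b⟩ _ ⟨t', b'⟩ _ e
    cases b <;> cases b' <;> simp [Fin.ext_iff] at e ⊢
    · omega
    · omega
    · omega
    · omega

lemma odd_count_h56 (m : ℕ) [inst : DecidablePred (fun a : Fin (2 * m + 1) => odl_h56 a)] :
    (m + 1) ≤ (univ.filter (fun a : Fin (2 * m + 1) => odl_h56 a)).card := by
  have hc : m + 1 = (univ : Finset (Fin (m + 1))).card := by simp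
  refine le_trans (le_of_eq hc) ?_
  refine Finset.card_le_card_of_injOn
    (fun t : Fin (m + 1) => (⟨2 * t.val, by omega⟩ : Fin (2 * m + 1))) ?_ ?_
  · intro t _
    rw [Finset.coe_filter]
    refine ⟨Finset.mem_univ _, ?_⟩
    unfold odl_h56
    simp only
    omega
  · intro t _ t' _ e
    simp only [Fin.mk.injEq] at e
    exact Fin.ext (by omega)

section
variable {V C : Type} [Fintype V] [DecidableEq V] [Fintype C] [DecidableEq C]
variable {σ : C → Equiv.Perm V} {O : Finset C} {z0 u v : C → V}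
variable {Lv : Finset C} {Uu : Finset V} {ty : C → Fin 3}

open Classical in
/-- the mate of a covered vertex -/
noncomputable def mt_h56 (O : Finset C) (u v : C → V) (x : V) : V :=
  if hx : ∃ p : C × Bool, p.1 ∉ O ∧ x = uvp_h56 u v p then
    uvp_h56 u v ((Classical.choose hx).1, !(Classical.choose hx).2) else x

lemma mt_uvp_h56 (P : Prs_h56 σ O z0 u v) {p : C × Bool} (hp : p.1 ∉ O) :
    mt_h56 O u v (uvp_h56 u v p) = uvp_h56 u v (p.1, !p.2) := by
  have hx : ∃ p' : C × Bool, p'.1 ∉ O ∧ uvp_h56 u v p = uvp_h56 u v p' := ⟨p, hp, rfl⟩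
  unfold mt_h56
  rw [dif_pos hx]
  have h1 := Classical.choose_spec hx
  have h2 := uvp_inj_h56 P hp h1.1 h1.2
  rw [← h2]

lemma mt_inj_h56 (P : Prs_h56 σ O z0 u v) {x y : V} (hx : x ∈ cvd O u v) (hy : y ∈ cvd O u v)
    (e : mt_h56 O u v x = mt_h56 O u v y) : x = y := by
  obtain ⟨p, hp, rfl⟩ := cvd_iff_h56.1 hx
  obtain ⟨p', hp', rfl⟩ := cvd_iff_h56.1 hy
  rw [mt_uvp_h56 P hp, mt_uvp_h56 P hp'] at e
  have := uvp_inj_h56 P (p := (p.1, !p.2)) (p' := (p'.1, !p'.2)) hp hp' e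
  rw [Prod.mk.injEq, Bool.not_inj_iff] at this
  rw [Prod.ext this.1 this.2]

lemma oleaf_iff_h56 (P : Prs_h56 σ O z0 u v) (lev : V → ℕ) (x : V) :
    oleaf (univ \ O) u v ty lev x ↔ leaf (univ \ O) u v ty x ∧ lev (mt_h56 O u v x) % 2 = 1 := by
  have m1 : ∀ i, i ∉ O → mt_h56 O u v (u i) = v i := by
    intro i hi
    have := mt_uvp_h56 P (p := (i, true)) hi
    simpa [uvp_h56] using this
  have m2 : ∀ i, i ∉ O → mt_h56 O u v (v i) = u i := by
    intro i hi
    have := mt_uvp_h56 P (p := (i, false)) hi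
    simpa [uvp_h56] using this
  unfold oleaf leaf
  constructor
  · rintro ⟨i, hi, ⟨h1, rfl, h3⟩ | ⟨h1, rfl, h3⟩⟩
    · exact ⟨⟨i, hi, Or.inl ⟨h1, rfl⟩⟩, by rw [m1 i (Finset.mem_sdiff.1 hi).2]; exact h3⟩
    · exact ⟨⟨i, hi, Or.inr ⟨h1, rfl⟩⟩, by rw [m2 i (Finset.mem_sdiff.1 hi).2]; exact h3⟩
  · rintro ⟨⟨i, hi, ⟨h1, rfl⟩ | ⟨h1, rfl⟩⟩, h3⟩
    · rw [m1 i (Finset.mem_sdiff.1 hi).2] at h3
      exact ⟨i, hi, Or.inl ⟨h1, rfl, h3⟩⟩
    · rw [m2 i (Finset.mem_sdiff.1 hi).2] at h3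
      exact ⟨i, hi, Or.inr ⟨h1, rfl, h3⟩⟩

lemma alw_iff_h56 (lev : V → ℕ) (g : Fin 3) (x y : V) :
    (alw Lv Uu u v ty lev g x y ∨ alw Lv Uu u v ty lev g y x) ↔
      (spin Lv Uu u v ty x ∧ spin Lv Uu u v ty y) ∧ lvc_h56 g (lev x) (lev y) := by
  unfold alw lvc_h56
  tauto

open Classical in
lemma B7_h56 {m : ℕ} (h : HD σ) (i : C) (x : V) (g : Fin 3) (S : Finset ℕ)
    (hS : S ⊆ range (Fintype.card V)) :
    BD (fun _ => ((6 : ℕ) : ℝ)) (fun ω : V → Fin (2 * m + 1) => ((S.filter (fun r =>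
      lvf_h56 g (ω ((σ i ^ r) x)) (ω ((σ i ^ (r + 1)) x)))).card : ℝ)) := by
  refine bd_count_h56 S (fun r (ω : V → Fin (2 * m + 1)) =>
      lvf_h56 g (ω ((σ i ^ r) x)) (ω ((σ i ^ (r + 1)) x)))
    (fun a r => (σ i ^ r) x = a ∨ (σ i ^ (r + 1)) x = a) ?_ 6 ?_
  · intro r _ ω a l hd
    push Not at hd
    rw [Function.update_of_ne hd.1, Function.update_of_ne hd.2]
  · intro a
    refine (card_or_h56 S _ _ (a := 1) (b := 1) ?_ ?_).trans (by omega)
    · exact (Finset.card_le_card (Finset.filter_subset_filter _ hS)).trans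
        (nb_arc_fiber_h56 h i x _ le_rfl)
    · exact (Finset.card_le_card (Finset.filter_subset_filter _ hS)).trans
        (nb_arc_fiber1_h56 h i x _ le_rfl)

open Classical in
lemma B8_h56 {m : ℕ} (h : HD σ) (y : V) (j : ℕ) (S : Finset (C × Bool)) :
    BD (fun _ => ((6 : ℕ) : ℝ)) (fun ω : V → Fin (2 * m + 1) => ((S.filter (fun p =>
      lve_h56 j (ω (nb σ p y)))).card : ℝ)) := by
  refine bd_count_h56 S (fun p (ω : V → Fin (2 * m + 1)) => lve_h56 j (ω (nb σ p y)))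
    (fun a p => nb σ p y = a) ?_ 6 ?_
  · intro r _ ω a l hd
    rw [Function.update_of_ne hd]
  · intro a
    exact (nb_fiber_h56 h y _ _).trans (by omega)

open Classical in
lemma B9_h56 {m : ℕ} (P : Prs_h56 σ O z0 u v) (i : C) (S : Finset V)
    (hS : ∀ x ∈ S, x ∈ cvd O u v ∧ σ i x ∈ cvd O u v) :
    BD (fun _ => ((6 : ℕ) : ℝ)) (fun ω : V → Fin (2 * m + 1) => ((S.filter (fun x =>
      odl_h56 (ω (mt_h56 O u v x)) ∧ odl_h56 (ω (mt_h56 O u v (σ i x))))).card : ℝ)) := by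
  refine bd_count_h56 S (fun x (ω : V → Fin (2 * m + 1)) => odl_h56 (ω (mt_h56 O u v x)) ∧
      odl_h56 (ω (mt_h56 O u v (σ i x))))
    (fun a x => mt_h56 O u v x = a ∨ mt_h56 O u v (σ i x) = a) ?_ 6 ?_
  · intro r _ ω a l hd
    push Not at hd
    rw [Function.update_of_ne hd.1, Function.update_of_ne hd.2]
  · intro a
    refine (card_or_h56 S _ _ (a := 1) (b := 1) ?_ ?_).trans (by omega)
    · rw [Finset.card_le_one]
      intro x hx y hy
      rw [Finset.mem_filter] at hx hy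
      exact mt_inj_h56 P (hS x hx.1).1 (hS y hy.1).1 (hx.2.trans hy.2.symm)
    · rw [Finset.card_le_one]
      intro x hx y hy
      rw [Finset.mem_filter] at hx hy
      exact (σ i).injective
        (mt_inj_h56 P (hS x hx.1).2 (hS y hy.1).2 (hx.2.trans hy.2.symm))

end

/-- stage B: random levels -/
theorem stageB_h56 (ε : ℝ) (h : ℕ) (hε : 0 < ε) (hh : 3 ≤ h) (hodd : h % 2 = 1) : ∃ N₀ : ℕ,
    ∀ (V C : Type) [Fintype V] [DecidableEq V] [Fintype C] [DecidableEq C]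
      (σ : C → Equiv.Perm V), HD σ → N₀ ≤ Fintype.card V →
      ∀ (O : Finset C) (cl : C → Fin 3) (z0 u v : C → V) (δ q κ ε₁ : ℝ)
        (Uu : Finset V) (Sg : C → V → Finset V) (ty : C → Fin 3),
      Prs_h56 σ O z0 u v → 0 ≤ ε₁ →
      TA_h56 σ O Uu u v cl δ q κ ε₁ Sg ty →
      ∃ lev : V → ℕ, Types σ (univ \ O) Uu u v cl δ h q κ (ε₁ + ε) Sg ty lev := by
  classical
  obtain ⟨m, rfl⟩ : ∃ m, h = 2 * m + 1 := ⟨h / 2, by omega⟩
  obtain ⟨N₁, hN₁⟩ := conc_h56 ε hε 6 5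
  refine ⟨N₁ + 3 * (2 * m + 1) + 100, ?_⟩
  intro V C _ _ _ _ σ hd hN O cl z0 u v δ q κ ε₁ Uu Sg ty P hε1 TA
  set N := Fintype.card V with hNdef
  have hn : 2 * Fintype.card C + 1 ≤ N := hd_deg hd
  have hNR : (0 : ℝ) < N := by
    have : 0 < N := by omega
    exact_mod_cast this
  set Lv : Finset C := univ \ O with hLv
  -- index sets
  obtain ⟨S1, hS1⟩ : ∃ S1 : C → V → ℕ → Finset ℕ, ∀ i x Lx, S1 i x Lx =
      (range Lx).filter (fun r => spin Lv Uu u v ty ((σ i ^ r) x) ∧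
        spin Lv Uu u v ty ((σ i ^ (r + 1)) x)) := ⟨_, fun _ _ _ => rfl⟩
  obtain ⟨S2, hS2⟩ : ∃ S2 : V → Fin 3 → Finset (C × Bool), ∀ y k, S2 y k =
      univ.filter (fun p => cl p.1 = k ∧ spin Lv Uu u v ty (nb σ p y)) := ⟨_, fun _ _ => rfl⟩
  obtain ⟨S5, hS5⟩ : ∃ S5 : C → Finset V, ∀ i, S5 i =
      univ.filter (fun x => leaf Lv u v ty x ∧ leaf Lv u v ty (σ i x)) := ⟨_, fun _ => rfl⟩
  let F1 : C × V × Fin (N + 1) × Fin 3 → (V → Fin (2 * m + 1)) → ℝ := fun t ω =>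
    (((S1 t.1 t.2.1 t.2.2.1.val).filter (fun r => lvf_h56 t.2.2.2
      (ω ((σ t.1 ^ r) t.2.1)) (ω ((σ t.1 ^ (r + 1)) t.2.1)))).card : ℝ)
  let F2 : V × Fin (2 * m + 2) × Fin 3 → (V → Fin (2 * m + 1)) → ℝ := fun t ω =>
    (((S2 t.1 t.2.2).filter (fun p => lve_h56 t.2.1.val (ω (nb σ p t.1)))).card : ℝ)
  let F5 : C → (V → Fin (2 * m + 1)) → ℝ := fun t ω =>
    (((S5 t).filter (fun x => odl_h56 (ω (mt_h56 O u v x)) ∧
      odl_h56 (ω (mt_h56 O u v (σ t x))))).card : ℝ)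
  have hcard : Fintype.card ((C × V × Fin (N + 1) × Fin 3) ⊕ ((V × Fin (2 * m + 2) × Fin 3) ⊕
      C)) ≤ N ^ 5 := by
    simp only [Fintype.card_sum, Fintype.card_prod, Fintype.card_fin]
    rw [← hNdef]
    have hCN : Fintype.card C ≤ N := by omega
    have hN100 : 100 ≤ N := by omega
    have h1 : Fintype.card C * (N * ((N + 1) * 3)) ≤ N * (N * ((N + 1) * 3)) :=
      Nat.mul_le_mul_right _ hCN
    have h2 : N * ((2 * m + 2) * 3) ≤ N * (N * 3) := by
      apply Nat.mul_le_mul_left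
      omega
    have h3 : N ≤ N * N := by nlinarith
    have h4 : N * N * 100 ≤ N * N * N := Nat.mul_le_mul_left _ hN100
    have h5 : N * N * N * 100 ≤ N * N * N * N := Nat.mul_le_mul_left _ hN100
    have h6 : N * N * N * N ≤ N ^ 5 := by
      have : N ^ 5 = N * N * N * N * N := by ring
      rw [this]
      exact Nat.le_mul_of_pos_right _ (by omega)
    have h7 : N * (N * ((N + 1) * 3)) = 3 * (N * N * N) + 3 * (N * N) := by ring
    have h8 : N * (N * 3) = 3 * (N * N) := by ring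
    omega
  have hV : Nonempty V := Fintype.card_pos_iff.1 (by omega)
  obtain ⟨ω, hω⟩ := hN₁ V (Fin (2 * m + 1)) N (by omega) le_rfl _ hcard
    (Sum.elim F1 (Sum.elim F2 F5)) (by
      rintro (t | t | t)
      · refine B7_h56 hd t.1 t.2.1 _ _ ?_
        rw [hS1]
        refine (Finset.filter_subset _ _).trans ?_
        rw [Finset.range_subset_range]
        have := t.2.2.1.2
        omega
      · exact B8_h56 hd t.1 _ _
      · refine B9_h56 P t _ ?_
        intro x hx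
        rw [hS5, Finset.mem_filter] at hx
        exact ⟨leaf_cvd_h56 hx.2.1, leaf_cvd_h56 hx.2.2⟩)
  have w1 : ∀ t, |F1 t ω - avg (F1 t)| ≤ ε * N := fun t => hω (Sum.inl t)
  have w2 : ∀ t, |F2 t ω - avg (F2 t)| ≤ ε * N := fun t => hω (Sum.inr (Sum.inl t))
  have w5 : ∀ t, |F5 t ω - avg (F5 t)| ≤ ε * N := fun t => hω (Sum.inr (Sum.inr t))
  clear hω
  have hεN1 : 0 ≤ ε₁ * N := mul_nonneg hε1 hNR.le
  have hεN : 0 ≤ ε * N := by positivity
  have hhR : (0 : ℝ) < ((2 * m + 1 : ℕ) : ℝ) := by positivity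
  have hm1 : 1 ≤ m := by omega
  have hm1R : (1 : ℝ) ≤ m := by exact_mod_cast hm1
  have hmono : ∀ a b : ℝ, a - ε₁ * N ≤ b → a - (ε₁ + ε) * N ≤ b := by
    intro a b hab
    have : (ε₁ + ε) * (N : ℝ) = ε₁ * N + ε * N := by ring
    linarith
  refine ⟨fun x => (ω x).val + 1, ?_, ?_, ?_, ?_, ?_, ?_, ?_, ?_⟩
  · intro x
    have := (ω x).2
    omega
  · intro i x Lx g hg hL
    have w := abs_le.1 (w1 (i, x, ⟨Lx, by omega⟩, g))
    have e1 : avg (F1 (i, x, ⟨Lx, by omega⟩, g)) = _ := avg_count_h56 (S1 i x Lx)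
      (fun r (ω : V → Fin (2 * m + 1)) => lvf_h56 g (ω ((σ i ^ r) x)) (ω ((σ i ^ (r + 1)) x)))
    rw [e1] at w
    have h6 := w.1
    simp only [F1] at h6
    have hpr : ∀ r ∈ S1 i x Lx, 2 * (m : ℝ) / ((2 * m + 1 : ℕ) : ℝ) ^ 2 ≤
        prb_h56 (fun ω : V → Fin (2 * m + 1) =>
          lvf_h56 g (ω ((σ i ^ r) x)) (ω ((σ i ^ (r + 1)) x))) := by
      intro r _
      rw [prb_pair_h56 (a := (σ i ^ r) x) (b := (σ i ^ (r + 1)) x) (by
        rw [nb_arc_succ_h56]
        exact fun e => (hd_ne hd i _).1 e.symm)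
        (fun a b : Fin (2 * m + 1) => lvf_h56 g a b), Fintype.card_fin]
      refine div_le_div_of_nonneg_right ?_ (by positivity)
      have h2 : ((2 * m : ℕ) : ℝ) ≤ _ := Nat.cast_le.2 (lvc_count_h56 m g hg)
      rw [Nat.cast_mul, Nat.cast_ofNat] at h2
      exact h2
    have h7 := Finset.sum_le_sum hpr
    rw [Finset.sum_const, nsmul_eq_mul] at h7
    have h8 := TA.a1 i x Lx hL
    have e8 : (range Lx).filter (fun r => spin (univ \ O) Uu u v ty ((σ i ^ r) x) ∧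
      spin (univ \ O) Uu u v ty ((σ i ^ (r + 1)) x)) = S1 i x Lx := by
      rw [hS1]
    rw [e8] at h8
    have e9 : ∀ inst : DecidablePred (fun r => alw Lv Uu u v ty (fun x => (ω x).val + 1) g
        ((σ i ^ r) x) ((σ i ^ (r + 1)) x) ∨ alw Lv Uu u v ty (fun x => (ω x).val + 1) g
        ((σ i ^ (r + 1)) x) ((σ i ^ r) x)),
        @Finset.filter _ (fun r => alw Lv Uu u v ty (fun x => (ω x).val + 1) g
        ((σ i ^ r) x) ((σ i ^ (r + 1)) x) ∨ alw Lv Uu u v ty (fun x => (ω x).val + 1) g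
        ((σ i ^ (r + 1)) x) ((σ i ^ r) x)) inst (range Lx) = (S1 i x Lx).filter (fun r =>
        lvf_h56 g (ω ((σ i ^ r) x)) (ω ((σ i ^ (r + 1)) x))) := by
      intro inst
      rw [hS1, Finset.filter_filter]
      refine Finset.filter_congr fun r _ => ?_
      exact alw_iff_h56 _ _ _ _
    rw [e9]
    set c : ℝ := 2 * (m : ℝ) / ((2 * m + 1 : ℕ) : ℝ) ^ 2 with hc
    have hc0 : 0 ≤ c := by positivity
    have hc1 : c ≤ 1 := by
      rw [hc, div_le_one (by positivity)]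
      push_cast
      nlinarith
    have h9 : (q ^ 2 * Lx - ε₁ * N) * c ≤ ((S1 i x Lx).card : ℝ) * c :=
      mul_le_mul_of_nonneg_right h8 hc0
    have h10 : ε₁ * N * c ≤ ε₁ * N * 1 := mul_le_mul_of_nonneg_left hc1 hεN1
    have e11 : q ^ 2 * (((2 * m + 1 : ℕ) : ℝ) - 1) / ((2 * m + 1 : ℕ) : ℝ) ^ 2 * (Lx : ℝ) =
        q ^ 2 * Lx * c := by
      rw [hc]
      push_cast
      ring
    rw [e11]
    nlinarith
  · intro y j k hj1 hj2
    have w := abs_le.1 (w2 (y, ⟨j, by omega⟩, k))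
    have e1 : avg (F2 (y, ⟨j, by omega⟩, k)) = _ := avg_count_h56 (S2 y k)
      (fun p (ω : V → Fin (2 * m + 1)) => lve_h56 j (ω (nb σ p y)))
    rw [e1] at w
    have h6 := w.2
    simp only [F2] at h6
    have hpr : ∀ p ∈ S2 y k, prb_h56 (fun ω : V → Fin (2 * m + 1) =>
        lve_h56 j (ω (nb σ p y))) = 1 / ((2 * m + 1 : ℕ) : ℝ) := by
      intro p _
      rw [prb_one_h56 (nb σ p y) (fun a : Fin (2 * m + 1) => lve_h56 j a), Fintype.card_fin]
      congr 1
      have : ∀ inst : DecidablePred (fun a : Fin (2 * m + 1) => lve_h56 j a),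
          (@Finset.filter _ (fun a : Fin (2 * m + 1) => lve_h56 j a) inst univ).card = 1 := by
        intro inst
        rw [Finset.card_eq_one]
        refine ⟨(⟨j - 1, by omega⟩ : Fin (2 * m + 1)), Finset.ext fun a => ?_⟩
        rw [Finset.mem_filter, Finset.mem_singleton, Fin.ext_iff]
        unfold lve_h56
        constructor
        · rintro ⟨_, h1⟩
          simp only
          omega
        · intro h1
          simp only at h1
          exact ⟨Finset.mem_univ _, by omega⟩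
      rw [this]
      norm_num
    rw [Finset.sum_congr rfl hpr, Finset.sum_const, nsmul_eq_mul] at h6
    have h8 := TA.a2 y k
    have e8 : (univ : Finset (C × Bool)).filter (fun p => cl p.1 = k ∧
      spin (univ \ O) Uu u v ty (nb σ p y)) = S2 y k := by rw [hS2]
    rw [e8] at h8
    have e9 : ∀ inst : DecidablePred (fun p : C × Bool => cl p.1 = k ∧
        spin Lv Uu u v ty (nb σ p y) ∧ (ω (nb σ p y)).val + 1 = j),
        @Finset.filter _ (fun p : C × Bool => cl p.1 = k ∧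
        spin Lv Uu u v ty (nb σ p y) ∧ (ω (nb σ p y)).val + 1 = j) inst univ =
        (S2 y k).filter (fun p => lve_h56 j (ω (nb σ p y))) := by
      intro inst
      rw [hS2, Finset.filter_filter]
      refine Finset.filter_congr fun r _ => ?_
      exact and_assoc.symm
    rw [e9]
    set c : ℝ := 1 / ((2 * m + 1 : ℕ) : ℝ) with hc
    have hc0 : 0 ≤ c := by positivity
    have hc1 : c ≤ 1 := by
      rw [hc, div_le_one (by positivity)]
      push_cast
      linarith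
    have h9 : ((S2 y k).card : ℝ) * c ≤ (2 * q * ((univ.filter (fun i => cl i = k)).card : ℝ) +
        ε₁ * N) * c := mul_le_mul_of_nonneg_right h8 hc0
    have h10 : ε₁ * N * c ≤ ε₁ * N * 1 := mul_le_mul_of_nonneg_left hc1 hεN1
    have e11 : 2 * q / ((2 * m + 1 : ℕ) : ℝ) * ((univ.filter (fun i => cl i = k)).card : ℝ) =
        2 * q * ((univ.filter (fun i => cl i = k)).card : ℝ) * c := by
      rw [hc]
      ring
    rw [e11]
    nlinarith
  · intro x y hxy
    exact hmono _ _ (TA.a3 x y hxy)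
  · intro x
    exact hmono _ _ (TA.a3' x)
  · intro i x Lx hL
    exact hmono _ _ (TA.a4 i x Lx hL)
  · intro i
    have w := abs_le.1 (w5 i)
    have e1 : avg (F5 i) = _ := avg_count_h56 (S5 i) (fun x (ω : V → Fin (2 * m + 1)) =>
        odl_h56 (ω (mt_h56 O u v x)) ∧ odl_h56 (ω (mt_h56 O u v (σ i x))))
    rw [e1] at w
    have h6 := w.1
    simp only [F5] at h6
    have hpr : ∀ x ∈ S5 i, (1 : ℝ) / 4 ≤ prb_h56 (fun ω : V → Fin (2 * m + 1) =>
        odl_h56 (ω (mt_h56 O u v x)) ∧ odl_h56 (ω (mt_h56 O u v (σ i x)))) := by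
      intro x hx
      rw [hS5, Finset.mem_filter] at hx
      rw [prb_two_h56 (a := mt_h56 O u v x) (b := mt_h56 O u v (σ i x)) (by
        intro e
        exact (hd_ne hd i x).1 (mt_inj_h56 P (leaf_cvd_h56 hx.2.1) (leaf_cvd_h56 hx.2.2) e).symm)
        (fun a : Fin (2 * m + 1) => odl_h56 a)
        (fun a : Fin (2 * m + 1) => odl_h56 a), Fintype.card_fin]
      have h2 : ∀ inst : DecidablePred (fun a : Fin (2 * m + 1) => odl_h56 a),
          (1 : ℝ) / 2 ≤ ((@Finset.filter _ (fun a : Fin (2 * m + 1) => odl_h56 a)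
            inst univ).card : ℝ) / ((2 * m + 1 : ℕ) : ℝ) := by
        intro inst
        rw [le_div_iff₀ hhR]
        have h4 : ((m + 1 : ℕ) : ℝ) ≤ _ := Nat.cast_le.2 (odd_count_h56 m (inst := inst))
        have h5 : (1 : ℝ) / 2 * ((2 * m + 1 : ℕ) : ℝ) ≤ ((m + 1 : ℕ) : ℝ) := by
          push_cast; linarith
        exact h5.trans h4
      calc (1 : ℝ) / 4 = 1 / 2 * (1 / 2) := by norm_num
        _ ≤ _ := mul_le_mul (h2 _) (h2 _) (by norm_num) (by positivity)
    have h7 := Finset.sum_le_sum hpr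
    rw [Finset.sum_const, nsmul_eq_mul] at h7
    have h8 := TA.a5 i
    have e8 : (univ : Finset V).filter (fun x => leaf (univ \ O) u v ty x ∧
      leaf (univ \ O) u v ty (σ i x)) = S5 i := by rw [hS5]
    rw [e8] at h8
    have e9 : ∀ inst : DecidablePred (fun x => oleaf Lv u v ty (fun x => (ω x).val + 1) x ∧
        oleaf Lv u v ty (fun x => (ω x).val + 1) (σ i x)),
        @Finset.filter _ (fun x => oleaf Lv u v ty (fun x => (ω x).val + 1) x ∧
        oleaf Lv u v ty (fun x => (ω x).val + 1) (σ i x)) inst univ = (S5 i).filter (fun x =>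
        odl_h56 (ω (mt_h56 O u v x)) ∧ odl_h56 (ω (mt_h56 O u v (σ i x)))) := by
      intro inst
      rw [hS5, Finset.filter_filter]
      refine Finset.filter_congr fun r _ => ?_
      rw [oleaf_iff_h56 P, oleaf_iff_h56 P]
      unfold odl_h56
      tauto
    rw [e9]
    have e11 : ((1 - δ) / 4) ^ 2 * κ ^ 2 * (N : ℝ) =
        (((1 - δ) / 2) ^ 2 * κ ^ 2 * N) * (1 / 4) := by ring
    rw [e11]
    nlinarith
  · intro i b
    exact hmono _ _ (TA.a6 i b)

/-- block S2A: random types and levels.  `full`: uncovered vertices are spine (regime B) -/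
theorem types_exist (δ ε : ℝ) (h : ℕ) (hδ : 0 < δ) (hδ1 : δ ≤ 1 / 4) (hε : 0 < ε) (hh : 3 ≤ h)
    (hodd : h % 2 = 1) : ∃ N₀ : ℕ,
    ∀ (V C : Type) [Fintype V] [DecidableEq V] [Fintype C] [DecidableEq C]
      (σ : C → Equiv.Perm V), HD σ → N₀ ≤ Fintype.card V → Fintype.card V ≤ 7 * Fintype.card C →
      ∀ (O : Finset C) (cl : C → Fin 3) (z0 z1 u v v' w b : C → V) (ρ : V → ℕ) (κ ε₀ : ℝ)
        (full : Bool) (Sg : C → V → Finset V),
      Out1 σ O z0 z1 u v v' w b ρ → κ = 2 * (Fintype.card C - O.card) / Fintype.card V →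
      0 ≤ ε₀ → Reg σ (cvd O u v) κ ε₀ cl → ((∀ i x, Sg i x = ∅) ∨ 1 - κ ≤ ε₀) →
      ∃ (ty : C → Fin 3) (lev : V → ℕ),
        Types σ (univ \ O) (if full then univ \ cvd O u v else ∅) u v cl δ h
          (κ * (1 - δ) / 2 + if full then 1 - κ else 0) κ (20 * ε₀ + ε) Sg ty lev := by
  classical
  obtain ⟨N₁, h1⟩ := stageA_h56 δ (ε / 2) hδ hδ1 (by positivity)
  obtain ⟨N₂, h2⟩ := stageB_h56 (ε / 2) h (by positivity) hh hodd
  refine ⟨N₁ + N₂, ?_⟩
  intro V C _ _ _ _ σ hd hN h7 O cl z0 z1 u v v' w b ρ κ ε₀ full Sg Out hκ hε0 R hSg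
  have hn := hd_deg hd
  have hNR : (0 : ℝ) < Fintype.card V := by
    have : 0 < Fintype.card V := by omega
    exact_mod_cast this
  have hO : (O.card : ℝ) ≤ Fintype.card C := by exact_mod_cast Finset.card_le_univ O
  have hn' : 2 * (Fintype.card C : ℝ) ≤ Fintype.card V := by
    have : 2 * Fintype.card C ≤ Fintype.card V := by omega
    exact_mod_cast this
  have hO0 : (0 : ℝ) ≤ O.card := Nat.cast_nonneg _
  have hκ0 : 0 ≤ κ := by
    rw [hκ]
    apply div_nonneg _ hNR.le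
    linarith
  have hκ1 : κ ≤ 1 := by
    rw [hκ, div_le_one hNR]
    linarith
  have P := prs_of_out1_h56 hd Out
  obtain ⟨ty, hty⟩ := h1 V C σ hd (by omega) O cl z0 u v κ ε₀ full Sg P hκ0 hκ1 hε0 R hSg
  obtain ⟨lev, hlev⟩ := h2 V C σ hd (by omega) O cl z0 u v δ _ κ (6 * ε₀ + ε / 2)
    (Uf_h56 O u v full) Sg ty P (by positivity) hty
  refine ⟨ty, lev, ?_⟩
  have hle : 6 * ε₀ + ε / 2 + ε / 2 ≤ 20 * ε₀ + ε := by linarith
  have hleN : (6 * ε₀ + ε / 2 + ε / 2) * (Fintype.card V : ℝ) ≤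
      (20 * ε₀ + ε) * Fintype.card V := mul_le_mul_of_nonneg_right hle hNR.le
  have hU : Uf_h56 O u v full = if full then univ \ cvd O u v else ∅ := rfl
  rw [hU] at hlev
  refine ⟨hlev.lev1, ?_, ?_, ?_, ?_, ?_, ?_, ?_⟩
  · intro i x L g hg hL
    exact (sub_le_sub_left hleN _).trans (hlev.t1 i x L g hg hL)
  · intro y j k hj1 hj2
    exact (hlev.t2 y j k hj1 hj2).trans (by linarith)
  · intro x y hxy
    exact (sub_le_sub_left hleN _).trans (hlev.t3 x y hxy)
  · intro x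
    exact (sub_le_sub_left hleN _).trans (hlev.t3' x)
  · intro i x L hL
    exact (sub_le_sub_left hleN _).trans (hlev.t4 i x L hL)
  · intro i
    exact (sub_le_sub_left hleN _).trans (hlev.t5 i)
  · intro i b
    exact (sub_le_sub_left hleN _).trans (hlev.t6 i b)

end Pool.Agent.KZ
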