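import Pool.Agent.Lib_helper15.KZF.DefsA
import Pool.Agent.Lib_helper15.KZF.DefsN
import Pool.Agent.Lib_helper15.KZF.ED
import Pool.Agent.Lib_helper15.KZF.T_TF

/-!
# Choice of the helper colours (block X)
-/

set_option autoImplicit false
set_option linter.unusedSectionVars false

namespace Pool.Agent.KZ

open Finset

variable {V C : Type} [Fintype V] [DecidableEq V] [Fintype C] [DecidableEq C]
variable {σ : C → Equiv.Perm V}

lemma cx_ed_nb_h56 (σ : C → Equiv.Perm V) (p : C × Bool) (x : V) :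
    ed σ p.1 (es σ p x) = s(x, nb σ p x) := by
  obtain ⟨i, b⟩ := p
  cases b
  · unfold ed es
    rw [nb_false_h56]
    simp [Sym2.eq_swap]
  · rfl

lemma cx_nb_of_ed_h56 {x w : V} {j : C} {z : V} (he : ed σ j z = s(x, w)) :
    w = σ j x ∨ w = (σ j)⁻¹ x := by
  unfold ed at he
  rw [Sym2.eq_iff] at he
  rcases he with ⟨rfl, rfl⟩ | ⟨rfl, rfl⟩
  · exact Or.inl rfl
  · right; simp

open Classical in
/-- the neighbourhood through the colours outside of `O` has `2 (n - o)` elements -/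
lemma cx_card_h56 (h : HD σ) (O : Finset C) (x : V) :
    (((univ : Finset (C × Bool)).filter (fun p => p.1 ∉ O)).image
      (fun p => nb σ p x)).card = 2 * (Fintype.card C - O.card) := by
  rw [Finset.card_image_of_injective _ (fun p q e => nb_inj_h56 h x e)]
  have : (univ : Finset (C × Bool)).filter (fun p => p.1 ∉ O) =
      (univ \ O) ×ˢ (univ : Finset Bool) := by
    ext p; simp
  rw [this, Finset.card_product, Finset.card_univ, Fintype.card_bool,
    Finset.card_sdiff_of_subset (Finset.subset_univ _), Finset.card_univ, mul_comm]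

/-- block X: choice of the helper colours (regime A) -/
theorem choose_X (p ε : ℝ) (hp0 : 0 < p) (hp1 : p ≤ 1 / 10) (hε : 0 < ε) : ∃ N₀ : ℕ,
    ∀ (V C : Type) [Fintype V] [DecidableEq V] [Fintype C] [DecidableEq C]
      (σ : C → Equiv.Perm V), HD σ → N₀ ≤ Fintype.card V →
      (Fintype.card V : ℝ) ≤ 2.1 * Fintype.card C →
      ∀ O : Finset C, (O.card : ℝ) ≤ Fintype.card C / 100 →
      ∃ X : Finset C, Disjoint X O ∧
        |(X.card : ℝ) - p * (Fintype.card C - O.card)| ≤ ε * Fintype.card V ∧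
        ∀ i ∈ O, ∀ b, p ^ 2 / 2 * Fintype.card V ≤ (SgX σ X i b).card := by
  classical
  set ε₂ : ℝ := min (ε / 4) (p ^ 2 / 10) with hε2
  have hε2p : 0 < ε₂ := by rw [hε2]; positivity
  have hε2a : ε₂ ≤ ε / 4 := min_le_left _ _
  have hε2b : ε₂ ≤ p ^ 2 / 10 := min_le_right _ _
  obtain ⟨M, τ, δ', p', T, hd1, hd2⟩ := law_exists_h56 p ε₂ hp0 (by linarith) hε2p
  obtain ⟨N₁, hN₁⟩ := conc_h56 ε₂ hε2p 4 5
  refine ⟨N₁ + 100, ?_⟩
  intro V C _ _ _ _ σ h hN hVC O hO
  set N := Fintype.card V with hNdef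
  set n := Fintype.card C with hndef
  have hn : 2 * n + 1 ≤ N := hd_deg h
  have hNR : (0 : ℝ) < N := by
    have : 0 < N := by omega
    exact_mod_cast this
  have hnR : 2 * (n : ℝ) ≤ N := by
    have : 2 * n ≤ N := by omega
    exact_mod_cast this
  have hOn : O.card ≤ n := Finset.card_le_univ O
  have hOnR : (O.card : ℝ) ≤ n := by exact_mod_cast hOn
  have hO0 : (0 : ℝ) ≤ O.card := Nat.cast_nonneg _
  -- the random set
  obtain ⟨Xs, hXs⟩ : ∃ Xs : (C → Fin (M + 1) × Bool) → Finset C, ∀ ω, Xs ω =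
      univ.filter (fun c => c ∉ O ∧ τ (ω c) = 0) := ⟨_, fun _ => rfl⟩
  let F1 : Unit → (C → Fin (M + 1) × Bool) → ℝ := fun _ ω =>
    (((univ \ O).filter (fun c => τ (ω c) = 0)).card : ℝ)
  let F2 : C × V → (C → Fin (M + 1) × Bool) → ℝ := fun t ω =>
    (((univ : Finset V).filter (fun β =>
      (∃ c ∈ Xs ω, ∃ z, ed σ c z = s(t.2, (σ t.1)⁻¹ β)) ∧
      (∃ c ∈ Xs ω, ∃ z, ed σ c z = s(σ t.1 t.2, σ t.1 β)))).card : ℝ)
  have hcard : Fintype.card (Unit ⊕ (C × V)) ≤ N ^ 5 := by
    simp only [Fintype.card_sum, Fintype.card_prod, Fintype.card_unit]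
    rw [← hNdef, ← hndef]
    have h1 : n * N ≤ N * N := Nat.mul_le_mul_right _ (by omega)
    have h2 : 1 ≤ N := by omega
    have h4 : N * N * 100 ≤ N * N * N := Nat.mul_le_mul_left _ (by omega)
    have h5 : N * N * N ≤ N ^ 5 := by
      have : N ^ 5 = N * N * N * (N * N) := by ring
      rw [this]
      exact Nat.le_mul_of_pos_right _ (by nlinarith)
    nlinarith
  have hdepX : ∀ (ω : C → Fin (M + 1) × Bool) (a : C) (l : Fin (M + 1) × Bool) (x w : V),
      w ≠ σ a x → w ≠ (σ a)⁻¹ x →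
      ((∃ c ∈ Xs (Function.update ω a l), ∃ z, ed σ c z = s(x, w)) ↔
        (∃ c ∈ Xs ω, ∃ z, ed σ c z = s(x, w))) := by
    intro ω a l x w h1 h2
    refine exists_congr fun c => ?_
    constructor
    · rintro ⟨hc, z, hz⟩
      have hca : c ≠ a := by
        rintro rfl
        rcases cx_nb_of_ed_h56 hz with h' | h'
        · exact h1 h'
        · exact h2 h'
      rw [hXs, Finset.mem_filter, Function.update_of_ne hca] at hc
      rw [hXs, Finset.mem_filter]
      exact ⟨hc, z, hz⟩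
    · rintro ⟨hc, z, hz⟩
      have hca : c ≠ a := by
        rintro rfl
        rcases cx_nb_of_ed_h56 hz with h' | h'
        · exact h1 h'
        · exact h2 h'
      rw [hXs, Finset.mem_filter] at hc
      rw [hXs, Finset.mem_filter, Function.update_of_ne hca]
      exact ⟨hc, z, hz⟩
  obtain ⟨ω, hω⟩ := hN₁ C (Fin (M + 1) × Bool) N (by omega) (by omega) _ hcard
    (Sum.elim F1 F2) (by
      rintro (t | ⟨i, b⟩)
      · refine bd_count_h56 (univ \ O) (fun c (ω : C → Fin (M + 1) × Bool) => τ (ω c) = 0)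
          (fun a c => c = a) ?_ 4 ?_
        · intro c _ ω a l hd
          rw [Function.update_of_ne hd]
        · intro a
          refine le_trans ?_ (by omega : 1 ≤ 4)
          rw [Finset.card_le_one]
          intro x hx y hy
          rw [Finset.mem_filter] at hx hy
          exact hx.2.trans hy.2.symm
      · refine bd_count_h56 (univ : Finset V) (fun β (ω : C → Fin (M + 1) × Bool) =>
          (∃ c ∈ Xs ω, ∃ z, ed σ c z = s(b, (σ i)⁻¹ β)) ∧
          (∃ c ∈ Xs ω, ∃ z, ed σ c z = s(σ i b, σ i β)))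
          (fun a β => ((σ i)⁻¹ β = σ a b ∨ (σ i)⁻¹ β = (σ a)⁻¹ b) ∨
            (σ i β = σ a (σ i b) ∨ σ i β = (σ a)⁻¹ (σ i b))) ?_ 4 ?_
        · intro β _ ω a l hd
          push Not at hd
          rw [hdepX ω a l _ _ hd.1.1 hd.1.2, hdepX ω a l _ _ hd.2.1 hd.2.2]
        · intro a
          exact card_or_h56 _ _ _ (card_or_h56 _ _ _ (perm_fiber_h56 _ _ _) (perm_fiber_h56 _ _ _))
            (card_or_h56 _ _ _ (perm_fiber_h56 _ _ _) (perm_fiber_h56 _ _ _)))
  have w1 : |F1 () ω - avg (F1 ())| ≤ ε₂ * N := hω (Sum.inl ())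
  have w2 : ∀ t, |F2 t ω - avg (F2 t)| ≤ ε₂ * N := fun t => hω (Sum.inr t)
  clear hω
  have hpr0 : ∀ c : C, prb_h56 (fun ω : C → Fin (M + 1) × Bool => τ (ω c) = 0) = δ' := by
    intro c
    rw [prb_one_h56 c (fun l => τ l = 0)]
    convert T.l0
  refine ⟨Xs ω, ?_, ?_, ?_⟩
  · rw [Finset.disjoint_left]
    intro c hc
    rw [hXs, Finset.mem_filter] at hc
    exact hc.2.1
  · have e1 : avg (F1 ()) = _ := avg_count_h56 (univ \ O)
      (fun c (ω : C → Fin (M + 1) × Bool) => τ (ω c) = 0)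
    rw [Finset.sum_congr rfl (fun c _ => hpr0 c), Finset.sum_const, nsmul_eq_mul,
      Finset.card_sdiff_of_subset (Finset.subset_univ _), Finset.card_univ,
      Nat.cast_sub hOn] at e1
    rw [e1] at w1
    have e2 : ((Xs ω).card : ℝ) = F1 () ω := by
      simp only [F1]
      rw [Nat.cast_inj, hXs]
      congr 1
      ext c
      simp
    rw [e2]
    have h1 := abs_le.1 w1
    have h3 : ((n : ℝ) - O.card) * δ' - p * ((n : ℝ) - O.card) ≤ ε₂ * N := by
      have e3 : ((n : ℝ) - O.card) * δ' - p * ((n : ℝ) - O.card) =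
        (δ' - p) * ((n : ℝ) - O.card) := by ring
      rw [e3]
      exact mul_le_mul (by linarith) (by linarith) (by linarith) hε2p.le
    have h4 : 0 ≤ ((n : ℝ) - O.card) * δ' - p * ((n : ℝ) - O.card) := by
      have e3 : ((n : ℝ) - O.card) * δ' - p * ((n : ℝ) - O.card) =
        (δ' - p) * ((n : ℝ) - O.card) := by ring
      rw [e3]
      exact mul_nonneg (by linarith) (by linarith)
    have h5 : ε₂ * N ≤ ε / 4 * N := mul_le_mul_of_nonneg_right hε2a hNR.le
    have h6 : 0 ≤ ε * N := by positivity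
    rw [abs_le]
    constructor
    · linarith [h1.1]
    · linarith [h1.2]
  · intro i hi b
    have w := (abs_le.1 (w2 (i, b))).1
    have e1 : avg (F2 (i, b)) = _ := avg_count_h56 (univ : Finset V)
      (fun β (ω : C → Fin (M + 1) × Bool) =>
        (∃ c ∈ Xs ω, ∃ z, ed σ c z = s(b, (σ i)⁻¹ β)) ∧
        (∃ c ∈ Xs ω, ∃ z, ed σ c z = s(σ i b, σ i β)))
    rw [e1] at w
    have e2 : F2 (i, b) ω = ((SgX σ (Xs ω) i b).card : ℝ) := by
      simp only [F2]
      unfold SgX
      congr 2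
    rw [← e2]
    -- good `β`
    set N1 := ((univ : Finset (C × Bool)).filter (fun p => p.1 ∉ O)).image
      (fun p => nb σ p b) with hN1
    set N2 := ((univ : Finset (C × Bool)).filter (fun p => p.1 ∉ O)).image
      (fun p => nb σ p (σ i b)) with hN2
    have c1 : N1.card = 2 * (n - O.card) := cx_card_h56 h O b
    have c2 : N2.card = 2 * (n - O.card) := cx_card_h56 h O (σ i b)
    set G := (univ : Finset V).filter (fun β => (σ i)⁻¹ β ∈ N1 ∧ σ i β ∈ N2) with hG
    have hbad : univ \ G ⊆ (univ \ N1).image (fun y => σ i y) ∪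
        (univ \ N2).image (fun y => (σ i)⁻¹ y) := by
      intro β hβ
      rw [Finset.mem_sdiff, hG, Finset.mem_filter] at hβ
      simp only [Finset.mem_univ, true_and] at hβ
      rw [Finset.mem_union, Finset.mem_image, Finset.mem_image]
      by_cases h1 : (σ i)⁻¹ β ∈ N1
      · right
        exact ⟨σ i β, Finset.mem_sdiff.2 ⟨Finset.mem_univ _, fun h2 => hβ ⟨h1, h2⟩⟩, by simp⟩
      · left
        exact ⟨(σ i)⁻¹ β, Finset.mem_sdiff.2 ⟨Finset.mem_univ _, h1⟩, by simp⟩
    have c3 := (Finset.card_le_card hbad).trans (Finset.card_union_le _ _)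
    have c4 := Finset.card_image_le (s := univ \ N1) (f := fun y => σ i y)
    have c5 := Finset.card_image_le (s := univ \ N2) (f := fun y => (σ i)⁻¹ y)
    rw [Finset.card_sdiff_of_subset (Finset.subset_univ _), Finset.card_univ] at c3 c4 c5
    have c6 : N ≤ G.card + 2 * (N - 2 * (n - O.card)) := by omega
    have c7 : (4 : ℝ) * (n - O.card) - N ≤ G.card := by
      have c8 : 4 * (n - O.card) ≤ G.card + N := by omega
      have c9 : ((4 * (n - O.card) : ℕ) : ℝ) ≤ ((G.card + N : ℕ) : ℝ) := Nat.cast_le.2 c8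
      rw [Nat.cast_mul, Nat.cast_sub hOn, Nat.cast_add] at c9
      push_cast at c9
      linarith
    have hpr : ∀ β ∈ G, p ^ 2 ≤ prb_h56 (fun ω : C → Fin (M + 1) × Bool =>
        (∃ c ∈ Xs ω, ∃ z, ed σ c z = s(b, (σ i)⁻¹ β)) ∧
        (∃ c ∈ Xs ω, ∃ z, ed σ c z = s(σ i b, σ i β))) := by
      intro β hβ
      rw [hG, Finset.mem_filter, hN1, hN2, Finset.mem_image, Finset.mem_image] at hβ
      obtain ⟨-, ⟨q, hq, e3⟩, ⟨q', hq', e3'⟩⟩ := hβ
      rw [Finset.mem_filter] at hq hq'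
      have h1 : prb_h56 (fun ω : C → Fin (M + 1) × Bool =>
          ∀ a ∈ ({q.1, q'.1} : Finset C), τ (ω a) = 0) = δ' ^ ({q.1, q'.1} : Finset C).card := by
        rw [prb_all_h56 ({q.1, q'.1} : Finset C) (fun l => τ l = 0)]
        have h3 : ∀ inst : DecidablePred (fun l => τ l = 0),
            (((@Finset.filter _ (fun l => τ l = 0) inst univ).card : ℝ) /
              (Fintype.card (Fin (M + 1) × Bool) : ℝ)) = δ' := by
          intro inst
          convert T.l0
        rw [h3]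
      have h2 : p ^ 2 ≤ δ' ^ ({q.1, q'.1} : Finset C).card :=
        (pow_le_pow_left₀ hp0.le hd1 2).trans
          (pow_le_pow_of_le_one T.d0 T.d1 Finset.card_le_two)
      rw [← h1] at h2
      refine h2.trans (prb_mono_h56 fun ω hh => ⟨?_, ?_⟩)
      · refine ⟨q.1, ?_, es σ q b, ?_⟩
        · rw [hXs, Finset.mem_filter]
          exact ⟨Finset.mem_univ _, hq.2, hh q.1 (by simp)⟩
        · rw [cx_ed_nb_h56, e3]
      · refine ⟨q'.1, ?_, es σ q' (σ i b), ?_⟩
        · rw [hXs, Finset.mem_filter]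
          exact ⟨Finset.mem_univ _, hq'.2, hh q'.1 (by simp)⟩
        · rw [cx_ed_nb_h56, e3']
    have h8 : ∑ β ∈ G, p ^ 2 ≤ ∑ β : V, prb_h56 (fun ω : C → Fin (M + 1) × Bool =>
        (∃ c ∈ Xs ω, ∃ z, ed σ c z = s(b, (σ i)⁻¹ β)) ∧
        (∃ c ∈ Xs ω, ∃ z, ed σ c z = s(σ i b, σ i β))) :=
      (Finset.sum_le_sum hpr).trans (Finset.sum_le_sum_of_subset_of_nonneg
        (Finset.subset_univ _) fun _ _ _ => prb_nonneg_h56 _)
    rw [Finset.sum_const, nsmul_eq_mul] at h8
    have h9 : (4 : ℝ) / 5 * N ≤ G.card := by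
      refine le_trans ?_ c7
      norm_num at hVC
      linarith
    have h10 : 4 / 5 * N * p ^ 2 ≤ G.card * p ^ 2 :=
      mul_le_mul_of_nonneg_right h9 (sq_nonneg _)
    have h11 : ε₂ * N ≤ p ^ 2 / 10 * N := mul_le_mul_of_nonneg_right hε2b hNR.le
    have h12 : 0 ≤ p ^ 2 * N := by positivity
    change p ^ 2 / 2 * (N : ℝ) ≤ F2 (i, b) ω
    nlinarith

end Pool.Agent.KZ
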