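import Pool.Agent.Lib_helper15.KZF.DefsA
import Pool.Agent.Lib_helper15.KZF.DefsN

/-! Block EXT (helper8) -/

set_option autoImplicit false

namespace Pool.Agent.KZ

open Finset

/-- block EXT -/
theorem ext_exist {V C : Type} [Fintype V] [DecidableEq V] [Fintype C] [DecidableEq C]
    (σ : C → Equiv.Perm V) (hσ : HD σ) (Y Lv : Finset C) (u v : C → V) (ty : C → Fin 3)
    (lev : V → ℕ) (H : ∀ c ∈ Y, ∃ S : Finset V, 4 * Y.card < S.card ∧
      ∀ x ∈ S, oleaf Lv u v ty lev x ∧ oleaf Lv u v ty lev (σ c x)) :
    ∃ ze : C → V, Extr σ Y Lv u v ty lev ze := by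
  classical
  have hne : Nonempty V := by
    rw [← Fintype.card_pos_iff]
    have := hσ.three
    omega
  suffices h : ∀ Y' ⊆ Y, ∃ ze : C → V, Extr σ Y' Lv u v ty lev ze from h Y (Finset.Subset.refl _)
  intro Y'
  induction Y' using Finset.induction_on with
  | empty =>
    intro _
    refine ⟨fun _ => Classical.arbitrary V, ⟨?_, ?_⟩⟩
    · intro c hc
      simp at hc
    · intro c hc
      simp at hc
  | insert c Y' hc ih =>
    intro hsub
    obtain ⟨ze, hze⟩ := ih ((Finset.subset_insert _ _).trans hsub)
    have hcY : c ∈ Y := hsub (Finset.mem_insert_self _ _)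
    obtain ⟨S, hS, hSo⟩ := H c hcY
    set U : Finset V := Y'.biUnion (fun d => {ze d, σ d (ze d)}) with hU
    have hUc : U.card ≤ 2 * Y'.card := by
      refine Finset.card_biUnion_le.trans ?_
      calc ∑ d ∈ Y', ({ze d, σ d (ze d)} : Finset V).card ≤ ∑ d ∈ Y', 2 :=
            Finset.sum_le_sum fun d _ => Finset.card_le_two
        _ = 2 * Y'.card := by rw [Finset.sum_const, smul_eq_mul, mul_comm]
    have hY' : Y'.card ≤ Y.card :=
      Finset.card_le_card ((Finset.subset_insert _ _).trans hsub)
    have hex : ∃ x ∈ S, x ∉ U ∧ σ c x ∉ U := by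
      by_contra hcon
      push Not at hcon
      have hsub2 : S ⊆ U ∪ U.image (fun y => (σ c)⁻¹ y) := by
        intro x hx
        rw [Finset.mem_union]
        by_cases hxU : x ∈ U
        · exact Or.inl hxU
        · right
          rw [Finset.mem_image]
          exact ⟨σ c x, hcon x hx hxU, by simp⟩
      have h1 := Finset.card_le_card hsub2
      have h2 := Finset.card_union_le U (U.image (fun y => (σ c)⁻¹ y))
      have h3 : (U.image (fun y => (σ c)⁻¹ y)).card ≤ U.card := Finset.card_image_le
      omega
    obtain ⟨x, hxS, hx1, hx2⟩ := hex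
    have hold : ∀ d ∈ Y', Function.update ze c x d = ze d := by
      intro d hd
      apply Function.update_of_ne
      rintro rfl
      exact hc hd
    have hdis : ∀ d ∈ Y', Disjoint ({x, σ c x} : Finset V) {ze d, σ d (ze d)} := by
      intro d hd
      rw [Finset.disjoint_left]
      intro y hy hy2
      have hyU : y ∈ U := by
        rw [hU, Finset.mem_biUnion]
        exact ⟨d, hd, hy2⟩
      rw [Finset.mem_insert, Finset.mem_singleton] at hy
      rcases hy with rfl | rfl
      · exact hx1 hyU
      · exact hx2 hyU
    refine ⟨Function.update ze c x, ⟨?_, ?_⟩⟩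
    · intro d hd
      rw [Finset.mem_insert] at hd
      rcases hd with rfl | hd
      · rw [Function.update_self]
        exact hSo x hxS
      · rw [hold d hd]
        exact hze.ol d hd
    · intro d hd d' hd' hne'
      rw [Finset.mem_insert] at hd hd'
      rcases hd with rfl | hd
      · rcases hd' with rfl | hd'
        · exact absurd rfl hne'
        · rw [Function.update_self, hold d' hd']
          exact hdis d' hd'
      · rcases hd' with rfl | hd'
        · rw [Function.update_self, hold d hd]
          exact (hdis d hd).symm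
        · rw [hold d hd, hold d' hd']
          exact hze.dis d hd d' hd' hne'

end Pool.Agent.KZ
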