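import Pool.Agent.Lib_helper15.KZF.DefsA
import Pool.Agent.Lib_helper15.KZF.DefsN

/-! Block GAD (helper8) -/

set_option autoImplicit false

namespace Pool.Agent.KZ

open Finset

/-- greedy choice -/
theorem GAD_greedy {C G : Type} [DecidableEq C] [Nonempty G] (O : Finset C) (P : C → G → Prop)
    (Q : G → G → Prop) (hsymm : ∀ g g', Q g g' → Q g' g)
    (step : ∀ O' ⊆ O, ∀ F : C → G, (∀ i ∈ O', P i (F i)) → ∀ i ∈ O, i ∉ O' →
      ∃ g, P i g ∧ ∀ i' ∈ O', Q g (F i')) :
    ∃ F : C → G, (∀ i ∈ O, P i (F i)) ∧ ∀ i ∈ O, ∀ i' ∈ O, i ≠ i' → Q (F i) (F i') := by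
  classical
  suffices h : ∀ O' ⊆ O, ∃ F : C → G, (∀ i ∈ O', P i (F i)) ∧
      ∀ i ∈ O', ∀ i' ∈ O', i ≠ i' → Q (F i) (F i') from h O (Finset.Subset.refl _)
  intro O'
  induction O' using Finset.induction_on with
  | empty =>
    intro _
    refine ⟨fun _ => Classical.arbitrary G, ?_, ?_⟩
    · intro i hi
      simp at hi
    · intro i hi
      simp at hi
  | insert c O' hc ih =>
    intro hsub
    have hsub' : O' ⊆ O := (Finset.subset_insert _ _).trans hsub
    obtain ⟨F, hF1, hF2⟩ := ih hsub'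
    obtain ⟨g, hg1, hg2⟩ := step O' hsub' F hF1 c (hsub (Finset.mem_insert_self _ _)) hc
    have hold : ∀ d ∈ O', Function.update F c g d = F d := by
      intro d hd
      apply Function.update_of_ne
      rintro rfl
      exact hc hd
    refine ⟨Function.update F c g, ?_, ?_⟩
    · intro i hi
      rw [Finset.mem_insert] at hi
      rcases hi with rfl | hi
      · rw [Function.update_self]; exact hg1
      · rw [hold i hi]; exact hF1 i hi
    · intro i hi i' hi' hne
      rw [Finset.mem_insert] at hi hi'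
      rcases hi with rfl | hi
      · rcases hi' with rfl | hi'
        · exact absurd rfl hne
        · rw [Function.update_self, hold i' hi']
          exact hg2 i' hi'
      · rcases hi' with rfl | hi'
        · rw [Function.update_self, hold i hi]
          exact hsymm _ _ (hg2 i hi)
        · rw [hold i hi, hold i' hi']
          exact hF2 i hi i' hi' hne

/-- a vertex has at most two neighbours of colour `c` -/
theorem GAD_nb {V C : Type} [Fintype V] [DecidableEq V] [Fintype C] [DecidableEq C]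
    (σ : C → Equiv.Perm V) (c : C) (x y z : V) (h : ed σ c z = s(x, y)) :
    y = σ c x ∨ y = (σ c)⁻¹ x := by
  rw [ed, Sym2.eq_iff] at h
  rcases h with ⟨h1, h2⟩ | ⟨h1, h2⟩
  · left; rw [← h2, h1]
  · right; rw [← h2, h1]; simp

/-- block GAD: greedy choice of the gadgets -/
theorem gad_exist (η : ℝ) (hη : 0 < η) : ∃ ε₁ : ℝ, 0 < ε₁ ∧ ∃ N₀ : ℕ,
    ∀ (V C : Type) [Fintype V] [DecidableEq V] [Fintype C] [DecidableEq C]
      (σ : C → Equiv.Perm V), HD σ → N₀ ≤ Fintype.card V →
      ∀ (O X Lv : Finset C) (u v b : C → V) (ty : C → Fin 3) (Ru : Finset C),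
      (O.card : ℝ) ≤ ε₁ * Fintype.card V → (Ru.card : ℝ) ≤ ε₁ * Fintype.card V →
      (∀ i ∈ O, ∃ S ⊆ SgX σ X i (b i), η * Fintype.card V ≤ S.card ∧
        ∀ β ∈ S, rese Lv u v ty β ∧ rese Lv u v ty (σ i β) ∧ rese Lv u v ty ((σ i)⁻¹ β)) →
      (∀ i ∈ Lv, ∀ j ∈ Lv, i ≠ j → Disjoint ({u i, v i} : Finset V) {u j, v j}) →
      ∃ (bt : C → V) (p q : C → C) (zp zq : C → V) (Rg : C → Finset C),
        Gadg σ O X Lv u v b ty Ru bt p q zp zq Rg := by
  classical
  refine ⟨η / 100, by positivity, 1, ?_⟩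
  intro V C _ _ _ _ σ hσ hN O X Lv u v b ty Ru hO hRu hS _
  have hneV : Nonempty V := by
    rw [← Fintype.card_pos_iff]
    omega
  have hNpos : (0 : ℝ) < Fintype.card V := by
    have : 0 < Fintype.card V := by omega
    exact_mod_cast this
  rcases O.eq_empty_or_nonempty with hOe | hOne
  · subst hOe
    rcases isEmpty_or_nonempty C with hC | hC
    · exact ⟨fun i => hC.elim i, fun i => hC.elim i, fun i => hC.elim i, fun i => hC.elim i,
        fun i => hC.elim i, fun i => hC.elim i, ⟨fun i => hC.elim i, fun i => hC.elim i,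
        fun i => hC.elim i, fun i => hC.elim i, fun i => hC.elim i, fun i => hC.elim i,
        fun i => hC.elim i⟩⟩
    · exact ⟨fun _ => Classical.arbitrary V, fun i => i, fun i => i,
        fun _ => Classical.arbitrary V, fun _ => Classical.arbitrary V, fun _ => ∅,
        ⟨by simp, by simp, by simp, by simp, by simp, by simp, by simp⟩⟩
  have hneC : Nonempty C := ⟨hOne.choose⟩
  -- data: (bt, p, q, zp, zq, Rg)
  let G := V × C × C × V × V × Finset C
  let P : C → G → Prop := fun i g => g.2.1 ∈ X ∧ g.2.2.1 ∈ X ∧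
    ed σ g.2.1 g.2.2.2.1 = s(b i, (σ i)⁻¹ g.1) ∧
    ed σ g.2.2.1 g.2.2.2.2.1 = s(σ i (b i), σ i g.1) ∧
    g.2.2.2.2.2 ⊆ Lv.filter (fun j => ty j = 0) \ Ru ∧
    (∀ x, (x = g.1 ∨ x = σ i g.1 ∨ x = (σ i)⁻¹ g.1) → ∃ j ∈ g.2.2.2.2.2, x = u j ∨ x = v j) ∧
    g.2.2.2.2.2.card ≤ 3
  let Q : G → G → Prop := fun g g' => (g.2.1 ≠ g'.2.1 ∧ g.2.1 ≠ g'.2.2.1 ∧ g.2.2.1 ≠ g'.2.1 ∧
    g.2.2.1 ≠ g'.2.2.1) ∧ Disjoint g.2.2.2.2.2 g'.2.2.2.2.2
  obtain ⟨F, hF1, hF2⟩ := GAD_greedy (G := G) O P Q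
    (fun g g' h => ⟨⟨h.1.1.symm, h.1.2.2.1.symm, h.1.2.1.symm, h.1.2.2.2.symm⟩, h.2.symm⟩) (by
    intro O' hO' F hF i hi hi'
    obtain ⟨S, hSX, hSc, hSr⟩ := hS i hi
    set PC : Finset C := O'.biUnion (fun d => {(F d).2.1, (F d).2.2.1}) with hPC
    set R : Finset C := Ru ∪ O'.biUnion (fun d => (F d).2.2.2.2.2) with hR
    set T : Finset V := R.biUnion (fun j => {u j, v j}) with hT
    have hPCc : PC.card ≤ 2 * O'.card := by
      refine Finset.card_biUnion_le.trans ?_
      calc ∑ d ∈ O', ({(F d).2.1, (F d).2.2.1} : Finset C).card ≤ ∑ d ∈ O', 2 :=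
            Finset.sum_le_sum fun d _ => Finset.card_le_two
        _ = 2 * O'.card := by rw [Finset.sum_const, smul_eq_mul, mul_comm]
    have hRc : R.card ≤ Ru.card + 3 * O'.card := by
      refine (Finset.card_union_le _ _).trans (Nat.add_le_add_left ?_ _)
      refine Finset.card_biUnion_le.trans ?_
      calc ∑ d ∈ O', (F d).2.2.2.2.2.card ≤ ∑ d ∈ O', 3 :=
            Finset.sum_le_sum fun d hd => (hF d hd).2.2.2.2.2.2
        _ = 3 * O'.card := by rw [Finset.sum_const, smul_eq_mul, mul_comm]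
    have hTc : T.card ≤ 2 * R.card := by
      refine Finset.card_biUnion_le.trans ?_
      calc ∑ j ∈ R, ({u j, v j} : Finset V).card ≤ ∑ j ∈ R, 2 :=
            Finset.sum_le_sum fun d _ => Finset.card_le_two
        _ = 2 * R.card := by rw [Finset.sum_const, smul_eq_mul, mul_comm]
    -- the excluded vertices
    set E1 : Finset V := T ∪ T.image (fun y => (σ i)⁻¹ y) ∪ T.image (fun y => σ i y) with hE1
    set E2 : Finset V := PC.biUnion (fun c => ({σ i (σ c (b i)), σ i ((σ c)⁻¹ (b i))} : Finset V))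
      with hE2
    set E3 : Finset V := PC.biUnion (fun c => ({(σ i)⁻¹ (σ c (σ i (b i))),
      (σ i)⁻¹ ((σ c)⁻¹ (σ i (b i)))} : Finset V)) with hE3
    have hE1c : E1.card ≤ 3 * T.card := by
      have h1 : E1.card ≤ (T ∪ T.image (fun y => (σ i)⁻¹ y)).card +
          (T.image (fun y => σ i y)).card := Finset.card_union_le _ _
      have h2 : (T ∪ T.image (fun y => (σ i)⁻¹ y)).card ≤ T.card +
          (T.image (fun y => (σ i)⁻¹ y)).card := Finset.card_union_le _ _
      have h3 : (T.image (fun y => (σ i)⁻¹ y)).card ≤ T.card := Finset.card_image_le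
      have h4 : (T.image (fun y => σ i y)).card ≤ T.card := Finset.card_image_le
      omega
    have hE2c : E2.card ≤ 2 * PC.card := by
      refine Finset.card_biUnion_le.trans ?_
      calc ∑ c ∈ PC, ({σ i (σ c (b i)), σ i ((σ c)⁻¹ (b i))} : Finset V).card ≤ ∑ c ∈ PC, 2 :=
            Finset.sum_le_sum fun d _ => Finset.card_le_two
        _ = 2 * PC.card := by rw [Finset.sum_const, smul_eq_mul, mul_comm]
    have hE3c : E3.card ≤ 2 * PC.card := by
      refine Finset.card_biUnion_le.trans ?_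
      calc ∑ c ∈ PC, ({(σ i)⁻¹ (σ c (σ i (b i))), (σ i)⁻¹ ((σ c)⁻¹ (σ i (b i)))} : Finset V).card ≤
          ∑ c ∈ PC, 2 := Finset.sum_le_sum fun d _ => Finset.card_le_two
        _ = 2 * PC.card := by rw [Finset.sum_const, smul_eq_mul, mul_comm]
    have hOc : O'.card ≤ O.card := Finset.card_le_card hO'
    have hex : ∃ β ∈ S, β ∉ E1 ∪ E2 ∪ E3 := by
      by_contra hcon
      push Not at hcon
      have h1 := Finset.card_le_card (show S ⊆ E1 ∪ E2 ∪ E3 from hcon)
      have h2 := Finset.card_union_le (E1 ∪ E2) E3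
      have h3 := Finset.card_union_le E1 E2
      have h4 : S.card ≤ 6 * Ru.card + 26 * O.card := by omega
      have h5 : (S.card : ℝ) ≤ 6 * Ru.card + 26 * O.card := by exact_mod_cast h4
      have h6 : 0 < η * Fintype.card V := by positivity
      nlinarith
    obtain ⟨β, hβS, hβE⟩ := hex
    simp only [Finset.mem_union, not_or] at hβE
    obtain ⟨⟨hβ1, hβ2⟩, hβ3⟩ := hβE
    have hβX := hSX hβS
    rw [SgX, Finset.mem_filter] at hβX
    obtain ⟨-, ⟨cp, hcpX, zp, hzp⟩, ⟨cq, hcqX, zq, hzq⟩⟩ := hβX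
    have hcp : cp ∉ PC := by
      intro hcp
      apply hβ2
      rw [hE2, Finset.mem_biUnion]
      refine ⟨cp, hcp, ?_⟩
      rw [Finset.mem_insert, Finset.mem_singleton]
      rcases GAD_nb σ cp _ _ _ hzp with h | h
      · left; rw [← h]; simp
      · right; rw [← h]; simp
    have hcq : cq ∉ PC := by
      intro hcq
      apply hβ3
      rw [hE3, Finset.mem_biUnion]
      refine ⟨cq, hcq, ?_⟩
      rw [Finset.mem_insert, Finset.mem_singleton]
      rcases GAD_nb σ cq _ _ _ hzq with h | h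
      · left; rw [← h]; simp
      · right; rw [← h]; simp
    obtain ⟨⟨j1, hj1, hj1t, hj1x⟩, ⟨j2, hj2, hj2t, hj2x⟩, ⟨j3, hj3, hj3t, hj3x⟩⟩ := hSr β hβS
    have hTj : ∀ j x, (x = u j ∨ x = v j) → x ∉ T → j ∉ R := by
      intro j x hx hxT hjR
      apply hxT
      rw [hT, Finset.mem_biUnion]
      refine ⟨j, hjR, ?_⟩
      rw [Finset.mem_insert, Finset.mem_singleton]
      exact hx
    simp only [hE1, Finset.mem_union, not_or] at hβ1
    obtain ⟨⟨ha, hb⟩, hc⟩ := hβ1
    have hj1R : j1 ∉ R := hTj j1 β hj1x ha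
    have hj2R : j2 ∉ R := by
      refine hTj j2 _ hj2x fun h => hb ?_
      rw [Finset.mem_image]
      exact ⟨_, h, by simp⟩
    have hj3R : j3 ∉ R := by
      refine hTj j3 _ hj3x fun h => hc ?_
      rw [Finset.mem_image]
      exact ⟨_, h, by simp⟩
    have hRg : ∀ j ∈ ({j1, j2, j3} : Finset C), j ∈ Lv ∧ ty j = 0 ∧ j ∉ R := by
      intro j hj
      simp only [Finset.mem_insert, Finset.mem_singleton] at hj
      rcases hj with rfl | rfl | rfl
      · exact ⟨hj1, hj1t, hj1R⟩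
      · exact ⟨hj2, hj2t, hj2R⟩
      · exact ⟨hj3, hj3t, hj3R⟩
    refine ⟨(β, cp, cq, zp, zq, {j1, j2, j3}), ⟨hcpX, hcqX, hzp, hzq, ?_, ?_, ?_⟩, ?_⟩
    · intro j hj
      have h1 := hRg j hj
      rw [Finset.mem_sdiff, Finset.mem_filter]
      refine ⟨⟨h1.1, h1.2.1⟩, fun h2 => h1.2.2 ?_⟩
      rw [hR, Finset.mem_union]
      exact Or.inl h2
    · intro x hx
      rcases hx with rfl | rfl | rfl
      · exact ⟨j1, by simp, hj1x⟩
      · exact ⟨j2, by simp, hj2x⟩
      · exact ⟨j3, by simp, hj3x⟩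
    · exact Finset.card_le_three
    · intro i' hi''
      have hm1 : (F i').2.1 ∈ PC := by
        rw [hPC, Finset.mem_biUnion]
        exact ⟨i', hi'', by simp⟩
      have hm2 : (F i').2.2.1 ∈ PC := by
        rw [hPC, Finset.mem_biUnion]
        exact ⟨i', hi'', by simp⟩
      refine ⟨⟨?_, ?_, ?_, ?_⟩, ?_⟩
      · intro h
        apply hcp
        have h' : cp = (F i').2.1 := h
        rw [h']
        exact hm1
      · intro h
        apply hcp
        have h' : cp = (F i').2.2.1 := h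
        rw [h']
        exact hm2
      · intro h
        apply hcq
        have h' : cq = (F i').2.1 := h
        rw [h']
        exact hm1
      · intro h
        apply hcq
        have h' : cq = (F i').2.2.1 := h
        rw [h']
        exact hm2
      · rw [Finset.disjoint_left]
        intro j hj hj'
        apply (hRg j hj).2.2
        rw [hR, Finset.mem_union, Finset.mem_biUnion]
        exact Or.inr ⟨i', hi'', hj'⟩)
  refine ⟨fun i => (F i).1, fun i => (F i).2.1, fun i => (F i).2.2.1, fun i => (F i).2.2.2.1,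
    fun i => (F i).2.2.2.2.1, fun i => (F i).2.2.2.2.2, ⟨?_, ?_, ?_, ?_, ?_, ?_, ?_⟩⟩
  · exact fun i hi => ⟨(hF1 i hi).1, (hF1 i hi).2.1⟩
  · exact fun i hi => (hF1 i hi).2.2.1
  · exact fun i hi => (hF1 i hi).2.2.2.1
  · exact fun i hi i' hi' hne => (hF2 i hi i' hi' hne).1
  · exact fun i hi => (hF1 i hi).2.2.2.2.1
  · exact fun i hi => (hF1 i hi).2.2.2.2.2.1
  · exact fun i hi i' hi' hne => (hF2 i hi i' hi' hne).2

end Pool.Agent.KZ
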