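import Pool.Agent.Lib_helper15.KZF.CYC
import Pool.Agent.Lib_helper15.KZF.DefsA
import Pool.Agent.Lib_helper15.KZF.DefsN

/-! Block KILL (helper8) -/

set_option autoImplicit false

namespace Pool.Agent.KZ

open Finset

/-- the changed vertices -/
theorem KILL_ch {V C : Type} [Fintype V] [DecidableEq V] [Fintype C] [DecidableEq C]
    {Lv : Finset C} {u v : C → V} (Sp : Finset V)
    (hd : ∀ i ∈ Lv, ∀ j ∈ Lv, i ≠ j → Disjoint ({u i, v i} : Finset V) {u j, v j}) :
    ∃ ch : Finset V, ch.card ≤ 2 * Sp.card ∧ Sp ⊆ ch ∧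
      ∀ i ∈ Lv, (u i ∈ Sp ∨ v i ∈ Sp) → u i ∈ ch ∧ v i ∈ ch := by
  classical
  let f : V → Finset V := fun s => if H : ∃ i ∈ Lv, s = u i ∨ s = v i then
    {u H.choose, v H.choose} else {s}
  have hf2 : ∀ s, (f s).card ≤ 2 := by
    intro s
    by_cases H : ∃ i ∈ Lv, s = u i ∨ s = v i
    · simp only [f, dif_pos H]
      exact Finset.card_le_two
    · simp only [f, dif_neg H, Finset.card_singleton]
      norm_num
  have hfi : ∀ s, ∀ i ∈ Lv, (s = u i ∨ s = v i) → f s = {u i, v i} := by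
    intro s i hi hs
    have H : ∃ i ∈ Lv, s = u i ∨ s = v i := ⟨i, hi, hs⟩
    simp only [f, dif_pos H]
    have h1 := H.choose_spec
    have h2 : H.choose = i := by
      by_contra hne
      have h3 := hd _ h1.1 _ hi hne
      rw [Finset.disjoint_left] at h3
      apply h3 (a := s)
      · rw [Finset.mem_insert, Finset.mem_singleton]; exact h1.2
      · rw [Finset.mem_insert, Finset.mem_singleton]; exact hs
    rw [h2]
  have hfs : ∀ s, s ∈ f s := by
    intro s
    by_cases H : ∃ i ∈ Lv, s = u i ∨ s = v i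
    · obtain ⟨i, hi, hs⟩ := H
      rw [hfi s i hi hs, Finset.mem_insert, Finset.mem_singleton]
      exact hs
    · simp only [f, dif_neg H, Finset.mem_singleton]
  refine ⟨Sp.biUnion f, ?_, ?_, ?_⟩
  · refine Finset.card_biUnion_le.trans ?_
    calc ∑ s ∈ Sp, (f s).card ≤ ∑ s ∈ Sp, 2 := Finset.sum_le_sum fun s _ => hf2 s
      _ = 2 * Sp.card := by rw [Finset.sum_const, smul_eq_mul, mul_comm]
  · intro s hs
    rw [Finset.mem_biUnion]
    exact ⟨s, hs, hfs s⟩
  · intro i hi hs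
    rcases hs with hs | hs
    · have h1 := hfi (u i) i hi (Or.inl rfl)
      constructor
      · rw [Finset.mem_biUnion]; exact ⟨_, hs, by rw [h1]; simp⟩
      · rw [Finset.mem_biUnion]; exact ⟨_, hs, by rw [h1]; simp⟩
    · have h1 := hfi (v i) i hi (Or.inr rfl)
      constructor
      · rw [Finset.mem_biUnion]; exact ⟨_, hs, by rw [h1]; simp⟩
      · rw [Finset.mem_biUnion]; exact ⟨_, hs, by rw [h1]; simp⟩

/-- counting -/
theorem KILL_cnt {V α : Type} [DecidableEq V] [DecidableEq α] (A : Finset α) (ch : Finset V)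
    (k : ℕ) (fs : Fin k → α → V) (hf : ∀ j, Set.InjOn (fs j) (A : Set α)) (P P' : α → Prop)
    {_ : DecidablePred P} {_ : DecidablePred P'}
    (h : ∀ a ∈ A, P a → (∀ j, fs j a ∉ ch) → P' a) :
    (A.filter P).card ≤ (A.filter P').card + k * ch.card := by
  have h1 : A.filter P ⊆ A.filter P' ∪
      (univ : Finset (Fin k)).biUnion (fun j => A.filter (fun a => fs j a ∈ ch)) := by
    intro a ha
    rw [Finset.mem_filter] at ha
    rw [Finset.mem_union, Finset.mem_filter, Finset.mem_biUnion]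
    by_cases hj : ∀ j, fs j a ∉ ch
    · exact Or.inl ⟨ha.1, h a ha.1 ha.2 hj⟩
    · push Not at hj
      obtain ⟨j, hj⟩ := hj
      refine Or.inr ⟨j, Finset.mem_univ _, ?_⟩
      rw [Finset.mem_filter]
      exact ⟨ha.1, hj⟩
  refine (Finset.card_le_card h1).trans ((Finset.card_union_le _ _).trans ?_)
  refine Nat.add_le_add_left (Finset.card_biUnion_le.trans ?_) _
  calc ∑ j : Fin k, (A.filter (fun a => fs j a ∈ ch)).card ≤ ∑ j : Fin k, ch.card := by
        refine Finset.sum_le_sum fun j _ => ?_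
        refine Finset.card_le_card_of_injOn (fs j) ?_ ?_
        · intro a ha
          rw [Finset.mem_coe, Finset.mem_filter] at ha
          exact ha.2
        · intro a ha b hb hab
          rw [Finset.mem_coe, Finset.mem_filter] at ha hb
          exact hf j ha.1 hb.1 hab
    _ = k * ch.card := by rw [Finset.sum_const, smul_eq_mul, Finset.card_univ, Fintype.card_fin]

/-- the real inequality -/
theorem KILL_real {X Y : ℝ} {ε : ℝ} {N a b c s k : ℕ} (hN : 0 < N) (hY : Y = X)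
    (h1 : X - ε * N ≤ a) (h2 : a ≤ b + k * c) (hc : c ≤ 2 * s) (hk : k ≤ 4) :
    Y - (ε + 8 * s / N) * N ≤ b := by
  have hN' : (0 : ℝ) < N := by exact_mod_cast hN
  have h3 : (ε + 8 * s / N) * N = ε * N + 8 * s := by field_simp
  rw [h3, hY]
  have h4 : k * c ≤ 8 * s := by
    calc k * c ≤ 4 * (2 * s) := Nat.mul_le_mul hk hc
      _ = 8 * s := by ring
  have h5 : (a : ℝ) ≤ b + 8 * s := by
    have : a ≤ b + 8 * s := by omega
    exact_mod_cast this
  linarith

/-- block KILL: removing a small set of special vertices -/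
theorem types_kill {V C : Type} [Fintype V] [DecidableEq V] [Fintype C] [DecidableEq C]
    {σ : C → Equiv.Perm V} (hσ : HD σ) {Lv : Finset C} {Uu : Finset V} {u v : C → V}
    {cl : C → Fin 3} {δ : ℝ} {h : ℕ} {q κ ε : ℝ} {Sg : C → V → Finset V} {ty : C → Fin 3}
    {lev : V → ℕ} (Sp : Finset V)
    (hd : ∀ i ∈ Lv, ∀ j ∈ Lv, i ≠ j → Disjoint ({u i, v i} : Finset V) {u j, v j})
    (T : Types σ Lv Uu u v cl δ h q κ ε Sg ty lev) :
    Types σ (Lv.filter (fun i => u i ∉ Sp ∧ v i ∉ Sp)) (Uu \ Sp) u v cl δ h q κ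
      (ε + 8 * Sp.card / Fintype.card V) Sg ty lev := by
  classical
  obtain ⟨ch, hch, hSp, hpair⟩ := KILL_ch (Lv := Lv) (u := u) (v := v) Sp hd
  have hN : 0 < Fintype.card V := by have := hσ.three; omega
  set Lv' := Lv.filter (fun i => u i ∉ Sp ∧ v i ∉ Sp) with hLv'
  -- a live pair with an end outside `ch` survives
  have hlive : ∀ i ∈ Lv, (u i ∉ ch ∨ v i ∉ ch) → i ∈ Lv' := by
    intro i hi h1
    rw [hLv', Finset.mem_filter]
    refine ⟨hi, ?_⟩
    by_contra h2
    have h3 : u i ∈ Sp ∨ v i ∈ Sp := by tauto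
    have h4 := hpair i hi h3
    tauto
  have hleaf : ∀ x, leaf Lv u v ty x → x ∉ ch → leaf Lv' u v ty x := by
    rintro x ⟨i, hi, h1⟩ hx
    rcases h1 with ⟨h1, rfl⟩ | ⟨h1, rfl⟩
    · exact ⟨i, hlive i hi (Or.inl hx), Or.inl ⟨h1, rfl⟩⟩
    · exact ⟨i, hlive i hi (Or.inr hx), Or.inr ⟨h1, rfl⟩⟩
  have hspin : ∀ x, spin Lv Uu u v ty x → x ∉ ch → spin Lv' (Uu \ Sp) u v ty x := by
    rintro x (⟨i, hi, h1⟩ | h1) hx
    · left
      rcases h1 with ⟨h1, rfl⟩ | ⟨h1, rfl⟩
      · exact ⟨i, hlive i hi (Or.inr hx), Or.inl ⟨h1, rfl⟩⟩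
      · exact ⟨i, hlive i hi (Or.inl hx), Or.inr ⟨h1, rfl⟩⟩
    · right
      rw [Finset.mem_sdiff]
      exact ⟨h1, fun h2 => hx (hSp h2)⟩
  have hspin' : ∀ x, spin Lv' (Uu \ Sp) u v ty x → spin Lv Uu u v ty x := by
    rintro x (⟨i, hi, h1⟩ | h1)
    · left
      exact ⟨i, (Finset.mem_filter.1 hi).1, h1⟩
    · right
      exact (Finset.mem_sdiff.1 h1).1
  have hrese : ∀ x, rese Lv u v ty x → x ∉ ch → rese Lv' u v ty x := by
    rintro x ⟨i, hi, h1, h2⟩ hx
    rcases h2 with rfl | rfl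
    · exact ⟨i, hlive i hi (Or.inl hx), h1, Or.inl rfl⟩
    · exact ⟨i, hlive i hi (Or.inr hx), h1, Or.inr rfl⟩
  have holeaf : ∀ x, oleaf Lv u v ty lev x → x ∉ ch → oleaf Lv' u v ty lev x := by
    rintro x ⟨i, hi, h1⟩ hx
    rcases h1 with ⟨h1, rfl, h2⟩ | ⟨h1, rfl, h2⟩
    · exact ⟨i, hlive i hi (Or.inl hx), Or.inl ⟨h1, rfl, h2⟩⟩
    · exact ⟨i, hlive i hi (Or.inr hx), Or.inr ⟨h1, rfl, h2⟩⟩
  have halw : ∀ g x y, alw Lv Uu u v ty lev g x y → x ∉ ch → y ∉ ch →
      alw Lv' (Uu \ Sp) u v ty lev g x y := by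
    rintro g x y ⟨h1, h2, h3, h4⟩ hx hy
    exact ⟨hspin x h1 hx, hspin y h2 hy, h3, h4⟩
  have hinj1 : ∀ i x (L : ℕ), L ≤ Fintype.card V →
      Set.InjOn (fun r => (σ i ^ r) x) (range L : Set ℕ) := by
    intro i x L hL r hr s hs hrs
    rw [Finset.mem_coe, Finset.mem_range] at hr hs
    exact cyc_inj hσ i x (by omega) (by omega) hrs
  have hinj2 : ∀ i x (L : ℕ), L ≤ Fintype.card V →
      Set.InjOn (fun r => (σ i ^ (r + 1)) x) (range L : Set ℕ) := by
    intro i x L hL r hr s hs hrs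
    rw [Finset.mem_coe, Finset.mem_range] at hr hs
    have h1 : (σ i ^ r) (σ i x) = (σ i ^ s) (σ i x) := by
      have h2 : (σ i ^ (r + 1)) x = (σ i ^ (s + 1)) x := hrs
      rw [pow_succ, pow_succ, Equiv.Perm.mul_apply, Equiv.Perm.mul_apply] at h2
      exact h2
    exact cyc_inj hσ i (σ i x) (by omega) (by omega) h1
  have hnb : ∀ x, Set.InjOn (fun p : C × Bool => nb σ p x)
      ((univ : Finset (C × Bool)) : Set (C × Bool)) := fun x => (nb_inj hσ x).injOn
  refine ⟨T.lev1, ?_, ?_, ?_, ?_, ?_, ?_, ?_⟩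
  · intro i x L g hg hL
    refine KILL_real hN rfl (T.t1 i x L g hg hL) (k := 2)
      (KILL_cnt (range L) ch 2 ![fun r => (σ i ^ r) x, fun r => (σ i ^ (r + 1)) x] ?_ _ _ ?_)
      hch (by norm_num)
    · intro j
      fin_cases j
      · exact hinj1 i x L hL
      · exact hinj2 i x L hL
    · intro r _ hr hj
      have h0 : (σ i ^ r) x ∉ ch := hj 0
      have h1 : (σ i ^ (r + 1)) x ∉ ch := hj 1
      rcases hr with hr | hr
      · exact Or.inl (halw g _ _ hr h0 h1)
      · exact Or.inr (halw g _ _ hr h1 h0)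
  · intro y j k hj1 hj2
    refine le_trans ?_ ((T.t2 y j k hj1 hj2).trans ?_)
    · have : (((univ : Finset (C × Bool)).filter (fun p => cl p.1 = k ∧
          spin Lv' (Uu \ Sp) u v ty (nb σ p y) ∧ lev (nb σ p y) = j)).card) ≤
          (((univ : Finset (C × Bool)).filter (fun p => cl p.1 = k ∧
          spin Lv Uu u v ty (nb σ p y) ∧ lev (nb σ p y) = j)).card) := by
        apply Finset.card_le_card
        intro p hp
        rw [Finset.mem_filter] at hp ⊢
        exact ⟨hp.1, hp.2.1, hspin' _ hp.2.2.1, hp.2.2.2⟩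
      exact_mod_cast this
    · have h1 : (0 : ℝ) ≤ 8 * Sp.card / Fintype.card V * Fintype.card V := by positivity
      nlinarith
  · intro x y hxy
    refine KILL_real hN rfl (T.t3 x y hxy) (k := 1)
      (KILL_cnt univ ch 1 ![fun w => w] ?_ _ _ ?_) hch (by norm_num)
    · intro j
      fin_cases j
      intro a _ b _ hab
      exact hab
    · intro w _ hw hj
      have h0 : w ∉ ch := hj 0
      exact ⟨hleaf _ hw.1 h0, hw.2⟩
  · intro x
    refine KILL_real hN rfl (T.t3' x) (k := 1)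
      (KILL_cnt univ ch 1 ![fun p => nb σ p x] ?_ _ _ ?_) hch (by norm_num)
    · intro j
      fin_cases j
      exact hnb x
    · intro p _ hp hj
      have h0 : nb σ p x ∉ ch := hj 0
      exact hleaf _ hp h0
  · intro i x L hL
    refine KILL_real hN rfl (T.t4 i x L hL) (k := 2)
      (KILL_cnt (range L) ch 2 ![fun r => (σ i ^ r) x, fun r => (σ i ^ (r + 1)) x] ?_ _ _ ?_)
      hch (by norm_num)
    · intro j
      fin_cases j
      · exact hinj1 i x L hL
      · exact hinj2 i x L hL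
    · intro r _ hr hj
      have h0 : (σ i ^ r) x ∉ ch := hj 0
      have h1 : (σ i ^ (r + 1)) x ∉ ch := hj 1
      exact ⟨hrese _ hr.1 h0, hrese _ hr.2.1 h1, hr.2.2⟩
  · intro i
    refine KILL_real hN rfl (T.t5 i) (k := 2)
      (KILL_cnt univ ch 2 ![fun x => x, fun x => σ i x] ?_ _ _ ?_) hch (by norm_num)
    · intro j
      fin_cases j
      · intro a _ b _ hab
        exact hab
      · exact (σ i).injective.injOn
    · intro x _ hx hj
      have h0 : x ∉ ch := hj 0
      have h1 : σ i x ∉ ch := hj 1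
      exact ⟨holeaf _ hx.1 h0, holeaf _ hx.2 h1⟩
  · intro i b
    refine KILL_real hN rfl (T.t6 i b) (k := 3)
      (KILL_cnt (Sg i b) ch 3 ![fun x => x, fun x => σ i x, fun x => (σ i)⁻¹ x] ?_ _ _ ?_) hch
      (by norm_num)
    · intro j
      fin_cases j
      · intro a _ b _ hab
        exact hab
      · exact (σ i).injective.injOn
      · exact ((σ i)⁻¹).injective.injOn
    · intro x _ hx hj
      have h0 : x ∉ ch := hj 0
      have h1 : σ i x ∉ ch := hj 1
      have h2 : (σ i)⁻¹ x ∉ ch := hj 2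
      exact ⟨hrese _ hx.1 h0, hrese _ hx.2.1 h1, hrese _ hx.2.2 h2⟩

end Pool.Agent.KZ
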