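import Pool.Agent.Lib_helper15.KZF.CYC
import Pool.Agent.Lib_helper15.KZF.DefsA
import Pool.Agent.Lib_helper15.KZF.DefsN
import Pool.Agent.Lib_helper15.KZF.ED

/-! block LEFT -/

set_option autoImplicit false

namespace Pool.Agent.KZ

open Finset

section
variable {V C : Type} [Fintype V] [DecidableEq V] [Fintype C] [DecidableEq C]
variable {σ : C → Equiv.Perm V}

theorem LEFT_psinj (h : HD σ) (z0 : C → V) (i : C) {x y : V}
    (he : ps σ z0 i x = ps σ z0 i y) : x = y := by
  rw [← (ps_spec h z0 i x).1, ← (ps_spec h z0 i y).1, he]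

/-- the vertices of the pairs in `R` -/
def LEFTv (u v : C → V) (R : Finset C) : Finset V := R.image u ∪ R.image v

theorem LEFT_v {u v : C → V} {R : Finset C} {x : V} :
    x ∈ LEFTv u v R ↔ ∃ j ∈ R, x = u j ∨ x = v j := by
  unfold LEFTv
  rw [Finset.mem_union, Finset.mem_image, Finset.mem_image]
  constructor
  · rintro (⟨j, h1, h2⟩ | ⟨j, h1, h2⟩)
    · exact ⟨j, h1, Or.inl h2.symm⟩
    · exact ⟨j, h1, Or.inr h2.symm⟩
  · rintro ⟨j, h1, h2 | h2⟩
    · exact Or.inl ⟨j, h1, h2.symm⟩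
    · exact Or.inr ⟨j, h1, h2.symm⟩

theorem LEFT_vc (u v : C → V) (R : Finset C) : (LEFTv u v R).card ≤ 2 * R.card := by
  unfold LEFTv
  refine (Finset.card_union_le _ _).trans ?_
  have h1 : (R.image u).card ≤ R.card := Finset.card_image_le
  have h2 : (R.image v).card ≤ R.card := Finset.card_image_le
  omega

/-- an arc meets a set in at most as many places as the set has elements -/
theorem LEFT_arc (h : HD σ) (i : C) (x : V) {L : ℕ} (hL : L ≤ Fintype.card V) (S : Finset V) :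
    ((range L).filter (fun r => (σ i ^ r) x ∈ S)).card ≤ S.card := by
  refine Finset.card_le_card_of_injOn (fun r => (σ i ^ r) x) ?_ ?_
  · intro r hr
    exact (Finset.mem_filter.mp hr).2
  · intro r hr s hs he
    have h1 := Finset.mem_range.mp (Finset.mem_filter.mp hr).1
    have h2 := Finset.mem_range.mp (Finset.mem_filter.mp hs).1
    exact cyc_inj h i x (by omega) (by omega) he

theorem LEFT_arc' (h : HD σ) (i : C) (x : V) {L : ℕ} (hL : L ≤ Fintype.card V) (S : Finset V) :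
    ((range L).filter (fun r => (σ i ^ (r + 1)) x ∈ S)).card ≤ S.card := by
  have h1 := LEFT_arc h i (σ i x) hL S
  have h2 : ∀ r : ℕ, (σ i ^ r) (σ i x) = (σ i ^ (r + 1)) x := by
    intro r
    rw [pow_succ, Equiv.Perm.mul_apply]
  simp only [h2] at h1
  exact h1

/-- mandatory interval as an arc -/
theorem LEFT_int (h : HD σ) (z0 : C → V) (dir : C → Bool) (m : C → ℕ) (i : C) {r : ℕ}
    (hr : r < m i) : ∃ P0 : ℕ, P0 + (Fintype.card V - 1) / 2 / m i ≤ Fintype.card V - 1 ∧
      ∀ x, P0 ≤ ps σ z0 i x → ps σ z0 i x < P0 + (Fintype.card V - 1) / 2 / m i →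
        mand σ z0 dir m i x r := by
  set L := (Fintype.card V - 1) / 2 / m i with hL
  have hmL : m i * L ≤ (Fintype.card V - 1) / 2 := Nat.mul_div_le _ _
  have h1 : (r + 1) * L ≤ m i * L := Nat.mul_le_mul_right _ hr
  have h2 : (r + 1) * L = r * L + L := by ring
  have h3 := h.three
  have hz : ∀ x, ps σ z0 i x < Fintype.card V - 1 → x ≠ z0 i := by
    rintro x hx rfl
    rw [ps_z0 h] at hx
    exact lt_irrefl _ hx
  cases hdir : dir i with
  | true =>
    refine ⟨r * L, by omega, fun x h4 h5 => ?_⟩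
    have hpd : pd σ z0 dir i x = ps σ z0 i x := by
      unfold pd
      rw [hdir, if_pos rfl]
    refine ⟨hz x (by omega), hr, ?_, ?_⟩
    · rw [hpd]
      exact h4
    · rw [hpd]
      change ps σ z0 i x < (r + 1) * L
      omega
  | false =>
    refine ⟨Fintype.card V - 1 - (r + 1) * L, by omega, fun x h4 h5 => ?_⟩
    have hpd : pd σ z0 dir i x = Fintype.card V - 2 - ps σ z0 i x := by
      unfold pd
      rw [hdir, if_neg (by simp)]
    refine ⟨hz x (by omega), hr, ?_, ?_⟩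
    · rw [hpd]
      change r * L ≤ _
      omega
    · rw [hpd]
      change _ < (r + 1) * L
      omega

/-- a place for one letter -/
theorem LEFT_place {δ : ℝ} (hδ : 0 < δ) (h : HD σ) (hN : 1000 ≤ Fintype.card V)
    {Lv : Finset C} {Uu : Finset V} {z0 u v : C → V} {cl : C → Fin 3} {hh : ℕ}
    {q κ ε₀ : ℝ} {Sg : C → V → Finset V} {ty : C → Fin 3} {lev : V → ℕ}
    {m : C → ℕ} {dir : C → Bool} (T : Types σ Lv Uu u v cl δ hh q κ ε₀ Sg ty lev)
    (hε₀ : ε₀ ≤ δ ^ 2 / 10 ^ 4) (hκ : 1 / 4 ≤ κ)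
    (he0 : ∀ i ∈ Lv, ed σ i (z0 i) = s(u i, v i)) {i : C} (hm : 1 ≤ m i ∧ m i ≤ 7) {r : ℕ}
    (hr : r < m i) {Ru : Finset C}
    (hR : (Ru.card : ℝ) ≤ 2 * (δ ^ 2 / 10 ^ 4) * Fintype.card V) :
    ∃ z, mand σ z0 dir m i z r ∧ ∃ j ∈ Lv, ty j = 0 ∧ j ∉ Ru ∧ ∃ j' ∈ Lv, ty j' = 0 ∧ j' ∉ Ru ∧
      j ≠ j' ∧ (z = u j ∨ z = v j) ∧ (σ i z = u j' ∨ σ i z = v j') := by
  classical
  obtain ⟨P0, hP, hmand⟩ := LEFT_int h z0 dir m i hr
  set L := (Fintype.card V - 1) / 2 / m i with hL
  set x0 := (σ i ^ (P0 + 1)) (z0 i) with hx0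
  have hLN : L ≤ Fintype.card V := by omega
  have h4' := T.t4 i x0 L hLN
  set G := (range L).filter (fun r => rese Lv u v ty ((σ i ^ r) x0) ∧
    rese Lv u v ty ((σ i ^ (r + 1)) x0) ∧ s((σ i ^ r) x0, (σ i ^ (r + 1)) x0) ≠ s(u i, v i))
    with hG
  have h4 : δ ^ 2 * κ ^ 2 * L - ε₀ * Fintype.card V ≤ (G.card : ℝ) := by
    convert h4' using 3
  set B1 := (range L).filter (fun r => (σ i ^ r) x0 ∈ LEFTv u v Ru) with hB1
  set B2 := (range L).filter (fun r => (σ i ^ (r + 1)) x0 ∈ LEFTv u v Ru) with hB2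
  have hb1 : B1.card ≤ 2 * Ru.card := (LEFT_arc h i x0 hLN _).trans (LEFT_vc u v Ru)
  have hb2 : B2.card ≤ 2 * Ru.card := (LEFT_arc' h i x0 hLN _).trans (LEFT_vc u v Ru)
  have hex : ∃ t ∈ G, t ∉ B1 ∪ B2 := by
    by_contra hcon
    push Not at hcon
    have h5 : G.card ≤ (B1 ∪ B2).card := Finset.card_le_card hcon
    have h6 := Finset.card_union_le B1 B2
    have h7 : (G.card : ℝ) ≤ 4 * Ru.card := by
      have : G.card ≤ 4 * Ru.card := by omega
      exact_mod_cast this
    have h8 : (Fintype.card V : ℝ) ≤ 20 * L := by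
      have h9 : Fintype.card V ≤ 20 * L := by
        have h10 : (Fintype.card V - 1) / 2 < m i * (L + 1) := by
          rw [hL]
          exact Nat.lt_mul_div_succ _ (by omega)
        have h11 : m i * (L + 1) ≤ 7 * (L + 1) := Nat.mul_le_mul_right _ hm.2
        omega
      exact_mod_cast h9
    have h12 : (0 : ℝ) ≤ Fintype.card V := Nat.cast_nonneg _
    have h13 : (1000 : ℝ) ≤ Fintype.card V := by exact_mod_cast hN
    have h14 : δ ^ 2 * (1 / 16) * L ≤ δ ^ 2 * κ ^ 2 * L := by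
      have h15 : (1 : ℝ) / 16 ≤ κ ^ 2 := by nlinarith
      have h16 : (0 : ℝ) ≤ L := Nat.cast_nonneg _
      have h17 : 0 ≤ δ ^ 2 := sq_nonneg _
      exact mul_le_mul_of_nonneg_right (mul_le_mul_of_nonneg_left h15 h17) h16
    have h18 : ε₀ * Fintype.card V ≤ δ ^ 2 / 10 ^ 4 * Fintype.card V :=
      mul_le_mul_of_nonneg_right hε₀ h12
    have h19 : 0 < δ ^ 2 := by positivity
    have h20 : δ ^ 2 * Fintype.card V ≤ δ ^ 2 * (20 * L) :=
      mul_le_mul_of_nonneg_left h8 h19.le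
    have h21 : 0 < δ ^ 2 * (Fintype.card V : ℝ) := by positivity
    nlinarith
  obtain ⟨t, ht, htB⟩ := hex
  rw [Finset.mem_union, not_or] at htB
  obtain ⟨ht1, ht2, ht3, ht4⟩ := Finset.mem_filter.mp ht
  rw [Finset.mem_range] at ht1
  have hz1 : (σ i ^ t) x0 ∉ LEFTv u v Ru := by
    intro h5
    exact htB.1 (Finset.mem_filter.mpr ⟨Finset.mem_range.mpr ht1, h5⟩)
  have hz2 : (σ i ^ (t + 1)) x0 ∉ LEFTv u v Ru := by
    intro h5
    exact htB.2 (Finset.mem_filter.mpr ⟨Finset.mem_range.mpr ht1, h5⟩)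
  have hss : (σ i ^ (t + 1)) x0 = σ i ((σ i ^ t) x0) := by
    rw [pow_succ', Equiv.Perm.mul_apply]
  rw [hss] at ht3 ht4 hz2
  have hps : ps σ z0 i ((σ i ^ t) x0) = P0 + t := by
    apply ps_eq h z0 i _ (by omega)
    have : P0 + t + 1 = t + (P0 + 1) := by ring
    rw [this, pow_add, Equiv.Perm.mul_apply]
  refine ⟨(σ i ^ t) x0, hmand _ (by omega) (by omega), ?_⟩
  obtain ⟨j, hj, hj0, hjz⟩ := ht2
  obtain ⟨j', hj', hj0', hjz'⟩ := ht3
  refine ⟨j, hj, hj0, fun h5 => hz1 (LEFT_v.mpr ⟨j, h5, hjz⟩), j', hj', hj0',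
    fun h5 => hz2 (LEFT_v.mpr ⟨j', h5, hjz'⟩), ?_, hjz, hjz'⟩
  rintro rfl
  -- the two ends in the same pair
  have hne := (hd_ne h i ((σ i ^ t) x0)).1
  have he : ed σ i ((σ i ^ t) x0) = ed σ j (z0 j) := by
    rw [he0 j hj]
    unfold ed
    rw [Sym2.eq_iff]
    rcases hjz with h5 | h5 <;> rcases hjz' with h6 | h6
    · exact absurd (h6.trans h5.symm) hne
    · exact Or.inl ⟨h5, h6⟩
    · exact Or.inr ⟨h5, h6⟩
    · exact absurd (h6.trans h5.symm) hne
  obtain ⟨h5, h6⟩ := ed_inj h he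
  subst h5
  apply ht4
  rw [← he0 i hj, ← he]
  rfl

end

/-- block S3B: the leftover letters are placed greedily in the reserve -/
theorem left_exist (δ : ℝ) (hδ : 0 < δ) : ∃ ε₁ : ℝ, 0 < ε₁ ∧ ∃ N₀ : ℕ,
    ∀ (V C : Type) [Fintype V] [DecidableEq V] [Fintype C] [DecidableEq C]
      (σ : C → Equiv.Perm V), HD σ → N₀ ≤ Fintype.card V →
      ∀ (Lv : Finset C) (Uu : Finset V) (z0 u v : C → V) (cl : C → Fin 3) (h : ℕ)
        (q κ ε₀ ε : ℝ) (Sg : C → V → Finset V) (ty : C → Fin 3) (lev : V → ℕ)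
        (Es : Finset C) (m : C → ℕ) (dir : C → Bool) (gl : C → Fin 3) (Ls : Finset (Sq V C)),
      Types σ Lv Uu u v cl δ h q κ ε₀ Sg ty lev → ε₀ ≤ ε₁ → ε ≤ ε₁ → 1 / 4 ≤ κ →
      (∀ i ∈ Lv, ∀ j ∈ Lv, i ≠ j → Disjoint ({u i, v i} : Finset V) {u j, v j}) →
      (∀ i ∈ Es, ed σ i (z0 i) = s(u i, v i)) →
      (∀ i ∈ Lv, ed σ i (z0 i) = s(u i, v i)) →
      Spl σ z0 Lv Uu u v Es m ty lev dir gl Ls → (∀ i ∈ Es, 1 ≤ m i ∧ m i ≤ 7) →
      (∀ i, gl i ≠ 0) →
      (∑ i ∈ Es, (m i : ℝ)) - Ls.card ≤ ε * Fintype.card V →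
      ∃ (Lm : Finset (Sq V C)) (Ru : Finset C), Lett σ z0 Lv u v Es m ty dir gl Ls Lm Ru ∧
        (Ru.card : ℝ) ≤ 2 * ε * Fintype.card V := by
  refine ⟨δ ^ 2 / 10 ^ 4, by positivity, 1000, ?_⟩
  intro V C _ _ _ _ σ hσ hN Lv Uu z0 u v cl h q κ ε₀ ε Sg ty lev Es m dir gl Ls T hε₀ hε hκ hdis
    heE heL S hm hgl hsum
  classical
  -- all intervals
  set TT : Finset (Σ _ : C, ℕ) := Es.sigma (fun i => range (m i)) with hTT
  have hTc : (TT.card : ℝ) = ∑ i ∈ Es, (m i : ℝ) := by
    rw [hTT, Finset.card_sigma]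
    push_cast
    exact Finset.sum_congr rfl fun i _ => by rw [Finset.card_range]
  set P := TT.filter (fun a => ¬ ∃ g z, (g, a.1, z) ∈ Ls ∧ mand σ z0 dir m a.1 z a.2) with hP
  have hPc : (P.card : ℝ) ≤ ε * Fintype.card V := by
    refine le_trans ?_ hsum
    rw [← hTc]
    have h1 : Ls.card ≤ (TT.filter (fun a => ∃ g z, (g, a.1, z) ∈ Ls ∧
        mand σ z0 dir m a.1 z a.2)).card := by
      have h2 : ∀ a ∈ Ls, ∃ r, mand σ z0 dir m a.2.1 a.2.2 r ∧ a.1 = lb (gl a.2.1) r := by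
        rintro ⟨g, i, z⟩ ha
        exact (S.s1 g i z ha).2.1
      choose! ρ hρ1 hρ2 using h2
      refine Finset.card_le_card_of_injOn (fun a => ⟨a.2.1, ρ a⟩) ?_ ?_
      · rintro ⟨g, i, z⟩ ha
        have h3 := hρ1 _ ha
        rw [Finset.coe_filter]
        refine ⟨?_, g, z, ha, h3⟩
        rw [hTT, Finset.mem_sigma]
        exact ⟨(S.s1 g i z ha).1, Finset.mem_range.mpr h3.2.1⟩
      · rintro ⟨g, i, z⟩ ha ⟨g', i', z'⟩ ha' he
        simp only at he
        rw [Sigma.mk.injEq] at he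
        obtain ⟨h4, h5⟩ := he
        subst h4
        have h6 := eq_of_heq h5
        have h7 := hρ1 _ ha
        have h8 := hρ1 _ ha'
        simp only at h7 h8
        rw [← h6] at h8
        have h9 := S.s2 g g' i z z' _ ha ha' h7 h8
        subst h9
        have h10 := hρ2 _ ha
        have h11 := hρ2 _ ha'
        simp only at h10 h11
        rw [h10, h11, h6]
    have h2 : P.card + (TT.filter (fun a => ∃ g z, (g, a.1, z) ∈ Ls ∧
        mand σ z0 dir m a.1 z a.2)).card = TT.card := by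
      rw [add_comm, hP]
      exact Finset.card_filter_add_card_filter_not _
    have h3 : P.card + Ls.card ≤ TT.card := by omega
    have h4 : (P.card : ℝ) + Ls.card ≤ TT.card := by exact_mod_cast h3
    linarith
  -- the greedy choice
  have key : ∀ Q : Finset (Σ _ : C, ℕ), Q ⊆ P → ∃ (Lm : Finset (Sq V C)) (Ru : Finset C),
      Ls ⊆ Lm ∧ (∀ a ∈ Q, ∃ z, (lb (gl a.1) a.2, a.1, z) ∈ Lm ∧ mand σ z0 dir m a.1 z a.2) ∧
      (∀ g g' i z z' r, (g, i, z) ∈ Lm → (g', i, z') ∈ Lm → mand σ z0 dir m i z r →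
        mand σ z0 dir m i z' r → z = z') ∧
      (∀ g i z, (g, i, z) ∈ Lm → i ∈ Es ∧ ∃ r, mand σ z0 dir m i z r ∧ g = lb (gl i) r) ∧
      (∀ g i z, (g, i, z) ∈ Lm → (g, i, z) ∉ Ls → ∃ j ∈ Ru, ∃ j' ∈ Ru, j ≠ j' ∧
        (z = u j ∨ z = v j) ∧ (σ i z = u j' ∨ σ i z = v j')) ∧
      Ru ⊆ Lv.filter (fun j => ty j = 0) ∧
      (∀ j ∈ Ru, ∀ g i z g' i' z', (g, i, z) ∈ Lm → (g, i, z) ∉ Ls → (g', i', z') ∈ Lm →
        (g', i', z') ∉ Ls → (z = u j ∨ z = v j ∨ σ i z = u j ∨ σ i z = v j) →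
        (z' = u j ∨ z' = v j ∨ σ i' z' = u j ∨ σ i' z' = v j) → (g, i, z) = (g', i', z')) ∧
      Ru.card ≤ 2 * Q.card ∧
      (∀ g i z, (g, i, z) ∈ Lm → (g, i, z) ∉ Ls → ∀ r, mand σ z0 dir m i z r →
        (⟨i, r⟩ : Σ _ : C, ℕ) ∈ Q) := by
    intro Q
    induction Q using Finset.induction_on with
    | empty =>
      intro _
      refine ⟨Ls, ∅, Finset.Subset.refl _, fun a ha => absurd ha (Finset.notMem_empty _), S.s2,
        fun g i z hz => ⟨(S.s1 g i z hz).1, (S.s1 g i z hz).2.1⟩,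
        fun g i z h1 h2 => absurd h1 h2, Finset.empty_subset _,
        fun j hj => absurd hj (Finset.notMem_empty _), by simp, fun g i z h1 h2 => absurd h1 h2⟩
    | insert a Q ha ih =>
      intro hQ
      obtain ⟨Lm, Ru, h1, h2, h3, h4, h5, h6, h7, h8, h9⟩ := ih ((Finset.subset_insert _ _).trans hQ)
      have haP := hQ (Finset.mem_insert_self _ _)
      rw [hP, Finset.mem_filter, hTT, Finset.mem_sigma, Finset.mem_range] at haP
      obtain ⟨⟨haE, har⟩, hano⟩ := haP
      obtain ⟨i, r⟩ := a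
      simp only at haE har hano
      have hRu : (Ru.card : ℝ) ≤ 2 * (δ ^ 2 / 10 ^ 4) * Fintype.card V := by
        have e1 : Q.card ≤ P.card := Finset.card_le_card ((Finset.subset_insert _ _).trans hQ)
        have e2 : (Ru.card : ℝ) ≤ 2 * P.card := by
          have : Ru.card ≤ 2 * P.card := by omega
          exact_mod_cast this
        have e3 : ε * Fintype.card V ≤ δ ^ 2 / 10 ^ 4 * Fintype.card V :=
          mul_le_mul_of_nonneg_right hε (Nat.cast_nonneg _)
        linarith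
      obtain ⟨z, hz, j, hj, hj0, hjR, j', hj', hj0', hjR', hjj, hjz, hjz'⟩ :=
        LEFT_place hδ hσ hN T hε₀ hκ heL (hm i haE) har hRu (dir := dir)
      have hpair : ∀ a ∈ Lv, ∀ b ∈ Lv, ∀ x, (x = u a ∨ x = v a) → (x = u b ∨ x = v b) → a = b := by
        intro a ha b hb x hx hx'
        by_contra hab
        have e1 := hdis a ha b hb hab
        have e2 : x ∈ ({u a, v a} : Finset V) := by
          rw [Finset.mem_insert, Finset.mem_singleton]
          exact hx
        have e3 : x ∈ ({u b, v b} : Finset V) := by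
          rw [Finset.mem_insert, Finset.mem_singleton]
          exact hx'
        exact Finset.disjoint_left.mp e1 e2 e3
      have hRuL : ∀ a ∈ Ru, a ∈ Lv := fun a ha => (Finset.mem_filter.mp (h6 ha)).1
      -- an old letter does not touch the new pairs and the new letter does not touch the old ones
      have hold : ∀ k, k ∉ Ru → k ∈ Lv → ∀ g i z, (g, i, z) ∈ Lm → (g, i, z) ∉ Ls →
          ¬ (z = u k ∨ z = v k ∨ σ i z = u k ∨ σ i z = v k) := by
        intro k hk hkL g i z e1 e2 e3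
        obtain ⟨a, ha, b, hb, _, e4, e5⟩ := h5 g i z e1 e2
        rcases e3 with e3 | e3 | e3 | e3
        · exact hk ((hpair k hkL a (hRuL a ha) z (Or.inl e3) e4) ▸ ha)
        · exact hk ((hpair k hkL a (hRuL a ha) z (Or.inr e3) e4) ▸ ha)
        · exact hk ((hpair k hkL b (hRuL b hb) _ (Or.inl e3) e5) ▸ hb)
        · exact hk ((hpair k hkL b (hRuL b hb) _ (Or.inr e3) e5) ▸ hb)
      have hnew : ∀ k ∈ Ru, ¬ (z = u k ∨ z = v k ∨ σ i z = u k ∨ σ i z = v k) := by
        intro k hk e3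
        rcases e3 with e3 | e3 | e3 | e3
        · exact hjR ((hpair k (hRuL k hk) j hj z (Or.inl e3) hjz) ▸ hk)
        · exact hjR ((hpair k (hRuL k hk) j hj z (Or.inr e3) hjz) ▸ hk)
        · exact hjR' ((hpair k (hRuL k hk) j' hj' _ (Or.inl e3) hjz') ▸ hk)
        · exact hjR' ((hpair k (hRuL k hk) j' hj' _ (Or.inr e3) hjz') ▸ hk)
      refine ⟨insert (lb (gl i) r, i, z) Lm, insert j (insert j' Ru),
        h1.trans (Finset.subset_insert _ _), ?_, ?_, ?_, ?_, ?_, ?_, ?_, ?_⟩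
      · intro a ha
        rcases Finset.mem_insert.mp ha with ha | ha
        · subst ha
          exact ⟨z, Finset.mem_insert_self _ _, hz⟩
        · obtain ⟨z', e1, e2⟩ := h2 a ha
          exact ⟨z', Finset.mem_insert_of_mem e1, e2⟩
      · -- uniqueness
        have hu : ∀ g' z' r', (g', i, z') ∈ Lm → mand σ z0 dir m i z r' →
            mand σ z0 dir m i z' r' → z = z' := by
          intro g' z' r' e1 e2 e3
          exfalso
          have e4 := mand_unique e2 hz
          subst e4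
          by_cases e5 : (g', i, z') ∈ Ls
          · exact hano ⟨g', z', e5, e3⟩
          · exact ha (h9 g' i z' e1 e5 _ e3)
        intro g g' i1 z1 z2 r1 e1 e2 e3 e4
        rcases Finset.mem_insert.mp e1 with f1 | f1 <;>
          rcases Finset.mem_insert.mp e2 with f2 | f2
        · rw [Prod.mk.injEq, Prod.mk.injEq] at f1 f2
          rw [f1.2.2, f2.2.2]
        · rw [Prod.mk.injEq, Prod.mk.injEq] at f1
          obtain ⟨rfl, rfl, rfl⟩ := f1
          exact hu g' z2 r1 f2 e3 e4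
        · rw [Prod.mk.injEq, Prod.mk.injEq] at f2
          obtain ⟨rfl, rfl, rfl⟩ := f2
          exact (hu g z1 r1 f1 e4 e3).symm
        · exact h3 g g' i1 z1 z2 r1 f1 f2 e3 e4
      · intro g i1 z1 e1
        rcases Finset.mem_insert.mp e1 with e1 | e1
        · rw [Prod.mk.injEq, Prod.mk.injEq] at e1
          obtain ⟨rfl, rfl, rfl⟩ := e1
          exact ⟨haE, r, hz, rfl⟩
        · exact h4 g i1 z1 e1
      · intro g i1 z1 e1 e2
        rcases Finset.mem_insert.mp e1 with e1 | e1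
        · rw [Prod.mk.injEq, Prod.mk.injEq] at e1
          obtain ⟨rfl, rfl, rfl⟩ := e1
          exact ⟨j, Finset.mem_insert_self _ _, j',
            Finset.mem_insert_of_mem (Finset.mem_insert_self _ _), hjj, hjz, hjz'⟩
        · obtain ⟨a, ha, b, hb, e3⟩ := h5 g i1 z1 e1 e2
          exact ⟨a, Finset.mem_insert_of_mem (Finset.mem_insert_of_mem ha), b,
            Finset.mem_insert_of_mem (Finset.mem_insert_of_mem hb), e3⟩
      · intro a ha
        rcases Finset.mem_insert.mp ha with ha | ha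
        · subst ha
          exact Finset.mem_filter.mpr ⟨hj, hj0⟩
        · rcases Finset.mem_insert.mp ha with ha | ha
          · subst ha
            exact Finset.mem_filter.mpr ⟨hj', hj0'⟩
          · exact h6 ha
      · intro k hk g1 i1 z1 g2 i2 z2 e1 e2 e3 e4 e5 e6
        rcases Finset.mem_insert.mp e1 with f1 | f1 <;>
          rcases Finset.mem_insert.mp e3 with f3 | f3
        · rw [f1, f3]
        · exfalso
          rw [Prod.mk.injEq, Prod.mk.injEq] at f1
          obtain ⟨rfl, rfl, rfl⟩ := f1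
          rcases Finset.mem_insert.mp hk with hk | hk
          · subst hk
            exact hold k hjR hj g2 i2 z2 f3 e4 e6
          · rcases Finset.mem_insert.mp hk with hk | hk
            · subst hk
              exact hold k hjR' hj' g2 i2 z2 f3 e4 e6
            · exact hnew k hk e5
        · exfalso
          rw [Prod.mk.injEq, Prod.mk.injEq] at f3
          obtain ⟨rfl, rfl, rfl⟩ := f3
          rcases Finset.mem_insert.mp hk with hk | hk
          · subst hk
            exact hold k hjR hj g1 i1 z1 f1 e2 e5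
          · rcases Finset.mem_insert.mp hk with hk | hk
            · subst hk
              exact hold k hjR' hj' g1 i1 z1 f1 e2 e5
            · exact hnew k hk e6
        · by_cases hkR : k ∈ Ru
          · exact h7 k hkR g1 i1 z1 g2 i2 z2 f1 e2 f3 e4 e5 e6
          · exfalso
            have hkL : k ∈ Lv := by
              rcases Finset.mem_insert.mp hk with hk | hk
              · subst hk
                exact hj
              · rcases Finset.mem_insert.mp hk with hk | hk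
                · subst hk
                  exact hj'
                · exact absurd hk hkR
            exact hold k hkR hkL g1 i1 z1 f1 e2 e5
      · have e1 := Finset.card_insert_le j (insert j' Ru)
        have e2 := Finset.card_insert_le j' Ru
        rw [Finset.card_insert_of_notMem ha]
        omega
      · intro g i1 z1 e1 e2 r1 e3
        rcases Finset.mem_insert.mp e1 with e1 | e1
        · rw [Prod.mk.injEq, Prod.mk.injEq] at e1
          obtain ⟨rfl, rfl, rfl⟩ := e1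
          rw [mand_unique e3 hz]
          exact Finset.mem_insert_self _ _
        · exact Finset.mem_insert_of_mem (h9 g i1 z1 e1 e2 r1 e3)
  obtain ⟨Lm, Ru, h1, h2, h3, h4, h5, h6, h7, h8, h9⟩ := key P (Finset.Subset.refl _)
  refine ⟨Lm, Ru, ⟨h1, ?_, h3, h4, h5, h6, h7⟩, ?_⟩
  · intro i hi r hr
    by_cases hir : (⟨i, r⟩ : Σ _ : C, ℕ) ∈ P
    · exact h2 _ hir
    · have hiT : (⟨i, r⟩ : Σ _ : C, ℕ) ∈ TT := by
        rw [hTT, Finset.mem_sigma]
        exact ⟨hi, Finset.mem_range.mpr hr⟩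
      have h10 : ∃ g z, (g, i, z) ∈ Ls ∧ mand σ z0 dir m i z r := by
        by_contra hcon
        exact hir (Finset.mem_filter.mpr ⟨hiT, hcon⟩)
      obtain ⟨g, z, e1, e2⟩ := h10
      obtain ⟨r', e3, e4⟩ := (S.s1 g i z e1).2.1
      have e5 := mand_unique e3 e2
      subst e5
      rw [e4] at e1
      exact ⟨z, h1 e1, e2⟩
  · have e1 : (Ru.card : ℝ) ≤ 2 * P.card := by exact_mod_cast h8
    linarith

end Pool.Agent.KZ
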