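import Pool.Agent.Lib_helper15.KZF.DefsA
import Pool.Agent.Lib_helper15.KZF.DefsN
import Pool.Agent.Lib_helper15.KZF.MM1

/-! # The maximal partition (block KP) -/

set_option autoImplicit false
set_option linter.unusedSectionVars false

namespace Pool.Agent.KZ

open Finset

section
variable {V : Type} [Fintype V] [DecidableEq V]

/-- `d` is a partition into `s` parts without `J`-edges between the parts -/
structure PPart_h56 (W : Finset V) (J : V → V → Prop) (z s : ℕ) (d : V → Option (Fin s)) :
    Prop where
  att : ∀ b, ∃ w ∈ W, d w = some b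
  jed : ∀ x ∈ W, ∀ y ∈ W, ∀ a b, d x = some a → d y = some b → J x y → a = b
  non : (W.filter (fun w => d w = none)).card + z ≤ s * z

lemma ppart_size_h56 {W : Finset V} {J : V → V → Prop} {z s M : ℕ} {d : V → Option (Fin s)}
    (h1 : ∀ w ∈ W, ∃ S ⊆ W, M ≤ S.card ∧ ∀ y ∈ S, J w y) (P : PPart_h56 W J z s d) (b : Fin s) :
    M ≤ (W.filter (fun w => d w = some b)).card + (W.filter (fun w => d w = none)).card := by
  obtain ⟨w, hw, hdw⟩ := P.att b
  obtain ⟨S, hS, hM, hJ⟩ := h1 w hw
  have hsub : S ⊆ W.filter (fun w => d w = some b) ∪ W.filter (fun w => d w = none) := by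
    intro y hy
    rw [Finset.mem_union, Finset.mem_filter, Finset.mem_filter]
    cases hdy : d y with
    | none => exact Or.inr ⟨hS hy, rfl⟩
    | some c =>
      left
      refine ⟨hS hy, ?_⟩
      rw [P.jed w hw y (hS hy) b c hdw hdy (hJ y hy)]
  have := (Finset.card_le_card hsub).trans (Finset.card_union_le _ _)
  omega

/-- block KP: the maximal partition of the leaves into at most `k` parts.  `z` bound for the number
of used leaves, `M` lower bound of the `J`-degrees -/
theorem partition (W : Finset V) (J : V → V → Prop) (hJ : ∀ x y, J x y → J y x) (k z M : ℕ)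
    (hM : (k + 2) * z < M)
    (h4 : ∀ S : Fin (k + 1) → Finset V, (∀ i, S i ⊆ W ∧ M ≤ (S i).card + (k + 1) * z) →
      (∀ i j, i ≠ j → Disjoint (S i) (S j)) → ∃ i j, i ≠ j ∧ ∃ x ∈ S i, ∃ y ∈ S j, J x y)
    (h1 : ∀ w ∈ W, ∃ S ⊆ W, M ≤ S.card ∧ ∀ y ∈ S, J w y) (hW : W.Nonempty) :
    ∃ (s : ℕ) (d : V → Option (Fin s)), 0 < s ∧ s ≤ k ∧
      (W.filter (fun w => d w = none)).card ≤ k * z ∧
      (∀ b, M ≤ (W.filter (fun w => d w = some b)).card + k * z) ∧
      ∀ W' ⊆ W, (W \ W').card ≤ z → ∀ E : V → V → Prop, Equivalence E →
        (∀ x ∈ W', ∀ y ∈ W', J x y → E x y) →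
        (∀ x ∈ W', ∀ y ∈ W', d x = d y → d x ≠ none → E x y) ∧
        (∀ x ∈ W', ∃ y ∈ W', d y ≠ none ∧ E x y) := by
  classical
  -- no partition into `k + 1` parts
  have hno : ¬ ∃ d, PPart_h56 W J z (k + 1) d := by
    rintro ⟨d, P⟩
    have hs := P.non
    obtain ⟨i, j, hij, x, hx, y, hy, hxy⟩ := h4 (fun i => W.filter (fun w => d w = some i)) (by
      intro i
      refine ⟨Finset.filter_subset _ _, ?_⟩
      have := ppart_size_h56 h1 P i
      omega) (by
      intro i j hij
      rw [Finset.disjoint_left]
      intro x hx hx'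
      rw [Finset.mem_filter] at hx hx'
      rw [hx.2] at hx'
      exact hij (Option.some.inj hx'.2))
    rw [Finset.mem_filter] at hx hy
    exact hij (P.jed x hx.1 y hy.1 i j hx.2 hy.2 hxy)
  have hone : ∃ d, PPart_h56 W J z 1 d := by
    refine ⟨fun _ => some 0, ?_, ?_, ?_⟩
    · intro b
      obtain ⟨w, hw⟩ := hW
      exact ⟨w, hw, by rw [Subsingleton.elim b 0]⟩
    · intro x _ y _ a b _ _ _
      exact Subsingleton.elim _ _
    · simp
  -- maximal number of parts
  obtain ⟨s, hs1, hsk, ⟨d, P⟩, hmax⟩ : ∃ s, 0 < s ∧ s ≤ k ∧ (∃ d, PPart_h56 W J z s d) ∧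
      ¬ ∃ d, PPart_h56 W J z (s + 1) d := by
    by_contra hcon
    push Not at hcon
    have : ∀ s, s ≤ k → ∃ d, PPart_h56 W J z (s + 1) d := by
      intro s
      induction s with
      | zero => intro _; exact hone
      | succ s ih =>
        intro hs
        exact hcon (s + 1) (by omega) hs (ih (by omega))
    exact hno (this k le_rfl)
  have hnon := P.non
  have hsz : s * z ≤ k * z := Nat.mul_le_mul_right z hsk
  have hkz : (k + 2) * z = k * z + 2 * z := by ring
  refine ⟨s, d, hs1, hsk, by omega, ?_, ?_⟩
  · intro b
    have := ppart_size_h56 h1 P b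
    omega
  intro W' hW' hcard E hE hJE
  refine ⟨?_, ?_⟩
  · intro x hx y hy hdxy hdx
    by_contra hxy
    obtain ⟨b, hb⟩ := Option.ne_none_iff_exists'.1 hdx
    have hyb : d y = some b := by rw [← hdxy]; exact hb
    apply hmax
    let d' : V → Option (Fin (s + 1)) := fun w =>
      if w ∈ W' then (match d w with
        | none => none
        | some c => if c = b then (if E x w then some (Fin.castSucc b) else some (Fin.last s))
          else some (Fin.castSucc c)) else none
    have hd' : ∀ w ∈ W', ∀ c, d w = some c → d' w =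
        if c = b then (if E x w then some (Fin.castSucc b) else some (Fin.last s))
          else some (Fin.castSucc c) := by
      intro w hw c hc
      simp only [d', if_pos hw, hc]
    have hsome : ∀ w a, d' w = some a → w ∈ W' ∧ ∃ c, d w = some c := by
      intro w a h
      by_cases hw : w ∈ W'
      · refine ⟨hw, ?_⟩
        cases hc : d w with
        | none =>
          simp only [d', if_pos hw, hc] at h
          exact absurd h (by simp)
        | some c => exact ⟨c, rfl⟩
      · simp only [d', if_neg hw] at h
        exact absurd h (by simp)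
    refine ⟨d', ?_, ?_, ?_⟩
    · intro a
      induction a using Fin.lastCases with
      | last =>
        refine ⟨y, hW' hy, ?_⟩
        rw [hd' y hy b hyb, if_pos rfl, if_neg hxy]
      | cast c =>
        by_cases hcb : c = b
        · refine ⟨x, hW' hx, ?_⟩
          rw [hd' x hx b hb, if_pos rfl, if_pos (hE.refl x), hcb]
        · -- a vertex of the part `c` in `W'`
          have hsize := ppart_size_h56 h1 P c
          have : ∃ w ∈ W.filter (fun w => d w = some c), w ∈ W' := by
            by_contra hcon
            push Not at hcon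
            have hsub : W.filter (fun w => d w = some c) ⊆ W \ W' := by
              intro w hw
              rw [Finset.mem_sdiff]
              exact ⟨(Finset.mem_filter.1 hw).1, hcon w hw⟩
            have := Finset.card_le_card hsub
            omega
          obtain ⟨w, hw, hw'⟩ := this
          rw [Finset.mem_filter] at hw
          refine ⟨w, hw.1, ?_⟩
          rw [hd' w hw' c hw.2, if_neg hcb]
    · intro x1 hx1 y1 hy1 a1 b1 hdx1 hdy1 hJ1
      obtain ⟨m1, c1, e1⟩ := hsome x1 a1 hdx1
      obtain ⟨m2, c2, e2⟩ := hsome y1 b1 hdy1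
      have hc : c1 = c2 := P.jed x1 hx1 y1 hy1 c1 c2 e1 e2 hJ1
      rw [hd' x1 m1 c1 e1] at hdx1
      rw [hd' y1 m2 c2 e2, ← hc] at hdy1
      have hEE := hJE x1 m1 y1 m2 hJ1
      by_cases hcb : c1 = b
      · rw [if_pos hcb] at hdx1 hdy1
        by_cases hEx : E x x1
        · have hEy : E x y1 := hE.trans hEx hEE
          rw [if_pos hEx] at hdx1
          rw [if_pos hEy] at hdy1
          exact Option.some.inj (hdx1.symm.trans hdy1)
        · have hEy : ¬ E x y1 := fun h => hEx (hE.trans h (hE.symm hEE))
          rw [if_neg hEx] at hdx1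
          rw [if_neg hEy] at hdy1
          exact Option.some.inj (hdx1.symm.trans hdy1)
      · rw [if_neg hcb] at hdx1 hdy1
        exact Option.some.inj (hdx1.symm.trans hdy1)
    · have hsub : W.filter (fun w => d' w = none) ⊆
          W.filter (fun w => d w = none) ∪ (W \ W') := by
        intro w hw
        rw [Finset.mem_filter] at hw
        rw [Finset.mem_union, Finset.mem_filter, Finset.mem_sdiff]
        by_cases hww : w ∈ W'
        · left
          refine ⟨hw.1, ?_⟩
          cases hc : d w with
          | none => rfl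
          | some c =>
            exfalso
            have h := hd' w hww c hc
            rw [hw.2] at h
            split_ifs at h
        · exact Or.inr ⟨hw.1, hww⟩
      have h2 := (Finset.card_le_card hsub).trans (Finset.card_union_le _ _)
      have h3 : (s + 1) * z = s * z + z := by ring
      omega
  · intro x hx
    obtain ⟨S, hS, hMS, hJS⟩ := h1 x (hW' hx)
    by_contra hcon
    push Not at hcon
    have hsub : S ⊆ W.filter (fun w => d w = none) ∪ (W \ W') := by
      intro y hy
      rw [Finset.mem_union, Finset.mem_filter, Finset.mem_sdiff]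
      by_cases hyW : y ∈ W'
      · left
        refine ⟨hS hy, ?_⟩
        by_contra hne
        exact hcon y hyW hne (hJE x hx y hyW (hJS y hy))
      · exact Or.inr ⟨hS hy, hyW⟩
    have h2 := (Finset.card_le_card hsub).trans (Finset.card_union_le _ _)
    omega

end

end Pool.Agent.KZ
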