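import Pool.Agent.Lib_helper15.KZF.CYC
import Pool.Agent.Lib_helper15.KZF.DefsA
import Pool.Agent.Lib_helper15.KZF.DefsN
import Pool.Agent.Lib_helper15.KZF.ED
import Pool.Agent.Lib_helper15.KZF.MP1
import Pool.Agent.Lib_helper15.KZF.SML

/-! block PAR -/

set_option autoImplicit false

namespace Pool.Agent.KZ

open Finset

section

variable {V C : Type} [Fintype V] [DecidableEq V] [Fintype C] [DecidableEq C]
variable {σ : C → Equiv.Perm V}

/-- the neighbours -/
def par_N (σ : C → Equiv.Perm V) (x : V) : Finset V :=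
  univ.image (fun p : C × Bool => nb σ p x)

theorem par_card (h : HD σ) (x : V) : (par_N σ x).card = 2 * Fintype.card C := by
  rw [par_N, card_image_of_injective _ (nb_inj h x), card_univ, Fintype.card_prod,
    Fintype.card_bool, mul_comm]

theorem par_mem {x y : V} : y ∈ par_N σ x ↔ ∃ i s, y = nb σ (i, s) x := by
  rw [par_N, mem_image]
  constructor
  · rintro ⟨⟨i, s⟩, _, h⟩
    exact ⟨i, s, h.symm⟩
  · rintro ⟨i, s, h⟩
    exact ⟨(i, s), mem_univ _, h.symm⟩

theorem par_symm' {x y : V} (h : y ∈ par_N σ x) : x ∈ par_N σ y := by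
  rw [par_mem] at h ⊢
  obtain ⟨i, s, rfl⟩ := h
  exact ⟨i, !s, (nb_nb σ i s x).symm⟩

theorem par_symm {x y : V} : y ∈ par_N σ x ↔ x ∈ par_N σ y := ⟨par_symm', par_symm'⟩

theorem par_filter (h : HD σ) (x : V) (Q : V → Prop) [DecidablePred Q] :
    ((univ : Finset (C × Bool)).filter (fun p => Q (nb σ p x))).card =
      ((par_N σ x).filter Q).card := by
  rw [par_N, filter_image, card_image_of_injective _ (nb_inj h x)]

open Classical in
/-- common neighbours with the same colour -/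
noncomputable def par_sc (σ : C → Equiv.Perm V) (x y : V) : ℕ :=
  ((par_N σ x ∩ par_N σ y).filter (fun w => ¬ dcol σ x w y)).card

theorem par_cd (x y : V) : (par_N σ x ∩ par_N σ y).card ≤ cdD σ x y + par_sc σ x y := by
  classical
  have h1 := Finset.card_filter_add_card_filter_not (s := par_N σ x ∩ par_N σ y)
    (fun w => dcol σ x w y)
  rw [← h1]
  apply Nat.add_le_add
  · unfold cdD
    refine card_le_card ?_
    intro w hw
    rw [mem_filter] at hw ⊢
    exact ⟨mem_univ _, hw.2⟩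
  · unfold par_sc
    refine card_le_card ?_
    intro w hw
    rw [mem_filter] at hw ⊢
    exact hw

theorem par_sc_sum (x : V) (T : Finset V) (hx : x ∉ T) :
    ∑ y ∈ T, par_sc σ x y ≤ 2 * Fintype.card C := by
  classical
  have h1 : ∑ y ∈ T, par_sc σ x y = (T.sigma fun y =>
      (par_N σ x ∩ par_N σ y).filter (fun w => ¬ dcol σ x w y)).card := by
    rw [card_sigma]
    refine sum_congr rfl fun y _ => ?_
    unfold par_sc
    congr 1
  have h2 : (T.sigma fun y => (par_N σ x ∩ par_N σ y).filter (fun w => ¬ dcol σ x w y)) ⊆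
      (univ : Finset (C × Bool)).image
        (fun p => (⟨nb σ p (nb σ p x), nb σ p x⟩ : Sigma fun _ : V => V)) := by
    rintro ⟨y, w⟩ hyw
    rw [mem_sigma, mem_filter, mem_inter] at hyw
    obtain ⟨hy, ⟨hw1, hw2⟩, hd⟩ := hyw
    simp only at hy hw1 hw2 hd
    obtain ⟨i, s, rfl⟩ := par_mem.1 hw1
    obtain ⟨j, t, hyj⟩ := par_mem.1 (par_symm' hw2)
    have hij : i = j := by
      by_contra hne
      apply hd
      refine ⟨i, j, es σ (i, s) x, es σ (j, t) (nb σ (i, s) x), hne, (ed_nb σ (i, s) x).symm, ?_⟩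
      rw [hyj]
      exact (ed_nb σ (j, t) (nb σ (i, s) x)).symm
    subst hij
    have hst : t = s := by
      by_contra hne
      have : t = !s := by
        cases s <;> cases t <;> simp_all
      rw [this, nb_nb] at hyj
      rw [hyj] at hy
      exact hx hy
    subst hst
    rw [mem_image]
    exact ⟨(i, t), mem_univ _, by rw [hyj]⟩
  rw [h1]
  refine (card_le_card h2).trans (card_image_le.trans ?_)
  rw [card_univ, Fintype.card_prod, Fintype.card_bool, mul_comm]

theorem par_cdD_le (h : HD σ) (x y : V) : cdD σ x y ≤ 2 * Fintype.card C := by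
  classical
  rw [← par_card h x]
  unfold cdD
  refine card_le_card ?_
  intro w hw
  rw [mem_filter] at hw
  obtain ⟨_, i, j, z, z', _, h1, _⟩ := hw
  rw [ed, Sym2.eq_iff] at h1
  rw [par_mem]
  rcases h1 with ⟨h2, h3⟩ | ⟨h2, h3⟩
  · exact ⟨i, true, by rw [h3, h2]; rfl⟩
  · refine ⟨i, false, ?_⟩
    rw [h3, h2]
    show z = (σ i)⁻¹ (σ i z)
    simp

theorem par_dc (A B : Finset V) :
    ∑ x ∈ A, (par_N σ x ∩ B).card = ∑ y ∈ B, (par_N σ y ∩ A).card := by
  have h1 : ∀ (x : V) (B : Finset V), (par_N σ x ∩ B).card =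
      ∑ y ∈ B, if y ∈ par_N σ x then 1 else 0 := by
    intro x B
    rw [← card_filter, filter_mem_eq_inter, inter_comm]
  rw [sum_congr rfl fun x _ => h1 x B, sum_congr rfl fun y _ => h1 y A, sum_comm]
  refine sum_congr rfl fun y _ => sum_congr rfl fun x _ => ?_
  rw [if_congr (par_symm (σ := σ)) rfl rfl]

/-- choice of a vertex with few monochromatic common neighbours -/
theorem par_choose {N : ℝ} (hN : 10 ^ 9 ≤ N) (hn : 2 * (Fintype.card C : ℝ) ≤ N) (X S : Finset V)
    (hX : X.card ≤ 3) (hS : 0.0339 * N ≤ S.card) (hd : ∀ x ∈ X, x ∉ S) :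
    ∃ y ∈ S, ∀ x ∈ X, (par_sc σ x y : ℝ) ≤ 0.013 * N := by
  by_contra hcon
  push Not at hcon
  have h1 : ∀ y ∈ S, 0.013 * N ≤ ∑ x ∈ X, (par_sc σ x y : ℝ) := by
    intro y hy
    obtain ⟨x, hx, hlt⟩ := hcon y hy
    exact hlt.le.trans (single_le_sum (f := fun x => (par_sc σ x y : ℝ))
      (fun _ _ => Nat.cast_nonneg _) hx)
  have h2 : (S.card : ℝ) * (0.013 * N) ≤ ∑ y ∈ S, ∑ x ∈ X, (par_sc σ x y : ℝ) := by
    rw [← nsmul_eq_mul]
    exact card_nsmul_le_sum S _ _ h1
  rw [sum_comm] at h2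
  have h3 : ∀ x ∈ X, ∑ y ∈ S, (par_sc σ x y : ℝ) ≤ N := by
    intro x hx
    have h4 := par_sc_sum (σ := σ) x S (hd x hx)
    have h5 : ∑ y ∈ S, (par_sc σ x y : ℝ) ≤ 2 * (Fintype.card C : ℝ) := by exact_mod_cast h4
    exact h5.trans hn
  have h4 : ∑ x ∈ X, ∑ y ∈ S, (par_sc σ x y : ℝ) ≤ 3 * N := by
    calc ∑ x ∈ X, ∑ y ∈ S, (par_sc σ x y : ℝ) ≤ X.card • N := sum_le_card_nsmul X _ _ h3
      _ = X.card * N := by rw [nsmul_eq_mul]
      _ ≤ 3 * N := by
          have : (X.card : ℝ) ≤ 3 := by exact_mod_cast hX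
          gcongr
  have hN0 : 0 < N := by linarith
  have h5 : (S.card : ℝ) * 0.013 * N ≤ 3 * N := by
    calc (S.card : ℝ) * 0.013 * N = (S.card : ℝ) * (0.013 * N) := by ring
      _ ≤ 3 * N := h2.trans h4
  have h6 : (S.card : ℝ) * 0.013 ≤ 3 := le_of_mul_le_mul_right h5 hN0
  nlinarith

theorem par_union (A B D : Finset V) : ((A ∪ B) ∩ D).card ≤ (A ∩ D).card + (B ∩ D).card := by
  rw [union_inter_distrib_right]
  exact card_union_le _ _

/-- the degrees of the relation -/
theorem par_deg (h : HD σ) (W : Finset V)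
    (hN : 10 ^ 9 ≤ Fintype.card V) (h7 : Fintype.card V ≤ 7 * Fintype.card C)
    (hWn : (W.card : ℝ) ≤ Fintype.card C)
    (hW : ∀ x, 0.97 * 2 * (Fintype.card C : ℝ) ^ 2 / Fintype.card V ≤ ((par_N σ x ∩ W).card : ℝ))
    (w : V) (hw : w ∈ W) :
    ∃ S ⊆ W, 0.034 * (Fintype.card V : ℝ) + 1 ≤ S.card ∧
      ∀ y ∈ S, (Fintype.card V : ℝ) / 100 ≤ cdD σ w y := by
  classical
  set N : ℝ := (Fintype.card V : ℝ) with hNdef
  set n : ℝ := (Fintype.card C : ℝ) with hndef
  have hN' : (10 : ℝ) ^ 9 ≤ N := by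
    rw [hNdef]
    exact_mod_cast hN
  have h7' : N ≤ 7 * n := by
    rw [hNdef, hndef]
    exact_mod_cast h7
  have hn0 : 0 < n := by linarith
  have hN0 : 0 < N := by linarith
  set T : Finset V := W.erase w with hT
  set S : Finset V := T.filter (fun y => N / 100 ≤ cdD σ w y) with hS
  refine ⟨S, (filter_subset _ _).trans (erase_subset _ _), ?_, fun y hy => (mem_filter.1 hy).2⟩
  have ha : 2 * n * (0.97 * 2 * n ^ 2 / N) ≤ ∑ y ∈ W, ((par_N σ w ∩ par_N σ y).card : ℝ) := by
    have h1 := par_dc (σ := σ) W (par_N σ w)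
    have h2 : ∑ y ∈ W, ((par_N σ w ∩ par_N σ y).card : ℝ) =
        ∑ z ∈ par_N σ w, ((par_N σ z ∩ W).card : ℝ) := by
      have h3 : ∑ y ∈ W, (par_N σ w ∩ par_N σ y).card = ∑ z ∈ par_N σ w, (par_N σ z ∩ W).card := by
        rw [← h1]
        refine sum_congr rfl fun y _ => ?_
        rw [inter_comm]
      exact_mod_cast h3
    rw [h2]
    have h4 : (par_N σ w).card • (0.97 * 2 * n ^ 2 / N) ≤
        ∑ z ∈ par_N σ w, ((par_N σ z ∩ W).card : ℝ) :=
      card_nsmul_le_sum _ _ _ fun z _ => hW z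
    rw [par_card h, nsmul_eq_mul] at h4
    push_cast at h4
    exact h4
  have hb : ∑ y ∈ W, ((par_N σ w ∩ par_N σ y).card : ℝ) =
      2 * n + ∑ y ∈ T, ((par_N σ w ∩ par_N σ y).card : ℝ) := by
    rw [← add_sum_erase W _ hw, inter_self, par_card h]
    push_cast
    rfl
  have hc : ∑ y ∈ T, ((par_N σ w ∩ par_N σ y).card : ℝ) ≤ ∑ y ∈ T, (cdD σ w y : ℝ) + 2 * n := by
    have h1 : ∑ y ∈ T, (par_N σ w ∩ par_N σ y).card ≤ ∑ y ∈ T, cdD σ w y + 2 * Fintype.card C := by
      calc ∑ y ∈ T, (par_N σ w ∩ par_N σ y).card ≤ ∑ y ∈ T, (cdD σ w y + par_sc σ w y) :=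
            sum_le_sum fun y _ => par_cd w y
        _ = ∑ y ∈ T, cdD σ w y + ∑ y ∈ T, par_sc σ w y := sum_add_distrib
        _ ≤ _ := Nat.add_le_add_left (par_sc_sum w T (notMem_erase w W)) _
    rw [hndef]
    exact_mod_cast h1
  have hTW : (T.card : ℝ) ≤ n := by
    have h1 : T.card ≤ W.card := card_le_card (erase_subset _ _)
    have h2 : (T.card : ℝ) ≤ W.card := by exact_mod_cast h1
    exact h2.trans hWn
  have hd : ∑ y ∈ T, (cdD σ w y : ℝ) ≤ 2 * n * S.card + n * (N / 100) := by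
    rw [← sum_filter_add_sum_filter_not T (fun y => N / 100 ≤ cdD σ w y)]
    apply add_le_add
    · have h1 : ∑ y ∈ S, (cdD σ w y : ℝ) ≤ S.card • (2 * n) := by
        refine sum_le_card_nsmul _ _ _ fun y _ => ?_
        have := par_cdD_le h w y
        rw [hndef]
        exact_mod_cast this
      rw [nsmul_eq_mul] at h1
      calc _ ≤ (S.card : ℝ) * (2 * n) := h1
        _ = _ := by ring
    · have h1 : ∑ y ∈ T.filter (fun y => ¬ N / 100 ≤ cdD σ w y), (cdD σ w y : ℝ) ≤
          (T.filter (fun y => ¬ N / 100 ≤ cdD σ w y)).card • (N / 100) := by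
        refine sum_le_card_nsmul _ _ _ fun y hy => ?_
        exact (not_le.1 (mem_filter.1 hy).2).le
      rw [nsmul_eq_mul] at h1
      have h2 : ((T.filter (fun y => ¬ N / 100 ≤ cdD σ w y)).card : ℝ) ≤ n := by
        have h3 := card_filter_le T (fun y => ¬ N / 100 ≤ cdD σ w y)
        have h4 : ((T.filter (fun y => ¬ N / 100 ≤ cdD σ w y)).card : ℝ) ≤ T.card := by
          exact_mod_cast h3
        exact h4.trans hTW
      exact h1.trans (mul_le_mul_of_nonneg_right h2 (by positivity))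
  have he : 2 * n * (0.97 * 2 * n ^ 2 / N) ≤ 2 * n * (2 + S.card + N / 200) := by
    calc _ ≤ _ := ha
      _ = _ := hb
      _ ≤ 2 * n + ((2 * n * S.card + n * (N / 100)) + 2 * n) := by linarith
      _ = _ := by ring
  have hf : 0.97 * 2 * n ^ 2 / N ≤ 2 + S.card + N / 200 :=
    le_of_mul_le_mul_left he (by positivity)
  have hg : N / 49 ≤ n ^ 2 / N := by
    rw [le_div_iff₀ hN0]
    nlinarith
  have hh : 0.97 * 2 * n ^ 2 / N = 1.94 * (n ^ 2 / N) := by ring
  rw [hh] at hf
  nlinarith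

/-- four (two) large disjoint sets are joined by the relation -/
theorem par_join (h : HD σ) (W : Finset V) (k : ℕ)
    (hN : 10 ^ 9 ≤ Fintype.card V) (h7 : Fintype.card V ≤ 7 * Fintype.card C)
    (hk : k = 3 ∨ (k = 1 ∧ (Fintype.card V : ℝ) ≤ 2.1 * Fintype.card C))
    (S : Fin (k + 1) → Finset V) (hS : ∀ i, 0.0339 * (Fintype.card V : ℝ) ≤ (S i).card)
    (hd : ∀ i j, i ≠ j → Disjoint (S i) (S j)) :
    ∃ i j, i ≠ j ∧ ∃ x ∈ S i, ∃ y ∈ S j, (Fintype.card V : ℝ) / 100 ≤ cdD σ x y := by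
  classical
  have hdeg := hd_deg h
  have hcd : ∀ x y : V, ((par_N σ x ∩ par_N σ y).card : ℝ) ≤ cdD σ x y + par_sc σ x y := by
    intro x y
    exact_mod_cast par_cd x y
  have hcard : ∀ x, ((par_N σ x).card : ℝ) = 2 * Fintype.card C := by
    intro x
    rw [par_card h]
    push_cast
    rfl
  have huni : ∀ A : Finset V, (A.card : ℝ) ≤ Fintype.card V := by
    intro A
    exact_mod_cast card_le_univ A
  have hcup : ∀ A B : Finset V, ((A ∪ B).card : ℝ) + ((A ∩ B).card : ℝ) = A.card + B.card := by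
    intro A B
    exact_mod_cast card_union_add_card_inter A B
  set N : ℝ := (Fintype.card V : ℝ) with hNdef
  set n : ℝ := (Fintype.card C : ℝ) with hndef
  have hN' : (10 : ℝ) ^ 9 ≤ N := by
    rw [hNdef]
    exact_mod_cast hN
  have h7' : N ≤ 7 * n := by
    rw [hNdef, hndef]
    exact_mod_cast h7
  have h2n : 2 * n ≤ N := by
    have : 2 * Fintype.card C ≤ Fintype.card V := by omega
    rw [hNdef, hndef]
    exact_mod_cast this
  have hne : ∀ i, (S i).Nonempty := by
    intro i
    rw [← card_pos]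
    have h1 := hS i
    have h2 : (0 : ℝ) < (S i).card := by linarith
    exact_mod_cast h2
  have hdis : ∀ i j, i ≠ j → ∀ x ∈ S i, x ∉ S j := fun i j hij x hx =>
    Finset.disjoint_left.1 (hd i j hij) hx
  rcases hk with rfl | ⟨rfl, hk⟩
  · obtain ⟨x0, h0⟩ := hne 0
    obtain ⟨x1, h1, h1'⟩ := par_choose (σ := σ) hN' h2n {x0} (S 1) (by simp) (hS 1) (by
      intro x hx
      rw [mem_singleton] at hx
      rw [hx]
      exact hdis 0 1 (by decide) x0 h0)
    obtain ⟨x2, h2, h2'⟩ := par_choose (σ := σ) hN' h2n {x0, x1} (S 2)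
      (card_le_two.trans (by norm_num)) (hS 2) (by
      intro x hx
      rw [mem_insert, mem_singleton] at hx
      rcases hx with rfl | rfl
      · exact hdis 0 2 (by decide) _ h0
      · exact hdis 1 2 (by decide) _ h1)
    obtain ⟨x3, h3, h3'⟩ := par_choose (σ := σ) hN' h2n {x0, x1, x2} (S 3)
      card_le_three (hS 3) (by
      intro x hx
      rw [mem_insert, mem_insert, mem_singleton] at hx
      rcases hx with rfl | rfl | rfl
      · exact hdis 0 3 (by decide) _ h0
      · exact hdis 1 3 (by decide) _ h1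
      · exact hdis 2 3 (by decide) _ h2)
    have s01 := h1' x0 (by simp)
    have s02 := h2' x0 (by simp)
    have s12 := h2' x1 (by simp)
    have s03 := h3' x0 (by simp)
    have s13 := h3' x1 (by simp)
    have s23 := h3' x2 (by simp)
    have c01 := hcd x0 x1
    have c02 := hcd x0 x2
    have c12 := hcd x1 x2
    have c03 := hcd x0 x3
    have c13 := hcd x1 x3
    have c23 := hcd x2 x3
    have u1 := hcup (par_N σ x0) (par_N σ x1)
    have u2 := hcup (par_N σ x0 ∪ par_N σ x1) (par_N σ x2)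
    have u3 := hcup (par_N σ x0 ∪ par_N σ x1 ∪ par_N σ x2) (par_N σ x3)
    have v2 : (((par_N σ x0 ∪ par_N σ x1) ∩ par_N σ x2).card : ℝ) ≤
        (par_N σ x0 ∩ par_N σ x2).card + (par_N σ x1 ∩ par_N σ x2).card := by
      exact_mod_cast par_union (par_N σ x0) (par_N σ x1) (par_N σ x2)
    have v3 : (((par_N σ x0 ∪ par_N σ x1 ∪ par_N σ x2) ∩ par_N σ x3).card : ℝ) ≤
        ((par_N σ x0 ∪ par_N σ x1) ∩ par_N σ x3).card + (par_N σ x2 ∩ par_N σ x3).card := by
      exact_mod_cast par_union (par_N σ x0 ∪ par_N σ x1) (par_N σ x2) (par_N σ x3)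
    have v3' : (((par_N σ x0 ∪ par_N σ x1) ∩ par_N σ x3).card : ℝ) ≤
        (par_N σ x0 ∩ par_N σ x3).card + (par_N σ x1 ∩ par_N σ x3).card := by
      exact_mod_cast par_union (par_N σ x0) (par_N σ x1) (par_N σ x3)
    have hall := huni (par_N σ x0 ∪ par_N σ x1 ∪ par_N σ x2 ∪ par_N σ x3)
    have k0 := hcard x0
    have k1 := hcard x1
    have k2 := hcard x2
    have k3 := hcard x3
    by_contra hcon
    push Not at hcon
    have d01 := hcon 0 1 (by decide) x0 h0 x1 h1
    have d02 := hcon 0 2 (by decide) x0 h0 x2 h2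
    have d12 := hcon 1 2 (by decide) x1 h1 x2 h2
    have d03 := hcon 0 3 (by decide) x0 h0 x3 h3
    have d13 := hcon 1 3 (by decide) x1 h1 x3 h3
    have d23 := hcon 2 3 (by decide) x2 h2 x3 h3
    linarith
  · obtain ⟨x0, h0⟩ := hne 0
    obtain ⟨x1, h1, h1'⟩ := par_choose (σ := σ) hN' h2n {x0} (S 1) (by simp) (hS 1) (by
      intro x hx
      rw [mem_singleton] at hx
      rw [hx]
      exact hdis 0 1 (by decide) x0 h0)
    have s01 := h1' x0 (by simp)
    have c01 := hcd x0 x1
    have u1 := hcup (par_N σ x0) (par_N σ x1)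
    have hall := huni (par_N σ x0 ∪ par_N σ x1)
    have k0 := hcard x0
    have k1 := hcard x1
    refine ⟨0, 1, by decide, x0, h0, x1, h1, ?_⟩
    linarith

end

/-- block PAR: the parts of the leaves and the relation `J` (`k = 1`: regime A, `k = 3`: B) -/
theorem parts_exist {V C : Type} [Fintype V] [DecidableEq V] [Fintype C] [DecidableEq C]
    (σ : C → Equiv.Perm V) (hσ : HD σ) (W : Finset V) (k z : ℕ)
    (hN : 10 ^ 9 ≤ Fintype.card V) (h7 : Fintype.card V ≤ 7 * Fintype.card C)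
    (hz : (z : ℝ) ≤ Fintype.card V / 10 ^ 5)
    (hk : k = 3 ∨ (k = 1 ∧ (Fintype.card V : ℝ) ≤ 2.1 * Fintype.card C))
    (hWn : (W.card : ℝ) ≤ Fintype.card C)
    (hW : ∀ x, 0.97 * 2 * (Fintype.card C : ℝ) ^ 2 / Fintype.card V ≤
      ((univ : Finset (C × Bool)).filter (fun p => nb σ p x ∈ W)).card) :
    ∃ (s : ℕ) (d : V → Option (Fin s)), 0 < s ∧ s ≤ k ∧
      (∀ x, ∃ b, (Fintype.card V : ℝ) / 300 ≤
        ((univ : Finset (C × Bool)).filter (fun p => nb σ p x ∈ W ∧ d (nb σ p x) = some b)).card) ∧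
      (∀ b, ∃ S : Finset V, 100 ≤ S.card ∧ ∀ x ∈ S, (Fintype.card V : ℝ) / 300 ≤
        ((univ : Finset (C × Bool)).filter (fun p => nb σ p x ∈ W ∧ d (nb σ p x) = some b)).card) ∧
      ∀ W' ⊆ W, (W \ W').card ≤ z → ∀ E : V → V → Prop, Equivalence E →
        (∀ x ∈ W', ∀ y ∈ W', (Fintype.card V : ℝ) / 100 ≤ cdD σ x y → E x y) →
        (∀ x ∈ W', ∀ y ∈ W', d x = d y → d x ≠ none → E x y) ∧
        (∀ x ∈ W', ∃ y ∈ W', d y ≠ none ∧ E x y) := by
  classical
  have hdeg := hd_deg hσ
  set N : ℝ := (Fintype.card V : ℝ) with hNdef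
  set n : ℝ := (Fintype.card C : ℝ) with hndef
  have hN' : (10 : ℝ) ^ 9 ≤ N := by
    rw [hNdef]
    exact_mod_cast hN
  have h7' : N ≤ 7 * n := by
    rw [hNdef, hndef]
    exact_mod_cast h7
  have h2n : 2 * n ≤ N := by
    have : 2 * Fintype.card C ≤ Fintype.card V := by omega
    rw [hNdef, hndef]
    exact_mod_cast this
  have hn0 : 0 < n := by linarith
  have hN0 : 0 < N := by linarith
  have hk3 : k ≤ 3 := by
    rcases hk with rfl | ⟨rfl, _⟩
    · exact le_rfl
    · norm_num
  have hk3' : (k : ℝ) ≤ 3 := by exact_mod_cast hk3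
  have hz0 : (0 : ℝ) ≤ z := Nat.cast_nonneg z
  have hW' : ∀ x, 0.97 * 2 * n ^ 2 / N ≤ ((par_N σ x ∩ W).card : ℝ) := by
    intro x
    have h1 := par_filter hσ x (fun y => y ∈ W)
    rw [filter_mem_eq_inter] at h1
    rw [← h1]
    exact hW x
  have hlow : N / 49 ≤ n ^ 2 / N := by
    rw [le_div_iff₀ hN0]
    nlinarith
  have hlow' : 0.0395 * N + 1 ≤ 0.97 * 2 * n ^ 2 / N := by
    have hh : 0.97 * 2 * n ^ 2 / N = 1.94 * (n ^ 2 / N) := by ring
    rw [hh]
    nlinarith
  set M : ℕ := ⌈0.034 * N⌉₊ with hM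
  have hM1 : 0.034 * N ≤ (M : ℝ) := Nat.le_ceil _
  have hM2 : (M : ℝ) < 0.034 * N + 1 := Nat.ceil_lt_add_one (by positivity)
  have hne : W.Nonempty := by
    have hV : Nonempty V := Fintype.card_pos_iff.1 (by omega)
    obtain ⟨x⟩ := hV
    have h1 : (0 : ℝ) < ((par_N σ x ∩ W).card : ℝ) := by
      have := hW' x
      linarith
    have h2 : 0 < (par_N σ x ∩ W).card := by exact_mod_cast h1
    obtain ⟨y, hy⟩ := card_pos.1 h2
    exact ⟨y, (mem_inter.1 hy).2⟩
  obtain ⟨s, d, hs0, hsk, hnone, hpart, hlast⟩ := partition W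
    (fun x y => N / 100 ≤ (cdD σ x y : ℝ)) (fun x y hxy => by
      rw [cdD_comm]
      exact hxy) k z M (by
      have h1 : ((k + 2 : ℕ) : ℝ) * z < M := by
        push_cast
        have h2 : ((k : ℝ) + 2) * z ≤ 5 * z := by nlinarith
        have h3 : 5 * (z : ℝ) ≤ 5 * (N / 10 ^ 5) := by linarith
        have h4 : 5 * (N / 10 ^ 5) < 0.034 * N := by
          have : N / 10 ^ 5 = 0.00001 * N := by ring
          rw [this]
          nlinarith
        linarith
      exact_mod_cast h1)
    (by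
      intro S hS hd
      refine par_join hσ W k hN h7 hk S (fun i => ?_) hd
      have h1 := (hS i).2
      have h2 : (M : ℝ) ≤ (S i).card + (k + 1) * z := by exact_mod_cast h1
      have h3 : ((k : ℝ) + 1) * z ≤ 4 * z := by nlinarith
      have h4 : 4 * (z : ℝ) ≤ 4 * (N / 10 ^ 5) := by linarith
      have h5 : N / 10 ^ 5 = 0.00001 * N := by ring
      rw [h5] at h4
      show 0.0339 * N ≤ _
      linarith)
    (by
      intro w hw
      obtain ⟨S, hS1, hS2, hS3⟩ := par_deg hσ W hN h7 hWn hW' w hw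
      refine ⟨S, hS1, ?_, hS3⟩
      have h1 : (M : ℝ) ≤ S.card := by
        have : 0.034 * N + 1 ≤ (S.card : ℝ) := hS2
        linarith
      exact_mod_cast h1) hne
  have hcnt : ∀ x b, ((univ : Finset (C × Bool)).filter
      (fun p => nb σ p x ∈ W ∧ d (nb σ p x) = some b)).card =
      (par_N σ x ∩ W.filter (fun w => d w = some b)).card := by
    intro x b
    rw [par_filter hσ x (fun y => y ∈ W ∧ d y = some b)]
    congr 1
    ext y
    rw [mem_filter, mem_inter, mem_filter]
  refine ⟨s, d, hs0, hsk, ?_, ?_, hlast⟩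
  · intro x
    by_contra hcon
    push Not at hcon
    have h1 : ((par_N σ x ∩ W).card : ℝ) ≤ (W.filter (fun w => d w = none)).card +
        ∑ b, ((par_N σ x ∩ W.filter (fun w => d w = some b)).card : ℝ) := by
      have h2 : (par_N σ x ∩ W) ⊆ (W.filter (fun w => d w = none)) ∪
          (univ : Finset (Fin s)).biUnion fun b => par_N σ x ∩ W.filter (fun w => d w = some b) := by
        intro y hy
        rw [mem_inter] at hy
        rw [mem_union, mem_biUnion]
        rcases hdy : d y with _ | b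
        · left
          exact mem_filter.2 ⟨hy.2, hdy⟩
        · right
          exact ⟨b, mem_univ _, mem_inter.2 ⟨hy.1, mem_filter.2 ⟨hy.2, hdy⟩⟩⟩
      have h3 := (card_le_card h2).trans ((card_union_le _ _).trans
        (Nat.add_le_add_left card_biUnion_le _))
      exact_mod_cast h3
    have h2 : ((W.filter (fun w => d w = none)).card : ℝ) ≤ k * z := by exact_mod_cast hnone
    have h3 : ∑ b, ((par_N σ x ∩ W.filter (fun w => d w = some b)).card : ℝ) ≤
        (univ : Finset (Fin s)).card • (N / 300) := by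
      refine sum_le_card_nsmul _ _ _ fun b _ => ?_
      have h4 := (hcon b).le
      rw [hcnt] at h4
      exact h4
    rw [card_univ, Fintype.card_fin, nsmul_eq_mul] at h3
    have h4 : (s : ℝ) ≤ 3 := by exact_mod_cast hsk.trans hk3
    have h5 : (s : ℝ) * (N / 300) ≤ 3 * (N / 300) := by gcongr
    have h6 : (k : ℝ) * z ≤ 3 * z := by nlinarith
    have h7 : 3 * (z : ℝ) ≤ 3 * (N / 10 ^ 5) := by linarith
    have h8 : N / 10 ^ 5 = 0.00001 * N := by ring
    rw [h8] at h7
    have h9 := hW' x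
    linarith
  · intro b
    set Db : Finset V := W.filter (fun w => d w = some b) with hDb
    refine ⟨univ.filter (fun x => N / 300 ≤ ((par_N σ x ∩ Db).card : ℝ)), ?_, fun x hx => ?_⟩
    · by_contra hcon
      push Not at hcon
      have h1 := par_dc (σ := σ) univ Db
      have h2 : ∑ y ∈ Db, (par_N σ y ∩ univ).card = 2 * Fintype.card C * Db.card := by
        have h3 : ∀ y ∈ Db, (par_N σ y ∩ univ).card = 2 * Fintype.card C := by
          intro y _
          rw [inter_univ, par_card hσ]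
        rw [sum_congr rfl h3, sum_const, smul_eq_mul, mul_comm]
      rw [h2] at h1
      have h3 : ∑ x : V, ((par_N σ x ∩ Db).card : ℝ) = 2 * n * Db.card := by
        rw [hndef]
        exact_mod_cast h1
      have h4 : ∑ x : V, ((par_N σ x ∩ Db).card : ℝ) ≤ 100 * (2 * n) + N * (N / 300) := by
        rw [← sum_filter_add_sum_filter_not univ
          (fun x => N / 300 ≤ ((par_N σ x ∩ Db).card : ℝ))]
        apply add_le_add
        · have h5 : ∑ x ∈ univ.filter (fun x => N / 300 ≤ ((par_N σ x ∩ Db).card : ℝ)),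
              ((par_N σ x ∩ Db).card : ℝ) ≤
              (univ.filter (fun x => N / 300 ≤ ((par_N σ x ∩ Db).card : ℝ))).card • (2 * n) := by
            refine sum_le_card_nsmul _ _ _ fun x _ => ?_
            have h6 : (par_N σ x ∩ Db).card ≤ 2 * Fintype.card C := by
              rw [← par_card hσ x]
              exact card_le_card inter_subset_left
            rw [hndef]
            exact_mod_cast h6
          rw [nsmul_eq_mul] at h5
          have h6 : ((univ.filter (fun x => N / 300 ≤ ((par_N σ x ∩ Db).card : ℝ))).card : ℝ) ≤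
              100 := by exact_mod_cast hcon.le
          exact h5.trans (mul_le_mul_of_nonneg_right h6 (by positivity))
        · have h5 : ∑ x ∈ univ.filter (fun x => ¬ N / 300 ≤ ((par_N σ x ∩ Db).card : ℝ)),
              ((par_N σ x ∩ Db).card : ℝ) ≤
              (univ.filter (fun x => ¬ N / 300 ≤ ((par_N σ x ∩ Db).card : ℝ))).card •
                (N / 300) := by
            refine sum_le_card_nsmul _ _ _ fun x hx => ?_
            exact (not_le.1 (mem_filter.1 hx).2).le
          rw [nsmul_eq_mul] at h5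
          have h6 : ((univ.filter (fun x => ¬ N / 300 ≤ ((par_N σ x ∩ Db).card : ℝ))).card : ℝ) ≤
              N := by
            rw [hNdef]
            exact_mod_cast card_le_univ _
          exact h5.trans (mul_le_mul_of_nonneg_right h6 (by positivity))
      have h5 : (M : ℝ) ≤ Db.card + k * z := by exact_mod_cast hpart b
      have h6 : (k : ℝ) * z ≤ 3 * z := by nlinarith
      have h7 : 3 * (z : ℝ) ≤ 3 * (N / 10 ^ 5) := by linarith
      have h8 : N / 10 ^ 5 = 0.00001 * N := by ring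
      rw [h8] at h7
      have h9 : 0.0339 * N ≤ Db.card := by linarith
      rw [h3] at h4
      have h10 : 2 * n * (0.0339 * N) ≤ 2 * n * Db.card :=
        mul_le_mul_of_nonneg_left h9 (by positivity)
      have h11 : 2 * (N / 7) * (0.0339 * N) ≤ 2 * n * (0.0339 * N) := by
        have : N / 7 ≤ n := by linarith
        gcongr
      have h12 : 2 * (N / 7) * (0.0339 * N) ≤ 100 * N + N * (N / 300) := by linarith
      have h13 : N * (2 / 7 * 0.0339 * N) ≤ N * (100 + N / 300) := by
        calc N * (2 / 7 * 0.0339 * N) = 2 * (N / 7) * (0.0339 * N) := by ring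
          _ ≤ _ := h12
          _ = _ := by ring
      have h14 : 2 / 7 * 0.0339 * N ≤ 100 + N / 300 := le_of_mul_le_mul_left h13 hN0
      nlinarith
    · rw [hcnt]
      exact (mem_filter.1 hx).2

end Pool.Agent.KZ
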