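import Pool.Agent.Lib_helper15.KZF.DefsA
import Pool.Agent.Lib_helper15.KZF.DefsN

/-! # Block LC1 -/

set_option autoImplicit false

namespace Pool.Agent.KZ

open Finset

open Classical in
/-- the load of the resource as a weighted sum -/
theorem lc1_ld {V C : Type} [Fintype V] [DecidableEq V] [Fintype C]
    [DecidableEq C] (σ : C → Equiv.Perm V) (O : Finset C) (τ : ℕ) (φ : V → ℕ) (i : C) :
    ld σ O τ φ (Sum.inr (1, i)) =
      ∑ s : Bool, ∑ v : V, ∑ p : C × Bool, w1 σ O τ φ (Sum.inl (v, p, (i, s))) := by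
  unfold ld
  rw [Finset.sum_filter, Fintype.sum_sum_type]
  have h1 : ∑ x : V × C, (if (Sum.inr (1, i) : Rs V C) ∈
      inc1 σ (Sum.inr x) then w1 σ O τ φ (Sum.inr x) else 0) = 0 := by
    refine Finset.sum_eq_zero fun x _ => ?_
    rw [if_neg]
    obtain ⟨b, j⟩ := x
    simp [inc1]
  rw [h1, add_zero, Fintype.sum_prod_type]
  rw [Finset.sum_comm (s := (univ : Finset Bool))]
  refine Finset.sum_congr rfl fun v _ => ?_
  rw [Fintype.sum_prod_type, Finset.sum_comm (s := (univ : Finset Bool))]
  refine Finset.sum_congr rfl fun p _ => ?_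
  rw [Fintype.sum_prod_type, Finset.sum_comm]
  refine Finset.sum_congr rfl fun s _ => ?_
  rw [Finset.sum_eq_single i]
  · rw [if_pos]
    simp [inc1]
  · intro j _ hj
    rw [if_neg]
    simp only [inc1, Finset.mem_insert, Finset.mem_singleton, reduceCtorEq, Sum.inr.injEq,
      Prod.mk.injEq, true_and, false_or]
    rintro (h | h)
    · exact absurd h.1 (by decide)
    · exact hj h.symm
  · simp

open Classical in
/-- number of cells with given `p'` -/
theorem lc1_count {V C : Type} [Fintype V] [DecidableEq V] [Fintype C]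
    [DecidableEq C] (σ : C → Equiv.Perm V) (O : Finset C) (τ : ℕ) (φ : V → ℕ) (i : C) (s : Bool)
    (hi : i ∉ O) :
    (∑ v : V, ((univ.filter (fun p : C × Bool => okP σ O τ φ v p (i, s))).card : ℝ)) =
      ∑ t ∈ Icc 1 τ, ∑ v ∈ univ.filter (fun v => φ v = 2 * t ∧ φ (nb σ (i, s) v) = 2 * t + 1),
        ((univ.filter (fun p : C × Bool => p.1 ∉ O ∧ p.1 ≠ i ∧
          φ (nb σ p v) = 2 * t - 1)).card : ℝ) := by
  have h1 : ∀ v : V, ((univ.filter (fun p : C × Bool => okP σ O τ φ v p (i, s))).card : ℝ) =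
      ∑ t ∈ Icc 1 τ, if φ v = 2 * t ∧ φ (nb σ (i, s) v) = 2 * t + 1 then
        ((univ.filter (fun p : C × Bool => p.1 ∉ O ∧ p.1 ≠ i ∧
          φ (nb σ p v) = 2 * t - 1)).card : ℝ) else 0 := by
    intro v
    by_cases hv : ∃ t, 1 ≤ t ∧ t ≤ τ ∧ φ v = 2 * t ∧ φ (nb σ (i, s) v) = 2 * t + 1
    · obtain ⟨t, h1, h2, h3, h4⟩ := hv
      rw [Finset.sum_eq_single t]
      · rw [if_pos ⟨h3, h4⟩]
        congr 2
        ext p
        simp only [Finset.mem_filter, Finset.mem_univ, true_and, okP]
        constructor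
        · rintro ⟨h5, _, h6, t', h7, h8, h9, h10, h11⟩
          refine ⟨h5, h6, ?_⟩
          have : t' = t := by omega
          rw [← this]
          exact h10
        · rintro ⟨h5, h6, h7⟩
          exact ⟨h5, hi, h6, t, h1, h2, h3, h7, h4⟩
      · intro t' _ ht'
        rw [if_neg]
        rintro ⟨h5, _⟩
        omega
      · intro h
        exact absurd (Finset.mem_Icc.2 ⟨h1, h2⟩) h
    · rw [Finset.sum_eq_zero]
      · rw [Finset.filter_false_of_mem]
        · simp
        · rintro p _ ⟨_, _, _, t, h7, h8, h9, _, h11⟩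
          exact hv ⟨t, h7, h8, h9, h11⟩
      · intro t ht
        rw [if_neg]
        rintro ⟨h5, h6⟩
        rw [Finset.mem_Icc] at ht
        exact hv ⟨t, ht.1, ht.2, h5, h6⟩
  rw [Finset.sum_congr rfl fun v _ => h1 v, Finset.sum_comm]
  refine Finset.sum_congr rfl fun t _ => ?_
  rw [← Finset.sum_filter]

/-- the even classes -/
theorem lc1_pe (τ N n o : ℕ) (hN : 0 < N) (hτ : 0 < τ) (h2 : τ % 2 = 0) :
    ∑ t ∈ Icc 1 τ, pcl N n o τ (2 * t) = ((n : ℝ) - o) / N := by
  have h1 : ∀ m : ℕ, 2 * m ≤ τ → ∑ t ∈ Icc 1 (2 * m), pcl N n o τ (2 * t) =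
      m * ((2 * (n : ℝ) - 2 * o) / (τ * N)) := by
    intro m
    induction m with
    | zero => simp
    | succ m ih =>
      intro hm
      rw [show 2 * (m + 1) = 2 * m + 1 + 1 by ring, Finset.sum_Icc_succ_top (by omega),
        Finset.sum_Icc_succ_top (by omega), ih (by omega)]
      have e1 : pcl N n o τ (2 * (2 * m + 1)) = ((n : ℝ) - 2 * o) / (τ * N) := by
        unfold pcl
        rw [if_neg (by omega), if_neg (by omega), if_pos (by omega)]
      have e2 : pcl N n o τ (2 * (2 * m + 1 + 1)) = (n : ℝ) / (τ * N) := by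
        unfold pcl
        rw [if_neg (by omega), if_neg (by omega), if_neg (by omega)]
      rw [e1, e2]
      push_cast
      ring
  obtain ⟨m, hm⟩ : ∃ m, τ = 2 * m := ⟨τ / 2, by omega⟩
  have h3 := h1 m (by omega)
  rw [← hm] at h3
  rw [h3]
  have hm0 : (0 : ℝ) < m := by
    have : 0 < m := by omega
    exact_mod_cast this
  have hN0 : (0 : ℝ) < N := by exact_mod_cast hN
  have hτm : (τ : ℝ) = 2 * m := by exact_mod_cast hm
  rw [hτm]
  field_simp

theorem lc1_card {V C : Type} [Fintype V] [DecidableEq V] [Fintype C]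
    [DecidableEq C] {σ : C → Equiv.Perm V} (h : HD σ) : Fintype.card C ≤ Fintype.card V := by
  have hV : 0 < Fintype.card V := lt_of_lt_of_le (by norm_num) h.three
  obtain ⟨x⟩ := Fintype.card_pos_iff.1 hV
  refine Fintype.card_le_of_injective (fun i => σ i x) fun i j hij => ?_
  by_contra hne
  exact (h.disj i j x hne).1 hij

theorem ld_C1 (τ : ℕ) : ∃ K : ℝ, ∀ (V C : Type) [Fintype V] [DecidableEq V] [Fintype C]
    [DecidableEq C] (σ : C → Equiv.Perm V) (O : Finset C) (φ : V → ℕ) (ε : ℝ),
    LHyp σ O τ φ ε → ∀ i : C,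
      (i ∉ O → |ld σ O τ φ (Sum.inr (1, i)) - 1| ≤ K * ε) ∧
      (i ∈ O → ld σ O τ φ (Sum.inr (1, i)) = 0) := by
  classical
  refine ⟨24010 * (τ : ℝ) ^ 3, ?_⟩
  intro V C _ _ _ _ σ O φ ε H i
  constructor
  · intro hi
    set N : ℝ := (Fintype.card V : ℝ) with hN
    set n : ℝ := (Fintype.card C : ℝ) with hn
    set o : ℝ := (O.card : ℝ) with ho
    have hN3 : (3 : ℝ) ≤ N := by rw [hN]; exact_mod_cast H.hd.three
    have hN0 : 0 < N := by linarith
    have h7 : N ≤ 7 * n := by rw [hN, hn]; exact_mod_cast H.h7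
    have hn0 : 0 < n := by linarith
    have hnN : n ≤ N := by rw [hN, hn]; exact_mod_cast lc1_card H.hd
    have ho2 : 2 * o ≤ n := by rw [ho, hn]; exact_mod_cast H.ho
    have ho0 : 0 ≤ o := by rw [ho]; positivity
    have hτ1 : (1 : ℝ) ≤ τ := by
      have := H.tau
      exact_mod_cast (by omega : 1 ≤ τ)
    have hτ0 : (0 : ℝ) < τ := by linarith
    have hε : 0 ≤ ε := le_trans (by positivity) H.e0
    have hεN : 1 ≤ ε * N := by
      have := H.e0
      rwa [div_le_iff₀ hN0] at this
    set W : ℝ := (τ * N) ^ 2 / (4 * (n - o) ^ 2 * n ^ 2) with hW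
    have he0 : 0 < n - o := by linarith
    have hW0 : 0 < W := by positivity
    rw [lc1_ld]
    -- the weights
    have h1 : ∀ s : Bool, ∑ v : V, ∑ p : C × Bool, w1 σ O τ φ (Sum.inl (v, p, (i, s))) =
        (∑ v : V, ((univ.filter (fun p : C × Bool => okP σ O τ φ v p (i, s))).card : ℝ)) * W := by
      intro s
      rw [Finset.sum_mul]
      refine Finset.sum_congr rfl fun v _ => ?_
      rw [Finset.card_filter]
      push_cast
      rw [Finset.sum_mul]
      refine Finset.sum_congr rfl fun p _ => ?_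
      simp only [w1]
      split_ifs <;> simp [hN, hn, ho, hW]
    -- the inner count
    set B : ℝ := 2 * (n - o) * (n / (τ * N)) with hB
    have hin : ∀ v : V, ∀ t ∈ Icc 1 τ, |((univ.filter (fun p : C × Bool => p.1 ∉ O ∧ p.1 ≠ i ∧
          φ (nb σ p v) = 2 * t - 1)).card : ℝ) - B| ≤ 3 * (ε * N) := by
      intro v t ht
      rw [Finset.mem_Icc] at ht
      have h2 := H.phi.f1 v (2 * t - 1) (by omega)
      have e1 : pcl (Fintype.card V) (Fintype.card C) O.card τ (2 * t - 1) = n / (τ * N) := by
        unfold pcl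
        rw [if_neg (by omega), if_neg (by omega), if_neg (by omega)]
      rw [e1] at h2
      have h3 : ((univ.filter (fun p : C × Bool => p.1 ∉ O ∧ φ (nb σ p v) = 2 * t - 1)).card : ℝ) ≤
          ((univ.filter (fun p : C × Bool => p.1 ∉ O ∧ p.1 ≠ i ∧
            φ (nb σ p v) = 2 * t - 1)).card : ℝ) + 2 := by
        have h4 : (univ.filter (fun p : C × Bool => p.1 ∉ O ∧ φ (nb σ p v) = 2 * t - 1)) ⊆
            (univ.filter (fun p : C × Bool => p.1 ∉ O ∧ p.1 ≠ i ∧
            φ (nb σ p v) = 2 * t - 1)) ∪ {(i, true), (i, false)} := by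
          intro p hp
          simp only [Finset.mem_filter, Finset.mem_univ, true_and, Finset.mem_union,
            Finset.mem_insert, Finset.mem_singleton] at hp ⊢
          by_cases hpi : p.1 = i
          · right
            obtain ⟨a, b⟩ := p
            simp only at hpi
            subst hpi
            cases b <;> simp
          · exact Or.inl ⟨hp.1, hpi, hp.2⟩
        have h5 := (Finset.card_le_card h4).trans (Finset.card_union_le _ _)
        have h6 : ({(i, true), (i, false)} : Finset (C × Bool)).card ≤ 2 := Finset.card_le_two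
        exact_mod_cast h5.trans (Nat.add_le_add_left h6 _)
      have h4 : ((univ.filter (fun p : C × Bool => p.1 ∉ O ∧ p.1 ≠ i ∧
            φ (nb σ p v) = 2 * t - 1)).card : ℝ) ≤
          ((univ.filter (fun p : C × Bool => p.1 ∉ O ∧ φ (nb σ p v) = 2 * t - 1)).card : ℝ) := by
        have : (univ.filter (fun p : C × Bool => p.1 ∉ O ∧ p.1 ≠ i ∧
            φ (nb σ p v) = 2 * t - 1)).card ≤
            (univ.filter (fun p : C × Bool => p.1 ∉ O ∧ φ (nb σ p v) = 2 * t - 1)).card := by
          apply Finset.card_le_card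
          intro p hp
          simp only [Finset.mem_filter, Finset.mem_univ, true_and] at hp ⊢
          exact ⟨hp.1, hp.2.2⟩
        exact_mod_cast this
      rw [abs_le] at h2 ⊢
      constructor
      · have := h2.1
        linarith
      · have := h2.2
        linarith
    -- the outer counts
    have hout : ∀ s : Bool, ∀ t ∈ Icc 1 τ,
        |((univ.filter (fun v => φ v = 2 * t ∧ φ (nb σ (i, s) v) = 2 * t + 1)).card : ℝ) -
          N * pcl (Fintype.card V) (Fintype.card C) O.card τ (2 * t) * (n / (τ * N))| ≤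
            ε * N := by
      intro s t ht
      rw [Finset.mem_Icc] at ht
      have e1 : pcl (Fintype.card V) (Fintype.card C) O.card τ (2 * t + 1) = n / (τ * N) := by
        unfold pcl
        rw [if_neg (by omega), if_neg (by omega), if_neg (by omega)]
      cases s with
      | true =>
        have h2 := H.phi.f2 i (2 * t) (2 * t + 1) (by omega) (by omega)
        rw [e1] at h2
        exact h2
      | false =>
        have h2 := H.phi.f2 i (2 * t + 1) (2 * t) (by omega) (by omega)
        rw [e1] at h2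
        have h3 : (univ.filter (fun v => φ v = 2 * t ∧ φ (nb σ (i, false) v) = 2 * t + 1)).card =
            (univ.filter (fun x => φ x = 2 * t + 1 ∧ φ (σ i x) = 2 * t)).card := by
          symm
          refine Finset.card_bij (fun x _ => σ i x) ?_ ?_ ?_
          · intro x hx
            simp only [Finset.mem_filter, Finset.mem_univ, true_and] at hx ⊢
            refine ⟨hx.2, ?_⟩
            simp [nb, hx.1]
          · intro x _ y _ hxy
            exact (σ i).injective hxy
          · intro y hy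
            simp only [Finset.mem_filter, Finset.mem_univ, true_and] at hy
            refine ⟨(σ i)⁻¹ y, ?_, by simp⟩
            simp only [Finset.mem_filter, Finset.mem_univ, true_and]
            refine ⟨?_, ?_⟩
            · have := hy.2
              simpa [nb] using this
            · simpa using hy.1
        rw [h3]
        have e2 : N * pcl (Fintype.card V) (Fintype.card C) O.card τ (2 * t) * (n / (τ * N)) =
            N * (n / (τ * N)) * pcl (Fintype.card V) (Fintype.card C) O.card τ (2 * t) := by ring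
        rw [e2]
        exact h2
    have hB0 : 0 ≤ B := by positivity
    have hBN : B ≤ 2 * N := by
      have e1 : n / (τ * N) ≤ 1 := by
        rw [div_le_one (by positivity)]
        nlinarith
      have e2 : 0 ≤ n / (τ * N) := by positivity
      have : B ≤ 2 * (n - o) * 1 := by
        rw [hB]
        gcongr
      linarith
    -- one term
    have hterm : ∀ s : Bool, ∀ t ∈ Icc 1 τ,
        |∑ v ∈ univ.filter (fun v => φ v = 2 * t ∧ φ (nb σ (i, s) v) = 2 * t + 1),
          ((univ.filter (fun p : C × Bool => p.1 ∉ O ∧ p.1 ≠ i ∧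
            φ (nb σ p v) = 2 * t - 1)).card : ℝ) -
          N * pcl (Fintype.card V) (Fintype.card C) O.card τ (2 * t) * (n / (τ * N)) * B| ≤
          5 * ε * N ^ 2 := by
      intro s t ht
      set A := univ.filter (fun v => φ v = 2 * t ∧ φ (nb σ (i, s) v) = 2 * t + 1) with hA
      set a := N * pcl (Fintype.card V) (Fintype.card C) O.card τ (2 * t) * (n / (τ * N)) with ha
      have h2 : |∑ v ∈ A, ((univ.filter (fun p : C × Bool => p.1 ∉ O ∧ p.1 ≠ i ∧
            φ (nb σ p v) = 2 * t - 1)).card : ℝ) - A.card * B| ≤ A.card * (3 * (ε * N)) := by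
        have e3 : ∑ v ∈ A, ((univ.filter (fun p : C × Bool => p.1 ∉ O ∧ p.1 ≠ i ∧
            φ (nb σ p v) = 2 * t - 1)).card : ℝ) - A.card * B =
            ∑ v ∈ A, (((univ.filter (fun p : C × Bool => p.1 ∉ O ∧ p.1 ≠ i ∧
            φ (nb σ p v) = 2 * t - 1)).card : ℝ) - B) := by
          rw [Finset.sum_sub_distrib, Finset.sum_const, nsmul_eq_mul]
        rw [e3]
        refine (Finset.abs_sum_le_sum_abs _ _).trans ?_
        refine (Finset.sum_le_sum fun v _ => hin v t ht).trans ?_
        rw [Finset.sum_const, nsmul_eq_mul]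
      have h3 : |(A.card : ℝ) * B - a * B| ≤ ε * N * (2 * N) := by
        rw [← sub_mul, abs_mul, abs_of_nonneg hB0]
        exact mul_le_mul (hout s t ht) hBN hB0 (by positivity)
      have h4 : (A.card : ℝ) ≤ N := by
        rw [hN]
        exact_mod_cast (Finset.card_le_univ A)
      have h5 : (A.card : ℝ) * (3 * (ε * N)) ≤ N * (3 * (ε * N)) := by gcongr
      have h6 := abs_sub_le (∑ v ∈ A, ((univ.filter (fun p : C × Bool => p.1 ∉ O ∧ p.1 ≠ i ∧
            φ (nb σ p v) = 2 * t - 1)).card : ℝ)) (A.card * B) (a * B)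
      have h7 : ε * N * (2 * N) + N * (3 * (ε * N)) = 5 * ε * N ^ 2 := by ring
      linarith
    -- the sum over t
    have hsum : ∀ s : Bool,
        |(∑ v : V, ((univ.filter (fun p : C × Bool => okP σ O τ φ v p (i, s))).card : ℝ)) -
          (n - o) * (n / (τ * N)) * B| ≤ τ * (5 * ε * N ^ 2) := by
      intro s
      rw [lc1_count σ O τ φ i s hi]
      have h2 : (n - o) * (n / (τ * N)) * B = ∑ t ∈ Icc 1 τ,
          N * pcl (Fintype.card V) (Fintype.card C) O.card τ (2 * t) * (n / (τ * N)) * B := by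
        rw [← Finset.sum_mul, ← Finset.sum_mul, ← Finset.mul_sum,
          lc1_pe τ (Fintype.card V) (Fintype.card C) O.card (by
            have := H.hd.three
            omega) (by have := H.tau; omega) H.even]
        have e4 : N * ((n - o) / N) = n - o := by field_simp
        rw [e4]
      rw [h2, ← Finset.sum_sub_distrib]
      refine (Finset.abs_sum_le_sum_abs _ _).trans ?_
      refine (Finset.sum_le_sum (hterm s)).trans ?_
      rw [Finset.sum_const, nsmul_eq_mul, Nat.card_Icc]
      simp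
    rw [Finset.sum_congr rfl fun s _ => h1 s, ← Finset.sum_mul]
    set T : ℝ := ∑ s : Bool,
      ∑ v : V, ((univ.filter (fun p : C × Bool => okP σ O τ φ v p (i, s))).card : ℝ) with hT
    have h8 : |T - 2 * ((n - o) * (n / (τ * N)) * B)| ≤ 2 * (τ * (5 * ε * N ^ 2)) := by
      rw [hT, Fintype.sum_bool]
      have e1 := hsum true
      have e2 := hsum false
      rw [abs_le] at e1 e2 ⊢
      constructor <;> linarith [e1.1, e1.2, e2.1, e2.2]
    have h9 : 2 * ((n - o) * (n / (τ * N)) * B) * W = 1 := by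
      rw [hB, hW]
      field_simp
      ring
    have h10 : T * W - 1 = (T - 2 * ((n - o) * (n / (τ * N)) * B)) * W := by
      rw [sub_mul, h9]
    rw [h10, abs_mul, abs_of_pos hW0]
    have hWle : W ≤ 2401 * (τ : ℝ) ^ 2 / N ^ 2 := by
      rw [hW, div_le_div_iff₀ (by positivity) (by positivity)]
      have e1 : N ^ 2 ≤ 49 * n ^ 2 := by nlinarith
      have e2 : n ^ 2 ≤ 4 * (n - o) ^ 2 := by nlinarith
      have e3 : N ^ 2 * N ^ 2 ≤ (49 * n ^ 2) * (49 * n ^ 2) := by gcongr
      have e4 : n ^ 2 * n ^ 2 ≤ 4 * (n - o) ^ 2 * n ^ 2 := by gcongr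
      calc (τ * N) ^ 2 * N ^ 2 = (τ : ℝ) ^ 2 * (N ^ 2 * N ^ 2) := by ring
        _ ≤ (τ : ℝ) ^ 2 * ((49 * n ^ 2) * (49 * n ^ 2)) := by gcongr
        _ = 2401 * (τ : ℝ) ^ 2 * (n ^ 2 * n ^ 2) := by ring
        _ ≤ 2401 * (τ : ℝ) ^ 2 * (4 * (n - o) ^ 2 * n ^ 2) := by gcongr
    calc |T - 2 * ((n - o) * (n / (τ * N)) * B)| * W
        ≤ (2 * (τ * (5 * ε * N ^ 2))) * (2401 * (τ : ℝ) ^ 2 / N ^ 2) := by gcongr
      _ = 24010 * (τ : ℝ) ^ 3 * ε := by
          field_simp
          ring
  · intro hi
    rw [lc1_ld]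
    refine Finset.sum_eq_zero fun s _ => Finset.sum_eq_zero fun v _ =>
      Finset.sum_eq_zero fun p _ => ?_
    simp only [w1]
    rw [if_neg]
    exact fun h => h.2.1 hi

end Pool.Agent.KZ
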