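import Pool.Agent.Lib_helper15.KZF.DefsA
import Pool.Agent.Lib_helper15.KZF.DefsN

/-! # Block LC2 -/

set_option autoImplicit false

namespace Pool.Agent.KZ

open Finset

theorem lc2_ld {V C : Type} [Fintype V] [DecidableEq V] [Fintype C]
    [DecidableEq C] (σ : C → Equiv.Perm V) (O : Finset C) (τ : ℕ) (φ : V → ℕ) (i : C) :
    ld σ O τ φ (Sum.inr (2, i)) = ∑ b : V, w1 σ O τ φ (Sum.inr (b, i)) := by
  unfold ld
  rw [Finset.sum_filter, Fintype.sum_sum_type]
  have h1 : ∑ x : V × (C × Bool) × (C × Bool), (if (Sum.inr (2, i) : Rs V C) ∈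
      inc1 σ (Sum.inl x) then w1 σ O τ φ (Sum.inl x) else 0) = 0 := by
    refine Finset.sum_eq_zero fun x _ => ?_
    rw [if_neg]
    obtain ⟨v, p, p'⟩ := x
    simp [inc1]
  rw [h1, zero_add, Fintype.sum_prod_type]
  refine Finset.sum_congr rfl fun b _ => ?_
  rw [Finset.sum_eq_single i]
  · rw [if_pos]
    simp [inc1]
  · intro j _ hj
    rw [if_neg]
    simp only [inc1, Finset.mem_insert, Finset.mem_singleton, reduceCtorEq, Sum.inr.injEq,
      Prod.mk.injEq, true_and, false_or]
    exact fun h => hj h.symm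
  · simp

open Classical in
/-- the pairs with `t` odd -/
theorem lc2_count {V C : Type} [Fintype V] [DecidableEq V] [Fintype C]
    [DecidableEq C] (σ : C → Equiv.Perm V) (O : Finset C) (τ : ℕ) (φ : V → ℕ) (i : C)
    (hi : i ∈ O) :
    (univ.filter (fun b => okO σ O τ φ b i)).card =
      ∑ t ∈ (range (τ + 1)).filter (fun t => t % 2 = 1),
        (univ.filter (fun b => φ b = 2 * t - 1 ∧ φ (σ i b) = 2 * t + 1)).card := by
  rw [← Finset.card_biUnion]
  · congr 1
    ext b
    simp only [Finset.mem_filter, Finset.mem_univ, true_and, Finset.mem_biUnion, Finset.mem_range,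
      okO]
    constructor
    · rintro ⟨_, t, h1, h2, h3, h4⟩
      exact ⟨t, ⟨by omega, h1⟩, h3, h4⟩
    · rintro ⟨t, ⟨h1, h2⟩, h3, h4⟩
      exact ⟨hi, t, h2, by omega, h3, h4⟩
  · intro t ht t' ht' htt
    rw [Function.onFun, Finset.disjoint_left]
    intro b hb hb'
    simp only [Finset.mem_filter, Finset.mem_univ, true_and] at hb hb'
    omega

theorem lc2_half (τ : ℕ) (h : τ % 2 = 0) :
    ((range (τ + 1)).filter (fun t => t % 2 = 1)).card = τ / 2 := by
  have : (range (τ + 1)).filter (fun t => t % 2 = 1) = (range (τ / 2)).image (fun k => 2 * k + 1) := by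
    ext t
    simp only [Finset.mem_filter, Finset.mem_range, Finset.mem_image]
    constructor
    · rintro ⟨h1, h2⟩
      exact ⟨t / 2, by omega, by omega⟩
    · rintro ⟨k, h1, rfl⟩
      omega
  rw [this, Finset.card_image_of_injective _ (fun a b h => by simpa using h), Finset.card_range]

theorem ld_C2 (τ : ℕ) : ∃ K : ℝ, ∀ (V C : Type) [Fintype V] [DecidableEq V] [Fintype C]
    [DecidableEq C] (σ : C → Equiv.Perm V) (O : Finset C) (φ : V → ℕ) (ε : ℝ),
    LHyp σ O τ φ ε → ∀ i : C,
      (i ∈ O → |ld σ O τ φ (Sum.inr (2, i)) - 1| ≤ K * ε) ∧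
      (i ∉ O → ld σ O τ φ (Sum.inr (2, i)) = 0) := by
  classical
  refine ⟨98 * (τ : ℝ) ^ 2, ?_⟩
  intro V C _ _ _ _ σ O φ ε H i
  constructor
  · intro hi
    set N : ℝ := (Fintype.card V : ℝ) with hN
    set n : ℝ := (Fintype.card C : ℝ) with hn
    have hN3 : (3 : ℝ) ≤ N := by rw [hN]; exact_mod_cast H.hd.three
    have hN0 : 0 < N := by linarith
    have h7 : N ≤ 7 * n := by rw [hN, hn]; exact_mod_cast H.h7
    have hn0 : 0 < n := by linarith
    have hτ0 : (0 : ℝ) < τ := by
      have := H.tau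
      exact_mod_cast (by omega : 0 < τ)
    have hε : 0 ≤ ε := le_trans (by positivity) H.e0
    rw [lc2_ld]
    have h1 : ∑ b : V, w1 σ O τ φ (Sum.inr (b, i)) =
        ((univ.filter (fun b => okO σ O τ φ b i)).card : ℝ) * (2 * τ * N / n ^ 2) := by
      rw [Finset.card_filter]
      push_cast
      rw [Finset.sum_mul]
      refine Finset.sum_congr rfl fun b _ => ?_
      simp only [w1]
      split_ifs <;> simp [hN, hn]
    rw [h1, lc2_count σ O τ φ i hi]
    push_cast
    have hp : ∀ t ∈ (range (τ + 1)).filter (fun t => t % 2 = 1),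
        |((univ.filter (fun b => φ b = 2 * t - 1 ∧ φ (σ i b) = 2 * t + 1)).card : ℝ) -
          N * (n / (τ * N)) * (n / (τ * N))| ≤ ε * N := by
      intro t ht
      simp only [Finset.mem_filter, Finset.mem_range] at ht
      have h2 := H.phi.f2 i (2 * t - 1) (2 * t + 1) (by omega) (by omega)
      have e1 : pcl (Fintype.card V) (Fintype.card C) O.card τ (2 * t - 1) = n / (τ * N) := by
        unfold pcl
        rw [if_neg (by omega), if_neg (by omega), if_neg (by omega)]
      have e2 : pcl (Fintype.card V) (Fintype.card C) O.card τ (2 * t + 1) = n / (τ * N) := by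
        unfold pcl
        rw [if_neg (by omega), if_neg (by omega), if_neg (by omega)]
      rw [e1, e2] at h2
      exact h2
    set S : ℝ := ∑ t ∈ (range (τ + 1)).filter (fun t => t % 2 = 1),
      ((univ.filter (fun b => φ b = 2 * t - 1 ∧ φ (σ i b) = 2 * t + 1)).card : ℝ) with hS
    have hcard : (((range (τ + 1)).filter (fun t => t % 2 = 1)).card : ℝ) = τ / 2 := by
      rw [lc2_half τ H.even]
      rw [Nat.cast_div (Nat.dvd_of_mod_eq_zero H.even) (by norm_num)]
      norm_num
    have h3 : |S - τ / 2 * (N * (n / (τ * N)) * (n / (τ * N)))| ≤ τ / 2 * (ε * N) := by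
      have e3 : S - τ / 2 * (N * (n / (τ * N)) * (n / (τ * N))) =
          ∑ t ∈ (range (τ + 1)).filter (fun t => t % 2 = 1),
            (((univ.filter (fun b => φ b = 2 * t - 1 ∧ φ (σ i b) = 2 * t + 1)).card : ℝ) -
              N * (n / (τ * N)) * (n / (τ * N))) := by
        rw [Finset.sum_sub_distrib, Finset.sum_const, nsmul_eq_mul, hcard]
      rw [e3]
      refine (Finset.abs_sum_le_sum_abs _ _).trans ?_
      refine (Finset.sum_le_sum hp).trans ?_
      rw [Finset.sum_const, nsmul_eq_mul, hcard]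
    have e4 : S * (2 * τ * N / n ^ 2) - 1 =
        (S - τ / 2 * (N * (n / (τ * N)) * (n / (τ * N)))) * (2 * τ * N / n ^ 2) := by
      field_simp
    rw [e4, abs_mul, abs_of_nonneg (by positivity : 0 ≤ 2 * τ * N / n ^ 2)]
    have h5 : N ^ 2 ≤ 49 * n ^ 2 := by nlinarith
    calc |S - τ / 2 * (N * (n / (τ * N)) * (n / (τ * N)))| * (2 * τ * N / n ^ 2)
        ≤ (τ / 2 * (ε * N)) * (2 * τ * N / n ^ 2) := by gcongr
      _ = (τ : ℝ) ^ 2 * ε * (N ^ 2 / n ^ 2) := by field_simp
      _ ≤ (τ : ℝ) ^ 2 * ε * 49 := by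
          gcongr
          rw [div_le_iff₀ (by positivity)]
          exact h5
      _ ≤ 98 * (τ : ℝ) ^ 2 * ε := by
          have : 0 ≤ (τ : ℝ) ^ 2 * ε := by positivity
          nlinarith
  · intro hi
    rw [lc2_ld]
    refine Finset.sum_eq_zero fun b _ => ?_
    simp only [w1]
    rw [if_neg]
    exact fun h => hi h.1

end Pool.Agent.KZ
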