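import Pool.Agent.Lib_helper15.KZF.CYC
import Pool.Agent.Lib_helper15.KZF.DefsA
import Pool.Agent.Lib_helper15.KZF.DefsN

/-!
# Load estimates of the first nibble: blocks LR, LZ0, LZ2, LC0
-/

set_option autoImplicit false

namespace Pool.Agent.KZ

open Finset

variable {V C : Type} [Fintype V] [DecidableEq V] [Fintype C] [DecidableEq C]

/-- weight of a P-cell -/
noncomputable def LD_Wp (N n o τ : ℝ) : ℝ := (τ * N) ^ 2 / (4 * (n - o) ^ 2 * n ^ 2)

/-- weight of an O-cell -/
noncomputable def LD_Wo (N n τ : ℝ) : ℝ := 2 * τ * N / n ^ 2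

open Classical in
theorem LD_split (σ : C → Equiv.Perm V) (O : Finset C) (τ : ℕ) (φ : V → ℕ) (r : Rs V C) :
    ld σ O τ φ r = LD_Wp (Fintype.card V) (Fintype.card C) O.card τ *
      ((univ.filter (fun c : V × (C × Bool) × (C × Bool) => r ∈ inc1 σ (Sum.inl c) ∧
        okP σ O τ φ c.1 c.2.1 c.2.2)).card : ℝ) +
      LD_Wo (Fintype.card V) (Fintype.card C) τ *
      ((univ.filter (fun c : V × C => r ∈ inc1 σ (Sum.inr c) ∧
        okO σ O τ φ c.1 c.2)).card : ℝ) := by
  unfold ld
  rw [Finset.sum_filter, Fintype.sum_sum_type, Finset.card_filter, Finset.card_filter]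
  push_cast
  rw [Finset.mul_sum, Finset.mul_sum]
  congr 1
  · apply Finset.sum_congr rfl
    rintro ⟨v, p, p'⟩ _
    by_cases h1 : r ∈ inc1 σ (Sum.inl (v, p, p'))
    · by_cases h2 : okP σ O τ φ v p p'
      · simp [h1, h2, w1, LD_Wp]
      · simp [h1, h2, w1]
    · simp [h1]
  · apply Finset.sum_congr rfl
    rintro ⟨b, i⟩ _
    by_cases h1 : r ∈ inc1 σ (Sum.inr (b, i))
    · by_cases h2 : okO σ O τ φ b i
      · simp [h1, h2, w1, LD_Wo]
      · simp [h1, h2, w1]
    · simp [h1]

/-- numerical consequences of the hypotheses -/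
structure LD_Num (N n o τ ε : ℝ) : Prop where
  N3 : 3 ≤ N
  h7 : N ≤ 7 * n
  h2 : 2 * n ≤ N
  ho : 2 * o ≤ n
  o0 : 0 ≤ o
  eN : 1 ≤ ε * N
  e0 : 0 ≤ ε
  tau : 2 ≤ τ

theorem LD_num {σ : C → Equiv.Perm V} {O : Finset C} {τ : ℕ} {φ : V → ℕ} {ε : ℝ}
    (h : LHyp σ O τ φ ε) : LD_Num (Fintype.card V) (Fintype.card C) O.card τ ε := by
  have h3 : (3 : ℝ) ≤ Fintype.card V := by exact_mod_cast h.hd.three
  have hpos : (0 : ℝ) < Fintype.card V := by linarith
  have he : 1 ≤ ε * Fintype.card V := by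
    have := h.e0
    rwa [div_le_iff₀ hpos] at this
  refine ⟨h3, by exact_mod_cast h.h7, ?_, by exact_mod_cast h.ho, by positivity, he, ?_,
    by exact_mod_cast h.tau⟩
  · have hne : 0 < Fintype.card V := by have := h.hd.three; omega
    obtain ⟨x⟩ := Fintype.card_pos_iff.1 hne
    have h1 := Fintype.card_le_of_injective _ (nb_inj h.hd x)
    rw [Fintype.card_prod, Fintype.card_bool] at h1
    have h2 : Fintype.card C * 2 ≤ Fintype.card V := h1
    have h3 : ((Fintype.card C * 2 : ℕ) : ℝ) ≤ Fintype.card V := by exact_mod_cast h2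
    push_cast at h3
    linarith
  · by_contra hneg
    have : ε * Fintype.card V < 0 := mul_neg_of_neg_of_pos (by linarith) hpos
    linarith

theorem LD_Wp_nonneg {N n o τ : ℝ} : 0 ≤ LD_Wp N n o τ := by unfold LD_Wp; positivity

theorem LD_Wo_nonneg {N n τ : ℝ} (hN : 0 ≤ N) (hτ : 0 ≤ τ) : 0 ≤ LD_Wo N n τ := by
  unfold LD_Wo; positivity

theorem LD_Wp_le {N n o τ ε : ℝ} (h : LD_Num N n o τ ε) : LD_Wp N n o τ * N ^ 2 ≤ 2401 * τ ^ 2 := by
  obtain ⟨N3, h7, h2, ho, o0, eN, e0, tau⟩ := h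
  have hn : 0 < n := by linarith
  have he : 0 < n - o := by linarith
  unfold LD_Wp
  rw [div_mul_eq_mul_div, div_le_iff₀ (by positivity)]
  have h1 : N ^ 2 ≤ 49 * n ^ 2 := by nlinarith
  have h3 : n ^ 2 ≤ 4 * (n - o) ^ 2 := by nlinarith
  have h4 : N ^ 2 * N ^ 2 ≤ (49 * n ^ 2) * (49 * n ^ 2) :=
    mul_le_mul h1 h1 (by positivity) (by positivity)
  have h5 : n ^ 2 * n ^ 2 ≤ 4 * (n - o) ^ 2 * n ^ 2 := mul_le_mul_of_nonneg_right h3 (by positivity)
  have h6 : N ^ 2 * N ^ 2 ≤ 2401 * (4 * (n - o) ^ 2 * n ^ 2) := by nlinarith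
  have h7 : τ ^ 2 * (N ^ 2 * N ^ 2) ≤ τ ^ 2 * (2401 * (4 * (n - o) ^ 2 * n ^ 2)) :=
    mul_le_mul_of_nonneg_left h6 (by positivity)
  nlinarith [h7]

theorem LD_Wo_le {N n o τ ε : ℝ} (h : LD_Num N n o τ ε) : LD_Wo N n τ * N ≤ 98 * τ := by
  obtain ⟨N3, h7, h2, ho, o0, eN, e0, tau⟩ := h
  have hn : 0 < n := by linarith
  unfold LD_Wo
  rw [div_mul_eq_mul_div, div_le_iff₀ (by positivity)]
  have h1 : N ^ 2 ≤ 49 * n ^ 2 := by nlinarith
  have h3 : τ * N ^ 2 ≤ τ * (49 * n ^ 2) := mul_le_mul_of_nonneg_left h1 (by linarith)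
  nlinarith [h3]

theorem LD_pcl_odd {N n o τ k : ℕ} (hk : k % 2 = 1) (hk2 : k ≤ 2 * τ + 1) :
    pcl N n o τ k = n / (τ * N) := by
  unfold pcl
  rw [if_neg (by omega), if_neg (by omega), if_neg (by omega)]

theorem LD_pcl_even0 {N n o τ t : ℕ} (h1 : 1 ≤ t) (h2 : t ≤ τ) (h3 : t % 2 = 0) :
    pcl N n o τ (2 * t) = n / (τ * N) := by
  unfold pcl
  rw [if_neg (by omega), if_neg (by omega), if_neg (by omega)]

theorem LD_pcl_even1 {N n o τ t : ℕ} (h2 : t ≤ τ) (h3 : t % 2 = 1) :
    pcl N n o τ (2 * t) = (n - 2 * o) / (τ * N) := by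
  unfold pcl
  rw [if_neg (by omega), if_neg (by omega), if_pos (by omega)]

/-- the inner count -/
def LD_B (σ : C → Equiv.Perm V) (O : Finset C) (φ : V → ℕ) (x : V) (j : C) (k : ℕ) :
    Finset (C × Bool) :=
  univ.filter (fun p => p.1 ∉ O ∧ j ≠ p.1 ∧ φ (nb σ p x) = k)

theorem LD_B_est {σ : C → Equiv.Perm V} {O : Finset C} {τ : ℕ} {φ : V → ℕ} {ε : ℝ}
    (h : LHyp σ O τ φ ε) (x : V) (j : C) {k : ℕ} (hk : k % 2 = 1) (hk2 : k ≤ 2 * τ + 1) :
    |((LD_B σ O φ x j k).card : ℝ) - 2 * (Fintype.card C - O.card) *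
      (Fintype.card C / (τ * Fintype.card V))| ≤ 3 * (ε * Fintype.card V) := by
  have hn := LD_num h
  have h1 := h.phi.f1 x k hk2
  rw [LD_pcl_odd hk hk2] at h1
  set F := (univ : Finset (C × Bool)).filter (fun p => p.1 ∉ O ∧ φ (nb σ p x) = k) with hF
  have hsub : LD_B σ O φ x j k ⊆ F := by
    intro p hp
    simp only [LD_B, mem_filter, mem_univ, true_and] at hp
    simp only [hF, mem_filter, mem_univ, true_and]
    exact ⟨hp.1, hp.2.2⟩
  have hle : (LD_B σ O φ x j k).card ≤ F.card := Finset.card_le_card hsub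
  have hge : F.card ≤ (LD_B σ O φ x j k).card + 2 := by
    have h2 : F ⊆ LD_B σ O φ x j k ∪ {(j, true), (j, false)} := by
      intro p hp
      simp only [hF, mem_filter, mem_univ, true_and] at hp
      simp only [LD_B, mem_union, mem_filter, mem_univ, true_and, mem_insert, mem_singleton]
      by_cases hj : j = p.1
      · right
        obtain ⟨p1, p2⟩ := p
        simp only at hj
        subst hj
        cases p2
        · right; rfl
        · left; rfl
      · left
        exact ⟨hp.1, hj, hp.2⟩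
    calc F.card ≤ (LD_B σ O φ x j k ∪ {(j, true), (j, false)}).card := Finset.card_le_card h2
      _ ≤ (LD_B σ O φ x j k).card + ({(j, true), (j, false)} : Finset (C × Bool)).card :=
        Finset.card_union_le _ _
      _ ≤ _ := by
        have := Finset.card_le_two (a := ((j, true) : C × Bool)) (b := (j, false))
        omega
  have hle' : ((LD_B σ O φ x j k).card : ℝ) ≤ F.card := by exact_mod_cast hle
  have hge' : (F.card : ℝ) ≤ (LD_B σ O φ x j k).card + 2 := by exact_mod_cast hge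
  have heN := hn.eN
  rw [abs_le] at h1 ⊢
  constructor <;> linarith [h1.1, h1.2]

/-- the product estimate -/
theorem LD_prod {α : Type*} (A : Finset α) (B : α → ℕ) {a b N ε : ℝ}
    (hA : |(A.card : ℝ) - a| ≤ ε * N) (hB : ∀ x ∈ A, |(B x : ℝ) - b| ≤ 3 * (ε * N))
    (hAN : (A.card : ℝ) ≤ N) (hb0 : 0 ≤ b) (hbN : b ≤ N) (he : 0 ≤ ε * N) :
    |((∑ x ∈ A, B x : ℕ) : ℝ) - a * b| ≤ 4 * (ε * N) * N := by
  have h1 : |((∑ x ∈ A, B x : ℕ) : ℝ) - A.card * b| ≤ A.card * (3 * (ε * N)) := by
    have h2 : ((∑ x ∈ A, B x : ℕ) : ℝ) - A.card * b = ∑ x ∈ A, ((B x : ℝ) - b) := by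
      rw [Finset.sum_sub_distrib]
      simp
    rw [h2]
    calc |∑ x ∈ A, ((B x : ℝ) - b)| ≤ ∑ x ∈ A, |(B x : ℝ) - b| := Finset.abs_sum_le_sum_abs _ _
      _ ≤ ∑ x ∈ A, 3 * (ε * N) := Finset.sum_le_sum hB
      _ = _ := by simp
  have h3 : |(A.card : ℝ) * b - a * b| ≤ (ε * N) * b := by
    rw [← sub_mul, abs_mul, abs_of_nonneg hb0]
    exact mul_le_mul_of_nonneg_right hA hb0
  have h4 : (A.card : ℝ) * (3 * (ε * N)) ≤ N * (3 * (ε * N)) :=
    mul_le_mul_of_nonneg_right hAN (by linarith)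
  have h5 : (ε * N) * b ≤ (ε * N) * N := mul_le_mul_of_nonneg_left hbN he
  calc |((∑ x ∈ A, B x : ℕ) : ℝ) - a * b| =
      |(((∑ x ∈ A, B x : ℕ) : ℝ) - A.card * b) + ((A.card : ℝ) * b - a * b)| := by ring_nf
    _ ≤ _ := abs_add_le _ _
    _ ≤ N * (3 * (ε * N)) + (ε * N) * N := by linarith
    _ = _ := by ring

theorem LD_b_bounds {N n o τ ε : ℝ} (h : LD_Num N n o τ ε) :
    0 ≤ 2 * (n - o) * (n / (τ * N)) ∧ 2 * (n - o) * (n / (τ * N)) ≤ N := by
  obtain ⟨N3, h7, h2, ho, o0, eN, e0, tau⟩ := h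
  have hn : 0 < n := by linarith
  have he : 0 < n - o := by linarith
  have hN : 0 < N := by linarith
  have ht : 0 < τ := by linarith
  constructor
  · positivity
  · have h3 : n / (τ * N) ≤ 1 := by
      rw [div_le_one (by positivity)]
      nlinarith
    have h4 : 2 * (n - o) * (n / (τ * N)) ≤ 2 * (n - o) * 1 :=
      mul_le_mul_of_nonneg_left h3 (by linarith)
    linarith

/-- final estimate for a product -/
theorem LD_fin {N n o τ ε x T : ℝ} (h : LD_Num N n o τ ε)
    (hT : |T - (2 * (n - o) * (x / (τ * N))) * (2 * (n - o) * (n / (τ * N)))| ≤ 4 * (ε * N) * N) :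
    |LD_Wp N n o τ * T - x / n| ≤ 9604 * τ ^ 2 * ε := by
  have hW := LD_Wp_le h
  have hW0 : 0 ≤ LD_Wp N n o τ := LD_Wp_nonneg
  obtain ⟨N3, h7, h2, ho, o0, eN, e0, tau⟩ := h
  have hn : 0 < n := by linarith
  have he : 0 < n - o := by linarith
  have hN : 0 < N := by linarith
  have ht : 0 < τ := by linarith
  have h1 : x / n = LD_Wp N n o τ *
      ((2 * (n - o) * (x / (τ * N))) * (2 * (n - o) * (n / (τ * N)))) := by
    unfold LD_Wp
    field_simp
    try ring
  rw [h1, ← mul_sub, abs_mul, abs_of_nonneg hW0]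
  calc LD_Wp N n o τ * |T - (2 * (n - o) * (x / (τ * N))) * (2 * (n - o) * (n / (τ * N)))| ≤
      LD_Wp N n o τ * (4 * (ε * N) * N) := mul_le_mul_of_nonneg_left hT hW0
    _ = (LD_Wp N n o τ * N ^ 2) * (4 * ε) := by ring
    _ ≤ (2401 * τ ^ 2) * (4 * ε) := mul_le_mul_of_nonneg_right hW (by linarith)
    _ = _ := by ring

theorem LD_fin_O {N n o τ ε B : ℝ} (h : LD_Num N n o τ ε)
    (hB : |B - o * (n / (τ * N))| ≤ ε * N) :
    |LD_Wo N n τ * B - 2 * o / n| ≤ 98 * τ * ε := by
  have hW := LD_Wo_le h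
  have hW0 : 0 ≤ LD_Wo N n τ := LD_Wo_nonneg (by linarith [h.N3]) (by linarith [h.tau])
  obtain ⟨N3, h7, h2, ho, o0, eN, e0, tau⟩ := h
  have hn : 0 < n := by linarith
  have hN : 0 < N := by linarith
  have ht : 0 < τ := by linarith
  have h1 : 2 * o / n = LD_Wo N n τ * (o * (n / (τ * N))) := by
    unfold LD_Wo
    field_simp
  rw [h1, ← mul_sub, abs_mul, abs_of_nonneg hW0]
  calc LD_Wo N n τ * |B - o * (n / (τ * N))| ≤ LD_Wo N n τ * (ε * N) :=
      mul_le_mul_of_nonneg_left hB hW0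
    _ = (LD_Wo N n τ * N) * ε := by ring
    _ ≤ (98 * τ) * ε := mul_le_mul_of_nonneg_right hW e0

/-- the outer count over the neighbours of a vertex -/
def LD_A (σ : C → Equiv.Perm V) (O : Finset C) (φ : V → ℕ) (v : V) (k : ℕ) :
    Finset (C × Bool) :=
  univ.filter (fun p => p.1 ∉ O ∧ φ (nb σ p v) = k)

theorem LD_A_card {σ : C → Equiv.Perm V} {O : Finset C} {τ : ℕ} {φ : V → ℕ} {ε : ℝ}
    (h : LHyp σ O τ φ ε) (v : V) (k : ℕ) : ((LD_A σ O φ v k).card : ℝ) ≤ Fintype.card V := by
  have h1 := Fintype.card_le_of_injective _ (nb_inj h.hd v)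
  have h2 : (LD_A σ O φ v k).card ≤ Fintype.card (C × Bool) := Finset.card_le_univ _
  exact_mod_cast h2.trans h1

/-- block LR -/
theorem ld_R (τ : ℕ) : ∃ K : ℝ, ∀ (V C : Type) [Fintype V] [DecidableEq V] [Fintype C]
    [DecidableEq C] (σ : C → Equiv.Perm V) (O : Finset C) (φ : V → ℕ) (ε : ℝ),
    LHyp σ O τ φ ε → ∀ v : V,
      ((∃ t, 1 ≤ t ∧ t ≤ τ ∧ φ v = 2 * t) → |ld σ O τ φ (Sum.inl (1, v)) - 1| ≤ K * ε) ∧
      ((¬ ∃ t, 1 ≤ t ∧ t ≤ τ ∧ φ v = 2 * t) → ld σ O τ φ (Sum.inl (1, v)) = 0) := by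
  classical
  refine ⟨9604 * (τ : ℝ) ^ 2, ?_⟩
  intro V C _ _ _ _ σ O φ ε h v
  have hn := LD_num h
  have hO : (univ.filter (fun c : V × C => (Sum.inl (1, v) : Rs V C) ∈ inc1 σ (Sum.inr c) ∧
        okO σ O τ φ c.1 c.2)) = ∅ := by
    apply Finset.filter_eq_empty_iff.2
    rintro ⟨b, i⟩ _ ⟨h1, _⟩
    simp [inc1] at h1
  constructor
  · rintro ⟨t, ht1, ht2, hv⟩
    rw [LD_split]
    rw [hO]
    have hcard : (univ.filter (fun c : V × (C × Bool) × (C × Bool) =>
        (Sum.inl (1, v) : Rs V C) ∈ inc1 σ (Sum.inl c) ∧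
        okP σ O τ φ c.1 c.2.1 c.2.2)).card =
        ∑ p ∈ LD_A σ O φ v (2 * t - 1), (LD_B σ O φ v p.1 (2 * t + 1)).card := by
      rw [Finset.card_eq_sum_card_fiberwise (f := fun c => c.2.1)
        (t := LD_A σ O φ v (2 * t - 1))]
      · apply Finset.sum_congr rfl
        intro p hp
        simp only [LD_A, mem_filter, mem_univ, true_and] at hp
        apply Finset.card_nbij' (fun c => c.2.2) (fun p' => (v, p, p'))
        · rintro ⟨x, q, q'⟩ hx
          simp only [Finset.coe_filter, mem_filter, mem_univ, true_and, Set.mem_ofPred_eq] at hx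
          obtain ⟨⟨h1, h2, h3, h4, t', h5, h6, h7, h8, h9⟩, h10⟩ := hx
          have hxv : v = x := by simpa [inc1] using h1
          subst hxv
          subst h10
          have : t' = t := by omega
          subst this
          simp only [LD_B, Finset.coe_filter, mem_univ, true_and, Set.mem_ofPred_eq]
          exact ⟨h3, h4, h9⟩
        · intro p' hp'
          simp only [LD_B, Finset.coe_filter, mem_univ, true_and, Set.mem_ofPred_eq] at hp'
          simp only [Finset.coe_filter, mem_filter, mem_univ, true_and, Set.mem_ofPred_eq]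
          refine ⟨⟨by simp [inc1], hp.1, hp'.1, hp'.2.1, t, ht1, ht2, hv, hp.2, hp'.2.2⟩, trivial⟩
        · rintro ⟨x, q, q'⟩ hx
          simp only [Finset.coe_filter, mem_filter, mem_univ, true_and, Set.mem_ofPred_eq] at hx
          obtain ⟨⟨h1, _⟩, h10⟩ := hx
          have hxv : v = x := by simpa [inc1] using h1
          subst hxv
          subst h10
          rfl
        · intro p' _
          rfl
      · rintro ⟨x, q, q'⟩ hx
        simp only [Finset.coe_filter, mem_univ, true_and, Set.mem_ofPred_eq] at hx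
        obtain ⟨h1, h2, h3, h4, t', h5, h6, h7, h8, h9⟩ := hx
        have hxv : v = x := by simpa [inc1] using h1
        subst hxv
        have : t' = t := by omega
        subst this
        simp only [LD_A, Finset.coe_filter, mem_univ, true_and, Set.mem_ofPred_eq]
        exact ⟨h2, h8⟩
    rw [hcard]
    have hA := h.phi.f1 v (2 * t - 1) (by omega)
    rw [LD_pcl_odd (by omega) (by omega)] at hA
    have hest := LD_prod (LD_A σ O φ v (2 * t - 1))
      (fun p => (LD_B σ O φ v p.1 (2 * t + 1)).card) hA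
      (fun p _ => LD_B_est h v p.1 (by omega) (by omega)) (LD_A_card h v _)
      (LD_b_bounds hn).1 (LD_b_bounds hn).2 (by linarith [hn.eN])
    have hfin := LD_fin (x := Fintype.card C) hn hest
    have hn0 : (Fintype.card C : ℝ) ≠ 0 := ne_of_gt (by linarith [hn.h7, hn.N3])
    rw [div_self hn0] at hfin
    simpa using hfin
  · intro hno
    rw [LD_split, hO]
    have hP : (univ.filter (fun c : V × (C × Bool) × (C × Bool) =>
        (Sum.inl (1, v) : Rs V C) ∈ inc1 σ (Sum.inl c) ∧
        okP σ O τ φ c.1 c.2.1 c.2.2)) = ∅ := by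
      apply Finset.filter_eq_empty_iff.2
      rintro ⟨x, q, q'⟩ _ ⟨h1, h2, h3, h4, t', h5, h6, h7, h8, h9⟩
      have hxv : v = x := by simpa [inc1] using h1
      subst hxv
      exact hno ⟨t', h5, h6, h7⟩
    rw [hP]
    simp

/-- combination of the two kinds of cells -/
theorem LD_comb {N n o τ ε P Q : ℝ} (h : LD_Num N n o τ ε)
    (hP : |P - (n - 2 * o) / n| ≤ 9604 * τ ^ 2 * ε) (hQ : |Q - 2 * o / n| ≤ 98 * τ * ε) :
    |P + Q - 1| ≤ (9604 * τ ^ 2 + 98 * τ) * ε := by
  have hn : 0 < n := by linarith [h.h7, h.N3]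
  have h1 : (n - 2 * o) / n + 2 * o / n = 1 := by field_simp; ring
  have h2 : P + Q - 1 = (P - (n - 2 * o) / n) + (Q - 2 * o / n) := by rw [← h1]; ring
  rw [h2]
  refine (abs_add_le _ _).trans ?_
  linarith

theorem LD_comb0 {N n o τ ε P : ℝ} (h : LD_Num N n o τ ε)
    (hP : |P - n / n| ≤ 9604 * τ ^ 2 * ε) :
    |P - 1| ≤ (9604 * τ ^ 2 + 98 * τ) * ε := by
  have hn0 : n ≠ 0 := ne_of_gt (by linarith [h.h7, h.N3])
  rw [div_self hn0] at hP
  have h1 : 0 ≤ 98 * τ * ε := by
    have := h.e0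
    have := h.tau
    positivity
  linarith

/-- block LZ0 -/
theorem ld_Z0 (τ : ℕ) : ∃ K : ℝ, ∀ (V C : Type) [Fintype V] [DecidableEq V] [Fintype C]
    [DecidableEq C] (σ : C → Equiv.Perm V) (O : Finset C) (φ : V → ℕ) (ε : ℝ),
    LHyp σ O τ φ ε → ∀ v : V,
      ((∃ t, 1 ≤ t ∧ t ≤ τ ∧ φ v = 2 * t - 1) → |ld σ O τ φ (Sum.inl (0, v)) - 1| ≤ K * ε) ∧
      ((¬ ∃ t, 1 ≤ t ∧ t ≤ τ ∧ φ v = 2 * t - 1) → ld σ O τ φ (Sum.inl (0, v)) = 0) := by
  classical
  refine ⟨9604 * (τ : ℝ) ^ 2 + 98 * τ, ?_⟩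
  intro V C _ _ _ _ σ O φ ε h v
  have hn := LD_num h
  have hmem : ∀ x p p', (Sum.inl (0, v) : Rs V C) ∈ inc1 σ (Sum.inl (x, p, p')) ↔
      v = nb σ p x := by
    intro x p p'
    simp [inc1]
  have hmemO : ∀ b i, (Sum.inl (0, v) : Rs V C) ∈ inc1 σ (Sum.inr (b, i)) ↔ v = b := by
    intro b i
    simp [inc1]
  constructor
  · rintro ⟨t, ht1, ht2, hv⟩
    rw [LD_split]
    have hcard : (univ.filter (fun c : V × (C × Bool) × (C × Bool) =>
        (Sum.inl (0, v) : Rs V C) ∈ inc1 σ (Sum.inl c) ∧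
        okP σ O τ φ c.1 c.2.1 c.2.2)).card =
        ∑ q ∈ LD_A σ O φ v (2 * t), (LD_B σ O φ (nb σ q v) q.1 (2 * t + 1)).card := by
      rw [Finset.card_eq_sum_card_fiberwise (f := fun c => (c.2.1.1, !c.2.1.2))
        (t := LD_A σ O φ v (2 * t))]
      · apply Finset.sum_congr rfl
        rintro ⟨i, s⟩ hp
        simp only [LD_A, mem_filter, mem_univ, true_and] at hp
        apply Finset.card_nbij' (fun c => c.2.2) (fun p' => (nb σ (i, s) v, (i, !s), p'))
        · rintro ⟨x, ⟨j, s'⟩, q'⟩ hx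
          simp only [Finset.coe_filter, mem_filter, mem_univ, true_and, Set.mem_ofPred_eq,
            Prod.mk.injEq] at hx
          obtain ⟨⟨h1, h2, h3, h4, t', h5, h6, h7, h8, h9⟩, h10, h11⟩ := hx
          subst h10
          subst h11
          rw [hmem] at h1
          subst h1
          have : t' = t := by omega
          subst this
          simp only [LD_B, Finset.coe_filter, mem_univ, true_and, Set.mem_ofPred_eq]
          rw [nb_nb]
          exact ⟨h3, h4, h9⟩
        · intro p' hp'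
          simp only [LD_B, Finset.coe_filter, mem_univ, true_and, Set.mem_ofPred_eq] at hp'
          simp only [Finset.coe_filter, mem_filter, mem_univ, true_and, Set.mem_ofPred_eq]
          refine ⟨⟨?_, hp.1, hp'.1, hp'.2.1, t, ht1, ht2, hp.2, ?_, hp'.2.2⟩, by simp⟩
          · rw [hmem, nb_nb]
          · rw [nb_nb]; exact hv
        · rintro ⟨x, ⟨j, s'⟩, q'⟩ hx
          simp only [Finset.coe_filter, mem_filter, mem_univ, true_and, Set.mem_ofPred_eq,
            Prod.mk.injEq] at hx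
          obtain ⟨⟨h1, h2, h3, h4, t', h5, h6, h7, h8, h9⟩, h10, h11⟩ := hx
          subst h10
          subst h11
          rw [hmem] at h1
          subst h1
          simp only [nb_nb, Bool.not_not]
        · intro p' _
          rfl
      · rintro ⟨x, ⟨j, s'⟩, q'⟩ hx
        simp only [Finset.coe_filter, mem_univ, true_and, Set.mem_ofPred_eq] at hx
        obtain ⟨h1, h2, h3, h4, t', h5, h6, h7, h8, h9⟩ := hx
        rw [hmem] at h1
        subst h1
        have : t' = t := by omega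
        subst this
        simp only [LD_A, Finset.coe_filter, mem_univ, true_and, Set.mem_ofPred_eq]
        rw [nb_nb]
        exact ⟨h2, h7⟩
    rw [hcard]
    have hA := h.phi.f1 v (2 * t) (by omega)
    have hest : ∀ a : ℝ, pcl (Fintype.card V) (Fintype.card C) O.card τ (2 * t) =
        a / (τ * Fintype.card V) → _ := fun a ha => by
      rw [ha] at hA
      exact LD_fin (x := a) hn (LD_prod (LD_A σ O φ v (2 * t))
        (fun q => (LD_B σ O φ (nb σ q v) q.1 (2 * t + 1)).card) hA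
        (fun p _ => LD_B_est h (nb σ p v) p.1 (by omega) (by omega)) (LD_A_card h v _)
        (LD_b_bounds hn).1 (LD_b_bounds hn).2 (by linarith [hn.eN]))
    rcases Nat.mod_two_eq_zero_or_one t with hte | hto
    · have hO : (univ.filter (fun c : V × C => (Sum.inl (0, v) : Rs V C) ∈ inc1 σ (Sum.inr c) ∧
          okO σ O τ φ c.1 c.2)) = ∅ := by
        apply Finset.filter_eq_empty_iff.2
        rintro ⟨b, i⟩ _ ⟨h1, h2, t', h3, h4, h5, h6⟩
        rw [hmemO] at h1
        subst h1
        simp only at h5 h6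
        omega
      rw [hO]
      have hfin := hest _ (LD_pcl_even0 ht1 ht2 hte)
      rw [Finset.card_empty, Nat.cast_zero, mul_zero, add_zero]
      exact LD_comb0 hn hfin
    · have hOc : (univ.filter (fun c : V × C => (Sum.inl (0, v) : Rs V C) ∈ inc1 σ (Sum.inr c) ∧
          okO σ O τ φ c.1 c.2)).card =
          (O.filter (fun i => φ (nb σ (i, true) v) = 2 * t + 1)).card := by
        apply Finset.card_nbij' (fun c => c.2) (fun i => (v, i))
        · rintro ⟨b, i⟩ hx
          simp only [Finset.coe_filter, mem_univ, true_and, Set.mem_ofPred_eq] at hx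
          obtain ⟨h1, h2, t', h3, h4, h5, h6⟩ := hx
          rw [hmemO] at h1
          subst h1
          have : t' = t := by omega
          subst this
          simp only [Finset.coe_filter, Set.mem_ofPred_eq, nb, if_true]
          exact ⟨h2, h6⟩
        · intro i hi
          simp only [Finset.coe_filter, Set.mem_ofPred_eq, nb, if_true] at hi
          simp only [Finset.coe_filter, mem_univ, true_and, Set.mem_ofPred_eq]
          exact ⟨(hmemO _ _).2 rfl, hi.1, t, hto, ht2, hv, hi.2⟩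
        · rintro ⟨b, i⟩ hx
          simp only [Finset.coe_filter, mem_univ, true_and, Set.mem_ofPred_eq] at hx
          have h1 := hx.1
          rw [hmemO] at h1
          subst h1
          rfl
        · intro i _
          rfl
      rw [hOc]
      have hfin := hest _ (LD_pcl_even1 ht2 hto)
      have hB := h.phi.f1' v (2 * t + 1) true (by omega)
      rw [LD_pcl_odd (by omega) (by omega)] at hB
      exact LD_comb hn hfin (LD_fin_O hn hB)
  · intro hno
    rw [LD_split]
    have hO : (univ.filter (fun c : V × C => (Sum.inl (0, v) : Rs V C) ∈ inc1 σ (Sum.inr c) ∧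
        okO σ O τ φ c.1 c.2)) = ∅ := by
      apply Finset.filter_eq_empty_iff.2
      rintro ⟨b, i⟩ _ ⟨h1, h2, t', h3, h4, h5, h6⟩
      rw [hmemO] at h1
      subst h1
      exact hno ⟨t', by omega, h4, h5⟩
    have hP : (univ.filter (fun c : V × (C × Bool) × (C × Bool) =>
        (Sum.inl (0, v) : Rs V C) ∈ inc1 σ (Sum.inl c) ∧
        okP σ O τ φ c.1 c.2.1 c.2.2)) = ∅ := by
      apply Finset.filter_eq_empty_iff.2
      rintro ⟨x, q, q'⟩ _ ⟨h1, h2, h3, h4, t', h5, h6, h7, h8, h9⟩
      rw [hmem] at h1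
      subst h1
      exact hno ⟨t', h5, h6, h8⟩
    rw [hP, hO]
    simp

/-- block LZ2 -/
theorem ld_Z2 (τ : ℕ) : ∃ K : ℝ, ∀ (V C : Type) [Fintype V] [DecidableEq V] [Fintype C]
    [DecidableEq C] (σ : C → Equiv.Perm V) (O : Finset C) (φ : V → ℕ) (ε : ℝ),
    LHyp σ O τ φ ε → ∀ v : V,
      ((∃ t, 1 ≤ t ∧ t ≤ τ ∧ φ v = 2 * t + 1) → |ld σ O τ φ (Sum.inl (2, v)) - 1| ≤ K * ε) ∧
      ((¬ ∃ t, 1 ≤ t ∧ t ≤ τ ∧ φ v = 2 * t + 1) → ld σ O τ φ (Sum.inl (2, v)) = 0) := by
  classical
  refine ⟨9604 * (τ : ℝ) ^ 2 + 98 * τ, ?_⟩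
  intro V C _ _ _ _ σ O φ ε h v
  have hn := LD_num h
  have hmem : ∀ x p p', (Sum.inl (2, v) : Rs V C) ∈ inc1 σ (Sum.inl (x, p, p')) ↔
      v = nb σ p' x := by
    intro x p p'
    simp [inc1]
  have hmemO : ∀ b i, (Sum.inl (2, v) : Rs V C) ∈ inc1 σ (Sum.inr (b, i)) ↔ v = σ i b := by
    intro b i
    simp [inc1]
  constructor
  · rintro ⟨t, ht1, ht2, hv⟩
    rw [LD_split]
    have hcard : (univ.filter (fun c : V × (C × Bool) × (C × Bool) =>
        (Sum.inl (2, v) : Rs V C) ∈ inc1 σ (Sum.inl c) ∧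
        okP σ O τ φ c.1 c.2.1 c.2.2)).card =
        ∑ q ∈ LD_A σ O φ v (2 * t), (LD_B σ O φ (nb σ q v) q.1 (2 * t - 1)).card := by
      rw [Finset.card_eq_sum_card_fiberwise (f := fun c => (c.2.2.1, !c.2.2.2))
        (t := LD_A σ O φ v (2 * t))]
      · apply Finset.sum_congr rfl
        rintro ⟨i, s⟩ hp
        simp only [LD_A, mem_filter, mem_univ, true_and] at hp
        apply Finset.card_nbij' (fun c => c.2.1) (fun p => (nb σ (i, s) v, p, (i, !s)))
        · rintro ⟨x, q, ⟨j, s'⟩⟩ hx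
          simp only [Finset.coe_filter, mem_filter, mem_univ, true_and, Set.mem_ofPred_eq,
            Prod.mk.injEq] at hx
          obtain ⟨⟨h1, h2, h3, h4, t', h5, h6, h7, h8, h9⟩, h10, h11⟩ := hx
          subst h10
          subst h11
          rw [hmem] at h1
          subst h1
          have : t' = t := by omega
          subst this
          simp only [LD_B, Finset.coe_filter, mem_univ, true_and, Set.mem_ofPred_eq]
          rw [nb_nb]
          exact ⟨h2, h4.symm, h8⟩
        · intro p' hp'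
          simp only [LD_B, Finset.coe_filter, mem_univ, true_and, Set.mem_ofPred_eq] at hp'
          simp only [Finset.coe_filter, mem_filter, mem_univ, true_and, Set.mem_ofPred_eq]
          refine ⟨⟨?_, hp'.1, hp.1, hp'.2.1.symm, t, ht1, ht2, hp.2, hp'.2.2, ?_⟩, by simp⟩
          · rw [hmem, nb_nb]
          · rw [nb_nb]; exact hv
        · rintro ⟨x, q, ⟨j, s'⟩⟩ hx
          simp only [Finset.coe_filter, mem_filter, mem_univ, true_and, Set.mem_ofPred_eq,
            Prod.mk.injEq] at hx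
          obtain ⟨⟨h1, h2, h3, h4, t', h5, h6, h7, h8, h9⟩, h10, h11⟩ := hx
          subst h10
          subst h11
          rw [hmem] at h1
          subst h1
          simp only [nb_nb, Bool.not_not]
        · intro p' _
          rfl
      · rintro ⟨x, q, ⟨j, s'⟩⟩ hx
        simp only [Finset.coe_filter, mem_univ, true_and, Set.mem_ofPred_eq] at hx
        obtain ⟨h1, h2, h3, h4, t', h5, h6, h7, h8, h9⟩ := hx
        rw [hmem] at h1
        subst h1
        have : t' = t := by omega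
        subst this
        simp only [LD_A, Finset.coe_filter, mem_univ, true_and, Set.mem_ofPred_eq]
        rw [nb_nb]
        exact ⟨h3, h7⟩
    rw [hcard]
    have hA := h.phi.f1 v (2 * t) (by omega)
    have hest : ∀ a : ℝ, pcl (Fintype.card V) (Fintype.card C) O.card τ (2 * t) =
        a / (τ * Fintype.card V) → _ := fun a ha => by
      rw [ha] at hA
      exact LD_fin (x := a) hn (LD_prod (LD_A σ O φ v (2 * t))
        (fun q => (LD_B σ O φ (nb σ q v) q.1 (2 * t - 1)).card) hA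
        (fun p _ => LD_B_est h (nb σ p v) p.1 (by omega) (by omega)) (LD_A_card h v _)
        (LD_b_bounds hn).1 (LD_b_bounds hn).2 (by linarith [hn.eN]))
    rcases Nat.mod_two_eq_zero_or_one t with hte | hto
    · have hO : (univ.filter (fun c : V × C => (Sum.inl (2, v) : Rs V C) ∈ inc1 σ (Sum.inr c) ∧
          okO σ O τ φ c.1 c.2)) = ∅ := by
        apply Finset.filter_eq_empty_iff.2
        rintro ⟨b, i⟩ _ ⟨h1, h2, t', h3, h4, h5, h6⟩
        rw [hmemO] at h1
        subst h1
        simp only at h5 h6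
        omega
      rw [hO]
      have hfin := hest _ (LD_pcl_even0 ht1 ht2 hte)
      rw [Finset.card_empty, Nat.cast_zero, mul_zero, add_zero]
      exact LD_comb0 hn hfin
    · have hOc : (univ.filter (fun c : V × C => (Sum.inl (2, v) : Rs V C) ∈ inc1 σ (Sum.inr c) ∧
          okO σ O τ φ c.1 c.2)).card =
          (O.filter (fun i => φ (nb σ (i, false) v) = 2 * t - 1)).card := by
        apply Finset.card_nbij' (fun c => c.2) (fun i => ((σ i)⁻¹ v, i))
        · rintro ⟨b, i⟩ hx
          simp only [Finset.coe_filter, mem_univ, true_and, Set.mem_ofPred_eq] at hx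
          obtain ⟨h1, h2, t', h3, h4, h5, h6⟩ := hx
          rw [hmemO] at h1
          subst h1
          have : t' = t := by omega
          subst this
          simp only [Finset.coe_filter, Set.mem_ofPred_eq, nb, Bool.false_eq_true, if_false]
          have e1 : (σ i)⁻¹ (σ i b) = b := (σ i).symm_apply_apply b
          rw [e1]
          exact ⟨h2, h5⟩
        · intro i hi
          simp only [Finset.coe_filter, Set.mem_ofPred_eq, nb, Bool.false_eq_true,
            if_false] at hi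
          simp only [Finset.coe_filter, mem_univ, true_and, Set.mem_ofPred_eq]
          refine ⟨(hmemO _ _).2 (by simp), hi.1, t, hto, ht2, hi.2, ?_⟩
          have e1 : (σ i) ((σ i)⁻¹ v) = v := (σ i).apply_symm_apply v
          rw [e1]
          exact hv
        · rintro ⟨b, i⟩ hx
          simp only [Finset.coe_filter, mem_univ, true_and, Set.mem_ofPred_eq] at hx
          have h1 := hx.1
          rw [hmemO] at h1
          subst h1
          simp
        · intro i _
          rfl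
      rw [hOc]
      have hfin := hest _ (LD_pcl_even1 ht2 hto)
      have hB := h.phi.f1' v (2 * t - 1) false (by omega)
      rw [LD_pcl_odd (by omega) (by omega)] at hB
      exact LD_comb hn hfin (LD_fin_O hn hB)
  · intro hno
    rw [LD_split]
    have hO : (univ.filter (fun c : V × C => (Sum.inl (2, v) : Rs V C) ∈ inc1 σ (Sum.inr c) ∧
        okO σ O τ φ c.1 c.2)) = ∅ := by
      apply Finset.filter_eq_empty_iff.2
      rintro ⟨b, i⟩ _ ⟨h1, h2, t', h3, h4, h5, h6⟩
      rw [hmemO] at h1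
      subst h1
      exact hno ⟨t', by omega, h4, h6⟩
    have hP : (univ.filter (fun c : V × (C × Bool) × (C × Bool) =>
        (Sum.inl (2, v) : Rs V C) ∈ inc1 σ (Sum.inl c) ∧
        okP σ O τ φ c.1 c.2.1 c.2.2)) = ∅ := by
      apply Finset.filter_eq_empty_iff.2
      rintro ⟨x, q, q'⟩ _ ⟨h1, h2, h3, h4, t', h5, h6, h7, h8, h9⟩
      rw [hmem] at h1
      subst h1
      exact hno ⟨t', h5, h6, h9⟩
    rw [hP, hO]
    simp

/-- outer set for the colour blocks -/
def LD_S (σ : C → Equiv.Perm V) (φ : V → ℕ) (i : C) (s : Bool) (t : ℕ) : Finset V :=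
  univ.filter (fun x => φ x = 2 * t ∧ φ (nb σ (i, s) x) = 2 * t - 1)

theorem LD_S_est {σ : C → Equiv.Perm V} {O : Finset C} {τ : ℕ} {φ : V → ℕ} {ε : ℝ}
    (h : LHyp σ O τ φ ε) (i : C) (s : Bool) {t : ℕ} (ht1 : 1 ≤ t) (ht2 : t ≤ τ) :
    |((LD_S σ φ i s t).card : ℝ) - Fintype.card V *
      pcl (Fintype.card V) (Fintype.card C) O.card τ (2 * t) *
      (Fintype.card C / (τ * Fintype.card V))| ≤ ε * Fintype.card V := by
  cases s with
  | true =>
    have h1 := h.phi.f2 i (2 * t) (2 * t - 1) (by omega) (by omega)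
    rw [LD_pcl_odd (k := 2 * t - 1) (by omega) (by omega)] at h1
    exact h1
  | false =>
    have h1 := h.phi.f2 i (2 * t - 1) (2 * t) (by omega) (by omega)
    rw [LD_pcl_odd (k := 2 * t - 1) (by omega) (by omega)] at h1
    have hc : (LD_S σ φ i false t).card =
        (univ.filter (fun x => φ x = 2 * t - 1 ∧ φ (σ i x) = 2 * t)).card := by
      apply Finset.card_nbij' (fun x => (σ i)⁻¹ x) (fun x => σ i x)
      · intro x hx
        simp only [LD_S, nb, Bool.false_eq_true, if_false, Finset.coe_filter, mem_univ, true_and,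
          Set.mem_ofPred_eq] at hx
        simp only [Finset.coe_filter, mem_univ, true_and, Set.mem_ofPred_eq]
        have e1 : (σ i) ((σ i)⁻¹ x) = x := (σ i).apply_symm_apply x
        rw [e1]
        exact ⟨hx.2, hx.1⟩
      · intro x hx
        simp only [Finset.coe_filter, mem_univ, true_and, Set.mem_ofPred_eq] at hx
        simp only [LD_S, nb, Bool.false_eq_true, if_false, Finset.coe_filter, mem_univ, true_and,
          Set.mem_ofPred_eq]
        have e1 : (σ i)⁻¹ (σ i x) = x := (σ i).symm_apply_apply x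
        rw [e1]
        exact ⟨hx.2, hx.1⟩
      · intro x _
        exact (σ i).apply_symm_apply x
      · intro x _
        exact (σ i).symm_apply_apply x
    rw [hc]
    have e2 : (Fintype.card V : ℝ) * pcl (Fintype.card V) (Fintype.card C) O.card τ (2 * t) *
        (Fintype.card C / (τ * Fintype.card V)) =
        Fintype.card V * (Fintype.card C / (τ * Fintype.card V)) *
        pcl (Fintype.card V) (Fintype.card C) O.card τ (2 * t) := by ring
    rw [e2]
    exact h1

theorem LD_sum_pcl (N n o τ : ℕ) (hτ : τ % 2 = 0) (hτ0 : 0 < τ) (hN : 0 < N) :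
    ∑ t ∈ Icc 1 τ, pcl N n o τ (2 * t) = ((n : ℝ) - o) / N := by
  have h1 : ∀ m : ℕ, ∑ t ∈ Icc 1 (2 * m),
      (if t % 2 = 1 then ((n : ℝ) - 2 * o) / (τ * N) else n / (τ * N)) =
      m * (((n : ℝ) - 2 * o) / (τ * N) + n / (τ * N)) := by
    intro m
    induction m with
    | zero => simp
    | succ m ih =>
      rw [show 2 * (m + 1) = (2 * m + 1) + 1 by ring, Finset.sum_Icc_succ_top (by omega),
        Finset.sum_Icc_succ_top (by omega), ih, if_pos (by omega), if_neg (by omega)]
      push_cast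
      ring
  obtain ⟨m, hm⟩ : ∃ m, τ = 2 * m := ⟨τ / 2, by omega⟩
  have h2 : ∑ t ∈ Icc 1 τ, pcl N n o τ (2 * t) = ∑ t ∈ Icc 1 (2 * m),
      (if t % 2 = 1 then ((n : ℝ) - 2 * o) / (τ * N) else n / (τ * N)) := by
    rw [← hm]
    apply Finset.sum_congr rfl
    intro t ht
    rw [mem_Icc] at ht
    split_ifs with h
    · exact LD_pcl_even1 ht.2 h
    · exact LD_pcl_even0 ht.1 ht.2 (by omega)
  rw [h2, h1]
  have hN' : (N : ℝ) ≠ 0 := by positivity
  have hm' : (m : ℝ) ≠ 0 := by
    have : 0 < m := by omega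
    positivity
  rw [hm]
  push_cast
  field_simp
  ring

/-- block LC0 -/
theorem ld_C0 (τ : ℕ) : ∃ K : ℝ, ∀ (V C : Type) [Fintype V] [DecidableEq V] [Fintype C]
    [DecidableEq C] (σ : C → Equiv.Perm V) (O : Finset C) (φ : V → ℕ) (ε : ℝ),
    LHyp σ O τ φ ε → ∀ i : C,
      (i ∉ O → |ld σ O τ φ (Sum.inr (0, i)) - 1| ≤ K * ε) ∧
      (i ∈ O → ld σ O τ φ (Sum.inr (0, i)) = 0) := by
  classical
  refine ⟨19208 * (τ : ℝ) ^ 3, ?_⟩
  intro V C _ _ _ _ σ O φ ε h i
  have hn := LD_num h
  have hmem : ∀ x p p', (Sum.inr (0, i) : Rs V C) ∈ inc1 σ (Sum.inl (x, p, p')) ↔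
      i = p.1 := by
    intro x p p'
    simp [inc1]
  have hO : (univ.filter (fun c : V × C => (Sum.inr (0, i) : Rs V C) ∈ inc1 σ (Sum.inr c) ∧
        okO σ O τ φ c.1 c.2)) = ∅ := by
    apply Finset.filter_eq_empty_iff.2
    rintro ⟨b, j⟩ _ ⟨h1, _⟩
    simp [inc1] at h1
  constructor
  · intro hi
    rw [LD_split, hO]
    have hcard : (univ.filter (fun c : V × (C × Bool) × (C × Bool) =>
        (Sum.inr (0, i) : Rs V C) ∈ inc1 σ (Sum.inl c) ∧
        okP σ O τ φ c.1 c.2.1 c.2.2)).card =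
        ∑ ts ∈ Icc 1 τ ×ˢ (univ : Finset Bool), ∑ x ∈ LD_S σ φ i ts.2 ts.1,
          (LD_B σ O φ x i (2 * ts.1 + 1)).card := by
      rw [Finset.card_eq_sum_card_fiberwise (f := fun c => (φ c.1 / 2, c.2.1.2))
        (t := Icc 1 τ ×ˢ (univ : Finset Bool))]
      · apply Finset.sum_congr rfl
        rintro ⟨t, s⟩ hts
        simp only [mem_product, mem_Icc, mem_univ, and_true] at hts
        rw [Finset.card_eq_sum_card_fiberwise (f := fun c => c.1) (t := LD_S σ φ i s t)]
        · apply Finset.sum_congr rfl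
          intro x hx
          simp only [LD_S, mem_filter, mem_univ, true_and] at hx
          apply Finset.card_nbij' (fun c => c.2.2) (fun p' => (x, (i, s), p'))
          · rintro ⟨y, ⟨j, s'⟩, q'⟩ hy
            simp only [Finset.coe_filter, mem_filter, mem_univ, true_and, Set.mem_ofPred_eq,
              Prod.mk.injEq] at hy
            obtain ⟨⟨⟨h1, h2, h3, h4, t', h5, h6, h7, h8, h9⟩, h10, h11⟩, h12⟩ := hy
            subst h12
            subst h11
            rw [hmem] at h1
            simp only at h1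
            subst h1
            have : t' = t := by omega
            subst this
            simp only [LD_B, Finset.coe_filter, mem_univ, true_and, Set.mem_ofPred_eq]
            exact ⟨h3, h4, h9⟩
          · intro p' hp'
            simp only [LD_B, Finset.coe_filter, mem_univ, true_and, Set.mem_ofPred_eq] at hp'
            simp only [Finset.coe_filter, mem_filter, mem_univ, true_and, Set.mem_ofPred_eq,
              and_true]
            refine ⟨⟨?_, hi, hp'.1, hp'.2.1, t, hts.1, hts.2, hx.1, hx.2, hp'.2.2⟩, ?_⟩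
            · rw [hmem]
            · rw [hx.1]
              congr 1
              omega
          · rintro ⟨y, ⟨j, s'⟩, q'⟩ hy
            simp only [Finset.coe_filter, mem_filter, mem_univ, true_and, Set.mem_ofPred_eq,
              Prod.mk.injEq] at hy
            obtain ⟨⟨⟨h1, _⟩, h10, h11⟩, h12⟩ := hy
            subst h12
            subst h11
            rw [hmem] at h1
            simp only at h1
            subst h1
            rfl
          · intro p' _
            rfl
        · rintro ⟨y, ⟨j, s'⟩, q'⟩ hy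
          simp only [Finset.coe_filter, mem_filter, mem_univ, true_and, Set.mem_ofPred_eq,
            Prod.mk.injEq] at hy
          obtain ⟨⟨h1, h2, h3, h4, t', h5, h6, h7, h8, h9⟩, h10, h11⟩ := hy
          subst h11
          rw [hmem] at h1
          simp only at h1
          subst h1
          have : t' = t := by omega
          subst this
          simp only [LD_S, Finset.coe_filter, mem_univ, true_and, Set.mem_ofPred_eq]
          exact ⟨h7, h8⟩
      · rintro ⟨y, ⟨j, s'⟩, q'⟩ hy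
        simp only [Finset.coe_filter, mem_univ, true_and, Set.mem_ofPred_eq] at hy
        obtain ⟨h1, h2, h3, h4, t', h5, h6, h7, h8, h9⟩ := hy
        simp only [Finset.coe_product, Finset.coe_univ, Set.mem_prod, Finset.coe_Icc,
          Set.mem_Icc, Set.mem_univ, and_true]
        omega
    rw [hcard]
    set N : ℝ := (Fintype.card V : ℝ) with hNdef
    set n : ℝ := (Fintype.card C : ℝ) with hndef
    set o : ℝ := (O.card : ℝ) with hodef
    set b : ℝ := 2 * (n - o) * (n / (τ * N)) with hb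
    have hbb := LD_b_bounds hn
    have hterm : ∀ ts ∈ Icc 1 τ ×ˢ (univ : Finset Bool),
        |((∑ x ∈ LD_S σ φ i ts.2 ts.1, (LD_B σ O φ x i (2 * ts.1 + 1)).card : ℕ) : ℝ) -
          N * pcl (Fintype.card V) (Fintype.card C) O.card τ (2 * ts.1) * (n / (τ * N)) * b| ≤
          4 * (ε * N) * N := by
      rintro ⟨t, s⟩ hts
      simp only [mem_product, mem_Icc, mem_univ, and_true] at hts
      have hS := LD_S_est h i s hts.1 hts.2
      have hSN : ((LD_S σ φ i s t).card : ℝ) ≤ N := by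
        have : (LD_S σ φ i s t).card ≤ Fintype.card V := Finset.card_le_univ _
        rw [hNdef]
        exact_mod_cast this
      exact LD_prod (LD_S σ φ i s t) (fun x => (LD_B σ O φ x i (2 * t + 1)).card) hS
        (fun x _ => LD_B_est h x i (by omega) (by omega)) hSN hbb.1 hbb.2 (by linarith [hn.eN])
    have hW := LD_Wp_le hn
    have hW0 : 0 ≤ LD_Wp N n o τ := LD_Wp_nonneg
    have hmain : LD_Wp N n o τ * ∑ ts ∈ Icc 1 τ ×ˢ (univ : Finset Bool),
        N * pcl (Fintype.card V) (Fintype.card C) O.card τ (2 * ts.1) * (n / (τ * N)) * b = 1 := by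
      have h1 : ∑ ts ∈ Icc 1 τ ×ˢ (univ : Finset Bool),
          N * pcl (Fintype.card V) (Fintype.card C) O.card τ (2 * ts.1) * (n / (τ * N)) * b =
          (∑ t ∈ Icc 1 τ, pcl (Fintype.card V) (Fintype.card C) O.card τ (2 * t)) *
            (2 * N * (n / (τ * N)) * b) := by
        rw [Finset.sum_product, Finset.sum_mul]
        apply Finset.sum_congr rfl
        intro t _
        simp only [Finset.sum_const, Finset.card_univ, Fintype.card_bool, nsmul_eq_mul]
        push_cast
        ring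
      rw [h1, LD_sum_pcl _ _ _ _ h.even (by have := h.tau; omega)
        (by have := h.hd.three; omega)]
      obtain ⟨N3, h7, h2, ho, o0, eN, e0, tau⟩ := hn
      have hn' : 0 < n := by linarith
      have he : 0 < n - o := by linarith
      have hN : 0 < N := by linarith
      have ht : (0 : ℝ) < τ := by linarith
      unfold LD_Wp
      rw [hb, ← hNdef, ← hndef, ← hodef]
      field_simp
      try ring
    have hdiff : LD_Wp N n o τ * ((∑ ts ∈ Icc 1 τ ×ˢ (univ : Finset Bool),
        ∑ x ∈ LD_S σ φ i ts.2 ts.1, (LD_B σ O φ x i (2 * ts.1 + 1)).card : ℕ) : ℝ) - 1 =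
        LD_Wp N n o τ * ∑ ts ∈ Icc 1 τ ×ˢ (univ : Finset Bool),
        (((∑ x ∈ LD_S σ φ i ts.2 ts.1, (LD_B σ O φ x i (2 * ts.1 + 1)).card : ℕ) : ℝ) -
          N * pcl (Fintype.card V) (Fintype.card C) O.card τ (2 * ts.1) * (n / (τ * N)) * b) := by
      rw [Finset.sum_sub_distrib, mul_sub, hmain, Nat.cast_sum]
    rw [Finset.card_empty, Nat.cast_zero, mul_zero, add_zero, hdiff, abs_mul, abs_of_nonneg hW0]
    have hsum : |∑ ts ∈ Icc 1 τ ×ˢ (univ : Finset Bool),
        (((∑ x ∈ LD_S σ φ i ts.2 ts.1, (LD_B σ O φ x i (2 * ts.1 + 1)).card : ℕ) : ℝ) -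
          N * pcl (Fintype.card V) (Fintype.card C) O.card τ (2 * ts.1) * (n / (τ * N)) * b)| ≤
        2 * τ * (4 * (ε * N) * N) := by
      refine (Finset.abs_sum_le_sum_abs _ _).trans ?_
      refine (Finset.sum_le_sum hterm).trans ?_
      rw [Finset.sum_const, Finset.card_product, Nat.card_Icc, Finset.card_univ,
        Fintype.card_bool, nsmul_eq_mul]
      push_cast
      apply le_of_eq
      ring
    calc LD_Wp N n o τ * _ ≤ LD_Wp N n o τ * (2 * τ * (4 * (ε * N) * N)) :=
        mul_le_mul_of_nonneg_left hsum hW0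
      _ = (LD_Wp N n o τ * N ^ 2) * (8 * τ * ε) := by ring
      _ ≤ (2401 * τ ^ 2) * (8 * τ * ε) := by
        apply mul_le_mul_of_nonneg_right hW
        have := hn.e0
        positivity
      _ = _ := by ring
  · intro hi
    rw [LD_split, hO]
    have hP : (univ.filter (fun c : V × (C × Bool) × (C × Bool) =>
        (Sum.inr (0, i) : Rs V C) ∈ inc1 σ (Sum.inl c) ∧
        okP σ O τ φ c.1 c.2.1 c.2.2)) = ∅ := by
      apply Finset.filter_eq_empty_iff.2
      rintro ⟨x, q, q'⟩ _ ⟨h1, h2, _⟩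
      rw [hmem] at h1
      exact h2 (h1 ▸ hi)
    rw [hP]
    simp

end Pool.Agent.KZ
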