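import Pool.Agent.Lib_helper15.KZF.CYC
import Pool.Agent.Lib_helper15.KZF.DefsA
import Pool.Agent.Lib_helper15.KZF.DefsN

set_option autoImplicit false

namespace Pool.Agent.KZ

open Finset

section lpair

variable {V C : Type} [Fintype V] [DecidableEq V] [Fintype C] [DecidableEq C]

theorem lpair_nb_inj (σ : C → Equiv.Perm V) (p : C × Bool) {x y : V}
    (h : nb σ p x = nb σ p y) : x = y := by
  obtain ⟨i, s⟩ := p
  rw [← nb_nb σ i s x, ← nb_nb σ i s y, h]

theorem lpair_close {σ : C → Equiv.Perm V} (h : HD σ) {v v1 : V} {p p1 p' p1' : C × Bool}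
    (S0 : p.2 = p1.2) (S1 : p'.2 = p1'.2)
    (H : (v = v1 ∧ (nb σ p v = nb σ p1 v1 ∨ p.1 = p1.1) ∧
        (nb σ p' v = nb σ p1' v1 ∨ p'.1 = p1'.1)) ∨
      (p.1 = p1.1 ∧ nb σ p v = nb σ p1 v1 ∧ (nb σ p' v = nb σ p1' v1 ∨ p'.1 = p1'.1)) ∨
      (p'.1 = p1'.1 ∧ nb σ p' v = nb σ p1' v1 ∧ (nb σ p v = nb σ p1 v1 ∨ p.1 = p1.1))) :
    (v, p, p') = (v1, p1, p1') := by
  have hv : v = v1 := by
    rcases H with H | H | H
    · exact H.1
    · have h1 : p = p1 := Prod.ext H.1 S0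
      have h2 := H.2.1
      rw [h1] at h2
      exact lpair_nb_inj σ p1 h2
    · have h1 : p' = p1' := Prod.ext H.1 S1
      have h2 := H.2.1
      rw [h1] at h2
      exact lpair_nb_inj σ p1' h2
  have h1 : nb σ p v = nb σ p1 v1 ∨ p.1 = p1.1 := by tauto
  have h2 : nb σ p' v = nb σ p1' v1 ∨ p'.1 = p1'.1 := by tauto
  subst hv
  have h3 : p = p1 := by
    rcases h1 with h1 | h1
    · exact nb_inj h v h1
    · exact Prod.ext h1 S0
  have h4 : p' = p1' := by
    rcases h2 with h2 | h2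
    · exact nb_inj h v h2
    · exact Prod.ext h2 S1
  rw [h3, h4]

theorem lpair_cardP {σ : C → Equiv.Perm V} (h : HD σ) {r r' : Rs V C} (hr : r ≠ r') :
    (univ.filter (fun c : V × (C × Bool) × (C × Bool) =>
      r ∈ inc1 σ (Sum.inl c) ∧ r' ∈ inc1 σ (Sum.inl c))).card ≤ 4 * Fintype.card V := by
  set A := univ.filter (fun c : V × (C × Bool) × (C × Bool) =>
      r ∈ inc1 σ (Sum.inl c) ∧ r' ∈ inc1 σ (Sum.inl c)) with hA
  have key : ∃ y : V × (C × Bool) × (C × Bool) → V,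
      Set.InjOn (fun c => (y c, c.2.1.2, c.2.2.2)) (A : Set (V × (C × Bool) × (C × Bool))) := by
    rcases A.eq_empty_or_nonempty with hAe | ⟨⟨v0, p0, p0'⟩, h0⟩
    · refine ⟨fun c => c.1, ?_⟩
      rw [hAe]
      simp
    · rw [hA, mem_filter] at h0
      obtain ⟨-, h1, h2⟩ := h0
      simp only [inc1, mem_insert, mem_singleton] at h1 h2
      rcases h1 with rfl | rfl | rfl | rfl | rfl <;> rcases h2 with rfl | rfl | rfl | rfl | rfl <;>
      first
      | exact absurd rfl hr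
      | (refine ⟨fun c => c.1, ?_⟩
         rintro ⟨v, p, p'⟩ hc ⟨v1, p1, p1'⟩ hc1 he
         simp [hA, inc1] at hc hc1 he
         obtain ⟨h1, h2⟩ := hc
         obtain ⟨h3, h4⟩ := hc1
         obtain ⟨h5, h6, h7⟩ := he
         have E1 := h1.symm.trans h3
         have E2 := h2.symm.trans h4
         apply lpair_close h h6 h7
         tauto)
      | (refine ⟨fun c => nb σ c.2.1 c.1, ?_⟩
         rintro ⟨v, p, p'⟩ hc ⟨v1, p1, p1'⟩ hc1 he
         simp [hA, inc1] at hc hc1 he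
         obtain ⟨h1, h2⟩ := hc
         obtain ⟨h3, h4⟩ := hc1
         obtain ⟨h5, h6, h7⟩ := he
         have E1 := h1.symm.trans h3
         have E2 := h2.symm.trans h4
         apply lpair_close h h6 h7
         tauto)
      | (refine ⟨fun c => nb σ c.2.2 c.1, ?_⟩
         rintro ⟨v, p, p'⟩ hc ⟨v1, p1, p1'⟩ hc1 he
         simp [hA, inc1] at hc hc1 he
         obtain ⟨h1, h2⟩ := hc
         obtain ⟨h3, h4⟩ := hc1
         obtain ⟨h5, h6, h7⟩ := he
         have E1 := h1.symm.trans h3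
         have E2 := h2.symm.trans h4
         apply lpair_close h h6 h7
         tauto)
  obtain ⟨y, hy⟩ := key
  calc A.card ≤ (univ : Finset (V × Bool × Bool)).card :=
        Finset.card_le_card_of_injOn (fun c => (y c, c.2.1.2, c.2.2.2))
          (fun _ _ => by simp) hy
    _ = 4 * Fintype.card V := by
        rw [card_univ, Fintype.card_prod, Fintype.card_prod, Fintype.card_bool]
        ring

theorem lpair_cardO {σ : C → Equiv.Perm V} (h : HD σ) {r r' : Rs V C} (hr : r ≠ r') :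
    (univ.filter (fun c : V × C =>
      r ∈ inc1 σ (Sum.inr c) ∧ r' ∈ inc1 σ (Sum.inr c))).card ≤ 1 := by
  rw [Finset.card_le_one]
  rintro ⟨b, i⟩ h0 ⟨b1, i1⟩ h1
  rw [mem_filter] at h0 h1
  obtain ⟨-, h2, h3⟩ := h0
  obtain ⟨-, h4, h5⟩ := h1
  have hi : ∀ x : V, ∀ j j1 : C, σ j x = σ j1 x → j = j1 := by
    intro x j j1 hj
    have := @nb_inj V C _ _ _ _ σ h x (j, true) (j1, true) (by simpa [nb] using hj)
    simpa using this
  simp only [inc1, mem_insert, mem_singleton] at h2 h3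
  rcases h2 with rfl | rfl | rfl <;> rcases h3 with rfl | rfl | rfl <;>
  first
  | exact absurd rfl hr
  | (simp [inc1] at h4 h5
     subst h4
     first
     | (subst h5; rfl)
     | (have := hi _ _ _ h5; rw [this])
     | (have := (σ i).injective h5; rw [this]))
  | (simp [inc1] at h4 h5
     subst h5
     first
     | (have := hi _ _ _ h4; rw [this])
     | (have := (σ i).injective h4; rw [this]))

theorem lpair_wP {σ : C → Equiv.Perm V} {O : Finset C} {τ : ℕ} {φ : V → ℕ}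
    (hN : 0 < Fintype.card V) (h7 : Fintype.card V ≤ 7 * Fintype.card C)
    (ho : 2 * O.card ≤ Fintype.card C) (c : V × (C × Bool) × (C × Bool)) :
    w1 σ O τ φ (Sum.inl c) ≤ 7 ^ 4 * (τ : ℝ) ^ 2 / (Fintype.card V : ℝ) ^ 2 := by
  obtain ⟨v, p, p'⟩ := c
  have hN' : (0 : ℝ) < Fintype.card V := by exact_mod_cast hN
  have h7' : (Fintype.card V : ℝ) ≤ 7 * Fintype.card C := by exact_mod_cast h7
  have ho' : 2 * (O.card : ℝ) ≤ Fintype.card C := by exact_mod_cast ho
  have hn : (0 : ℝ) < Fintype.card C := by linarith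
  simp only [w1]
  split_ifs
  · have h1 : (0 : ℝ) < (Fintype.card C : ℝ) - O.card := by linarith
    rw [div_le_div_iff₀ (by positivity) (by positivity)]
    have h2 : (Fintype.card V : ℝ) ^ 2 ≤ 49 * (Fintype.card C : ℝ) ^ 2 := by
      nlinarith
    have h3 : (Fintype.card C : ℝ) ^ 2 ≤ 4 * ((Fintype.card C : ℝ) - O.card) ^ 2 := by
      nlinarith
    calc (τ * (Fintype.card V : ℝ)) ^ 2 * (Fintype.card V : ℝ) ^ 2
        = (τ : ℝ) ^ 2 * ((Fintype.card V : ℝ) ^ 2 * (Fintype.card V : ℝ) ^ 2) := by ring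
      _ ≤ (τ : ℝ) ^ 2 * ((49 * (Fintype.card C : ℝ) ^ 2) * (49 * (Fintype.card C : ℝ) ^ 2)) := by
          gcongr
      _ ≤ (τ : ℝ) ^ 2 * ((49 * (4 * ((Fintype.card C : ℝ) - O.card) ^ 2)) *
            (49 * (Fintype.card C : ℝ) ^ 2)) := by gcongr
      _ = _ := by ring
  · positivity

theorem lpair_wO {σ : C → Equiv.Perm V} {O : Finset C} {τ : ℕ} {φ : V → ℕ}
    (hN : 0 < Fintype.card V) (h7 : Fintype.card V ≤ 7 * Fintype.card C) (c : V × C) :
    w1 σ O τ φ (Sum.inr c) ≤ 98 * (τ : ℝ) / (Fintype.card V : ℝ) := by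
  obtain ⟨b, i⟩ := c
  have hN' : (0 : ℝ) < Fintype.card V := by exact_mod_cast hN
  have h7' : (Fintype.card V : ℝ) ≤ 7 * Fintype.card C := by exact_mod_cast h7
  have hn : (0 : ℝ) < Fintype.card C := by linarith
  simp only [w1]
  split_ifs
  · rw [div_le_div_iff₀ (by positivity) (by positivity)]
    have h2 : (Fintype.card V : ℝ) ^ 2 ≤ 49 * (Fintype.card C : ℝ) ^ 2 := by
      nlinarith
    calc 2 * (τ : ℝ) * (Fintype.card V : ℝ) * (Fintype.card V : ℝ)
        = 2 * (τ : ℝ) * (Fintype.card V : ℝ) ^ 2 := by ring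
      _ ≤ 2 * (τ : ℝ) * (49 * (Fintype.card C : ℝ) ^ 2) := by gcongr
      _ = _ := by ring
  · positivity

end lpair

/-- block LPAIR -/
theorem ld_pair (τ : ℕ) : ∃ K : ℝ, ∀ (V C : Type) [Fintype V] [DecidableEq V] [Fintype C]
    [DecidableEq C] (σ : C → Equiv.Perm V) (O : Finset C) (φ : V → ℕ) (ε : ℝ),
    LHyp σ O τ φ ε → ∀ r r' : Rs V C, r ≠ r' →
      ∑ c ∈ univ.filter (fun c => r ∈ inc1 σ c ∧ r' ∈ inc1 σ c), w1 σ O τ φ c ≤
        K / Fintype.card V := by
  refine ⟨4 * (7 ^ 4 * (τ : ℝ) ^ 2) + 98 * τ, ?_⟩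
  intro V C _ _ _ _ σ O φ ε hL r r' hr
  have hN : 0 < Fintype.card V := by
    have := hL.hd.three
    omega
  have hN' : (0 : ℝ) < Fintype.card V := by exact_mod_cast hN
  rw [Finset.sum_filter, Fintype.sum_sum_type, ← Finset.sum_filter, ← Finset.sum_filter]
  have hP : ∑ c ∈ univ.filter (fun c : V × (C × Bool) × (C × Bool) =>
      r ∈ inc1 σ (Sum.inl c) ∧ r' ∈ inc1 σ (Sum.inl c)), w1 σ O τ φ (Sum.inl c) ≤
      4 * (7 ^ 4 * (τ : ℝ) ^ 2) / Fintype.card V := by
    refine (Finset.sum_le_card_nsmul _ _ _ fun c _ => lpair_wP hN hL.h7 hL.ho c).trans ?_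
    rw [nsmul_eq_mul]
    have h1 : ((univ.filter (fun c : V × (C × Bool) × (C × Bool) =>
      r ∈ inc1 σ (Sum.inl c) ∧ r' ∈ inc1 σ (Sum.inl c))).card : ℝ) ≤ 4 * Fintype.card V := by
      exact_mod_cast lpair_cardP hL.hd hr
    refine (mul_le_mul_of_nonneg_right h1 (by positivity)).trans (le_of_eq ?_)
    field_simp
  have hO : ∑ c ∈ univ.filter (fun c : V × C =>
      r ∈ inc1 σ (Sum.inr c) ∧ r' ∈ inc1 σ (Sum.inr c)), w1 σ O τ φ (Sum.inr c) ≤
      98 * (τ : ℝ) / Fintype.card V := by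
    refine (Finset.sum_le_card_nsmul _ _ _ fun c _ => lpair_wO hN hL.h7 c).trans ?_
    rw [nsmul_eq_mul]
    have h1 : ((univ.filter (fun c : V × C =>
      r ∈ inc1 σ (Sum.inr c) ∧ r' ∈ inc1 σ (Sum.inr c))).card : ℝ) ≤ 1 := by
      exact_mod_cast lpair_cardO hL.hd hr
    refine (mul_le_mul_of_nonneg_right h1 (by positivity)).trans (le_of_eq ?_)
    ring
  rw [add_div]
  exact add_le_add hP hO

end Pool.Agent.KZ
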