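import Pool.Agent.Lib_helper96.GNib.G6

/-!
# Wrapper of the weighted nibble (helper96) with linear losses
-/

set_option autoImplicit false

namespace Pool.Agent.KZ

open Finset

/-- weighted nibble: loads `1 ± B N^(-1/5)`, pair weights `≤ B / N`, loss `ε N` -/
theorem nib_wrapK (k : ℕ) (hk : 1 ≤ k) (B : ℕ) (ε : ℝ) (hε : 0 < ε) : ∃ N₀ : ℕ, ∀ N : ℕ, N₀ ≤ N →
    ∀ (V E : Type) [Fintype V] [DecidableEq V] [Fintype E] [DecidableEq E]
    (inc : E → Finset V) (w : E → ℝ) (R : Finset V) (𝒮 : Finset (Finset V)),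
    Fintype.card V ≤ B * N → 𝒮.card ≤ B → (∀ S ∈ 𝒮, S ⊆ R) →
    (∀ e, 0 ≤ w e) → (∀ e, w e ≠ 0 → (inc e).Nonempty ∧ (inc e).card ≤ k) →
    (∀ v, ∑ e ∈ Finset.univ.filter (fun e => v ∈ inc e), w e ≤
      1 + B * (N : ℝ) ^ (-(1 : ℝ) / 5)) →
    (∀ v ∈ R, 1 - B * (N : ℝ) ^ (-(1 : ℝ) / 5) ≤
      ∑ e ∈ Finset.univ.filter (fun e => v ∈ inc e), w e) →
    (∀ u v, u ≠ v → ∑ e ∈ Finset.univ.filter (fun e => u ∈ inc e ∧ v ∈ inc e), w e ≤ B / N) →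
    ∃ D : Finset E, (∀ f ∈ D, w f ≠ 0) ∧
      (∀ f ∈ D, ∀ f' ∈ D, f ≠ f' → Disjoint (inc f) (inc f')) ∧
      ∀ S ∈ 𝒮, ((S \ D.biUnion inc).card : ℝ) ≤ ε * N := by
  obtain ⟨κ, hκ0, hκ1, n₀, hn₀⟩ := Pool.Agent.GNib.gnibble k 1 hk
  -- large N
  have hb0 : (0 : ℝ) < (B : ℝ) + 1 := by positivity
  have h1 : Filter.Tendsto (fun x : ℝ => x ^ (-κ)) Filter.atTop (nhds 0) :=
    tendsto_rpow_neg_atTop hκ0
  have h2 : ∀ᶠ x : ℝ in Filter.atTop, x ^ (-κ) < ε / ((B : ℝ) + 1) :=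
    (h1.eventually (gt_mem_nhds (by positivity)))
  obtain ⟨x₀, hx₀⟩ := Filter.eventually_atTop.1 h2
  obtain ⟨M, hM⟩ := exists_nat_ge x₀
  refine ⟨max (max n₀ M) (max ((B + 1) ^ 11) ((B * (B + 1)) ^ 20 + 1)), ?_⟩
  intro N hN V E _ _ _ _ inc w R 𝒮 hV h𝒮 hSR hw0 hsz hup hlow hpair
  have hN1 : n₀ ≤ N := le_trans (le_trans (le_max_left _ _) (le_max_left _ _)) hN
  have hN2 : M ≤ N := le_trans (le_trans (le_max_right _ _) (le_max_left _ _)) hN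
  have hN3' : (B + 1) ^ 11 ≤ N := le_trans (le_trans (le_max_left _ _) (le_max_right _ _)) hN
  have hN3 : B + 1 ≤ N := (Nat.le_self_pow (by norm_num) _).trans hN3'
  have hN4 : (B * (B + 1)) ^ 20 + 1 ≤ N :=
    le_trans (le_trans (le_max_right _ _) (le_max_right _ _)) hN
  have hNpos : (0 : ℝ) < (N : ℝ) := by
    have : 0 < N := by omega
    exact_mod_cast this
  have hN1r : (1 : ℝ) ≤ (N : ℝ) := by
    have : 1 ≤ N := by omega
    exact_mod_cast this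
  set n : ℕ := (B + 1) * N with hn
  have hnN : N ≤ n := by rw [hn]; nlinarith
  have hnr : (n : ℝ) = ((B : ℝ) + 1) * N := by rw [hn]; push_cast; ring
  have hnpos : (0 : ℝ) < (n : ℝ) := by rw [hnr]; positivity
  -- the power comparison
  have hp1 : (B : ℝ) * (N : ℝ) ^ (-(1 : ℝ) / 5) ≤ (n : ℝ) ^ (-(1 : ℝ) / 10) := by
    have e1 : ((B : ℝ) + 1) * (N : ℝ) ^ (-(1 : ℝ) / 5) =
        ((N : ℝ) ^ (2 : ℕ) / ((B : ℝ) + 1) ^ (10 : ℕ)) ^ (-(1 : ℝ) / 10) := by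
      rw [Real.div_rpow (by positivity) (by positivity), ← Real.rpow_natCast,
        ← Real.rpow_natCast ((B : ℝ) + 1), ← Real.rpow_mul hNpos.le, ← Real.rpow_mul hb0.le]
      norm_num
      rw [Real.rpow_neg_one, div_inv_eq_mul, mul_comm]
    have e0 : (B : ℝ) * (N : ℝ) ^ (-(1 : ℝ) / 5) ≤ ((B : ℝ) + 1) * (N : ℝ) ^ (-(1 : ℝ) / 5) :=
      mul_le_mul_of_nonneg_right (by linarith) (Real.rpow_nonneg hNpos.le _)
    refine e0.trans ?_
    rw [e1]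
    refine Real.rpow_le_rpow_of_nonpos hnpos ?_ (by norm_num)
    rw [hnr, le_div_iff₀ (by positivity)]
    have : ((B : ℝ) + 1) ^ 11 ≤ N := by exact_mod_cast hN3'
    calc ((B : ℝ) + 1) * (N : ℝ) * ((B : ℝ) + 1) ^ 10 = ((B : ℝ) + 1) ^ 11 * (N : ℝ) := by ring
      _ ≤ (N : ℝ) * (N : ℝ) := mul_le_mul_of_nonneg_right this hNpos.le
      _ = (N : ℝ) ^ 2 := by ring
  have hp2 : (B : ℝ) / N ≤ (n : ℝ) ^ ((1 : ℝ) / 20) / n := by
    have e1 : ((B : ℝ) * (B + 1)) ≤ (n : ℝ) ^ ((1 : ℝ) / 20) := by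
      have e2 : ((B : ℝ) * (B + 1)) = ((((B : ℝ) * (B + 1))) ^ (20 : ℕ)) ^ ((1 : ℝ) / 20) := by
        rw [← Real.rpow_natCast, ← Real.rpow_mul (by positivity)]
        norm_num
      rw [e2]
      refine Real.rpow_le_rpow (by positivity) ?_ (by norm_num)
      have e3 : (((B * (B + 1)) ^ 20 : ℕ) : ℝ) ≤ (n : ℝ) := by
        have : (B * (B + 1)) ^ 20 ≤ n := by omega
        exact_mod_cast this
      push_cast at e3
      exact e3
    rw [div_le_div_iff₀ hNpos hnpos, hnr]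
    have : (B : ℝ) * (((B : ℝ) + 1) * N) = ((B : ℝ) * (B + 1)) * N := by ring
    rw [this]
    rw [hnr] at e1
    exact mul_le_mul_of_nonneg_right e1 hNpos.le
  obtain ⟨D, hD1, hD2, hD3⟩ := hn₀ n (hN1.trans hnN) V E inc w R 𝒮
    (by
      rw [pow_one]
      have : Fintype.card V ≤ n := hV.trans (by rw [hn]; nlinarith)
      exact_mod_cast this)
    (by
      rw [pow_one]
      have : 𝒮.card ≤ n := by omega
      exact_mod_cast this)
    (by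
      intro S hS
      refine ⟨hSR S hS, ?_⟩
      have : S.card ≤ n := (Finset.card_le_univ S).trans (hV.trans (by rw [hn]; nlinarith))
      exact_mod_cast this)
    hw0 hsz (fun v => (hup v).trans (by linarith)) (fun v hv => le_trans (by linarith) (hlow v hv))
    (fun u v huv => (hpair u v huv).trans hp2)
  refine ⟨D, hD1, hD2, fun S hS => (hD3 S hS).trans ?_⟩
  have e1 : (n : ℝ) ^ (1 - κ) = (n : ℝ) * (n : ℝ) ^ (-κ) := by
    rw [sub_eq_add_neg, Real.rpow_add hnpos, Real.rpow_one]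
  have e2 : (n : ℝ) ^ (-κ) < ε / ((B : ℝ) + 1) := by
    refine hx₀ _ (hM.trans ?_)
    have : M ≤ n := hN2.trans hnN
    exact_mod_cast this
  rw [e1]
  calc (n : ℝ) * (n : ℝ) ^ (-κ) ≤ (n : ℝ) * (ε / ((B : ℝ) + 1)) :=
        mul_le_mul_of_nonneg_left e2.le hnpos.le
    _ = ε * N := by rw [hnr]; field_simp

end Pool.Agent.KZ
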