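import Pool.Agent.Lib_helper15.KZF.DefsA
import Pool.Agent.Lib_helper15.KZF.DefsN
import Pool.Agent.Lib_helper15.KZF.ED
import Pool.Agent.Lib_helper15.KZF.LC1
import Pool.Agent.Lib_helper15.KZF.LC2
import Pool.Agent.Lib_helper15.KZF.LD
import Pool.Agent.Lib_helper15.KZF.LPAIR
import Pool.Agent.Lib_helper15.KZF.NWK

/-!
# Block NIB1: the first nibble
-/

set_option autoImplicit false

namespace Pool.Agent.KZ

open Finset

/-- block NIB1 -/
theorem nib1_exist (τ : ℕ) (hτ : 2 ≤ τ) (hτ2 : τ % 2 = 0) (ε : ℝ) (hε : 0 < ε) : ∃ N₀ : ℕ,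
    ∀ (V C : Type) [Fintype V] [DecidableEq V] [Fintype C] [DecidableEq C]
      (σ : C → Equiv.Perm V), HD σ → N₀ ≤ Fintype.card V → Fintype.card V ≤ 7 * Fintype.card C →
      ∀ (O : Finset C) (φ : V → ℕ), 2 * O.card ≤ Fintype.card C →
      Phi σ O τ ((Fintype.card V : ℝ) ^ (-(1 : ℝ) / 5)) φ →
      ∃ D1 D2, Nib σ O τ φ D1 D2 ε := by
  classical
  obtain ⟨KR, hKR⟩ := ld_R τ
  obtain ⟨K0, hK0⟩ := ld_Z0 τ
  obtain ⟨K2, hK2⟩ := ld_Z2 τ
  obtain ⟨L0, hL0⟩ := ld_C0 τ
  obtain ⟨L1, hL1⟩ := ld_C1 τ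
  obtain ⟨L2, hL2⟩ := ld_C2 τ
  obtain ⟨KP, hKP⟩ := ld_pair τ
  obtain ⟨B, hB⟩ := exists_nat_ge (|KR| + |K0| + |K2| + |L0| + |L1| + |L2| + |KP| + 10)
  have hBR : KR ≤ B := by
    linarith [le_abs_self KR, abs_nonneg KR, abs_nonneg K0, abs_nonneg K2, abs_nonneg L0,
      abs_nonneg L1, abs_nonneg L2, abs_nonneg KP]
  have hB0 : K0 ≤ B := by
    linarith [le_abs_self K0, abs_nonneg KR, abs_nonneg K0, abs_nonneg K2, abs_nonneg L0,
      abs_nonneg L1, abs_nonneg L2, abs_nonneg KP]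
  have hB2 : K2 ≤ B := by
    linarith [le_abs_self K2, abs_nonneg KR, abs_nonneg K0, abs_nonneg K2, abs_nonneg L0,
      abs_nonneg L1, abs_nonneg L2, abs_nonneg KP]
  have hBL0 : L0 ≤ B := by
    linarith [le_abs_self L0, abs_nonneg KR, abs_nonneg K0, abs_nonneg K2, abs_nonneg L0,
      abs_nonneg L1, abs_nonneg L2, abs_nonneg KP]
  have hBL1 : L1 ≤ B := by
    linarith [le_abs_self L1, abs_nonneg KR, abs_nonneg K0, abs_nonneg K2, abs_nonneg L0,
      abs_nonneg L1, abs_nonneg L2, abs_nonneg KP]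
  have hBL2 : L2 ≤ B := by
    linarith [le_abs_self L2, abs_nonneg KR, abs_nonneg K0, abs_nonneg K2, abs_nonneg L0,
      abs_nonneg L1, abs_nonneg L2, abs_nonneg KP]
  have hBP : KP ≤ B := by
    linarith [le_abs_self KP, abs_nonneg KR, abs_nonneg K0, abs_nonneg K2, abs_nonneg L0,
      abs_nonneg L1, abs_nonneg L2, abs_nonneg KP]
  have hB10 : 10 ≤ B := by
    have : (10 : ℝ) ≤ B := by
      linarith [abs_nonneg KR, abs_nonneg K0, abs_nonneg K2, abs_nonneg L0,
        abs_nonneg L1, abs_nonneg L2, abs_nonneg KP]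
    exact_mod_cast this
  obtain ⟨N₀, hN₀⟩ := nib_wrapK 5 (by norm_num) B ε hε
  refine ⟨max N₀ 1, ?_⟩
  intro V C _ _ _ _ σ hσ hN h7 O φ hO hφ
  have hNa : N₀ ≤ Fintype.card V := (le_max_left _ _).trans hN
  have hN1 : 1 ≤ Fintype.card V := (le_max_right _ _).trans hN
  have hNpos : (0 : ℝ) < (Fintype.card V : ℝ) := by exact_mod_cast hN1
  have hNr1 : (1 : ℝ) ≤ (Fintype.card V : ℝ) := by exact_mod_cast hN1
  obtain ⟨e, he⟩ : ∃ e : ℝ, e = (Fintype.card V : ℝ) ^ (-(1 : ℝ) / 5) := ⟨_, rfl⟩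
  have he0 : 0 ≤ e := by rw [he]; exact Real.rpow_nonneg hNpos.le _
  have he1 : e ≤ 1 := by
    rw [he]
    exact Real.rpow_le_one_of_one_le_of_nonpos hNr1 (by norm_num)
  have heN : 1 / (Fintype.card V : ℝ) ≤ e := by
    rw [he, one_div, ← Real.rpow_neg_one]
    exact Real.rpow_le_rpow_of_exponent_le hNr1 (by norm_num)
  rw [← he] at hφ
  have hL : LHyp σ O τ φ e := ⟨hσ, h7, hO, hτ, hτ2, heN, he1, hφ⟩
  -- the loads
  have hup : ∀ r : Rs V C, ld σ O τ φ r ≤ 1 + B * e := by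
    intro r
    have aux : ∀ K : ℝ, K ≤ B → ∀ x : ℝ, |x - 1| ≤ K * e → x ≤ 1 + B * e := by
      intro K hK x hx
      have h1 := (abs_le.1 hx).2
      have h2 : K * e ≤ B * e := mul_le_mul_of_nonneg_right hK he0
      linarith
    have aux0 : ∀ x : ℝ, x = 0 → x ≤ 1 + B * e := by
      intro x hx
      have : 0 ≤ (B : ℝ) * e := by positivity
      linarith
    rcases r with ⟨a, v⟩ | ⟨a, i⟩
    · fin_cases a
      · by_cases hc : ∃ t, 1 ≤ t ∧ t ≤ τ ∧ φ v = 2 * t - 1
        · exact aux K0 hB0 _ ((hK0 V C σ O φ e hL v).1 hc)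
        · exact aux0 _ ((hK0 V C σ O φ e hL v).2 hc)
      · by_cases hc : ∃ t, 1 ≤ t ∧ t ≤ τ ∧ φ v = 2 * t
        · exact aux KR hBR _ ((hKR V C σ O φ e hL v).1 hc)
        · exact aux0 _ ((hKR V C σ O φ e hL v).2 hc)
      · by_cases hc : ∃ t, 1 ≤ t ∧ t ≤ τ ∧ φ v = 2 * t + 1
        · exact aux K2 hB2 _ ((hK2 V C σ O φ e hL v).1 hc)
        · exact aux0 _ ((hK2 V C σ O φ e hL v).2 hc)
    · fin_cases a
      · by_cases hc : i ∈ O
        · exact aux0 _ ((hL0 V C σ O φ e hL i).2 hc)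
        · exact aux L0 hBL0 _ ((hL0 V C σ O φ e hL i).1 hc)
      · by_cases hc : i ∈ O
        · exact aux0 _ ((hL1 V C σ O φ e hL i).2 hc)
        · exact aux L1 hBL1 _ ((hL1 V C σ O φ e hL i).1 hc)
      · by_cases hc : i ∈ O
        · exact aux L2 hBL2 _ ((hL2 V C σ O φ e hL i).1 hc)
        · exact aux0 _ ((hL2 V C σ O φ e hL i).2 hc)
  -- the required resources
  obtain ⟨S0, hS0⟩ : ∃ S : Finset (Rs V C), S = (univ.filter (fun x : V =>
    ∃ t, 1 ≤ t ∧ t ≤ τ ∧ φ x = 2 * t - 1)).image (fun x => Sum.inl ((0 : Fin 3), x)) := ⟨_, rfl⟩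
  obtain ⟨S1, hS1⟩ : ∃ S : Finset (Rs V C), S = (univ.filter (fun x : V =>
    ∃ t, 1 ≤ t ∧ t ≤ τ ∧ φ x = 2 * t)).image (fun x => Sum.inl ((1 : Fin 3), x)) := ⟨_, rfl⟩
  obtain ⟨T0, hT0⟩ : ∃ S : Finset (Rs V C), S = (univ.filter (fun i : C => i ∉ O)).image
    (fun i => Sum.inr ((0 : Fin 3), i)) := ⟨_, rfl⟩
  obtain ⟨T1, hT1⟩ : ∃ S : Finset (Rs V C), S = (univ.filter (fun i : C => i ∉ O)).image
    (fun i => Sum.inr ((1 : Fin 3), i)) := ⟨_, rfl⟩
  obtain ⟨T2, hT2⟩ : ∃ S : Finset (Rs V C), S = O.image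
    (fun i => Sum.inr ((2 : Fin 3), i)) := ⟨_, rfl⟩
  have hlow : ∀ r ∈ S0 ∪ S1 ∪ T0 ∪ T1 ∪ T2, 1 - B * e ≤ ld σ O τ φ r := by
    intro r hr
    have aux : ∀ K : ℝ, K ≤ B → ∀ x : ℝ, |x - 1| ≤ K * e → 1 - B * e ≤ x := by
      intro K hK x hx
      have h1 := (abs_le.1 hx).1
      have h2 : K * e ≤ B * e := mul_le_mul_of_nonneg_right hK he0
      linarith
    simp only [Finset.mem_union] at hr
    rcases hr with (((hr | hr) | hr) | hr) | hr
    · rw [hS0, Finset.mem_image] at hr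
      obtain ⟨x, hx, rfl⟩ := hr
      rw [Finset.mem_filter] at hx
      exact aux K0 hB0 _ ((hK0 V C σ O φ e hL x).1 hx.2)
    · rw [hS1, Finset.mem_image] at hr
      obtain ⟨x, hx, rfl⟩ := hr
      rw [Finset.mem_filter] at hx
      exact aux KR hBR _ ((hKR V C σ O φ e hL x).1 hx.2)
    · rw [hT0, Finset.mem_image] at hr
      obtain ⟨i, hi, rfl⟩ := hr
      rw [Finset.mem_filter] at hi
      exact aux L0 hBL0 _ ((hL0 V C σ O φ e hL i).1 hi.2)
    · rw [hT1, Finset.mem_image] at hr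
      obtain ⟨i, hi, rfl⟩ := hr
      rw [Finset.mem_filter] at hi
      exact aux L1 hBL1 _ ((hL1 V C σ O φ e hL i).1 hi.2)
    · rw [hT2, Finset.mem_image] at hr
      obtain ⟨i, hi, rfl⟩ := hr
      exact aux L2 hBL2 _ ((hL2 V C σ O φ e hL i).1 hi)
  have hw0 : ∀ c, 0 ≤ w1 σ O τ φ c := by
    rintro (⟨v, p, p'⟩ | ⟨b, i⟩)
    · unfold w1; dsimp only; split_ifs <;> positivity
    · unfold w1; dsimp only; split_ifs <;> positivity
  obtain ⟨D, hD1, hD2, hD3⟩ := hN₀ (Fintype.card V) hNa (Rs V C) (Ce V C) (inc1 σ)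
    (w1 σ O τ φ) (S0 ∪ S1 ∪ T0 ∪ T1 ∪ T2) {S0, S1, T0, T1, T2}
    (by
      have h1 := hd_deg hσ
      rw [Fintype.card_sum, Fintype.card_prod, Fintype.card_prod, Fintype.card_fin]
      nlinarith)
    (Finset.card_le_five.trans (by omega))
    (by
      intro S hS
      simp only [Finset.mem_insert, Finset.mem_singleton] at hS
      intro x hx
      simp only [Finset.mem_union]
      rcases hS with rfl | rfl | rfl | rfl | rfl
      · exact Or.inl (Or.inl (Or.inl (Or.inl hx)))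
      · exact Or.inl (Or.inl (Or.inl (Or.inr hx)))
      · exact Or.inl (Or.inl (Or.inr hx))
      · exact Or.inl (Or.inr hx)
      · exact Or.inr hx)
    hw0
    (by
      rintro (⟨v, p, p'⟩ | ⟨b, i⟩) -
      · refine ⟨⟨Sum.inl (1, v), ?_⟩, ?_⟩
        · simp [inc1]
        · exact Finset.card_le_five
      · refine ⟨⟨Sum.inl (0, b), ?_⟩, ?_⟩
        · simp [inc1]
        · exact Finset.card_le_three.trans (by norm_num))
    (by rw [← he]; exact hup)
    (by rw [← he]; exact hlow)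
    (by
      intro r r' hrr
      refine (hKP V C σ O φ e hL r r' hrr).trans ?_
      exact div_le_div_of_nonneg_right hBP hNpos.le)
  -- properties of the cells
  have hDeq : ∀ c ∈ D, ∀ c' ∈ D, ∀ r, r ∈ inc1 σ c → r ∈ inc1 σ c' → c = c' := by
    intro c hc c' hc' r hr hr'
    by_contra hne
    exact Finset.disjoint_left.1 (hD2 c hc c' hc' hne) hr hr'
  obtain ⟨D1, hD1d⟩ : ∃ D1 : Finset (V × (C × Bool) × (C × Bool)), ∀ x, x ∈ D1 ↔ Sum.inl x ∈ D :=
    ⟨univ.filter (fun x => (Sum.inl x : Ce V C) ∈ D), by intro x; simp⟩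
  obtain ⟨D2, hD2d⟩ : ∃ D2 : Finset (V × C), ∀ x, x ∈ D2 ↔ Sum.inr x ∈ D :=
    ⟨univ.filter (fun x => (Sum.inr x : Ce V C) ∈ D), by intro x; simp⟩
  have hcount : ∀ {ι : Type} [Fintype ι] [DecidableEq ι] (S : Finset (Rs V C))
      (X : Finset ι) (f : ι → Rs V C), S ∈ ({S0, S1, T0, T1, T2} : Finset (Finset (Rs V C))) →
      Function.Injective f → (∀ x ∈ X, f x ∈ S) →
      (∀ x ∈ X, ∀ c ∈ D, f x ∉ inc1 σ c) →
      (X.card : ℝ) ≤ ε * Fintype.card V := by
    intro ι _ _ S X f hS hf h1 h2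
    refine le_trans ?_ (hD3 S hS)
    have h3 : X.card ≤ (S \ D.biUnion (inc1 σ)).card := by
      rw [← Finset.card_image_of_injective _ hf]
      refine Finset.card_le_card ?_
      intro r hr
      rw [Finset.mem_image] at hr
      obtain ⟨x, hx, rfl⟩ := hr
      rw [Finset.mem_sdiff, Finset.mem_biUnion]
      refine ⟨h1 x hx, ?_⟩
      rintro ⟨c, hc, hcx⟩
      exact h2 x hx c hc hcx
    exact_mod_cast h3
  refine ⟨D1, D2, ⟨?_, ?_, ?_, ?_, ?_, ?_, ?_, ?_, ?_, ?_⟩⟩
  · intro v p p' h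
    have h1 := hD1 _ ((hD1d _).1 h)
    by_contra hcon
    exact h1 (by unfold w1; dsimp only; rw [if_neg hcon])
  · intro b i h
    have h1 := hD1 _ ((hD2d _).1 h)
    by_contra hcon
    exact h1 (by unfold w1; dsimp only; rw [if_neg hcon])
  · intro v p p' v1 p1 p1' h h1 hor
    have key : ∀ r, r ∈ inc1 σ (Sum.inl (v, p, p')) → r ∈ inc1 σ (Sum.inl (v1, p1, p1')) →
        (v, p, p') = (v1, p1, p1') := by
      intro r hr hr'
      exact Sum.inl_injective (hDeq _ ((hD1d _).1 h) _ ((hD1d _).1 h1) r hr hr')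
    rcases hor with hor | hor | hor | hor | hor
    · exact key (Sum.inl (1, v)) (by simp [inc1]) (by simp [inc1, hor])
    · exact key (Sum.inl (0, nb σ p v)) (by simp [inc1]) (by simp [inc1, hor])
    · exact key (Sum.inl (2, nb σ p' v)) (by simp [inc1]) (by simp [inc1, hor])
    · exact key (Sum.inr (0, p.1)) (by simp [inc1]) (by simp [inc1, hor])
    · exact key (Sum.inr (1, p'.1)) (by simp [inc1]) (by simp [inc1, hor])
  · intro b i b1 i1 h h1 hor
    have key : ∀ r, r ∈ inc1 σ (Sum.inr (b, i)) → r ∈ inc1 σ (Sum.inr (b1, i1)) →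
        (b, i) = (b1, i1) := by
      intro r hr hr'
      exact Sum.inr_injective (hDeq _ ((hD2d _).1 h) _ ((hD2d _).1 h1) r hr hr')
    rcases hor with hor | hor | hor
    · exact key (Sum.inl (0, b)) (by simp [inc1]) (by simp [inc1, hor])
    · exact key (Sum.inl (2, σ i b)) (by simp [inc1]) (by simp [inc1, hor])
    · exact key (Sum.inr (2, i)) (by simp [inc1]) (by simp [inc1, hor])
  · intro v p p' b i h h1
    have key : ∀ r, r ∈ inc1 σ (Sum.inl (v, p, p')) → r ∈ inc1 σ (Sum.inr (b, i)) → False := by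
      intro r hr hr'
      have := hDeq _ ((hD1d _).1 h) _ ((hD2d _).1 h1) r hr hr'
      exact Sum.inl_ne_inr this
    refine ⟨fun hcon => ?_, fun hcon => ?_⟩
    · exact key (Sum.inl (0, b)) (by simp [inc1, hcon]) (by simp [inc1])
    · exact key (Sum.inl (2, σ i b)) (by simp [inc1, hcon]) (by simp [inc1])
  · refine hcount T0 _ (fun i => Sum.inr (0, i)) (by simp) (fun a b hab => by simpa using hab) ?_ ?_
    · intro i hi
      rw [Finset.mem_filter] at hi
      rw [hT0, Finset.mem_image]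
      exact ⟨i, by simpa using hi.2.1, rfl⟩
    · rintro i hi (⟨v, p, p'⟩ | ⟨b, i'⟩) hc hmem
      · rw [Finset.mem_filter] at hi
        simp only [inc1, Finset.mem_insert, Finset.mem_singleton, reduceCtorEq, false_or,
          Sum.inr.injEq, Prod.mk.injEq, true_and] at hmem
        rcases hmem with hmem | hmem
        · exact hi.2.2 v p p' ((hD1d _).2 hc) hmem.symm
        · exact absurd hmem.1 (by decide)
      · simp [inc1] at hmem
  · refine hcount T1 _ (fun i => Sum.inr (1, i)) (by simp) (fun a b hab => by simpa using hab) ?_ ?_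
    · intro i hi
      rw [Finset.mem_filter] at hi
      rw [hT1, Finset.mem_image]
      exact ⟨i, by simpa using hi.2.1, rfl⟩
    · rintro i hi (⟨v, p, p'⟩ | ⟨b, i'⟩) hc hmem
      · rw [Finset.mem_filter] at hi
        simp only [inc1, Finset.mem_insert, Finset.mem_singleton, reduceCtorEq, false_or,
          Sum.inr.injEq, Prod.mk.injEq, true_and] at hmem
        rcases hmem with hmem | hmem
        · exact absurd hmem.1 (by decide)
        · exact hi.2.2 v p p' ((hD1d _).2 hc) hmem.symm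
      · simp [inc1] at hmem
  · refine hcount T2 _ (fun i => Sum.inr (2, i)) (by simp) (fun a b hab => by simpa using hab) ?_ ?_
    · intro i hi
      rw [Finset.mem_filter] at hi
      rw [hT2, Finset.mem_image]
      exact ⟨i, hi.1, rfl⟩
    · rintro i hi (⟨v, p, p'⟩ | ⟨b, i'⟩) hc hmem
      · simp [inc1] at hmem
      · rw [Finset.mem_filter] at hi
        simp only [inc1, Finset.mem_insert, Finset.mem_singleton, reduceCtorEq, false_or,
          Sum.inr.injEq, Prod.mk.injEq, true_and] at hmem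
        subst hmem
        exact hi.2 b ((hD2d _).2 hc)
  · refine hcount S1 _ (fun v => Sum.inl (1, v)) (by simp) (fun a b hab => by simpa using hab) ?_ ?_
    · intro v hv
      rw [Finset.mem_filter] at hv
      rw [hS1, Finset.mem_image]
      exact ⟨v, by simpa using hv.2.1, rfl⟩
    · rintro x hx (⟨v, p, p'⟩ | ⟨b, i'⟩) hc hmem
      · rw [Finset.mem_filter] at hx
        simp only [inc1, Finset.mem_insert, Finset.mem_singleton, reduceCtorEq, or_false,
          Sum.inl.injEq, Prod.mk.injEq, true_and] at hmem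
        rcases hmem with hmem | hmem | hmem
        · exact absurd hmem.1 (by decide)
        · subst hmem
          exact hx.2.2 p p' ((hD1d _).2 hc)
        · exact absurd hmem.1 (by decide)
      · simp [inc1] at hmem
  · refine hcount S0 _ (fun v => Sum.inl (0, v)) (by simp) (fun a b hab => by simpa using hab) ?_ ?_
    · intro v hv
      rw [Finset.mem_filter] at hv
      rw [hS0, Finset.mem_image]
      exact ⟨v, by simpa using hv.2.1, rfl⟩
    · rintro x hx (⟨v, p, p'⟩ | ⟨b, i'⟩) hc hmem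
      · rw [Finset.mem_filter] at hx
        simp only [inc1, Finset.mem_insert, Finset.mem_singleton, reduceCtorEq, or_false,
          Sum.inl.injEq, Prod.mk.injEq, true_and] at hmem
        rcases hmem with hmem | hmem | hmem
        · exact hx.2.2.1 v p p' ((hD1d _).2 hc) hmem.symm
        · exact absurd hmem.1 (by decide)
        · exact absurd hmem.1 (by decide)
      · rw [Finset.mem_filter] at hx
        simp only [inc1, Finset.mem_insert, Finset.mem_singleton, reduceCtorEq, or_false,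
          Sum.inl.injEq, Prod.mk.injEq, true_and] at hmem
        rcases hmem with hmem | hmem
        · subst hmem
          exact hx.2.2.2 i' ((hD2d _).2 hc)
        · exact absurd hmem.1 (by decide)

end Pool.Agent.KZ
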