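import Pool.Agent.Lib_helper15.KZF.CYC
import Pool.Agent.Lib_helper15.KZF.DefsA
import Pool.Agent.Lib_helper15.KZF.DefsN

/-! # Block OUT1 (uses CYC: cyc_inj, nb_ne, ed_nb) -/

set_option autoImplicit false

namespace Pool.Agent.KZ

open Finset

/-- greedy choice of disjoint triples -/
theorem out1_greedy {ι V : Type} [DecidableEq ι] [DecidableEq V] [Nonempty V]
    (A : ι → Finset V) (f g : ι → V → V) (hf : ∀ d, Function.Injective (f d))
    (hg : ∀ d, Function.Injective (g d)) (m : ℕ) (S : Finset ι) (hm : S.card ≤ m)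
    (hA : ∀ d ∈ S, 9 * m < (A d).card) :
    ∃ x : ι → V, (∀ d ∈ S, x d ∈ A d) ∧ ∀ d ∈ S, ∀ e ∈ S, d ≠ e →
      Disjoint ({f d (x d), x d, g d (x d)} : Finset V) {f e (x e), x e, g e (x e)} := by
  classical
  induction S using Finset.induction_on with
  | empty => exact ⟨fun _ => Classical.arbitrary V, by simp, by simp⟩
  | insert a s ha ih =>
    rw [Finset.card_insert_of_notMem ha] at hm
    obtain ⟨x, hx1, hx2⟩ := ih (by omega) (fun d hd => hA d (Finset.mem_insert_of_mem hd))
    set U : Finset V := s.biUnion fun d => {f d (x d), x d, g d (x d)} with hU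
    have hUc : U.card ≤ s.card * 3 := by
      rw [hU]
      refine Finset.card_biUnion_le_card_mul _ _ _ fun d _ => ?_
      exact Finset.card_le_three
    have hbad : ((A a).filter (fun v => f a v ∈ U ∨ v ∈ U ∨ g a v ∈ U)).card ≤ 3 * U.card := by
      have h1 : (A a).filter (fun v => f a v ∈ U ∨ v ∈ U ∨ g a v ∈ U) ⊆
          (A a).filter (fun v => f a v ∈ U) ∪ ((A a).filter (fun v => v ∈ U) ∪
            (A a).filter (fun v => g a v ∈ U)) := by
        intro v hv
        simp only [Finset.mem_filter, Finset.mem_union] at hv ⊢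
        tauto
      have h2 : ((A a).filter (fun v => f a v ∈ U)).card ≤ U.card :=
        Finset.card_le_card_of_injOn (f a) (fun v hv => by
          have := (Finset.mem_filter.1 hv).2
          exact this) (fun v _ w _ h => hf a h)
      have h3 : ((A a).filter (fun v => v ∈ U)).card ≤ U.card :=
        Finset.card_le_card (fun v hv => (Finset.mem_filter.1 hv).2)
      have h4 : ((A a).filter (fun v => g a v ∈ U)).card ≤ U.card :=
        Finset.card_le_card_of_injOn (g a) (fun v hv => by
          have := (Finset.mem_filter.1 hv).2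
          exact this) (fun v _ w _ h => hg a h)
      have h5 := Finset.card_le_card h1
      have h6 := Finset.card_union_le ((A a).filter (fun v => f a v ∈ U))
        ((A a).filter (fun v => v ∈ U) ∪ (A a).filter (fun v => g a v ∈ U))
      have h7 := Finset.card_union_le ((A a).filter (fun v => v ∈ U))
        ((A a).filter (fun v => g a v ∈ U))
      omega
    have hAa := hA a (Finset.mem_insert_self a s)
    obtain ⟨v, hvA, hv⟩ : ∃ v ∈ A a, ¬ (f a v ∈ U ∨ v ∈ U ∨ g a v ∈ U) := by
      by_contra hcon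
      push Not at hcon
      have h8 : (A a).filter (fun v => f a v ∈ U ∨ v ∈ U ∨ g a v ∈ U) = A a := by
        apply Finset.filter_true_of_mem
        intro v hv
        have := hcon v hv
        tauto
      rw [h8] at hbad
      omega
    push Not at hv
    have hxa : ∀ d ∈ s, Function.update x a v d = x d := by
      intro d hd
      rw [Function.update_of_ne]
      rintro rfl
      exact ha hd
    have hdisj : ∀ d ∈ s, Disjoint ({f a v, v, g a v} : Finset V) {f d (x d), x d, g d (x d)} := by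
      intro d hd
      rw [Finset.disjoint_left]
      intro y hy hy'
      have hyU : y ∈ U := by
        rw [hU, Finset.mem_biUnion]
        exact ⟨d, hd, hy'⟩
      simp only [Finset.mem_insert, Finset.mem_singleton] at hy
      rcases hy with rfl | rfl | rfl
      · exact hv.1 hyU
      · exact hv.2.1 hyU
      · exact hv.2.2 hyU
    refine ⟨Function.update x a v, ?_, ?_⟩
    · intro d hd
      rcases Finset.mem_insert.1 hd with rfl | hd
      · rw [Function.update_self]
        exact hvA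
      · rw [hxa d hd]
        exact hx1 d hd
    · intro d hd e he hde
      rcases Finset.mem_insert.1 hd with hda | hd'
      · rcases Finset.mem_insert.1 he with hea | he'
        · exact absurd (hda.trans hea.symm) hde
        · rw [hda, Function.update_self, hxa e he']
          exact hdisj e he'
      · rcases Finset.mem_insert.1 he with hea | he'
        · rw [hea, Function.update_self, hxa d hd']
          exact (hdisj d hd').symm
        · rw [hxa d hd', hxa e he']
          exact hx2 d hd' e he' hde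

theorem out1_exist (τ : ℕ) (c : ℝ) (hc : 0 < c) : ∃ ε₁ : ℝ, 0 < ε₁ ∧ ∃ N₀ : ℕ,
    ∀ (V C : Type) [Fintype V] [DecidableEq V] [Fintype C] [DecidableEq C]
      (σ : C → Equiv.Perm V), HD σ → N₀ ≤ Fintype.card V →
      ∀ (O : Finset C) (φ : V → ℕ) (D1 : Finset (V × (C × Bool) × (C × Bool)))
        (D2 : Finset (V × C)) (ε ε' : ℝ), 2 * O.card ≤ Fintype.card C →
      c ≤ pcl (Fintype.card V) (Fintype.card C) O.card τ 0 → Phi σ O τ ε' φ → ε' ≤ ε₁ →
      Nib σ O τ φ D1 D2 ε → ε ≤ ε₁ →
      ∃ (z0 z1 u v v' w : C → V) (b : C → V) (ρ : V → ℕ), Out1 σ O z0 z1 u v v' w b ρ ∧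
        (((cvd O u v \ tset φ τ).card + (tset φ τ \ cvd O u v).card : ℕ) : ℝ) ≤
          O.card + 20 * ε * Fintype.card V := by
  classical
  refine ⟨c ^ 3 / 20, by positivity, 0, ?_⟩
  intro V C _ _ _ _ σ hσ _ O φ D1 D2 ε ε' hO hpc hφ hε' hN hε
  have hV3 := hσ.three
  have hVpos : 0 < Fintype.card V := by omega
  have : Nonempty V := Fintype.card_pos_iff.1 hVpos
  set N : ℝ := (Fintype.card V : ℝ) with hNdef
  have hN0 : 0 < N := by rw [hNdef]; exact_mod_cast hVpos
  -- leftovers
  set E0 : Finset C := univ.filter (fun i => i ∉ O ∧ ∀ v p p', (v, p, p') ∈ D1 → p.1 ≠ i) with hE0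
  set E1 : Finset C := univ.filter (fun i => i ∉ O ∧ ∀ v p p', (v, p, p') ∈ D1 → p'.1 ≠ i) with hE1
  set EO : Finset C := O.filter (fun i => ∀ b, (b, i) ∉ D2) with hEO
  have hc0 : (E0.card : ℝ) ≤ ε * N := by
    have := hN.c0
    convert this
  have hc2 : (EO.card : ℝ) ≤ ε * N := by
    have := hN.c2
    convert this
  have mE0 : ∀ i, i ∈ E0 ↔ (i ∉ O ∧ ∀ v p p', (v, p, p') ∈ D1 → p.1 ≠ i) := by
    intro i; simp [hE0]
  have mE1 : ∀ i, i ∈ E1 ↔ (i ∉ O ∧ ∀ v p p', (v, p, p') ∈ D1 → p'.1 ≠ i) := by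
    intro i; simp [hE1]
  have mEO : ∀ i, i ∈ EO ↔ (i ∈ O ∧ ∀ b, (b, i) ∉ D2) := by
    intro i; simp [hEO]
  have hcard0 : E0.card + D1.card = (univ.filter (fun i : C => i ∉ O)).card := by
    have h1 : univ.filter (fun i : C => i ∉ O) = E0 ∪ D1.image (fun c => c.2.1.1) := by
      ext i
      simp only [Finset.mem_filter, Finset.mem_univ, true_and, Finset.mem_union, mE0,
        Finset.mem_image]
      constructor
      · intro hi
        by_cases h : ∀ v p p', (v, p, p') ∈ D1 → p.1 ≠ i
        · exact Or.inl ⟨hi, h⟩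
        · push Not at h
          obtain ⟨v, p, p', h1, h2⟩ := h
          exact Or.inr ⟨(v, p, p'), h1, h2⟩
      · rintro (h | ⟨⟨v, p, p'⟩, h1, rfl⟩)
        · exact h.1
        · exact (hN.ok1 v p p' h1).1
    rw [h1, Finset.card_union_of_disjoint, Finset.card_image_of_injOn]
    · rintro ⟨v, p, p'⟩ h2 ⟨v1, p1, p1'⟩ h3 h4
      exact hN.d1 v p p' v1 p1 p1' h2 h3 (Or.inr (Or.inr (Or.inr (Or.inl h4))))
    · rw [Finset.disjoint_left]
      intro i hi hi'
      rw [Finset.mem_image] at hi'
      obtain ⟨⟨v, p, p'⟩, h2, h3⟩ := hi'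
      exact ((mE0 i).1 hi).2 v p p' h2 h3
  have hcard1 : E1.card + D1.card = (univ.filter (fun i : C => i ∉ O)).card := by
    have h1 : univ.filter (fun i : C => i ∉ O) = E1 ∪ D1.image (fun c => c.2.2.1) := by
      ext i
      simp only [Finset.mem_filter, Finset.mem_univ, true_and, Finset.mem_union, mE1,
        Finset.mem_image]
      constructor
      · intro hi
        by_cases h : ∀ v p p', (v, p, p') ∈ D1 → p'.1 ≠ i
        · exact Or.inl ⟨hi, h⟩
        · push Not at h
          obtain ⟨v, p, p', h1, h2⟩ := h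
          exact Or.inr ⟨(v, p, p'), h1, h2⟩
      · rintro (h | ⟨⟨v, p, p'⟩, h1, rfl⟩)
        · exact h.1
        · exact (hN.ok1 v p p' h1).2.1
    rw [h1, Finset.card_union_of_disjoint, Finset.card_image_of_injOn]
    · rintro ⟨v, p, p'⟩ h2 ⟨v1, p1, p1'⟩ h3 h4
      exact hN.d1 v p p' v1 p1 p1' h2 h3 (Or.inr (Or.inr (Or.inr (Or.inr h4))))
    · rw [Finset.disjoint_left]
      intro i hi hi'
      rw [Finset.mem_image] at hi'
      obtain ⟨⟨v, p, p'⟩, h2, h3⟩ := hi'
      exact ((mE1 i).1 hi).2 v p p' h2 h3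
  have hcardE : E0.card = E1.card := by omega
  -- the matching of the leftovers
  obtain ⟨th, thi, hth, hthi, hthl, hthr⟩ : ∃ th thi : C → C, (∀ i ∈ E0, th i ∈ E1) ∧
      (∀ i ∈ E1, thi i ∈ E0) ∧ (∀ i ∈ E0, thi (th i) = i) ∧ (∀ i ∈ E1, th (thi i) = i) := by
    let e := Finset.equivOfCardEq hcardE
    refine ⟨fun i => if h : i ∈ E0 then (e ⟨i, h⟩ : C) else i,
      fun i => if h : i ∈ E1 then (e.symm ⟨i, h⟩ : C) else i, ?_, ?_, ?_, ?_⟩
    · intro i hi
      simp only [dif_pos hi]
      exact (e ⟨i, hi⟩).2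
    · intro i hi
      simp only [dif_pos hi]
      exact (e.symm ⟨i, hi⟩).2
    · intro i hi
      simp only [dif_pos hi]
      rw [dif_pos (e ⟨i, hi⟩).2]
      simp
    · intro i hi
      simp only [dif_pos hi]
      rw [dif_pos (e.symm ⟨i, hi⟩).2]
      simp
  -- demands
  set S : Finset (Bool × C) := E0.image (fun i => (false, i)) ∪ EO.image (fun i => (true, i))
    with hS
  have hS0 : ∀ i, i ∈ E0 → (false, i) ∈ S := by
    intro i hi
    rw [hS, Finset.mem_union]
    exact Or.inl (Finset.mem_image_of_mem _ hi)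
  have hSO : ∀ i, i ∈ EO → (true, i) ∈ S := by
    intro i hi
    rw [hS, Finset.mem_union]
    exact Or.inr (Finset.mem_image_of_mem _ hi)
  have hScard : S.card ≤ E0.card + EO.card :=
    (Finset.card_union_le _ _).trans (Nat.add_le_add Finset.card_image_le Finset.card_image_le)
  let pr1 : Bool × C → C := fun d => d.2
  let pr2 : Bool × C → C := fun d => if d.1 then d.2 else th d.2
  let A : Bool × C → Finset V := fun d =>
    univ.filter (fun v => φ v = 0 ∧ φ ((σ (pr1 d))⁻¹ v) = 0 ∧ φ (σ (pr2 d) v) = 0)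
  have hAcard : ∀ d ∈ S, 9 * S.card < (A d).card := by
    intro d _
    have h1 := hφ.f3 (pr1 d) (pr2 d)
    have h2 : c ^ 3 ≤ pcl (Fintype.card V) (Fintype.card C) O.card τ 0 ^ 3 :=
      pow_le_pow_left₀ hc.le hpc 3
    have h3 : (S.card : ℝ) ≤ 2 * (ε * N) := by
      have : (S.card : ℝ) ≤ E0.card + EO.card := by exact_mod_cast hScard
      linarith
    have h4 : (((A d).card : ℕ) : ℝ) ≥ N * c ^ 3 - c ^ 3 / 20 * N := by
      have h5 : N * c ^ 3 ≤ N * pcl (Fintype.card V) (Fintype.card C) O.card τ 0 ^ 3 := by gcongr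
      have h6 : ε' * N ≤ c ^ 3 / 20 * N := by gcongr
      calc N * c ^ 3 - c ^ 3 / 20 * N ≤
          N * pcl (Fintype.card V) (Fintype.card C) O.card τ 0 ^ 3 - ε' * N := by linarith
        _ ≤ _ := by
          refine h1.trans (le_of_eq ?_)
          norm_cast
    have h7 : ε * N ≤ c ^ 3 / 20 * N := by gcongr
    have h8 : 0 < c ^ 3 * N := by positivity
    have h9 : 9 * (S.card : ℝ) < ((A d).card : ℝ) := by nlinarith
    exact_mod_cast h9
  obtain ⟨x, hx1, hx2⟩ := out1_greedy A (fun d v => (σ (pr1 d))⁻¹ v) (fun d v => σ (pr2 d) v)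
    (fun d => ((σ (pr1 d))⁻¹).injective) (fun d => (σ (pr2 d)).injective) S.card S le_rfl hAcard
  let U : Bool × C → V := fun d => (σ (pr1 d))⁻¹ (x d)
  let W : Bool × C → V := fun d => σ (pr2 d) (x d)
  have hx0 : ∀ d ∈ S, φ (x d) = 0 ∧ φ (U d) = 0 ∧ φ (W d) = 0 := by
    intro d hd
    have := hx1 d hd
    simp only [A, Finset.mem_filter, Finset.mem_univ, true_and] at this
    exact this
  have hUx : ∀ d, U d ≠ x d := fun d => nb_ne hσ (pr1 d, false) (x d)
  have hWx : ∀ d, W d ≠ x d := fun d => nb_ne hσ (pr2 d, true) (x d)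
  have hUW : ∀ d, U d ≠ W d := by
    intro d h
    by_cases hp : pr1 d = pr2 d
    · have h1 : (σ (pr1 d) ^ 2) (U d) = (σ (pr1 d) ^ 0) (U d) := by
        rw [pow_two, Equiv.Perm.mul_apply, pow_zero, Equiv.Perm.one_apply]
        have h2 : σ (pr1 d) (U d) = x d := by simp [U]
        rw [h2]
        have h3 : W d = σ (pr1 d) (x d) := by simp only [W]; rw [← hp]
        rw [← h3, ← h]
      have := cyc_inj hσ (pr1 d) (U d) (by omega) (by omega) h1
      omega
    · exact (hσ.disj (pr2 d) (pr1 d) (x d) (Ne.symm hp)).2 h.symm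
  -- disjointness of the triples in usable form
  have hdis : ∀ d ∈ S, ∀ e ∈ S, d ≠ e → ∀ y z, (y = U d ∨ y = x d ∨ y = W d) →
      (z = U e ∨ z = x e ∨ z = W e) → y ≠ z := by
    intro d hd e he hde y z hy hz hyz
    have h1 := hx2 d hd e he hde
    rw [Finset.disjoint_left] at h1
    apply h1 (a := y)
    · simp only [Finset.mem_insert, Finset.mem_singleton]
      exact hy
    · rw [hyz]
      simp only [Finset.mem_insert, Finset.mem_singleton]
      exact hz
  -- the assignments
  have HA : ∀ i, ∃ u v z : V, i ∉ O →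
      (∃ p p', (v, p, p') ∈ D1 ∧ p.1 = i ∧ u = nb σ p v ∧ z = es σ p v) ∨
      (i ∈ E0 ∧ u = U (false, i) ∧ v = x (false, i) ∧ z = U (false, i)) := by
    intro i
    by_cases hi : i ∈ O
    · exact ⟨Classical.arbitrary V, Classical.arbitrary V, Classical.arbitrary V,
        fun h => absurd hi h⟩
    by_cases hi0 : i ∈ E0
    · exact ⟨_, _, _, fun _ => Or.inr ⟨hi0, rfl, rfl, rfl⟩⟩
    · rw [mE0] at hi0
      push Not at hi0
      obtain ⟨v, p, p', h1, h2⟩ := hi0 hi
      exact ⟨_, v, _, fun _ => Or.inl ⟨p, p', h1, h2, rfl, rfl⟩⟩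
  have HB : ∀ i, ∃ v w z : V, i ∉ O →
      (∃ p p', (v, p, p') ∈ D1 ∧ p'.1 = i ∧ w = nb σ p' v ∧ z = es σ p' v) ∨
      (i ∈ E1 ∧ v = x (false, thi i) ∧ w = W (false, thi i) ∧ z = x (false, thi i)) := by
    intro i
    by_cases hi : i ∈ O
    · exact ⟨Classical.arbitrary V, Classical.arbitrary V, Classical.arbitrary V,
        fun h => absurd hi h⟩
    by_cases hi0 : i ∈ E1
    · exact ⟨_, _, _, fun _ => Or.inr ⟨hi0, rfl, rfl, rfl⟩⟩
    · rw [mE1] at hi0
      push Not at hi0
      obtain ⟨v, p, p', h1, h2⟩ := hi0 hi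
      exact ⟨v, _, _, fun _ => Or.inl ⟨p, p', h1, h2, rfl, rfl⟩⟩
  have HO : ∀ i, ∃ b : V, i ∈ O → (b, i) ∈ D2 ∨ (i ∈ EO ∧ b = x (true, i)) := by
    intro i
    by_cases hi : i ∈ O
    · by_cases hi0 : i ∈ EO
      · exact ⟨_, fun _ => Or.inr ⟨hi0, rfl⟩⟩
      · rw [mEO] at hi0
        push Not at hi0
        obtain ⟨b, hb⟩ := hi0 hi
        exact ⟨b, fun _ => Or.inl hb⟩
    · exact ⟨Classical.arbitrary V, fun h => absurd h hi⟩
  choose u v z0 hA using HA
  choose v' w z1 hB using HB
  choose b hb using HO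
  let ρ : V → ℕ := fun y => if φ y ≠ 0 then φ y else if ∃ d ∈ S, y = U d then 1 else
    if ∃ d ∈ S, y = x d then 2 else 3
  have hρ0 : ∀ y, φ y ≠ 0 → ρ y = φ y := fun y hy => if_pos hy
  have hρU : ∀ d ∈ S, ρ (U d) = 1 := by
    intro d hd
    simp only [ρ]
    rw [if_neg (by simpa using (hx0 d hd).2.1), if_pos ⟨d, hd, rfl⟩]
  have hρx : ∀ d ∈ S, ρ (x d) = 2 := by
    intro d hd
    simp only [ρ]
    rw [if_neg (by simpa using (hx0 d hd).1), if_neg, if_pos ⟨d, hd, rfl⟩]
    rintro ⟨e, he, h⟩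
    by_cases hde : d = e
    · subst hde
      exact hUx d h.symm
    · exact hdis d hd e he hde _ _ (Or.inr (Or.inl rfl)) (Or.inl rfl) h
  have hρW : ∀ d ∈ S, ρ (W d) = 3 := by
    intro d hd
    simp only [ρ]
    rw [if_neg (by simpa using (hx0 d hd).2.2), if_neg, if_neg]
    · rintro ⟨e, he, h⟩
      by_cases hde : d = e
      · subst hde
        exact hWx d h
      · exact hdis d hd e he hde _ _ (Or.inr (Or.inr rfl)) (Or.inr (Or.inl rfl)) h
    · rintro ⟨e, he, h⟩
      by_cases hde : d = e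
      · subst hde
        exact hUW d h.symm
      · exact hdis d hd e he hde _ _ (Or.inr (Or.inr rfl)) (Or.inl rfl) h
  -- values of `φ`
  have fA : ∀ i, i ∉ O → (∃ t, 1 ≤ t ∧ t ≤ τ ∧ φ (u i) = 2 * t - 1 ∧ φ (v i) = 2 * t ∧
      ∃ p p', (v i, p, p') ∈ D1 ∧ p.1 = i ∧ u i = nb σ p (v i) ∧ z0 i = es σ p (v i)) ∨
      (i ∈ E0 ∧ u i = U (false, i) ∧ v i = x (false, i) ∧ z0 i = U (false, i) ∧ φ (u i) = 0 ∧
        φ (v i) = 0) := by
    intro i hi
    rcases hA i hi with ⟨p, p', h1, h2, h3, h4⟩ | ⟨h1, h2, h3, h4⟩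
    · left
      obtain ⟨_, _, _, t, ht1, ht2, ht3, ht4, ht5⟩ := hN.ok1 _ p p' h1
      exact ⟨t, ht1, ht2, by rw [h3, ht4], ht3, p, p', h1, h2, h3, h4⟩
    · right
      have := hx0 (false, i) (hS0 i h1)
      exact ⟨h1, h2, h3, h4, by rw [h2]; exact this.2.1, by rw [h3]; exact this.1⟩
  have fB : ∀ i, i ∉ O → (∃ t, 1 ≤ t ∧ t ≤ τ ∧ φ (v' i) = 2 * t ∧ φ (w i) = 2 * t + 1 ∧
      ∃ p p', (v' i, p, p') ∈ D1 ∧ p'.1 = i ∧ w i = nb σ p' (v' i) ∧ z1 i = es σ p' (v' i)) ∨
      (i ∈ E1 ∧ v' i = x (false, thi i) ∧ w i = W (false, thi i) ∧ z1 i = x (false, thi i) ∧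
        φ (v' i) = 0 ∧ φ (w i) = 0) := by
    intro i hi
    rcases hB i hi with ⟨p, p', h1, h2, h3, h4⟩ | ⟨h1, h2, h3, h4⟩
    · left
      obtain ⟨_, _, _, t, ht1, ht2, ht3, ht4, ht5⟩ := hN.ok1 _ p p' h1
      exact ⟨t, ht1, ht2, ht3, by rw [h3, ht5], p, p', h1, h2, h3, h4⟩
    · right
      have := hx0 (false, thi i) (hS0 _ (hthi i h1))
      exact ⟨h1, h2, h3, h4, by rw [h2]; exact this.1, by rw [h3]; exact this.2.2⟩
  have fO : ∀ i, i ∈ O → (∃ t, t % 2 = 1 ∧ t ≤ τ ∧ φ (b i) = 2 * t - 1 ∧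
      φ (σ i (b i)) = 2 * t + 1 ∧ (b i, i) ∈ D2) ∨
      (i ∈ EO ∧ b i = x (true, i) ∧ σ i (b i) = W (true, i) ∧ φ (b i) = 0 ∧
        φ (σ i (b i)) = 0) := by
    intro i hi
    rcases hb i hi with h1 | ⟨h1, h2⟩
    · left
      obtain ⟨_, t, ht1, ht2, ht3, ht4⟩ := hN.ok2 _ _ h1
      exact ⟨t, ht1, ht2, ht3, ht4, h1⟩
    · right
      have := hx0 (true, i) (hSO i h1)
      have h3 : σ i (b i) = W (true, i) := by
        rw [h2]
        simp [W, pr2]
      exact ⟨h1, h2, h3, by rw [h2]; exact this.1, by rw [h3]; exact this.2.2⟩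
  have pe0 : ∀ i, i ∉ O → ed σ i (z0 i) = s(u i, v i) := by
    intro i hi
    rcases fA i hi with ⟨t, _, _, _, _, p, p', h1, h2, h3, h4⟩ | ⟨h1, h2, h3, h4, _, _⟩
    · rw [h4, h3, ← h2, ed_nb, Sym2.eq_swap]
    · rw [h4, h2, h3]
      unfold ed
      simp [U, pr1]
  have pe1 : ∀ i, i ∉ O → ed σ i (z1 i) = s(v' i, w i) := by
    intro i hi
    rcases fB i hi with ⟨t, _, _, _, _, p, p', h1, h2, h3, h4⟩ | ⟨h1, h2, h3, h4, _, _⟩
    · rw [h4, h3, ← h2, ed_nb]
    · rw [h4, h2, h3]
      unfold ed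
      simp [W, pr2, hthr i h1]
  refine ⟨z0, z1, u, v, v', w, b, ρ, ?_, ?_⟩
  · constructor
    · exact pe0
    · exact pe1
    · -- ne
      intro i hi hz
      have h1 : s(u i, v i) = s(v' i, w i) := by rw [← pe0 i hi, ← pe1 i hi, hz]
      rw [Sym2.eq_iff] at h1
      rcases fA i hi with ⟨t, t1, t2, t3, t4, _⟩ | ⟨a1, a2, a3, _, a5, a6⟩
      · rcases fB i hi with ⟨s, s1, s2, s3, s4, _⟩ | ⟨b1, b2, b3, _, b5, b6⟩
        · rcases h1 with ⟨h1, h2⟩ | ⟨h1, h2⟩
          · rw [h1] at t3; omega
          · rw [h1] at t3; rw [h2] at t4; omega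
        · rcases h1 with ⟨h1, h2⟩ | ⟨h1, h2⟩
          · rw [h2] at t4; omega
          · rw [h2] at t4; omega
      · rcases fB i hi with ⟨s, s1, s2, s3, s4, _⟩ | ⟨b1, b2, b3, _, b5, b6⟩
        · rcases h1 with ⟨h1, h2⟩ | ⟨h1, h2⟩
          · rw [h1] at a5; omega
          · rw [h1] at a5; omega
        · by_cases hde : i = thi i
          · rw [← hde] at b2 b3
            rcases h1 with ⟨h1, h2⟩ | ⟨h1, h2⟩
            · rw [a2, b2] at h1
              exact hUx _ h1
            · rw [a2, b3] at h1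
              exact hUW _ h1
          · have hne : ((false, i) : Bool × C) ≠ (false, thi i) := by
              simpa using hde
            rcases h1 with ⟨h1, h2⟩ | ⟨h1, h2⟩
            · exact hdis _ (hS0 i a1) _ (hS0 _ (hthi i b1)) hne _ _ (Or.inl a2)
                (Or.inr (Or.inl b2)) h1
            · exact hdis _ (hS0 i a1) _ (hS0 _ (hthi i b1)) hne _ _ (Or.inl a2)
                (Or.inr (Or.inr b3)) h1
    · -- dis0
      intro i hi j hj hij
      rw [Finset.disjoint_left]
      intro y hy hy'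
      simp only [Finset.mem_insert, Finset.mem_singleton] at hy hy'
      rcases fA i hi with ⟨t, t1, t2, t3, t4, p, p', t5, t6, t7, _⟩ | ⟨a1, a2, a3, _, a5, a6⟩
      · rcases fA j hj with ⟨s, s1, s2, s3, s4, q, q', s5, s6, s7, _⟩ | ⟨b1, b2, b3, _, b5, b6⟩
        · rcases hy with rfl | rfl
          · rcases hy' with h | h
            · have := hN.d1 _ _ _ _ _ _ t5 s5 (Or.inr (Or.inl (by rw [← t7, ← s7, h])))
              simp only [Prod.mk.injEq] at this
              exact hij (by rw [← t6, ← s6, this.2.1])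
            · rw [h] at t3; omega
          · rcases hy' with h | h
            · rw [h] at t4; omega
            · have := hN.d1 _ _ _ _ _ _ t5 s5 (Or.inl h)
              simp only [Prod.mk.injEq] at this
              exact hij (by rw [← t6, ← s6, this.2.1])
        · rcases hy with rfl | rfl
          · rcases hy' with h | h
            · rw [h] at t3; omega
            · rw [h] at t3; omega
          · rcases hy' with h | h
            · rw [h] at t4; omega
            · rw [h] at t4; omega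
      · rcases fA j hj with ⟨s, s1, s2, s3, s4, q, q', s5, s6, s7, _⟩ | ⟨b1, b2, b3, _, b5, b6⟩
        · rcases hy with rfl | rfl
          · rcases hy' with h | h
            · rw [h] at a5; omega
            · rw [h] at a5; omega
          · rcases hy' with h | h
            · rw [h] at a6; omega
            · rw [h] at a6; omega
        · have hne : ((false, i) : Bool × C) ≠ (false, j) := by simpa using hij
          refine hdis _ (hS0 i a1) _ (hS0 j b1) hne y y ?_ ?_ rfl
          · rcases hy with h | h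
            · exact Or.inl (h.trans a2)
            · exact Or.inr (Or.inl (h.trans a3))
          · rcases hy' with h | h
            · exact Or.inl (h.trans b2)
            · exact Or.inr (Or.inl (h.trans b3))
    · -- dis1
      intro i hi j hj hij
      rw [Finset.disjoint_left]
      intro y hy hy'
      simp only [Finset.mem_insert, Finset.mem_singleton] at hy hy'
      rcases fB i hi with ⟨t, t1, t2, t3, t4, p, p', t5, t6, t7, _⟩ | ⟨a1, a2, a3, _, a5, a6⟩
      · rcases fB j hj with ⟨s, s1, s2, s3, s4, q, q', s5, s6, s7, _⟩ | ⟨b1, b2, b3, _, b5, b6⟩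
        · rcases hy with rfl | rfl
          · rcases hy' with h | h
            · have := hN.d1 _ _ _ _ _ _ t5 s5 (Or.inl h)
              simp only [Prod.mk.injEq] at this
              exact hij (by rw [← t6, ← s6, this.2.2])
            · rw [h] at t3; omega
          · rcases hy' with h | h
            · rw [h] at t4; omega
            · have := hN.d1 _ _ _ _ _ _ t5 s5 (Or.inr (Or.inr (Or.inl (by rw [← t7, ← s7, h]))))
              simp only [Prod.mk.injEq] at this
              exact hij (by rw [← t6, ← s6, this.2.2])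
        · rcases hy with rfl | rfl
          · rcases hy' with h | h
            · rw [h] at t3; omega
            · rw [h] at t3; omega
          · rcases hy' with h | h
            · rw [h] at t4; omega
            · rw [h] at t4; omega
      · rcases fB j hj with ⟨s, s1, s2, s3, s4, q, q', s5, s6, s7, _⟩ | ⟨b1, b2, b3, _, b5, b6⟩
        · rcases hy with rfl | rfl
          · rcases hy' with h | h
            · rw [h] at a5; omega
            · rw [h] at a5; omega
          · rcases hy' with h | h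
            · rw [h] at a6; omega
            · rw [h] at a6; omega
        · have hne : ((false, thi i) : Bool × C) ≠ (false, thi j) := by
            intro h
            simp only [Prod.mk.injEq, true_and] at h
            exact hij (by rw [← hthr i a1, ← hthr j b1, h])
          refine hdis _ (hS0 _ (hthi i a1)) _ (hS0 _ (hthi j b1)) hne y y ?_ ?_ rfl
          · rcases hy with h | h
            · exact Or.inr (Or.inl (h.trans a2))
            · exact Or.inr (Or.inr (h.trans a3))
          · rcases hy' with h | h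
            · exact Or.inr (Or.inl (h.trans b2))
            · exact Or.inr (Or.inr (h.trans b3))
    · -- b0
      intro i hi j hj
      rcases fO i hi with ⟨t, t1, t2, t3, t4, t5⟩ | ⟨a1, a2, a3, a4, a5⟩
      · rcases fA j hj with ⟨s, s1, s2, s3, s4, q, q', s5, s6, s7, _⟩ | ⟨b1, b2, b3, _, b5, b6⟩
        · refine ⟨fun h => ?_, fun h => ?_⟩
          · exact (hN.d3 _ _ _ _ _ s5 t5).1 (by rw [← s7, h])
          · rw [h] at t3; omega
        · refine ⟨fun h => ?_, fun h => ?_⟩
          · rw [h] at t3; omega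
          · rw [h] at t3; omega
      · rcases fA j hj with ⟨s, s1, s2, s3, s4, q, q', s5, s6, s7, _⟩ | ⟨b1, b2, b3, _, b5, b6⟩
        · refine ⟨fun h => ?_, fun h => ?_⟩
          · rw [h] at a4; omega
          · rw [h] at a4; omega
        · have hne : ((true, i) : Bool × C) ≠ (false, j) := by simp
          exact ⟨hdis _ (hSO i a1) _ (hS0 j b1) hne _ _ (Or.inr (Or.inl a2)) (Or.inl b2),
            hdis _ (hSO i a1) _ (hS0 j b1) hne _ _ (Or.inr (Or.inl a2)) (Or.inr (Or.inl b3))⟩
    · -- c1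
      intro i hi j hj
      rcases fO i hi with ⟨t, t1, t2, t3, t4, t5⟩ | ⟨a1, a2, a3, a4, a5⟩
      · rcases fB j hj with ⟨s, s1, s2, s3, s4, q, q', s5, s6, s7, _⟩ | ⟨b1, b2, b3, _, b5, b6⟩
        · refine ⟨fun h => ?_, fun h => ?_⟩
          · rw [h] at t4; omega
          · exact (hN.d3 _ _ _ _ _ s5 t5).2 (by rw [← s7, h])
        · refine ⟨fun h => ?_, fun h => ?_⟩
          · rw [h] at t4; omega
          · rw [h] at t4; omega
      · rcases fB j hj with ⟨s, s1, s2, s3, s4, q, q', s5, s6, s7, _⟩ | ⟨b1, b2, b3, _, b5, b6⟩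
        · refine ⟨fun h => ?_, fun h => ?_⟩
          · rw [h] at a5; omega
          · rw [h] at a5; omega
        · have hne : ((true, i) : Bool × C) ≠ (false, thi j) := by simp
          exact ⟨hdis _ (hSO i a1) _ (hS0 _ (hthi j b1)) hne _ _ (Or.inr (Or.inr a3))
              (Or.inr (Or.inl b2)),
            hdis _ (hSO i a1) _ (hS0 _ (hthi j b1)) hne _ _ (Or.inr (Or.inr a3))
              (Or.inr (Or.inr b3))⟩
    · -- binj
      intro i hi j hj hij
      rcases fO i hi with ⟨t, t1, t2, t3, t4, t5⟩ | ⟨a1, a2, a3, a4, a5⟩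
      · rcases fO j hj with ⟨s, s1, s2, s3, s4, s5⟩ | ⟨b1, b2, b3, b4, b5⟩
        · have := hN.d2 _ _ _ _ t5 s5 (Or.inl hij)
          simp only [Prod.mk.injEq] at this
          exact this.2
        · rw [hij] at t3; omega
      · rcases fO j hj with ⟨s, s1, s2, s3, s4, s5⟩ | ⟨b1, b2, b3, b4, b5⟩
        · rw [hij] at a4; omega
        · by_contra hne
          exact hdis _ (hSO i a1) _ (hSO j b1) (by simpa using hne) _ _ (Or.inr (Or.inl a2))
            (Or.inr (Or.inl b2)) hij
    · -- cinj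
      intro i hi j hj hij
      rcases fO i hi with ⟨t, t1, t2, t3, t4, t5⟩ | ⟨a1, a2, a3, a4, a5⟩
      · rcases fO j hj with ⟨s, s1, s2, s3, s4, s5⟩ | ⟨b1, b2, b3, b4, b5⟩
        · have := hN.d2 _ _ _ _ t5 s5 (Or.inr (Or.inl hij))
          simp only [Prod.mk.injEq] at this
          exact this.2
        · rw [hij] at t4; omega
      · rcases fO j hj with ⟨s, s1, s2, s3, s4, s5⟩ | ⟨b1, b2, b3, b4, b5⟩
        · rw [hij] at a5; omega
        · by_contra hne
          exact hdis _ (hSO i a1) _ (hSO j b1) (by simpa using hne) _ _ (Or.inr (Or.inr a3))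
            (Or.inr (Or.inr b3)) hij
    · -- bc
      intro i hi j hj hij
      rcases fO i hi with ⟨t, t1, t2, t3, t4, t5⟩ | ⟨a1, a2, a3, a4, a5⟩
      · rcases fO j hj with ⟨s, s1, s2, s3, s4, s5⟩ | ⟨b1, b2, b3, b4, b5⟩
        · rw [hij] at t3; omega
        · rw [hij] at t3; omega
      · rcases fO j hj with ⟨s, s1, s2, s3, s4, s5⟩ | ⟨b1, b2, b3, b4, b5⟩
        · rw [hij] at a4; omega
        · by_cases hne : i = j
          · subst hne
            rw [a2] at hij
            rw [← a2, a3] at hij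
            exact hWx _ (hij.symm.trans a2)
          · exact hdis _ (hSO i a1) _ (hSO j b1) (by simpa using hne) _ _ (Or.inr (Or.inl a2))
              (Or.inr (Or.inr b3)) hij
    · -- vv
      intro i hi
      rcases fA i hi with ⟨t, t1, t2, t3, t4, p, p', t5, t6, t7, _⟩ | ⟨a1, a2, a3, _, a5, a6⟩
      · have hj : p'.1 ∉ O := (hN.ok1 _ _ _ t5).2.1
        refine ⟨p'.1, hj, ?_⟩
        rcases fB p'.1 hj with ⟨s, s1, s2, s3, s4, q, q', s5, s6, s7, _⟩ | ⟨b1, _⟩
        · have := hN.d1 _ _ _ _ _ _ s5 t5 (Or.inr (Or.inr (Or.inr (Or.inr s6))))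
          simp only [Prod.mk.injEq] at this
          exact this.1
        · exact absurd rfl (((mE1 _).1 b1).2 _ _ _ t5)
      · have hj := hth i a1
        have hj' : th i ∉ O := ((mE1 _).1 hj).1
        refine ⟨th i, hj', ?_⟩
        rcases fB (th i) hj' with ⟨s, s1, s2, s3, s4, q, q', s5, s6, s7, _⟩ | ⟨b1, b2, _⟩
        · exact absurd s6 (((mE1 _).1 hj).2 _ _ _ s5)
        · rw [b2, a3, hthl i a1]
    · -- vv'
      intro i hi
      rcases fB i hi with ⟨t, t1, t2, t3, t4, p, p', t5, t6, t7, _⟩ | ⟨a1, a2, a3, _, a5, a6⟩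
      · have hj : p.1 ∉ O := (hN.ok1 _ _ _ t5).1
        refine ⟨p.1, hj, ?_⟩
        rcases fA p.1 hj with ⟨s, s1, s2, s3, s4, q, q', s5, s6, s7, _⟩ | ⟨b1, _⟩
        · have := hN.d1 _ _ _ _ _ _ s5 t5 (Or.inr (Or.inr (Or.inr (Or.inl s6))))
          simp only [Prod.mk.injEq] at this
          exact this.1
        · exact absurd rfl (((mE0 _).1 b1).2 _ _ _ t5)
      · have hj := hthi i a1
        have hj' : thi i ∉ O := ((mE0 _).1 hj).1
        refine ⟨thi i, hj', ?_⟩
        rcases fA (thi i) hj' with ⟨s, s1, s2, s3, s4, q, q', s5, s6, s7, _⟩ | ⟨b1, b2, b3, _⟩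
        · exact absurd s6 (((mE0 _).1 hj).2 _ _ _ s5)
        · rw [b3, a2]
    · -- rho0
      intro i hi
      rcases fA i hi with ⟨t, t1, t2, t3, t4, _⟩ | ⟨a1, a2, a3, _, a5, a6⟩
      · rw [hρ0 _ (by omega), hρ0 _ (by omega)]
        omega
      · rw [a2, a3, hρU _ (hS0 i a1), hρx _ (hS0 i a1)]
        omega
    · -- rho1
      intro i hi
      rcases fB i hi with ⟨t, t1, t2, t3, t4, _⟩ | ⟨a1, a2, a3, _, a5, a6⟩
      · rw [hρ0 _ (by omega), hρ0 _ (by omega)]
        omega
      · rw [a2, a3, hρW _ (hS0 _ (hthi i a1)), hρx _ (hS0 _ (hthi i a1))]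
        omega
    · -- rho2
      intro i hi
      rcases fO i hi with ⟨t, t1, t2, t3, t4, t5⟩ | ⟨a1, a2, a3, a4, a5⟩
      · rw [hρ0 _ (by omega), hρ0 _ (by omega)]
        omega
      · rw [a3, a2, hρW _ (hSO i a1), hρx _ (hSO i a1)]
        omega
  · -- the symmetric difference
    have h1 : (cvd O u v \ tset φ τ).card ≤ 2 * E0.card := by
      have h2 : cvd O u v \ tset φ τ ⊆ E0.image u ∪ E0.image v := by
        intro y hy
        simp only [cvd, tset, Finset.mem_sdiff, Finset.mem_filter, Finset.mem_univ, true_and,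
          not_and, not_le] at hy
        obtain ⟨⟨i, hi, hy1⟩, hy2⟩ := hy
        rcases fA i hi with ⟨t, t1, t2, t3, t4, _⟩ | ⟨a1, _⟩
        · exfalso
          rcases hy1 with rfl | rfl
          · have := hy2 (by omega)
            omega
          · have := hy2 (by omega)
            omega
        · rw [Finset.mem_union]
          rcases hy1 with rfl | rfl
          · exact Or.inl (Finset.mem_image_of_mem _ a1)
          · exact Or.inr (Finset.mem_image_of_mem _ a1)
      have h3 := (Finset.card_le_card h2).trans (Finset.card_union_le _ _)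
      have h4 : (E0.image u).card ≤ E0.card := Finset.card_image_le
      have h5 : (E0.image v).card ≤ E0.card := Finset.card_image_le
      omega
    set RR : Finset V := univ.filter (fun v => (∃ t, 1 ≤ t ∧ t ≤ τ ∧ φ v = 2 * t) ∧
      ∀ p p', (v, p, p') ∉ D1) with hRR
    set ZZ : Finset V := univ.filter (fun x => (∃ t, 1 ≤ t ∧ t ≤ τ ∧ φ x = 2 * t - 1) ∧
      (∀ v p p', (v, p, p') ∈ D1 → nb σ p v ≠ x) ∧ ∀ i, (x, i) ∉ D2) with hZZ
    have hR : (RR.card : ℝ) ≤ ε * N := by
      have := hN.cR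
      convert this
    have hZ : (ZZ.card : ℝ) ≤ ε * N := by
      have := hN.cZ
      convert this
    have h6 : (tset φ τ \ cvd O u v).card ≤ RR.card + ZZ.card + O.card := by
      have h7 : tset φ τ \ cvd O u v ⊆ (RR ∪ ZZ) ∪ O.image b := by
        intro y hy
        simp only [cvd, tset, Finset.mem_sdiff, Finset.mem_filter, Finset.mem_univ, true_and,
          not_exists, not_and] at hy
        obtain ⟨⟨y1, y2⟩, y3⟩ := hy
        rw [Finset.mem_union, Finset.mem_union]
        rcases Nat.even_or_odd (φ y) with he | ho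
        · obtain ⟨t, ht⟩ := he
          left; left
          rw [hRR, Finset.mem_filter]
          refine ⟨Finset.mem_univ _, ⟨t, by omega, by omega, by omega⟩, ?_⟩
          intro p p' hD
          have hi : p.1 ∉ O := (hN.ok1 _ _ _ hD).1
          rcases fA p.1 hi with ⟨s, s1, s2, s3, s4, q, q', s5, s6, s7, _⟩ | ⟨b1, _⟩
          · have := hN.d1 _ _ _ _ _ _ s5 hD (Or.inr (Or.inr (Or.inr (Or.inl s6))))
            simp only [Prod.mk.injEq] at this
            exact y3 p.1 hi (Or.inr this.1.symm)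
          · exact absurd rfl (((mE0 _).1 b1).2 _ _ _ hD)
        · obtain ⟨t, ht⟩ := ho
          by_cases hcell : ∃ v p p', (v, p, p') ∈ D1 ∧ nb σ p v = y
          · exfalso
            obtain ⟨v1, p, p', hD, hnb⟩ := hcell
            have hi : p.1 ∉ O := (hN.ok1 _ _ _ hD).1
            rcases fA p.1 hi with ⟨s, s1, s2, s3, s4, q, q', s5, s6, s7, _⟩ | ⟨b1, _⟩
            · have := hN.d1 _ _ _ _ _ _ s5 hD (Or.inr (Or.inr (Or.inr (Or.inl s6))))
              simp only [Prod.mk.injEq] at this
              refine y3 p.1 hi (Or.inl ?_)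
              rw [s7, this.1, this.2.1, hnb]
            · exact absurd rfl (((mE0 _).1 b1).2 _ _ _ hD)
          · by_cases hb2 : ∃ i, (y, i) ∈ D2
            · right
              obtain ⟨i, hi⟩ := hb2
              have hiO : i ∈ O := (hN.ok2 _ _ hi).1
              rcases fO i hiO with ⟨t, t1, t2, t3, t4, t5⟩ | ⟨a1, _⟩
              · have := hN.d2 _ _ _ _ hi t5 (Or.inr (Or.inr rfl))
                simp only [Prod.mk.injEq] at this
                rw [this.1]
                exact Finset.mem_image_of_mem _ hiO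
              · exact absurd hi (((mEO _).1 a1).2 y)
            · left; right
              rw [hZZ, Finset.mem_filter]
              push Not at hcell hb2
              exact ⟨Finset.mem_univ _, ⟨t + 1, by omega, by omega, by omega⟩, hcell, hb2⟩
      have h8 := Finset.card_le_card h7
      have h9 := Finset.card_union_le (RR ∪ ZZ) (O.image b)
      have h10 := Finset.card_union_le RR ZZ
      have h11 : (O.image b).card ≤ O.card := Finset.card_image_le
      omega
    have h12 : (((cvd O u v \ tset φ τ).card + (tset φ τ \ cvd O u v).card : ℕ) : ℝ) ≤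
        ((2 * E0.card + (RR.card + ZZ.card + O.card) : ℕ) : ℝ) := by
      exact_mod_cast Nat.add_le_add h1 h6
    refine h12.trans ?_
    push_cast
    have h13 : 0 ≤ ε * N := le_trans (Nat.cast_nonneg _) hc0
    linarith

end Pool.Agent.KZ
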