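import Pool.Agent.Lib_helper15.KZF.PR

/-!
# Concentration with the rate `N ^ (-1/5)`
-/

set_option autoImplicit false
set_option linter.unusedSectionVars false

namespace Pool.Agent.KZ

open Finset

/-- **Concentration for polynomially many functions with bounded differences, rate `N^(-1/5)`.** -/
theorem conc5_h56 (c K : ℕ) : ∃ N₀ : ℕ, ∀ (I L : Type) [Fintype I]
    [DecidableEq I] [Fintype L] [Nonempty L] (N : ℕ), N₀ ≤ N → Fintype.card I ≤ N →
    ∀ (T : Type) [Fintype T], Fintype.card T ≤ N ^ K → ∀ (F : T → (I → L) → ℝ),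
      (∀ t, BD (fun _ => (c : ℝ)) (F t)) →
      ∃ ω, ∀ t, |F t ω - avg (F t)| ≤ (N : ℝ) ^ (-(1 : ℝ) / 5) * N := by
  set c' : ℝ := (c : ℝ) + 1 with hc'
  have hc0 : 0 < c' := by positivity
  set b : ℝ := 1 / (2 * c' ^ 2) with hb
  have hb0 : 0 < b := by positivity
  -- exponent: `(b x) ^ (2 K + 2) / (2 K + 2)!` with `x = N ^ (3/5)`
  obtain ⟨N₁, hN₁⟩ := exists_nat_gt (2 * ((2 * K + 5).factorial : ℝ) / b ^ (2 * K + 5))
  refine ⟨N₁ + 1, ?_⟩
  intro I L _ _ _ _ N hN hI T _ hT F hF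
  have hNpos : (0 : ℝ) < N := by
    have : 0 < N := by omega
    exact_mod_cast this
  have hNge1 : (1 : ℝ) ≤ N := by
    have : 1 ≤ N := by omega
    exact_mod_cast this
  have hN1 : (N₁ : ℝ) < N := by
    have : N₁ < N := by omega
    exact_mod_cast this
  have hsq : Real.sqrt N ^ 2 = N := Real.sq_sqrt hNpos.le
  have hsp : 0 < Real.sqrt N := Real.sqrt_pos.2 hNpos
  set ε : ℝ := (N : ℝ) ^ (-(1 : ℝ) / 5) with hεdef
  have hε : 0 < ε := Real.rpow_pos_of_pos hNpos _
  have hε2 : ε ^ 2 * N = (N : ℝ) ^ ((3 : ℝ) / 5) := by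
    rw [hεdef, ← Real.rpow_natCast, ← Real.rpow_mul hNpos.le]
    conv_lhs => rw [← Real.rpow_one (N : ℝ)]
    rw [Real.rpow_one, ← Real.rpow_add_one hNpos.ne']
    norm_num
  have h := exists_good F (fun _ _ => (c : ℝ)) hF (fun _ => c' * Real.sqrt N)
    (fun _ => by positivity) (fun _ => by
      rw [Finset.sum_const, Finset.card_univ, nsmul_eq_mul, mul_pow, hsq, mul_comm]
      have h1 : (c : ℝ) ^ 2 ≤ c' ^ 2 := by
        apply pow_le_pow_left₀ (Nat.cast_nonneg _)
        rw [hc']; linarith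
      have h2 : (Fintype.card I : ℝ) ≤ N := by exact_mod_cast hI
      have h3 : (0 : ℝ) ≤ Fintype.card I := Nat.cast_nonneg _
      nlinarith [sq_nonneg c', sq_nonneg (c : ℝ)])
    (ε * Real.sqrt N / c') (by positivity) (by
      have e1 : (ε * Real.sqrt N / c') ^ 2 / 2 = b * (N : ℝ) ^ ((3 : ℝ) / 5) := by
        rw [← hε2, hb, div_pow, mul_pow, hsq]
        field_simp
      rw [e1]
      set x : ℝ := (N : ℝ) ^ ((3 : ℝ) / 5) with hx0
      have hxpos : 0 < x := Real.rpow_pos_of_pos hNpos _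
      have hx : 0 < b * x := by positivity
      have hexp : (b * x) ^ (2 * K + 5) / ((2 * K + 5).factorial : ℝ) ≤ Real.exp (b * x) :=
        Real.pow_div_factorial_le_exp _ hx.le _
      have hfac : (0 : ℝ) < ((2 * K + 5).factorial : ℝ) := by
        exact_mod_cast Nat.factorial_pos _
      have hT' : (Fintype.card T : ℝ) ≤ (N : ℝ) ^ K := by exact_mod_cast hT
      have hxN : (N : ℝ) ^ (K + 1) ≤ x ^ (2 * K + 5) := by
        rw [hx0, ← Real.rpow_natCast, ← Real.rpow_natCast ((N : ℝ) ^ ((3 : ℝ) / 5)),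
          ← Real.rpow_mul hNpos.le]
        apply Real.rpow_le_rpow_of_exponent_le hNge1
        push_cast
        have : (0 : ℝ) ≤ K := Nat.cast_nonneg _
        linarith
      rw [Real.exp_neg, ← div_eq_mul_inv, div_lt_one (Real.exp_pos _)]
      refine lt_of_le_of_lt (b := 2 * (N : ℝ) ^ K) ?_ (lt_of_lt_of_le ?_ hexp)
      · linarith
      · rw [lt_div_iff₀ hfac, mul_pow]
        have h1 : 2 * ((2 * K + 5).factorial : ℝ) < b ^ (2 * K + 5) * N := by
          have := hN₁.trans hN1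
          rw [div_lt_iff₀ (by positivity)] at this
          linarith
        have h2 : 0 < (N : ℝ) ^ K := by positivity
        have h3 : b ^ (2 * K + 5) * (N : ℝ) ^ (K + 1) ≤ b ^ (2 * K + 5) * x ^ (2 * K + 5) :=
          mul_le_mul_of_nonneg_left hxN (by positivity)
        refine lt_of_lt_of_le ?_ h3
        rw [pow_succ (N : ℝ) K]
        nlinarith)
  obtain ⟨ω, hω⟩ := h
  refine ⟨ω, fun t => (hω t).trans (le_of_eq ?_)⟩
  have : Real.sqrt N * Real.sqrt N = N := Real.mul_self_sqrt hNpos.le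
  field_simp
  rw [pow_two, this]

end Pool.Agent.KZ
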