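import Pool.Agent.Lib_helper15.KZF.DefsA
import Pool.Agent.Lib_helper15.KZF.DefsN
import Pool.Agent.Lib_helper15.KZF.ED
import Pool.Agent.Lib_helper15.KZF.NB
import Pool.Agent.Lib_helper15.KZF.PR5

/-!
# Block PHI: random classes
-/

set_option autoImplicit false

namespace Pool.Agent.KZ

open Finset

/-! ### labels with prescribed class sizes -/

/-- sizes of the classes -/
def phiSz (N n o τ k : ℕ) : ℕ :=
  if k = 0 then τ * N + τ * o - (2 * τ + 1) * n
  else if k % 4 = 2 then n - 2 * o else n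

lemma phi_labels (s : ℕ → ℕ) (K M : ℕ) (h : ∑ k ∈ range (K + 1), s k = M) :
    ∃ f : Fin M → ℕ, (∀ l, f l ≤ K) ∧ ∀ k ≤ K, (univ.filter (fun l => f l = k)).card = s k := by
  classical
  have hcard : Fintype.card (Fin M) = Fintype.card (Σ k : Fin (K + 1), Fin (s k)) := by
    rw [Fintype.card_sigma, Fintype.card_fin, ← h, Finset.sum_range]
    simp
  obtain ⟨e⟩ := Fintype.card_eq.1 hcard
  refine ⟨fun l => ((e l).1 : ℕ), fun l => Nat.lt_succ_iff.1 (e l).1.2, fun k hk => ?_⟩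
  have h1 : (univ.filter (fun l => ((e l).1 : ℕ) = k)).card =
      (univ.filter (fun x : (Σ k : Fin (K + 1), Fin (s k)) => (x.1 : ℕ) = k)).card := by
    refine Finset.card_bij (fun l _ => e l) ?_ ?_ ?_
    · intro l hl
      rw [Finset.mem_filter] at hl ⊢
      exact ⟨Finset.mem_univ _, hl.2⟩
    · intro a _ b _ hab
      exact e.injective hab
    · intro x hx
      rw [Finset.mem_filter] at hx
      exact ⟨e.symm x, by rw [Finset.mem_filter]; simpa using hx.2, by simp⟩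
  rw [h1]
  have h2 : (univ.filter (fun x : (Σ k : Fin (K + 1), Fin (s k)) => (x.1 : ℕ) = k)).card =
      (univ : Finset (Fin (s ((⟨k, Nat.lt_succ_iff.2 hk⟩ : Fin (K + 1)) : ℕ)))).card := by
    symm
    refine Finset.card_bij (fun a _ => (⟨⟨k, Nat.lt_succ_iff.2 hk⟩, a⟩ :
      (Σ k : Fin (K + 1), Fin (s k)))) ?_ ?_ ?_
    · intro a _
      rw [Finset.mem_filter]
      exact ⟨Finset.mem_univ _, rfl⟩
    · intro a _ b _ hab
      simpa using hab
    · rintro ⟨⟨k', hk'⟩, a⟩ hx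
      rw [Finset.mem_filter] at hx
      have : k' = k := hx.2
      subst this
      exact ⟨a, Finset.mem_univ _, rfl⟩
  rw [h2, Finset.card_univ, Fintype.card_fin]

lemma phi_sum (n o m : ℕ) (ho : 2 * o ≤ n) :
    ∑ k ∈ range (4 * m + 2), (if k = 0 then 0 else if k % 4 = 2 then n - 2 * o else n) + 2 * m * o
      = (4 * m + 1) * n := by
  induction m with
  | zero => simp [Finset.sum_range_succ]
  | succ m ih =>
    have e : 4 * (m + 1) + 2 = 4 * m + 2 + 1 + 1 + 1 + 1 := by ring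
    rw [e, Finset.sum_range_succ, Finset.sum_range_succ, Finset.sum_range_succ,
      Finset.sum_range_succ]
    have e1 : (4 * m + 2) % 4 = 2 := by omega
    have e2 : ¬ ((4 * m + 2 + 1) % 4 = 2) := by omega
    have e3 : ¬ ((4 * m + 2 + 1 + 1) % 4 = 2) := by omega
    have e4 : ¬ ((4 * m + 2 + 1 + 1 + 1) % 4 = 2) := by omega
    rw [if_neg (by omega), if_pos e1, if_neg (by omega), if_neg e2, if_neg (by omega), if_neg e3,
      if_neg (by omega), if_neg e4]
    have h5 : (4 * (m + 1) + 1) * n = (4 * m + 1) * n + 4 * n := by ring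
    have h6 : 2 * (m + 1) * o = 2 * m * o + 2 * o := by ring
    omega

lemma phi_sum' (N n o τ : ℕ) (hτ : 1 ≤ τ) (hτ2 : τ % 2 = 0) (ho : 2 * o ≤ n)
    (h : (2 * τ + 1) * n ≤ τ * N + τ * o) :
    ∑ k ∈ range (2 * τ + 1 + 1), phiSz N n o τ k = τ * N := by
  obtain ⟨m, rfl⟩ : ∃ m, τ = 2 * m := ⟨τ / 2, by omega⟩
  have h1 := phi_sum n o m ho
  have e : 2 * (2 * m) + 1 + 1 = 4 * m + 1 + 1 := by ring
  rw [e, Finset.sum_range_succ'] 
  rw [show 4 * m + 2 = 4 * m + 1 + 1 by ring, Finset.sum_range_succ'] at h1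
  have h2 : ∑ k ∈ range (4 * m + 1), phiSz N n o (2 * m) (k + 1) =
      ∑ k ∈ range (4 * m + 1), (if k + 1 = 0 then 0 else if (k + 1) % 4 = 2 then n - 2 * o
        else n) := by
    refine Finset.sum_congr rfl fun k _ => ?_
    unfold phiSz
    have h0 : ¬ (k + 1 = 0) := by omega
    rw [if_neg h0, if_neg h0]
  rw [h2]
  rw [if_pos rfl, add_zero] at h1
  have h3 : phiSz N n o (2 * m) 0 = 2 * m * N + 2 * m * o - (2 * (2 * m) + 1) * n := by
    unfold phiSz; rw [if_pos rfl]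
  rw [h3]
  have h4 : (2 * (2 * m) + 1) * n = (4 * m + 1) * n := by ring
  rw [h4] at h ⊢
  omega

lemma phi_pcl (N n o τ k : ℕ) (hN : 0 < N) (hτ : 1 ≤ τ) (ho : 2 * o ≤ n)
    (h : (2 * τ + 1) * n ≤ τ * N + τ * o) (hk : k ≤ 2 * τ + 1) :
    (phiSz N n o τ k : ℝ) / ((τ * N : ℕ) : ℝ) = pcl N n o τ k := by
  have hpos : (0 : ℝ) < (τ : ℝ) * N := by
    have h1 : (0 : ℝ) < τ := by exact_mod_cast hτ
    have h2 : (0 : ℝ) < N := by exact_mod_cast hN
    positivity
  unfold phiSz pcl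
  by_cases h0 : k = 0
  · rw [if_pos h0, if_pos h0, Nat.cast_sub h]
    push_cast
    rw [div_eq_iff hpos.ne', sub_mul, div_mul_cancel₀ _ hpos.ne']
    ring
  · have h9 : ¬ (2 * τ + 1 < k) := by omega
    rw [if_neg h0, if_neg h0, if_neg h9]
    by_cases h2 : k % 4 = 2
    · rw [if_pos h2, if_pos h2, Nat.cast_sub ho]
      push_cast
      ring
    · rw [if_neg h2, if_neg h2]
      push_cast
      ring

/-! ### statistics -/

section
variable {ι V L : Type} [Fintype V] [DecidableEq V] [Fintype L] [Nonempty L]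

open Classical in
/-- a statistic depending on at most three coordinates per item -/
noncomputable def phst (S : Finset ι) (f1 f2 f3 : ι → V) (P : L → L → L → Prop) (ω : V → L) : ℝ :=
  ((S.filter (fun s => P (ω (f1 s)) (ω (f2 s)) (ω (f3 s)))).card : ℝ)

lemma phst_bd (S : Finset ι) (f1 f2 f3 : ι → V) (P : L → L → L → Prop)
    (h1 : ∀ s ∈ S, ∀ s' ∈ S, f1 s = f1 s' → s = s')
    (h2 : ∀ s ∈ S, ∀ s' ∈ S, f2 s = f2 s' → s = s')
    (h3 : ∀ s ∈ S, ∀ s' ∈ S, f3 s = f3 s' → s = s') :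
    BD (fun _ => ((3 : ℕ) : ℝ)) (phst S f1 f2 f3 P) := by
  classical
  unfold phst
  refine bd_count_h56 S (fun s ω => P (ω (f1 s)) (ω (f2 s)) (ω (f3 s)))
    (fun a s => f1 s = a ∨ f2 s = a ∨ f3 s = a) ?_ 3 ?_
  · intro s _ ω a l hns
    push Not at hns
    rw [Function.update_of_ne hns.1, Function.update_of_ne hns.2.1, Function.update_of_ne hns.2.2]
  · intro a
    have key : ∀ f : ι → V, (∀ s ∈ S, ∀ s' ∈ S, f s = f s' → s = s') →
        (S.filter (fun s => f s = a)).card ≤ 1 := by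
      intro f hf
      rw [Finset.card_le_one]
      intro s hs s' hs'
      rw [Finset.mem_filter] at hs hs'
      exact hf s hs.1 s' hs'.1 (hs.2.trans hs'.2.symm)
    have hsub : S.filter (fun s => f1 s = a ∨ f2 s = a ∨ f3 s = a) ⊆
        (S.filter (fun s => f1 s = a) ∪ S.filter (fun s => f2 s = a)) ∪
          S.filter (fun s => f3 s = a) := by
      intro s hs
      simp only [Finset.mem_filter, Finset.mem_union] at hs ⊢
      tauto
    refine (Finset.card_le_card hsub).trans ((Finset.card_union_le _ _).trans ?_)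
    have h4 := (Finset.card_union_le (S.filter (fun s => f1 s = a)) (S.filter (fun s => f2 s = a)))
    have h5 := key f1 h1
    have h6 := key f2 h2
    have h7 := key f3 h3
    omega

lemma phst_avg (S : Finset ι) (f1 f2 f3 : ι → V) (P : L → L → L → Prop) (c : ℝ)
    (h : ∀ s ∈ S, prb_h56 (fun ω : V → L => P (ω (f1 s)) (ω (f2 s)) (ω (f3 s))) = c) :
    avg (phst S f1 f2 f3 P) = S.card * c := by
  classical
  have h1 := avg_count_h56 S (fun s (ω : V → L) => P (ω (f1 s)) (ω (f2 s)) (ω (f3 s)))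
  have e : avg (phst S f1 f2 f3 P) =
      avg (fun ω : V → L => ((S.filter (fun s => P (ω (f1 s)) (ω (f2 s)) (ω (f3 s)))).card : ℝ)) :=
    rfl
  rw [e, h1, Finset.sum_congr rfl h, Finset.sum_const, nsmul_eq_mul]

omit [Fintype V] [DecidableEq V] [Fintype L] [Nonempty L] in
lemma phst_eq (S : Finset ι) (f1 f2 f3 : ι → V) (P : L → L → L → Prop) (ω : V → L)
    (X : Finset ι) (hX : ∀ s, s ∈ X ↔ s ∈ S ∧ P (ω (f1 s)) (ω (f2 s)) (ω (f3 s))) :
    phst S f1 f2 f3 P ω = X.card := by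
  classical
  unfold phst
  congr 2
  ext s
  rw [Finset.mem_filter, hX]

end

section
variable {V C : Type} [Fintype V] [DecidableEq V] [Fintype C] [DecidableEq C]

lemma phi_card1 (O : Finset C) :
    (((univ : Finset (C × Bool)).filter (fun p => p.1 ∉ O)).card : ℝ) =
      2 * ((Fintype.card C : ℝ) - O.card) := by
  have h1 : (univ : Finset (C × Bool)).filter (fun p => p.1 ∉ O) = (univ \ O) ×ˢ univ := by
    ext p; simp
  have h2 : (univ \ O).card + O.card = Fintype.card C := by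
    rw [Finset.card_sdiff_add_card_eq_card (Finset.subset_univ O), Finset.card_univ]
  rw [h1, Finset.card_product, Finset.card_univ, Fintype.card_bool]
  have h3 : ((univ \ O).card : ℝ) + O.card = Fintype.card C := by exact_mod_cast h2
  push_cast
  linarith

omit [DecidableEq C] in
lemma phi_card2 (cl : C → Fin 3) (k : Fin 3) :
    (((univ : Finset (C × Bool)).filter (fun p => cl p.1 = k)).card : ℝ) =
      2 * ((univ.filter (fun i => cl i = k)).card : ℝ) := by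
  have h1 : (univ : Finset (C × Bool)).filter (fun p => cl p.1 = k) =
      (univ.filter (fun i => cl i = k)) ×ˢ univ := by
    ext p; simp
  rw [h1, Finset.card_product, Finset.card_univ, Fintype.card_bool]
  push_cast
  ring

end

/-- block PHI: random classes -/
theorem phi_exist (τ : ℕ) (hτ : 2 ≤ τ) (hτ2 : τ % 2 = 0) : ∃ N₀ : ℕ,
    ∀ (V C : Type) [Fintype V] [DecidableEq V] [Fintype C] [DecidableEq C]
      (σ : C → Equiv.Perm V), HD σ → N₀ ≤ Fintype.card V → Fintype.card V ≤ 7 * Fintype.card C →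
      ∀ (O : Finset C) (cl : C → Fin 3), 2 * O.card ≤ Fintype.card C →
      (2 * τ + 1) * Fintype.card C ≤ τ * Fintype.card V + τ * O.card →
      ∃ φ : V → ℕ, Phi σ O τ ((Fintype.card V : ℝ) ^ (-(1 : ℝ) / 5)) φ ∧
        Reg σ (tset φ τ) ((2 * Fintype.card C - O.card) / Fintype.card V)
          ((Fintype.card V : ℝ) ^ (-(1 : ℝ) / 5)) cl := by
  classical
  obtain ⟨N₀, hN₀⟩ := conc5_h56 3 5
  refine ⟨max N₀ (max (2 * τ + 2) 8), ?_⟩
  intro V C _ _ _ _ σ hσ hN h7 O cl ho hsum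
  obtain ⟨N, hNd⟩ : ∃ N, N = Fintype.card V := ⟨_, rfl⟩
  obtain ⟨n, hnd⟩ : ∃ n, n = Fintype.card C := ⟨_, rfl⟩
  obtain ⟨o, hod⟩ : ∃ o, o = O.card := ⟨_, rfl⟩
  have hNa : N₀ ≤ N := by rw [hNd]; exact (le_max_left _ _).trans hN
  have hNb : 2 * τ + 2 ≤ N := by
    rw [hNd]; exact (le_max_left _ _).trans ((le_max_right _ _).trans hN)
  have hNc : 8 ≤ N := by
    rw [hNd]; exact (le_max_right _ _).trans ((le_max_right _ _).trans hN)
  have hnN : n ≤ N := by
    have := hd_deg hσ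
    rw [← hNd, ← hnd] at this
    omega
  have hN0 : 0 < N := by omega
  have hNr : (0 : ℝ) < N := by exact_mod_cast hN0
  have hτr : (0 : ℝ) < τ := by
    have : 0 < τ := by omega
    exact_mod_cast this
  have hon : o ≤ n := by
    rw [hod, hnd, ← Finset.card_univ]
    exact Finset.card_le_card (Finset.subset_univ _)
  rw [← hnd, ← hod] at ho
  rw [← hNd, ← hnd, ← hod] at hsum
  obtain ⟨kl, hkl1, hkl2⟩ := phi_labels (phiSz N n o τ) (2 * τ + 1) (τ * N)
    (phi_sum' N n o τ (by omega) hτ2 ho hsum)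
  have hLpos : 0 < τ * N := Nat.mul_pos (by omega) hN0
  have : Nonempty (Fin (τ * N)) := ⟨⟨0, hLpos⟩⟩
  -- probabilities
  have p1 : ∀ k ≤ 2 * τ + 1, ∀ a : V,
      prb_h56 (fun ω : V → Fin (τ * N) => kl (ω a) = k) = pcl N n o τ k := by
    intro k hk a
    rw [prb_one_h56 a (fun l => kl l = k), ← phi_pcl N n o τ k hN0 (by omega) ho hsum hk,
      Fintype.card_fin]
    congr 2
    convert hkl2 k hk
  have q1 : ((univ.filter (fun l => 1 ≤ kl l ∧ kl l ≤ 2 * τ)).card : ℝ) / ((τ * N : ℕ) : ℝ) =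
      (2 * n - o) / N := by
    have e1 : (univ.filter (fun l => 1 ≤ kl l ∧ kl l ≤ 2 * τ)).card +
        (univ.filter (fun l => kl l = 0)).card + (univ.filter (fun l => kl l = 2 * τ + 1)).card =
        τ * N := by
      rw [← Finset.card_union_of_disjoint, ← Finset.card_union_of_disjoint]
      · have : (univ.filter (fun l => 1 ≤ kl l ∧ kl l ≤ 2 * τ) ∪ univ.filter (fun l => kl l = 0)) ∪
            univ.filter (fun l => kl l = 2 * τ + 1) = univ := by
          ext l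
          simp only [Finset.mem_union, Finset.mem_filter, Finset.mem_univ, true_and, iff_true]
          have := hkl1 l
          omega
        rw [this, Finset.card_univ, Fintype.card_fin]
      · rw [Finset.disjoint_left]
        intro l h1 h2
        simp only [Finset.mem_union, Finset.mem_filter, Finset.mem_univ, true_and] at h1 h2
        omega
      · rw [Finset.disjoint_left]
        intro l h1 h2
        simp only [Finset.mem_filter, Finset.mem_univ, true_and] at h1 h2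
        omega
    rw [hkl2 0 (by omega), hkl2 (2 * τ + 1) le_rfl] at e1
    have e2 : phiSz N n o τ 0 = τ * N + τ * o - (2 * τ + 1) * n := by
      unfold phiSz; rw [if_pos rfl]
    have e3 : phiSz N n o τ (2 * τ + 1) = n := by
      unfold phiSz
      have h1 : ¬ (2 * τ + 1 = 0) := by omega
      have h2 : ¬ ((2 * τ + 1) % 4 = 2) := by omega
      rw [if_neg h1, if_neg h2]
    rw [e2, e3] at e1
    have e4 : (univ.filter (fun l => 1 ≤ kl l ∧ kl l ≤ 2 * τ)).card + τ * o = 2 * τ * n := by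
      have h1 : (2 * τ + 1) * n = 2 * τ * n + n := by ring
      omega
    have e5 : ((univ.filter (fun l => 1 ≤ kl l ∧ kl l ≤ 2 * τ)).card : ℝ) + τ * o =
        2 * τ * n := by exact_mod_cast e4
    have e6 : ((univ.filter (fun l => 1 ≤ kl l ∧ kl l ≤ 2 * τ)).card : ℝ) =
        τ * (2 * n - o) := by linarith
    rw [e6]
    push_cast
    rw [mul_div_mul_left _ _ hτr.ne']
  have p2 : ∀ a : V, prb_h56 (fun ω : V → Fin (τ * N) => 1 ≤ kl (ω a) ∧ kl (ω a) ≤ 2 * τ) =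
      (2 * n - o) / N := by
    intro a
    rw [prb_one_h56 a (fun l => 1 ≤ kl l ∧ kl l ≤ 2 * τ), ← q1, Fintype.card_fin]
    congr 2
    convert rfl
  have p3 : ∀ k ≤ 2 * τ + 1, ∀ k' ≤ 2 * τ + 1, ∀ a b : V, a ≠ b →
      prb_h56 (fun ω : V → Fin (τ * N) => kl (ω a) = k ∧ kl (ω b) = k') =
        pcl N n o τ k * pcl N n o τ k' := by
    intro k hk k' hk' a b hab
    have h1 := p1 k hk a
    have h2 := p1 k' hk' b
    rw [prb_one_h56 a (fun l => kl l = k)] at h1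
    rw [prb_one_h56 b (fun l => kl l = k')] at h2
    rw [prb_two_h56 hab (fun l => kl l = k) (fun l => kl l = k'), h1, h2]
  have p4 : ∀ a b : V, a ≠ b →
      prb_h56 (fun ω : V → Fin (τ * N) => (1 ≤ kl (ω a) ∧ kl (ω a) ≤ 2 * τ) ∧
        (1 ≤ kl (ω b) ∧ kl (ω b) ≤ 2 * τ)) = ((2 * n - o) / N) ^ 2 := by
    intro a b hab
    have h1 := p2 a
    have h2 := p2 b
    rw [prb_one_h56 a (fun l => 1 ≤ kl l ∧ kl l ≤ 2 * τ)] at h1
    rw [prb_two_h56 hab (fun l => 1 ≤ kl l ∧ kl l ≤ 2 * τ) (fun l => 1 ≤ kl l ∧ kl l ≤ 2 * τ),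
      h1, sq]
  have p5 : ∀ a b c : V, a ≠ b → a ≠ c → b ≠ c →
      prb_h56 (fun ω : V → Fin (τ * N) => kl (ω a) = 0 ∧ kl (ω b) = 0 ∧ kl (ω c) = 0) =
        pcl N n o τ 0 ^ 3 := by
    intro a b c hab hac hbc
    have h1 := p1 0 (by omega) a
    rw [prb_one_h56 a (fun l => kl l = 0)] at h1
    have h2 := prb_all_h56 (L := Fin (τ * N)) ({a, b, c} : Finset V) (fun l => kl l = 0)
    rw [h1, Finset.card_eq_three.2 ⟨a, b, c, hab, hac, hbc, rfl⟩] at h2
    rw [← h2]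
    congr 1
    funext ω
    simp
  -- the statistics
  have hnbi : ∀ (x : V) (p p' : C × Bool), nb σ p x = nb σ p' x → p = p' :=
    fun x p p' h => nb_inj_h56 hσ x h
  obtain ⟨F1, hF1⟩ : ∃ F1 : V × Fin (2 * τ + 2) → (V → Fin (τ * N)) → ℝ, ∀ t, F1 t =
    phst ((univ : Finset (C × Bool)).filter (fun p => p.1 ∉ O))
        (fun p => nb σ p t.1) (fun p => nb σ p t.1) (fun p => nb σ p t.1)
        (fun l _ _ => kl l = t.2) := ⟨_, fun _ => rfl⟩
  have B1 : ∀ t, BD (fun _ => ((3 : ℕ) : ℝ)) (F1 t) := by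
    intro t
    rw [hF1]
    exact phst_bd _ _ _ _ _ (fun _ _ _ _ h => hnbi _ _ _ h) (fun _ _ _ _ h => hnbi _ _ _ h)
        (fun _ _ _ _ h => hnbi _ _ _ h)
  obtain ⟨F2, hF2⟩ : ∃ F2 : V × Fin (2 * τ + 2) × Bool → (V → Fin (τ * N)) → ℝ, ∀ t, F2 t =
    phst O (fun i => nb σ (i, t.2.2) t.1) (fun i => nb σ (i, t.2.2) t.1)
        (fun i => nb σ (i, t.2.2) t.1) (fun l _ _ => kl l = t.2.1) := ⟨_, fun _ => rfl⟩
  have B2 : ∀ t, BD (fun _ => ((3 : ℕ) : ℝ)) (F2 t) := by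
    intro t
    rw [hF2]
    have h0 : ∀ s ∈ O, ∀ s' ∈ O, nb σ (s, t.2.2) t.1 = nb σ (s', t.2.2) t.1 → s = s' :=
        fun s _ s' _ h => (Prod.mk.inj (hnbi _ _ _ h)).1
    exact phst_bd _ _ _ _ _ h0 h0 h0
  obtain ⟨F3, hF3⟩ : ∃ F3 : C × Fin (2 * τ + 2) × Fin (2 * τ + 2) → (V → Fin (τ * N)) → ℝ,
    ∀ t, F3 t = phst (univ : Finset V) (fun x => x) (fun x => σ t.1 x) (fun x => x)
        (fun l l' _ => kl l = t.2.1 ∧ kl l' = t.2.2) := ⟨_, fun _ => rfl⟩
  have B3 : ∀ t, BD (fun _ => ((3 : ℕ) : ℝ)) (F3 t) := by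
    intro t
    rw [hF3]
    exact phst_bd _ _ _ _ _ (fun _ _ _ _ h => h)
        (fun _ _ _ _ h => (σ t.1).injective h) (fun _ _ _ _ h => h)
  obtain ⟨F4, hF4⟩ : ∃ F4 : C × C → (V → Fin (τ * N)) → ℝ, ∀ t, F4 t =
    phst (univ : Finset V) (fun x => x) (fun x => (σ t.1)⁻¹ x)
        (fun x => σ t.2 x) (fun l l' l'' => kl l = 0 ∧ kl l' = 0 ∧ kl l'' = 0) :=
    ⟨_, fun _ => rfl⟩
  have B4 : ∀ t, BD (fun _ => ((3 : ℕ) : ℝ)) (F4 t) := by
    intro t
    rw [hF4]
    exact phst_bd _ _ _ _ _ (fun _ _ _ _ h => h)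
        (fun _ _ _ _ h => (σ t.1)⁻¹.injective h) (fun _ _ _ _ h => (σ t.2).injective h)
  have harc : ∀ (i : C) (x : V) (L : Fin (N + 1)), ∀ s ∈ range (L : ℕ), ∀ s' ∈ range (L : ℕ),
      (σ i ^ s) x = (σ i ^ s') x → s = s' := by
    intro i x L s hs s' hs' h
    have hL : (L : ℕ) ≤ N := Nat.lt_succ_iff.1 L.2
    rw [Finset.mem_range] at hs hs'
    exact nb_arc_inj_h56 hσ i x (by omega) (by omega) h
  obtain ⟨F5, hF5⟩ : ∃ F5 : C × V × Fin (N + 1) → (V → Fin (τ * N)) → ℝ, ∀ t, F5 t =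
    phst (range (t.2.2 : ℕ)) (fun r => (σ t.1 ^ r) t.2.1)
        (fun r => (σ t.1 ^ r) t.2.1) (fun r => (σ t.1 ^ r) t.2.1)
        (fun l _ _ => 1 ≤ kl l ∧ kl l ≤ 2 * τ) := ⟨_, fun _ => rfl⟩
  have B5 : ∀ t, BD (fun _ => ((3 : ℕ) : ℝ)) (F5 t) := by
    intro t
    rw [hF5]
    have h0 := harc t.1 t.2.1 t.2.2
    exact phst_bd _ _ _ _ _ h0 h0 h0
  obtain ⟨F6, hF6⟩ : ∃ F6 : C × V × Fin (N + 1) → (V → Fin (τ * N)) → ℝ, ∀ t, F6 t =
    phst (range (t.2.2 : ℕ)) (fun r => (σ t.1 ^ r) t.2.1)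
        (fun r => (σ t.1 ^ (r + 1)) t.2.1) (fun r => (σ t.1 ^ r) t.2.1)
        (fun l l' _ => (1 ≤ kl l ∧ kl l ≤ 2 * τ) ∧ (1 ≤ kl l' ∧ kl l' ≤ 2 * τ)) :=
    ⟨_, fun _ => rfl⟩
  have B6 : ∀ t, BD (fun _ => ((3 : ℕ) : ℝ)) (F6 t) := by
    intro t
    rw [hF6]
    have h0 := harc t.1 t.2.1 t.2.2
    refine phst_bd _ _ _ _ _ h0 ?_ h0
    intro s hs s' hs' h
    rw [nb_arc_succ_h56, nb_arc_succ_h56] at h
    exact h0 s hs s' hs' ((σ t.1).injective h)
  obtain ⟨F7, hF7⟩ : ∃ F7 : V × Fin 3 → (V → Fin (τ * N)) → ℝ, ∀ t, F7 t =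
    phst ((univ : Finset (C × Bool)).filter (fun p => cl p.1 = t.2))
        (fun p => nb σ p t.1) (fun p => nb σ p t.1) (fun p => nb σ p t.1)
        (fun l _ _ => 1 ≤ kl l ∧ kl l ≤ 2 * τ) := ⟨_, fun _ => rfl⟩
  have B7 : ∀ t, BD (fun _ => ((3 : ℕ) : ℝ)) (F7 t) := by
    intro t
    rw [hF7]
    exact phst_bd _ _ _ _ _ (fun _ _ _ _ h => hnbi _ _ _ h) (fun _ _ _ _ h => hnbi _ _ _ h)
        (fun _ _ _ _ h => hnbi _ _ _ h)
  obtain ⟨F8, hF8⟩ : ∃ F8 : V × V → (V → Fin (τ * N)) → ℝ, ∀ t, F8 t =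
    phst ((univ : Finset V).filter (fun w => dcol σ t.1 w t.2))
        (fun x => x) (fun x => x) (fun x => x)
        (fun l _ _ => 1 ≤ kl l ∧ kl l ≤ 2 * τ) := ⟨_, fun _ => rfl⟩
  have B8 : ∀ t, BD (fun _ => ((3 : ℕ) : ℝ)) (F8 t) := by
    intro t
    rw [hF8]
    exact phst_bd _ _ _ _ _ (fun _ _ _ _ h => h) (fun _ _ _ _ h => h) (fun _ _ _ _ h => h)
  have hBD : ∀ t, BD (fun _ => ((3 : ℕ) : ℝ)) (Sum.elim F1 (Sum.elim F2 (Sum.elim F3
      (Sum.elim F4 (Sum.elim F5 (Sum.elim F6 (Sum.elim F7 F8)))))) t) := by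
    rintro (t | t | t | t | t | t | t | t)
    exacts [B1 t, B2 t, B3 t, B4 t, B5 t, B6 t, B7 t, B8 t]
  obtain ⟨ω, hω⟩ := hN₀ V (Fin (τ * N)) N hNa hNd.ge _ (by
    simp only [Fintype.card_sum, Fintype.card_prod, Fintype.card_fin, Fintype.card_bool]
    rw [← hNd, ← hnd]
    have a1 : N * (2 * τ + 2) ≤ N ^ 4 := by
      calc N * (2 * τ + 2) ≤ N * N := Nat.mul_le_mul_left _ hNb
        _ = N ^ 2 := by ring
        _ ≤ N ^ 4 := Nat.pow_le_pow_right hN0 (by norm_num)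
    have a2 : N * ((2 * τ + 2) * 2) ≤ N ^ 4 := by
      calc N * ((2 * τ + 2) * 2) ≤ N * (N * N) :=
            Nat.mul_le_mul_left _ (Nat.mul_le_mul hNb (by omega))
        _ = N ^ 3 := by ring
        _ ≤ N ^ 4 := Nat.pow_le_pow_right hN0 (by norm_num)
    have a3 : n * ((2 * τ + 2) * (2 * τ + 2)) ≤ N ^ 4 := by
      calc n * ((2 * τ + 2) * (2 * τ + 2)) ≤ N * (N * N) :=
            Nat.mul_le_mul hnN (Nat.mul_le_mul hNb hNb)
        _ = N ^ 3 := by ring
        _ ≤ N ^ 4 := Nat.pow_le_pow_right hN0 (by norm_num)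
    have a4 : n * n ≤ N ^ 4 := by
      calc n * n ≤ N * N := Nat.mul_le_mul hnN hnN
        _ = N ^ 2 := by ring
        _ ≤ N ^ 4 := Nat.pow_le_pow_right hN0 (by norm_num)
    have a5 : n * (N * (N + 1)) ≤ N ^ 4 := by
      calc n * (N * (N + 1)) ≤ N * (N * (N * N)) :=
            Nat.mul_le_mul hnN (Nat.mul_le_mul_left _ (by nlinarith))
        _ = N ^ 4 := by ring
    have a6 : N * 3 ≤ N ^ 4 := by
      calc N * 3 ≤ N * N := Nat.mul_le_mul_left _ (by omega)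
        _ = N ^ 2 := by ring
        _ ≤ N ^ 4 := Nat.pow_le_pow_right hN0 (by norm_num)
    have a7 : N * N ≤ N ^ 4 := by
      calc N * N = N ^ 2 := by ring
        _ ≤ N ^ 4 := Nat.pow_le_pow_right hN0 (by norm_num)
    have a8 : 8 * N ^ 4 ≤ N ^ 5 := by
      calc 8 * N ^ 4 ≤ N * N ^ 4 := Nat.mul_le_mul_right _ hNc
        _ = N ^ 5 := by ring
    omega) _ hBD
  obtain ⟨φ, hφ⟩ : ∃ φ : V → ℕ, ∀ x, φ x = kl (ω x) := ⟨_, fun _ => rfl⟩
  have htset : ∀ x, x ∈ tset φ τ ↔ (1 ≤ kl (ω x) ∧ kl (ω x) ≤ 2 * τ) := by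
    intro x
    unfold tset
    rw [Finset.mem_filter, hφ]
    simp
  have hne1 : ∀ (i : C) (x : V), σ i x ≠ x := fun i x => (hd_ne hσ i x).1
  refine ⟨φ, ⟨?_, ?_, ?_, ?_, ?_⟩, ⟨?_, ?_, ?_, ?_⟩⟩
  · intro x; rw [hφ]; exact hkl1 _
  · intro x k hk
    have h := hω (Sum.inl (x, ⟨k, by omega⟩))
    simp only [Sum.elim_inl, Sum.elim_inr, hF1] at h
    rw [phst_avg _ _ _ _ _ (pcl N n o τ k) (fun p _ => p1 k hk _), phi_card1,
      phst_eq _ _ _ _ _ _ ((univ : Finset (C × Bool)).filter (fun p => p.1 ∉ O ∧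
        φ (nb σ p x) = k)) (by intro p; simp [hφ])] at h
    rw [← hnd, ← hod] at h
    rw [← hNd, ← hnd, ← hod]
    exact h
  · intro x k s hk
    have h := hω (Sum.inr (Sum.inl (x, ⟨k, by omega⟩, s)))
    simp only [Sum.elim_inl, Sum.elim_inr, hF2] at h
    rw [phst_avg _ _ _ _ _ (pcl N n o τ k) (fun p _ => p1 k hk _),
      phst_eq _ _ _ _ _ _ (O.filter (fun i => φ (nb σ (i, s) x) = k))
        (by intro p; simp [hφ])] at h
    rw [← hod] at h
    rw [← hNd, ← hnd, ← hod]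
    exact h
  · intro i k k' hk hk'
    have h := hω (Sum.inr (Sum.inr (Sum.inl (i, ⟨k, by omega⟩, ⟨k', by omega⟩))))
    simp only [Sum.elim_inl, Sum.elim_inr, hF3] at h
    rw [phst_avg _ _ _ _ _ (pcl N n o τ k * pcl N n o τ k')
      (fun x _ => p3 k hk k' hk' x (σ i x) (hne1 i x).symm),
      phst_eq _ _ _ _ _ _ (univ.filter (fun x => φ x = k ∧ φ (σ i x) = k'))
        (by intro p; simp [hφ]), Finset.card_univ, ← hNd, ← mul_assoc] at h
    rw [← hNd, ← hnd, ← hod]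
    exact h
  · intro i i'
    have h := hω (Sum.inr (Sum.inr (Sum.inr (Sum.inl (i, i')))))
    simp only [Sum.elim_inl, Sum.elim_inr, hF4] at h
    have d1 : ∀ x, x ≠ (σ i)⁻¹ x := by
      intro x hcon
      have := congrArg (σ i) hcon
      exact hne1 i x (this.trans (by simp))
    have d2 : ∀ x, (σ i)⁻¹ x ≠ σ i' x := by
      intro x hcon
      by_cases hii : i = i'
      · subst hii
        exact (hd_ne hσ i x).2 hcon.symm
      · exact (hσ.disj i' i x (Ne.symm hii)).2 hcon.symm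
    rw [phst_avg _ _ _ _ _ (pcl N n o τ 0 ^ 3) (fun x _ => p5 x ((σ i)⁻¹ x) (σ i' x) (d1 x)
        (hne1 i' x).symm (d2 x)),
      phst_eq _ _ _ _ _ _ (univ.filter (fun v => φ v = 0 ∧ φ ((σ i)⁻¹ v) = 0 ∧ φ (σ i' v) = 0))
        (by intro p; simp [hφ]), Finset.card_univ, ← hNd] at h
    have h1 := (abs_le.1 h).1
    rw [← hNd, ← hnd, ← hod]
    linarith
  · intro i x L hL
    have h := hω (Sum.inr (Sum.inr (Sum.inr (Sum.inr (Sum.inl (i, x, ⟨L, by omega⟩))))))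
    simp only [Sum.elim_inl, Sum.elim_inr, hF5] at h
    rw [phst_avg _ _ _ _ _ ((2 * n - o) / N) (fun r _ => p2 _),
      phst_eq _ _ _ _ _ _ ((range L).filter (fun r => (σ i ^ r) x ∈ tset φ τ))
        (by intro p; rw [Finset.mem_filter, htset]), Finset.card_range, mul_comm (L : ℝ)] at h
    rw [← hNd, ← hnd, ← hod]
    exact h
  · intro i x L hL
    have h := hω (Sum.inr (Sum.inr (Sum.inr (Sum.inr (Sum.inr (Sum.inl (i, x, ⟨L, by omega⟩)))))))
    simp only [Sum.elim_inl, Sum.elim_inr, hF6] at h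
    rw [phst_avg _ _ _ _ _ (((2 * n - o) / N) ^ 2) (fun r _ => p4 _ _ (by
          rw [nb_arc_succ_h56]; exact (hne1 i _).symm)),
      phst_eq _ _ _ _ _ _ ((range L).filter (fun r => (σ i ^ r) x ∈ tset φ τ ∧
        (σ i ^ (r + 1)) x ∈ tset φ τ))
        (by intro p; rw [Finset.mem_filter, htset, htset]), Finset.card_range,
      mul_comm (L : ℝ)] at h
    rw [← hNd, ← hnd, ← hod]
    exact h
  · intro y k
    have h := hω (Sum.inr (Sum.inr (Sum.inr (Sum.inr (Sum.inr (Sum.inr (Sum.inl (y, k))))))))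
    simp only [Sum.elim_inl, Sum.elim_inr, hF7] at h
    rw [phst_avg _ _ _ _ _ ((2 * n - o) / N) (fun r _ => p2 _),
      phst_eq _ _ _ _ _ _ ((univ : Finset (C × Bool)).filter (fun p => cl p.1 = k ∧
        nb σ p y ∈ tset φ τ))
        (by intro p; rw [Finset.mem_filter, htset, Finset.mem_filter]; simp),
      phi_card2] at h
    rw [← hNd, ← hnd, ← hod]
    have e : 2 * ((univ.filter (fun i => cl i = k)).card : ℝ) * ((2 * n - o) / N) =
        2 * ((2 * n - o) / N) * (univ.filter (fun i => cl i = k)).card := by ring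
    rw [e] at h
    exact h
  · intro x y hxy
    have h := hω (Sum.inr (Sum.inr (Sum.inr (Sum.inr (Sum.inr (Sum.inr (Sum.inr (x, y))))))))
    simp only [Sum.elim_inl, Sum.elim_inr, hF8] at h
    rw [phst_avg _ _ _ _ _ ((2 * n - o) / N) (fun r _ => p2 _),
      phst_eq _ _ _ _ _ _ ((tset φ τ).filter (fun w => dcol σ x w y))
        (by intro p; rw [Finset.mem_filter, htset, Finset.mem_filter]; simp; tauto)] at h
    refine ⟨(tset φ τ).filter (fun w => dcol σ x w y), Finset.filter_subset _ _, ?_, ?_⟩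
    · intro w hw
      rw [Finset.mem_filter] at hw
      exact hw.2
    · have h1 := (abs_le.1 h).1
      have e : cdD σ x y = ((univ : Finset V).filter (fun w => dcol σ x w y)).card := by
        unfold cdD
        congr 1
      rw [← hNd, ← hnd, ← hod, e]
      linarith

end Pool.Agent.KZ
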