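import Pool.Agent.Lib_helper15.KZF.CYC
import Pool.Agent.Lib_helper15.KZF.DefsA
import Pool.Agent.Lib_helper15.KZF.DefsN

set_option autoImplicit false

namespace Pool.Agent.KZ

open Finset

variable {V C : Type} [Fintype V] [DecidableEq V] [Fintype C] [DecidableEq C]

theorem regt_le {ι : Type} [DecidableEq ι] (A : Finset ι) (f : ι → V)
    (hf : Set.InjOn f (A : Set ι)) (S T : Finset V) :
    (A.filter (fun a => f a ∈ S)).card ≤ (A.filter (fun a => f a ∈ T)).card + (S \ T).card := by
  classical
  have h1 : A.filter (fun a => f a ∈ S) ⊆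
      A.filter (fun a => f a ∈ T) ∪ A.filter (fun a => f a ∈ S \ T) := by
    intro a ha
    simp only [mem_filter, mem_union, mem_sdiff] at ha ⊢
    by_cases h : f a ∈ T
    · exact Or.inl ⟨ha.1, h⟩
    · exact Or.inr ⟨ha.1, ha.2, h⟩
  have h2 : (A.filter (fun a => f a ∈ S \ T)).card ≤ (S \ T).card := by
    apply card_le_card_of_injOn f
    · intro a ha
      have := (mem_filter.mp ha).2
      exact this
    · intro a ha b hb hab
      exact hf (mem_filter.mp ha).1 (mem_filter.mp hb).1 hab
  exact (card_le_card h1).trans ((card_union_le _ _).trans (Nat.add_le_add_left h2 _))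

theorem regt_le2 {ι : Type} [DecidableEq ι] (A : Finset ι) (f g : ι → V)
    (hf : Set.InjOn f (A : Set ι)) (hg : Set.InjOn g (A : Set ι)) (S T : Finset V) :
    (A.filter (fun a => f a ∈ S ∧ g a ∈ S)).card ≤
      (A.filter (fun a => f a ∈ T ∧ g a ∈ T)).card + 2 * (S \ T).card := by
  classical
  have h1 : A.filter (fun a => f a ∈ S ∧ g a ∈ S) ⊆
      (A.filter (fun a => f a ∈ T ∧ g a ∈ T) ∪ A.filter (fun a => f a ∈ S \ T)) ∪
        A.filter (fun a => g a ∈ S \ T) := by
    intro a ha
    simp only [mem_filter, mem_union, mem_sdiff] at ha ⊢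
    by_cases h : f a ∈ T
    · by_cases h' : g a ∈ T
      · exact Or.inl (Or.inl ⟨ha.1, h, h'⟩)
      · exact Or.inr ⟨ha.1, ha.2.2, h'⟩
    · exact Or.inl (Or.inr ⟨ha.1, ha.2.1, h⟩)
  have key : ∀ k : ι → V, Set.InjOn k (A : Set ι) →
      (A.filter (fun a => k a ∈ S \ T)).card ≤ (S \ T).card := by
    intro k hk
    apply card_le_card_of_injOn k
    · intro a ha
      exact (mem_filter.mp ha).2
    · intro a ha b hb hab
      exact hk (mem_filter.mp ha).1 (mem_filter.mp hb).1 hab
  have h2 := key f hf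
  have h3 := key g hg
  have h4 := (card_le_card h1).trans (card_union_le _ _)
  have h5 := card_union_le (A.filter (fun a => f a ∈ T ∧ g a ∈ T)) (A.filter (fun a => f a ∈ S \ T))
  omega

theorem reg_transfer {σ : C → Equiv.Perm V} (hσ : HD σ) {O : Finset C} {cl : C → Fin 3}
    {S T : Finset V} {κ κ' ε ε' : ℝ} (hκ : κ' - κ = O.card / Fintype.card V) (h0 : 0 ≤ κ)
    (h1 : κ' ≤ 1) (hST : (((S \ T).card + (T \ S).card : ℕ) : ℝ) ≤ O.card + ε' * Fintype.card V)
    (hε : 0 ≤ ε') (R : Reg σ T κ' ε cl) : Reg σ S κ (ε + 2 * ε' + 4 * O.card / Fintype.card V) cl := by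
  have hN : (0 : ℝ) < Fintype.card V := by
    have := hσ.three
    exact_mod_cast (by omega : 0 < Fintype.card V)
  have ho : (0 : ℝ) ≤ O.card := Nat.cast_nonneg _
  have hexp : (ε + 2 * ε' + 4 * O.card / Fintype.card V) * (Fintype.card V : ℝ) =
      ε * Fintype.card V + 2 * ε' * Fintype.card V + 4 * O.card := by
    field_simp
  have hST' : ((S \ T).card : ℝ) + ((T \ S).card : ℝ) ≤ O.card + ε' * Fintype.card V := by
    have := hST
    push_cast at this
    exact this
  have hs0 : (0 : ℝ) ≤ (S \ T).card := Nat.cast_nonneg _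
  have ht0 : (0 : ℝ) ≤ (T \ S).card := Nat.cast_nonneg _
  have hpow : ∀ (i : C) (x : V) (L : ℕ), L ≤ Fintype.card V →
      Set.InjOn (fun r : ℕ => (σ i ^ r) x) ((range L : Finset ℕ) : Set ℕ) := by
    intro i x L hL r hr s hs h
    have hr' : r < L := by simpa using hr
    have hs' : s < L := by simpa using hs
    exact cyc_inj hσ i x (lt_of_lt_of_le hr' hL) (lt_of_lt_of_le hs' hL) h
  have hpow' : ∀ (i : C) (x : V) (L : ℕ), L ≤ Fintype.card V →
      Set.InjOn (fun r : ℕ => (σ i ^ (r + 1)) x) ((range L : Finset ℕ) : Set ℕ) := by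
    intro i x L hL r hr s hs h
    apply hpow i x L hL hr hs
    have h' : (σ i ^ (r + 1)) x = (σ i ^ (s + 1)) x := h
    rw [pow_succ', pow_succ'] at h'
    exact (σ i).injective h'
  have hLb : ∀ L : ℕ, L ≤ Fintype.card V →
      (O.card : ℝ) / Fintype.card V * L ≤ O.card := by
    intro L hL
    rw [div_mul_eq_mul_div, div_le_iff₀ hN]
    have : (L : ℝ) ≤ Fintype.card V := by exact_mod_cast hL
    exact mul_le_mul_of_nonneg_left this ho
  have hL0 : ∀ L : ℕ, 0 ≤ (O.card : ℝ) / Fintype.card V * L := fun L => by positivity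
  refine ⟨?_, ?_, ?_, ?_⟩
  · intro i x L hL
    have a1 := regt_le (range L) (fun r : ℕ => (σ i ^ r) x) (hpow i x L hL) S T
    have a2 := regt_le (range L) (fun r : ℕ => (σ i ^ r) x) (hpow i x L hL) T S
    have a1' : (((range L).filter (fun r => (σ i ^ r) x ∈ S)).card : ℝ) ≤
      ((range L).filter (fun r => (σ i ^ r) x ∈ T)).card + (S \ T).card := by exact_mod_cast a1
    have a2' : (((range L).filter (fun r => (σ i ^ r) x ∈ T)).card : ℝ) ≤
      ((range L).filter (fun r => (σ i ^ r) x ∈ S)).card + (T \ S).card := by exact_mod_cast a2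
    have a3 := abs_le.mp (R.arc1 i x L hL)
    have a4 : κ' * L - κ * L = O.card / Fintype.card V * L := by rw [← hκ]; ring
    have a5 := hLb L hL
    have a6 := hL0 L
    have a7 : 0 ≤ ε' * Fintype.card V := by positivity
    rw [hexp, abs_le]
    constructor <;> linarith [a3.1, a3.2]
  · intro i x L hL
    have a1 := regt_le2 (range L) (fun r : ℕ => (σ i ^ r) x) (fun r : ℕ => (σ i ^ (r + 1)) x)
      (hpow i x L hL) (hpow' i x L hL) S T
    have a2 := regt_le2 (range L) (fun r : ℕ => (σ i ^ r) x) (fun r : ℕ => (σ i ^ (r + 1)) x)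
      (hpow i x L hL) (hpow' i x L hL) T S
    have a1' : (((range L).filter (fun r => (σ i ^ r) x ∈ S ∧ (σ i ^ (r + 1)) x ∈ S)).card : ℝ) ≤
      ((range L).filter (fun r => (σ i ^ r) x ∈ T ∧ (σ i ^ (r + 1)) x ∈ T)).card +
        2 * (S \ T).card := by exact_mod_cast a1
    have a2' : (((range L).filter (fun r => (σ i ^ r) x ∈ T ∧ (σ i ^ (r + 1)) x ∈ T)).card : ℝ) ≤
      ((range L).filter (fun r => (σ i ^ r) x ∈ S ∧ (σ i ^ (r + 1)) x ∈ S)).card +
        2 * (T \ S).card := by exact_mod_cast a2
    have a3 := abs_le.mp (R.arc2 i x L hL)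
    have a4 : κ' ^ 2 * L - κ ^ 2 * L = (O.card / Fintype.card V * L) * (κ' + κ) := by
      rw [← hκ]; ring
    have a5 := hLb L hL
    have a6 := hL0 L
    have a7 : 0 ≤ ε' * Fintype.card V := by positivity
    have b1 : 0 ≤ (O.card : ℝ) / Fintype.card V := by positivity
    have b2 : κ ≤ κ' := by linarith
    have b3 : 0 ≤ κ' + κ := by linarith
    have b4 : κ' + κ ≤ 2 := by linarith
    have b5 : (O.card / Fintype.card V * L) * (κ' + κ) ≤ 2 * O.card := by
      calc (O.card / Fintype.card V * L) * (κ' + κ) ≤ (O.card : ℝ) * 2 :=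
            mul_le_mul a5 b4 b3 ho
        _ = 2 * O.card := by ring
    have b6 : 0 ≤ ((O.card : ℝ) / Fintype.card V * L) * (κ' + κ) := mul_nonneg a6 b3
    rw [hexp, abs_le]
    constructor <;> linarith [a3.1, a3.2]
  · intro y k
    have hinj : Set.InjOn (fun p : C × Bool => nb σ p y)
        (((univ : Finset (C × Bool)).filter (fun p => cl p.1 = k) : Finset (C × Bool)) :
          Set (C × Bool)) := fun p _ p' _ h => nb_inj hσ y h
    have e1 : ∀ U : Finset V, (univ : Finset (C × Bool)).filter (fun p => cl p.1 = k ∧ nb σ p y ∈ U) =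
        ((univ : Finset (C × Bool)).filter (fun p => cl p.1 = k)).filter
          (fun p => nb σ p y ∈ U) := by
      intro U
      rw [filter_filter]
    have a1 := regt_le _ (fun p : C × Bool => nb σ p y) hinj S T
    have a2 := regt_le _ (fun p : C × Bool => nb σ p y) hinj T S
    rw [← e1, ← e1] at a1 a2
    have a1' : (((univ : Finset (C × Bool)).filter
        (fun p => cl p.1 = k ∧ nb σ p y ∈ S)).card : ℝ) ≤
      ((univ : Finset (C × Bool)).filter (fun p => cl p.1 = k ∧ nb σ p y ∈ T)).card +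
        (S \ T).card := by exact_mod_cast a1
    have a2' : (((univ : Finset (C × Bool)).filter
        (fun p => cl p.1 = k ∧ nb σ p y ∈ T)).card : ℝ) ≤
      ((univ : Finset (C × Bool)).filter (fun p => cl p.1 = k ∧ nb σ p y ∈ S)).card +
        (T \ S).card := by exact_mod_cast a2
    have a3 := abs_le.mp (R.deg y k)
    have c1 : 2 * (univ.filter (fun i => cl i = k)).card ≤ Fintype.card V := by
      have c2 : Fintype.card (C × Bool) ≤ Fintype.card V :=
        Fintype.card_le_of_injective _ (nb_inj hσ y)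
      rw [Fintype.card_prod, Fintype.card_bool] at c2
      have c3 : (univ.filter (fun i => cl i = k)).card ≤ Fintype.card C := card_le_univ _
      omega
    have c4 : (2 : ℝ) * (univ.filter (fun i => cl i = k)).card ≤ Fintype.card V := by
      exact_mod_cast c1
    have a4 : 2 * κ' * (univ.filter (fun i => cl i = k)).card -
        2 * κ * (univ.filter (fun i => cl i = k)).card =
        O.card / Fintype.card V * (2 * (univ.filter (fun i => cl i = k)).card) := by
      rw [← hκ]; ring
    have a5 : (O.card : ℝ) / Fintype.card V * (2 * (univ.filter (fun i => cl i = k)).card) ≤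
        O.card := by
      rw [div_mul_eq_mul_div, div_le_iff₀ hN]
      exact mul_le_mul_of_nonneg_left c4 ho
    have a6 : 0 ≤ (O.card : ℝ) / Fintype.card V * (2 * (univ.filter (fun i => cl i = k)).card) := by
      positivity
    have a7 : 0 ≤ ε' * Fintype.card V := by positivity
    rw [hexp, abs_le]
    constructor <;> linarith [a3.1, a3.2]
  · intro x y hxy
    obtain ⟨T', hT', hd, hc⟩ := R.codeg x y hxy
    refine ⟨T' ∩ S, inter_subset_right, fun w hw => hd w (inter_subset_left hw), ?_⟩
    have d1 : T'.card ≤ (T' ∩ S).card + (T \ S).card := by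
      have d2 : T' ⊆ (T' ∩ S) ∪ (T \ S) := by
        intro w hw
        by_cases h : w ∈ S
        · exact mem_union_left _ (mem_inter.mpr ⟨hw, h⟩)
        · exact mem_union_right _ (mem_sdiff.mpr ⟨hT' hw, h⟩)
      exact (card_le_card d2).trans (card_union_le _ _)
    have d1' : (T'.card : ℝ) ≤ (T' ∩ S).card + (T \ S).card := by exact_mod_cast d1
    have a4 : κ' * cdD σ x y - κ * cdD σ x y = O.card / Fintype.card V * cdD σ x y := by
      rw [← hκ]; ring
    have a6 : 0 ≤ (O.card : ℝ) / Fintype.card V * cdD σ x y := by positivity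
    have a7 : 0 ≤ ε' * Fintype.card V := by positivity
    rw [hexp]
    linarith

end Pool.Agent.KZ
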