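import Pool.Agent.Lib_helper15.KZF.DefsA
import Pool.Agent.Lib_helper15.KZF.DefsN
import Pool.Agent.Lib_helper15.KZF.ED
import Pool.Agent.Lib_helper15.KZF.NIB1
import Pool.Agent.Lib_helper15.KZF.OUT1
import Pool.Agent.Lib_helper15.KZF.PHI
import Pool.Agent.Lib_helper15.KZF.REGT
import Pool.Agent.Lib_helper15.KZF.SML

/-!
# Stage 1 from the blocks
-/

set_option autoImplicit false

namespace Pool.Agent.KZ

open Finset

theorem stage1_rpow (ε : ℝ) (hε : 0 < ε) : ∃ N₀ : ℕ, ∀ N : ℕ, N₀ ≤ N →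
    (N : ℝ) ^ (-(1 : ℝ) / 5) ≤ ε := by
  have h1 : Filter.Tendsto (fun x : ℝ => x ^ (-((1 : ℝ) / 5))) Filter.atTop (nhds 0) :=
    tendsto_rpow_neg_atTop (by norm_num)
  have h2 : Filter.Tendsto (fun N : ℕ => (N : ℝ) ^ (-((1 : ℝ) / 5))) Filter.atTop (nhds 0) :=
    h1.comp tendsto_natCast_atTop_atTop
  have h3 := (h2.eventually (gt_mem_nhds hε))
  obtain ⟨N₀, h4⟩ := Filter.eventually_atTop.1 h3
  refine ⟨N₀, fun N hN => ?_⟩
  have h5 := h4 N hN
  rw [neg_div]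
  exact h5.le

theorem stage1 (c ε : ℝ) (hc : 0 < c) (hε : 0 < ε) : ∃ N₀ : ℕ,
    ∀ (V C : Type) [Fintype V] [DecidableEq V] [Fintype C] [DecidableEq C]
      (σ : C → Equiv.Perm V), HD σ → N₀ ≤ Fintype.card V → Fintype.card V ≤ 7 * Fintype.card C →
      ∀ (O : Finset C) (cl : C → Fin 3), (O.card : ℝ) ≤ Fintype.card C / 2 →
      2 * (Fintype.card C : ℝ) - O.card ≤ (1 - c) * Fintype.card V →
      ∃ (z0 z1 u v v' w : C → V) (b : C → V) (ρ : V → ℕ), Out1 σ O z0 z1 u v v' w b ρ ∧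
        Reg σ (cvd O u v) (2 * (Fintype.card C - O.card) / Fintype.card V)
          (ε + 4 * O.card / Fintype.card V) cl := by
  obtain ⟨τ, hτ⟩ : ∃ τ : ℕ, τ = 2 * ⌈1 / c⌉₊ := ⟨_, rfl⟩
  have hceil : 1 ≤ ⌈1 / c⌉₊ := Nat.one_le_iff_ne_zero.2 (Nat.ceil_pos.2 (by positivity)).ne'
  have hτ2 : 2 ≤ τ := by omega
  have hτe : τ % 2 = 0 := by omega
  have hτc : 1 ≤ c * τ := by
    have h1 : 1 / c ≤ (⌈1 / c⌉₊ : ℝ) := Nat.le_ceil _
    have h2 : (τ : ℝ) = 2 * ⌈1 / c⌉₊ := by rw [hτ]; push_cast; ring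
    rw [div_le_iff₀ hc] at h1
    rw [h2]
    nlinarith
  have hτr : (0 : ℝ) < τ := by exact_mod_cast (show 0 < τ by omega)
  obtain ⟨ε₁, hε₁, N1, H1⟩ := out1_exist τ (c / 2) (by positivity)
  obtain ⟨ε', hε'⟩ : ∃ ε' : ℝ, ε' = min ε₁ (ε / 100) := ⟨_, rfl⟩
  have hε'0 : 0 < ε' := by rw [hε']; exact lt_min hε₁ (by positivity)
  have hε'1 : ε' ≤ ε₁ := by rw [hε']; exact min_le_left _ _
  have hε'2 : ε' ≤ ε / 100 := by rw [hε']; exact min_le_right _ _
  obtain ⟨N2, H2⟩ := nib1_exist τ hτ2 hτe ε' hε'0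
  obtain ⟨N3, H3⟩ := phi_exist τ hτ2 hτe
  obtain ⟨N4, H4⟩ := stage1_rpow (min ε₁ (ε / 2)) (lt_min hε₁ (by positivity))
  refine ⟨N1 + N2 + N3 + N4 + 1, ?_⟩
  intro V C _ _ _ _ σ hσ hN h7 O cl ho h2
  have hNr : (0 : ℝ) < Fintype.card V := by exact_mod_cast (show 0 < Fintype.card V by omega)
  have hdeg : 2 * Fintype.card C + 1 ≤ Fintype.card V := hd_deg hσ
  have hdegr : 2 * (Fintype.card C : ℝ) + 1 ≤ Fintype.card V := by exact_mod_cast hdeg
  have ho2 : 2 * O.card ≤ Fintype.card C := by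
    have : (2 * O.card : ℝ) ≤ Fintype.card C := by linarith
    exact_mod_cast this
  have hn0 : (0 : ℝ) ≤ Fintype.card C := Nat.cast_nonneg _
  have ho0 : (0 : ℝ) ≤ O.card := Nat.cast_nonneg _
  -- class 0 is large
  have hp0 : c / 2 ≤ pcl (Fintype.card V) (Fintype.card C) O.card τ 0 := by
    have h3 : pcl (Fintype.card V) (Fintype.card C) O.card τ 0 =
        1 - ((2 * τ + 1) * (Fintype.card C : ℝ) - τ * O.card) / (τ * Fintype.card V) := by
      simp [pcl]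
    rw [h3]
    have h4 : ((2 * τ + 1) * (Fintype.card C : ℝ) - τ * O.card) / (τ * Fintype.card V) ≤
        1 - c / 2 := by
      rw [div_le_iff₀ (by positivity)]
      have h5 : (τ : ℝ) * (2 * (Fintype.card C : ℝ) - O.card) ≤ τ * ((1 - c) * Fintype.card V) :=
        mul_le_mul_of_nonneg_left h2 hτr.le
      have h6 : (Fintype.card C : ℝ) ≤ Fintype.card V / 2 := by linarith
      have h7 : (1 : ℝ) * Fintype.card V ≤ c * τ * Fintype.card V :=
        mul_le_mul_of_nonneg_right hτc hNr.le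
      nlinarith
    linarith
  have hcl0 : (2 * τ + 1) * Fintype.card C ≤ τ * Fintype.card V + τ * O.card := by
    have h3 : (0 : ℝ) ≤ 1 - ((2 * τ + 1) * (Fintype.card C : ℝ) - τ * O.card) /
        (τ * Fintype.card V) := by
      have h4 : pcl (Fintype.card V) (Fintype.card C) O.card τ 0 =
          1 - ((2 * τ + 1) * (Fintype.card C : ℝ) - τ * O.card) / (τ * Fintype.card V) := by
        simp [pcl]
      rw [← h4]
      have : 0 < c / 2 := by positivity
      linarith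
    have h4 : ((2 * τ + 1) * (Fintype.card C : ℝ) - τ * O.card) ≤ 1 * (τ * Fintype.card V) := by
      rw [← div_le_iff₀ (by positivity)]
      linarith
    have h5 : ((2 * τ + 1) * (Fintype.card C : ℝ)) ≤ τ * Fintype.card V + τ * O.card := by
      linarith
    exact_mod_cast h5
  obtain ⟨φ, hφ, hR⟩ := H3 V C σ hσ (by omega) h7 O cl ho2 hcl0
  obtain ⟨D1, D2, hNib⟩ := H2 V C σ hσ (by omega) h7 O φ ho2 hφ
  have h4 := H4 (Fintype.card V) (by omega)
  obtain ⟨z0, z1, u, v, v', w, b, ρ, hOut, hS⟩ := H1 V C σ hσ (by omega) O φ D1 D2 ε'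
    ((Fintype.card V : ℝ) ^ (-(1 : ℝ) / 5)) ho2 hp0 hφ (h4.trans (min_le_left _ _)) hNib hε'1
  refine ⟨z0, z1, u, v, v', w, b, ρ, hOut, ?_⟩
  have hκ : (2 * (Fintype.card C : ℝ) - O.card) / Fintype.card V -
      2 * (Fintype.card C - O.card) / Fintype.card V = O.card / Fintype.card V := by
    field_simp
    ring
  have hR2 := reg_transfer hσ (O := O) (S := cvd O u v) (ε' := 20 * ε') hκ
    (by
      refine div_nonneg ?_ hNr.le
      linarith)
    (by
      rw [div_le_one hNr]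
      linarith)
    (by
      refine hS.trans ?_
      linarith)
    (by positivity) hR
  refine reg_mono ?_ hR2
  have h5 := h4.trans (min_le_right _ _)
  linarith

end Pool.Agent.KZ
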