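import Pool.Agent.Lib_helper15.KZF.CYC
import Pool.Agent.Lib_helper15.KZF.DefsA
import Pool.Agent.Lib_helper15.KZF.DefsN
import Pool.Agent.Lib_helper15.KZF.ED
import Pool.Agent.Lib_helper15.KZF.T_TF

/-!
# Random directions and first labels: probabilities
-/

set_option autoImplicit false
set_option linter.unusedSectionVars false

namespace Pool.Agent.KZ

open Finset

/-- first label from a random bit -/
def glb_h56 (l : Bool × Bool) : Fin 3 := if l.2 then 1 else 2

lemma glb_ne_h56 (l : Bool × Bool) : glb_h56 l ≠ 0 := by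
  unfold glb_h56; split_ifs <;> decide

lemma lb_glb_inj_h56 {l l' : Bool × Bool} {r : ℕ} (e : lb (glb_h56 l) r = lb (glb_h56 l') r) :
    l.2 = l'.2 := by
  obtain ⟨a, b⟩ := l
  obtain ⟨a', b'⟩ := l'
  unfold lb glb_h56 at e
  simp only at e ⊢
  cases b <;> cases b' <;> by_cases hr : r % 2 = 0 <;> simp [hr] at e ⊢

lemma lb_glb_surj_h56 {g : Fin 3} (hg : g ≠ 0) (r : ℕ) (a : Bool) :
    ∃ b : Bool, g = lb (glb_h56 (a, b)) r := by
  have h12 := (by decide : ∀ g : Fin 3, g ≠ 0 → g = 1 ∨ g = 2) g hg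
  unfold lb glb_h56
  by_cases hr : r % 2 = 0
  · rcases h12 with rfl | rfl
    · exact ⟨true, by simp [hr]⟩
    · exact ⟨false, by simp [hr]⟩
  · rcases h12 with rfl | rfl
    · exact ⟨false, by simp [hr]⟩
    · exact ⟨true, by simp [hr]⟩

variable {V C : Type} [Fintype V] [DecidableEq V] [Fintype C] [DecidableEq C]
variable {σ : C → Equiv.Perm V}

/-- the edge `(i, z)` is mandatory with label `g` for the random value `l` of the colour `i` -/
def Rm_h56 (σ : C → Equiv.Perm V) (z0 : C → V) (m : C → ℕ) (i : C) (z : V) (g : Fin 3)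
    (l : Bool × Bool) : Prop :=
  ∃ r, mand σ z0 (fun _ => l.1) m i z r ∧ lb (glb_h56 l) r = g

/-- the edge `(i, z)` is optional with label `g` for the random value `l` of the colour `i` -/
def Ro_h56 (σ : C → Equiv.Perm V) (z0 : C → V) (m : C → ℕ) (i : C) (z : V) (g : Fin 3)
    (l : Bool × Bool) : Prop :=
  g = lb (glb_h56 l) (m i) ∧ optr σ z0 (fun _ => l.1) i z

lemma Rm_card_h56 (h : HD σ) (z0 : C → V) (m : C → ℕ) (i : C) (z : V) (g : Fin 3)
    [inst : DecidablePred (fun l => Rm_h56 σ z0 m i z g l)] :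
    (univ.filter (fun l => Rm_h56 σ z0 m i z g l)).card ≤ 1 := by
  rw [Finset.card_le_one]
  intro l hl l' hl'
  rw [Finset.mem_filter] at hl hl'
  obtain ⟨-, r, ⟨h1, h2, h3, h4⟩, h5⟩ := hl
  obtain ⟨-, r', ⟨h1', h2', h3', h4'⟩, h5'⟩ := hl'
  set q := (Fintype.card V - 1) / 2 / m i with hq
  have hps := ps_lt h z0 i h1
  have hmq : m i * q ≤ (Fintype.card V - 1) / 2 := Nat.mul_div_le _ _
  have hr1 : (r + 1) * q ≤ m i * q := Nat.mul_le_mul_right _ h2
  have hr2 : (r' + 1) * q ≤ m i * q := Nat.mul_le_mul_right _ h2'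
  have hdir : l.1 = l'.1 := by
    unfold pd at h4 h4'
    simp only at h4 h4'
    obtain ⟨a, b⟩ := l
    obtain ⟨a', b'⟩ := l'
    simp only at h4 h4' ⊢
    cases a <;> cases a'
    · rfl
    · simp only [Bool.false_eq_true, if_false, if_true] at h4 h4'
      omega
    · simp only [Bool.false_eq_true, if_false, if_true] at h4 h4'
      omega
    · rfl
  have hrr : r = r' := by
    have m1 : mand σ z0 (fun _ => l.1) m i z r := ⟨h1, h2, h3, h4⟩
    have m2 : mand σ z0 (fun _ => l'.1) m i z r' := ⟨h1', h2', h3', h4'⟩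
    rw [← hdir] at m2
    exact mand_unique m1 m2
  subst hrr
  have := lb_glb_inj_h56 (h5.trans h5'.symm)
  exact Prod.ext hdir this

lemma Ro_card_h56 (h : HD σ) (z0 : C → V) (m : C → ℕ) (i : C) {z : V} (hz : z ≠ z0 i)
    {g : Fin 3} (hg : g ≠ 0) [inst : DecidablePred (fun l => Ro_h56 σ z0 m i z g l)] :
    1 ≤ (univ.filter (fun l => Ro_h56 σ z0 m i z g l)).card := by
  rw [Nat.one_le_iff_ne_zero, ← Nat.pos_iff_ne_zero, Finset.card_pos]
  have hps := ps_lt h z0 i hz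
  have h3 := h.three
  by_cases hd : (Fintype.card V - 1) / 2 ≤ ps σ z0 i z
  · obtain ⟨b, hb⟩ := lb_glb_surj_h56 hg (m i) true
    refine ⟨(true, b), Finset.mem_filter.2 ⟨Finset.mem_univ _, hb, hz, ?_⟩⟩
    unfold pd
    simpa using hd
  · obtain ⟨b, hb⟩ := lb_glb_surj_h56 hg (m i) false
    refine ⟨(false, b), Finset.mem_filter.2 ⟨Finset.mem_univ _, hb, hz, ?_⟩⟩
    unfold pd
    simp only [Bool.false_eq_true, if_false]
    omega

lemma prb_Rm_h56 (h : HD σ) (z0 : C → V) (m : C → ℕ) (i : C) (z : V) (g : Fin 3) :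
    prb_h56 (fun ω : C → Bool × Bool => Rm_h56 σ z0 m i z g (ω i)) ≤ 1 / 4 := by
  classical
  rw [prb_one_h56 i (fun l => Rm_h56 σ z0 m i z g l)]
  have h1 : (Fintype.card (Bool × Bool) : ℝ) = 4 := by
    rw [Fintype.card_prod, Fintype.card_bool]; norm_num
  rw [h1]
  refine div_le_div_of_nonneg_right ?_ (by norm_num)
  exact_mod_cast Rm_card_h56 h z0 m i z g

lemma prb_Ro_h56 (h : HD σ) (z0 : C → V) (m : C → ℕ) (i : C) {z : V} (hz : z ≠ z0 i)
    {g : Fin 3} (hg : g ≠ 0) :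
    1 / 4 ≤ prb_h56 (fun ω : C → Bool × Bool => Ro_h56 σ z0 m i z g (ω i)) := by
  classical
  rw [prb_one_h56 i (fun l => Ro_h56 σ z0 m i z g l)]
  have h1 : (Fintype.card (Bool × Bool) : ℝ) = 4 := by
    rw [Fintype.card_prod, Fintype.card_bool]; norm_num
  rw [h1]
  refine div_le_div_of_nonneg_right ?_ (by norm_num)
  exact_mod_cast Ro_card_h56 h z0 m i hz hg

lemma prb_Ro2_h56 (h : HD σ) (z0 : C → V) (m : C → ℕ) {i j : C} (hij : i ≠ j) {z z' : V}
    (hz : z ≠ z0 i) (hz' : z' ≠ z0 j) {g g' : Fin 3} (hg : g ≠ 0) (hg' : g' ≠ 0) :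
    1 / 16 ≤ prb_h56 (fun ω : C → Bool × Bool => Ro_h56 σ z0 m i z g (ω i) ∧
      Ro_h56 σ z0 m j z' g' (ω j)) := by
  classical
  rw [prb_two_h56 hij (fun l => Ro_h56 σ z0 m i z g l) (fun l => Ro_h56 σ z0 m j z' g' l)]
  have h1 : (Fintype.card (Bool × Bool) : ℝ) = 4 := by
    rw [Fintype.card_prod, Fintype.card_bool]; norm_num
  rw [h1]
  have h2 : (1 : ℝ) / 4 ≤ ((univ.filter (fun l => Ro_h56 σ z0 m i z g l)).card : ℝ) / 4 := by
    refine div_le_div_of_nonneg_right ?_ (by norm_num)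
    exact_mod_cast Ro_card_h56 h z0 m i hz hg
  have h3 : (1 : ℝ) / 4 ≤ ((univ.filter (fun l => Ro_h56 σ z0 m j z' g' l)).card : ℝ) / 4 := by
    refine div_le_div_of_nonneg_right ?_ (by norm_num)
    exact_mod_cast Ro_card_h56 h z0 m j hz' hg'
  calc (1 : ℝ) / 16 = 1 / 4 * (1 / 4) := by norm_num
    _ ≤ _ := mul_le_mul h2 h3 (by norm_num) (by positivity)

/-- the random optional squares -/
noncomputable def Os_h56 (σ : C → Equiv.Perm V) (z0 : C → V) (Es : Finset C) (m : C → ℕ)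
    (ω : C → Bool × Bool) : Finset (Sq V C) :=
  Oset σ z0 Es m (fun i => (ω i).1) (fun i => glb_h56 (ω i))

variable {z0 : C → V} {Es : Finset C} {m : C → ℕ}

lemma mem_Os_h56 (ω : C → Bool × Bool) (g : Fin 3) (j : C) (z : V) :
    (g, j, z) ∈ Os_h56 σ z0 Es m ω ↔ j ∈ Es ∧ Ro_h56 σ z0 m j z g (ω j) := by
  classical
  unfold Os_h56 Oset
  simp only [Finset.mem_filter, Finset.mem_univ, true_and]
  exact Iff.rfl

lemma edge_nb_h56 {x w : V} {j : C} {z : V} (he : s(x, w) = ed σ j z) :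
    ∃ b : Bool, w = nb σ (j, b) x ∧ z = es σ (j, b) x := by
  unfold ed at he
  rw [Sym2.eq_iff] at he
  rcases he with ⟨rfl, rfl⟩ | ⟨rfl, rfl⟩
  · exact ⟨true, rfl, rfl⟩
  · refine ⟨false, ?_, ?_⟩
    · rw [nb_false_h56]; simp
    · unfold es; simp

lemma optn_swap_h56 (S : Finset (Sq V C)) (g : Fin 3) (x w : V) :
    optn σ S g x w ↔ optn σ S g w x := by
  unfold optn
  rw [Sym2.eq_swap]

/-- dependence of the optional edges -/
lemma optn_dep_h56 (ω : C → Bool × Bool) (a : C) (l : Bool × Bool) (g : Fin 3) {x w : V}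
    (h1 : w ≠ σ a x) (h2 : w ≠ (σ a)⁻¹ x) :
    optn σ (Os_h56 σ z0 Es m (Function.update ω a l)) g x w ↔
      optn σ (Os_h56 σ z0 Es m ω) g x w := by
  unfold optn
  refine exists_congr fun j => exists_congr fun z => ?_
  refine and_congr_left fun he => ?_
  have hja : j ≠ a := by
    rintro rfl
    obtain ⟨b, hb, _⟩ := edge_nb_h56 he
    cases b
    · rw [nb_false_h56] at hb; exact h2 hb
    · rw [nb_true_h56] at hb; exact h1 hb
  rw [mem_Os_h56, mem_Os_h56, Function.update_of_ne hja]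

lemma prb_optn_h56 (h : HD σ) {x w : V} {i : C} {z : V} (he : s(x, w) = ed σ i z) (hi : i ∈ Es)
    (hz : z ≠ z0 i) {g : Fin 3} (hg : g ≠ 0) :
    1 / 4 ≤ prb_h56 (fun ω : C → Bool × Bool => optn σ (Os_h56 σ z0 Es m ω) g x w) :=
  (prb_Ro_h56 h z0 m i hz hg).trans (prb_mono_h56 fun ω hR =>
    ⟨i, z, (mem_Os_h56 ω g i z).2 ⟨hi, hR⟩, he⟩)

lemma prb_optn2_h56 (h : HD σ) {x w y : V} {i j : C} {z z' : V} (he : s(x, w) = ed σ i z)
    (he' : s(w, y) = ed σ j z') (hij : i ≠ j) (hi : i ∈ Es) (hj : j ∈ Es)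
    (hz : z ≠ z0 i) (hz' : z' ≠ z0 j) :
    1 / 16 ≤ prb_h56 (fun ω : C → Bool × Bool => optn σ (Os_h56 σ z0 Es m ω) 1 x w ∧
      optn σ (Os_h56 σ z0 Es m ω) 2 w y) :=
  (prb_Ro2_h56 h z0 m hij hz hz' (g := 1) (g' := 2) (by decide) (by decide)).trans
    (prb_mono_h56 fun ω hR => ⟨⟨i, z, (mem_Os_h56 ω 1 i z).2 ⟨hi, hR.1⟩, he⟩,
      ⟨j, z', (mem_Os_h56 ω 2 j z').2 ⟨hj, hR.2⟩, he'⟩⟩)

open Classical in
/-- bad edges at `x` -/
noncomputable def Bd_h56 (σ : C → Equiv.Perm V) (z0 : C → V) (Es : Finset C) (x : V) :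
    Finset (C × Bool) :=
  univ.filter (fun p => p.1 ∉ Es ∨ es σ p x = z0 p.1)

lemma Bd_card_h56 (h : HD σ) (hz : ∀ i ∈ Es, ∀ j ∈ Es, i ≠ j →
      Disjoint ({z0 i, σ i (z0 i)} : Finset V) {z0 j, σ j (z0 j)}) (x : V) :
    (Bd_h56 σ z0 Es x).card ≤ 2 * (univ \ Es).card + 1 := by
  classical
  have hsub : Bd_h56 σ z0 Es x ⊆ ((univ \ Es) ×ˢ (univ : Finset Bool)) ∪
      univ.filter (fun p : C × Bool => p.1 ∈ Es ∧ es σ p x = z0 p.1) := by
    intro p hp
    unfold Bd_h56 at hp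
    rw [Finset.mem_filter] at hp
    rw [Finset.mem_union, Finset.mem_product, Finset.mem_sdiff, Finset.mem_filter]
    by_cases h1 : p.1 ∈ Es
    · right
      rcases hp.2 with h2 | h2
      · exact absurd h1 h2
      · exact ⟨Finset.mem_univ _, h1, h2⟩
    · left
      exact ⟨⟨Finset.mem_univ _, h1⟩, Finset.mem_univ _⟩
  have h1 := (Finset.card_le_card hsub).trans (Finset.card_union_le _ _)
  rw [Finset.card_product, Finset.card_univ, Fintype.card_bool] at h1
  have h2 : (univ.filter (fun p : C × Bool => p.1 ∈ Es ∧ es σ p x = z0 p.1)).card ≤ 1 := by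
    rw [Finset.card_le_one]
    have hx : ∀ p : C × Bool, es σ p x = z0 p.1 → x ∈ ({z0 p.1, σ p.1 (z0 p.1)} : Finset V) := by
      rintro ⟨i, b⟩ hp
      unfold es at hp
      simp only at hp ⊢
      rw [Finset.mem_insert, Finset.mem_singleton]
      cases b
      · right
        simp only [Bool.false_eq_true, if_false] at hp
        rw [← hp]; simp
      · left
        simpa using hp
    rintro ⟨i, b⟩ hp ⟨j, b'⟩ hp'
    rw [Finset.mem_filter] at hp hp'
    by_cases hij : i = j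
    · subst hij
      have hne := (hd_ne h i (z0 i)).1
      have e1 := hp.2.2
      have e2 := hp'.2.2
      unfold es at e1 e2
      simp only at e1 e2
      cases b <;> cases b'
      · rfl
      · exfalso
        simp only [Bool.false_eq_true, if_false, if_true] at e1 e2
        apply hne
        have : σ i ((σ i)⁻¹ x) = x := by simp
        rw [e1, e2] at this
        exact this
      · exfalso
        simp only [Bool.false_eq_true, if_false, if_true] at e1 e2
        apply hne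
        have : σ i ((σ i)⁻¹ x) = x := by simp
        rw [e2, e1] at this
        exact this
      · rfl
    · exfalso
      have hd := hz i hp.2.1 j hp'.2.1 hij
      rw [Finset.disjoint_left] at hd
      exact hd (hx _ hp.2.2) (hx _ hp'.2.2)
  omega

end Pool.Agent.KZ
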