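import Pool.Agent.Lib_helper15.KZF.CYC
import Pool.Agent.Lib_helper15.KZF.DefsA
import Pool.Agent.Lib_helper15.KZF.DefsN
import Pool.Agent.Lib_helper15.KZF.ED
import Pool.Agent.Lib_helper15.KZF.T_DA

/-!
# Random directions and first labels: `dirs_exist`
-/

set_option autoImplicit false
set_option linter.unusedSectionVars false

namespace Pool.Agent.KZ

open Finset

variable {V C : Type} [Fintype V] [DecidableEq V] [Fintype C] [DecidableEq C]
variable {σ : C → Equiv.Perm V} {z0 : C → V} {Es : Finset C} {m : C → ℕ}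

open Classical in
/-- expectation of the number of optional neighbours in `W` -/
lemma E7_h56 (h : HD σ) (hz : ∀ i ∈ Es, ∀ j ∈ Es, i ≠ j →
      Disjoint ({z0 i, σ i (z0 i)} : Finset V) {z0 j, σ j (z0 j)}) (W : Finset V) (x : V)
    {g : Fin 3} (hg : g ≠ 0) :
    ((((univ : Finset (C × Bool)).filter (fun p => nb σ p x ∈ W)).card : ℝ) -
      (2 * (univ \ Es).card + 1)) / 4 ≤
      ∑ w ∈ W, prb_h56 (fun ω : C → Bool × Bool => optn σ (Os_h56 σ z0 Es m ω) g x w) := by
  set G := (univ : Finset (C × Bool)).filter (fun p => nb σ p x ∈ W ∧ p ∉ Bd_h56 σ z0 Es x)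
    with hG
  have hsub : G.image (fun p => nb σ p x) ⊆ W := by
    intro w hw
    rw [Finset.mem_image] at hw
    obtain ⟨p, hp, rfl⟩ := hw
    rw [hG, Finset.mem_filter] at hp
    exact hp.2.1
  have h1 : ∑ w ∈ G.image (fun p => nb σ p x), prb_h56 (fun ω : C → Bool × Bool =>
      optn σ (Os_h56 σ z0 Es m ω) g x w) ≤
      ∑ w ∈ W, prb_h56 (fun ω : C → Bool × Bool => optn σ (Os_h56 σ z0 Es m ω) g x w) :=
    Finset.sum_le_sum_of_subset_of_nonneg hsub fun _ _ _ => prb_nonneg_h56 _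
  refine le_trans ?_ h1
  have h2 : ∑ w ∈ G.image (fun p => nb σ p x), (1 / 4 : ℝ) ≤
      ∑ w ∈ G.image (fun p => nb σ p x), prb_h56 (fun ω : C → Bool × Bool =>
      optn σ (Os_h56 σ z0 Es m ω) g x w) := by
    refine Finset.sum_le_sum fun w hw => ?_
    rw [Finset.mem_image] at hw
    obtain ⟨p, hp, rfl⟩ := hw
    rw [hG, Finset.mem_filter] at hp
    have hb := hp.2.2
    unfold Bd_h56 at hb
    rw [Finset.mem_filter] at hb
    push Not at hb
    obtain ⟨hb1, hb2⟩ := hb (Finset.mem_univ _)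
    exact prb_optn_h56 h (ed_nb σ p x).symm hb1 hb2 hg
  refine le_trans ?_ h2
  rw [Finset.sum_const, nsmul_eq_mul, Finset.card_image_of_injective _
    (fun p q e => nb_inj_h56 h x e)]
  have h3 : ((univ : Finset (C × Bool)).filter (fun p => nb σ p x ∈ W)).card ≤
      G.card + (Bd_h56 σ z0 Es x).card := by
    have : (univ : Finset (C × Bool)).filter (fun p => nb σ p x ∈ W) ⊆
        G ∪ Bd_h56 σ z0 Es x := by
      intro p hp
      rw [Finset.mem_filter] at hp
      rw [Finset.mem_union, hG, Finset.mem_filter]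
      by_cases hb : p ∈ Bd_h56 σ z0 Es x
      · exact Or.inr hb
      · exact Or.inl ⟨Finset.mem_univ _, hp.2, hb⟩
    exact (Finset.card_le_card this).trans (Finset.card_union_le _ _)
  have h4 := Bd_card_h56 h hz x
  have h5 : (((univ : Finset (C × Bool)).filter (fun p => nb σ p x ∈ W)).card : ℝ) ≤
      G.card + (2 * (univ \ Es).card + 1) := by
    have : ((univ : Finset (C × Bool)).filter (fun p => nb σ p x ∈ W)).card ≤
      G.card + (2 * (univ \ Es).card + 1) := by omega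
    exact_mod_cast this
  linarith

open Classical in
/-- expectation of the number of optional two-paths -/
lemma E8_h56 (h : HD σ) (hz : ∀ i ∈ Es, ∀ j ∈ Es, i ≠ j →
      Disjoint ({z0 i, σ i (z0 i)} : Finset V) {z0 j, σ j (z0 j)}) (W : Finset V) (x y : V)
    (hW : ∀ w ∈ W, dcol σ x w y) :
    ((W.card : ℝ) - 2 * (2 * (univ \ Es).card + 1)) / 16 ≤
      ∑ w ∈ W, prb_h56 (fun ω : C → Bool × Bool => optn σ (Os_h56 σ z0 Es m ω) 1 x w ∧
        optn σ (Os_h56 σ z0 Es m ω) 2 w y) := by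
  set B := (Bd_h56 σ z0 Es x).image (fun p => nb σ p x) ∪
    (Bd_h56 σ z0 Es y).image (fun p => nb σ p y) with hB
  have h1 : ∑ w ∈ W \ B, prb_h56 (fun ω : C → Bool × Bool =>
      optn σ (Os_h56 σ z0 Es m ω) 1 x w ∧ optn σ (Os_h56 σ z0 Es m ω) 2 w y) ≤
      ∑ w ∈ W, prb_h56 (fun ω : C → Bool × Bool => optn σ (Os_h56 σ z0 Es m ω) 1 x w ∧
        optn σ (Os_h56 σ z0 Es m ω) 2 w y) :=
    Finset.sum_le_sum_of_subset_of_nonneg Finset.sdiff_subset fun _ _ _ => prb_nonneg_h56 _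
  refine le_trans ?_ h1
  have hgood : ∀ (t w : V) (j : C) (z : V), s(t, w) = ed σ j z →
      w ∉ (Bd_h56 σ z0 Es t).image (fun p => nb σ p t) → j ∈ Es ∧ z ≠ z0 j := by
    intro t w j z he hw
    obtain ⟨b, hb1, hb2⟩ := edge_nb_h56 he
    by_contra hcon
    apply hw
    rw [Finset.mem_image]
    refine ⟨(j, b), ?_, hb1.symm⟩
    unfold Bd_h56
    rw [Finset.mem_filter]
    refine ⟨Finset.mem_univ _, ?_⟩
    simp only
    rw [← hb2]
    by_contra h'
    push Not at h'
    exact hcon ⟨h'.1, h'.2⟩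
  have h2 : ∑ w ∈ W \ B, (1 / 16 : ℝ) ≤
      ∑ w ∈ W \ B, prb_h56 (fun ω : C → Bool × Bool =>
      optn σ (Os_h56 σ z0 Es m ω) 1 x w ∧ optn σ (Os_h56 σ z0 Es m ω) 2 w y) := by
    refine Finset.sum_le_sum fun w hw => ?_
    rw [Finset.mem_sdiff, hB, Finset.mem_union, not_or] at hw
    obtain ⟨i, j, z, z', hij, he, he'⟩ := hW w hw.1
    obtain ⟨g1, g2⟩ := hgood x w i z he hw.2.1
    obtain ⟨g1', g2'⟩ := hgood y w j z' (by rw [Sym2.eq_swap]; exact he') hw.2.2
    exact prb_optn2_h56 h he he' hij g1 g1' g2 g2'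
  refine le_trans ?_ h2
  rw [Finset.sum_const, nsmul_eq_mul]
  have h3 : W.card ≤ (W \ B).card + B.card := by
    have : W ⊆ (W \ B) ∪ B := by
      intro w hw
      rw [Finset.mem_union, Finset.mem_sdiff]
      by_cases hb : w ∈ B
      · exact Or.inr hb
      · exact Or.inl ⟨hw, hb⟩
    exact (Finset.card_le_card this).trans (Finset.card_union_le _ _)
  have h4 : B.card ≤ 2 * (2 * (univ \ Es).card + 1) := by
    have c1 := Finset.card_union_le ((Bd_h56 σ z0 Es x).image (fun p => nb σ p x))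
      ((Bd_h56 σ z0 Es y).image (fun p => nb σ p y))
    have c2 := Finset.card_image_le (s := Bd_h56 σ z0 Es x) (f := fun p => nb σ p x)
    have c3 := Finset.card_image_le (s := Bd_h56 σ z0 Es y) (f := fun p => nb σ p y)
    have c4 := Bd_card_h56 h hz x
    have c5 := Bd_card_h56 h hz y
    rw [hB]
    omega
  have h5 : (W.card : ℝ) ≤ (W \ B).card + 2 * (2 * (univ \ Es).card + 1) := by
    have : W.card ≤ (W \ B).card + 2 * (2 * (univ \ Es).card + 1) := by omega
    exact_mod_cast this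
  linarith

lemma eq_fiber_h56 (z : V) (W : Finset V) [DecidablePred fun w : V => w = z] :
    (W.filter (fun w => w = z)).card ≤ 1 := by
  rw [Finset.card_le_one]
  intro a ha b hb
  rw [Finset.mem_filter] at ha hb
  exact ha.2.trans hb.2.symm

open Classical in
lemma B10_h56 (W : Finset V) (x : V) (g : Fin 3) :
    BD (fun _ => ((14 : ℕ) : ℝ)) (fun ω : C → Bool × Bool => ((W.filter (fun w =>
      optn σ (Os_h56 σ z0 Es m ω) g x w)).card : ℝ)) := by
  refine bd_count_h56 W (fun w (ω : C → Bool × Bool) => optn σ (Os_h56 σ z0 Es m ω) g x w)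
    (fun a w => w = σ a x ∨ w = (σ a)⁻¹ x) ?_ 14 ?_
  · intro w _ ω a l hd
    push Not at hd
    exact optn_dep_h56 ω a l g hd.1 hd.2
  · intro a
    exact (card_or_h56 _ _ _ (eq_fiber_h56 _ _) (eq_fiber_h56 _ _)).trans (by omega)

open Classical in
lemma B11_h56 (W : Finset V) (x y : V) :
    BD (fun _ => ((14 : ℕ) : ℝ)) (fun ω : C → Bool × Bool => ((W.filter (fun w =>
      optn σ (Os_h56 σ z0 Es m ω) 1 x w ∧ optn σ (Os_h56 σ z0 Es m ω) 2 w y)).card : ℝ)) := by
  refine bd_count_h56 W (fun w (ω : C → Bool × Bool) => optn σ (Os_h56 σ z0 Es m ω) 1 x w ∧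
      optn σ (Os_h56 σ z0 Es m ω) 2 w y)
    (fun a w => (w = σ a x ∨ w = (σ a)⁻¹ x) ∨ (w = σ a y ∨ w = (σ a)⁻¹ y)) ?_ 14 ?_
  · intro w _ ω a l hd
    push Not at hd
    rw [optn_dep_h56 ω a l 1 hd.1.1 hd.1.2, optn_swap_h56 _ 2 w y,
      optn_dep_h56 ω a l 2 hd.2.1 hd.2.2, optn_swap_h56 _ 2 y w]
  · intro a
    exact (card_or_h56 _ _ _ (card_or_h56 _ _ _ (eq_fiber_h56 _ _) (eq_fiber_h56 _ _))
      (card_or_h56 _ _ _ (eq_fiber_h56 _ _) (eq_fiber_h56 _ _))).trans (by omega)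

/-- the mandatory load, divided by 7 -/
lemma B12_h56 (hm : ∀ i, m i ≤ 7) (S : Finset (C × Bool)) (y : V) (g : Fin 3) :
    BD (fun _ => ((14 : ℕ) : ℝ)) (fun ω : C → Bool × Bool => ∑ p ∈ S,
      (m p.1 : ℝ) / 7 * ind_h56 (Rm_h56 σ z0 m p.1 (es σ p y) g (ω p.1))) := by
  classical
  refine bd_items_h56 S (fun p (ω : C → Bool × Bool) =>
      (m p.1 : ℝ) / 7 * ind_h56 (Rm_h56 σ z0 m p.1 (es σ p y) g (ω p.1))) ?_
    (fun a p => p.1 = a) ?_ 14 ?_
  · intro p _ ω
    have h1 : (m p.1 : ℝ) ≤ 7 := by exact_mod_cast hm p.1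
    have h0 : (0 : ℝ) ≤ m p.1 := Nat.cast_nonneg _
    have h2 := ind_nonneg_h56 (Rm_h56 σ z0 m p.1 (es σ p y) g (ω p.1))
    have h3 := ind_le_one_h56 (Rm_h56 σ z0 m p.1 (es σ p y) g (ω p.1))
    constructor
    · positivity
    · have : (m p.1 : ℝ) / 7 ≤ 1 := by linarith
      exact mul_le_one₀ this h2 h3
  · intro p _ ω a l hd
    rw [Function.update_of_ne hd]
  · intro a
    have : S.filter (fun p => p.1 = a) ⊆ {(a, true), (a, false)} := by
      intro p hp
      rw [Finset.mem_filter] at hp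
      obtain ⟨i, b⟩ := p
      simp only at hp
      rw [Finset.mem_insert, Finset.mem_singleton]
      cases b
      · right; rw [hp.2]
      · left; rw [hp.2]
    exact (Finset.card_le_card this).trans (Finset.card_le_two.trans (by omega))

/-- block S2C: random directions and first labels -/
theorem dirs_exist (ε : ℝ) (hε : 0 < ε) : ∃ N₀ : ℕ,
    ∀ (V C : Type) [Fintype V] [DecidableEq V] [Fintype C] [DecidableEq C]
      (σ : C → Equiv.Perm V), HD σ → N₀ ≤ Fintype.card V → Fintype.card V ≤ 7 * Fintype.card C →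
      ∀ (Lv : Finset C) (Uu : Finset V) (z0 u v : C → V) (cl : C → Fin 3) (δ : ℝ) (h : ℕ)
        (q κ ε₀ : ℝ) (Sg : C → V → Finset V) (ty : C → Fin 3) (lev : V → ℕ)
        (mm : Fin 3 → ℕ) (T : Finset (Fin 3)) (Db : Fin 3 → Finset V),
      Types σ Lv Uu u v cl δ h q κ ε₀ Sg ty lev → 0 ≤ ε₀ → ε₀ ≤ 1 / 10 ^ 6 → 0 < δ → δ ≤ 1 / 100 →
      2 / 7 * (99 / 100) ≤ κ → 1 ≤ h → 0 ≤ q → (∀ k, mm k ≤ 7) → (∀ k ∈ T, 1 ≤ mm k) →
      (((univ.filter (fun i => cl i ∉ T)).card : ℝ) ≤ Fintype.card V / 10 ^ 6) →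
      (∀ i, cl i ∈ T → ∀ j, cl j ∈ T → i ≠ j →
        Disjoint ({z0 i, σ i (z0 i)} : Finset V) {z0 j, σ j (z0 j)}) →
      ∃ (dir : C → Bool) (gl : C → Fin 3),
        Dirs σ z0 Lv Uu u v (univ.filter (fun i => cl i ∈ T)) (fun i => mm (cl i)) h q
          (10 * ε₀ + ε) ty lev Db dir gl := by
  classical
  set ε₂ : ℝ := min (ε / 7) (1 / 10 ^ 6) with hε2
  have hε2p : 0 < ε₂ := by rw [hε2]; positivity
  have hε2a : ε₂ ≤ ε / 7 := min_le_left _ _
  have hε2b : ε₂ ≤ 1 / 10 ^ 6 := min_le_right _ _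
  obtain ⟨N₁, hN₁⟩ := conc_h56 ε₂ hε2p 14 5
  refine ⟨N₁ + 10 ^ 7, ?_⟩
  intro V C _ _ _ _ σ hd hN h7 Lv Uu z0 u v cl δ h q κ ε₀ Sg ty lev mm T Db TY hε0 hε0' hδ hδ'
    hκ hh hq hmm hmm1 hT hz
  set N := Fintype.card V with hNdef
  have hn : 2 * Fintype.card C + 1 ≤ N := hd_deg hd
  have hNR : (0 : ℝ) < N := by
    have : 0 < N := by omega
    exact_mod_cast this
  have hN7 : (10 : ℝ) ^ 7 ≤ N := by
    have : 10 ^ 7 ≤ N := by omega
    exact_mod_cast this
  have hnR : (N : ℝ) ≤ 7 * Fintype.card C := by exact_mod_cast h7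
  set Es : Finset C := univ.filter (fun i => cl i ∈ T) with hEs
  set m : C → ℕ := fun i => mm (cl i) with hm
  have hzE : ∀ i ∈ Es, ∀ j ∈ Es, i ≠ j →
      Disjoint ({z0 i, σ i (z0 i)} : Finset V) {z0 j, σ j (z0 j)} := by
    intro i hi j hj hij
    rw [hEs, Finset.mem_filter] at hi hj
    exact hz i hi.2 j hj.2 hij
  have hnEs : (univ \ Es) = univ.filter (fun i => cl i ∉ T) := by
    ext i
    rw [hEs]
    simp
  have hbad : ((univ \ Es).card : ℝ) ≤ N / 10 ^ 6 := by
    rw [hnEs]; exact hT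
  -- index sets
  obtain ⟨S1, hS1⟩ : ∃ S1 : V → V → Finset (C × Bool), ∀ y t, S1 y t =
      univ.filter (fun p => p.1 ∈ Es ∧ spin Lv Uu u v ty (nb σ p y) ∧
        lev (nb σ p y) = lev t) := ⟨_, fun _ _ => rfl⟩
  obtain ⟨S2, hS2⟩ : ∃ S2 : V → V → Finset V, ∀ x y, S2 x y =
      univ.filter (fun w => leaf Lv u v ty w ∧ dcol σ x w y) := ⟨_, fun _ _ => rfl⟩
  obtain ⟨Wl, hWl⟩ : ∃ Wl : Finset V, Wl = univ.filter (fun w => leaf Lv u v ty w) := ⟨_, rfl⟩
  let F1 : V × V × Fin 3 → (C → Bool × Bool) → ℝ := fun t ω =>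
    ∑ p ∈ S1 t.1 t.2.1, (m p.1 : ℝ) / 7 *
      ind_h56 (Rm_h56 σ z0 m p.1 (es σ p t.1) t.2.2 (ω p.1))
  let F2 : V × V → (C → Bool × Bool) → ℝ := fun t ω =>
    (((S2 t.1 t.2).filter (fun w => optn σ (Os_h56 σ z0 Es m ω) 1 t.1 w ∧
      optn σ (Os_h56 σ z0 Es m ω) 2 w t.2)).card : ℝ)
  let F3 : V × Fin 3 → (C → Bool × Bool) → ℝ := fun t ω =>
    ((Wl.filter (fun w => optn σ (Os_h56 σ z0 Es m ω) t.2 t.1 w)).card : ℝ)
  let F4 : V × Fin 3 × Fin 3 → (C → Bool × Bool) → ℝ := fun t ω =>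
    (((Db t.2.2).filter (fun w => optn σ (Os_h56 σ z0 Es m ω) t.2.1 t.1 w)).card : ℝ)
  have hcard : Fintype.card ((V × V × Fin 3) ⊕ ((V × V) ⊕ ((V × Fin 3) ⊕
      (V × Fin 3 × Fin 3)))) ≤ N ^ 5 := by
    simp only [Fintype.card_sum, Fintype.card_prod, Fintype.card_fin]
    rw [← hNdef]
    have hN100 : 100 ≤ N := by omega
    have h1 : N * (N * 3) = 3 * (N * N) := by ring
    have h2 : N ≤ N * N := by nlinarith
    have h4 : N * N * 100 ≤ N * N * N := Nat.mul_le_mul_left _ hN100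
    have h5 : N * N * N ≤ N ^ 5 := by
      have : N ^ 5 = N * N * N * (N * N) := by ring
      rw [this]
      exact Nat.le_mul_of_pos_right _ (by nlinarith)
    omega
  obtain ⟨ω, hω⟩ := hN₁ C (Bool × Bool) N (by omega) (by omega) _ hcard
    (Sum.elim F1 (Sum.elim F2 (Sum.elim F3 F4))) (by
      rintro (t | t | t | t)
      · exact B12_h56 (fun i => hmm _) _ _ _
      · exact B11_h56 _ _ _
      · exact B10_h56 _ _ _
      · exact B10_h56 _ _ _)
  have w1 : ∀ t, |F1 t ω - avg (F1 t)| ≤ ε₂ * N := fun t => hω (Sum.inl t)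
  have w2 : ∀ t, |F2 t ω - avg (F2 t)| ≤ ε₂ * N := fun t => hω (Sum.inr (Sum.inl t))
  have w3 : ∀ t, |F3 t ω - avg (F3 t)| ≤ ε₂ * N := fun t => hω (Sum.inr (Sum.inr (Sum.inl t)))
  have w4 : ∀ t, |F4 t ω - avg (F4 t)| ≤ ε₂ * N := fun t => hω (Sum.inr (Sum.inr (Sum.inr t)))
  clear hω
  have hε2N : ε₂ * N ≤ N / 10 ^ 6 := by
    have := mul_le_mul_of_nonneg_right hε2b hNR.le
    linarith
  have hε0N : 0 ≤ ε₀ * N := mul_nonneg hε0 hNR.le
  refine ⟨fun i => (ω i).1, fun i => glb_h56 (ω i), ?_, ?_, ?_, ?_, ?_⟩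
  · intro i
    exact glb_ne_h56 _
  · intro y j g hj1 hj2
    -- no vertex of the level `j`: the sum is empty
    by_cases hex : ∃ t, lev t = j
    · obtain ⟨t, rfl⟩ := hex
      have w := (abs_le.1 (w1 (y, t, g))).2
      have e1 : avg (F1 (y, t, g)) = ∑ p ∈ S1 y t, (m p.1 : ℝ) / 7 *
          prb_h56 (fun ω : C → Bool × Bool =>
            Rm_h56 σ z0 m p.1 (es σ p y) g (ω p.1)) := by
        simp only [F1]
        rw [avg_sum]
        refine Finset.sum_congr rfl fun p _ => ?_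
        rw [avg_mul_left]
        rfl
      have e2 : avg (F1 (y, t, g)) ≤ ∑ p ∈ S1 y t, (m p.1 : ℝ) / 28 := by
        rw [e1]
        refine Finset.sum_le_sum fun p _ => ?_
        have h1 := prb_Rm_h56 hd z0 m p.1 (es σ p y) g
        have h0 : (0 : ℝ) ≤ (m p.1 : ℝ) / 7 := by positivity
        have := mul_le_mul_of_nonneg_left h1 h0
        linarith
      -- the total weight
      have e3 : ∑ p ∈ S1 y t, (m p.1 : ℝ) = ∑ k ∈ T, (mm k : ℝ) *
          (((S1 y t).filter (fun p => cl p.1 = k)).card : ℝ) := by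
        rw [← Finset.sum_fiberwise_of_maps_to (s := S1 y t) (t := T) (g := fun p => cl p.1) (by
          intro p hp
          rw [hS1, Finset.mem_filter] at hp
          have := hp.2.1
          rw [hEs, Finset.mem_filter] at this
          exact this.2)]
        refine Finset.sum_congr rfl fun k _ => ?_
        rw [Finset.sum_congr rfl (g := fun _ => (mm k : ℝ)) (by
          intro p hp
          rw [Finset.mem_filter] at hp
          simp only [hm]
          rw [hp.2]), Finset.sum_const, nsmul_eq_mul, mul_comm]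
      have e4 : ∀ k, (((S1 y t).filter (fun p => cl p.1 = k)).card : ℝ) ≤
          2 * q / h * ((univ.filter (fun i => cl i = k)).card : ℝ) + ε₀ * N := by
        intro k
        have h1 := TY.t2 y (lev t) k hj1 hj2
        refine le_trans ?_ h1
        rw [Nat.cast_le]
        refine Finset.card_le_card ?_
        intro p hp
        rw [Finset.mem_filter, hS1, Finset.mem_filter] at hp
        rw [Finset.mem_filter]
        exact ⟨Finset.mem_univ _, hp.2, hp.1.2.2.1, hp.1.2.2.2⟩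
      have e5 : ∑ i ∈ Es, (m i : ℝ) = ∑ k ∈ T, (mm k : ℝ) *
          ((univ.filter (fun i => cl i = k)).card : ℝ) := by
        rw [← Finset.sum_fiberwise_of_maps_to (s := Es) (t := T) (g := fun i => cl i) (by
          intro i hi
          rw [hEs, Finset.mem_filter] at hi
          exact hi.2)]
        refine Finset.sum_congr rfl fun k hk => ?_
        have e : Es.filter (fun i => cl i = k) = univ.filter (fun i => cl i = k) := by
          ext i
          rw [hEs]
          simp only [Finset.mem_filter, Finset.mem_univ, true_and]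
          constructor
          · exact fun h => h.2
          · exact fun h => ⟨h ▸ hk, h⟩
        rw [e, Finset.sum_congr rfl (g := fun _ => (mm k : ℝ)) (by
          intro i hi
          rw [Finset.mem_filter] at hi
          simp only [hm]
          rw [hi.2]), Finset.sum_const, nsmul_eq_mul, mul_comm]
      have e6 : ∑ p ∈ S1 y t, (m p.1 : ℝ) ≤ 2 * q / h * ∑ i ∈ Es, (m i : ℝ) + 21 * (ε₀ * N) := by
        rw [e3, e5, Finset.mul_sum]
        have h1 : ∀ k ∈ T, (mm k : ℝ) * (((S1 y t).filter (fun p => cl p.1 = k)).card : ℝ) ≤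
            2 * q / h * ((mm k : ℝ) * ((univ.filter (fun i => cl i = k)).card : ℝ)) +
              7 * (ε₀ * N) := by
          intro k _
          have h2 : (0 : ℝ) ≤ mm k := Nat.cast_nonneg _
          have h3 : (mm k : ℝ) ≤ 7 := by exact_mod_cast hmm k
          have h4 := mul_le_mul_of_nonneg_left (e4 k) h2
          have h5 : (mm k : ℝ) * (ε₀ * N) ≤ 7 * (ε₀ * N) := mul_le_mul_of_nonneg_right h3 hε0N
          have h6 : (mm k : ℝ) * (2 * q / h * ((univ.filter (fun i => cl i = k)).card : ℝ) +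
            ε₀ * N) = 2 * q / h * ((mm k : ℝ) * ((univ.filter (fun i => cl i = k)).card : ℝ)) +
              (mm k : ℝ) * (ε₀ * N) := by ring
          linarith
        have h2 := Finset.sum_le_sum h1
        rw [Finset.sum_add_distrib, Finset.sum_const, nsmul_eq_mul] at h2
        have h3 : (T.card : ℝ) ≤ 3 := by
          have : T.card ≤ 3 := (Finset.card_le_univ T).trans (by simp)
          exact_mod_cast this
        have h4 : (T.card : ℝ) * (7 * (ε₀ * N)) ≤ 3 * (7 * (ε₀ * N)) :=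
          mul_le_mul_of_nonneg_right h3 (by linarith)
        linarith
      -- the sum in the statement
      have e7 : ∑ p ∈ (univ : Finset (C × Bool)).filter (fun p => p.1 ∈ Es ∧
          (∃ r, mand σ z0 (fun i => (ω i).1) m p.1 (es σ p y) r ∧
            lb (glb_h56 (ω p.1)) r = g) ∧
          spin Lv Uu u v ty (nb σ p y) ∧ lev (nb σ p y) = lev t), (m p.1 : ℝ) =
          7 * F1 (y, t, g) ω := by
        simp only [F1]
        rw [Finset.mul_sum, hS1, Finset.sum_filter, Finset.sum_filter]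
        refine Finset.sum_congr rfl fun p _ => ?_
        by_cases c1 : p.1 ∈ Es ∧ spin Lv Uu u v ty (nb σ p y) ∧ lev (nb σ p y) = lev t
        · rw [if_pos c1]
          by_cases c2 : Rm_h56 σ z0 m p.1 (es σ p y) g (ω p.1)
          · rw [if_pos ⟨c1.1, c2, c1.2⟩, ind_true_h56 c2]
            ring
          · rw [if_neg (fun h' => c2 h'.2.1), ind_false_h56 c2]
            ring
        · rw [if_neg c1, if_neg (fun h' => c1 ⟨h'.1, h'.2.2⟩)]
      refine le_trans (le_of_eq e7) ?_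
      have e8 : ∑ p ∈ S1 y t, (m p.1 : ℝ) / 28 = (∑ p ∈ S1 y t, (m p.1 : ℝ)) / 28 := by
        rw [Finset.sum_div]
      rw [e8] at e2
      have e9 : q * (∑ i ∈ Es, (m i : ℝ)) / (2 * h) = (2 * q / h * ∑ i ∈ Es, (m i : ℝ)) / 4 := by
        have : (h : ℝ) ≠ 0 := by
          have : 0 < h := by omega
          exact_mod_cast this.ne'
        field_simp
        ring
      rw [e9]
      have e10 : 7 * (ε₂ * N) ≤ ε * N := by
        have := mul_le_mul_of_nonneg_right hε2a hNR.le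
        linarith
      have e11 : (10 * ε₀ + ε) * (N : ℝ) = 10 * (ε₀ * N) + ε * N := by ring
      rw [e11]
      linarith
    · have hemp : (univ : Finset (C × Bool)).filter (fun p => p.1 ∈ Es ∧
          (∃ r, mand σ z0 (fun i => (ω i).1) m p.1 (es σ p y) r ∧
            lb (glb_h56 (ω p.1)) r = g) ∧
          spin Lv Uu u v ty (nb σ p y) ∧ lev (nb σ p y) = j) = ∅ := by
        rw [Finset.filter_eq_empty_iff]
        rintro p _ ⟨_, _, _, h4⟩
        exact hex ⟨_, h4⟩
      rw [hemp, Finset.sum_empty]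
      have h1 : (0 : ℝ) ≤ ∑ i ∈ Es, (m i : ℝ) := Finset.sum_nonneg fun _ _ => Nat.cast_nonneg _
      positivity
  · intro x y hxy hcd
    have w := (abs_le.1 (w2 (x, y))).1
    have e1 : avg (F2 (x, y)) = _ := avg_count_h56 (S2 x y) (fun w (ω : C → Bool × Bool) =>
      optn σ (Os_h56 σ z0 Es m ω) 1 x w ∧ optn σ (Os_h56 σ z0 Es m ω) 2 w y)
    rw [e1] at w
    have e2 := E8_h56 (m := m) hd hzE (S2 x y) x y (by
      intro w hw
      rw [hS2, Finset.mem_filter] at hw
      exact hw.2.2)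
    have e3 := TY.t3 x y hxy
    rw [← hS2] at e3
    have e4 : F2 (x, y) ω ≤ ((univ.filter (fun w => leaf Lv u v ty w ∧
      optn σ (Oset σ z0 Es m (fun i => (ω i).1) (fun i => glb_h56 (ω i))) 1 x w ∧
      optn σ (Oset σ z0 Es m (fun i => (ω i).1) (fun i => glb_h56 (ω i))) 2 w y)).card : ℝ) := by
      simp only [F2]
      rw [Nat.cast_le]
      refine Finset.card_le_card ?_
      intro w hw
      rw [Finset.mem_filter, hS2, Finset.mem_filter] at hw
      rw [Finset.mem_filter]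
      exact ⟨Finset.mem_univ _, hw.1.2.1, hw.2.1, hw.2.2⟩
    refine le_trans ?_ e4
    have h1 : (1 - δ) / 2 * κ ≥ 99 / 200 * (2 / 7 * (99 / 100)) := by
      have h2 : 99 / 200 ≤ (1 - δ) / 2 := by linarith
      exact mul_le_mul h2 hκ (by norm_num) (by linarith)
    have h2 : 99 / 200 * (2 / 7 * (99 / 100)) * ((N : ℝ) / 100) ≤ (1 - δ) / 2 * κ * cdD σ x y :=
      mul_le_mul h1 hcd (by positivity) (le_trans (by norm_num) h1)
    have h3 : ε₀ * N ≤ N / 10 ^ 6 := by
      have := mul_le_mul_of_nonneg_right hε0' hNR.le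
      linarith
    norm_num at h2 h3 hbad hε2N ⊢
    linarith
  · intro x g hg
    have w := (abs_le.1 (w3 (x, g))).1
    have e1 : avg (F3 (x, g)) = _ := avg_count_h56 Wl (fun w (ω : C → Bool × Bool) =>
      optn σ (Os_h56 σ z0 Es m ω) g x w)
    rw [e1] at w
    have e2 := E7_h56 (m := m) hd hzE Wl x hg
    have e3 := TY.t3' x
    have e5 : (univ : Finset (C × Bool)).filter (fun p => nb σ p x ∈ Wl) =
        univ.filter (fun p => leaf Lv u v ty (nb σ p x)) := by
      refine Finset.filter_congr fun p _ => ?_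
      rw [hWl, Finset.mem_filter]
      simp
    rw [e5] at e2
    have e4 : F3 (x, g) ω ≤ ((univ.filter (fun w => leaf Lv u v ty w ∧
      optn σ (Oset σ z0 Es m (fun i => (ω i).1) (fun i => glb_h56 (ω i))) g x w)).card : ℝ) := by
      simp only [F3]
      rw [Nat.cast_le]
      refine Finset.card_le_card ?_
      intro w hw
      rw [Finset.mem_filter, hWl, Finset.mem_filter] at hw
      rw [Finset.mem_filter]
      exact ⟨Finset.mem_univ _, hw.1.2, hw.2⟩
    refine le_trans ?_ e4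
    have h1 : (1 - δ) * κ ≥ 99 / 100 * (2 / 7 * (99 / 100)) :=
      mul_le_mul (by linarith) hκ (by norm_num) (by linarith)
    have h2 : 99 / 100 * (2 / 7 * (99 / 100)) * ((N : ℝ) / 7) ≤ (1 - δ) * κ * Fintype.card C :=
      mul_le_mul h1 (by linarith) (by positivity) (le_trans (by norm_num) h1)
    have h3 : ε₀ * N ≤ N / 10 ^ 6 := by
      have := mul_le_mul_of_nonneg_right hε0' hNR.le
      linarith
    norm_num at h2 h3 hbad hε2N ⊢
    linarith
  · intro x g k hg hDb
    have w := (abs_le.1 (w4 (x, g, k))).1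
    have e1 : avg (F4 (x, g, k)) = _ := avg_count_h56 (Db k) (fun w (ω : C → Bool × Bool) =>
      optn σ (Os_h56 σ z0 Es m ω) g x w)
    rw [e1] at w
    have e2 := E7_h56 (m := m) hd hzE (Db k) x hg
    change _ ≤ F4 (x, g, k) ω
    norm_num at hbad hε2N ⊢
    linarith

end Pool.Agent.KZ
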