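import Pool.Agent.Lib_helper15.KZF.AsmA2
import Pool.Agent.Lib_helper15.KZF.CX
import Pool.Agent.Lib_helper15.KZF.DefsA
import Pool.Agent.Lib_helper15.KZF.DefsN
import Pool.Agent.Lib_helper15.KZF.ED
import Pool.Agent.Lib_helper15.KZF.EXT
import Pool.Agent.Lib_helper15.KZF.GAD
import Pool.Agent.Lib_helper15.KZF.KILL
import Pool.Agent.Lib_helper15.KZF.LEFT
import Pool.Agent.Lib_helper15.KZF.PAR
import Pool.Agent.Lib_helper15.KZF.SML
import Pool.Agent.Lib_helper15.KZF.SPN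
import Pool.Agent.Lib_helper15.KZF.STAGE1
import Pool.Agent.Lib_helper15.KZF.T_DB
import Pool.Agent.Lib_helper15.KZF.T_TF

/-!
# Regime A: existence of a plan
-/

set_option autoImplicit false

namespace Pool.Agent.KZ

open Finset

theorem numA_of {e N n o x : ℝ} {p : ℝ} (hp : p = 1 / 10 ^ 8) (e0 : 0 < e)
    (e1 : 2000 * e ≤ 1 / 10 ^ 12) (hN0 : 10 ^ 14 / e ≤ N) (h2 : 2 * n + 1 ≤ N)
    (hN : N ≤ (2 + e) * n) (ho1 : e * n ≤ o) (ho2 : o ≤ e * n + 1) (x0 : 0 ≤ x)
    (hx : |x - p * (n - o)| ≤ p / 1000 * N) : NumA e p N n o x := by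
  have h3 : 10 ^ 14 ≤ e * N := by
    rw [div_le_iff₀ e0] at hN0
    linarith
  have hN1 : 0 < N := by
    have : 0 < 10 ^ 14 / e := by positivity
    linarith
  have h4 : N ≤ 3 * n := by nlinarith
  have h5 : 1 ≤ e * n := by nlinarith
  exact ⟨hp, e0, e1, by linarith, h2, hN, ho1, by linarith, x0, hx⟩

open Classical in
theorem planA_exist : ∃ (e : ℝ) (N₀ : ℕ), 0 < e ∧ e ≤ 1 / 10 ^ 8 ∧
    ∀ (V C : Type) [Fintype V] [DecidableEq V] [Fintype C] [DecidableEq C]
      (σ : C → Equiv.Perm V), HD σ → N₀ ≤ Fintype.card V →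
      (Fintype.card V : ℝ) ≤ (2 + e) * Fintype.card C →
      ∃ (D : OddD V C) (A : Finset (Sq V C)) (u v v' w : C → V) (ρ : V → ℕ),
        Plan σ D A u v v' w ρ := by
  obtain ⟨p, hp⟩ : ∃ p : ℝ, p = 1 / 10 ^ 8 := ⟨_, rfl⟩
  obtain ⟨δ, hδ⟩ : ∃ δ : ℝ, δ = 1 / (2 * 10 ^ 8) := ⟨_, rfl⟩
  obtain ⟨h, hh⟩ : ∃ h : ℕ, h = 10 ^ 9 + 1 := ⟨_, rfl⟩
  obtain ⟨μ, hμ⟩ : ∃ μ : ℝ, μ = 1 / 10 ^ 9 := ⟨_, rfl⟩
  obtain ⟨η, hη⟩ : ∃ η : ℝ, η = δ ^ 3 * p ^ 2 / 4 := ⟨_, rfl⟩
  have hp0 : 0 < p := by rw [hp]; norm_num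
  have hδ0 : 0 < δ := by rw [hδ]; norm_num
  have hμ0 : 0 < μ := by rw [hμ]; norm_num
  have hη0 : 0 < η := by rw [hη]; positivity
  have hh3 : 3 ≤ h := by rw [hh]; norm_num
  have hh1 : h % 2 = 1 := by rw [hh]; norm_num
  obtain ⟨εl, hεl, Nl, Hl⟩ := left_exist δ hδ0
  obtain ⟨εg, hεg, Ng, Hg⟩ := gad_exist η hη0
  obtain ⟨εL, hεL⟩ : ∃ εL : ℝ, εL = min εl (εg / 2) := ⟨_, rfl⟩
  have hεL0 : 0 < εL := by rw [hεL]; exact lt_min hεl (by linarith)
  obtain ⟨εs, hεs, Ns, Hs⟩ := spine_exist h (1 / 4) μ εL hh3 (by norm_num) hμ0 hεL0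
  obtain ⟨e, he⟩ : ∃ e : ℝ, e = min (min (min εl εg) (min εs η)) (1 / 10 ^ 12) / 2000 := ⟨_, rfl⟩
  have he0 : 0 < e := by
    rw [he]
    refine div_pos (lt_min (lt_min (lt_min hεl hεg) (lt_min hεs hη0)) (by norm_num)) (by norm_num)
  have hel : 2000 * e ≤ εl := by
    rw [he]
    have : min (min (min εl εg) (min εs η)) (1 / 10 ^ 12) ≤ εl :=
      (min_le_left _ _).trans ((min_le_left _ _).trans (min_le_left _ _))
    linarith
  have heg : 2000 * e ≤ εg := by
    rw [he]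
    have : min (min (min εl εg) (min εs η)) (1 / 10 ^ 12) ≤ εg :=
      (min_le_left _ _).trans ((min_le_left _ _).trans (min_le_right _ _))
    linarith
  have hes : 2000 * e ≤ εs := by
    rw [he]
    have : min (min (min εl εg) (min εs η)) (1 / 10 ^ 12) ≤ εs :=
      (min_le_left _ _).trans ((min_le_right _ _).trans (min_le_left _ _))
    linarith
  have heη : 2000 * e ≤ η := by
    rw [he]
    have : min (min (min εl εg) (min εs η)) (1 / 10 ^ 12) ≤ η :=
      (min_le_left _ _).trans ((min_le_right _ _).trans (min_le_right _ _))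
    linarith
  have he12 : 2000 * e ≤ 1 / 10 ^ 12 := by
    rw [he]
    have : min (min (min εl εg) (min εs η)) (1 / 10 ^ 12) ≤ 1 / 10 ^ 12 := min_le_right _ _
    linarith
  obtain ⟨Nx, Hx⟩ := choose_X p (p / 1000) hp0 (by rw [hp]; norm_num) (by positivity)
  obtain ⟨N1, H1⟩ := stage1 (e / 2) e (by positivity) he0
  obtain ⟨Nt, Ht⟩ := types_exist δ e h hδ0 (by rw [hδ]; norm_num) he0 hh3 hh1
  obtain ⟨Nd, Hd⟩ := dirs_exist e he0
  refine ⟨e, Nl + Ng + Ns + Nx + N1 + Nt + Nd + ⌈10 ^ 14 / e⌉₊ + 10 ^ 9, he0, by linarith, ?_⟩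
  intro V C _ _ _ _ σ hσ hN hNe
  -- numbers
  have hn2 : 2 * Fintype.card C + 1 ≤ Fintype.card V := hd_deg hσ
  have hbig : 10 ^ 14 / e ≤ (Fintype.card V : ℝ) := by
    refine (Nat.le_ceil _).trans ?_
    exact_mod_cast (show ⌈10 ^ 14 / e⌉₊ ≤ Fintype.card V by omega)
  have hn2r : 2 * (Fintype.card C : ℝ) + 1 ≤ Fintype.card V := by exact_mod_cast hn2
  have hNpos : (0 : ℝ) < Fintype.card V := by
    have : 0 < 10 ^ 14 / e := by positivity
    linarith
  have hVne : Nonempty V := by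
    rw [← Fintype.card_pos_iff]
    exact_mod_cast hNpos
  have hnpos : (0 : ℝ) < Fintype.card C := by
    by_contra hc
    push Not at hc
    nlinarith
  -- the odd colours
  have hceil : ⌈e * Fintype.card C⌉₊ ≤ (univ : Finset C).card := by
    rw [Finset.card_univ, Nat.ceil_le]
    nlinarith
  obtain ⟨O, -, hOc⟩ := Finset.exists_subset_card_eq hceil
  have ho1 : e * Fintype.card C ≤ (O.card : ℝ) := by rw [hOc]; exact Nat.le_ceil _
  have ho2 : (O.card : ℝ) ≤ e * Fintype.card C + 1 := by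
    rw [hOc]
    exact (Nat.ceil_lt_add_one (by positivity)).le
  have hon : (O.card : ℝ) ≤ Fintype.card C / 100 := by
    have h1 : (Fintype.card V : ℝ) ≤ 3 * Fintype.card C := by nlinarith
    have h2 : 10 ^ 14 / e ≤ 3 * (Fintype.card C : ℝ) := hbig.trans h1
    have h3 : 10 ^ 14 ≤ 10 ^ 14 / e := by
      rw [le_div_iff₀ he0]
      nlinarith
    nlinarith
  obtain ⟨X, hXO, hXc, hXS⟩ := Hx V C σ hσ (by omega) (by nlinarith) O hon
  have HN : NumA e p (Fintype.card V) (Fintype.card C) O.card X.card :=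
    numA_of hp he0 he12 hbig hn2r hNe ho1 ho2 (Nat.cast_nonneg _) hXc
  have h7 : Fintype.card V ≤ 7 * Fintype.card C := by
    have h1 := HN.N21
    have : (Fintype.card V : ℝ) ≤ 7 * Fintype.card C := by nlinarith
    exact_mod_cast this
  -- stage 1
  obtain ⟨cl, hcl⟩ : ∃ cl : C → Fin 3, ∀ i, cl i = if i ∈ O then 0 else if i ∈ X then 1 else 2 :=
    ⟨_, fun _ => rfl⟩
  obtain ⟨z0, z1, u, v, v', w, b, ρ, hOut, hReg⟩ := H1 V C σ hσ (by omega) h7 O cl
    (by linarith) HN.c1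
  obtain ⟨κ, hκ⟩ : ∃ κ : ℝ, κ = 2 * (Fintype.card C - O.card) / Fintype.card V := ⟨_, rfl⟩
  rw [← hκ] at hReg
  have hκ5 : 1 - κ ≤ 5 * e := by rw [hκ]; exact HN.kap
  have hκ1 : κ ≤ 1 := by rw [hκ]; exact HN.kap1
  have hκ99 : 0.99 ≤ κ := by rw [hκ]; exact HN.kap99
  have hκN : κ * Fintype.card V = 2 * (Fintype.card C - O.card) := by
    rw [hκ]; field_simp
  have hoN : (O.card : ℝ) / Fintype.card V ≤ e := by
    rw [div_le_iff₀ hNpos]; exact HN.oN
  have hReg5 : Reg σ (cvd O u v) κ (5 * e) cl := by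
    refine reg_mono ?_ hReg
    have : 4 * (O.card : ℝ) / Fintype.card V = 4 * ((O.card : ℝ) / Fintype.card V) := by ring
    rw [this]
    linarith
  -- types
  obtain ⟨ty, lev, hT0⟩ := Ht V C σ hσ (by omega) h7 O cl z0 z1 u v v' w b ρ κ (5 * e) false
    (fun i x => SgX σ X i x) hOut hκ (by linarith) hReg5 (Or.inr hκ5)
  have hpair : ∀ i ∈ univ \ O, ∀ j ∈ univ \ O, i ≠ j →
      Disjoint ({u i, v i} : Finset V) {u j, v j} := fun i hi j hj hij =>
    hOut.dis0 i (Finset.mem_sdiff.1 hi).2 j (Finset.mem_sdiff.1 hj).2 hij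
  obtain ⟨Sp, hSp⟩ : ∃ Sp : Finset V, Sp = O.image (fun i => σ i (b i)) := ⟨_, rfl⟩
  have hSpc : (Sp.card : ℝ) ≤ O.card := by
    rw [hSp]; exact_mod_cast Finset.card_image_le
  obtain ⟨Lv, hLv⟩ : ∃ Lv : Finset C, Lv = (univ \ O).filter (fun i => u i ∉ Sp ∧ v i ∉ Sp) :=
    ⟨_, rfl⟩
  obtain ⟨q, hq⟩ : ∃ q : ℝ, q = κ * (1 - δ) / 2 := ⟨_, rfl⟩
  have hT1 : Types σ Lv ∅ u v cl δ h q κ (110 * e) (fun i x => SgX σ X i x) ty lev := by
    have h1 := types_kill hσ Sp hpair hT0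
    have h2 : ((if (false : Bool) = true then univ \ cvd O u v else ∅) : Finset V) \ Sp = ∅ := by
      simp
    have h3 : (κ * (1 - δ) / 2 + if (false : Bool) = true then 1 - κ else 0) = q := by
      rw [hq]; simp
    rw [h2, h3, ← hLv] at h1
    refine types_mono ?_ h1
    have h4 : 8 * (Sp.card : ℝ) / Fintype.card V ≤ 8 * e := by
      rw [div_le_iff₀ hNpos]
      have := HN.oN
      linarith
    linarith
  have hLvO : ∀ i ∈ Lv, i ∉ O := by
    intro i hi
    rw [hLv, Finset.mem_filter, Finset.mem_sdiff] at hi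
    exact hi.1.2
  have hLvd : ∀ i ∈ Lv, ∀ j ∈ Lv, i ≠ j → Disjoint ({u i, v i} : Finset V) {u j, v j} :=
    fun i hi j hj hij => hOut.dis0 i (hLvO i hi) j (hLvO j hj) hij
  -- parts
  obtain ⟨W0, hW0⟩ : ∃ W0 : Finset V, W0 = univ.filter (fun x => leaf Lv u v ty x) := ⟨_, rfl⟩
  have hmemW : ∀ x, x ∈ W0 ↔ leaf Lv u v ty x := by intro x; rw [hW0]; simp
  have hn9 : 10 ^ 9 ≤ Fintype.card V := by omega
  obtain ⟨s, d, hs0, hs1, -, -, hrig⟩ := parts_exist σ hσ W0 1 ⌊(Fintype.card V : ℝ) / 10 ^ 5⌋₊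
    hn9 h7 (Nat.floor_le (by positivity)) (Or.inr ⟨rfl, HN.N21⟩)
    (by
      have h1 : W0.card ≤ Fintype.card C := by
        rw [hW0]
        exact (leaf_card Lv u v ty).trans (Finset.card_le_univ _)
      exact_mod_cast h1)
    (by
      intro x
      have h1 := hT1.t3' x
      have h2 : (univ : Finset (C × Bool)).filter (fun p => nb σ p x ∈ W0) =
          (univ : Finset (C × Bool)).filter (fun p => leaf Lv u v ty (nb σ p x)) := by
        ext p; simp [hmemW]
      rw [h2]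
      refine le_trans ?_ h1
      rw [hκ]
      exact HN.hW (by rw [hδ]; norm_num) hδ0)
  have hs : s = 1 := by omega
  -- directions
  have hesm : ∀ i, i ∈ (univ.filter (fun i => cl i ∈ ({2} : Finset (Fin 3)))) ↔
      i ∉ O ∧ i ∉ X := by
    intro i
    rw [Finset.mem_filter, Finset.mem_singleton, hcl]
    by_cases h1 : i ∈ O
    · simp [h1]
    · by_cases h2 : i ∈ X
      · simp [h1, h2]
      · simp [h1, h2]
  have hXdO : ∀ i ∈ X, i ∉ O := fun i hi ho => Finset.disjoint_left.1 hXO hi ho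
  have hXNlt : (X.card : ℝ) ≤ 1.01 * p * Fintype.card C := HN.xn
  obtain ⟨dir, gl, hD0⟩ := Hd V C σ hσ (by omega) h7 Lv ∅ z0 u v cl δ h q κ (110 * e)
    (fun i x => SgX σ X i x) ty lev (fun _ => 1) {2} (fun _ => ∅) hT1 (by linarith)
    (by linarith) hδ0 (by rw [hδ]; norm_num) (by linarith) (by omega)
    (by rw [hq]; have : 0 ≤ 1 - δ := by (rw [hδ]; norm_num)
        positivity)
    (by intro k; norm_num) (by intro k _; norm_num)
    (by
      have h1 : (univ.filter (fun i => cl i ∉ ({2} : Finset (Fin 3)))) ⊆ O ∪ X := by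
        intro i hi
        rw [Finset.mem_filter, Finset.mem_singleton, hcl] at hi
        by_contra h2
        rw [Finset.mem_union, not_or] at h2
        exact hi.2 (by simp [h2.1, h2.2])
      have h2 : ((univ.filter (fun i => cl i ∉ ({2} : Finset (Fin 3)))).card : ℝ) ≤
          O.card + X.card := by
        exact_mod_cast (Finset.card_le_card h1).trans (Finset.card_union_le _ _)
      have h3 := HN.o2
      have h4 := HN.h2
      rw [hp] at hXNlt
      nlinarith)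
    (by
      intro i hi j hj hij
      have hiO : ∀ i, cl i ∈ ({2} : Finset (Fin 3)) → i ∉ O := fun i hi =>
        ((hesm i).1 (Finset.mem_filter.2 ⟨Finset.mem_univ _, hi⟩)).1
      rw [ed_pair (hOut.e0 i (hiO i hi)), ed_pair (hOut.e0 j (hiO j hj))]
      exact hOut.dis0 i (hiO i hi) j (hiO j hj) hij)
  obtain ⟨Es, hEs⟩ : ∃ Es : Finset C, Es = univ.filter (fun i => cl i ∈ ({2} : Finset (Fin 3))) :=
    ⟨_, rfl⟩
  rw [← hEs] at hD0
  have hesm' : ∀ i, i ∈ Es ↔ i ∉ O ∧ i ∉ X := by intro i; rw [hEs]; exact hesm i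
  have hEsc : Es.card + O.card + X.card = Fintype.card C := by
    have h1 : Es = univ \ (O ∪ X) := by
      ext i; rw [hesm']; simp
    rw [h1, Finset.card_univ_sdiff, Finset.card_union_of_disjoint hXO.symm]
    have h2 : O.card + X.card ≤ Fintype.card C := by
      rw [← Finset.card_union_of_disjoint hXO.symm]
      exact Finset.card_le_univ _
    omega
  have hEscr : (Es.card : ℝ) = Fintype.card C - O.card - X.card := by
    have : (Es.card : ℝ) + O.card + X.card = Fintype.card C := by exact_mod_cast hEsc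
    linarith
  have hsumEs : (∑ i ∈ Es, (((fun _ => 1) : C → ℕ) i : ℝ)) = Es.card := by simp
  -- spine letters
  have hq1 : 1 / 4 ≤ q := by
    rw [hq, hδ]; nlinarith
  have hq2 : q ≤ 1 := by
    rw [hq, hδ]; nlinarith
  have hqN : q * Fintype.card V = (Fintype.card C - O.card) * (1 - δ) := by
    rw [hq]
    linear_combination (1 - δ) / 2 * hκN
  have hT2 : Types σ Lv ∅ u v cl δ h q κ (10 * (110 * e) + e) (fun i x => SgX σ X i x) ty lev :=
    types_mono (by linarith) hT1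
  obtain ⟨Ls, hSpl, hLs⟩ := Hs V C σ hσ (by omega) h7 Lv ∅ z0 u v cl δ q κ (10 * (110 * e) + e)
    (fun i x => SgX σ X i x) ty lev Es (fun _ => 1) (fun _ => ∅) dir gl hT2 hD0 (by linarith)
    hq1 hq2 (by intro i _; norm_num)
    (by
      rw [hsumEs, hEscr]
      have h1 := HN.xl
      have h2 := HN.o100
      have h3 : (h : ℝ) = 10 ^ 9 + 1 := by rw [hh]; norm_num
      have h4 : (1 - μ) * q * Fintype.card V * ((h : ℝ) - 1) / h =
          (1 - μ) * ((Fintype.card C - O.card) * (1 - δ)) * (((h : ℝ) - 1) / h) := by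
        rw [← hqN]; ring
      rw [h4, h3, hμ, hδ]
      rw [hp] at h1
      refine h1.trans ?_
      have h5 : (0 : ℝ) ≤ Fintype.card C - O.card := by linarith
      have h6 : (1 - 0.99 * (1 / 10 ^ 8) : ℝ) ≤
          (1 - 1 / 10 ^ 9) * (1 - 1 / (2 * 10 ^ 8)) * ((10 ^ 9 + 1 - 1) / (10 ^ 9 + 1)) := by
        norm_num
      nlinarith)
  -- all mandatory letters
  have he0z : ∀ i ∉ O, ed σ i (z0 i) = s(u i, v i) := hOut.e0
  obtain ⟨Lm, Ru, hLett, hRu⟩ := Hl V C σ hσ (by omega) Lv ∅ z0 u v cl h q κ (110 * e) εL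
    (fun i x => SgX σ X i x) ty lev Es (fun _ => 1) dir gl Ls hT1 (by linarith)
    (by rw [hεL]; exact min_le_left _ _) (by linarith) hLvd
    (fun i hi => he0z i ((hesm' i).1 hi).1) (fun i hi => he0z i (hLvO i hi)) hSpl
    (by intro i _; norm_num) hD0.gl0 hLs
  -- gadgets
  have hεL2 : 2 * εL ≤ εg := by
    have : εL ≤ εg / 2 := by rw [hεL]; exact min_le_right _ _
    linarith
  obtain ⟨bt, p', q', zp, zq, Rg, hGad⟩ := Hg V C σ hσ (by omega) O X Lv u v b ty Ru
    (by have := HN.oN; nlinarith)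
    (by
      refine hRu.trans ?_
      exact mul_le_mul_of_nonneg_right hεL2 hNpos.le)
    (by
      intro i hi
      refine ⟨(SgX σ X i (b i)).filter (fun β => rese Lv u v ty β ∧ rese Lv u v ty (σ i β) ∧
        rese Lv u v ty ((σ i)⁻¹ β)), Finset.filter_subset _ _, ?_,
        fun β hβ => (Finset.mem_filter.1 hβ).2⟩
      have h1 := hT1.t6 i (b i)
      have h2 := hXS i hi (b i)
      have h3 : δ ^ 3 * (p ^ 2 / 2 * Fintype.card V) ≤ δ ^ 3 * ((SgX σ X i (b i)).card : ℝ) :=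
        mul_le_mul_of_nonneg_left h2 (by positivity)
      have h4 : δ ^ 3 * (p ^ 2 / 2 * Fintype.card V) = 2 * η * Fintype.card V := by
        rw [hη]; ring
      have h5 : 110 * e * Fintype.card V ≤ η * Fintype.card V :=
        mul_le_mul_of_nonneg_right (by linarith) hNpos.le
      refine le_trans ?_ h1
      linarith)
    hLvd
  -- extra letters
  obtain ⟨Y, hY⟩ : ∃ Y : Finset C, Y = X.filter (fun i => ∀ j ∈ O, i ≠ p' j ∧ i ≠ q' j) :=
    ⟨_, rfl⟩
  have hYX : Y.card ≤ X.card := by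
    rw [hY]; exact Finset.card_le_card (Finset.filter_subset _ _)
  have hYr : (Y.card : ℝ) ≤ 1.01 * p * Fintype.card C :=
    le_trans (by exact_mod_cast hYX) hXNlt
  obtain ⟨ze, hExt⟩ := ext_exist σ hσ Y Lv u v ty lev
    (by
      intro c _
      refine ⟨univ.filter (fun x => oleaf Lv u v ty lev x ∧ oleaf Lv u v ty lev (σ c x)), ?_,
        fun x hx => (Finset.mem_filter.1 hx).2⟩
      have h1 := hT1.t5 c
      have h2 : (4 * Y.card : ℝ) <
          ((univ.filter (fun x => oleaf Lv u v ty lev x ∧ oleaf Lv u v ty lev (σ c x))).card : ℝ) := by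
        refine lt_of_lt_of_le ?_ h1
        have h3 : (0.24 : ℝ) ^ 2 * 0.99 ^ 2 ≤ ((1 - δ) / 4) ^ 2 * κ ^ 2 := by
          have h4 : (0.24 : ℝ) ≤ (1 - δ) / 4 := by rw [hδ]; norm_num
          have h5 : (0.24 : ℝ) ^ 2 ≤ ((1 - δ) / 4) ^ 2 := by
            exact pow_le_pow_left₀ (by norm_num) h4 2
          have h6 : (0.99 : ℝ) ^ 2 ≤ κ ^ 2 := pow_le_pow_left₀ (by norm_num) hκ99 2
          exact mul_le_mul h5 h6 (by norm_num) (by positivity)
        have h7 : (0.24 : ℝ) ^ 2 * 0.99 ^ 2 * Fintype.card V ≤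
            ((1 - δ) / 4) ^ 2 * κ ^ 2 * Fintype.card V :=
          mul_le_mul_of_nonneg_right h3 hNpos.le
        have h8 : 110 * e * Fintype.card V ≤ 1 / 10 ^ 12 * Fintype.card V :=
          mul_le_mul_of_nonneg_right (by linarith) hNpos.le
        rw [hp] at hYr
        nlinarith
      exact_mod_cast h2)
  -- assembly
  have hDat : DatA σ O X Y Es Lv z0 z1 u v v' w b ρ ty lev h (fun _ => 1) dir gl Ls Lm Ru bt p' q'
      zp zq ze Rg := by
    refine
      { dat :=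
          { hd := hσ
            out := hOut
            esO := fun i hi => ((hesm' i).1 hi).1
            lvO := hLvO
            uuE := by intro i _; simp
            lev1 := hT1.lev1
            m1 := by intro i _; refine ⟨le_rfl, ?_⟩; show 20 * 1 ≤ _; omega
            gl0 := hD0.gl0
            spl := hSpl
            lt := hLett }
        part := fun i h1 h2 => (hesm' i).2 ⟨h1, h2⟩
        xO := fun i hi => ⟨hXdO i hi, fun h => ((hesm' i).1 h).2 hi⟩
        lvk := ?_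
        gad := hGad
        yy := ?_
        ext := hExt }
    · intro j hj i hi
      rw [hLv, Finset.mem_filter, hSp] at hj
      refine ⟨fun h => hj.2.1 ?_, fun h => hj.2.2 ?_⟩
      · rw [← h]; exact Finset.mem_image_of_mem _ hi
      · rw [← h]; exact Finset.mem_image_of_mem _ hi
    · intro i
      rw [hY, Finset.mem_filter]
  obtain ⟨K, hK⟩ : ∃ K : ℕ, K = Fintype.card V + 9 * O.card + 3 * X.card - 2 * Fintype.card C :=
    ⟨_, rfl⟩
  have hKr : (K : ℝ) ≤ 4 * p * Fintype.card C := by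
    refine HN.kK ?_
    rw [hK, Nat.cast_sub (by omega)]
    push_cast
    exact le_rfl
  have hn0 := HN.n0
  have hn1 := HN.n1
  have hrig' : ∀ W' ⊆ univ.filter (fun x => leaf Lv u v ty x),
      ((univ.filter (fun x => leaf Lv u v ty x)) \ W').card ≤ ⌊(Fintype.card V : ℝ) / 10 ^ 5⌋₊ →
      ∀ E : V → V → Prop, Equivalence E →
        (∀ x ∈ W', ∀ y ∈ W', (Fintype.card V : ℝ) / 100 ≤ cdD σ x y → E x y) →
        (∀ x ∈ W', ∀ y ∈ W', d x = d y → d x ≠ none → E x y) ∧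
        (∀ x ∈ W', ∃ y ∈ W', d y ≠ none ∧ E x y) := by
    intro W' h1 h2
    rw [← hW0] at h1 h2
    exact hrig W' h1 h2
  refine planA_core hDat hD0 K ?_ ?_ _ ?_ hs d hrig'
  · have h1 : (univ \ O).card = Fintype.card C - O.card := by
      rw [Finset.card_univ_sdiff]
    have h2 : ∑ i ∈ Es, (fun _ => 1 : C → ℕ) i = Es.card := by simp
    rw [h1, h2, hK]
    omega
  · rw [hp] at hKr hYr
    nlinarith
  · rw [Nat.le_floor_iff (by positivity)]
    push_cast
    rw [hp] at hKr hYr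
    nlinarith

end Pool.Agent.KZ
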