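import Pool.Agent.Lib_helper15.KZF.DefsA
import Pool.Agent.Lib_helper15.KZF.DefsN

/-! # Bridges in one Hamiltonian cycle (block KB) -/

set_option autoImplicit false
set_option linter.unusedSectionVars false

namespace Pool.Agent.KZ

open Finset

section
variable {V : Type} [Fintype V] [DecidableEq V]

/-- entrance into the class `b` -/
lemma entrance_h56 {s : ℕ} (τ : Equiv.Perm V) (a : V → Fin s) (b : Fin s) :
    ∀ k : ℕ, ∀ u : V, a u ≠ b → a ((τ ^ k) u) = b →
      ∃ p, a p ≠ b ∧ a (τ p) = b ∧ (τ p = (τ ^ k) u ∨ a (τ (τ p)) = b) := by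
  intro k
  induction k using Nat.strong_induction_on with
  | _ k ih =>
    intro u hu hk
    match k, ih, hk with
    | 0, _, hk => exact absurd hk (by simpa using hu)
    | 1, _, hk => exact ⟨u, hu, by simpa using hk, Or.inl (by simp)⟩
    | k + 2, ih, hk =>
      have e1 : (τ ^ (k + 2)) u = (τ ^ (k + 1)) (τ u) := by
        rw [pow_succ τ (k + 1), Equiv.Perm.mul_apply]
      have e2 : (τ ^ (k + 2)) u = (τ ^ k) (τ (τ u)) := by
        rw [e1, pow_succ, Equiv.Perm.mul_apply]
      by_cases h1 : a (τ u) = b
      · by_cases h2 : a (τ (τ u)) = b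
        · exact ⟨u, hu, h1, Or.inr h2⟩
        · rw [e2] at hk ⊢
          exact ih k (by omega) _ h2 hk
      · rw [e1] at hk ⊢
        exact ih (k + 1) (by omega) _ h1 hk

lemma tree3_h56 {E : Fin 3 → Fin 3 → Prop} (hE : Equivalence E) {p q r t : Fin 3} (h1 : E p q)
    (h2 : E r t) (hpq : p ≠ q) (hrt : r ≠ t)
    (hne : ¬ ((p = r ∧ q = t) ∨ (p = t ∧ q = r))) : ∀ x y, E x y := by
  have key : ∀ x, E x p := by
    intro x
    by_cases e1 : x = p
    · rw [e1]; exact hE.refl p
    by_cases e2 : x = q
    · rw [e2]; exact hE.symm h1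
    by_cases e3 : r = x
    · rw [← e3]
      have : t = p ∨ t = q := by
        clear h1 h2 hE
        omega
      rcases this with h | h
      · rw [← h]; exact h2
      · exact hE.trans (h ▸ h2) (hE.symm h1)
    · have ht : t = x ∧ (r = p ∨ r = q) := by
        clear h1 h2 hE
        omega
      rw [← ht.1]
      rcases ht.2 with h | h
      · rw [← h]; exact hE.symm h2
      · exact hE.trans (h ▸ hE.symm h2) (hE.symm h1)
  intro x y
  exact hE.trans (key x) (hE.symm (key y))

/-- block KB: bridges in one Hamiltonian cycle -/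
theorem bridges (τ : Equiv.Perm V) (hτ : ∀ x y, ∃ k : ℕ, (τ ^ k) x = y)
    (hN : 6 ≤ Fintype.card V) (s : ℕ) (hs : s ≤ 3) (a : V → Fin s)
    (ha : ∀ b, ∃ x y, x ≠ y ∧ a x = b ∧ a y = b) :
    ∃ x1 x2 : V, Disjoint ({x1, τ x1} : Finset V) {x2, τ x2} ∧
      ∀ E : Fin s → Fin s → Prop, Equivalence E → E (a x1) (a (τ x1)) → E (a x2) (a (τ x2)) →
        ∀ x y, E x y := by
  classical
  have hne : Nonempty V := Fintype.card_pos_iff.1 (by omega)
  -- small powers do not fix vertices
  have hpow : ∀ (x : V) (j : ℕ), 0 < j → j < 4 → (τ ^ j) x ≠ x := by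
    intro x j h0 h4 hx
    -- the orbit of `x` has at most `j` elements
    have hsub : (Finset.univ : Finset V) ⊆ (Finset.range j).image (fun i => (τ ^ i) x) := by
      intro y _
      obtain ⟨k, hk⟩ := hτ x y
      rw [Finset.mem_image]
      refine ⟨k % j, Finset.mem_range.2 (Nat.mod_lt _ h0), ?_⟩
      rw [← hk]
      have hmul : ∀ m, (τ ^ (j * m)) x = x := by
        intro m
        induction m with
        | zero => simp
        | succ m ih => rw [Nat.mul_succ, pow_add, Equiv.Perm.mul_apply, hx, ih]
      conv_rhs => rw [← Nat.mod_add_div k j, pow_add, Equiv.Perm.mul_apply, hmul]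
    have := (Finset.card_le_card hsub).trans Finset.card_image_le
    rw [Finset.card_univ, Finset.card_range] at this
    omega
  have hp1 : ∀ x, τ x ≠ x := fun x => by simpa using hpow x 1 (by omega) (by omega)
  have hp2 : ∀ x, τ (τ x) ≠ x := fun x => by
    simpa [pow_succ, Equiv.Perm.mul_apply] using hpow x 2 (by omega) (by omega)
  have hp3 : ∀ x, τ (τ (τ x)) ≠ x := fun x => by
    simpa [pow_succ, Equiv.Perm.mul_apply] using hpow x 3 (by omega) (by omega)
  have hdis2 : ∀ x, Disjoint ({x, τ x} : Finset V) {τ (τ x), τ (τ (τ x))} := by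
    intro x
    rw [Finset.disjoint_left]
    intro y hy hy'
    simp only [Finset.mem_insert, Finset.mem_singleton] at hy hy'
    rcases hy with rfl | rfl
    · rcases hy' with h | h
      · exact hp2 _ h.symm
      · exact hp3 _ h.symm
    · rcases hy' with h | h
      · exact hp1 _ h.symm
      · exact hp2 _ h.symm
  have hent : ∀ b c : Fin s, b ≠ c → ∃ p, a p ≠ b ∧ a (τ p) = b := by
    intro b c hbc
    obtain ⟨x, _, _, hx, _⟩ := ha b
    obtain ⟨u, _, _, hu, _⟩ := ha c
    obtain ⟨k, hk⟩ := hτ u x
    obtain ⟨p, h1, h2, _⟩ := entrance_h56 τ a b k u (by rw [hu]; exact hbc.symm)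
      (by rw [hk]; exact hx)
    exact ⟨p, h1, h2⟩
  interval_cases s
  · exact absurd (a (Classical.arbitrary V)).2 (by omega)
  · obtain ⟨x⟩ := hne
    refine ⟨x, τ (τ x), hdis2 x, ?_⟩
    intro E hE _ _ y z
    rw [Subsingleton.elim y z]
    exact hE.refl z
  · obtain ⟨p, h1, h2⟩ := hent 0 1 (by decide)
    refine ⟨p, τ (τ p), hdis2 p, ?_⟩
    intro E hE h3 _ y z
    rw [h2] at h3
    have h4 : a p = 1 := by omega
    rw [h4] at h3
    fin_cases y <;> fin_cases z
    · exact hE.refl _
    · exact hE.symm h3
    · exact h3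
    · exact hE.refl _
  · obtain ⟨x, hx1, hx2⟩ := hent 0 1 (by decide)
    -- the third class
    obtain ⟨c', hc0, hcx⟩ : ∃ c' : Fin 3, c' ≠ 0 ∧ c' ≠ a x := by
      rcases (by omega : a x = 1 ∨ a x = 2) with h | h
      · exact ⟨2, by decide, by rw [h]; decide⟩
      · exact ⟨1, by decide, by rw [h]; decide⟩
    obtain ⟨y, hy1, hy2⟩ := hent c' 0 hc0
    by_cases hxy : τ x = y
    · -- three consecutive vertices `x, y, τ y` of different classes
      have hay : a y = 0 := by rw [← hxy]; exact hx2
      obtain ⟨v1, v2, hv, hv1, hv2⟩ := ha 0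
      obtain ⟨y', hy'1, hy'2⟩ : ∃ y', y' ≠ y ∧ a y' = 0 := by
        by_cases h : v1 = y
        · exact ⟨v2, by rw [← h]; exact hv.symm, hv2⟩
        · exact ⟨v1, h, hv1⟩
      obtain ⟨k, hk⟩ := hτ x y'
      obtain ⟨p, hp1', hp2', hp3'⟩ := entrance_h56 τ a 0 k x hx1 (by rw [hk]; exact hy'2)
      have hqy : τ p ≠ y := by
        intro h
        rcases hp3' with h' | h'
        · exact hy'1 (by rw [← hk, ← h', h])
        · rw [h, hy2] at h'
          exact hc0 h'
      have hpx : p ≠ x := by
        rintro rfl
        exact hqy hxy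
      by_cases hap : a p = a x
      · -- `f'' = (p, τ p)` and `f' = (y, τ y)`
        refine ⟨p, y, ?_, ?_⟩
        · rw [Finset.disjoint_left]
          intro z hz hz'
          simp only [Finset.mem_insert, Finset.mem_singleton] at hz hz'
          rcases hz with rfl | rfl
          · rcases hz' with h | h
            · rw [h] at hp1'
              exact hp1' hay
            · apply hcx
              rw [← hap, h, hy2]
          · rcases hz' with h | h
            · exact hqy h
            · rw [h, hy2] at hp2'
              exact hc0 hp2'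
        · intro E hE h3 h4
          rw [hp2', hap] at h3
          rw [hay, hy2] at h4
          refine tree3_h56 hE h3 h4 (by omega) (by omega) (by omega)
      · -- `f'' = (p, τ p)` and `f = (x, y)`
        have hap' : a p = c' := by omega
        refine ⟨p, x, ?_, ?_⟩
        · rw [Finset.disjoint_left]
          intro z hz hz'
          simp only [Finset.mem_insert, Finset.mem_singleton] at hz hz'
          rcases hz with rfl | rfl
          · rcases hz' with h | h
            · exact hpx h
            · rw [h, hxy] at hp1'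
              exact hp1' hay
          · rcases hz' with h | h
            · rw [h] at hp2'
              exact hx1 hp2'
            · rw [hxy] at h
              exact hqy h
        · intro E hE h3 h4
          rw [hp2', hap'] at h3
          rw [hx2] at h4
          refine tree3_h56 hE h3 h4 (by omega) (by omega) (by omega)
    · refine ⟨x, y, ?_, ?_⟩
      · rw [Finset.disjoint_left]
        intro z hz hz'
        simp only [Finset.mem_insert, Finset.mem_singleton] at hz hz'
        rcases hz with rfl | rfl
        · rcases hz' with h | h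
          · rw [h] at hx2
            rw [hx2] at hy2
            exact hc0 hy2.symm
          · apply hcx
            rw [h, hy2]
        · rcases hz' with h | h
          · exact hxy h
          · rw [h, hy2] at hx2
            exact hc0 hx2
      · intro E hE h3 h4
        rw [hx2] at h3
        rw [hy2] at h4
        refine tree3_h56 hE h3 h4 (by omega) (by omega) (by omega)

end

end Pool.Agent.KZ
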