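import Pool.Agent.Lib_helper15.KZF.CYC
import Pool.Agent.Lib_helper15.KZF.DACY
import Pool.Agent.Lib_helper15.KZF.DBASE
import Pool.Agent.Lib_helper15.KZF.DefsA
import Pool.Agent.Lib_helper15.KZF.DefsN
import Pool.Agent.Lib_helper15.KZF.ED
import Pool.Agent.Lib_helper15.KZF.MP2
import Pool.Agent.Lib_helper15.KZF.UPD

set_option autoImplicit false

namespace Pool.Agent.KZ

open Finset

section B

variable {V C : Type} [Fintype V] [DecidableEq V] [Fintype C] [DecidableEq C]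
variable {σ : C → Equiv.Perm V} {is : C} {x1 x2 : V} {Es Lv : Finset C} {Uu : Finset V}
  {z0 z1 u v v' w b : C → V} {ρ : V → ℕ} {ty : C → Fin 3} {lev : V → ℕ} {h : ℕ} {m : C → ℕ}
  {dir : C → Bool} {gl : C → Fin 3} {Ls Lm : Finset (Sq V C)} {Ru : Finset C}

theorem BBR_pair (D : Dat σ ∅ Es Lv Uu z0 z1 u v v' w b ρ ty lev h m dir gl Ls Lm Ru)
    {i j : C} {x : V} (hi : x = u i ∨ x = v i) (hj : x = u j ∨ x = v j) : i = j := by
  by_contra hne
  have h1 := D.out.dis0 i (by simp) j (by simp) hne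
  rw [Finset.disjoint_left] at h1
  refine h1 (a := x) ?_ ?_
  · rcases hi with rfl | rfl <;> simp
  · rcases hj with rfl | rfl <;> simp

/-- a spine vertex is not in a pair of type 0 -/
theorem BBR_spin (D : Dat σ ∅ Es Lv Uu z0 z1 u v v' w b ρ ty lev h m dir gl Ls Lm Ru)
    {j : C} {x : V} (hj : x = u j ∨ x = v j) (ht : ty j = 0) : ¬ spin Lv Uu u v ty x := by
  rintro (⟨i, hi, h1⟩ | h1)
  · have h2 : x = u i ∨ x = v i := by tauto
    have h3 := BBR_pair D h2 hj
    subst h3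
    rw [ht] at h1
    rcases h1 with ⟨h1, -⟩ | ⟨h1, -⟩
    · exact absurd h1 (by decide)
    · exact absurd h1 (by decide)
  · have h2 := D.uuE j (by simp)
    rcases hj with rfl | rfl
    · exact h2.1 h1
    · exact h2.2 h1

/-- a leaf is not a spine vertex -/
theorem BBR_leaf_spin (D : Dat σ ∅ Es Lv Uu z0 z1 u v v' w b ρ ty lev h m dir gl Ls Lm Ru)
    {x : V} (hl : leaf Lv u v ty x) : ¬ spin Lv Uu u v ty x := by
  obtain ⟨i, hi, h0⟩ := hl
  have h0' : x = u i ∨ x = v i := by tauto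
  rintro (⟨j, hj, h1⟩ | h1)
  · have h2 : x = u j ∨ x = v j := by tauto
    have h3 := BBR_pair D h2 h0'
    subst h3
    have h4 := D.out.rho0 j (by simp)
    rcases h0 with ⟨h0, h5⟩ | ⟨h0, h5⟩
    · rcases h1 with ⟨h1, h6⟩ | ⟨h1, h6⟩
      · rw [← h5, ← h6] at h4
        exact lt_irrefl _ h4
      · rw [h0] at h1
        exact absurd h1 (by decide)
    · rcases h1 with ⟨h1, h6⟩ | ⟨h1, h6⟩
      · rw [h0] at h1
        exact absurd h1 (by decide)
      · rw [← h5, ← h6] at h4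
        exact lt_irrefl _ h4
  · have h2 := D.uuE i (by simp)
    rcases h0' with rfl | rfl
    · exact h2.1 h1
    · exact h2.2 h1

theorem BBR_leaf_pair (D : Dat σ ∅ Es Lv Uu z0 z1 u v v' w b ρ ty lev h m dir gl Ls Lm Ru)
    {j : C} {x : V} (hj : x = u j ∨ x = v j) (ht : ty j = 0) : ¬ leaf Lv u v ty x := by
  rintro ⟨i, hi, h0⟩
  have h0' : x = u i ∨ x = v i := by tauto
  have h3 := BBR_pair D h0' hj
  subst h3
  rw [ht] at h0
  rcases h0 with ⟨h0, -⟩ | ⟨h0, -⟩
  · exact absurd h0 (by decide)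
  · exact absurd h0 (by decide)

theorem BBR_lsp (D : Dat σ ∅ Es Lv Uu z0 z1 u v v' w b ρ ty lev h m dir gl Ls Lm Ru)
    {g : Fin 3} {i : C} {z y : V} (hl : (g, i, z) ∈ Ls) (hy : y = z ∨ y = σ i z) :
    spin Lv Uu u v ty y := by
  obtain ⟨-, -, h1⟩ := D.spl.s1 g i z hl
  rcases hy with rfl | rfl
  · rcases h1 with h1 | h1
    · exact h1.1
    · exact h1.2.1
  · rcases h1 with h1 | h1
    · exact h1.2.1
    · exact h1.1

omit [Fintype V] in
theorem BBR_mem {Lm : Finset (Sq V C)} {z0 : C → V}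
    {g : Fin 3} {i : C} {z : V} (hg : g ≠ 0) (hm : (g, i, z) ∈ m0set ∅ z0 ∪ Lm) :
    (g, i, z) ∈ Lm := by
  rw [Finset.mem_union] at hm
  rcases hm with hm | hm
  · rw [m0set, Finset.mem_image] at hm
    obtain ⟨j, -, hj⟩ := hm
    rw [Prod.mk.injEq] at hj
    exact absurd hj.1.symm hg
  · exact hm

theorem BBR_res (D : Dat σ ∅ Es Lv Uu z0 z1 u v v' w b ρ ty lev h m dir gl Ls Lm Ru)
    {g : Fin 3} {i : C} {z y : V} (hl : (g, i, z) ∈ Lm) (hs : (g, i, z) ∉ Ls)
    (hy : y = z ∨ y = σ i z) : ∃ j ∈ Ru, j ∈ Lv ∧ ty j = 0 ∧ (y = u j ∨ y = v j) := by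
  obtain ⟨j, hj, j', hj', -, h1, h2⟩ := D.lt.res g i z hl hs
  have h3 := Finset.mem_filter.1 (D.lt.ru hj)
  have h4 := Finset.mem_filter.1 (D.lt.ru hj')
  rcases hy with rfl | rfl
  · exact ⟨j, hj, h3.1, h3.2, h1⟩
  · exact ⟨j', hj', h4.1, h4.2, h2⟩

/-- a covered vertex (gaps 1, 2) is a spine vertex or in a touched reserve pair -/
theorem BBR_cov (D : Dat σ ∅ Es Lv Uu z0 z1 u v v' w b ρ ty lev h m dir gl Ls Lm Ru)
    {g : Fin 3} {y : V} (hg : g ≠ 0) (hc : cov σ (m0set ∅ z0 ∪ Lm) g y) :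
    spin Lv Uu u v ty y ∨ ∃ j ∈ Ru, j ∈ Lv ∧ ty j = 0 ∧ (y = u j ∨ y = v j) := by
  obtain ⟨i, z, h1, h2⟩ := hc
  have h3 := BBR_mem hg h1
  by_cases h4 : (g, i, z) ∈ Ls
  · exact Or.inl (BBR_lsp D h4 h2)
  · exact Or.inr (BBR_res D h3 h4 h2)

theorem BBR_leaf (D : Dat σ ∅ Es Lv Uu z0 z1 u v v' w b ρ ty lev h m dir gl Ls Lm Ru)
    {g : Fin 3} {y : V} (hg : g ≠ 0) (hl : leaf Lv u v ty y) :
    ¬ cov σ (m0set ∅ z0 ∪ Lm) g y := by
  intro hc
  rcases BBR_cov D hg hc with h1 | ⟨j, -, -, h1, h2⟩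
  · exact BBR_leaf_spin D hl h1
  · exact BBR_leaf_pair D h2 h1 hl

theorem BBR_end (D : DatB σ is x1 x2 Es Lv Uu z0 z1 u v v' w b ρ ty lev h m dir gl Ls Lm Ru)
    {g : Fin 3} {y : V} (hg : g ≠ 0) (hy : y ∈ ({x1, σ is x1, x2, σ is x2} : Finset V)) :
    ¬ cov σ (m0set ∅ z0 ∪ Lm) g y := by
  intro hc
  have hlv : ∀ j ∈ Lv, ¬ (y = u j ∨ y = v j) := by
    intro j hj h1
    have h2 := (D.lv j).1 hj
    rcases h1 with rfl | rfl
    · exact h2.1 hy
    · exact h2.2 hy
  rcases BBR_cov D.dat hg hc with (⟨j, hj, h1⟩ | h1) | ⟨j, -, hj, h1, h2⟩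
  · exact hlv j hj (by tauto)
  · exact ((D.uu y).1 h1).1 hy
  · exact hlv j hj h2

/-- vertices of untouched reserve pairs are not covered in the gaps 1, 2 -/
theorem BBR_unt (D : Dat σ ∅ Es Lv Uu z0 z1 u v v' w b ρ ty lev h m dir gl Ls Lm Ru)
    {g : Fin 3} {y : V} {j : C} (hg : g ≠ 0) (hjR : j ∉ Ru) (ht : ty j = 0)
    (hy : y = u j ∨ y = v j) : ¬ cov σ (m0set ∅ z0 ∪ Lm) g y := by
  intro hc
  rcases BBR_cov D hg hc with h1 | ⟨j', h0, -, h1, h2⟩
  · exact BBR_spin D hy ht h1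
  · have := BBR_pair D hy h2
    exact hjR (this ▸ h0)

theorem BBR_lab0 (D : Dat σ ∅ Es Lv Uu z0 z1 u v v' w b ρ ty lev h m dir gl Ls Lm Ru)
    {g : Fin 3} {i : C} {z : V} (hm : (g, i, z) ∈ Lm) : g ≠ 0 ∧ i ∈ Es := by
  obtain ⟨h1, r, -, h2⟩ := D.lt.lab g i z hm
  exact ⟨by rw [h2]; exact (lb_ne (D.gl0 i) r).1, h1⟩

/-- the squares of the special colour before the bridges -/
theorem BBR_is (D : DatB σ is x1 x2 Es Lv Uu z0 z1 u v v' w b ρ ty lev h m dir gl Ls Lm Ru)
    {g : Fin 3} {z : V} (hm : (g, is, z) ∈ m0set ∅ z0 ∪ Lm) : z = z0 is ∧ g = 0 := by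
  rw [Finset.mem_union] at hm
  rcases hm with hm | hm
  · rw [m0set, Finset.mem_image] at hm
    obtain ⟨j, -, hj⟩ := hm
    rw [Prod.mk.injEq, Prod.mk.injEq] at hj
    refine ⟨?_, hj.1.symm⟩
    rw [← hj.2.2, hj.2.1]
  · exact absurd (BBR_lab0 D.dat hm).2 (by rw [D.es]; simp)

omit [Fintype V] [DecidableEq V] [Fintype C] [DecidableEq C] in
theorem BBR_occ {A : Finset (Sq V C)} {g : Fin 3} {x : V} {b : C → V} (h : ¬ cov σ A g x) :
    ¬ occ σ ⟨∅, b, b⟩ A g x := by
  rintro (h1 | ⟨i, hi, -⟩)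
  · exact h h1
  · simp at hi

omit [Fintype V] [Fintype C] in
theorem BBR_gam_insert {A : Finset (Sq V C)} {g : Fin 3} {i : C} {z : V} :
    Gam σ (insert (g, i, z) A) ≤ Gam σ A ⊔ SimpleGraph.edge z (σ i z) := by
  intro x y hxy
  obtain ⟨h0, g', i', z', h1, h2⟩ := hxy
  rw [Finset.mem_insert, Prod.mk.injEq, Prod.mk.injEq] at h1
  rw [SimpleGraph.sup_adj]
  rcases h1 with ⟨-, h3, h4⟩ | h1
  · right
    rw [h3, h4] at h2
    unfold ed at h2
    rw [SimpleGraph.edge_adj]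
    refine ⟨?_, h0⟩
    rw [Sym2.eq_iff] at h2
    exact h2
  · left
    exact ⟨h0, g', i', z', h1, h2⟩

omit [Fintype V] [DecidableEq V] [Fintype C] [DecidableEq C] in
theorem BBR_mono {A A' : Finset (Sq V C)} (h : A ⊆ A') : Gam σ A ≤ Gam σ A' := by
  intro x y hxy
  obtain ⟨h0, g', i', z', h1, h2⟩ := hxy
  exact ⟨h0, g', i', z', h h1, h2⟩

theorem BBR_adj (hσ : HD σ) {A : Finset (Sq V C)} {g : Fin 3} {i : C} {z : V}
    (h : (g, i, z) ∈ A) : (Gam σ A).Adj z (σ i z) :=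
  ⟨fun h' => (hd_ne hσ i z).1 h'.symm, g, i, z, h, rfl⟩

/-- adding a square whose ends are not covered and not connected -/
theorem BBR_add (hσ : HD σ) {A : Finset (Sq V C)} {b : C → V} {g : Fin 3} {i : C} {z : V}
    (B : Base σ ⟨∅, b, b⟩ A) (hac : (Gam σ A).IsAcyclic) (hlab : ∀ g', (g', i, z) ∉ A)
    (h1 : ¬ cov σ A g z) (h2 : ¬ cov σ A g (σ i z)) (h3 : ¬ (Gam σ A).Reachable z (σ i z)) :
    Base σ ⟨∅, b, b⟩ (insert (g, i, z) A) ∧ (Gam σ (insert (g, i, z) A)).IsAcyclic := by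
  refine ⟨(F0_insert hσ B (by simp) hlab (BBR_occ h1) (BBR_occ h2)).1, ?_⟩
  exact (SimpleGraph.IsAcyclic.sup_edge_of_not_reachable h3 hac).anti BBR_gam_insert

/-- one step: bridge square of the gap `g` at `x` if its ends are not connected -/
theorem BBR_step (hσ : HD σ) {A : Finset (Sq V C)} {b : C → V} (g : Fin 3) (i : C) (x : V)
    (B : Base σ ⟨∅, b, b⟩ A) (hac : (Gam σ A).IsAcyclic)
    (hlab : ∀ g', (g', i, x) ∈ A → (Gam σ A).Reachable x (σ i x))
    (h1 : ¬ cov σ A g x) (h2 : ¬ cov σ A g (σ i x)) :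
    ∃ S : Finset (Sq V C), (S = ∅ ∨ S = {(g, i, x)}) ∧ Base σ ⟨∅, b, b⟩ (A ∪ S) ∧
      (Gam σ (A ∪ S)).IsAcyclic ∧ (Gam σ (A ∪ S)).Reachable x (σ i x) := by
  by_cases h3 : (Gam σ A).Reachable x (σ i x)
  · exact ⟨∅, Or.inl rfl, by rw [Finset.union_empty]; exact B,
      by rw [Finset.union_empty]; exact hac, by rw [Finset.union_empty]; exact h3⟩
  · have h4 := BBR_add hσ (g := g) B hac (fun g' hg' => h3 (hlab g' hg')) h1 h2 h3
    have h5 : A ∪ {(g, i, x)} = insert (g, i, x) A := by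
      rw [Finset.union_comm]; rfl
    refine ⟨{(g, i, x)}, Or.inr rfl, by rw [h5]; exact h4.1, by rw [h5]; exact h4.2, ?_⟩
    rw [h5]
    exact (BBR_adj hσ (Finset.mem_insert_self _ _)).reachable

/-- block BBR: choice of the bridge letters -/
theorem datB_br (D : DatB σ is x1 x2 Es Lv Uu z0 z1 u v v' w b ρ ty lev h m dir gl Ls Lm Ru) :
    ∃ Br, Brd σ is x1 x2 Lv z0 u v b ty Ru Lm Br := by
  have hσ := D.dat.hd
  have hB := dat_base D.dat b b
  have hA := dat_acyclic D.dat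
  have hdis := D.dis
  rw [Finset.disjoint_left] at hdis
  have d1 : x1 ≠ x2 := fun h => hdis (a := x1) (by simp) (by rw [h]; simp)
  have d2 : x1 ≠ σ is x2 := fun h => hdis (a := x1) (by simp) (by rw [h]; simp)
  have d3 : σ is x1 ≠ x2 := fun h => hdis (a := σ is x1) (by simp) (by rw [h]; simp)
  have d4 : σ is x1 ≠ σ is x2 := fun h => hdis (a := σ is x1) (by simp) (by rw [h]; simp)
  have e1 : ∀ g : Fin 3, g ≠ 0 → ¬ cov σ (m0set ∅ z0 ∪ Lm) g x1 :=
    fun g hg => BBR_end D hg (by simp)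
  have e2 : ∀ g : Fin 3, g ≠ 0 → ¬ cov σ (m0set ∅ z0 ∪ Lm) g (σ is x1) :=
    fun g hg => BBR_end D hg (by simp)
  have e3 : ∀ g : Fin 3, g ≠ 0 → ¬ cov σ (m0set ∅ z0 ∪ Lm) g x2 :=
    fun g hg => BBR_end D hg (by simp)
  have e4 : ∀ g : Fin 3, g ≠ 0 → ¬ cov σ (m0set ∅ z0 ∪ Lm) g (σ is x2) :=
    fun g hg => BBR_end D hg (by simp)
  have hl : ∀ x, leaf Lv u v ty x → x ≠ x1 ∧ x ≠ σ is x1 ∧ x ≠ x2 ∧ x ≠ σ is x2 := by
    intro x hx
    have hxE : x ∉ ({x1, σ is x1, x2, σ is x2} : Finset V) := by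
      obtain ⟨i, hi, h0⟩ := hx
      have h2 := (D.lv i).1 hi
      rcases h0 with ⟨-, rfl⟩ | ⟨-, rfl⟩
      · exact h2.1
      · exact h2.2
    simpa using hxE
  -- step 1
  have hlab : ∀ x g', (g', is, x) ∈ m0set ∅ z0 ∪ Lm →
      (Gam σ (m0set ∅ z0 ∪ Lm)).Reachable x (σ is x) :=
    fun x g' hg' => (BBR_adj hσ hg').reachable
  obtain ⟨S1, hS1, k1, k2, k3⟩ := BBR_step hσ 1 is x1 hB hA (hlab x1) (e1 1 (by decide))
    (e2 1 (by decide))
  have hc2 : ∀ x, x = x2 ∨ x = σ is x2 → ¬ cov σ ((m0set ∅ z0 ∪ Lm) ∪ S1) 2 x := by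
    rintro x hx ⟨i, z, h1, h2⟩
    rw [Finset.mem_union] at h1
    rcases h1 with h1 | h1
    · rcases hx with rfl | rfl
      · exact e3 2 (by decide) ⟨i, z, h1, h2⟩
      · exact e4 2 (by decide) ⟨i, z, h1, h2⟩
    · rcases hS1 with rfl | rfl
      · simp at h1
      · rw [Finset.mem_singleton, Prod.mk.injEq] at h1
        exact absurd h1.1 (by decide)
  obtain ⟨S2, hS2, l1, l2, l3⟩ := BBR_step hσ 2 is x2 k1 k2
    (fun g' hg' => (BBR_adj hσ hg').reachable) (hc2 x2 (Or.inl rfl)) (hc2 _ (Or.inr rfl))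
  by_cases hne : (S1 ∪ S2).Nonempty
  · -- some bridge square has been added
    have hassoc : (m0set ∅ z0 ∪ Lm) ∪ (S1 ∪ S2) = ((m0set ∅ z0 ∪ Lm) ∪ S1) ∪ S2 :=
      (Finset.union_assoc _ _ _).symm
    have hmem : ∀ g i z, (g, i, z) ∈ S1 ∪ S2 →
        (g = 1 ∧ i = is ∧ z = x1) ∨ (g = 2 ∧ i = is ∧ z = x2) := by
      intro g i z h1
      rw [Finset.mem_union] at h1
      rcases h1 with h1 | h1
      · rcases hS1 with rfl | rfl
        · simp at h1
        · left
          rw [Finset.mem_singleton, Prod.mk.injEq, Prod.mk.injEq] at h1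
          exact h1
      · rcases hS2 with rfl | rfl
        · simp at h1
        · right
          rw [Finset.mem_singleton, Prod.mk.injEq, Prod.mk.injEq] at h1
          exact h1
    have hcov : ∀ g x, cov σ ((m0set ∅ z0 ∪ Lm) ∪ (S1 ∪ S2)) g x →
        cov σ (m0set ∅ z0 ∪ Lm) g x ∨ (g = 1 ∧ (x = x1 ∨ x = σ is x1)) ∨
          (g = 2 ∧ (x = x2 ∨ x = σ is x2)) := by
      rintro g x ⟨i, z, h1, h2⟩
      rw [Finset.mem_union] at h1
      rcases h1 with h1 | h1
      · exact Or.inl ⟨i, z, h1, h2⟩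
      · rcases hmem g i z h1 with ⟨h3, rfl, rfl⟩ | ⟨h3, rfl, rfl⟩
        · exact Or.inr (Or.inl ⟨h3, h2⟩)
        · exact Or.inr (Or.inr ⟨h3, h2⟩)
    refine ⟨S1 ∪ S2, ?_, ?_, ?_, ?_, ?_, ?_, ?_, ?_, ?_, ?_⟩
    · rw [hassoc]; exact l1
    · rw [hassoc]; exact l2
    · intro g i z h1
      rcases hmem g i z h1 with ⟨rfl, h3, -⟩ | ⟨rfl, h3, -⟩
      · exact ⟨h3, by decide⟩
      · exact ⟨h3, by decide⟩
    · intro g i z h1
      rcases hmem g i z h1 with ⟨h2, -, h4⟩ | ⟨h2, -, h4⟩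
      · exact Or.inl ⟨h2, h4⟩
      · exact Or.inr (Or.inl ⟨h2, h4⟩)
    · obtain ⟨⟨g, i, z⟩, hs⟩ := hne
      rcases hmem g i z hs with ⟨h2, h3, h4⟩ | ⟨h2, h3, h4⟩
      · exact ⟨g, z, by rw [← h3]; exact hs⟩
      · exact ⟨g, z, by rw [← h3]; exact hs⟩
    · rw [hassoc]
      exact k3.mono (BBR_mono Finset.subset_union_left)
    · rw [hassoc]; exact l3
    · constructor
      · intro hc
        rcases hcov _ _ hc with h1 | ⟨h1, -⟩ | ⟨-, h1⟩
        · exact e1 2 (by decide) h1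
        · exact absurd h1 (by decide)
        · rcases h1 with h1 | h1
          · exact d1 h1
          · exact d2 h1
      · intro hc
        rcases hcov _ _ hc with h1 | ⟨h1, -⟩ | ⟨-, h1⟩
        · exact e2 2 (by decide) h1
        · exact absurd h1 (by decide)
        · rcases h1 with h1 | h1
          · exact d3 h1
          · exact d4 h1
    · constructor
      · intro hc
        rcases hcov _ _ hc with h1 | ⟨-, h1⟩ | ⟨h1, -⟩
        · exact e3 1 (by decide) h1
        · rcases h1 with h1 | h1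
          · exact d1 h1.symm
          · exact d3 h1.symm
        · exact absurd h1 (by decide)
      · intro hc
        rcases hcov _ _ hc with h1 | ⟨-, h1⟩ | ⟨h1, -⟩
        · exact e4 1 (by decide) h1
        · rcases h1 with h1 | h1
          · exact d2 h1.symm
          · exact d4 h1.symm
        · exact absurd h1 (by decide)
    · intro x hx
      obtain ⟨q1, q2, q3, q4⟩ := hl x hx
      constructor
      · intro hc
        rcases hcov _ _ hc with h1 | ⟨-, h1⟩ | ⟨h1, -⟩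
        · exact BBR_leaf D.dat (by decide) hx h1
        · rcases h1 with h1 | h1
          · exact q1 h1
          · exact q2 h1
        · exact absurd h1 (by decide)
      · intro hc
        rcases hcov _ _ hc with h1 | ⟨h1, -⟩ | ⟨-, h1⟩
        · exact BBR_leaf D.dat (by decide) hx h1
        · exact absurd h1 (by decide)
        · rcases h1 with h1 | h1
          · exact q3 h1
          · exact q4 h1
  · -- nothing added: use the fresh edge
    rw [Finset.not_nonempty_iff_eq_empty, Finset.union_eq_empty] at hne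
    obtain ⟨rfl, rfl⟩ := hne
    rw [Finset.union_empty] at k3
    rw [Finset.union_empty, Finset.union_empty] at l3
    obtain ⟨z, hz⟩ := D.fresh
    have hz' := hz
    obtain ⟨j, hj, j', hj', r1, r2, hjj, t1, t2, y1, y2⟩ := hz'
    have hlabz : ∀ g', (g', is, z) ∉ m0set ∅ z0 ∪ Lm := by
      intro g' hg'
      obtain ⟨h1, -⟩ := BBR_is D hg'
      have h2 := D.dat.out.e0 is (by simp)
      rw [← h1] at h2
      unfold ed at h2
      rw [Sym2.eq_iff] at h2
      have h3 : z = u is ∨ z = v is := by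
        rcases h2 with ⟨h2, -⟩ | ⟨h2, -⟩
        · exact Or.inl h2
        · exact Or.inr h2
      have h4 : σ is z = u is ∨ σ is z = v is := by
        rcases h2 with ⟨-, h2⟩ | ⟨-, h2⟩
        · exact Or.inr h2
        · exact Or.inl h2
      exact hjj ((BBR_pair D.dat y1 h3).trans (BBR_pair D.dat h4 y2))
    have hz1 : ∀ g : Fin 3, g ≠ 0 → ¬ cov σ (m0set ∅ z0 ∪ Lm) g z :=
      fun g hg => BBR_unt D.dat hg r1 t1 y1
    have hz2 : ∀ g : Fin 3, g ≠ 0 → ¬ cov σ (m0set ∅ z0 ∪ Lm) g (σ is z) :=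
      fun g hg => BBR_unt D.dat hg r2 t2 y2
    -- the component of the pair `j` is the pair
    have hcomp : ∀ y, (Gam σ (m0set ∅ z0 ∪ Lm)).Reachable z y → y = u j ∨ y = v j := by
      intro y hy
      obtain ⟨wk⟩ := hy
      have : ∀ {p q : V} (_ : (Gam σ (m0set ∅ z0 ∪ Lm)).Walk p q), (p = u j ∨ p = v j) →
          (q = u j ∨ q = v j) := by
        intro p q wk
        induction wk with
        | nil => exact id
        | cons hadj _ ih =>
          intro hp
          apply ih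
          obtain ⟨h0, g, i, zz, h1, h2⟩ := hadj
          unfold ed at h2
          rw [Sym2.eq_iff] at h2
          by_cases hg : g = 0
          · subst hg
            rw [Finset.mem_union] at h1
            rcases h1 with h1 | h1
            · rw [m0set, Finset.mem_image] at h1
              obtain ⟨i', -, hi'⟩ := h1
              rw [Prod.mk.injEq, Prod.mk.injEq] at hi'
              obtain ⟨-, rfl, rfl⟩ := hi'
              have h3 := D.dat.out.e0 i' (by simp)
              unfold ed at h3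
              rw [Sym2.eq_iff] at h3
              rename_i p p' _ _
              have h4 : (p = u i' ∨ p = v i') ∧ (p' = u i' ∨ p' = v i') := by
                rcases h2 with ⟨h2, h2'⟩ | ⟨h2, h2'⟩ <;> rcases h3 with ⟨h3, h3'⟩ | ⟨h3, h3'⟩
                · exact ⟨Or.inl (h2.trans h3), Or.inr (h2'.trans h3')⟩
                · exact ⟨Or.inr (h2.trans h3), Or.inl (h2'.trans h3')⟩
                · exact ⟨Or.inr (h2.trans h3'), Or.inl (h2'.trans h3)⟩
                · exact ⟨Or.inl (h2.trans h3'), Or.inr (h2'.trans h3)⟩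
              have h5 := BBR_pair D.dat h4.1 hp
              rw [← h5]
              exact h4.2
            · exact absurd rfl (BBR_lab0 D.dat h1).1
          · exfalso
            refine BBR_unt D.dat hg r1 t1 hp ⟨i, zz, h1, ?_⟩
            rcases h2 with ⟨h2, -⟩ | ⟨h2, -⟩
            · exact Or.inl h2
            · exact Or.inr h2
      exact this wk y1
    have hnr : ¬ (Gam σ (m0set ∅ z0 ∪ Lm)).Reachable z (σ is z) := fun hr =>
      hjj (BBR_pair D.dat (hcomp _ hr) y2)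
    have hadd := BBR_add hσ (g := 1) hB hA hlabz (hz1 1 (by decide)) (hz2 1 (by decide)) hnr
    have hins : (m0set ∅ z0 ∪ Lm) ∪ {((1 : Fin 3), is, z)} =
        insert ((1 : Fin 3), is, z) (m0set ∅ z0 ∪ Lm) := by
      rw [Finset.union_comm]; rfl
    have hcov : ∀ g x, cov σ ((m0set ∅ z0 ∪ Lm) ∪ {((1 : Fin 3), is, z)}) g x →
        cov σ (m0set ∅ z0 ∪ Lm) g x ∨ (g = 1 ∧ (x = z ∨ x = σ is z)) := by
      rintro g x ⟨i, z', h1, h2⟩
      rw [Finset.mem_union] at h1
      rcases h1 with h1 | h1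
      · exact Or.inl ⟨i, z', h1, h2⟩
      · rw [Finset.mem_singleton, Prod.mk.injEq, Prod.mk.injEq] at h1
        obtain ⟨h3, rfl, rfl⟩ := h1
        exact Or.inr ⟨h3, h2⟩
    have hzE : ∀ x, x ∈ ({x1, σ is x1, x2, σ is x2} : Finset V) → x ≠ z ∧ x ≠ σ is z := by
      intro x hx
      have h1 := (D.lv j).1 hj
      have h2 := (D.lv j').1 hj'
      constructor
      · rintro rfl
        rcases y1 with rfl | rfl
        · exact h1.1 hx
        · exact h1.2 hx
      · rintro rfl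
        rcases y2 with h3 | h3
        · rw [h3] at hx; exact h2.1 hx
        · rw [h3] at hx; exact h2.2 hx
    refine ⟨{((1 : Fin 3), is, z)}, ?_, ?_, ?_, ?_, ?_, ?_, ?_, ?_, ?_, ?_⟩
    · rw [hins]; exact hadd.1
    · rw [hins]; exact hadd.2
    · intro g i z' h1
      rw [Finset.mem_singleton, Prod.mk.injEq, Prod.mk.injEq] at h1
      obtain ⟨rfl, rfl, rfl⟩ := h1
      exact ⟨rfl, by decide⟩
    · intro g i z' h1
      rw [Finset.mem_singleton, Prod.mk.injEq, Prod.mk.injEq] at h1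
      obtain ⟨rfl, rfl, rfl⟩ := h1
      exact Or.inr (Or.inr ⟨rfl, hz⟩)
    · exact ⟨1, z, Finset.mem_singleton_self _⟩
    · exact k3.mono (BBR_mono Finset.subset_union_left)
    · exact l3.mono (BBR_mono Finset.subset_union_left)
    · constructor
      · intro hc
        rcases hcov _ _ hc with h1 | ⟨h1, -⟩
        · exact e1 2 (by decide) h1
        · exact absurd h1 (by decide)
      · intro hc
        rcases hcov _ _ hc with h1 | ⟨h1, -⟩
        · exact e2 2 (by decide) h1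
        · exact absurd h1 (by decide)
    · constructor
      · intro hc
        rcases hcov _ _ hc with h1 | ⟨-, h1⟩
        · exact e3 1 (by decide) h1
        · have h2 := hzE x2 (by simp)
          rcases h1 with h1 | h1
          · exact h2.1 h1
          · exact h2.2 h1
      · intro hc
        rcases hcov _ _ hc with h1 | ⟨-, h1⟩
        · exact e4 1 (by decide) h1
        · have h2 := hzE (σ is x2) (by simp)
          rcases h1 with h1 | h1
          · exact h2.1 h1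
          · exact h2.2 h1
    · intro x hx
      constructor
      · intro hc
        rcases hcov _ _ hc with h1 | ⟨-, h1⟩
        · exact BBR_leaf D.dat (by decide) hx h1
        · rcases h1 with rfl | rfl
          · exact BBR_leaf_pair D.dat y1 t1 hx
          · exact BBR_leaf_pair D.dat y2 t2 hx
      · intro hc
        rcases hcov _ _ hc with h1 | ⟨h1, -⟩
        · exact BBR_leaf D.dat (by decide) hx h1
        · exact absurd h1 (by decide)

end B

end Pool.Agent.KZ
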