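import Pool.Agent.Lib_helper15.KZF.DefsA
import Pool.Agent.Lib_helper15.KZF.DefsN
import Pool.Agent.Lib_helper15.KZF.ED

set_option autoImplicit false

namespace Pool.Agent.KZ

open Finset

section B

variable {V C : Type} [Fintype V] [DecidableEq V] [Fintype C] [DecidableEq C]
variable {σ : C → Equiv.Perm V} {is : C} {x1 x2 : V} {Es Lv : Finset C} {Uu : Finset V}
  {z0 z1 u v v' w b : C → V} {ρ : V → ℕ} {ty : C → Fin 3} {lev : V → ℕ} {h : ℕ} {m : C → ℕ}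
  {dir : C → Bool} {gl : C → Fin 3} {Ls Lm : Finset (Sq V C)} {Ru : Finset C}

theorem BCOMP_pair (D : Dat σ ∅ Es Lv Uu z0 z1 u v v' w b ρ ty lev h m dir gl Ls Lm Ru)
    {i j : C} {x : V} (hi : x = u i ∨ x = v i) (hj : x = u j ∨ x = v j) : i = j := by
  by_contra hne
  have h1 := D.out.dis0 i (by simp) j (by simp) hne
  rw [Finset.disjoint_left] at h1
  refine h1 (a := x) ?_ ?_
  · rcases hi with rfl | rfl <;> simp
  · rcases hj with rfl | rfl <;> simp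

/-- a spine vertex is not in a pair of type 0 -/
theorem BCOMP_spin (D : Dat σ ∅ Es Lv Uu z0 z1 u v v' w b ρ ty lev h m dir gl Ls Lm Ru)
    {j : C} {x : V} (hj : x = u j ∨ x = v j) (ht : ty j = 0) : ¬ spin Lv Uu u v ty x := by
  rintro (⟨i, hi, h1⟩ | h1)
  · have h2 : x = u i ∨ x = v i := by tauto
    have h3 := BCOMP_pair D h2 hj
    subst h3
    rw [ht] at h1
    rcases h1 with ⟨h1, -⟩ | ⟨h1, -⟩
    · exact absurd h1 (by decide)
    · exact absurd h1 (by decide)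
  · have h2 := D.uuE j (by simp)
    rcases hj with rfl | rfl
    · exact h2.1 h1
    · exact h2.2 h1

theorem BCOMP_lsp (D : Dat σ ∅ Es Lv Uu z0 z1 u v v' w b ρ ty lev h m dir gl Ls Lm Ru)
    {g : Fin 3} {i : C} {z y : V} (hl : (g, i, z) ∈ Ls) (hy : y = z ∨ y = σ i z) :
    spin Lv Uu u v ty y := by
  obtain ⟨-, -, h1⟩ := D.spl.s1 g i z hl
  rcases hy with rfl | rfl
  · rcases h1 with h1 | h1
    · exact h1.1
    · exact h1.2.1
  · rcases h1 with h1 | h1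
    · exact h1.2.1
    · exact h1.1

theorem BCOMP_mem (_D : Dat σ ∅ Es Lv Uu z0 z1 u v v' w b ρ ty lev h m dir gl Ls Lm Ru)
    {g : Fin 3} {i : C} {z : V} (hg : g ≠ 0) (hm : (g, i, z) ∈ m0set ∅ z0 ∪ Lm) :
    (g, i, z) ∈ Lm := by
  rw [Finset.mem_union] at hm
  rcases hm with hm | hm
  · rw [m0set, Finset.mem_image] at hm
    obtain ⟨j, -, hj⟩ := hm
    rw [Prod.mk.injEq] at hj
    exact absurd hj.1.symm hg
  · exact hm

/-- a reserve letter: its ends are in pairs of `Ru` -/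
theorem BCOMP_res (D : Dat σ ∅ Es Lv Uu z0 z1 u v v' w b ρ ty lev h m dir gl Ls Lm Ru)
    {g : Fin 3} {i : C} {z y : V} (hl : (g, i, z) ∈ Lm) (hs : (g, i, z) ∉ Ls)
    (hy : y = z ∨ y = σ i z) : ∃ j ∈ Ru, j ∈ Lv ∧ ty j = 0 ∧ (y = u j ∨ y = v j) := by
  obtain ⟨j, hj, j', hj', -, h1, h2⟩ := D.lt.res g i z hl hs
  have h3 := Finset.mem_filter.1 (D.lt.ru hj)
  have h4 := Finset.mem_filter.1 (D.lt.ru hj')
  rcases hy with rfl | rfl
  · exact ⟨j, hj, h3.1, h3.2, h1⟩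
  · exact ⟨j', hj', h4.1, h4.2, h2⟩

theorem BCOMP_lamb (n : ℕ) : lamb n ≠ 0 ∧ lamb n ≠ lamb (n + 1) := by
  unfold lamb
  rcases Nat.mod_two_eq_zero_or_one n with h1 | h1
  · have h2 : (n + 1) % 2 = 1 := by omega
    rw [h1, h2]
    decide
  · have h2 : (n + 1) % 2 = 0 := by omega
    rw [h1, h2]
    decide

/-- block BCOMP -/
theorem datB_comp (D : DatB σ is x1 x2 Es Lv Uu z0 z1 u v v' w b ρ ty lev h m dir gl Ls Lm Ru)
    {Br : Finset (Sq V C)} (B : Brd σ is x1 x2 Lv z0 u v b ty Ru Lm Br) (x : V) :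
    (∃ y g, g ≠ 0 ∧ ¬ cov σ ((m0set ∅ z0 ∪ Lm) ∪ Br) g y ∧
      (Gam σ ((m0set ∅ z0 ∪ Lm) ∪ Br)).Reachable x y ∧
      y ∉ ({x1, σ is x1, x2, σ is x2} : Finset V)) ∨
    ∃ y ∈ ({x1, σ is x1, x2, σ is x2} : Finset V),
      (Gam σ ((m0set ∅ z0 ∪ Lm) ∪ Br)).Reachable x y := by
  by_contra hcon
  rw [not_or] at hcon
  obtain ⟨hc1, hc2⟩ := hcon
  push Not at hc2
  have hN2 : ∀ y, (Gam σ ((m0set ∅ z0 ∪ Lm) ∪ Br)).Reachable x y →
      y ∉ ({x1, σ is x1, x2, σ is x2} : Finset V) := fun y hy hm => hc2 y hm hy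
  have hN1 : ∀ y g, g ≠ 0 → (Gam σ ((m0set ∅ z0 ∪ Lm) ∪ Br)).Reachable x y →
      cov σ ((m0set ∅ z0 ∪ Lm) ∪ Br) g y := by
    intro y g hg hy
    by_contra hcov
    exact hc1 ⟨y, g, hg, hcov, hy, hN2 y hy⟩
  -- the letters at `y` are in `Lm`
  have hLm : ∀ y g, g ≠ 0 → (Gam σ ((m0set ∅ z0 ∪ Lm) ∪ Br)).Reachable x y →
      ∃ i z, (g, i, z) ∈ Lm ∧ (y = z ∨ y = σ i z) := by
    intro y g hg hy
    obtain ⟨i, z, h1, h2⟩ := hN1 y g hg hy
    rw [Finset.mem_union] at h1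
    rcases h1 with h1 | h1
    · exact ⟨i, z, BCOMP_mem D.dat hg h1, h2⟩
    · exfalso
      have hyE := hN2 y hy
      have hcol := B.col g i z h1
      rcases B.shape g i z h1 with ⟨-, h3⟩ | ⟨-, h3⟩ | ⟨hBr, h3⟩
      · rw [h3, hcol.1] at h2
        apply hyE
        rcases h2 with h2 | h2 <;> rw [h2] <;> simp
      · rw [h3, hcol.1] at h2
        apply hyE
        rcases h2 with h2 | h2 <;> rw [h2] <;> simp
      · -- fresh edge
        obtain ⟨j, hj, hjR, htj, hyj⟩ : ∃ j ∈ Lv, j ∉ Ru ∧ ty j = 0 ∧ (y = u j ∨ y = v j) := by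
          obtain ⟨j, hj, j', hj', h4, h5, -, h6, h7, h8, h9⟩ := h3
          rcases h2 with h2 | h2
          · exact ⟨j, hj, h4, h6, by rw [h2]; exact h8⟩
          · exact ⟨j', hj', h5, h7, by rw [h2, hcol.1]; exact h9⟩
        obtain ⟨g', hg', hgg⟩ : ∃ g' : Fin 3, g' ≠ 0 ∧ g' ≠ g := by
          fin_cases g
          · exact absurd rfl hg
          · exact ⟨2, by decide, by decide⟩
          · exact ⟨1, by decide, by decide⟩
        obtain ⟨i', z', k1, k2⟩ := hN1 y g' hg' hy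
        rw [Finset.mem_union] at k1
        rcases k1 with k1 | k1
        · have k3 := BCOMP_mem D.dat hg' k1
          by_cases k4 : (g', i', z') ∈ Ls
          · exact BCOMP_spin D.dat hyj htj (BCOMP_lsp D.dat k4 k2)
          · obtain ⟨j'', k5, -, -, k6⟩ := BCOMP_res D.dat k3 k4 k2
            have k7 := BCOMP_pair D.dat hyj k6
            exact hjR (k7 ▸ k5)
        · rw [hBr, Finset.mem_singleton, Prod.mk.injEq] at k1
          exact hgg k1.1
  -- they are spine letters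
  have hLs : ∀ y g, g ≠ 0 → (Gam σ ((m0set ∅ z0 ∪ Lm) ∪ Br)).Reachable x y →
      ∃ i z, (g, i, z) ∈ Ls ∧ (y = z ∨ y = σ i z) := by
    intro y g hg hy
    obtain ⟨i, z, h1, h2⟩ := hLm y g hg hy
    by_cases h3 : (g, i, z) ∈ Ls
    · exact ⟨i, z, h3, h2⟩
    exfalso
    obtain ⟨j, hj, -, htj, hyj⟩ := BCOMP_res D.dat h1 h3 h2
    obtain ⟨g', hg', hgg⟩ : ∃ g' : Fin 3, g' ≠ 0 ∧ g' ≠ g := by
      fin_cases g
      · exact absurd rfl hg
      · exact ⟨2, by decide, by decide⟩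
      · exact ⟨1, by decide, by decide⟩
    obtain ⟨i', z', k1, k2⟩ := hLm y g' hg' hy
    by_cases k4 : (g', i', z') ∈ Ls
    · exact BCOMP_spin D.dat hyj htj (BCOMP_lsp D.dat k4 k2)
    · have k5 := D.dat.lt.one j hj g i z g' i' z' h1 h3 k1 k4
        (by rcases h2 with rfl | rfl <;> tauto) (by rcases k2 with rfl | rfl <;> tauto)
      rw [Prod.mk.injEq] at k5
      exact hgg k5.1.symm
  -- go up
  have hup : ∀ n : ℕ, ∃ y, (Gam σ ((m0set ∅ z0 ∪ Lm) ∪ Br)).Reachable x y ∧ n ≤ lev y := by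
    intro n
    induction n with
    | zero => exact ⟨x, SimpleGraph.Reachable.refl _, Nat.zero_le _⟩
    | succ n ih =>
      obtain ⟨y, hy, hn⟩ := ih
      obtain ⟨i, z, h1, h2⟩ := hLs y (lamb (lev y + 1)) (BCOMP_lamb _).1 hy
      obtain ⟨-, -, h3⟩ := D.dat.spl.s1 _ i z h1
      have hA : (lamb (lev y + 1), i, z) ∈ (m0set ∅ z0 ∪ Lm) ∪ Br :=
        Finset.mem_union_left _ (Finset.mem_union_right _ (D.dat.lt.sub h1))
      have hne := (hd_ne D.dat.hd i z).1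
      have hadj : (Gam σ ((m0set ∅ z0 ∪ Lm) ∪ Br)).Adj z (σ i z) :=
        ⟨fun h => hne h.symm, _, i, z, hA, rfl⟩
      rcases h2 with h2 | h2
      · subst h2
        refine ⟨σ i y, hy.trans hadj.reachable, ?_⟩
        rcases h3 with h3 | h3
        · have := h3.2.2.1
          omega
        · exact absurd h3.2.2.2 (BCOMP_lamb (lev y)).2
      · subst h2
        refine ⟨z, hy.trans hadj.symm.reachable, ?_⟩
        rcases h3 with h3 | h3
        · exact absurd h3.2.2.2 (BCOMP_lamb _).2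
        · have := h3.2.2.1
          omega
  obtain ⟨y, -, h1⟩ := hup (h + 1)
  have h2 := (D.dat.lev1 y).2
  omega

end B

end Pool.Agent.KZ
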