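import Pool.Agent.Lib_helper15.KZF.CYC
import Pool.Agent.Lib_helper15.KZF.DBASE
import Pool.Agent.Lib_helper15.KZF.DWORD
import Pool.Agent.Lib_helper15.KZF.DefsA
import Pool.Agent.Lib_helper15.KZF.DefsN
import Pool.Agent.Lib_helper15.KZF.ED
import Pool.Agent.Lib_helper15.KZF.WORD1

set_option autoImplicit false

namespace Pool.Agent.KZ

open Finset

variable {V C : Type} [Fintype V] [DecidableEq V] [Fintype C] [DecidableEq C]

section B

variable {σ : C → Equiv.Perm V} {is : C} {x1 x2 : V} {Es Lv : Finset C} {Uu : Finset V}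
  {z0 z1 u v v' w b : C → V} {ρ : V → ℕ} {ty : C → Fin 3} {lev : V → ℕ} {h : ℕ} {m : C → ℕ}
  {dir : C → Bool} {gl : C → Fin 3} {Ls Lm : Finset (Sq V C)} {Ru : Finset C}

theorem bplan_oset {m : C → ℕ} {g : Fin 3} {i : C} {z : V}
    (hz : (g, i, z) ∈ Oset σ z0 Es m dir gl) :
    i ∈ Es ∧ g = lb (gl i) (m i) ∧ optr σ z0 dir i z := by
  unfold Oset at hz
  exact ((@Finset.mem_filter _ _ (fun _ => Classical.propDecidable _) _ _).mp hz).2

theorem datB_es (D : DatB σ is x1 x2 Es Lv Uu z0 z1 u v v' w b ρ ty lev h m dir gl Ls Lm Ru)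
    {Br : Finset (Sq V C)} (B : Brd σ is x1 x2 Lv z0 u v b ty Ru Lm Br) :
    ∀ g, ∀ i ∈ Es, ∀ z, (g, i, z) ∈ (m0set ∅ z0 ∪ Lm) ∪ Br ↔ (g, i, z) ∈ m0set ∅ z0 ∪ Lm := by
  intro g i hi z
  rw [mem_union]
  constructor
  · rintro (h1 | h1)
    · exact h1
    · exact absurd (B.col g i z h1).1 ((D.es i).mp hi)
  · exact Or.inl

theorem datB_plan (D : DatB σ is x1 x2 Es Lv Uu z0 z1 u v v' w b ρ ty lev h m dir gl Ls Lm Ru)
    {Br : Finset (Sq V C)} (B : Brd σ is x1 x2 Lv z0 u v b ty Ru Lm Br) {Q : Finset (Sq V C)}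
    (hQ : Adm σ ⟨∅, b, b⟩ ((m0set ∅ z0 ∪ Lm) ∪ Br) (Oset σ z0 Es m dir gl) Q)
    (hc : (F0 σ ⟨∅, b, b⟩ (((m0set ∅ z0 ∪ Lm) ∪ Br) ∪ Q)).Connected) :
    Plan σ ⟨∅, b, b⟩ (((m0set ∅ z0 ∪ Lm) ∪ Br) ∪ Q) u v v' w ρ := by
  have hQ0 : ∀ {g : Fin 3} {i : C} {z : V}, (g, i, z) ∈ Q → i ∈ Es ∧ g ≠ 0 := by
    intro g i z hz
    obtain ⟨h1, h2, -⟩ := bplan_oset (hQ.sub hz)
    refine ⟨h1, ?_⟩
    rw [h2]
    exact (lb_ne (D.dat.gl0 i) _).1
  have h00 : ∀ i, ∀ z, ((0 : Fin 3), i, z) ∈ ((m0set ∅ z0 ∪ Lm) ∪ Br) ∪ Q ↔ z = z0 i := by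
    intro i z
    rw [mem_union, mem_union, mem_union, dbase_m0]
    constructor
    · rintro (((h1 | h1) | h1) | h1)
      · exact h1.2.2
      · exact absurd rfl (dbase_ne0 D.dat h1).1
      · exact absurd rfl (B.col _ _ _ h1).2
      · exact absurd rfl (hQ0 h1).2
    · intro hz
      exact Or.inl (Or.inl (Or.inl ⟨rfl, notMem_empty i, hz⟩))
  refine
    { base := hQ.base
      m0 := ?_
      m0' := ?_
      word := ?_
      sep' := D.dat.out.dis1
      tok' := fun i hi => absurd hi (notMem_empty i)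
      vv := D.dat.out.vv
      vv' := D.dat.out.vv'
      rho0 := D.dat.out.rho0
      rho1 := D.dat.out.rho1
      rho2 := fun i hi => absurd hi (notMem_empty i)
      conn := hc }
  · intro i hi
    exact ⟨z0 i, (h00 i _).mpr rfl, D.dat.out.e0 i hi, fun z' hz' => (h00 i z').mp hz'⟩
  · intro i hi
    refine ⟨z1 i, D.dat.out.e1 i hi, ?_⟩
    intro he
    rw [← D.dat.out.e1 i hi, ← D.dat.out.e0 i hi] at he
    exact D.dat.out.ne i hi (ed_inj D.dat.hd he).2.symm
  · intro i _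
    by_cases hE : i ∈ Es
    · exact dat_word D.dat (datB_es D B) hQ.sub hQ.col hE
    · have his : i = is := by
        by_contra hne
        exact hE ((D.es i).mpr hne)
      subst his
      have hLm : ∀ {g : Fin 3} {z : V}, (g, i, z) ∉ Lm := by
        intro g z hz
        exact hE (D.dat.lt.lab g i z hz).1
      have hQi : ∀ {g : Fin 3} {z : V}, (g, i, z) ∉ Q := fun hz => hE (hQ0 hz).1
      refine word_two D.dat.hd i (z0 i) (h00 i) ?_ ?_ ?_
      · obtain ⟨g, z, hz⟩ := B.ex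
        refine ⟨g, z, (B.col g i z hz).2, ?_⟩
        rw [mem_union, mem_union]
        exact Or.inl (Or.inr hz)
      · intro g z z' hz hz'
        rw [mem_union, mem_union, mem_union, dbase_m0] at hz hz'
        rcases hz with ((h1 | h1) | h1) | h1
        · rcases hz' with ((k1 | k1) | k1) | k1
          · rw [h1.2.2, k1.2.2]
          · exact absurd k1 hLm
          · exact absurd h1.1 (B.col _ _ _ k1).2
          · exact absurd k1 hQi
        · exact absurd h1 hLm
        · rcases hz' with ((k1 | k1) | k1) | k1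
          · exact absurd k1.1 (B.col _ _ _ h1).2
          · exact absurd k1 hLm
          · rcases B.shape g i z h1 with ⟨a1, a2⟩ | ⟨a1, a2⟩ | ⟨a1, -⟩
            · rcases B.shape g i z' k1 with ⟨c1, c2⟩ | ⟨c1, c2⟩ | ⟨c1, -⟩
              · rw [a2, c2]
              · rw [a1] at c1; exact absurd c1 (by decide)
              · rw [c1, mem_singleton, Prod.mk.injEq, Prod.mk.injEq] at h1
                exact h1.2.2
            · rcases B.shape g i z' k1 with ⟨c1, c2⟩ | ⟨c1, c2⟩ | ⟨c1, -⟩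
              · rw [a1] at c1; exact absurd c1 (by decide)
              · rw [a2, c2]
              · rw [c1, mem_singleton, Prod.mk.injEq, Prod.mk.injEq] at h1
                exact h1.2.2
            · rw [a1, mem_singleton, Prod.mk.injEq, Prod.mk.injEq] at k1
              exact k1.2.2.symm
          · exact absurd k1 hQi
        · exact absurd h1 hQi
      · intro g g' z hz hz'
        exact hQ.base.one g g' i z hz hz'

end B

end Pool.Agent.KZ
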