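import Pool.Agent.Lib_helper15.KZF.AsmA
import Pool.Agent.Lib_helper15.KZF.BBR
import Pool.Agent.Lib_helper15.KZF.BCOMP
import Pool.Agent.Lib_helper15.KZF.BPLAN
import Pool.Agent.Lib_helper15.KZF.DCARD
import Pool.Agent.Lib_helper15.KZF.DWORD
import Pool.Agent.Lib_helper15.KZF.DefsA
import Pool.Agent.Lib_helper15.KZF.DefsN
import Pool.Agent.Lib_helper15.KZF.ED
import Pool.Agent.Lib_helper15.KZF.MK
import Pool.Agent.Lib_helper15.KZF.MM2
import Pool.Agent.Lib_helper15.KZF.SML

/-!
# Assembly of regime B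
-/

set_option autoImplicit false

namespace Pool.Agent.KZ

open Finset

theorem choose_a {V : Type} [Fintype V] [DecidableEq V] {s : ℕ} (hs : s ≤ 3)
    (P : V → Fin s → Prop) (h1 : ∀ x, ∃ b, P x b)
    (h2 : ∀ b, ∃ S : Finset V, 100 ≤ S.card ∧ ∀ x ∈ S, P x b) :
    ∃ a : V → Fin s, (∀ x, P x (a x)) ∧ ∀ b, ∃ x y, x ≠ y ∧ a x = b ∧ a y = b := by
  classical
  choose S hS1 hS2 using h2
  have hall : ∀ t : Finset (Fin s × Bool), t.card ≤ (t.biUnion (fun j => S j.1)).card := by
    intro t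
    rcases t.eq_empty_or_nonempty with rfl | ⟨j, hj⟩
    · simp
    · have h3 : t.card ≤ 6 := by
        refine (Finset.card_le_univ t).trans ?_
        rw [Fintype.card_prod, Fintype.card_fin, Fintype.card_bool]
        omega
      have h4 : S j.1 ⊆ t.biUnion (fun j => S j.1) :=
        Finset.subset_biUnion_of_mem (fun j : Fin s × Bool => S j.1) hj
      have h5 := Finset.card_le_card h4
      have h6 := hS1 j.1
      omega
  obtain ⟨f, hf1, hf2⟩ := (Finset.all_card_le_biUnion_card_iff_exists_injective _).1 hall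
  choose c hc using h1
  refine ⟨fun x => if h : ∃ j, f j = x then (Classical.choose h).1 else c x, ?_, ?_⟩
  · intro x
    by_cases h : ∃ j, f j = x
    · simp only [h, dif_pos]
      have h3 := Classical.choose_spec h
      have h4 := hf2 (Classical.choose h)
      rw [h3] at h4
      exact hS2 _ _ h4
    · simp only [h, dif_neg, not_false_iff]
      exact hc x
  · intro b
    have hval : ∀ j : Fin s × Bool, (if h : ∃ j', f j' = f j then (Classical.choose h).1
        else c (f j)) = j.1 := by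
      intro j
      have h : ∃ j', f j' = f j := ⟨j, rfl⟩
      simp only [h, dif_pos]
      rw [hf1 (Classical.choose_spec h)]
    refine ⟨f (b, true), f (b, false), ?_, hval (b, true), hval (b, false)⟩
    intro h
    have := hf1 h
    simp at this

theorem occ_empty {V C : Type} [Fintype V] [DecidableEq V] [Fintype C] [DecidableEq C]
    {σ : C → Equiv.Perm V} {b b' : C → V} {A : Finset (Sq V C)} {g : Fin 3} {x : V} :
    occ σ ⟨∅, b, b'⟩ A g x ↔ cov σ A g x := by
  simp [occ]

section B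

variable {V C : Type} [Fintype V] [DecidableEq V] [Fintype C] [DecidableEq C]
variable {σ : C → Equiv.Perm V} {is : C} {x1 x2 : V} {Es Lv : Finset C} {Uu : Finset V}
  {z0 z1 u v v' w b : C → V} {ρ : V → ℕ} {ty : C → Fin 3} {lev : V → ℕ} {h : ℕ} {m : C → ℕ}
  {dir : C → Bool} {gl : C → Fin 3} {Ls Lm : Finset (Sq V C)} {Ru : Finset C}

open Classical in
theorem planB_core [Nonempty V]
    (D : DatB σ is x1 x2 Es Lv Uu z0 z1 u v v' w b ρ ty lev h m dir gl Ls Lm Ru)
    {Db : Fin 3 → Finset V} {qq ε : ℝ}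
    (T : Dirs σ z0 Lv Uu u v Es m h qq ε ty lev Db dir gl)
    {s : ℕ} (d : V → Option (Fin s)) (W0 : Finset V)
    (hW0 : ∀ x, leaf Lv u v ty x → x ∈ W0)
    (hWc : (W0 \ univ.filter (fun x => leaf Lv u v ty x)).card ≤ 4)
    (a : V → Fin s)
    (hDb : ∀ b : Fin s, ∃ k : Fin 3, Db k = W0.filter (fun x => d x = some b))
    (ha : ∀ x, (Fintype.card V : ℝ) / 300 ≤ ((univ : Finset (C × Bool)).filter
      (fun p => nb σ p x ∈ W0 ∧ d (nb σ p x) = some (a x))).card)
    (htree : ∀ E : Fin s → Fin s → Prop, Equivalence E → E (a x1) (a (σ is x1)) →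
      E (a x2) (a (σ is x2)) → ∀ x y, E x y)
    (K : ℕ) (hK : Fintype.card V ≤ K + (Fintype.card C + ∑ i ∈ Es, m i))
    (hK2 : (20 * K + 20 : ℝ) + 4 ≤ Fintype.card V / 20000)
    (z : ℕ) (hz : 6 * K + 6 + 4 ≤ z)
    (hd : ∀ W' ⊆ W0, (W0 \ W').card ≤ z →
      ∀ E : V → V → Prop, Equivalence E →
        (∀ x ∈ W', ∀ y ∈ W', (Fintype.card V : ℝ) / 100 ≤ cdD σ x y → E x y) →
        (∀ x ∈ W', ∀ y ∈ W', d x = d y → d x ≠ none → E x y) ∧
        (∀ x ∈ W', ∃ y ∈ W', d y ≠ none ∧ E x y)) :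
    ∃ (D : OddD V C) (A : Finset (Sq V C)) (u v v' w : C → V) (ρ : V → ℕ),
      Plan σ D A u v v' w ρ := by
  obtain ⟨Br, B⟩ := datB_br D
  set A := (m0set ∅ z0 ∪ Lm) ∪ Br with hA
  set Oe := Oset σ z0 Es m dir gl with hOe
  set W := univ.filter (fun x => leaf Lv u v ty x) with hW
  have hσ : HD σ := D.dat.hd
  have hWsub : W ⊆ W0 := by
    intro x hx
    rw [hW, Finset.mem_filter] at hx
    exact hW0 x hx.2
  obtain ⟨hreach, hncc⟩ := forest_reach hσ B.base rfl B.acy
  have hN0 : (0 : ℝ) ≤ Fintype.card V := Nat.cast_nonneg _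
  have hcut : ∀ (P : V → Prop) (t : ℝ), (Fintype.card V : ℝ) / 20000 ≤ t →
      t ≤ (univ.filter (fun w => leaf Lv u v ty w ∧ P w)).card →
      ∃ S ⊆ W, 20 * K + 20 ≤ S.card ∧ ∀ w ∈ S, P w := by
    intro P t ht h1
    refine ⟨univ.filter (fun w => leaf Lv u v ty w ∧ P w), ?_, ?_, ?_⟩
    · intro x hx
      rw [Finset.mem_filter] at hx
      rw [hW, Finset.mem_filter]
      exact ⟨hx.1, hx.2.1⟩
    · have h5 : ((20 * K + 20 : ℕ) : ℝ) ≤
          (univ.filter (fun w => leaf Lv u v ty w ∧ P w)).card := by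
        push_cast
        linarith
      exact_mod_cast h5
    · intro x hx
      exact (Finset.mem_filter.1 hx).2.2
  obtain ⟨be, hbe⟩ : ∃ be : Finset (V × Fin 3 × Fin s), be = {(x1, 2, a x1),
      (σ is x1, 2, a (σ is x1)), (x2, 1, a x2), (σ is x2, 1, a (σ is x2))} := ⟨_, rfl⟩
  have hmem : ∀ t : V × Fin 3 × Fin s, t ∈ be ↔ t = (x1, 2, a x1) ∨
      t = (σ is x1, 2, a (σ is x1)) ∨ t = (x2, 1, a x2) ∨ t = (σ is x2, 1, a (σ is x2)) := by
    intro t; rw [hbe]; simp
  have hd12 : x1 ≠ x2 ∧ x1 ≠ σ is x2 ∧ σ is x1 ≠ x2 ∧ σ is x1 ≠ σ is x2 := by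
    have h1 := D.dis
    rw [Finset.disjoint_left] at h1
    refine ⟨?_, ?_, ?_, ?_⟩
    · intro h2; exact h1 (a := x1) (by simp) (by rw [h2]; simp)
    · intro h2; exact h1 (a := x1) (by simp) (by rw [h2]; simp)
    · intro h2; exact h1 (a := σ is x1) (by simp) (by rw [h2]; simp)
    · intro h2; exact h1 (a := σ is x1) (by simp) (by rw [h2]; simp)
  have hx11 : x1 ≠ σ is x1 := fun h => (hd_ne hσ is x1).1 h.symm
  have hx22 : x2 ≠ σ is x2 := fun h => (hd_ne hσ is x2).1 h.symm
  have hbe1 : ∀ t ∈ be, t.1 ∈ ({x1, σ is x1, x2, σ is x2} : Finset V) ∧ t.2.1 ≠ 0 ∧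
      ¬ cov σ A t.2.1 t.1 ∧ t.2.2 = a t.1 := by
    intro t ht
    rcases (hmem t).1 ht with rfl | rfl | rfl | rfl
    · exact ⟨by simp, by simp, B.f1.1, rfl⟩
    · exact ⟨by simp, by simp, B.f1.2, rfl⟩
    · exact ⟨by simp, by simp, B.f2.1, rfl⟩
    · exact ⟨by simp, by simp, B.f2.2, rfl⟩
  have hSpleaf : ∀ x ∈ ({x1, σ is x1, x2, σ is x2} : Finset V), ¬ leaf Lv u v ty x := by
    rintro x hx ⟨i, hi, ⟨-, rfl⟩ | ⟨-, rfl⟩⟩
    · exact ((D.lv i).1 hi).1 hx
    · exact ((D.lv i).1 hi).2 hx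
  have hM : MergeHyp σ ⟨∅, b, b⟩ A Oe K s W
      (fun x y => (Fintype.card V : ℝ) / 100 ≤ cdD σ x y) d be := by
    refine
      { hd := hσ
        opt := dat_opt D.dat (datB_es D B) rfl B.base
        nccK := ?_
        leaf := ?_
        Jsymm := ?_
        deg1 := ?_
        deg2 := ?_
        comp := ?_
        beW := ?_
        beInj := ?_
        beDeg := ?_
        beCard := ?_
        tree := ?_
        rigid := ?_ }
    · have h1 := dat_card D.dat
      have h2 : (m0set ∅ z0 ∪ Lm).card ≤ A.card := Finset.card_le_card Finset.subset_union_left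
      have h3 : (univ \ (∅ : Finset C)).card = Fintype.card C := by
        rw [Finset.sdiff_empty, Finset.card_univ]
      have h4 : ncc (F0 σ ⟨∅, b, b⟩ A) + A.card ≤ Fintype.card V := hncc
      omega
    · intro x hx
      rw [hW, Finset.mem_filter] at hx
      rw [occ_empty, occ_empty]
      exact B.lf x hx.2
    · intro x y h1
      rw [cdD_comm]
      exact h1
    · intro x g hg
      obtain ⟨S, h1, h2, h3⟩ := hcut (fun w => optn σ Oe g x w) _ (by linarith) (T.u3 x g hg)
      exact ⟨S, h1, h2, fun w hw => ⟨optn_ne hσ (h3 w hw), h3 w hw⟩⟩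
    · intro x hx y hy hxy hJ
      obtain ⟨S, h1, h2, h3⟩ := hcut (fun w => optn σ Oe 1 x w ∧ optn σ Oe 2 w y) _ le_rfl
        (by
          have h0 := T.u2 x y hxy hJ
          convert h0 using 4)
      exact ⟨S, h1, h2, fun w hw => ⟨optn_ne hσ (h3 w hw).1, (optn_ne hσ (h3 w hw).2).symm,
        (h3 w hw).1, (h3 w hw).2⟩⟩
    · rintro ⟨x, l⟩
      rcases datB_comp D B x with ⟨y, g, h1, h2, h3, h4⟩ | ⟨y, h1, h2⟩
      · refine Or.inl ⟨y, g, h1, ?_, (hreach x y l g).2 h3, ?_⟩
        · rw [occ_empty]; exact h2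
        · intro t ht h5
          exact h4 (h5 ▸ (hbe1 t ht).1)
      · right
        have h3 : ∃ t ∈ be, t.1 = y := by
          simp only [Finset.mem_insert, Finset.mem_singleton] at h1
          rcases h1 with rfl | rfl | rfl | rfl
          · exact ⟨_, (hmem _).2 (Or.inl rfl), rfl⟩
          · exact ⟨_, (hmem _).2 (Or.inr (Or.inl rfl)), rfl⟩
          · exact ⟨_, (hmem _).2 (Or.inr (Or.inr (Or.inl rfl))), rfl⟩
          · exact ⟨_, (hmem _).2 (Or.inr (Or.inr (Or.inr rfl))), rfl⟩
        obtain ⟨t, ht, rfl⟩ := h3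
        exact ⟨t, ht, (hreach x t.1 l t.2.1).2 h2⟩
    · intro t ht
      obtain ⟨h1, h2, h3, -⟩ := hbe1 t ht
      refine ⟨?_, h2, ?_⟩
      · rw [hW, Finset.mem_filter]
        exact fun h => hSpleaf _ h1 h.2
      · rw [occ_empty]; exact h3
    · intro t ht t' ht' h1
      rcases (hmem t).1 ht with rfl | rfl | rfl | rfl <;>
        rcases (hmem t').1 ht' with rfl | rfl | rfl | rfl <;>
        simp only at h1 <;> first
          | rfl
          | exact absurd h1 hx11
          | exact absurd h1.symm hx11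
          | exact absurd h1 hx22
          | exact absurd h1.symm hx22
          | exact absurd h1 hd12.1
          | exact absurd h1.symm hd12.1
          | exact absurd h1 hd12.2.1
          | exact absurd h1.symm hd12.2.1
          | exact absurd h1 hd12.2.2.1
          | exact absurd h1.symm hd12.2.2.1
          | exact absurd h1 hd12.2.2.2
          | exact absurd h1.symm hd12.2.2.2
    · intro t ht
      obtain ⟨h1, h2, -, h3⟩ := hbe1 t ht
      obtain ⟨k, hk⟩ := hDb t.2.2
      have h4 := T.u4 t.1 t.2.1 k h2 (by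
        refine (ha t.1).trans ?_
        have h5 : (univ : Finset (C × Bool)).filter
            (fun p => nb σ p t.1 ∈ W0 ∧ d (nb σ p t.1) = some (a t.1)) ⊆
            (univ : Finset (C × Bool)).filter (fun p => nb σ p t.1 ∈ Db k) := by
          intro p hp
          rw [Finset.mem_filter] at hp ⊢
          rw [hk, Finset.mem_filter, h3]
          exact hp
        exact_mod_cast Finset.card_le_card h5)
      refine ⟨W.filter (fun w => w ∈ Db k ∧ optn σ Oe t.2.1 t.1 w), Finset.filter_subset _ _,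
        ?_, ?_⟩
      · have h5 : (Db k).filter (fun w => optn σ Oe t.2.1 t.1 w) ⊆
            W.filter (fun w => w ∈ Db k ∧ optn σ Oe t.2.1 t.1 w) ∪ (W0 \ W) := by
          intro x hx
          rw [Finset.mem_filter] at hx
          rw [Finset.mem_union, Finset.mem_filter, Finset.mem_sdiff]
          by_cases hx1 : x ∈ W
          · exact Or.inl ⟨hx1, hx⟩
          · refine Or.inr ⟨?_, hx1⟩
            have h6 := hx.1
            rw [hk, Finset.mem_filter] at h6
            exact h6.1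
        have h6 : ((Db k).filter (fun w => optn σ Oe t.2.1 t.1 w)).card ≤
            (W.filter (fun w => w ∈ Db k ∧ optn σ Oe t.2.1 t.1 w)).card + 4 :=
          (Finset.card_le_card h5).trans ((Finset.card_union_le _ _).trans
            (Nat.add_le_add_left hWc _))
        have h7 : (((Db k).filter (fun w => optn σ Oe t.2.1 t.1 w)).card : ℝ) ≤
            (W.filter (fun w => w ∈ Db k ∧ optn σ Oe t.2.1 t.1 w)).card + 4 := by
          exact_mod_cast h6
        have h8 : ((20 * K + 20 : ℕ) : ℝ) ≤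
            (W.filter (fun w => w ∈ Db k ∧ optn σ Oe t.2.1 t.1 w)).card := by
          push_cast
          linarith
        exact_mod_cast h8
      · intro x hx
        rw [Finset.mem_filter] at hx
        have h6 := hx.2.1
        rw [hk, Finset.mem_filter] at h6
        exact ⟨h6.2, hx.2.2⟩
    · rw [hbe]
      exact Finset.card_le_four
    · intro E hE h1
      have e1 : (x1, (2 : Fin 3), a x1) ∈ be := (hmem _).2 (Or.inl rfl)
      have e2 : (σ is x1, (2 : Fin 3), a (σ is x1)) ∈ be := (hmem _).2 (Or.inr (Or.inl rfl))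
      have e3 : (x2, (1 : Fin 3), a x2) ∈ be := (hmem _).2 (Or.inr (Or.inr (Or.inl rfl)))
      have e4 : (σ is x2, (1 : Fin 3), a (σ is x2)) ∈ be :=
        (hmem _).2 (Or.inr (Or.inr (Or.inr rfl)))
      exact htree E hE (h1 _ e1 _ e2 ((hreach _ _ _ _).2 B.r1))
        (h1 _ e3 _ e4 ((hreach _ _ _ _).2 B.r2))
    · intro W' hW' hc E hE hJ
      refine hd W' (hW'.trans hWsub) ?_ E hE hJ
      have h1 : W0 \ W' ⊆ (W0 \ W) ∪ (W \ W') := by
        intro x hx
        rw [Finset.mem_sdiff] at hx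
        rw [Finset.mem_union, Finset.mem_sdiff, Finset.mem_sdiff]
        by_cases hx1 : x ∈ W
        · exact Or.inr ⟨hx1, hx.2⟩
        · exact Or.inl ⟨hx.1, hx1⟩
      have h2 := (Finset.card_le_card h1).trans (Finset.card_union_le _ _)
      omega
  obtain ⟨Q, hQ, hc⟩ := merge_all hM
  exact ⟨_, _, _, _, _, _, _, datB_plan D B hQ hc⟩

end B

end Pool.Agent.KZ
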