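import Pool.Agent.Lib_helper15.KZF.AsmB
import Pool.Agent.Lib_helper15.KZF.CYC
import Pool.Agent.Lib_helper15.KZF.DefsA
import Pool.Agent.Lib_helper15.KZF.DefsN
import Pool.Agent.Lib_helper15.KZF.ED

/-!
# Regime B: existence of a plan
-/

set_option autoImplicit false

namespace Pool.Agent.KZ

open Finset

section Fresh

variable {V C : Type} [Fintype V] [DecidableEq V] [Fintype C] [DecidableEq C]
variable {σ : C → Equiv.Perm V} {Lv : Finset C} {Uu : Finset V} {z0 u v : C → V} {cl : C → Fin 3}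
  {δ : ℝ} {h : ℕ} {q κ ε : ℝ} {Sg : C → V → Finset V} {ty : C → Fin 3} {lev : V → ℕ}

open Classical in
theorem fresh_exist (hσ : HD σ) (T : Types σ Lv Uu u v cl δ h q κ ε Sg ty lev)
    (is : C) (Ru : Finset C) (he : ∀ i, ed σ i (z0 i) = s(u i, v i))
    (hnum : 4 * (Ru.card : ℝ) < δ ^ 2 * κ ^ 2 * Fintype.card V - ε * Fintype.card V) :
    ∃ z, freshE σ is Lv u v ty Ru z := by
  have hV : 0 < Fintype.card V := by have := hσ.three; omega
  obtain ⟨x⟩ : Nonempty V := Fintype.card_pos_iff.1 hV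
  have h1 := T.t4 is x (Fintype.card V) le_rfl
  by_contra hno
  push Not at hno
  -- every admissible start touches `Ru`
  set R := (range (Fintype.card V)).filter (fun r => rese Lv u v ty ((σ is ^ r) x) ∧
    rese Lv u v ty ((σ is ^ (r + 1)) x) ∧
    s((σ is ^ r) x, (σ is ^ (r + 1)) x) ≠ s(u is, v is)) with hR
  set U := Ru.image u ∪ Ru.image v with hU
  have hUc : U.card ≤ 2 * Ru.card := by
    calc U.card ≤ _ := Finset.card_union_le _ _
      _ ≤ Ru.card + Ru.card := Nat.add_le_add Finset.card_image_le Finset.card_image_le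
      _ = _ := by ring
  have hsub : R.image (fun r => (σ is ^ r) x) ⊆ U ∪ U.image (fun y => (σ is)⁻¹ y) := by
    intro y hy
    rw [Finset.mem_image] at hy
    obtain ⟨r, hr, rfl⟩ := hy
    rw [hR, Finset.mem_filter] at hr
    obtain ⟨-, ⟨j, hj, hj0, hju⟩, ⟨j', hj', hj0', hju'⟩, hne⟩ := hr
    have hs : σ is ((σ is ^ r) x) = (σ is ^ (r + 1)) x := by
      rw [pow_succ', Equiv.Perm.mul_apply]
    have hmU : ∀ i ∈ Ru, ∀ y, (y = u i ∨ y = v i) → y ∈ U := by
      intro i hi y hy
      rw [hU, Finset.mem_union, Finset.mem_image, Finset.mem_image]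
      rcases hy with rfl | rfl
      · exact Or.inl ⟨i, hi, rfl⟩
      · exact Or.inr ⟨i, hi, rfl⟩
    rw [Finset.mem_union]
    by_cases h2 : j ∈ Ru
    · exact Or.inl (hmU j h2 _ hju)
    · by_cases h3 : j' ∈ Ru
      · right
        rw [Finset.mem_image]
        refine ⟨_, hmU j' h3 _ hju', ?_⟩
        rw [← hs]
        simp
      · exfalso
        refine hno ((σ is ^ r) x) ⟨j, hj, j', hj', h2, h3, ?_, hj0, hj0', hju, ?_⟩
        · rintro rfl
          apply hne
          have hxy : (σ is ^ r) x ≠ (σ is ^ (r + 1)) x := by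
            rw [← hs]
            exact (hd_ne hσ is _).1.symm
          have h4 : s((σ is ^ r) x, (σ is ^ (r + 1)) x) = s(u j, v j) := by
            rcases hju with h5 | h5 <;> rcases hju' with h6 | h6
            · exact absurd (h5.trans h6.symm) hxy
            · rw [h5, h6]
            · rw [h5, h6, Sym2.eq_swap]
            · exact absurd (h5.trans h6.symm) hxy
          have h5 : ed σ is ((σ is ^ r) x) = ed σ j (z0 j) := by
            rw [he j, ← h4]
            unfold ed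
            rw [hs]
          have h6 := (ed_inj hσ h5).1
          rw [h4, h6]
        · rw [hs]; exact hju'
  have hinj : (R.image (fun r => (σ is ^ r) x)).card = R.card := by
    refine Finset.card_image_of_injOn ?_
    intro r hr r' hr' he
    have h2 := (Finset.mem_filter.1 (Finset.mem_coe.1 hr)).1
    have h3 := (Finset.mem_filter.1 (Finset.mem_coe.1 hr')).1
    exact cyc_inj hσ is x (Finset.mem_range.1 h2) (Finset.mem_range.1 h3) he
  have hc : R.card ≤ 4 * Ru.card := by
    rw [← hinj]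
    calc _ ≤ _ := Finset.card_le_card hsub
      _ ≤ _ := Finset.card_union_le _ _
      _ ≤ U.card + U.card := Nat.add_le_add_left Finset.card_image_le _
      _ ≤ _ := by omega
  have hcr : (R.card : ℝ) ≤ 4 * Ru.card := by exact_mod_cast hc
  linarith

end Fresh

/-- numerical facts of regime B -/
structure NumB (e δ μ h κ q N n L : ℝ) : Prop where
  e0 : 0 < e
  e1 : e ≤ 1 / 10 ^ 8
  δe : δ = e / 100
  μe : μ = e / 1000
  h1 : 1000 / e ≤ h
  N1 : 10 ^ 12 / e ≤ N
  h2 : (2 + e) * n ≤ N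
  h7 : N ≤ 7 * n
  κe : κ = 2 * n / N
  qe : q = κ * (1 - δ) / 2 + (1 - κ)
  L0 : L ≤ (1 - μ) * q * N * (h - 1) / h
  L1 : (1 - μ) * q * N * (h - 1) / h < L + 1

namespace NumB

variable {e δ μ h κ q N n L : ℝ}

theorem N0 (H : NumB e δ μ h κ q N n L) : 0 < N := by
  have h1 := H.N1
  have h2 := H.e0
  have : 0 < 10 ^ 12 / e := by positivity
  linarith

theorem n0 (H : NumB e δ μ h κ q N n L) : 0 < n := by
  have := H.N0
  have := H.h7
  linarith

theorem h0 (H : NumB e δ μ h κ q N n L) : 0 < h := by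
  have h1 := H.h1
  have h2 := H.e0
  have : 0 < 1000 / e := by positivity
  linarith

theorem eN (H : NumB e δ μ h κ q N n L) : 10 ^ 12 ≤ e * N := by
  have h1 := H.N1
  rw [div_le_iff₀ H.e0] at h1
  linarith

theorem N9 (H : NumB e δ μ h κ q N n L) : 10 ^ 12 ≤ N := by
  have h1 := H.eN
  have h2 := H.e1
  have h3 := H.N0
  nlinarith

theorem kN (H : NumB e δ μ h κ q N n L) : κ * N = 2 * n := by
  have := H.N0
  rw [H.κe]; field_simp

theorem k1 (H : NumB e δ μ h κ q N n L) : κ ≤ 1 := by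
  have h1 := H.N0
  rw [H.κe, div_le_one h1]
  have := H.h2
  have := H.e0
  have := H.n0
  nlinarith

theorem k27 (H : NumB e δ μ h κ q N n L) : 2 / 7 ≤ κ := by
  have h1 := H.N0
  rw [H.κe, le_div_iff₀ h1]
  have := H.h7
  linarith

theorem qN (H : NumB e δ μ h κ q N n L) : q * N = N - (1 + δ) * n := by
  have h1 := H.kN
  rw [H.qe]
  linear_combination (-(1 + δ) / 2) * h1

theorem q14 (H : NumB e δ μ h κ q N n L) : 1 / 4 ≤ q := by
  have h1 := H.k1
  have h2 := H.k27
  have h3 := H.δe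
  have h4 := H.e0
  have h5 := H.e1
  rw [H.qe, h3]
  nlinarith

theorem q1 (H : NumB e δ μ h κ q N n L) : q ≤ 1 := by
  have h1 := H.k1
  have h2 := H.k27
  have h3 := H.δe
  have h4 := H.e0
  have h5 := H.e1
  rw [H.qe, h3]
  nlinarith

theorem cap (H : NumB e δ μ h κ q N n L) : q * N - (e / 500) * N ≤
    (1 - μ) * q * N * (h - 1) / h := by
  have h1 := H.h0
  have h2 := H.N0
  have h3 := H.q14
  have h4 := H.q1
  have h5 := H.h1
  have h6 := H.e0
  have h7 := H.e1
  have h8 : (1 - μ) * q * N * (h - 1) / h = (1 - μ) * (1 - 1 / h) * (q * N) := by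
    field_simp
  rw [h8]
  have h9 : 1 / h ≤ e / 1000 := by
    rw [div_le_div_iff₀ h1 (by norm_num)]
    rw [div_le_iff₀ h6] at h5
    linarith
  have h10 : 1 - e / 500 ≤ (1 - μ) * (1 - 1 / h) := by
    have h11 : 0 ≤ 1 / h := by positivity
    rw [H.μe]
    nlinarith
  have h12 : 0 ≤ q * N := by positivity
  have h13 : q * N ≤ N := by nlinarith
  have h14 : (1 - e / 500) * (q * N) ≤ (1 - μ) * (1 - 1 / h) * (q * N) :=
    mul_le_mul_of_nonneg_right h10 h12
  nlinarith

theorem Ln (H : NumB e δ μ h κ q N n L) : n < L + 1 := by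
  have h1 := H.cap
  have h2 := H.L1
  have h3 := H.qN
  have h4 := H.h2
  have h5 := H.e0
  have h6 := H.e1
  have h7 := H.n0
  have h8 := H.h7
  have h9 : n + e / 10 * n ≤ q * N - e / 500 * N := by
    rw [h3, H.δe]
    nlinarith
  nlinarith

theorem L6 (H : NumB e δ μ h κ q N n L) (hμh : 0 ≤ (1 - μ) * (h - 1) / h ∧ (1 - μ) * (h - 1) / h ≤ 1) :
    L ≤ 6 * n := by
  have h1 := H.L0
  have h2 := H.qN
  have h3 := H.h7
  have h4 : (1 - μ) * q * N * (h - 1) / h = ((1 - μ) * (h - 1) / h) * (q * N) := by ring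
  rw [h4] at h1
  have h5 : 0 ≤ q * N := by
    have := H.q14
    have := H.N0
    positivity
  have h6 : ((1 - μ) * (h - 1) / h) * (q * N) ≤ 1 * (q * N) :=
    mul_le_mul_of_nonneg_right hμh.2 h5
  have h7 := H.n0
  have h8 : 0 ≤ δ := by
    rw [H.δe]
    have := H.e0
    positivity
  nlinarith

theorem K1 (H : NumB e δ μ h κ q N n L) : N - n - L ≤ e * N / 50 := by
  have h1 := H.cap
  have h2 := H.L1
  have h3 := H.qN
  have h4 := H.h2
  have h5 := H.e0
  have h6 := H.e1
  have h7 := H.n0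
  have h8 := H.eN
  have h9 : (1 + δ) * n = n + e / 100 * n := by rw [H.δe]; ring
  rw [h3, h9] at h1
  nlinarith

theorem hW (H : NumB e δ μ h κ q N n L) {ε : ℝ} (hε : ε ≤ 1 / 10 ^ 4) :
    0.97 * 2 * n ^ 2 / N ≤ (1 - δ) * κ * n - ε * N := by
  have h1 := H.N0
  have h2 := H.n0
  have h3 := H.h7
  have h4 := H.kN
  have h5 := H.e0
  have h6 := H.e1
  rw [div_le_iff₀ h1]
  have h7 : ((1 - δ) * κ * n - ε * N) * N = (1 - δ) * n * (κ * N) - ε * N ^ 2 := by ring
  rw [h7, h4, H.δe]
  have h8 : N ^ 2 ≤ 49 * n ^ 2 := by nlinarith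
  have h9 : ε * N ^ 2 ≤ 1 / 10 ^ 4 * (49 * n ^ 2) := by
    have : 0 ≤ N ^ 2 := by positivity
    nlinarith
  nlinarith

theorem st1 (H : NumB e δ μ h κ q N n L) : 2 * n ≤ (1 - e / 3) * N := by
  have h1 := H.h2
  have h2 := H.e0
  have h3 := H.e1
  have h4 := H.n0
  have h5 : (1 - e / 3) * ((2 + e) * n) ≤ (1 - e / 3) * N :=
    mul_le_mul_of_nonneg_left h1 (by linarith)
  have h6 : 0 ≤ e * n * (1 - e) := mul_nonneg (mul_pos h2 h4).le (by linarith)
  nlinarith

end NumB

end Pool.Agent.KZ
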