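import Pool.Agent.Lib_helper15.KZF.CYC
import Pool.Agent.Lib_helper15.KZF.DefsA
import Pool.Agent.Lib_helper15.KZF.DefsN
import Pool.Agent.Lib_helper15.KZF.ED
import Pool.Agent.Lib_helper15.KZF.NWR

/-!
# Block S3: the spine nibble
-/

set_option autoImplicit false

namespace Pool.Agent.KZ

open Finset

section
variable {V C : Type} [Fintype V] [DecidableEq V] [Fintype C] [DecidableEq C]
variable {σ : C → Equiv.Perm V}

/-- the mandatory interval `r` contains an arc of `H_i` -/
lemma spn_mand_arc (hσ : HD σ) (z0 : C → V) (dir : C → Bool) (m : C → ℕ) (i : C) (r : ℕ)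
    (hr : r < m i) : ∃ x : V, ∀ t < (Fintype.card V - 1) / 2 / m i,
      mand σ z0 dir m i ((σ i ^ t) x) r := by
  have hN := hσ.three
  set N := Fintype.card V with hNdef
  set l := (N - 1) / 2 / m i with hl
  have hml : (r + 1) * l ≤ (N - 1) / 2 := by
    have h1 : (r + 1) * l ≤ m i * l := Nat.mul_le_mul_right _ hr
    have h2 : m i * l ≤ (N - 1) / 2 := by rw [hl]; exact Nat.mul_div_le _ _
    exact h1.trans h2
  have hrl : (r + 1) * l = r * l + l := by ring
  cases hd : dir i with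
  | true =>
    refine ⟨(σ i ^ (r * l + 1)) (z0 i), fun t ht => ?_⟩
    have e1 : (σ i ^ t) ((σ i ^ (r * l + 1)) (z0 i)) = (σ i ^ ((r * l + t) + 1)) (z0 i) := by
      rw [← Equiv.Perm.mul_apply, ← pow_add]; congr 2; ring
    have e2 : ps σ z0 i ((σ i ^ t) ((σ i ^ (r * l + 1)) (z0 i))) = r * l + t :=
      ps_eq hσ z0 i _ (by omega) e1.symm
    refine ⟨?_, hr, ?_, ?_⟩
    · intro hcon
      rw [hcon, ps_z0 hσ] at e2
      omega
    · unfold pd; rw [hd, if_pos rfl, e2, ← hNdef, ← hl]; omega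
    · unfold pd; rw [hd, if_pos rfl, e2, ← hNdef, ← hl]; omega
  | false =>
    refine ⟨(σ i ^ (N - 1 - (r + 1) * l + 1)) (z0 i), fun t ht => ?_⟩
    have e1 : (σ i ^ t) ((σ i ^ (N - 1 - (r + 1) * l + 1)) (z0 i)) =
        (σ i ^ ((N - 1 - (r + 1) * l + t) + 1)) (z0 i) := by
      rw [← Equiv.Perm.mul_apply, ← pow_add]; congr 2; ring
    have e2 : ps σ z0 i ((σ i ^ t) ((σ i ^ (N - 1 - (r + 1) * l + 1)) (z0 i))) =
        N - 1 - (r + 1) * l + t :=
      ps_eq hσ z0 i _ (by omega) e1.symm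
    refine ⟨?_, hr, ?_, ?_⟩
    · intro hcon
      rw [hcon, ps_z0 hσ] at e2
      omega
    · unfold pd; rw [hd, if_neg (by decide), e2, ← hNdef, ← hl]; omega
    · unfold pd; rw [hd, if_neg (by decide), e2, ← hNdef, ← hl]; omega

lemma spn_lamb (j : ℕ) : lamb j ≠ lamb (j + 1) := by
  unfold lamb
  rcases Nat.even_or_odd' j with ⟨k, rfl | rfl⟩
  · rw [if_pos (by omega), if_neg (by omega)]; decide
  · rw [if_neg (by omega), if_pos (by omega)]; decide

/-- the letter of a cell -/
def spnInc (σ : C → Equiv.Perm V) (gl : C → Fin 3) (e : (C × Fin 7) × V) :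
    Finset ((V × Fin 3) ⊕ (C × Fin 7)) :=
  {Sum.inl (e.2, lb (gl e.1.1) e.1.2), Sum.inl (σ e.1.1 e.2, lb (gl e.1.1) e.1.2), Sum.inr e.1}

/-- a cell is admissible -/
def spnOk (σ : C → Equiv.Perm V) (z0 : C → V) (Lv : Finset C) (Uu : Finset V) (u v : C → V)
    (Es : Finset C) (m : C → ℕ) (ty : C → Fin 3) (lev : V → ℕ) (dir : C → Bool) (gl : C → Fin 3)
    (e : (C × Fin 7) × V) : Prop :=
  e.1.1 ∈ Es ∧ mand σ z0 dir m e.1.1 e.2 e.1.2 ∧
    (alw Lv Uu u v ty lev (lb (gl e.1.1) e.1.2) e.2 (σ e.1.1 e.2) ∨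
      alw Lv Uu u v ty lev (lb (gl e.1.1) e.1.2) (σ e.1.1 e.2) e.2)

end

/-- the spine nibble, deterministic statement with all the estimates as hypotheses -/
lemma spn_core (ε : ℝ) (B : ℕ) (hε : 0 < ε) : ∃ N₀ : ℕ,
    ∀ (V C : Type) [Fintype V] [DecidableEq V] [Fintype C] [DecidableEq C]
      (σ : C → Equiv.Perm V), HD σ → N₀ ≤ Fintype.card V →
      ∀ (Lv : Finset C) (Uu : Finset V) (z0 u v : C → V) (ty : C → Fin 3) (lev : V → ℕ)
        (Es : Finset C) (m : C → ℕ) (dir : C → Bool) (gl : C → Fin 3) (h : ℕ) (c₁ : ℝ),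
      (∀ i ∈ Es, 1 ≤ m i ∧ m i ≤ 7) → (∀ i, gl i ≠ 0) → (∀ x, 1 ≤ lev x ∧ lev x ≤ h) →
      0 ≤ c₁ → 14 * c₁ ≤ B / Fintype.card V → 11 ≤ B →
      (∀ i ∈ Es, ∀ r < m i, ∃ S : Finset V, (1 : ℝ) ≤ c₁ * m i * S.card ∧ ∀ z ∈ S,
        mand σ z0 dir m i z r ∧ (alw Lv Uu u v ty lev (lb (gl i) r) z (σ i z) ∨
          alw Lv Uu u v ty lev (lb (gl i) r) (σ i z) z)) →
      (∀ y (j : ℕ) (g : Fin 3), 1 ≤ j → j ≤ h → ∀ A : Finset (C × Bool),
        (∀ p ∈ A, p.1 ∈ Es ∧ (∃ r, mand σ z0 dir m p.1 (es σ p y) r ∧ lb (gl p.1) r = g) ∧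
          spin Lv Uu u v ty (nb σ p y) ∧ lev (nb σ p y) = j) →
        c₁ * (∑ p ∈ A, (m p.1 : ℝ)) ≤ 1) →
      ∃ Ls : Finset (Sq V C), Spl σ z0 Lv Uu u v Es m ty lev dir gl Ls ∧
        (∑ i ∈ Es, (m i : ℝ)) - Ls.card ≤ ε * Fintype.card V := by
  classical
  obtain ⟨N₀, hN₀⟩ := nib_wrap 3 (by norm_num) B ε hε
  refine ⟨N₀, ?_⟩
  intro V C _ _ _ _ σ hσ hN Lv Uu z0 u v ty lev Es m dir gl h c₁ hm hgl hlev hc0 hcB hB
    hcell hload
  have hNpos : (0 : ℝ) < (Fintype.card V : ℝ) := by
    have := hσ.three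
    have : 0 < Fintype.card V := by omega
    exact_mod_cast this
  obtain ⟨ok, hok⟩ : ∃ ok : (C × Fin 7) × V → Prop, ok =
    spnOk σ z0 Lv Uu u v Es m ty lev dir gl := ⟨_, rfl⟩
  have okd : ∀ e, ok e ↔ e.1.1 ∈ Es ∧ mand σ z0 dir m e.1.1 e.2 e.1.2 ∧
    (alw Lv Uu u v ty lev (lb (gl e.1.1) e.1.2) e.2 (σ e.1.1 e.2) ∨
      alw Lv Uu u v ty lev (lb (gl e.1.1) e.1.2) (σ e.1.1 e.2) e.2) := by
    intro e; rw [hok]; rfl
  -- number of cells of a letter
  obtain ⟨Nn, hNn⟩ : ∃ Nn : C × Fin 7 → ℕ, ∀ a, Nn a = (univ.filter (fun z => ok (a, z))).card :=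
    ⟨_, fun _ => rfl⟩
  obtain ⟨w, hw⟩ : ∃ w : (C × Fin 7) × V → ℝ, ∀ e, w e = if ok e then 1 / (Nn e.1 : ℝ) else 0 :=
    ⟨_, fun _ => rfl⟩
  have hw0 : ∀ e, 0 ≤ w e := by
    intro e; rw [hw]; split_ifs <;> positivity
  have hwok : ∀ e, w e ≠ 0 → ok e := by
    intro e he
    by_contra hcon
    exact he (by rw [hw, if_neg hcon])
  have hNn1 : ∀ i ∈ Es, ∀ r : Fin 7, (r : ℕ) < m i → (1 : ℝ) ≤ c₁ * m i * Nn (i, r) := by
    intro i hi r hr
    obtain ⟨S, hS1, hS2⟩ := hcell i hi r hr
    refine hS1.trans ?_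
    have : S.card ≤ Nn (i, r) := by
      rw [hNn]
      refine Finset.card_le_card fun z hz => ?_
      rw [Finset.mem_filter]
      exact ⟨Finset.mem_univ _, (okd _).2 ⟨hi, hS2 z hz⟩⟩
    have h2 : (S.card : ℝ) ≤ Nn (i, r) := by exact_mod_cast this
    exact mul_le_mul_of_nonneg_left h2 (by positivity)
  have hNnpos : ∀ i ∈ Es, ∀ r : Fin 7, (r : ℕ) < m i → (0 : ℝ) < Nn (i, r) := by
    intro i hi r hr
    have h1 := hNn1 i hi r hr
    rcases Nat.eq_zero_or_pos (Nn (i, r)) with h2 | h2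
    · rw [h2] at h1; norm_num at h1
    · exact_mod_cast h2
  have hwle : ∀ e, ok e → w e ≤ c₁ * m e.1.1 := by
    intro e he
    have he' := (okd e).1 he
    rw [hw, if_pos he, div_le_iff₀ (hNnpos _ he'.1 _ he'.2.1.2.1)]
    exact hNn1 _ he'.1 _ he'.2.1.2.1
  have hwle' : ∀ e, w e ≤ 7 * c₁ := by
    intro e
    by_cases he : ok e
    · have he' := (okd e).1 he
      refine (hwle e he).trans ?_
      have : (m e.1.1 : ℝ) ≤ 7 := by exact_mod_cast (hm _ he'.1).2
      nlinarith
    · rw [hw, if_neg he]; positivity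
  -- determined cells
  have hdet : ∀ e e', ok e → ok e' → e.1.1 = e'.1.1 → e.2 = e'.2 → e = e' := by
    rintro ⟨⟨i, r⟩, z⟩ ⟨⟨i', r'⟩, z'⟩ he he' h1 h2
    simp only at h1 h2
    subst h1; subst h2
    have h3 := mand_unique ((okd _).1 he).2.1 ((okd _).1 he').2.1
    have h4 : r = r' := Fin.ext h3
    rw [h4]
  have hinl : ∀ e y g, (Sum.inl (y, g) : (V × Fin 3) ⊕ (C × Fin 7)) ∈ spnInc σ gl e ↔
      (y = e.2 ∨ y = σ e.1.1 e.2) ∧ g = lb (gl e.1.1) e.1.2 := by
    intro e y g
    unfold spnInc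
    simp only [Finset.mem_insert, Finset.mem_singleton, Sum.inl.injEq, Prod.mk.injEq, reduceCtorEq,
      or_false]
    tauto
  have hinr : ∀ e a, (Sum.inr a : (V × Fin 3) ⊕ (C × Fin 7)) ∈ spnInc σ gl e ↔ a = e.1 := by
    intro e a
    unfold spnInc
    simp only [Finset.mem_insert, Finset.mem_singleton, reduceCtorEq, Sum.inr.injEq, false_or]
  obtain ⟨R, hR⟩ : ∃ R : Finset ((V × Fin 3) ⊕ (C × Fin 7)), R =
    (univ.filter (fun a : C × Fin 7 => a.1 ∈ Es ∧ (a.2 : ℕ) < m a.1)).image Sum.inr := ⟨_, rfl⟩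
  have hRcard : (R.card : ℝ) = ∑ i ∈ Es, (m i : ℝ) := by
    rw [hR, Finset.card_image_of_injective _ Sum.inr_injective]
    have h1 : (univ.filter (fun a : C × Fin 7 => a.1 ∈ Es ∧ (a.2 : ℕ) < m a.1)) =
        Es.biUnion (fun i => (univ.filter (fun r : Fin 7 => (r : ℕ) < m i)).image
          (fun r => (i, r))) := by
      ext ⟨i, r⟩
      simp only [Finset.mem_filter, Finset.mem_univ, true_and, Finset.mem_biUnion,
        Finset.mem_image, Prod.mk.injEq]
      constructor
      · rintro ⟨h1, h2⟩; exact ⟨i, h1, r, h2, rfl, rfl⟩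
      · rintro ⟨i', h1, r', h2, rfl, rfl⟩; exact ⟨h1, h2⟩
    rw [h1, Finset.card_biUnion]
    · push_cast
      refine Finset.sum_congr rfl fun i hi => ?_
      rw [Finset.card_image_of_injective _ (fun a b hab => by simpa using hab)]
      have h7 := (hm i hi).2
      have : (univ.filter (fun r : Fin 7 => (r : ℕ) < m i)).card = m i := by
        have h8 : (univ.filter (fun r : Fin 7 => (r : ℕ) < m i)).card = min 7 (m i) :=
          Fin.card_filter_val_lt
        rw [h8]; omega
      rw [this]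
    · intro i _ j _ hij
      rw [Function.onFun, Finset.disjoint_left]
      rintro a ha hb
      rw [Finset.mem_image] at ha hb
      obtain ⟨r, _, rfl⟩ := ha
      obtain ⟨r', _, h3⟩ := hb
      exact hij (Prod.mk.inj h3).1.symm
  obtain ⟨D, hD1, hD2, hD3⟩ := hN₀ (Fintype.card V) hN ((V × Fin 3) ⊕ (C × Fin 7))
    ((C × Fin 7) × V) (spnInc σ gl) w R {R}
    (by
      have h1 := hd_deg hσ
      rw [Fintype.card_sum, Fintype.card_prod, Fintype.card_prod, Fintype.card_fin,
        Fintype.card_fin]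
      nlinarith)
    (by rw [Finset.card_singleton]; omega)
    (by intro S hS; rw [Finset.mem_singleton] at hS; rw [hS])
    hw0
    (by
      intro e _
      refine ⟨⟨Sum.inr e.1, (hinr e _).2 rfl⟩, ?_⟩
      unfold spnInc
      exact Finset.card_le_three)
    (by
      intro x
      have hx0 : (0 : ℝ) ≤ (Fintype.card V : ℝ) ^ (-(1 : ℝ) / 5) := Real.rpow_nonneg hNpos.le _
      refine le_trans ?_ (le_add_of_nonneg_right hx0)
      have hsplit : ∑ e ∈ univ.filter (fun e => x ∈ spnInc σ gl e), w e =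
          ∑ e ∈ univ.filter (fun e => x ∈ spnInc σ gl e ∧ ok e), w e := by
        symm
        refine Finset.sum_subset_zero_on_sdiff ?_ ?_ (fun _ _ => rfl)
        · intro e he
          rw [Finset.mem_filter] at he ⊢
          exact ⟨he.1, he.2.1⟩
        · intro e he
          rw [Finset.mem_sdiff, Finset.mem_filter, Finset.mem_filter] at he
          by_contra hcon
          exact he.2 ⟨Finset.mem_univ _, he.1.2, hwok e hcon⟩
      rw [hsplit]
      rcases x with ⟨y, g⟩ | a
      · -- vertex resource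
        rcases (univ.filter (fun e => (Sum.inl (y, g) : (V × Fin 3) ⊕ (C × Fin 7)) ∈
          spnInc σ gl e ∧ ok e)).eq_empty_or_nonempty with hemp | hne
        · rw [hemp, Finset.sum_empty]; norm_num
        · -- the level of the other end
          obtain ⟨j, hj⟩ : ∃ j : ℕ, j = if lamb (lev y) = g then lev y - 1 else lev y + 1 :=
            ⟨_, rfl⟩
          obtain ⟨f, hf⟩ : ∃ f : (C × Fin 7) × V → C × Bool, ∀ e, f e =
            (e.1.1, decide (e.2 = y)) := ⟨_, fun _ => rfl⟩
          have hprop : ∀ e, (Sum.inl (y, g) : (V × Fin 3) ⊕ (C × Fin 7)) ∈ spnInc σ gl e → ok e →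
              (f e).1 ∈ Es ∧ (∃ r, mand σ z0 dir m (f e).1 (es σ (f e) y) r ∧
                lb (gl (f e).1) r = g) ∧
              spin Lv Uu u v ty (nb σ (f e) y) ∧ lev (nb σ (f e) y) = j := by
            rintro ⟨⟨i, r⟩, z⟩ h1 h2
            rw [hinl] at h1
            obtain ⟨h3, h4, h5⟩ := (okd _).1 h2
            simp only at h1 h3 h4 h5
            rw [hf]
            simp only
            obtain ⟨h6, h7⟩ := h1
            have hl1 : ∀ a b : V, lev b = lev a + 1 → lamb (lev b) = g →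
                (y = b → lev a = j) ∧ (y = a → lev b = j) := by
              intro a b hab hg
              constructor
              · rintro rfl
                rw [hj, if_pos hg]; omega
              · rintro rfl
                rw [hj, if_neg, hab]
                intro hcon
                rw [hab] at hg
                exact spn_lamb _ (hcon.trans hg.symm)
            by_cases hz : z = y
            · subst hz
              have e1 : es σ (i, decide (z = z)) z = z := by simp [es]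
              have e2 : nb σ (i, decide (z = z)) z = σ i z := by simp [nb]
              rw [e1, e2]
              refine ⟨h3, ⟨r, h4, h7.symm⟩, ?_⟩
              rcases h5 with h5 | h5
              · exact ⟨h5.2.1, (hl1 _ _ h5.2.2.1 (h5.2.2.2.trans h7.symm)).2 rfl⟩
              · exact ⟨h5.1, (hl1 _ _ h5.2.2.1 (h5.2.2.2.trans h7.symm)).1 rfl⟩
            · have hy : y = σ i z := by
                rcases h6 with h6 | h6
                · exact absurd h6.symm hz
                · exact h6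
              have e0 : (σ i)⁻¹ y = z := by rw [hy]; simp
              have e1 : es σ (i, decide (z = y)) y = z := by simp [es, hz, e0]
              have e2 : nb σ (i, decide (z = y)) y = z := by simp [nb, hz, e0]
              rw [e1, e2]
              refine ⟨h3, ⟨r, h4, h7.symm⟩, ?_⟩
              rcases h5 with h5 | h5
              · exact ⟨h5.1, (hl1 _ _ h5.2.2.1 (h5.2.2.2.trans h7.symm)).1 hy⟩
              · exact ⟨h5.2.1, (hl1 _ _ h5.2.2.1 (h5.2.2.2.trans h7.symm)).2 hy⟩
          have hinj : Set.InjOn f (univ.filter (fun e =>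
              (Sum.inl (y, g) : (V × Fin 3) ⊕ (C × Fin 7)) ∈ spnInc σ gl e ∧ ok e)) := by
            intro e he e' he' hff
            rw [Finset.mem_coe, Finset.mem_filter] at he he'
            rw [hf, hf, Prod.mk.injEq] at hff
            refine hdet e e' he.2.2 he'.2.2 hff.1 ?_
            have h1 := ((hinl e y g).1 he.2.1).1
            have h2 := ((hinl e' y g).1 he'.2.1).1
            by_cases hz : e.2 = y
            · have : e'.2 = y := by
                have := hff.2
                rw [decide_eq_decide] at this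
                exact this.1 hz
              rw [hz, this]
            · have hz' : e'.2 ≠ y := by
                intro hcon
                have := hff.2
                rw [decide_eq_decide] at this
                exact hz (this.2 hcon)
              have h3 : y = σ e.1.1 e.2 := by
                rcases h1 with h1 | h1
                · exact absurd h1.symm hz
                · exact h1
              have h4 : y = σ e'.1.1 e'.2 := by
                rcases h2 with h2 | h2
                · exact absurd h2.symm hz'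
                · exact h2
              rw [← hff.1] at h4
              exact (σ e.1.1).injective (h3.symm.trans h4)
          obtain ⟨e0, he0⟩ := hne
          rw [Finset.mem_filter] at he0
          have hj1 := (hprop e0 he0.2.1 he0.2.2).2.2.2
          have hj2 := hlev (nb σ (f e0) y)
          rw [hj1] at hj2
          calc ∑ e ∈ univ.filter (fun e => (Sum.inl (y, g) : (V × Fin 3) ⊕ (C × Fin 7)) ∈
                spnInc σ gl e ∧ ok e), w e
              ≤ ∑ e ∈ univ.filter (fun e => (Sum.inl (y, g) : (V × Fin 3) ⊕ (C × Fin 7)) ∈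
                spnInc σ gl e ∧ ok e), c₁ * (m (f e).1 : ℝ) := by
                refine Finset.sum_le_sum fun e he => ?_
                rw [Finset.mem_filter] at he
                rw [hf]
                exact hwle e he.2.2
            _ = ∑ p ∈ (univ.filter (fun e => (Sum.inl (y, g) : (V × Fin 3) ⊕ (C × Fin 7)) ∈
                spnInc σ gl e ∧ ok e)).image f, c₁ * (m p.1 : ℝ) := by
                rw [Finset.sum_image hinj]
            _ = c₁ * ∑ p ∈ (univ.filter (fun e => (Sum.inl (y, g) : (V × Fin 3) ⊕ (C × Fin 7)) ∈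
                spnInc σ gl e ∧ ok e)).image f, (m p.1 : ℝ) := by rw [Finset.mul_sum]
            _ ≤ 1 := by
                refine hload y j g hj2.1 hj2.2 _ ?_
                intro p hp
                rw [Finset.mem_image] at hp
                obtain ⟨e, he, rfl⟩ := hp
                rw [Finset.mem_filter] at he
                exact hprop e he.2.1 he.2.2
      · -- letter resource
        have h1 : univ.filter (fun e => (Sum.inr a : (V × Fin 3) ⊕ (C × Fin 7)) ∈
            spnInc σ gl e ∧ ok e) = (univ.filter (fun z => ok (a, z))).image (fun z => (a, z)) := by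
          ext ⟨a', z⟩
          rw [Finset.mem_filter, hinr, Finset.mem_image]
          simp only [Finset.mem_univ, true_and, Finset.mem_filter, Prod.mk.injEq]
          constructor
          · rintro ⟨rfl, h2⟩; exact ⟨z, h2, rfl, rfl⟩
          · rintro ⟨z', h2, rfl, rfl⟩; exact ⟨rfl, h2⟩
        rw [h1, Finset.sum_image (fun x _ y _ hxy => by simpa using hxy)]
        have h2 : ∀ z ∈ univ.filter (fun z => ok (a, z)), w (a, z) = 1 / (Nn a : ℝ) := by
          intro z hz
          rw [Finset.mem_filter] at hz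
          rw [hw, if_pos hz.2]
        rw [Finset.sum_congr rfl h2, Finset.sum_const, nsmul_eq_mul, ← hNn]
        rcases Nat.eq_zero_or_pos (Nn a) with h3 | h3
        · rw [h3]; norm_num
        · have : (0 : ℝ) < Nn a := by exact_mod_cast h3
          rw [mul_one_div_cancel this.ne'])
    (by
      intro x hx
      rw [hR, Finset.mem_image] at hx
      obtain ⟨a, ha, rfl⟩ := hx
      rw [Finset.mem_filter] at ha
      have hx0 : (0 : ℝ) ≤ (Fintype.card V : ℝ) ^ (-(1 : ℝ) / 5) := Real.rpow_nonneg hNpos.le _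
      have hsub : (univ.filter (fun z => ok (a, z))).image (fun z => (a, z)) ⊆
          univ.filter (fun e => (Sum.inr a : (V × Fin 3) ⊕ (C × Fin 7)) ∈ spnInc σ gl e) := by
        intro e he
        rw [Finset.mem_image] at he
        obtain ⟨z, hz, rfl⟩ := he
        rw [Finset.mem_filter, hinr]
        exact ⟨Finset.mem_univ _, rfl⟩
      refine le_trans ?_ (Finset.sum_le_sum_of_subset_of_nonneg hsub (fun e _ _ => hw0 e))
      rw [Finset.sum_image (fun x _ y _ hxy => by simpa using hxy)]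
      have h2 : ∀ z ∈ univ.filter (fun z => ok (a, z)), w (a, z) = 1 / (Nn a : ℝ) := by
        intro z hz
        rw [Finset.mem_filter] at hz
        rw [hw, if_pos hz.2]
      rw [Finset.sum_congr rfl h2, Finset.sum_const, nsmul_eq_mul, ← hNn]
      have : (0 : ℝ) < Nn a := hNnpos a.1 ha.2.1 a.2 ha.2.2
      rw [mul_one_div_cancel this.ne']
      linarith)
    (by
      intro x x' hxx
      -- at most two cells
      have hsplit : ∑ e ∈ univ.filter (fun e => x ∈ spnInc σ gl e ∧ x' ∈ spnInc σ gl e), w e =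
          ∑ e ∈ univ.filter (fun e => (x ∈ spnInc σ gl e ∧ x' ∈ spnInc σ gl e) ∧ ok e), w e := by
        symm
        refine Finset.sum_subset_zero_on_sdiff ?_ ?_ (fun _ _ => rfl)
        · intro e he
          rw [Finset.mem_filter] at he ⊢
          exact ⟨he.1, he.2.1⟩
        · intro e he
          rw [Finset.mem_sdiff, Finset.mem_filter, Finset.mem_filter] at he
          by_contra hcon
          exact he.2 ⟨Finset.mem_univ _, he.1.2, hwok e hcon⟩
      rw [hsplit]
      have hvl : ∀ (y : V) (g : Fin 3) (a : C × Fin 7),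
          (univ.filter (fun e => ((Sum.inl (y, g) : (V × Fin 3) ⊕ (C × Fin 7)) ∈ spnInc σ gl e ∧
            (Sum.inr a : (V × Fin 3) ⊕ (C × Fin 7)) ∈ spnInc σ gl e) ∧ ok e)).card ≤ 2 := by
        intro y g a
        have h1 : univ.filter (fun e => ((Sum.inl (y, g) : (V × Fin 3) ⊕ (C × Fin 7)) ∈
            spnInc σ gl e ∧ (Sum.inr a : (V × Fin 3) ⊕ (C × Fin 7)) ∈ spnInc σ gl e) ∧ ok e) ⊆
            {(a, y), (a, (σ a.1)⁻¹ y)} := by
          intro e he
          rw [Finset.mem_filter, hinl, hinr] at he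
          obtain ⟨-, ⟨⟨h2, -⟩, rfl⟩, -⟩ := he
          rw [Finset.mem_insert, Finset.mem_singleton]
          rcases h2 with h2 | h2
          · left; rw [h2]
          · right; rw [h2]; simp
        exact (Finset.card_le_card h1).trans Finset.card_le_two
      have hcard : (univ.filter (fun e => (x ∈ spnInc σ gl e ∧ x' ∈ spnInc σ gl e) ∧ ok e)).card
          ≤ 2 := by
        rcases x with ⟨y, g⟩ | a
        · rcases x' with ⟨y', g'⟩ | a'
          · refine le_trans (Finset.card_le_one.2 ?_) (by norm_num)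
            intro e he e' he'
            rw [Finset.mem_filter, hinl, hinl] at he he'
            obtain ⟨-, ⟨⟨h1, h2⟩, h3, h4⟩, h5⟩ := he
            obtain ⟨-, ⟨⟨h1', h2'⟩, h3', h4'⟩, h5'⟩ := he'
            have hyy : y ≠ y' := by
              rintro rfl
              exact hxx (by rw [h2, h4])
            have e1 : s(y, y') = ed σ e.1.1 e.2 := by
              unfold ed
              rcases h1 with h1 | h1 <;> rcases h3 with h3 | h3
              · exact absurd (h1.trans h3.symm) hyy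
              · rw [h1, h3]
              · rw [h1, h3, Sym2.eq_swap]
              · exact absurd (h1.trans h3.symm) hyy
            have e2 : s(y, y') = ed σ e'.1.1 e'.2 := by
              unfold ed
              rcases h1' with h1' | h1' <;> rcases h3' with h3' | h3'
              · exact absurd (h1'.trans h3'.symm) hyy
              · rw [h1', h3']
              · rw [h1', h3', Sym2.eq_swap]
              · exact absurd (h1'.trans h3'.symm) hyy
            obtain ⟨e3, e4⟩ := ed_inj hσ (e1.symm.trans e2)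
            exact hdet e e' h5 h5' e3 e4
          · exact hvl y g a'
        · rcases x' with ⟨y', g'⟩ | a'
          · have := hvl y' g' a
            refine le_trans (Finset.card_le_card ?_) this
            intro e he
            rw [Finset.mem_filter] at he ⊢
            exact ⟨he.1, ⟨he.2.1.2, he.2.1.1⟩, he.2.2⟩
          · refine le_trans (Finset.card_le_one.2 ?_) (by norm_num)
            intro e he e' he'
            rw [Finset.mem_filter, hinr, hinr] at he
            exact absurd (by rw [he.2.1.1, he.2.1.2]) hxx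
      calc ∑ e ∈ univ.filter (fun e => (x ∈ spnInc σ gl e ∧ x' ∈ spnInc σ gl e) ∧ ok e), w e
          ≤ ∑ e ∈ univ.filter (fun e => (x ∈ spnInc σ gl e ∧ x' ∈ spnInc σ gl e) ∧ ok e),
            7 * c₁ := Finset.sum_le_sum fun e _ => hwle' e
        _ = (univ.filter (fun e => (x ∈ spnInc σ gl e ∧ x' ∈ spnInc σ gl e) ∧ ok e)).card *
            (7 * c₁) := by rw [Finset.sum_const, nsmul_eq_mul]
        _ ≤ 2 * (7 * c₁) := by
            refine mul_le_mul_of_nonneg_right ?_ (by positivity)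
            exact_mod_cast hcard
        _ ≤ B / Fintype.card V := by linarith)
  -- the letters
  have hDok : ∀ e ∈ D, ok e := fun e he => hwok e (hD1 e he)
  have hDeq : ∀ e ∈ D, ∀ e' ∈ D, ∀ x, x ∈ spnInc σ gl e → x ∈ spnInc σ gl e' → e = e' := by
    intro e he e' he' x hx hx'
    by_contra hne
    exact Finset.disjoint_left.1 (hD2 e he e' he' hne) hx hx'
  obtain ⟨F, hF⟩ : ∃ F : (C × Fin 7) × V → Sq V C, ∀ e, F e =
    (lb (gl e.1.1) e.1.2, e.1.1, e.2) := ⟨_, fun _ => rfl⟩
  have hmem : ∀ g i z, (g, i, z) ∈ D.image F ↔ ∃ r : Fin 7, ((i, r), z) ∈ D ∧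
      g = lb (gl i) r := by
    intro g i z
    rw [Finset.mem_image]
    constructor
    · rintro ⟨⟨⟨i', r⟩, z'⟩, he, h2⟩
      rw [hF] at h2
      simp only [Prod.mk.injEq] at h2
      obtain ⟨h3, rfl, rfl⟩ := h2
      exact ⟨r, he, h3.symm⟩
    · rintro ⟨r, he, h2⟩
      refine ⟨((i, r), z), he, ?_⟩
      rw [hF, h2]
  refine ⟨D.image F, ⟨?_, ?_, ?_⟩, ?_⟩
  · intro g i z hgiz
    obtain ⟨r, he, rfl⟩ := (hmem g i z).1 hgiz
    have h1 := (okd _).1 (hDok _ he)
    exact ⟨h1.1, ⟨r, h1.2.1, rfl⟩, h1.2.2⟩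
  · intro g g' i z z' r h1 h2 h3 h4
    obtain ⟨r1, he1, -⟩ := (hmem _ _ _).1 h1
    obtain ⟨r2, he2, -⟩ := (hmem _ _ _).1 h2
    have k1 := mand_unique ((okd _).1 (hDok _ he1)).2.1 h3
    have k2 := mand_unique ((okd _).1 (hDok _ he2)).2.1 h4
    have k3 : r1 = r2 := Fin.ext (k1.trans k2.symm)
    subst k3
    have := hDeq _ he1 _ he2 (Sum.inr (i, r1)) ((hinr _ _).2 rfl) ((hinr _ _).2 rfl)
    exact (Prod.mk.inj this).2
  · intro g i z i' z' h1 h2 hne
    obtain ⟨r1, he1, hg1⟩ := (hmem _ _ _).1 h1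
    obtain ⟨r2, he2, hg2⟩ := (hmem _ _ _).1 h2
    rw [Finset.disjoint_left]
    intro y hy hy'
    simp only [Finset.mem_insert, Finset.mem_singleton] at hy hy'
    have := hDeq _ he1 _ he2 (Sum.inl (y, g)) ((hinl _ _ _).2 ⟨hy, hg1⟩)
      ((hinl _ _ _).2 ⟨hy', hg2⟩)
    simp only [Prod.mk.injEq] at this
    exact hne (by rw [this.1.1, this.2])
  · have hFcard : (D.image F).card = D.card := by
      refine Finset.card_image_of_injOn ?_
      intro e he e' he' hee
      rw [hF, hF] at hee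
      simp only [Prod.mk.injEq] at hee
      exact hdet e e' (hDok _ he) (hDok _ he') hee.2.1 hee.2.2
    have hunc := hD3 R (Finset.mem_singleton_self R)
    have hsub : R ⊆ (R \ D.biUnion (spnInc σ gl)) ∪ D.image (fun e => Sum.inr e.1) := by
      intro x hx
      rw [Finset.mem_union, Finset.mem_sdiff]
      by_cases hc : x ∈ D.biUnion (spnInc σ gl)
      · right
        rw [Finset.mem_biUnion] at hc
        obtain ⟨e, he, hxe⟩ := hc
        rw [hR, Finset.mem_image] at hx
        obtain ⟨a, -, rfl⟩ := hx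
        rw [Finset.mem_image]
        exact ⟨e, he, by rw [(hinr _ _).1 hxe]⟩
      · exact Or.inl ⟨hx, hc⟩
    have h1 : R.card ≤ (R \ D.biUnion (spnInc σ gl)).card + D.card :=
      (Finset.card_le_card hsub).trans ((Finset.card_union_le _ _).trans
        (Nat.add_le_add_left Finset.card_image_le _))
    have h2 : (R.card : ℝ) ≤ ((R \ D.biUnion (spnInc σ gl)).card : ℝ) + D.card := by
      exact_mod_cast h1
    rw [← hRcard, hFcard]
    linarith

/-- block S3: the spine nibble -/
theorem spine_exist (h : ℕ) (q₀ μ ε : ℝ) (hh : 3 ≤ h) (hq : 0 < q₀) (hμ : 0 < μ) (hε : 0 < ε) :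
    ∃ ε₁ : ℝ, 0 < ε₁ ∧ ∃ N₀ : ℕ,
    ∀ (V C : Type) [Fintype V] [DecidableEq V] [Fintype C] [DecidableEq C]
      (σ : C → Equiv.Perm V), HD σ → N₀ ≤ Fintype.card V → Fintype.card V ≤ 7 * Fintype.card C →
      ∀ (Lv : Finset C) (Uu : Finset V) (z0 u v : C → V) (cl : C → Fin 3) (δ : ℝ)
        (q κ ε₀ : ℝ) (Sg : C → V → Finset V) (ty : C → Fin 3) (lev : V → ℕ)
        (Es : Finset C) (m : C → ℕ) (Db : Fin 3 → Finset V) (dir : C → Bool) (gl : C → Fin 3),
      Types σ Lv Uu u v cl δ h q κ ε₀ Sg ty lev →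
      Dirs σ z0 Lv Uu u v Es m h q ε₀ ty lev Db dir gl → ε₀ ≤ ε₁ → q₀ ≤ q → q ≤ 1 →
      (∀ i ∈ Es, 1 ≤ m i ∧ m i ≤ 7) →
      (∑ i ∈ Es, (m i : ℝ)) ≤ (1 - μ) * q * Fintype.card V * ((h : ℝ) - 1) / h →
      ∃ Ls : Finset (Sq V C), Spl σ z0 Lv Uu u v Es m ty lev dir gl Ls ∧
        (∑ i ∈ Es, (m i : ℝ)) - Ls.card ≤ ε * Fintype.card V := by
  classical
  have hh' : (3 : ℝ) ≤ h := by exact_mod_cast hh
  obtain ⟨a₀, ha₀⟩ : ∃ a₀ : ℝ, a₀ = q₀ ^ 2 * ((h : ℝ) - 1) / h ^ 2 := ⟨_, rfl⟩
  have ha₀pos : 0 < a₀ := by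
    rw [ha₀]
    have : (0 : ℝ) < (h : ℝ) - 1 := by linarith
    positivity
  obtain ⟨θ, hθ⟩ : ∃ θ : ℝ, θ = min (μ / 4) (1 / 4) := ⟨_, rfl⟩
  have hθpos : 0 < θ := by rw [hθ]; exact lt_min (by linarith) (by norm_num)
  have hθμ : θ ≤ μ / 4 := by rw [hθ]; exact min_le_left _ _
  have hθ1 : θ ≤ 1 / 4 := by rw [hθ]; exact min_le_right _ _
  obtain ⟨B, hB⟩ := exists_nat_ge (56 / a₀ + 11)
  obtain ⟨N₀, hN₀⟩ := spn_core ε B hε
  obtain ⟨N₁, hN₁⟩ := exists_nat_ge (28 / θ + 14)
  refine ⟨θ * a₀ / 28, by positivity, max N₀ N₁, ?_⟩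
  intro V C _ _ _ _ σ hσ hN hN7 Lv Uu z0 u v cl δ q κ ε₀ Sg ty lev Es m Db dir gl hT hD hε₀ hq₀
    hq1 hm hsum
  have hNa : N₀ ≤ Fintype.card V := (le_max_left _ _).trans hN
  have hNb : N₁ ≤ Fintype.card V := (le_max_right _ _).trans hN
  obtain ⟨N, hNd⟩ : ∃ N : ℝ, N = (Fintype.card V : ℝ) := ⟨_, rfl⟩
  have hNr : 28 / θ + 14 ≤ N := by
    rw [hNd]
    exact hN₁.trans (by exact_mod_cast hNb)
  have hN28 : 28 ≤ θ * N := by
    have h1 : 28 / θ ≤ N := by linarith
    rw [div_le_iff₀ hθpos] at h1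
    linarith
  have hNpos : 0 < N := by
    have : 0 < 28 / θ := by positivity
    linarith
  obtain ⟨a, ha⟩ : ∃ a : ℝ, a = q ^ 2 * ((h : ℝ) - 1) / h ^ 2 := ⟨_, rfl⟩
  have ha₀a : a₀ ≤ a := by
    rw [ha₀, ha]
    have h1 : q₀ ^ 2 ≤ q ^ 2 := pow_le_pow_left₀ hq.le hq₀ 2
    have : (0 : ℝ) < (h : ℝ) - 1 := by linarith
    gcongr
  have hapos : 0 < a := lt_of_lt_of_le ha₀pos ha₀a
  obtain ⟨M, hM⟩ : ∃ M : ℝ, M = a * N / 2 * (1 - θ) := ⟨_, rfl⟩
  have hMpos : 0 < M := by
    rw [hM]
    have : 0 < 1 - θ := by linarith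
    positivity
  have hε₀N : ε₀ * N ≤ θ * a * N / 28 := by
    have h1 : ε₀ * N ≤ θ * a₀ / 28 * N := mul_le_mul_of_nonneg_right hε₀ hNpos.le
    have h2 : θ * a₀ / 28 * N ≤ θ * a * N / 28 := by
      have : θ * a₀ * N ≤ θ * a * N := by gcongr
      linarith
    linarith
  refine hN₀ V C σ hσ hNa Lv Uu z0 u v ty lev Es m dir gl h (1 / M) hm hD.gl0 hT.lev1
    (by positivity) ?_ ?_ ?_ ?_
  · -- 14 c₁ ≤ B / N
    rw [← hNd, mul_one_div, div_le_div_iff₀ hMpos hNpos]
    have h1 : 56 / a₀ ≤ B := by linarith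
    rw [div_le_iff₀ ha₀pos] at h1
    have h2 : (56 : ℝ) ≤ B * a := h1.trans (mul_le_mul_of_nonneg_left ha₀a (Nat.cast_nonneg _))
    have h3 : (B : ℝ) * M = (B * a) * (N / 2 * (1 - θ)) := by rw [hM]; ring
    rw [h3]
    have h4 : (14 : ℝ) * N ≤ 56 * (N / 2 * (1 - θ)) := by nlinarith
    refine h4.trans (mul_le_mul_of_nonneg_right h2 ?_)
    have : 0 < 1 - θ := by linarith
    positivity
  · have h1 : 0 < 56 / a₀ := by positivity
    have : (11 : ℝ) ≤ B := by linarith
    exact_mod_cast this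
  · -- many cells for every letter
    intro i hi r hr
    obtain ⟨x, hx⟩ := spn_mand_arc hσ z0 dir m i r hr
    obtain ⟨hm1, hm7⟩ := hm i hi
    obtain ⟨l, hl⟩ : ∃ l : ℕ, l = (Fintype.card V - 1) / 2 / m i := ⟨_, rfl⟩
    rw [← hl] at hx
    have hlN : l ≤ Fintype.card V := by
      rw [hl]
      exact (Nat.div_le_self _ _).trans ((Nat.div_le_self _ _).trans (Nat.sub_le _ _))
    have hml : Fintype.card V ≤ 2 * (m i * l) + 14 := by
      have h1 : (Fintype.card V - 1) / 2 < m i * l + m i := by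
        rw [hl]
        have := Nat.lt_mul_div_succ ((Fintype.card V - 1) / 2) (show 0 < m i by omega)
        rw [Nat.mul_add, Nat.mul_one] at this
        exact this
      omega
    have h2 := hT.t1 i x l (lb (gl i) r) (lb_ne (hD.gl0 i) r).1 hlN
    rw [← hNd, ← ha] at h2
    refine ⟨((range l).filter (fun t =>
      alw Lv Uu u v ty lev (lb (gl i) r) ((σ i ^ t) x) ((σ i ^ (t + 1)) x) ∨
      alw Lv Uu u v ty lev (lb (gl i) r) ((σ i ^ (t + 1)) x) ((σ i ^ t) x))).image
      (fun t => (σ i ^ t) x), ?_, ?_⟩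
    · rw [Finset.card_image_of_injOn]
      · have h3 : (m i : ℝ) ≤ 7 := by exact_mod_cast hm7
        have h4 : N ≤ 2 * (m i * l) + 14 := by rw [hNd]; exact_mod_cast hml
        have h5 : M ≤ m i * (a * l - ε₀ * N) := by
          have h6 : (m i : ℝ) * (ε₀ * N) ≤ 7 * (θ * a * N / 28) := by
            have h7 : (m i : ℝ) * (ε₀ * N) ≤ m i * (θ * a * N / 28) :=
              mul_le_mul_of_nonneg_left hε₀N (Nat.cast_nonneg _)
            have h8 : (m i : ℝ) * (θ * a * N / 28) ≤ 7 * (θ * a * N / 28) :=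
              mul_le_mul_of_nonneg_right h3 (by positivity)
            linarith
          have h7 : a * (N / 2 - 7) ≤ a * (m i * l) :=
            mul_le_mul_of_nonneg_left (by linarith) hapos.le
          have h8 : a * 28 ≤ a * (θ * N) := mul_le_mul_of_nonneg_left hN28 hapos.le
          rw [hM]
          nlinarith
        have h6 : M ≤ m i * (((range l).filter (fun t =>
            alw Lv Uu u v ty lev (lb (gl i) r) ((σ i ^ t) x) ((σ i ^ (t + 1)) x) ∨
            alw Lv Uu u v ty lev (lb (gl i) r) ((σ i ^ (t + 1)) x) ((σ i ^ t) x))).card : ℝ) :=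
          h5.trans (mul_le_mul_of_nonneg_left h2 (Nat.cast_nonneg _))
        rw [mul_assoc, one_div, inv_mul_eq_div, le_div_iff₀ hMpos, one_mul]
        exact h6
      · intro s hs t ht hst
        rw [Finset.mem_coe, Finset.mem_filter, Finset.mem_range] at hs ht
        exact cyc_inj hσ i x (by omega) (by omega) hst
    · intro z hz
      rw [Finset.mem_image] at hz
      obtain ⟨t, ht, rfl⟩ := hz
      rw [Finset.mem_filter, Finset.mem_range] at ht
      refine ⟨hx t ht.1, ?_⟩
      have e1 : (σ i ^ (t + 1)) x = σ i ((σ i ^ t) x) := by rw [pow_succ']; rfl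
      rw [← e1]
      exact ht.2
  · -- loads
    intro y j g hj1 hj2 A hA
    have h1 := hD.u1 y j g hj1 hj2
    have h2 : (∑ p ∈ A, (m p.1 : ℝ)) ≤ (∑ p ∈ (univ : Finset (C × Bool)).filter (fun p =>
        p.1 ∈ Es ∧ (∃ r, mand σ z0 dir m p.1 (es σ p y) r ∧ lb (gl p.1) r = g) ∧
        spin Lv Uu u v ty (nb σ p y) ∧ lev (nb σ p y) = j), (m p.1 : ℝ)) := by
      refine Finset.sum_le_sum_of_subset_of_nonneg ?_ (fun _ _ _ => Nat.cast_nonneg _)
      intro p hp
      rw [Finset.mem_filter]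
      exact ⟨Finset.mem_univ _, hA p hp⟩
    have h3 := h2.trans h1
    rw [one_div, inv_mul_eq_div, div_le_one hMpos]
    refine h3.trans ?_
    rw [← hNd] at hsum ⊢
    have hqpos : 0 < q := lt_of_lt_of_le hq hq₀
    have h4 : q * (∑ i ∈ Es, (m i : ℝ)) / (2 * h) ≤ (1 - μ) * (a * N / 2) := by
      have h5 : q * (∑ i ∈ Es, (m i : ℝ)) ≤ q * ((1 - μ) * q * N * ((h : ℝ) - 1) / h) :=
        mul_le_mul_of_nonneg_left hsum hqpos.le
      have h6 : q * ((1 - μ) * q * N * ((h : ℝ) - 1) / h) / (2 * h) = (1 - μ) * (a * N / 2) := by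
        rw [ha]; field_simp
      rw [← h6]
      exact div_le_div_of_nonneg_right h5 (by positivity)
    have h5 : θ * a * N / 28 ≤ θ * (a * N / 2) := by
      have : 0 < θ * a * N := by positivity
      linarith
    have h6 : (μ - 2 * θ) * (a * N / 2) ≥ 0 := by
      have : 0 ≤ μ - 2 * θ := by linarith
      positivity
    rw [hM]
    nlinarith

end Pool.Agent.KZ
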