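import Pool.Agent.Lib_helper15.KZF.AsmB2
import Pool.Agent.Lib_helper15.KZF.DefsA
import Pool.Agent.Lib_helper15.KZF.DefsN
import Pool.Agent.Lib_helper15.KZF.KILL
import Pool.Agent.Lib_helper15.KZF.LEFT
import Pool.Agent.Lib_helper15.KZF.MP2
import Pool.Agent.Lib_helper15.KZF.PAR
import Pool.Agent.Lib_helper15.KZF.SML
import Pool.Agent.Lib_helper15.KZF.SPN
import Pool.Agent.Lib_helper15.KZF.STAGE1
import Pool.Agent.Lib_helper15.KZF.T_DB
import Pool.Agent.Lib_helper15.KZF.T_TF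

/-!
# Regime B: existence of a plan, second part
-/

set_option autoImplicit false

namespace Pool.Agent.KZ

open Finset

open Classical in
theorem planB_exist (e : ℝ) (he0 : 0 < e) (he1 : e ≤ 1 / 10 ^ 8) : ∃ N₀ : ℕ,
    ∀ (V C : Type) [Fintype V] [DecidableEq V] [Fintype C] [DecidableEq C]
      (σ : C → Equiv.Perm V), HD σ → N₀ ≤ Fintype.card V →
      (2 + e) * Fintype.card C ≤ (Fintype.card V : ℝ) → Fintype.card V ≤ 7 * Fintype.card C →
      ∃ (D : OddD V C) (A : Finset (Sq V C)) (u v v' w : C → V) (ρ : V → ℕ),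
        Plan σ D A u v v' w ρ := by
  obtain ⟨δ, hδ⟩ : ∃ δ : ℝ, δ = e / 100 := ⟨_, rfl⟩
  obtain ⟨μ, hμ⟩ : ∃ μ : ℝ, μ = e / 1000 := ⟨_, rfl⟩
  obtain ⟨h, hh⟩ : ∃ h : ℕ, h = 2 * ⌈1000 / e⌉₊ + 1 := ⟨_, rfl⟩
  have hδ0 : 0 < δ := by rw [hδ]; positivity
  have hμ0 : 0 < μ := by rw [hμ]; positivity
  have hceil : 1 ≤ ⌈1000 / e⌉₊ := Nat.one_le_iff_ne_zero.2 (by
    have : 0 < 1000 / e := by positivity
    exact (Nat.ceil_pos.2 this).ne')
  have hh3 : 3 ≤ h := by omega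
  have hh1 : h % 2 = 1 := by omega
  have hhr : 1000 / e ≤ (h : ℝ) := by
    refine (Nat.le_ceil _).trans ?_
    exact_mod_cast (show ⌈1000 / e⌉₊ ≤ h by omega)
  obtain ⟨εl, hεl, Nl, Hl⟩ := left_exist δ hδ0
  obtain ⟨εL, hεL⟩ : ∃ εL : ℝ, εL = min εl (δ ^ 2 / 1000) := ⟨_, rfl⟩
  have hεL0 : 0 < εL := by rw [hεL]; exact lt_min hεl (by positivity)
  obtain ⟨εs, hεs, Ns, Hs⟩ := spine_exist h (1 / 4) μ εL hh3 (by norm_num) hμ0 hεL0
  obtain ⟨f, hf⟩ : ∃ f : ℝ, f = min (min εl εs) (min (δ ^ 2) (1 / 10 ^ 6)) / 1000 := ⟨_, rfl⟩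
  have hf0 : 0 < f := by
    rw [hf]
    exact div_pos (lt_min (lt_min hεl hεs) (lt_min (by positivity) (by norm_num))) (by norm_num)
  have hfl : 1000 * f ≤ εl := by
    rw [hf]
    have : min (min εl εs) (min (δ ^ 2) (1 / 10 ^ 6)) ≤ εl :=
      (min_le_left _ _).trans (min_le_left _ _)
    linarith
  have hfs : 1000 * f ≤ εs := by
    rw [hf]
    have : min (min εl εs) (min (δ ^ 2) (1 / 10 ^ 6)) ≤ εs :=
      (min_le_left _ _).trans (min_le_right _ _)
    linarith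
  have hfδ : 1000 * f ≤ δ ^ 2 := by
    rw [hf]
    have : min (min εl εs) (min (δ ^ 2) (1 / 10 ^ 6)) ≤ δ ^ 2 :=
      (min_le_right _ _).trans (min_le_left _ _)
    linarith
  have hf6 : 1000 * f ≤ 1 / 10 ^ 6 := by
    rw [hf]
    have : min (min εl εs) (min (δ ^ 2) (1 / 10 ^ 6)) ≤ 1 / 10 ^ 6 :=
      (min_le_right _ _).trans (min_le_right _ _)
    linarith
  obtain ⟨N1, H1⟩ := stage1 (e / 3) f (by positivity) hf0
  obtain ⟨Nt, Ht⟩ := types_exist δ f h hδ0 (by rw [hδ]; linarith) hf0 hh3 hh1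
  obtain ⟨Nd, Hd⟩ := dirs_exist f hf0
  refine ⟨Nl + Ns + N1 + Nt + Nd + ⌈10 ^ 12 / e⌉₊ + ⌈32 / f⌉₊ + 10 ^ 9, ?_⟩
  intro V C _ _ _ _ σ hσ hN hN2 h7
  have hbig : 10 ^ 12 / e ≤ (Fintype.card V : ℝ) := by
    refine (Nat.le_ceil _).trans ?_
    exact_mod_cast (show ⌈10 ^ 12 / e⌉₊ ≤ Fintype.card V by omega)
  have hbf : 32 / f ≤ (Fintype.card V : ℝ) := by
    refine (Nat.le_ceil _).trans ?_
    exact_mod_cast (show ⌈32 / f⌉₊ ≤ Fintype.card V by omega)
  have hNpos : (0 : ℝ) < Fintype.card V := by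
    have : 0 < 10 ^ 12 / e := by positivity
    linarith
  have hVne : Nonempty V := by
    rw [← Fintype.card_pos_iff]
    exact_mod_cast hNpos
  have h7r : (Fintype.card V : ℝ) ≤ 7 * Fintype.card C := by exact_mod_cast h7
  obtain ⟨κ, hκ⟩ : ∃ κ : ℝ, κ = 2 * (Fintype.card C : ℝ) / Fintype.card V := ⟨_, rfl⟩
  obtain ⟨q, hq⟩ : ∃ q : ℝ, q = κ * (1 - δ) / 2 + (1 - κ) := ⟨_, rfl⟩
  obtain ⟨L, hL⟩ : ∃ L : ℕ, L = ⌊(1 - μ) * q * Fintype.card V * ((h : ℝ) - 1) / h⌋₊ := ⟨_, rfl⟩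
  have hhr0 : (0 : ℝ) < h := by
    have : 0 < 1000 / e := by positivity
    linarith
  have hh1r : (1 : ℝ) ≤ h := by exact_mod_cast (show 1 ≤ h by omega)
  have hμ1 : 0 ≤ 1 - μ := by rw [hμ]; linarith
  -- κ ≤ 1 before the structure
  have hκ1' : κ ≤ 1 := by
    rw [hκ, div_le_one hNpos]
    have : (0 : ℝ) ≤ Fintype.card C := Nat.cast_nonneg _
    nlinarith
  have hq0' : 0 ≤ q := by
    have hκ0 : 0 ≤ κ := by rw [hκ]; positivity
    rw [hq, hδ]
    nlinarith
  have hcap0 : 0 ≤ (1 - μ) * q * Fintype.card V * ((h : ℝ) - 1) / h :=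
    div_nonneg (mul_nonneg (mul_nonneg (mul_nonneg hμ1 hq0') hNpos.le) (by linarith)) hhr0.le
  have HN : NumB e δ μ h κ q (Fintype.card V) (Fintype.card C) L :=
    { e0 := he0
      e1 := he1
      δe := hδ
      μe := hμ
      h1 := hhr
      N1 := hbig
      h2 := hN2
      h7 := h7r
      κe := hκ
      qe := hq
      L0 := by rw [hL]; exact Nat.floor_le hcap0
      L1 := by rw [hL]; exact Nat.lt_floor_add_one _ }
  have hn0 := HN.n0
  have hn8 : 8 ≤ Fintype.card C := by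
    have := HN.N9
    have : (8 : ℝ) ≤ Fintype.card C := by linarith
    exact_mod_cast this
  have hLn : Fintype.card C ≤ L + 1 := by
    have := HN.Ln
    exact_mod_cast this.le
  have hL6 : L ≤ 6 * Fintype.card C := by
    have h1 := HN.L6 ⟨div_nonneg (mul_nonneg hμ1 (by linarith)) hhr0.le, by
      rw [div_le_one hhr0]
      nlinarith⟩
    exact_mod_cast h1
  obtain ⟨is⟩ : Nonempty C := Fintype.card_pos_iff.1 (by omega)
  obtain ⟨cl, mm, hcl0, hmm7, hmm1, hsum⟩ := msel is L hLn hL6 hn8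
  have hκ1 := HN.k1
  have hκ27 := HN.k27
  -- stage 1
  obtain ⟨z0, z1, u, v, v', w, b, ρ, hOut, hReg⟩ := H1 V C σ hσ (by omega) h7 ∅ cl
    (by rw [Finset.card_empty]; simp only [Nat.cast_zero]; positivity)
    (by rw [Finset.card_empty]; simp only [Nat.cast_zero, sub_zero]; exact HN.st1)
  have hκ' : 2 * ((Fintype.card C : ℝ) - (∅ : Finset C).card) / Fintype.card V = κ := by
    rw [hκ]; simp
  rw [hκ'] at hReg
  have hReg1 : Reg σ (cvd ∅ u v) κ f cl := by
    refine reg_mono ?_ hReg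
    simp
  -- types
  obtain ⟨ty, lev, hT0⟩ := Ht V C σ hσ (by omega) h7 ∅ cl z0 z1 u v v' w b ρ κ f true
    (fun _ _ => ∅) hOut hκ'.symm hf0.le hReg1 (Or.inl fun _ _ => rfl)
  have he0z : ∀ i, ed σ i (z0 i) = s(u i, v i) := fun i => hOut.e0 i (by simp)
  have hpair : ∀ i ∈ univ \ (∅ : Finset C), ∀ j ∈ univ \ (∅ : Finset C), i ≠ j →
      Disjoint ({u i, v i} : Finset V) {u j, v j} := fun i _ j _ hij =>
    hOut.dis0 i (by simp) j (by simp) hij
  have hq' : (κ * (1 - δ) / 2 + if (true : Bool) = true then 1 - κ else 0) = q := by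
    rw [hq]; simp
  have hUu' : (if (true : Bool) = true then univ \ cvd ∅ u v else (∅ : Finset V)) =
      univ \ cvd ∅ u v := by simp
  rw [hq', hUu'] at hT0
  -- parts
  obtain ⟨W0, hW0⟩ : ∃ W0 : Finset V,
      W0 = univ.filter (fun x => leaf (univ \ (∅ : Finset C)) u v ty x) := ⟨_, rfl⟩
  have hmemW : ∀ x, x ∈ W0 ↔ leaf (univ \ (∅ : Finset C)) u v ty x := by
    intro x; rw [hW0]; simp
  have hn9 : 10 ^ 9 ≤ Fintype.card V := by omega
  obtain ⟨s, d, hs0, hs3, hpa, hpb, hrig⟩ := parts_exist σ hσ W0 3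
    ⌊(Fintype.card V : ℝ) / 10 ^ 5⌋₊ hn9 h7 (Nat.floor_le (by positivity)) (Or.inl rfl)
    (by
      have h1 : W0.card ≤ Fintype.card C := by
        rw [hW0]
        exact (leaf_card _ u v ty).trans (Finset.card_le_univ _)
      exact_mod_cast h1)
    (by
      intro x
      have h1 := hT0.t3' x
      have h2 : (univ : Finset (C × Bool)).filter (fun p => nb σ p x ∈ W0) =
          (univ : Finset (C × Bool)).filter
            (fun p => leaf (univ \ (∅ : Finset C)) u v ty (nb σ p x)) := by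
        ext p
        rw [Finset.mem_filter, Finset.mem_filter, hmemW]
      rw [h2]
      refine le_trans ?_ h1
      exact HN.hW (by linarith))
  -- bridges
  obtain ⟨a, ha, hab⟩ := choose_a hs3 (fun x b => (Fintype.card V : ℝ) / 300 ≤
    ((univ : Finset (C × Bool)).filter (fun p => nb σ p x ∈ W0 ∧ d (nb σ p x) = some b)).card)
    hpa hpb
  obtain ⟨x1, x2, hdis, htree⟩ := bridges (σ is) (hσ.cyc is) (by omega) s hs3 a hab
  obtain ⟨Sp, hSp⟩ : ∃ Sp : Finset V, Sp = {x1, σ is x1, x2, σ is x2} := ⟨_, rfl⟩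
  have hSpc : Sp.card ≤ 4 := by rw [hSp]; exact Finset.card_le_four
  obtain ⟨Lv, hLv⟩ : ∃ Lv : Finset C, Lv = (univ \ (∅ : Finset C)).filter
      (fun i => u i ∉ Sp ∧ v i ∉ Sp) := ⟨_, rfl⟩
  have hLvm : ∀ j, j ∈ Lv ↔ u j ∉ Sp ∧ v j ∉ Sp := by
    intro j; rw [hLv]; simp
  obtain ⟨Uu, hUu⟩ : ∃ Uu : Finset V, Uu = (univ \ cvd ∅ u v) \ Sp := ⟨_, rfl⟩
  have hcvd : ∀ x, x ∈ cvd ∅ u v ↔ ∃ j, x = u j ∨ x = v j := by
    intro x; simp [cvd]
  have hUum : ∀ x, x ∈ Uu ↔ x ∉ Sp ∧ ∀ j, x ≠ u j ∧ x ≠ v j := by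
    intro x
    rw [hUu, Finset.mem_sdiff, Finset.mem_sdiff, hcvd]
    push Not
    constructor
    · rintro ⟨⟨-, h1⟩, h2⟩; exact ⟨h2, h1⟩
    · rintro ⟨h1, h2⟩; exact ⟨⟨Finset.mem_univ _, h2⟩, h1⟩
  have hT1 : Types σ Lv Uu u v cl δ h q κ (22 * f) (fun _ _ => ∅) ty lev := by
    have h1 := types_kill hσ Sp hpair hT0
    rw [← hLv, ← hUu] at h1
    refine types_mono ?_ h1
    have h4 : 8 * (Sp.card : ℝ) / Fintype.card V ≤ f := by
      rw [div_le_iff₀ hNpos]
      rw [div_le_iff₀ hf0] at hbf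
      have : (Sp.card : ℝ) ≤ 4 := by exact_mod_cast hSpc
      linarith
    linarith
  have hLvd : ∀ i ∈ Lv, ∀ j ∈ Lv, i ≠ j → Disjoint ({u i, v i} : Finset V) {u j, v j} :=
    fun i _ j _ hij => hOut.dis0 i (by simp) j (by simp) hij
  -- directions
  obtain ⟨Db, hDb⟩ : ∃ Db : Fin 3 → Finset V, ∀ k, Db k =
      W0.filter (fun x => ∃ b : Fin s, b.val = k.val ∧ d x = some b) := ⟨_, fun _ => rfl⟩
  have hTm : ∀ i, cl i ∈ ({1, 2} : Finset (Fin 3)) ↔ i ≠ is := by
    intro i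
    rw [Ne, ← hcl0 i]
    generalize cl i = k
    fin_cases k <;> simp
  obtain ⟨dir, gl, hD0⟩ := Hd V C σ hσ (by omega) h7 Lv Uu z0 u v cl δ h q κ (22 * f)
    (fun _ _ => ∅) ty lev mm {1, 2} Db hT1 (by linarith)
    (by linarith) hδ0 (by rw [hδ]; linarith) (by linarith) (by omega) hq0' hmm7
    (by
      intro k hk
      refine hmm1 k ?_
      rintro rfl
      simp at hk)
    (by
      have h1 : (univ.filter (fun i => cl i ∉ ({1, 2} : Finset (Fin 3)))) ⊆ {is} := by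
        intro i hi
        rw [Finset.mem_filter, hTm, not_not] at hi
        rw [Finset.mem_singleton]
        exact hi.2
      have h2 : ((univ.filter (fun i => cl i ∉ ({1, 2} : Finset (Fin 3)))).card : ℝ) ≤ 1 := by
        exact_mod_cast (Finset.card_le_card h1).trans (by simp)
      have h3 := HN.N9
      linarith)
    (by
      intro i _ j _ hij
      rw [ed_pair (he0z i), ed_pair (he0z j)]
      exact hOut.dis0 i (by simp) j (by simp) hij)
  obtain ⟨Es, hEs⟩ : ∃ Es : Finset C,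
      Es = univ.filter (fun i => cl i ∈ ({1, 2} : Finset (Fin 3))) := ⟨_, rfl⟩
  rw [← hEs] at hD0
  have hesm : ∀ i, i ∈ Es ↔ i ≠ is := by
    intro i; rw [hEs, Finset.mem_filter, hTm]; simp
  have hEs' : Es = univ.filter (fun i => i ≠ is) := by
    ext i; rw [hesm]; simp
  have hm17 : ∀ i ∈ Es, 1 ≤ mm (cl i) ∧ mm (cl i) ≤ 7 := by
    intro i hi
    refine ⟨hmm1 _ ?_, hmm7 _⟩
    intro h1
    exact (hesm i).1 hi ((hcl0 i).1 h1)
  have hsumL : ∑ i ∈ Es, mm (cl i) = L := by rw [hEs']; exact hsum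
  have hsumr : (∑ i ∈ Es, (mm (cl i) : ℝ)) = L := by
    rw [← hsumL]; push_cast; rfl
  -- spine letters
  have hT2 : Types σ Lv Uu u v cl δ h q κ (10 * (22 * f) + f) (fun _ _ => ∅) ty lev :=
    types_mono (by linarith) hT1
  obtain ⟨Ls, hSpl, hLs⟩ := Hs V C σ hσ (by omega) h7 Lv Uu z0 u v cl δ q κ (10 * (22 * f) + f)
    (fun _ _ => ∅) ty lev Es (fun i => mm (cl i)) Db dir gl hT2 hD0 (by linarith)
    HN.q14 HN.q1 hm17 (by rw [hsumr]; exact HN.L0)
  obtain ⟨Lm, Ru, hLett, hRu⟩ := Hl V C σ hσ (by omega) Lv Uu z0 u v cl h q κ (22 * f) εL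
    (fun _ _ => ∅) ty lev Es (fun i => mm (cl i)) dir gl Ls hT1 (by linarith)
    (by rw [hεL]; exact min_le_left _ _) (by linarith) hLvd
    (fun i _ => he0z i) (fun i _ => he0z i) hSpl hm17 hD0.gl0 hLs
  -- fresh edge
  have hfresh : ∃ z, freshE σ is Lv u v ty Ru z := by
    refine fresh_exist hσ hT1 is Ru he0z ?_
    have h1 : εL ≤ δ ^ 2 / 1000 := by rw [hεL]; exact min_le_right _ _
    have h2 : (4 : ℝ) / 49 ≤ κ ^ 2 := by nlinarith
    have h3 : 2 * εL * (Fintype.card V : ℝ) ≤ 2 * (δ ^ 2 / 1000) * Fintype.card V :=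
      mul_le_mul_of_nonneg_right (by linarith) hNpos.le
    have h4 : 22 * f * (Fintype.card V : ℝ) ≤ 22 * (δ ^ 2 / 1000) * Fintype.card V :=
      mul_le_mul_of_nonneg_right (by linarith) hNpos.le
    have h5 : 0 < δ ^ 2 * (Fintype.card V : ℝ) := by positivity
    have h6 : 4 / 49 * (δ ^ 2 * (Fintype.card V : ℝ)) ≤ κ ^ 2 * (δ ^ 2 * Fintype.card V) :=
      mul_le_mul_of_nonneg_right h2 h5.le
    nlinarith
  -- assembly
  have hDat : DatB σ is x1 x2 Es Lv Uu z0 z1 u v v' w b ρ ty lev h (fun i => mm (cl i)) dir gl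
      Ls Lm Ru := by
    refine
      { dat :=
          { hd := hσ
            out := hOut
            esO := by intro i _; simp
            lvO := by intro i _; simp
            uuE := ?_
            lev1 := hT1.lev1
            m1 := ?_
            gl0 := hD0.gl0
            spl := hSpl
            lt := hLett }
        es := hesm
        dis := hdis
        lv := ?_
        uu := ?_
        fresh := hfresh }
    · intro i _
      rw [hUum, hUum]
      exact ⟨fun h => (h.2 i).1 rfl, fun h => (h.2 i).2 rfl⟩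
    · intro i hi
      refine ⟨(hm17 i hi).1, ?_⟩
      have h1 := (hm17 i hi).2
      omega
    · intro j; rw [hLvm, hSp]
    · intro x; rw [hUum, hSp]
  obtain ⟨K, hK⟩ : ∃ K : ℕ, K = Fintype.card V - Fintype.card C - L := ⟨_, rfl⟩
  have hKr : (K : ℝ) ≤ e * Fintype.card V / 50 := by
    have h1 := HN.K1
    have h2 : (K : ℝ) ≤ max ((Fintype.card V : ℝ) - Fintype.card C - L) 0 := by
      rcases le_or_gt (Fintype.card C + L) (Fintype.card V) with h3 | h3
      · refine le_trans (le_of_eq ?_) (le_max_left _ _)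
        rw [hK, Nat.cast_sub (by omega), Nat.cast_sub (by omega)]
      · refine le_trans (le_of_eq ?_) (le_max_right _ _)
        have : K = 0 := by omega
        rw [this]; simp
    refine h2.trans (max_le h1 (by positivity))
  have hK10 : (K : ℝ) ≤ 1 / 10 ^ 9 * Fintype.card V := by
    refine hKr.trans ?_
    nlinarith
  have hN9 := HN.N9
  have hWW : (W0 \ univ.filter (fun x => leaf Lv u v ty x)).card ≤ 4 := by
    -- an element of `W0` which is not a live leaf lies in `Sp` or its mate does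
    have h1 : ∀ x ∈ W0 \ univ.filter (fun x => leaf Lv u v ty x), ∃ y ∈ Sp, ∃ i,
        (x = u i ∧ ty i = 1 ∨ x = v i ∧ ty i = 2) ∧ (y = u i ∨ y = v i) := by
      intro x hx
      rw [Finset.mem_sdiff, hmemW, Finset.mem_filter] at hx
      obtain ⟨⟨i, -, hi⟩, h2⟩ := hx
      by_cases h3 : i ∈ Lv
      · exact absurd ⟨Finset.mem_univ _, i, h3, hi⟩ h2
      · rw [hLvm, not_and_or, not_not, not_not] at h3
        have hi' : x = u i ∧ ty i = 1 ∨ x = v i ∧ ty i = 2 := by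
          rcases hi with ⟨h4, h5⟩ | ⟨h4, h5⟩
          · exact Or.inl ⟨h5, h4⟩
          · exact Or.inr ⟨h5, h4⟩
        rcases h3 with h3 | h3
        · exact ⟨_, h3, i, hi', Or.inl rfl⟩
        · exact ⟨_, h3, i, hi', Or.inr rfl⟩
    choose! g hg1 hg2 using h1
    refine le_trans (Finset.card_le_card_of_injOn g (fun x hx => hg1 x hx) ?_) hSpc
    intro x hx x' hx' hxx
    obtain ⟨i, hi, hyi⟩ := hg2 x hx
    obtain ⟨i', hi', hyi'⟩ := hg2 x' hx'
    rw [← hxx] at hyi'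
    have hii : i = i' := by
      by_contra hne
      have h3 := hOut.dis0 i (by simp) i' (by simp) hne
      rw [Finset.disjoint_left] at h3
      refine h3 (a := g x) ?_ ?_
      · simp only [Finset.mem_insert, Finset.mem_singleton]; exact hyi
      · simp only [Finset.mem_insert, Finset.mem_singleton]; exact hyi'
    subst hii
    rcases hi with ⟨h1, h2⟩ | ⟨h1, h2⟩ <;> rcases hi' with ⟨h3, h4⟩ | ⟨h3, h4⟩
    · rw [h1, h3]
    · rw [h2] at h4; exact absurd h4 (by decide)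
    · rw [h2] at h4; exact absurd h4 (by decide)
    · rw [h1, h3]
  refine planB_core hDat hD0 d W0 ?_ hWW a ?_ ha htree K ?_ ?_ _ ?_ hrig
  · intro x hx
    rw [hmemW]
    obtain ⟨i, -, hi⟩ := hx
    exact ⟨i, by simp, hi⟩
  · intro b'
    refine ⟨⟨b'.val, by have := b'.isLt; omega⟩, ?_⟩
    rw [hDb]
    ext x
    rw [Finset.mem_filter, Finset.mem_filter]
    constructor
    · rintro ⟨h1, b'', h2, h3⟩
      refine ⟨h1, ?_⟩
      rw [h3]
      congr 1
      exact Fin.ext h2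
    · rintro ⟨h1, h2⟩
      exact ⟨h1, b', rfl, h2⟩
  · rw [hsumL, hK]; omega
  · nlinarith
  · rw [Nat.le_floor_iff (by positivity)]
    push_cast
    nlinarith

end Pool.Agent.KZ
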