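import Pool.Agent.Lib_helper15.KZF.DefsA
import Pool.Agent.Lib_helper15.KZF.DefsN

set_option autoImplicit false

namespace Pool.Agent.KZ

open Finset

section General

variable {U : Type} [Fintype U] [DecidableEq U]

/-- block CS: a Hamiltonian cycle as a permutation with one cycle -/
theorem perm_of_ham (G : SimpleGraph U) (a : U) (c : G.Walk a a) (hc : c.IsHamiltonianCycle) :
    ∃ σ : Equiv.Perm U, (∀ x y, ∃ k : ℕ, (σ ^ k) x = y) ∧
      ∀ e : Sym2 U, e ∈ c.edges ↔ ∃ x, e = s(x, σ x) := by
  have hnd : c.support.tail.Nodup := hc.isCycle.support_nodup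
  set n := c.length with hn
  have h3 : 3 ≤ n := hc.isCycle.three_le_length
  have hlen : c.support.tail.length = n := by
    rw [List.length_tail, SimpleGraph.Walk.length_support]; omega
  have hget : ∀ (i : ℕ) (hi : i < c.support.tail.length),
      c.support.tail[i] = c.getVert (i + 1) := by
    intro i hi
    rw [List.getElem_tail]
    exact c.support_getElem_eq_getVert _
  have hend : c.getVert n = a := c.getVert_length
  have hzero : c.getVert 0 = a := c.getVert_zero
  have hσ : ∀ j, j < n → c.support.tail.formPerm (c.getVert j) = c.getVert (j + 1) := by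
    intro j hj
    rcases Nat.eq_zero_or_pos j with h0 | h0
    · subst h0
      rw [hzero.trans hend.symm]
      have h1 : n - 1 < c.support.tail.length := by omega
      have h2 := List.formPerm_apply_getElem c.support.tail hnd (n - 1) h1
      have h4 : n % c.support.tail.length = 0 := by
        rw [hlen, Nat.mod_self]
      rw [hget, hget, Nat.sub_add_cancel (by omega : 1 ≤ n), h4] at h2
      exact h2
    · have h1 : j - 1 < c.support.tail.length := by omega
      have h2 := List.formPerm_apply_getElem c.support.tail hnd (j - 1) h1
      have h4 : j % c.support.tail.length = j := by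
        rw [hlen, Nat.mod_eq_of_lt hj]
      rw [hget, hget, Nat.sub_add_cancel h0, h4] at h2
      exact h2
  have hall : ∀ x : U, ∃ j, j < n ∧ c.getVert j = x := by
    intro x
    have hx := hc.mem_support x
    rw [SimpleGraph.Walk.mem_support_iff_exists_getVert] at hx
    obtain ⟨j, hj, hjn⟩ := hx
    rcases Nat.lt_or_ge j n with h | h
    · exact ⟨j, h, hj⟩
    · have : j = n := by omega
      exact ⟨0, by omega, by rw [hzero, ← hend, ← this, hj]⟩
  have hpow : ∀ k, k ≤ n → (c.support.tail.formPerm ^ k) a = c.getVert k := by
    intro k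
    induction k with
    | zero => intro _; rw [hzero]; rfl
    | succ k ih =>
      intro hk
      rw [pow_succ', Equiv.Perm.mul_apply, ih (by omega), hσ k (by omega)]
  refine ⟨c.support.tail.formPerm, ?_, ?_⟩
  · intro x y
    obtain ⟨i, hi, rfl⟩ := hall x
    obtain ⟨j, hj, rfl⟩ := hall y
    refine ⟨j + (n - i), ?_⟩
    rw [← hpow i hi.le, ← Equiv.Perm.mul_apply, ← pow_add]
    have : j + (n - i) + i = j + n := by omega
    rw [this, pow_add, Equiv.Perm.mul_apply, hpow n le_rfl, hend, hpow j hj.le]
  · intro e
    constructor
    · intro he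
      obtain ⟨i, hi, rfl⟩ := List.getElem_of_mem he
      have hi' : i < n := by
        rw [SimpleGraph.Walk.length_edges] at hi; exact hi
      refine ⟨c.getVert i, ?_⟩
      rw [hσ i hi', SimpleGraph.Walk.getElem_edges]
    · rintro ⟨x, rfl⟩
      obtain ⟨j, hj, rfl⟩ := hall x
      rw [hσ j hj]
      have hj' : j < c.edges.length := by rw [SimpleGraph.Walk.length_edges]; exact hj
      rw [← SimpleGraph.Walk.getElem_edges hj']
      exact List.getElem_mem hj'

end General

end Pool.Agent.KZ
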