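import Pool.Agent.Lib_helper15.KZF.CORE
import Pool.Agent.Lib_helper15.KZF.CS
import Pool.Agent.Lib_helper15.KZF.DefsA
import Pool.Agent.Lib_helper15.KZF.DefsN

/-!
# Block FIN: from plans to the final statement
-/

set_option autoImplicit false

namespace Pool.Agent.KZ

open Finset

theorem fin_orbit {W : Type} [Fintype W] [DecidableEq W] (τ : Equiv.Perm W)
    (hτ : ∀ x y, ∃ k : ℕ, (τ ^ k) x = y) (w0 : W) :
    (τ ^ Fintype.card W) w0 = w0 ∧ ∀ y, ∃ k : ℕ, k < Fintype.card W ∧ (τ ^ k) w0 = y := by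
  have hon : τ.IsCycleOn (((Finset.univ : Finset W) : Set W)) := by
    refine ⟨?_, ?_⟩
    · rw [Finset.coe_univ]; exact Set.bijOn_univ.2 τ.bijective
    · intro x _ y _
      obtain ⟨k, hk⟩ := hτ x y
      exact ⟨k, by rw [zpow_natCast]; exact hk⟩
  constructor
  · have := hon.pow_card_apply (Finset.mem_univ w0)
    rwa [Finset.card_univ] at this
  · intro y
    obtain ⟨n, hn, h⟩ := hon.exists_pow_eq (Finset.mem_univ w0) (Finset.mem_univ y)
    rw [Finset.card_univ] at hn
    exact ⟨n, hn, h⟩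

/-- numbering of the vertices of a cycle -/
theorem fin_number {W : Type} [Fintype W] [DecidableEq W] (τ : Equiv.Perm W)
    (hτ : ∀ x y, ∃ k : ℕ, (τ ^ k) x = y) (N : ℕ) [NeZero N] (hN : Fintype.card W = N) :
    ∃ φ : Fin N ≃ W, ∀ j : Fin N, φ (j + 1) = τ (φ j) := by
  have hne : Nonempty W := by
    rw [← Fintype.card_pos_iff, hN]; exact Nat.pos_of_ne_zero (NeZero.ne N)
  obtain ⟨w0⟩ := hne
  obtain ⟨h1, h2⟩ := fin_orbit τ hτ w0
  rw [hN] at h1 h2
  let f : Fin N → W := fun j => (τ ^ j.val) w0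
  have hf : Function.Bijective f := by
    rw [Fintype.bijective_iff_surjective_and_card]
    refine ⟨?_, by rw [Fintype.card_fin, hN]⟩
    intro y
    obtain ⟨k, hk, hy⟩ := h2 y
    exact ⟨⟨k, hk⟩, hy⟩
  refine ⟨Equiv.ofBijective f hf, ?_⟩
  intro j
  change (τ ^ (j + 1).val) w0 = τ ((τ ^ j.val) w0)
  rw [← Equiv.Perm.mul_apply, ← pow_succ']
  rcases Nat.lt_or_ge (j.val + 1) N with h | h
  · have : (j + 1).val = j.val + 1 := by
      rw [Fin.val_add]
      rcases Nat.lt_or_ge 1 N with h' | h'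
      · rw [Fin.val_one', Nat.mod_eq_of_lt h', Nat.mod_eq_of_lt h]
      · omega
    rw [this]
  · have hj : j.val + 1 = N := le_antisymm j.isLt h
    have : (j + 1).val = 0 := by
      rw [Fin.val_add, Fin.val_one']
      rcases Nat.lt_or_ge 1 N with h' | h'
      · rw [Nat.mod_eq_of_lt h', hj, Nat.mod_self]
      · have : N = 1 := by have := j.isLt; omega
        subst this
        simp
    rw [this, hj, h1, pow_zero, Equiv.Perm.one_apply]

/-- transport of a decomposition along an isomorphism -/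
theorem fin_transport {U U' : Type} [DecidableEq U] [DecidableEq U'] (G : SimpleGraph U)
    (G' : SimpleGraph U') (f : G ≃g G') (p : ℕ) (h : HamDec G p) : HamDec G' p := by
  obtain ⟨a, c, hc, he⟩ := h
  refine ⟨fun j => f (a j), fun j => (c j).map f.toHom, fun j => ?_, ?_⟩
  · exact (hc j).map (f := f.toHom) f.bijective
  · intro e he'
    have h1 : Sym2.map f.symm e ∈ G.edgeSet := by
      induction e using Sym2.ind with
      | _ x y =>
        rw [Sym2.map_mk, SimpleGraph.mem_edgeSet]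
        exact f.symm.map_rel_iff.2 he'
    have hmem : ∀ j, e ∈ ((c j).map f.toHom).edges ↔ Sym2.map f.symm e ∈ (c j).edges := by
      intro j
      rw [SimpleGraph.Walk.edges_map, List.mem_map]
      constructor
      · rintro ⟨d, hd, rfl⟩
        rw [Sym2.map_map]
        have : (f.symm ∘ f.toHom : U → U) = id := by
          funext x; exact f.symm_apply_apply x
        rw [this, Sym2.map_id]
        exact hd
      · intro hd
        refine ⟨_, hd, ?_⟩
        rw [Sym2.map_map]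
        have : (f.toHom ∘ f.symm : U' → U') = id := by
          funext x; exact f.apply_symm_apply x
        rw [this, Sym2.map_id]
        rfl
    obtain ⟨j, hj, huniq⟩ := he _ h1
    refine ⟨j, (hmem j).2 hj, fun j' hj' => huniq j' ((hmem j').1 hj')⟩

theorem final_of_plan (N₀ : ℕ) (hN₀ : 3 ≤ N₀)
    (H : ∀ (V : Type) [Fintype V] [DecidableEq V] (n : ℕ) (σ : Fin n → Equiv.Perm V), HD σ →
      N₀ ≤ Fintype.card V → Fintype.card V ≤ 7 * n →
      ∃ (D : OddD V (Fin n)) (A : Finset (Sq V (Fin n))) (u v v' w : Fin n → V) (ρ : V → ℕ),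
        Plan σ D A u v v' w ρ)
    (V W : Type) [Fintype V] [DecidableEq V] [Fintype W] [DecidableEq W]
    (G : SimpleGraph V) (K : SimpleGraph W) (n : ℕ) (hG : HamDec G n) (hK : HamDec K 1)
    (hW : _root_.Odd (Fintype.card W)) (h0 : N₀ ≤ Fintype.card V)
    (h7 : Fintype.card V ≤ 7 * n) : HamDec (K □ G) (n + 1) := by
  obtain ⟨a, c, hc, he⟩ := hG
  obtain ⟨b, d, hd, hde⟩ := hK
  -- permutations
  choose σ hσ1 hσ2 using fun j => perm_of_ham G (a j) (c j) (hc j)
  obtain ⟨τ, hτ1, hτ2⟩ := perm_of_ham K (b 0) (d 0) (hd 0)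
  have hGadj : ∀ x y, G.Adj x y ↔ ∃ i z, s(x, y) = ed σ i z := by
    intro x y
    rw [← SimpleGraph.mem_edgeSet]
    constructor
    · intro hxy
      obtain ⟨j, hj, _⟩ := he _ hxy
      obtain ⟨z, hz⟩ := (hσ2 j _).1 hj
      exact ⟨j, z, hz⟩
    · rintro ⟨i, z, hz⟩
      exact (c i).edges_subset_edgeSet ((hσ2 i _).2 ⟨z, hz⟩)
  have hKadj : ∀ x y, K.Adj x y ↔ ∃ z, s(x, y) = s(z, τ z) := by
    intro x y
    rw [← SimpleGraph.mem_edgeSet]
    constructor
    · intro hxy
      obtain ⟨j, hj, _⟩ := hde _ hxy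
      have hj0 : j = 0 := Subsingleton.elim _ _
      rw [hj0] at hj
      exact (hτ2 _).1 hj
    · rintro ⟨z, hz⟩
      exact (d 0).edges_subset_edgeSet ((hτ2 _).2 ⟨z, hz⟩)
  have hHD : HD σ := by
    refine ⟨hN₀.trans h0, fun i x y => hσ1 i x y, ?_⟩
    intro i j x hij
    have hi : s(x, σ i x) ∈ (c i).edges := (hσ2 i _).2 ⟨x, rfl⟩
    have hie := (c i).edges_subset_edgeSet hi
    obtain ⟨k, _, hk⟩ := he _ hie
    constructor
    · intro hx
      have hj : s(x, σ i x) ∈ (c j).edges := (hσ2 j _).2 ⟨x, by rw [hx]⟩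
      exact hij ((hk i hi).trans (hk j hj).symm)
    · intro hx
      have hj : s(x, σ i x) ∈ (c j).edges := (hσ2 j _).2 ⟨(σ j)⁻¹ x, by
        rw [hx, show (σ j) ((σ j)⁻¹ x) = x from (σ j).apply_symm_apply x, Sym2.eq_swap]⟩
      exact hij ((hk i hi).trans (hk j hj).symm)
  -- the number of layers
  have h3 : 3 ≤ Fintype.card W := by
    rw [← (hd 0).length_eq]
    exact (hd 0).isCycle.three_le_length
  obtain ⟨m, hm⟩ : ∃ m, Fintype.card W = 2 * m + 3 := by
    obtain ⟨k, hk⟩ := hW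
    exact ⟨k - 1, by omega⟩
  obtain ⟨φ, hφ⟩ := fin_number τ hτ1 (2 * m + 3) hm
  obtain ⟨D, A, u, v, v', w, ρ, P⟩ := H V n σ hHD h0 h7
  have hcore := core hHD P m
  rw [Fintype.card_fin] at hcore
  -- the isomorphism
  have hcyc : ∀ j j' : Fin (2 * m + 3), K.Adj (φ j) (φ j') ↔ (j' = j + 1 ∨ j = j' + 1) := by
    intro j j'
    rw [hKadj]
    constructor
    · rintro ⟨z, hz⟩
      obtain ⟨k, rfl⟩ := φ.surjective z
      rw [← hφ, Sym2.eq_iff] at hz
      rcases hz with ⟨h1, h2⟩ | ⟨h1, h2⟩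
      · left; rw [φ.injective h1, φ.injective h2]
      · right; rw [φ.injective h1, φ.injective h2]
    · rintro (rfl | rfl)
      · exact ⟨φ j, by rw [hφ]⟩
      · exact ⟨φ j', by rw [hφ, Sym2.eq_swap]⟩
  let e : V × Fin (2 * m + 3) ≃ W × V := (Equiv.prodComm _ _).trans (φ.prodCongr (Equiv.refl V))
  have he1 : ∀ p, e p = (φ p.2, p.1) := fun p => rfl
  let f : prodG σ (2 * m + 3) ≃g (K □ G) :=
    { toEquiv := e
      map_rel_iff' := by
        intro p q
        rw [he1, he1, SimpleGraph.boxProd_adj]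
        simp only
        rw [hcyc, hGadj]
        constructor
        · rintro (⟨h1, h2⟩ | ⟨h1, h2⟩)
          · refine ⟨?_, Or.inl ⟨h2, h1⟩⟩
            rintro rfl
            have : (1 : Fin (2 * m + 3)) = 0 := by
              rcases h1 with h1 | h1 <;> exact (left_eq_add.1 h1)
            have h4 := congrArg Fin.val this
            simp at h4
          · refine ⟨?_, Or.inr ⟨φ.injective h2, h1⟩⟩
            rintro rfl
            have := (hGadj p.1 p.1).2 h1
            exact G.loopless.irrefl _ this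
        · rintro ⟨_, ⟨h1, h2⟩ | ⟨h1, h2⟩⟩
          · exact Or.inl ⟨h2, h1⟩
          · exact Or.inr ⟨h2, by rw [h1]⟩ }
  exact fin_transport _ _ f _ hcore

end Pool.Agent.KZ
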