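import Pool.Agent.Lib_helper15.KZF.AsmA3
import Pool.Agent.Lib_helper15.KZF.AsmB3
import Pool.Agent.Lib_helper15.KZF.DefsA
import Pool.Agent.Lib_helper15.KZF.DefsN
import Pool.Agent.Lib_helper15.KZF.FIN

/-!
# Every large system of Hamiltonian cycles has a plan; the final theorem
-/

set_option autoImplicit false

namespace Pool.Agent.KZ

open Finset

/-- every large `σ` has a plan -/
theorem plan_exist : ∃ N₀ : ℕ, 3 ≤ N₀ ∧
    ∀ (V : Type) [Fintype V] [DecidableEq V] (n : ℕ) (σ : Fin n → Equiv.Perm V), HD σ →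
      N₀ ≤ Fintype.card V → Fintype.card V ≤ 7 * n →
      ∃ (D : OddD V (Fin n)) (A : Finset (Sq V (Fin n))) (u v v' w : Fin n → V) (ρ : V → ℕ),
        Plan σ D A u v v' w ρ := by
  obtain ⟨e, NA, he0, he1, HA⟩ := planA_exist
  obtain ⟨NB, HB⟩ := planB_exist e he0 he1
  refine ⟨NA + NB + 3, by omega, ?_⟩
  intro V _ _ n σ hσ hN h7
  rcases le_total (Fintype.card V : ℝ) ((2 + e) * Fintype.card (Fin n)) with h | h
  · exact HA V (Fin n) σ hσ (by omega) h
  · exact HB V (Fin n) σ hσ (by omega) h (by rw [Fintype.card_fin]; exact h7)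

theorem kotzig_large : ∃ N₀ : ℕ, ∀ (V W : Type) [Fintype V] [DecidableEq V] [Fintype W]
    [DecidableEq W] (G : SimpleGraph V) (K : SimpleGraph W) (n : ℕ), HamDec G n → HamDec K 1 →
    _root_.Odd (Fintype.card W) → N₀ ≤ Fintype.card V → Fintype.card V ≤ 7 * n →
    HamDec (K □ G) (n + 1) := by
  obtain ⟨N₀, h3, H⟩ := plan_exist
  exact ⟨N₀, fun V W _ _ _ _ G K n hG hK hW h0 h7 => final_of_plan N₀ h3 H V W G K n hG hK hW h0 h7⟩

end Pool.Agent.KZ
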