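import Mathlib

/-!
# Bounded differences on finite product spaces (existence form)

`avg f` is the average of `f : (I → L) → ℝ` over all `ω : I → L`.  If finitely many functions `F t`
have bounded differences `c t i` with `∑ i, c t i ^ 2 ≤ s t ^ 2` and `2 |T| exp (-lam ^ 2 / 2) < 1`,
then some `ω` satisfies `|F t ω - avg (F t)| ≤ lam * s t` for all `t`.
-/

set_option autoImplicit false
set_option linter.unusedSectionVars false

namespace Pool.Agent.KZ

open Finset

section
variable {I L : Type} [Fintype I] [DecidableEq I] [Fintype L] [Nonempty L]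

/-- the average of `f` over all `ω : I → L` -/
noncomputable def avg (f : (I → L) → ℝ) : ℝ := (∑ ω : I → L, f ω) / (Fintype.card (I → L) : ℝ)

/-- average over the coordinate `i` -/
noncomputable def av1 (i : I) (f : (I → L) → ℝ) (ω : I → L) : ℝ :=
  (∑ l : L, f (Function.update ω i l)) / (Fintype.card L : ℝ)

/-- bounded differences -/
def BD (c : I → ℝ) (f : (I → L) → ℝ) : Prop :=
  ∀ i ω l, |f (Function.update ω i l) - f ω| ≤ c i

lemma cardL_pos : (0 : ℝ) < (Fintype.card L : ℝ) := by exact_mod_cast Fintype.card_pos

lemma avg_mono {f g : (I → L) → ℝ} (h : ∀ ω, f ω ≤ g ω) : avg f ≤ avg g := by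
  unfold avg
  exact div_le_div_of_nonneg_right (Finset.sum_le_sum fun ω _ => h ω) (Nat.cast_nonneg _)

lemma avg_const (c : ℝ) : avg (fun _ : I → L => c) = c := by
  unfold avg
  rw [Finset.sum_const, Finset.card_univ, nsmul_eq_mul]
  have : (Fintype.card (I → L) : ℝ) ≠ 0 := by exact_mod_cast Fintype.card_ne_zero
  field_simp

lemma avg_add (f g : (I → L) → ℝ) : avg (fun ω => f ω + g ω) = avg f + avg g := by
  unfold avg; rw [Finset.sum_add_distrib, add_div]

lemma avg_mul_left (c : ℝ) (f : (I → L) → ℝ) : avg (fun ω => c * f ω) = c * avg f := by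
  unfold avg; rw [← Finset.mul_sum, mul_div_assoc]

lemma avg_mul_right (c : ℝ) (f : (I → L) → ℝ) : avg (fun ω => f ω * c) = avg f * c := by
  unfold avg; rw [← Finset.sum_mul, mul_div_right_comm]

lemma avg_sub (f g : (I → L) → ℝ) : avg (fun ω => f ω - g ω) = avg f - avg g := by
  unfold avg; rw [Finset.sum_sub_distrib, sub_div]

lemma avg_sum {ι : Type*} (s : Finset ι) (f : ι → (I → L) → ℝ) :
    avg (fun ω => ∑ t ∈ s, f t ω) = ∑ t ∈ s, avg (f t) := by
  unfold avg; rw [Finset.sum_comm, Finset.sum_div]

lemma exists_le_avg (f : (I → L) → ℝ) : ∃ ω, f ω ≤ avg f := by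
  by_contra h
  push Not at h
  have h1 : avg (fun _ : I → L => avg f) < avg f := by
    unfold avg
    refine div_lt_div_of_pos_right ?_ (by exact_mod_cast Fintype.card_pos)
    exact Finset.sum_lt_sum_of_nonempty Finset.univ_nonempty fun ω _ => h ω
  rw [avg_const] at h1
  exact lt_irrefl _ h1

/-- averaging over one coordinate does not change the average -/
lemma avg_av1 (i : I) (f : (I → L) → ℝ) : avg (av1 i f) = avg f := by
  unfold avg av1
  congr 1
  rw [← Finset.sum_div, div_eq_iff (ne_of_gt cardL_pos)]
  have h1 : ∑ ω : I → L, ∑ l : L, f (Function.update ω i l) =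
      ∑ p : (I → L) × L, f (Function.update p.1 i p.2) := by
    rw [Fintype.sum_prod_type]
  have h2 : ∑ p : (I → L) × L, f (Function.update p.1 i p.2) = ∑ p : (I → L) × L, f p.1 := by
    refine Fintype.sum_bijective (fun p : (I → L) × L => (Function.update p.1 i p.2, p.1 i)) ?_ _ _
      (fun p => rfl)
    constructor
    · rintro ⟨ω, l⟩ ⟨ω', l'⟩ h
      simp only [Prod.mk.injEq] at h
      obtain ⟨h1, h2⟩ := h
      have hl : l = l' := by
        have := congrFun h1 i
        simpa using this
      have hω : ω = ω' := by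
        funext j
        by_cases hj : j = i
        · rw [hj]; exact h2
        · have := congrFun h1 j
          simpa [Function.update_of_ne hj] using this
      rw [hl, hω]
    · rintro ⟨ω, l⟩
      refine ⟨(Function.update ω i l, ω i), ?_⟩
      simp
  rw [h1, h2, Fintype.sum_prod_type]
  simp [mul_comm, Finset.mul_sum]

lemma bd_av1 {c : I → ℝ} {f : (I → L) → ℝ} (hf : BD c f) (i : I) :
    BD (Function.update c i 0) (av1 i f) := by
  intro j ω l
  by_cases hj : j = i
  · subst hj
    rw [Function.update_self]
    have : av1 j f (Function.update ω j l) = av1 j f ω := by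
      unfold av1; simp
    rw [this, sub_self, abs_zero]
  · rw [Function.update_of_ne hj]
    unfold av1
    rw [← sub_div, ← Finset.sum_sub_distrib, abs_div, abs_of_pos (cardL_pos (L := L)),
      div_le_iff₀ cardL_pos]
    calc |∑ x : L, (f (Function.update (Function.update ω j l) i x) -
          f (Function.update ω i x))|
        ≤ ∑ x : L, |f (Function.update (Function.update ω j l) i x) -
          f (Function.update ω i x)| := Finset.abs_sum_le_sum_abs _ _
      _ ≤ ∑ x : L, c j := by
          refine Finset.sum_le_sum fun x _ => ?_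
          rw [Function.update_comm hj]
          exact hf j _ l
      _ = c j * (Fintype.card L : ℝ) := by
          rw [Finset.sum_const, Finset.card_univ, nsmul_eq_mul, mul_comm]

/-- the exponential moment of a bounded centered quantity -/
lemma exp_le_cosh {c x t : ℝ} (hc : 0 < c) (hx : |x| ≤ c) :
    Real.exp (t * x) ≤ Real.cosh (t * c) + x / c * Real.sinh (t * c) := by
  have h1 := abs_le.1 hx
  -- convexity of `exp`
  have hcv : ConvexOn ℝ Set.univ Real.exp := convexOn_exp
  have hconv := hcv.2 (Set.mem_univ (-(t * c))) (Set.mem_univ (t * c))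
    (show 0 ≤ (1 - x / c) / 2 by
      have : x / c ≤ 1 := (div_le_one hc).2 h1.2
      linarith)
    (show 0 ≤ (1 + x / c) / 2 by
      have : -1 ≤ x / c := by rw [le_div_iff₀ hc]; linarith
      linarith) (by ring)
  simp only [smul_eq_mul] at hconv
  have e1 : (1 - x / c) / 2 * -(t * c) + (1 + x / c) / 2 * (t * c) = t * x := by
    field_simp; ring
  rw [e1] at hconv
  refine hconv.trans (le_of_eq ?_)
  rw [Real.cosh_eq, Real.sinh_eq]
  ring

lemma av1_exp {c : I → ℝ} {f : (I → L) → ℝ} (hf : BD c f) (i : I) (t : ℝ) (ω : I → L) :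
    av1 i (fun η => Real.exp (t * f η)) ω ≤
      Real.exp (t * av1 i f ω) * Real.exp (t ^ 2 * c i ^ 2 / 2) := by
  set a := av1 i f ω with ha
  have hci : 0 ≤ c i := (abs_nonneg _).trans (hf i ω (ω i))
  -- differences to the average
  have hdiff : ∀ l : L, |f (Function.update ω i l) - a| ≤ c i := by
    intro l
    have e1 : f (Function.update ω i l) - a =
        (∑ x : L, (f (Function.update ω i l) - f (Function.update ω i x))) /
          (Fintype.card L : ℝ) := by
      rw [Finset.sum_sub_distrib, Finset.sum_const, Finset.card_univ, nsmul_eq_mul, sub_div,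
        ha]
      unfold av1
      have := ne_of_gt (cardL_pos (L := L))
      field_simp
    rw [e1, abs_div, abs_of_pos (cardL_pos (L := L)), div_le_iff₀ cardL_pos]
    calc |∑ x : L, (f (Function.update ω i l) - f (Function.update ω i x))|
        ≤ ∑ x : L, |f (Function.update ω i l) - f (Function.update ω i x)| :=
          Finset.abs_sum_le_sum_abs _ _
      _ ≤ ∑ x : L, c i := by
          refine Finset.sum_le_sum fun x _ => ?_
          have := hf i (Function.update ω i x) l
          rwa [Function.update_idem] at this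
      _ = c i * (Fintype.card L : ℝ) := by
          rw [Finset.sum_const, Finset.card_univ, nsmul_eq_mul, mul_comm]
  have hL := cardL_pos (L := L)
  rcases eq_or_lt_of_le hci with h0 | h0
  · have h1 : ∀ l : L, f (Function.update ω i l) = a := by
      intro l
      have := hdiff l
      rw [← h0] at this
      exact sub_eq_zero.1 (abs_eq_zero.1 (le_antisymm this (abs_nonneg _)))
    unfold av1
    simp only [h1]
    rw [Finset.sum_const, Finset.card_univ, nsmul_eq_mul, ← h0]
    have : (Fintype.card L : ℝ) * Real.exp (t * a) / (Fintype.card L : ℝ) = Real.exp (t * a) := by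
      field_simp
    rw [this]
    simp
  · have key : ∀ l : L, Real.exp (t * f (Function.update ω i l)) ≤ Real.exp (t * a) *
        (Real.cosh (t * c i) + (f (Function.update ω i l) - a) / c i * Real.sinh (t * c i)) := by
      intro l
      have h1 := exp_le_cosh (t := t) h0 (hdiff l)
      have h2 : Real.exp (t * f (Function.update ω i l)) = Real.exp (t * a) *
          Real.exp (t * (f (Function.update ω i l) - a)) := by
        rw [← Real.exp_add]; congr 1; ring
      rw [h2]
      exact mul_le_mul_of_nonneg_left h1 (Real.exp_pos _).le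
    have hsum : ∑ l : L, (f (Function.update ω i l) - a) = 0 := by
      rw [Finset.sum_sub_distrib, Finset.sum_const, Finset.card_univ, nsmul_eq_mul, ha]
      unfold av1
      field_simp
      ring
    have hav : av1 i (fun η => Real.exp (t * f η)) ω ≤
        Real.exp (t * a) * Real.cosh (t * c i) := by
      unfold av1
      rw [div_le_iff₀ hL]
      calc ∑ l : L, Real.exp (t * f (Function.update ω i l))
          ≤ ∑ l : L, Real.exp (t * a) *
            (Real.cosh (t * c i) + (f (Function.update ω i l) - a) / c i * Real.sinh (t * c i)) :=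
            Finset.sum_le_sum fun l _ => key l
        _ = Real.exp (t * a) * Real.cosh (t * c i) * (Fintype.card L : ℝ) := by
            rw [← Finset.mul_sum, Finset.sum_add_distrib, Finset.sum_const, Finset.card_univ,
              nsmul_eq_mul, ← Finset.sum_mul, ← Finset.sum_div, hsum]
            ring
    refine hav.trans (mul_le_mul_of_nonneg_left ?_ (Real.exp_pos _).le)
    refine (Real.cosh_le_exp_half_sq _).trans (le_of_eq ?_)
    congr 1
    ring

/-- iterated averages over a list of coordinates -/
noncomputable def avl : List I → ((I → L) → ℝ) → ((I → L) → ℝ)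
  | [], f => f
  | i :: s, f => avl s (av1 i f)

lemma avg_avl (s : List I) (f : (I → L) → ℝ) : avg (avl s f) = avg f := by
  induction s generalizing f with
  | nil => rfl
  | cons i s ih => rw [avl, ih, avg_av1]

lemma bd_avl {s : List I} : ∀ {c : I → ℝ} {f : (I → L) → ℝ}, BD c f →
    BD (fun i => if i ∈ s then 0 else c i) (avl s f) := by
  induction s with
  | nil => intro c f hf; simpa [avl] using hf
  | cons a s ih =>
    intro c f hf
    have h1 := ih (bd_av1 hf a)
    rw [avl]
    intro i ω l
    refine (h1 i ω l).trans (le_of_eq ?_)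
    by_cases h : i = a
    · subst h; simp
    · by_cases h2 : i ∈ s
      · simp [h2]
      · simp [h2, h, Function.update_of_ne h]

lemma av1_mono (i : I) {f g : (I → L) → ℝ} (h : ∀ ω, f ω ≤ g ω) (ω : I → L) :
    av1 i f ω ≤ av1 i g ω := by
  unfold av1
  exact div_le_div_of_nonneg_right (Finset.sum_le_sum fun l _ => h _) (Nat.cast_nonneg _)

lemma avl_mono (s : List I) : ∀ {f g : (I → L) → ℝ}, (∀ ω, f ω ≤ g ω) → ∀ ω,
    avl s f ω ≤ avl s g ω := by
  induction s with
  | nil => intro f g h; exact h
  | cons a s ih => intro f g h; exact ih (av1_mono a h)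

lemma avl_mul_right (s : List I) (c : ℝ) : ∀ (f : (I → L) → ℝ) (ω : I → L),
    avl s (fun η => f η * c) ω = avl s f ω * c := by
  induction s with
  | nil => intro f ω; rfl
  | cons a s ih =>
    intro f ω
    rw [avl, avl, ← ih]
    congr 1
    funext η
    unfold av1
    rw [← Finset.sum_mul]; ring

lemma avl_exp (s : List I) (t : ℝ) : ∀ {c : I → ℝ} {f : (I → L) → ℝ}, BD c f → ∀ ω,
    avl s (fun η => Real.exp (t * f η)) ω ≤
      Real.exp (t * avl s f ω) * Real.exp (t ^ 2 * (s.map (fun i => c i ^ 2)).sum / 2) := by
  induction s with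
  | nil =>
    intro c f _ ω
    simp [avl]
  | cons a s ih =>
    intro c f hf ω
    rw [avl, avl]
    have h1 : avl s (av1 a (fun η => Real.exp (t * f η))) ω ≤
        avl s (fun η => Real.exp (t * av1 a f η) * Real.exp (t ^ 2 * c a ^ 2 / 2)) ω :=
      avl_mono s (fun η => av1_exp hf a t η) ω
    refine h1.trans ?_
    rw [avl_mul_right]
    have h2 := ih (bd_av1 hf a) ω
    refine (mul_le_mul_of_nonneg_right h2 (Real.exp_pos _).le).trans ?_
    rw [mul_assoc, ← Real.exp_add]
    refine mul_le_mul_of_nonneg_left (Real.exp_le_exp.2 ?_) (Real.exp_pos _).le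
    rw [List.map_cons, List.sum_cons]
    have h3 : (s.map (fun i => Function.update c a 0 i ^ 2)).sum ≤
        (s.map (fun i => c i ^ 2)).sum := by
      refine List.sum_le_sum fun i _ => ?_
      by_cases h : i = a
      · subst h; simp; positivity
      · rw [Function.update_of_ne h]
    nlinarith [sq_nonneg t, h3]

/-- McDiarmid: exponential moment -/
theorem avg_exp_le {c : I → ℝ} {f : (I → L) → ℝ} (hf : BD c f) (t : ℝ) :
    avg (fun ω => Real.exp (t * (f ω - avg f))) ≤ Real.exp (t ^ 2 * (∑ i, c i ^ 2) / 2) := by
  classical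
  set s : List I := Finset.univ.toList with hs
  have hmem : ∀ i, i ∈ s := fun i => by rw [hs]; simp
  have hconst : ∀ ω ω', avl s f ω = avl s f ω' := by
    have h1 := bd_avl (s := s) hf
    have h2 : ∀ i ω l, avl s f (Function.update ω i l) = avl s f ω := by
      intro i ω l
      have := h1 i ω l
      simp only [hmem, if_true] at this
      exact sub_eq_zero.1 (abs_eq_zero.1 (le_antisymm this (abs_nonneg _)))
    intro ω ω'
    have h3 : ∀ S : Finset I, avl s f (S.piecewise ω' ω) = avl s f ω := by
      intro S
      induction S using Finset.induction_on with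
      | empty => simp
      | insert a S ha ih =>
        rw [Finset.piecewise_insert, h2, ih]
    have := h3 Finset.univ
    rw [Finset.piecewise_univ] at this
    exact this.symm
  have hav : ∀ ω, avl s f ω = avg f := by
    intro ω
    have h1 : avg (avl s f) = avl s f ω := by
      have : avl s f = fun _ => avl s f ω := funext fun η => hconst η ω
      rw [this, avg_const]
    rw [← h1, avg_avl]
  have h1 : avg (fun ω => Real.exp (t * f ω)) ≤ Real.exp (t * avg f) *
      Real.exp (t ^ 2 * (∑ i, c i ^ 2) / 2) := by
    rw [← avg_avl s]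
    have h2 : ∀ ω, avl s (fun η => Real.exp (t * f η)) ω ≤ Real.exp (t * avg f) *
      Real.exp (t ^ 2 * (∑ i, c i ^ 2) / 2) := by
      intro ω
      have := avl_exp s t hf ω
      rw [hav] at this
      rw [hs, Finset.sum_map_toList] at this
      exact this
    have h3 := avg_mono h2
    rwa [avg_const] at h3
  have h2 : avg (fun ω => Real.exp (t * (f ω - avg f))) =
      avg (fun ω => Real.exp (t * f ω)) * Real.exp (-(t * avg f)) := by
    rw [← avg_mul_right]
    congr 1
    funext ω
    rw [← Real.exp_add]; congr 1; ring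
  rw [h2]
  refine (mul_le_mul_of_nonneg_right h1 (Real.exp_pos _).le).trans (le_of_eq ?_)
  rw [mul_right_comm, ← Real.exp_add]
  simp

/-- **Bounded differences, existence form.** -/
theorem exists_good {T : Type*} [Fintype T] (F : T → (I → L) → ℝ) (c : T → I → ℝ)
    (hF : ∀ t, BD (c t) (F t)) (s : T → ℝ) (hs : ∀ t, 0 < s t)
    (hcs : ∀ t, ∑ i, c t i ^ 2 ≤ s t ^ 2) (lam : ℝ) (hlam : 0 < lam)
    (hT : 2 * (Fintype.card T : ℝ) * Real.exp (-(lam ^ 2 / 2)) < 1) :
    ∃ ω : I → L, ∀ t, |F t ω - avg (F t)| ≤ lam * s t := by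
  -- the potential
  set Φ : (I → L) → ℝ := fun ω => ∑ t : T, (Real.exp (lam / s t * (F t ω - avg (F t))) +
    Real.exp (-(lam / s t) * (F t ω - avg (F t)))) with hΦ
  have h1 : avg Φ ≤ 2 * (Fintype.card T : ℝ) * Real.exp (lam ^ 2 / 2) := by
    rw [hΦ, avg_sum]
    calc ∑ t : T, avg (fun ω => Real.exp (lam / s t * (F t ω - avg (F t))) +
          Real.exp (-(lam / s t) * (F t ω - avg (F t))))
        ≤ ∑ t : T, 2 * Real.exp (lam ^ 2 / 2) := by
          refine Finset.sum_le_sum fun t _ => ?_
          rw [avg_add]
          have hst := hs t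
          have hb : ∀ x : ℝ, x ^ 2 = (lam / s t) ^ 2 →
              Real.exp (x ^ 2 * (∑ i, c t i ^ 2) / 2) ≤ Real.exp (lam ^ 2 / 2) := by
            intro x hx
            rw [hx]
            apply Real.exp_le_exp.2
            have h2 := mul_le_mul_of_nonneg_left (hcs t) (sq_nonneg (lam / s t))
            have h3 : (lam / s t) ^ 2 * s t ^ 2 = lam ^ 2 := by field_simp
            linarith
          have h2 := (avg_exp_le (hF t) (lam / s t)).trans (hb _ rfl)
          have h3 := (avg_exp_le (hF t) (-(lam / s t))).trans (hb _ (by ring))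
          linarith
      _ = 2 * (Fintype.card T : ℝ) * Real.exp (lam ^ 2 / 2) := by
          rw [Finset.sum_const, Finset.card_univ, nsmul_eq_mul]; ring
  obtain ⟨ω, hω⟩ := exists_le_avg Φ
  refine ⟨ω, fun t => ?_⟩
  by_contra hcon
  push Not at hcon
  have hst := hs t
  have h2 : Real.exp (lam ^ 2) ≤ Φ ω := by
    have h3 : Real.exp (lam ^ 2) ≤ Real.exp (lam / s t * (F t ω - avg (F t))) +
        Real.exp (-(lam / s t) * (F t ω - avg (F t))) := by
      rcases le_or_gt 0 (F t ω - avg (F t)) with h | h
      · rw [abs_of_nonneg h] at hcon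
        have : lam ^ 2 ≤ lam / s t * (F t ω - avg (F t)) := by
          have h4 : lam ^ 2 = lam / s t * (lam * s t) := by field_simp
          rw [h4]
          exact mul_le_mul_of_nonneg_left hcon.le (by positivity)
        linarith [Real.exp_le_exp.2 this, Real.exp_pos (-(lam / s t) * (F t ω - avg (F t)))]
      · rw [abs_of_neg h] at hcon
        have : lam ^ 2 ≤ -(lam / s t) * (F t ω - avg (F t)) := by
          have h4 : lam ^ 2 = lam / s t * (lam * s t) := by field_simp
          rw [h4, neg_mul, ← mul_neg]
          exact mul_le_mul_of_nonneg_left hcon.le (by positivity)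
        linarith [Real.exp_le_exp.2 this, Real.exp_pos (lam / s t * (F t ω - avg (F t)))]
    refine h3.trans ?_
    rw [hΦ]
    exact Finset.single_le_sum (f := fun t => Real.exp (lam / s t * (F t ω - avg (F t))) +
      Real.exp (-(lam / s t) * (F t ω - avg (F t)))) (fun t _ => by positivity)
      (Finset.mem_univ t)
  have h3 := h2.trans (hω.trans h1)
  have h4 : Real.exp (lam ^ 2) = Real.exp (lam ^ 2 / 2) * Real.exp (lam ^ 2 / 2) := by
    rw [← Real.exp_add]; congr 1; ring
  rw [h4] at h3
  have h5 : Real.exp (lam ^ 2 / 2) ≤ 2 * (Fintype.card T : ℝ) :=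
    le_of_mul_le_mul_right h3 (Real.exp_pos _)
  have h6 : 1 ≤ 2 * (Fintype.card T : ℝ) * Real.exp (-(lam ^ 2 / 2)) := by
    have := mul_le_mul_of_nonneg_right h5 (Real.exp_pos (-(lam ^ 2 / 2))).le
    rwa [← Real.exp_add, add_neg_cancel, Real.exp_zero] at this
  linarith

end

end Pool.Agent.KZ
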