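import Pool.Agent.Lib_helper15.KZF.DefsA
import Pool.Agent.Lib_helper15.KZF.DefsN

/-! block CON0: class 0 is connected -/

set_option autoImplicit false

namespace Pool.Agent.KZ

open Finset

variable {V C : Type} [Fintype V] [DecidableEq V] [Fintype C] [DecidableEq C]
variable {σ : C → Equiv.Perm V} {D : OddD V C} {A : Finset (Sq V C)} {u v v' w : C → V} {ρ : V → ℕ}

theorem con0_gt_even {m j : ℕ} (h : j ≤ 2 * m) (h2 : j % 2 = 0) : gt m j = 0 := by
  rw [gt, if_pos h, if_pos h2]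

theorem con0_gt_odd {m j : ℕ} (h : j ≤ 2 * m) (h2 : j % 2 = 1) : gt m j = 3 := by
  rw [gt, if_pos h, if_neg (by omega)]

theorem con0_gt_one (m : ℕ) : gt m (2 * m + 1) = 1 := by
  rw [gt, if_neg (by omega), if_pos rfl]

theorem con0_gt_two (m : ℕ) : gt m (2 * m + 2) = 2 := by
  rw [gt, if_neg (by omega), if_neg (by omega)]

/-- vertical step -/
theorem con0_step (m : ℕ) {j : ℕ} (hj : j + 1 < 2 * m + 3) (x : V)
    (h : ∀ i, ¬ occt σ D A v' w (gt m j) i x) :
    (cg σ D A v' w m none).Reachable (x, ⟨j, by omega⟩) (x, ⟨j + 1, hj⟩) := by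
  apply SimpleGraph.Adj.reachable
  refine ⟨?_, Or.inl ⟨rfl, Or.inl ⟨?_, h⟩⟩⟩
  · intro he
    have h1 := congrArg (fun p : V × Fin (2 * m + 3) => p.2.val) he
    simp only at h1
    omega
  · apply Fin.ext
    rw [Fin.val_add]
    have h1 : ((1 : Fin (2 * m + 3)) : ℕ) = 1 := rfl
    rw [h1, Nat.mod_eq_of_lt hj]

/-- the last vertical step -/
theorem con0_wrap (m : ℕ) (x : V) (h : ∀ i, ¬ occt σ D A v' w (gt m (2 * m + 2)) i x) :
    (cg σ D A v' w m none).Reachable (x, ⟨2 * m + 2, by omega⟩) (x, 0) := by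
  apply SimpleGraph.Adj.reachable
  refine ⟨?_, Or.inl ⟨rfl, Or.inl ⟨?_, h⟩⟩⟩
  · intro he
    have h1 := congrArg (fun p : V × Fin (2 * m + 3) => p.2.val) he
    have h2 : ((0 : Fin (2 * m + 3)) : ℕ) = 0 := rfl
    simp only [h2] at h1
    omega
  · apply Fin.ext
    rw [Fin.val_add]
    have h1 : ((1 : Fin (2 * m + 3)) : ℕ) = 1 := rfl
    have h2 : ((0 : Fin (2 * m + 3)) : ℕ) = 0 := rfl
    rw [h1, h2, Nat.mod_self]

/-- the value of `j - 1` -/
theorem con0_pred_val (m : ℕ) (j : Fin (2 * m + 3)) :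
    (j - 1).val = if j = 0 then 2 * m + 2 else j.val - 1 := Fin.coe_sub_one j

/-- horizontal edges of the inner layers -/
theorem con0_inner (m : ℕ) {j : ℕ} (h1 : 1 ≤ j) (h2 : j ≤ 2 * m) {i : C} {z x y : V}
    (h : sqt σ D A v' w 0 i z ∨ sqt σ D A v' w 3 i z ∨ (i ∈ D.O ∧ z = D.b i))
    (he : s(x, y) = ed σ i z) :
    (cg σ D A v' w m none).Reachable (x, ⟨j, by omega⟩) (y, ⟨j, by omega⟩) := by
  by_cases hxy : x = y
  · rw [hxy]
  apply SimpleGraph.Adj.reachable
  refine ⟨?_, Or.inr ⟨rfl, i, z, he, ?_, ?_⟩⟩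
  · intro h3
    exact hxy (congrArg Prod.fst h3)
  · have hp : ((⟨j, by omega⟩ : Fin (2 * m + 3)) - 1).val = j - 1 := by
      rw [con0_pred_val, if_neg]
      intro h3
      have h4 := congrArg Fin.val h3
      have h5 : ((0 : Fin (2 * m + 3)) : ℕ) = 0 := rfl
      rw [h5] at h4
      simp only at h4
      omega
    unfold rele
    rw [hp]
    simp only
    rcases h with h | h | h
    · rcases Nat.mod_two_eq_zero_or_one j with hj | hj
      · left
        rw [con0_gt_even h2 hj]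
        exact h
      · right; left
        rw [con0_gt_even (by omega) (by omega)]
        exact h
    · rcases Nat.mod_two_eq_zero_or_one j with hj | hj
      · right; left
        rw [con0_gt_odd (by omega) (by omega)]
        exact h
      · left
        rw [con0_gt_odd h2 hj]
        exact h
    · right; right
      exact ⟨h.1, Or.inl h.2⟩
  · rintro i' ⟨_, ⟨h3, _⟩ | ⟨h3, _⟩⟩
    · simp only at h3
      omega
    · simp only at h3
      omega

theorem con0_sqt0 {i : C} {z : V} (h : sqt σ D A v' w 0 i z) : ((0 : Fin 3), i, z) ∈ A := by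
  rcases h with ⟨g, hg, h⟩ | ⟨h, _⟩
  · have : g = 0 := by
      apply Fin.castSucc_injective
      rw [hg]
      rfl
    rwa [this] at h
  · exact absurd h (by decide)

theorem con0_sqt3 {i : C} {z : V} (h : sqt σ D A v' w 3 i z) :
    i ∉ D.O ∧ ed σ i z = s(v' i, w i) := by
  rcases h with ⟨g, hg, _⟩ | ⟨_, h⟩
  · exfalso
    revert hg
    fin_cases g <;> decide
  · exact h

/-- the edge joining `u i` and `v i` -/
theorem con0_uv (P : Plan σ D A u v v' w ρ) (m : ℕ) {i : C} (hi : i ∉ D.O) {j : ℕ} (h1 : 1 ≤ j)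
    (h2 : j ≤ 2 * m) :
    (cg σ D A v' w m none).Reachable (u i, ⟨j, by omega⟩) (v i, ⟨j, by omega⟩) := by
  obtain ⟨z, hz, he, _⟩ := P.m0 i hi
  exact con0_inner m h1 h2 (i := i) (z := z) (Or.inl (Or.inl ⟨0, rfl, hz⟩)) he.symm

theorem con0_vw (P : Plan σ D A u v v' w ρ) (m : ℕ) {i : C} (hi : i ∉ D.O) {j : ℕ} (h1 : 1 ≤ j)
    (h2 : j ≤ 2 * m) :
    (cg σ D A v' w m none).Reachable (v' i, ⟨j, by omega⟩) (w i, ⟨j, by omega⟩) := by
  obtain ⟨z, he, _⟩ := P.m0' i hi
  exact con0_inner m h1 h2 (i := i) (z := z) (Or.inr (Or.inl (Or.inr ⟨rfl, hi, he⟩))) he.symm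

theorem con0_bc (m : ℕ) {i : C} (hi : i ∈ D.O) {j : ℕ} (h1 : 1 ≤ j)
    (h2 : j ≤ 2 * m) :
    (cg σ D A v' w m none).Reachable (D.b i, ⟨j, by omega⟩) (σ i (D.b i), ⟨j, by omega⟩) :=
  con0_inner m h1 h2 (i := i) (z := D.b i) (Or.inr (Or.inr ⟨hi, rfl⟩)) rfl

theorem con0_mem {z y a b x : V} (h : s(z, y) = s(a, b)) (hx : x = z ∨ x = y) :
    x = a ∨ x = b := by
  have : x ∈ s(z, y) := Sym2.mem_iff.2 hx
  rw [h] at this
  exact Sym2.mem_iff.1 this

theorem con0_succ (P : Plan σ D A u v v' w ρ) (m : ℕ) {x : V}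
    (hx : ∃ i, occt σ D A v' w 0 i x) : ∃ y, ρ x < ρ y ∧ ∀ j, ∀ h1 : 1 ≤ j, ∀ h2 : j ≤ 2 * m,
      (cg σ D A v' w m none).Reachable (x, ⟨j, by omega⟩) (y, ⟨j, by omega⟩) := by
  obtain ⟨i, ⟨z, hz, hxz⟩ | ⟨hi, hx⟩⟩ := hx
  · have hz' := con0_sqt0 hz
    have hi := P.base.even _ _ _ hz'
    obtain ⟨z0, _, he, hu⟩ := P.m0 i hi
    have hzz := hu z hz'
    rw [← hzz] at he
    rcases con0_mem he hxz with h | h
    · exact ⟨v i, h ▸ P.rho0 i hi, fun j h1 h2 => h ▸ con0_uv P m hi h1 h2⟩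
    · obtain ⟨j', hj', hv⟩ := P.vv i hi
      have hx' : x = v' j' := h.trans hv.symm
      exact ⟨w j', hx' ▸ P.rho1 j' hj', fun j h1 h2 => hx' ▸ con0_vw P m hj' h1 h2⟩
  · have hx' : x = D.b i := by
      rw [hx, tok, if_pos rfl]
    subst hx'
    exact ⟨σ i (D.b i), P.rho2 i hi, fun j h1 h2 => con0_bc m hi h1 h2⟩

theorem con0_pred (P : Plan σ D A u v v' w ρ) (m : ℕ) {x : V}
    (hx : ∃ i, occt σ D A v' w 3 i x) : ∃ y, ρ y < ρ x ∧ ∀ j, ∀ h1 : 1 ≤ j, ∀ h2 : j ≤ 2 * m,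
      (cg σ D A v' w m none).Reachable (x, ⟨j, by omega⟩) (y, ⟨j, by omega⟩) := by
  obtain ⟨i, ⟨z, hz, hxz⟩ | ⟨hi, hx⟩⟩ := hx
  · obtain ⟨hi, he⟩ := con0_sqt3 hz
    rcases con0_mem he hxz with h | h
    · obtain ⟨j', hj', hv⟩ := P.vv' i hi
      have hx' : x = v j' := h.trans hv.symm
      exact ⟨u j', hx' ▸ P.rho0 j' hj', fun j h1 h2 => hx' ▸ (con0_uv P m hj' h1 h2).symm⟩
    · exact ⟨v' i, h ▸ P.rho1 i hi, fun j h1 h2 => h ▸ (con0_vw P m hi h1 h2).symm⟩
  · have hx' : x = σ i (D.b i) := by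
      rw [hx, tok, if_neg (by decide), if_neg (by decide)]
    exact ⟨D.b i, hx' ▸ P.rho2 i hi, fun j h1 h2 => hx' ▸ (con0_bc m hi h1 h2).symm⟩

theorem con0_down (P : Plan σ D A u v v' w ρ) (m : ℕ) : ∀ (n : ℕ) (x : V), ρ x ≤ n →
    ∃ y, (∀ i, ¬ occt σ D A v' w 3 i y) ∧ ∀ j, ∀ h1 : 1 ≤ j, ∀ h2 : j ≤ 2 * m,
      (cg σ D A v' w m none).Reachable (x, ⟨j, by omega⟩) (y, ⟨j, by omega⟩) := by
  intro n
  induction n with
  | zero =>
    intro x hx
    refine ⟨x, ?_, fun j _ _ => SimpleGraph.Reachable.refl _⟩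
    intro i hi
    obtain ⟨y, hy, _⟩ := con0_pred P m ⟨i, hi⟩
    omega
  | succ n ih =>
    intro x hx
    by_cases hocc : ∃ i, occt σ D A v' w 3 i x
    · obtain ⟨y, hy, hy'⟩ := con0_pred P m hocc
      obtain ⟨z, hz, hz'⟩ := ih y (by omega)
      exact ⟨z, hz, fun j h1 h2 => (hy' j h1 h2).trans (hz' j h1 h2)⟩
    · push Not at hocc
      exact ⟨x, hocc, fun j _ _ => SimpleGraph.Reachable.refl _⟩

theorem con0_up (P : Plan σ D A u v v' w ρ) (m M : ℕ) (hM : ∀ x, ρ x ≤ M) : ∀ (n : ℕ) (x : V),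
    M - ρ x ≤ n →
    ∃ y, (∀ i, ¬ occt σ D A v' w 0 i y) ∧ ∀ j, ∀ h1 : 1 ≤ j, ∀ h2 : j ≤ 2 * m,
      (cg σ D A v' w m none).Reachable (x, ⟨j, by omega⟩) (y, ⟨j, by omega⟩) := by
  intro n
  induction n with
  | zero =>
    intro x hx
    refine ⟨x, ?_, fun j _ _ => SimpleGraph.Reachable.refl _⟩
    intro i hi
    obtain ⟨y, hy, _⟩ := con0_succ P m ⟨i, hi⟩
    have := hM y
    omega
  | succ n ih =>
    intro x hx
    by_cases hocc : ∃ i, occt σ D A v' w 0 i x
    · obtain ⟨y, hy, hy'⟩ := con0_succ P m hocc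
      have := hM y
      obtain ⟨z, hz, hz'⟩ := ih y (by omega)
      exact ⟨z, hz, fun j h1 h2 => (hy' j h1 h2).trans (hz' j h1 h2)⟩
    · push Not at hocc
      exact ⟨x, hocc, fun j _ _ => SimpleGraph.Reachable.refl _⟩

/-- through the inner layers -/
theorem con0_through (P : Plan σ D A u v v' w ρ) (m : ℕ) {x : V}
    (hx : ∀ i, ¬ occt σ D A v' w 0 i x) : ∀ t, ∀ ht : t ≤ m,
      (cg σ D A v' w m none).Reachable (x, 0) (x, ⟨2 * t + 1, by omega⟩) := by
  intro t
  induction t with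
  | zero =>
    intro ht
    exact con0_step m (j := 0) (by omega) x (by
      rw [con0_gt_even (by omega) (by omega)]
      exact hx)
  | succ t ih =>
    intro ht
    obtain ⟨s, hs, hs'⟩ := con0_down P m _ x le_rfl
    have e1 := ih (by omega)
    have e2 := hs' (2 * t + 1) (by omega) (by omega)
    have e3 := con0_step (σ := σ) (D := D) (A := A) (v' := v') (w := w) m (j := 2 * t + 1)
      (by omega) s (by
        rw [con0_gt_odd (by omega) (by omega)]
        exact hs)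
    have e4 := (hs' (2 * t + 2) (by omega) (by omega)).symm
    have e5 := con0_step (σ := σ) (D := D) (A := A) (v' := v') (w := w) m (j := 2 * t + 2)
      (by omega) x (by
        rw [con0_gt_even (by omega) (by omega)]
        exact hx)
    exact (((e1.trans e2).trans e3).trans e4).trans e5

/-- every vertex of an inner layer is joined to the layer 0 -/
theorem con0_toZero (P : Plan σ D A u v v' w ρ) (m : ℕ) : ∀ (j : ℕ) (hj : j ≤ 2 * m) (x : V),
    ∃ y, (cg σ D A v' w m none).Reachable (x, ⟨j, by omega⟩) (y, 0) := by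
  intro j
  induction j with
  | zero =>
    intro hj x
    exact ⟨x, SimpleGraph.Reachable.refl _⟩
  | succ j ih =>
    intro hj x
    rcases Nat.mod_two_eq_zero_or_one (j + 1) with h2 | h2
    · -- even layer: the gap below has type 3
      obtain ⟨s, hs, hs'⟩ := con0_down P m _ x le_rfl
      obtain ⟨y, hy⟩ := ih (by omega) s
      have e1 := hs' (j + 1) (by omega) hj
      have e2 := con0_step (σ := σ) (D := D) (A := A) (v' := v') (w := w) m (j := j)
        (by omega) s (by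
          rw [con0_gt_odd (by omega) (by omega)]
          exact hs)
      exact ⟨y, (e1.trans e2.symm).trans hy⟩
    · obtain ⟨s, hs, hs'⟩ := con0_up P m (Finset.univ.sup ρ)
        (fun x => Finset.le_sup (Finset.mem_univ x)) _ x le_rfl
      obtain ⟨y, hy⟩ := ih (by omega) s
      have e1 := hs' (j + 1) (by omega) hj
      have e2 := con0_step (σ := σ) (D := D) (A := A) (v' := v') (w := w) m (j := j)
        (by omega) s (by
          rw [con0_gt_even (by omega) (by omega)]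
          exact hs)
      exact ⟨y, (e1.trans e2.symm).trans hy⟩

/-- the three outer layers -/
def con0_phi (m : ℕ) (l : Fin 3) : Fin (2 * m + 3) :=
  if l = 0 then 0 else if l = 1 then ⟨2 * m + 1, by omega⟩ else ⟨2 * m + 2, by omega⟩

theorem con0_phi_gt (m : ℕ) (l : Fin 3) : gt m (con0_phi m l).val = l.castSucc := by
  fin_cases l
  · show gt m 0 = 0
    exact con0_gt_even (by omega) (by omega)
  · show gt m (2 * m + 1) = 1
    exact con0_gt_one m
  · show gt m (2 * m + 2) = 2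
    exact con0_gt_two m

theorem con0_phi_gt' (m : ℕ) (g : Fin 3) : gt m (con0_phi m (g + 1) - 1).val = g.castSucc := by
  rw [con0_pred_val]
  fin_cases g
  · show gt m (if (⟨2 * m + 1, by omega⟩ : Fin (2 * m + 3)) = 0 then 2 * m + 2 else 2 * m) = 0
    rw [if_neg]
    · exact con0_gt_even (by omega) (by omega)
    · intro h
      have := congrArg Fin.val h
      have h5 : ((0 : Fin (2 * m + 3)) : ℕ) = 0 := rfl
      rw [h5] at this
      simp only at this
      omega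
  · show gt m (if (⟨2 * m + 2, by omega⟩ : Fin (2 * m + 3)) = 0 then 2 * m + 2 else 2 * m + 1) = 1
    rw [if_neg]
    · exact con0_gt_one m
    · intro h
      have := congrArg Fin.val h
      have h5 : ((0 : Fin (2 * m + 3)) : ℕ) = 0 := rfl
      rw [h5] at this
      simp only at this
      omega
  · show gt m (if (0 : Fin (2 * m + 3)) = 0 then 2 * m + 2 else 0 - 1) = 2
    rw [if_pos rfl]
    exact con0_gt_two m

theorem con0_phi_two {m : ℕ} {l : Fin 3} (h : (con0_phi m l).val = 2 * m + 2) : l = 2 := by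
  fin_cases l
  · have h1 : (0 : ℕ) = 2 * m + 2 := h
    omega
  · have h1 : 2 * m + 1 = 2 * m + 2 := h
    omega
  · rfl

theorem con0_phi_zero {m : ℕ} {l : Fin 3} (h : (con0_phi m l).val = 0) : l = 0 := by
  fin_cases l
  · rfl
  · have h1 : 2 * m + 1 = 0 := h
    omega
  · have h1 : 2 * m + 2 = 0 := h
    omega

theorem con0_hor (P : Plan σ D A u v v' w ρ) (m : ℕ) {l : Fin 3} {x y : V} (hxy : x ≠ y)
    (h : hor σ D A l x y) :
    (cg σ D A v' w m none).Reachable (x, con0_phi m l) (y, con0_phi m l) := by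
  apply SimpleGraph.Adj.reachable
  refine ⟨fun h3 => hxy (congrArg Prod.fst h3), Or.inr ⟨rfl, ?_⟩⟩
  simp only
  have hnb : ∀ i ∈ D.O, ∀ z i', ¬ bort σ D A m (con0_phi m l) i z i' := by
    rintro i hi z i' ⟨_, ⟨_, h1, _⟩ | ⟨_, h1, _⟩⟩
    · exact P.base.even _ _ _ h1 hi
    · exact P.base.even _ _ _ h1 hi
  rcases h with ⟨g, i, z, hA, hl, he, hb⟩ | ⟨i, hi, he⟩ | ⟨hl, i, hi, he⟩ | ⟨hl, i, hi, he⟩
  · refine ⟨i, z, he, ?_, ?_⟩
    · rcases hl with rfl | rfl
      · left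
        rw [con0_phi_gt]
        exact Or.inl ⟨l, rfl, hA⟩
      · right; left
        rw [con0_phi_gt']
        exact Or.inl ⟨g, rfl, hA⟩
    · rintro i' ⟨hi', ⟨h1, h2, h3⟩ | ⟨h1, h2, h3⟩⟩
      · have hg := P.base.one _ _ _ _ h2 hA
        have hl2 := con0_phi_two h1
        exact hb i' ⟨hi', Or.inl ⟨hl2, hg.symm, h3⟩⟩
      · have hg := P.base.one _ _ _ _ h2 hA
        have hl2 := con0_phi_zero h1
        exact hb i' ⟨hi', Or.inr ⟨hl2, hg.symm, h3⟩⟩
  · exact ⟨i, _, he, Or.inr (Or.inr ⟨hi, Or.inl rfl⟩), hnb i hi _⟩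
  · subst hl
    exact ⟨i, _, he, Or.inr (Or.inr ⟨hi, Or.inr (Or.inl ⟨rfl, rfl⟩)⟩), hnb i hi _⟩
  · subst hl
    exact ⟨i, _, he, Or.inr (Or.inr ⟨hi, Or.inr (Or.inr ⟨rfl, rfl⟩)⟩), hnb i hi _⟩

theorem con0_nocc {g : Fin 3} {x : V} (h : ¬ occ σ D A g x) (i : C) :
    ¬ occt σ D A v' w g.castSucc i x := by
  rintro (⟨z, hz, hx⟩ | ⟨hi, hx⟩)
  · rcases hz with ⟨g', hg', hz⟩ | ⟨hg', _⟩
    · have := Fin.castSucc_injective _ hg'
      rw [this] at hz
      exact h (Or.inl ⟨i, z, hz, hx⟩)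
    · revert hg'
      fin_cases g <;> decide
  · exact h (Or.inr ⟨i, hi, hx⟩)

theorem con0_ver (P : Plan σ D A u v v' w ρ) (m : ℕ) {l : Fin 3} {x : V}
    (h : ¬ occ σ D A l x) :
    (cg σ D A v' w m none).Reachable (x, con0_phi m l) (x, con0_phi m (l + 1)) := by
  have h1 := con0_nocc (v' := v') (w := w) h
  fin_cases l
  · exact con0_through P m (x := x) h1 m le_rfl
  · exact con0_step m (j := 2 * m + 1) (by omega) x (by
      rw [con0_gt_one]
      exact h1)
  · exact con0_wrap m x (by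
      rw [con0_gt_two]
      exact h1)

theorem con0_adj (P : Plan σ D A u v v' w ρ) (m : ℕ) {p q : V × Fin 3}
    (h : (F0 σ D A).Adj p q) :
    (cg σ D A v' w m none).Reachable (p.1, con0_phi m p.2) (q.1, con0_phi m q.2) := by
  obtain ⟨hne, ⟨h1, ⟨h2, h3⟩ | ⟨h2, h3⟩⟩ | ⟨h1, h2⟩⟩ := h
  · rw [h2, ← h1]
    exact con0_ver P m h3
  · rw [h2, h1]
    exact (con0_ver P m h3).symm
  · rw [← h1]
    refine con0_hor P m (fun h => hne (Prod.ext h h1)) h2

theorem con0_reach (P : Plan σ D A u v v' w ρ) (m : ℕ) {p q : V × Fin 3}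
    (h : (F0 σ D A).Reachable p q) :
    (cg σ D A v' w m none).Reachable (p.1, con0_phi m p.2) (q.1, con0_phi m q.2) := by
  obtain ⟨W⟩ := h
  induction W with
  | nil => exact SimpleGraph.Reachable.refl _
  | cons hadj _ ih => exact (con0_adj P m hadj).trans ih

/-- block CON0: class 0 is connected -/
theorem cg_conn_none (h : HD σ) (P : Plan σ D A u v v' w ρ) (m : ℕ) :
    (cg σ D A v' w m none).Connected := by
  have hne : Nonempty V := Fintype.card_pos_iff.1 (by have := h.three; omega)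
  obtain ⟨x0⟩ := hne
  have key : ∀ p : V × Fin (2 * m + 3), (cg σ D A v' w m none).Reachable p (x0, 0) := by
    rintro ⟨x, j⟩
    have hout : ∀ (y : V) (l : Fin 3),
        (cg σ D A v' w m none).Reachable (y, con0_phi m l) (x0, 0) := fun y l =>
      con0_reach P m (P.conn.preconnected (y, l) (x0, 0))
    rcases Nat.lt_or_ge (2 * m) j.val with hj | hj
    · have hj2 := j.2
      rcases Nat.lt_or_ge (2 * m + 1) j.val with hj' | hj'
      · have : j = con0_phi m 2 := by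
          apply Fin.ext
          show j.val = 2 * m + 2
          omega
        rw [this]
        exact hout x 2
      · have : j = con0_phi m 1 := by
          apply Fin.ext
          show j.val = 2 * m + 1
          omega
        rw [this]
        exact hout x 1
    · obtain ⟨y, hy⟩ := con0_toZero P m j.val hj x
      exact hy.trans (hout y 0)
  have : Nonempty (V × Fin (2 * m + 3)) := ⟨(x0, 0)⟩
  exact ⟨fun p q => (key p).trans (key q).symm⟩

end Pool.Agent.KZ
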