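import Pool.Agent.Lib_helper15.KZF.DefsA
import Pool.Agent.Lib_helper15.KZF.DefsN
import Pool.Agent.Lib_helper15.KZF.ED

set_option autoImplicit false

namespace Pool.Agent.KZ

open Finset

section ConePerm

variable {V : Type}

/-- along an arc of a one-cycle permutation -/
theorem cone_pow (P : V → V → Prop) (hr : ∀ x, P x x) (ht : ∀ x y z, P x y → P y z → P x z)
    (f : V → V) (x : V) (s : ℕ) (h : ∀ r < s, P (f^[r] x) (f (f^[r] x))) : P x (f^[s] x) := by
  induction s with
  | zero => exact hr x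
  | succ s ih =>
    have h1 := ih (fun r hr' => h r (Nat.lt_succ_of_lt hr'))
    have h2 := h s (Nat.lt_succ_self s)
    rw [Function.iterate_succ_apply']
    exact ht _ _ _ h1 h2

theorem cone_arc (σ : Equiv.Perm V) (hσ : ∀ x y, ∃ k : ℕ, (σ ^ k) x = y) (P : V → V → Prop)
    (hr : ∀ x, P x x) (ht : ∀ x y z, P x y → P y z → P x z) (a b : V)
    (h : ∀ x, x ≠ a → x ≠ b → P x (σ x)) : P (σ a) b := by
  classical
  have hσ' : ∀ x y, ∃ k : ℕ, (σ^[k]) x = y := by
    intro x y
    obtain ⟨k, hk⟩ := hσ x y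
    refine ⟨k, ?_⟩
    rw [← hk]
    simp [Equiv.Perm.iterate_eq_pow]
  have hex := hσ' (σ a) b
  set s := Nat.find hex with hs
  have hs1 : σ^[s] (σ a) = b := Nat.find_spec hex
  have hs2 : ∀ r < s, σ^[r] (σ a) ≠ b := fun r hr' => Nat.find_min hex hr'
  have hs3 : ∀ r < s, σ^[r] (σ a) ≠ a := by
    intro r hr' hra
    have h1 : σ^[r+1] (σ a) = σ a := by
      rw [Function.iterate_succ_apply', hra]
    have h2 : σ^[s - (r+1)] (σ a) = b := by
      rw [← hs1]
      conv_lhs => rw [← h1]
      rw [← Function.iterate_add_apply]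
      congr 1
      congr 1
      omega
    exact hs2 (s - (r+1)) (by omega) h2
  have := cone_pow P hr ht σ (σ a) s (fun r hr' => h _ (hs3 r hr') (hs2 r hr'))
  rwa [hs1] at this

theorem cone_or (σ : Equiv.Perm V) (hσ : ∀ x y, ∃ k : ℕ, (σ ^ k) x = y) (P : V → V → Prop)
    (hr : ∀ x, P x x) (ht : ∀ x y z, P x y → P y z → P x z) (a b : V)
    (h : ∀ x, x ≠ a → x ≠ b → P x (σ x)) (x : V) : P x a ∨ P x b := by
  classical
  have hσ' : ∃ k : ℕ, (σ^[k]) x = a ∨ (σ^[k]) x = b := by
    obtain ⟨k, hk⟩ := hσ x a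
    refine ⟨k, Or.inl ?_⟩
    rw [← hk]
    simp [Equiv.Perm.iterate_eq_pow]
  set s := Nat.find hσ' with hs
  have hs1 : σ^[s] x = a ∨ σ^[s] x = b := Nat.find_spec hσ'
  have hs2 : ∀ r < s, ¬ (σ^[r] x = a ∨ σ^[r] x = b) := fun r hr' => Nat.find_min hσ' hr'
  have := cone_pow P hr ht σ x s (fun r hr' => h _ (fun e => hs2 r hr' (Or.inl e))
    (fun e => hs2 r hr' (Or.inr e)))
  rcases hs1 with h1 | h1
  · left; rwa [h1] at this
  · right; rwa [h1] at this

theorem cone_all (σ : Equiv.Perm V) (hσ : ∀ x y, ∃ k : ℕ, (σ ^ k) x = y) (P : V → V → Prop)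
    (hr : ∀ x, P x x) (ht : ∀ x y z, P x y → P y z → P x z)
    (h : ∀ x, P x (σ x)) (x y : V) : P x y := by
  obtain ⟨k, hk⟩ := hσ x y
  have := cone_pow P hr ht σ x k (fun r _ => h _)
  rw [← hk]
  simpa [Equiv.Perm.iterate_eq_pow] using this

end ConePerm

variable {V C : Type} [Fintype V] [DecidableEq V] [Fintype C] [DecidableEq C]
variable {σ : C → Equiv.Perm V} {D : OddD V C} {A : Finset (Sq V C)} {u v v' w : C → V} {ρ : V → ℕ}

/-- the layer `j` -/
def coneL (m j : ℕ) : Fin (2 * m + 3) := ⟨j % (2 * m + 3), Nat.mod_lt _ (by omega)⟩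

theorem coneL_val (m j : ℕ) (hj : j < 2 * m + 3) : (coneL m j).val = j :=
  Nat.mod_eq_of_lt hj

theorem coneL_succ (m j : ℕ) : coneL m (j + 1) = coneL m j + 1 := by
  apply Fin.ext
  rw [Fin.val_add]
  show (j + 1) % (2 * m + 3) = (j % (2 * m + 3) + (1 : Fin (2 * m + 3)).val) % (2 * m + 3)
  have h1 : (1 : Fin (2 * m + 3)).val = 1 := by
    rw [Fin.val_one']
    exact Nat.mod_eq_of_lt (by omega)
  rw [h1, Nat.mod_add_mod]

theorem coneL_sub (m j : ℕ) : coneL m (j + 1) - 1 = coneL m j := by
  rw [coneL_succ, add_sub_cancel_right]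

theorem coneL_wrap (m : ℕ) : coneL m (2 * m + 2 + 1) = coneL m 0 := by
  apply Fin.ext
  show (2 * m + 2 + 1) % (2 * m + 3) = 0 % (2 * m + 3)
  rw [Nat.zero_mod, show 2 * m + 2 + 1 = 2 * m + 3 by omega, Nat.mod_self]

theorem cone_V (h : HD σ) (m : ℕ) (i : C) (j : ℕ) (hj : j < 2 * m + 3)
    (x : V) (ho : occt σ D A v' w (gt m j) i x) :
    (cg σ D A v' w m (some i)).Reachable (x, coneL m j)
      (x, coneL m (j + 1)) := by
  apply SimpleGraph.Adj.reachable
  refine ⟨?_, Or.inl ⟨rfl, Or.inl ⟨coneL_succ m j, ?_⟩⟩⟩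
  · intro he
    have h2 : j % (2 * m + 3) = (j + 1) % (2 * m + 3) :=
      congrArg (fun p : V × Fin (2 * m + 3) => p.2.val) he
    rw [Nat.mod_eq_of_lt hj] at h2
    rcases Nat.lt_or_ge (j + 1) (2 * m + 3) with h3 | h3
    · rw [Nat.mod_eq_of_lt h3] at h2; omega
    · have h4 : j + 1 = 2 * m + 3 := by omega
      rw [h4, Nat.mod_self] at h2; omega
  · show vcl σ D A v' w (gt m (coneL m j).val) x (some i)
    rw [coneL_val m j hj]
    exact ho

theorem cone_H (h : HD σ) (m : ℕ) (i : C) (hi : i ∉ D.O) (j : Fin (2 * m + 3)) (z : V)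
    (h1 : ¬ sqt σ D A v' w (gt m j.val) i z) (h2 : ¬ sqt σ D A v' w (gt m (j - 1).val) i z) :
    (cg σ D A v' w m (some i)).Reachable (z, j) (σ i z, j) := by
  apply SimpleGraph.Adj.reachable
  refine ⟨?_, Or.inr ⟨rfl, i, z, rfl, Or.inl ⟨rfl, ?_⟩⟩⟩
  · intro he
    have := congrArg Prod.fst he
    exact (hd_ne h i z).1 this.symm
  · rintro (h3 | h3 | h3)
    · exact h1 h3
    · exact h2 h3
    · exact hi h3.1

theorem cg_conn_even (h : HD σ) (P : Plan σ D A u v v' w ρ) (m : ℕ) (i : C) (hi : i ∉ D.O) :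
    (cg σ D A v' w m (some i)).Connected := by
  classical
  have hne : Nonempty V := by
    have := h.three
    exact Fintype.card_pos_iff.mp (by omega)
  set G := cg σ D A v' w m (some i) with hG
  -- the special edges
  obtain ⟨z0, hz0A, hz0e, hz0u⟩ := P.m0 i hi
  obtain ⟨z1, hz1e, hz1n⟩ := P.m0' i hi
  have hz01 : z1 ≠ z0 := by
    intro he
    rw [he, hz0e] at hz1e
    exact hz1n hz1e.symm
  have hcyc := h.cyc i
  -- types
  have sq0 : ∀ z, sqt σ D A v' w 0 i z ↔ z = z0 := by
    intro z
    constructor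
    · rintro (⟨g, hg, hgA⟩ | ⟨h3, _⟩)
      · have : g = 0 := by
          have : g.castSucc = (0 : Fin 3).castSucc := by rw [hg]; rfl
          exact Fin.castSucc_injective _ this
        subst this
        exact hz0u z hgA
      · exact absurd h3 (by decide)
    · rintro rfl
      exact Or.inl ⟨0, rfl, hz0A⟩
  have sq3 : ∀ z, sqt σ D A v' w 3 i z ↔ z = z1 := by
    intro z
    constructor
    · rintro (⟨g, hg, hgA⟩ | ⟨_, _, h3⟩)
      · exfalso
        have : g.castSucc.val = 3 := by rw [hg]; rfl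
        rw [Fin.val_castSucc] at this
        omega
      · rw [← hz1e] at h3
        exact (ed_inj h h3).2
    · rintro rfl
      exact Or.inr ⟨rfl, hi, hz1e⟩
  have sq1 : ∀ z, sqt σ D A v' w 1 i z ↔ (1, i, z) ∈ A := by
    intro z
    constructor
    · rintro (⟨g, hg, hgA⟩ | ⟨h3, _⟩)
      · have : g = 1 := by
          have : g.castSucc = (1 : Fin 3).castSucc := by rw [hg]; rfl
          exact Fin.castSucc_injective _ this
        subst this
        exact hgA
      · exact absurd h3 (by decide)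
    · intro h1
      exact Or.inl ⟨1, rfl, h1⟩
  have sq2 : ∀ z, sqt σ D A v' w 2 i z ↔ (2, i, z) ∈ A := by
    intro z
    constructor
    · rintro (⟨g, hg, hgA⟩ | ⟨h3, _⟩)
      · have : g = 2 := by
          have : g.castSucc = (2 : Fin 3).castSucc := by rw [hg]; rfl
          exact Fin.castSucc_injective _ this
        subst this
        exact hgA
      · exact absurd h3 (by decide)
    · intro h1
      exact Or.inl ⟨2, rfl, h1⟩
  have gte : ∀ j, j ≤ 2 * m → j % 2 = 0 → gt m j = 0 := by
    intro j hj hj2; simp [gt, hj, hj2]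
  have gto : ∀ j, j ≤ 2 * m → j % 2 = 1 → gt m j = 3 := by
    intro j hj hj2; simp [gt, hj, hj2]
  have gt1 : gt m (2 * m + 1) = 1 := by simp [gt]
  have gt2 : gt m (2 * m + 2) = 2 := by simp [gt]
  have hR : ∀ {p q r}, G.Reachable p q → G.Reachable q r → G.Reachable p r :=
    fun h1 h2 => h1.trans h2
  -- values of casts
  have hval : ∀ j, j < 2 * m + 3 → (coneL m j).val = j := fun j hj => coneL_val m j hj
  have hval1 : ∀ j, j + 1 < 2 * m + 3 → (coneL m (j + 1) - 1).val = j := by
    intro j hj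
    rw [coneL_sub]
    exact hval j (by omega)
  have hval0 : (coneL m 0 - 1).val = 2 * m + 2 := by
    rw [← coneL_wrap, coneL_sub]
    exact hval _ (by omega)
  -- inner layers
  have Hin : ∀ j, 1 ≤ j → j ≤ 2 * m → ∀ z, z ≠ z0 → z ≠ z1 →
      G.Reachable (z, coneL m j) (σ i z, coneL m j) := by
    intro j hj1 hj2 z hz hz'
    apply cone_H h m i hi
    · rw [hval j (by omega)]
      rcases Nat.mod_two_eq_zero_or_one j with hp | hp
      · rw [gte j hj2 hp, sq0]; exact hz
      · rw [gto j hj2 hp, sq3]; exact hz'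
    · obtain ⟨j', rfl⟩ : ∃ j', j = j' + 1 := ⟨j - 1, by omega⟩
      rw [hval1 j' (by omega)]
      rcases Nat.mod_two_eq_zero_or_one j' with hp | hp
      · rw [gte j' (by omega) hp, sq0]; exact hz
      · rw [gto j' (by omega) hp, sq3]; exact hz'
  have Hin01 : ∀ j, 1 ≤ j → j ≤ 2 * m →
      G.Reachable (σ i z0, coneL m j) (z1, coneL m j) := by
    intro j hj1 hj2
    exact cone_arc (σ i) hcyc (fun x y => G.Reachable (x, coneL m j)
      (y, coneL m j)) (fun x => SimpleGraph.Reachable.refl _)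
      (fun x y z h1 h2 => h1.trans h2) z0 z1 (Hin j hj1 hj2)
  have Hin10 : ∀ j, 1 ≤ j → j ≤ 2 * m →
      G.Reachable (σ i z1, coneL m j) (z0, coneL m j) := by
    intro j hj1 hj2
    exact cone_arc (σ i) hcyc (fun x y => G.Reachable (x, coneL m j)
      (y, coneL m j)) (fun x => SimpleGraph.Reachable.refl _)
      (fun x y z h1 h2 => h1.trans h2) z1 z0 (fun z h1 h2 => Hin j hj1 hj2 z h2 h1)
  have HinOr : ∀ j, 1 ≤ j → j ≤ 2 * m → ∀ x,
      G.Reachable (x, coneL m j) (z0, coneL m j) ∨
      G.Reachable (x, coneL m j) (z1, coneL m j) := by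
    intro j hj1 hj2
    exact cone_or (σ i) hcyc (fun x y => G.Reachable (x, coneL m j)
      (y, coneL m j)) (fun x => SimpleGraph.Reachable.refl _)
      (fun x y z h1 h2 => h1.trans h2) z0 z1 (Hin j hj1 hj2)
  -- verticals
  have Vz : ∀ j, j < 2 * m + 3 → ∀ z, sqt σ D A v' w (gt m j) i z →
      G.Reachable (z, coneL m j) (z, coneL m (j + 1)) :=
    fun j hj z hz => cone_V h m i j hj z (Or.inl ⟨z, hz, Or.inl rfl⟩)
  have Vs : ∀ j, j < 2 * m + 3 → ∀ z, sqt σ D A v' w (gt m j) i z →
      G.Reachable (σ i z, coneL m j) (σ i z, coneL m (j + 1)) :=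
    fun j hj z hz => cone_V h m i j hj _ (Or.inl ⟨z, hz, Or.inr rfl⟩)
  -- ladders
  have lad0 : ∀ j, j ≤ 2 * m + 1 → G.Reachable (z0, coneL m 0)
      (z0, coneL m j) := by
    intro j
    induction j with
    | zero => intro _; exact SimpleGraph.Reachable.refl _
    | succ j ih =>
      intro hj
      refine hR (ih (by omega)) ?_
      rcases Nat.mod_two_eq_zero_or_one j with hp | hp
      · exact Vz j (by omega) z0 (by rw [gte j (by omega) hp, sq0])
      · refine hR (Hin10 j (by omega) (by omega)).symm (hR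
          (Vs j (by omega) z1 (by rw [gto j (by omega) hp, sq3])) ?_)
        exact Hin10 (j + 1) (by omega) (by omega)
  have lad1 : ∀ j, j ≤ 2 * m + 1 → G.Reachable (σ i z0, coneL m 0)
      (σ i z0, coneL m j) := by
    intro j
    induction j with
    | zero => intro _; exact SimpleGraph.Reachable.refl _
    | succ j ih =>
      intro hj
      refine hR (ih (by omega)) ?_
      rcases Nat.mod_two_eq_zero_or_one j with hp | hp
      · exact Vs j (by omega) z0 (by rw [gte j (by omega) hp, sq0])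
      · refine hR (Hin01 j (by omega) (by omega)) (hR
          (Vz j (by omega) z1 (by rw [gto j (by omega) hp, sq3])) ?_)
        exact (Hin01 (j + 1) (by omega) (by omega)).symm
  -- outer layers
  set out : Fin 3 → Fin (2 * m + 3) := fun l =>
    if l = 0 then coneL m 0 else
    if l = 1 then coneL m (2 * m + 1) else coneL m (2 * m + 2)
    with hout
  have out0 : out 0 = coneL m 0 := by simp [hout]
  have out1 : out 1 = coneL m (2 * m + 1) := by simp [hout]
  have out2 : out 2 = coneL m (2 * m + 2) := by simp [hout]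
  have h23 : coneL m (2 * m + 2 + 1) = coneL m 0 := coneL_wrap m
  have Hout : ∀ l : Fin 3, ∀ z, (l, i, z) ∉ A → (l - 1, i, z) ∉ A →
      G.Reachable (z, out l) (σ i z, out l) := by
    intro l z h1 h2
    fin_cases l
    · have h1' : ((0 : Fin 3), i, z) ∉ A := h1
      have h2' : ((2 : Fin 3), i, z) ∉ A := h2
      show G.Reachable (z, out 0) (σ i z, out 0)
      rw [out0]
      apply cone_H h m i hi
      · rw [hval 0 (by omega), gte 0 (by omega) (by omega), sq0]
        rintro rfl; exact h1' hz0A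
      · rw [hval0, gt2, sq2]; exact h2'
    · have h1' : ((1 : Fin 3), i, z) ∉ A := h1
      have h2' : ((0 : Fin 3), i, z) ∉ A := h2
      show G.Reachable (z, out 1) (σ i z, out 1)
      rw [out1]
      apply cone_H h m i hi
      · rw [hval (2 * m + 1) (by omega), gt1, sq1]; exact h1'
      · rw [hval1 (2 * m) (by omega), gte (2 * m) (by omega) (by omega), sq0]
        rintro rfl; exact h2' hz0A
    · have h1' : ((2 : Fin 3), i, z) ∉ A := h1
      have h2' : ((1 : Fin 3), i, z) ∉ A := h2
      show G.Reachable (z, out 2) (σ i z, out 2)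
      rw [out2]
      apply cone_H h m i hi
      · rw [hval (2 * m + 2) (by omega), gt2, sq2]; exact h1'
      · rw [hval1 (2 * m + 1) (by omega), gt1, sq1]; exact h2'
  have Vout : ∀ g : Fin 3, ∀ z, (g, i, z) ∈ A →
      G.Reachable (z, out g) (z, out (g + 1)) ∧
      G.Reachable (σ i z, out g) (σ i z, out (g + 1)) := by
    intro g z hz
    fin_cases g
    · have hz' : ((0 : Fin 3), i, z) ∈ A := hz
      have hzz : z = z0 := hz0u z hz'
      subst hzz
      show G.Reachable (z, out 0) (z, out 1) ∧ G.Reachable (σ i z, out 0) (σ i z, out 1)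
      rw [out0, out1]
      exact ⟨lad0 _ le_rfl, lad1 _ le_rfl⟩
    · have hz' : ((1 : Fin 3), i, z) ∈ A := hz
      show G.Reachable (z, out 1) (z, out 2) ∧ G.Reachable (σ i z, out 1) (σ i z, out 2)
      rw [out1, out2]
      exact ⟨Vz (2 * m + 1) (by omega) z (by rw [gt1, sq1]; exact hz'),
        Vs (2 * m + 1) (by omega) z (by rw [gt1, sq1]; exact hz')⟩
    · have hz' : ((2 : Fin 3), i, z) ∈ A := hz
      show G.Reachable (z, out 2) (z, out 0) ∧ G.Reachable (σ i z, out 2) (σ i z, out 0)
      rw [out2, out0, ← h23]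
      exact ⟨Vz (2 * m + 2) (by omega) z (by rw [gt2, sq2]; exact hz'),
        Vs (2 * m + 2) (by omega) z (by rw [gt2, sq2]; exact hz')⟩
  -- the three outer copies of a vertex
  have gap : ∀ x, ∃ g g' : Fin 3, g ≠ g' ∧ G.Reachable (x, out g) (x, out (g + 1)) ∧
      G.Reachable (x, out g') (x, out (g' + 1)) := by
    intro x
    obtain ⟨s, t, g, g', hgg, hs1, hs2, ht1, ht2⟩ := P.word i hi x
    refine ⟨g, g', hgg, ?_, ?_⟩
    · have hp : ∀ l, G.Reachable (x, out l) ((σ i ^ s) x, out l) := by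
        intro l
        have := cone_pow (fun a b => G.Reachable (a, out l) (b, out l))
          (fun x => SimpleGraph.Reachable.refl _) (fun x y z h1 h2 => h1.trans h2) (σ i) x s
          (fun r hr => by
            apply Hout
            · rw [Equiv.Perm.iterate_eq_pow]; exact hs2 r hr l
            · rw [Equiv.Perm.iterate_eq_pow]; exact hs2 r hr (l - 1))
        rwa [Equiv.Perm.iterate_eq_pow] at this
      exact hR (hp g) (hR (Vout g _ hs1).1 (hp (g + 1)).symm)
    · have key : ∀ r, r ≤ t → ∀ l, G.Reachable (((σ i)⁻¹ ^ r) x, out l) (x, out l) := by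
        intro r
        induction r with
        | zero => intro _ l; exact SimpleGraph.Reachable.refl _
        | succ r ih =>
          intro hr l
          have h1 := Hout l (((σ i)⁻¹ ^ (r + 1)) x) (ht2 r (by omega) l) (ht2 r (by omega) (l - 1))
          have h2 : σ i (((σ i)⁻¹ ^ (r + 1)) x) = ((σ i)⁻¹ ^ r) x := by
            rw [pow_succ', Equiv.Perm.mul_apply]; exact (σ i).apply_symm_apply _
          rw [h2] at h1
          exact hR h1 (ih (by omega) l)
      have h1 := (Vout g' _ ht1).2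
      have h2 : σ i (((σ i)⁻¹ ^ (t + 1)) x) = ((σ i)⁻¹ ^ t) x := by
        rw [pow_succ', Equiv.Perm.mul_apply]; exact (σ i).apply_symm_apply _
      rw [h2] at h1
      exact hR (key t le_rfl g').symm (hR h1 (key t le_rfl (g' + 1)))
  have copies : ∀ x, ∀ l l' : Fin 3, G.Reachable (x, out l) (x, out l') := by
    intro x
    obtain ⟨g, g', hgg, h1, h2⟩ := gap x
    have h01 : G.Reachable (x, out 0) (x, out 1) ∧ G.Reachable (x, out 1) (x, out 2) := by
      fin_cases g <;> fin_cases g' <;> simp only [Fin.zero_eta, Fin.mk_one, Fin.reduceFinMk,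
        Fin.isValue, ne_eq, not_true_eq_false, zero_add] at hgg h1 h2
      · exact ⟨h1, h2⟩
      · exact ⟨h1, (hR h2 h1).symm⟩
      · exact ⟨h2, h1⟩
      · exact ⟨(hR h1 h2).symm, h1⟩
      · exact ⟨h2, (hR h1 h2).symm⟩
      · exact ⟨(hR h2 h1).symm, h2⟩
    have h02 := hR h01.1 h01.2
    intro l l'
    fin_cases l <;> fin_cases l'
    · exact SimpleGraph.Reachable.refl _
    · exact h01.1
    · exact h02
    · exact h01.1.symm
    · exact SimpleGraph.Reachable.refl _
    · exact h01.2
    · exact h02.symm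
    · exact h01.2.symm
    · exact SimpleGraph.Reachable.refl _
  have step : ∀ x, G.Reachable (x, out 0) (σ i x, out 0) := by
    intro x
    have : ∃ l : Fin 3, (l, i, x) ∉ A ∧ (l - 1, i, x) ∉ A := by
      by_cases h0 : ((0 : Fin 3), i, x) ∈ A
      · refine ⟨2, fun h2 => ?_, fun h2 => ?_⟩
        · exact absurd (P.base.one _ _ _ _ h0 h2) (by decide)
        · exact absurd (P.base.one _ _ _ _ h0 h2) (by decide)
      · by_cases h1 : ((1 : Fin 3), i, x) ∈ A
        · refine ⟨0, h0, fun h2 => ?_⟩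
          exact absurd (P.base.one _ _ _ _ h1 h2) (by decide)
        · exact ⟨1, h1, h0⟩
    obtain ⟨l, hl1, hl2⟩ := this
    exact hR (copies x 0 l) (hR (Hout l x hl1 hl2) (copies (σ i x) l 0))
  have base : ∀ x y, G.Reachable (x, out 0) (y, out 0) := by
    intro x y
    exact cone_all (σ i) hcyc (fun a b => G.Reachable (a, out 0) (b, out 0))
      (fun x => SimpleGraph.Reachable.refl _) (fun x y z h1 h2 => h1.trans h2) step x y
  -- every vertex reaches the layer 0
  obtain ⟨x0⟩ := hne
  have all : ∀ p : V × Fin (2 * m + 3), G.Reachable p (x0, out 0) := by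
    rintro ⟨x, j⟩
    have hj : j = coneL m j.val := Fin.ext (coneL_val m j.val j.isLt).symm
    rcases Nat.lt_or_ge 0 j.val with h0 | h0
    · rcases Nat.lt_or_ge (2 * m) j.val with h1 | h1
      · have h2 : j.val = 2 * m + 1 ∨ j.val = 2 * m + 2 := by
          have := j.isLt; omega
        rcases h2 with h2 | h2
        · rw [hj, h2, ← out1]
          exact hR (copies x 1 0) (base x x0)
        · rw [hj, h2, ← out2]
          exact hR (copies x 2 0) (base x x0)
      · rw [hj]
        rcases HinOr j.val (by omega) h1 x with h3 | h3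
        · refine hR h3 (hR (lad0 j.val (by omega)).symm ?_)
          rw [← out0]
          exact base z0 x0
        · refine hR h3 (hR (Hin01 j.val (by omega) h1).symm (hR (lad1 j.val (by omega)).symm ?_))
          rw [← out0]
          exact base _ x0
    · have h1 : j.val = 0 := by omega
      rw [hj, h1, ← out0]
      exact base x x0
  haveI : Nonempty (V × Fin (2 * m + 3)) := ⟨(x0, 0)⟩
  exact ⟨fun p q => (all p).trans (all q).symm⟩

end Pool.Agent.KZ
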