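import Pool.Agent.Lib_helper15.KZF.DefsA
import Pool.Agent.Lib_helper15.KZF.DefsN
import Pool.Agent.Lib_helper15.KZF.ED

/-! KZ block CONO: odd classes are connected -/

set_option autoImplicit false

namespace Pool.Agent.KZ

open Finset

variable {V C : Type} [Fintype V] [DecidableEq V] [Fintype C] [DecidableEq C]
variable {σ : C → Equiv.Perm V} {D : OddD V C} {A : Finset (Sq V C)} {u v v' w : C → V} {ρ : V → ℕ}

/-- the first visit of a set -/
theorem cono_first (h : HD σ) (i : C) (x : V) (P : V → Prop) (hP : ∃ y, P y) :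
    ∃ r : ℕ, P ((σ i ^ r) x) ∧ ∀ s < r, ¬ P ((σ i ^ s) x) := by
  classical
  obtain ⟨y, hy⟩ := hP
  obtain ⟨k, hk⟩ := h.cyc i x y
  have hex : ∃ r : ℕ, P ((σ i ^ r) x) := ⟨k, by rw [hk]; exact hy⟩
  exact ⟨Nat.find hex, Nat.find_spec hex, fun s hs => Nat.find_min hex hs⟩

/-- from `σ a` one reaches `y` without leaving `a` or `y` on the way -/
theorem cono_seg (h : HD σ) (i : C) (a y : V) :
    ∃ r : ℕ, (σ i ^ r) (σ i a) = y ∧ ∀ s < r, (σ i ^ s) (σ i a) ≠ a ∧ (σ i ^ s) (σ i a) ≠ y := by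
  obtain ⟨r, hr, hmin⟩ := cono_first h i (σ i a) (fun z => z = y) ⟨y, rfl⟩
  refine ⟨r, hr, fun s hs => ⟨fun hsa => ?_, hmin s hs⟩⟩
  have h1 : (σ i ^ (r - s - 1)) (σ i a) = y := by
    have h2 : r = (r - s - 1) + (1 + s) := by omega
    rw [h2, pow_add, Equiv.Perm.mul_apply, pow_add, Equiv.Perm.mul_apply, hsa, pow_one] at hr
    exact hr
  exact hmin (r - s - 1) (by omega) h1

theorem cono_rele (P : Plan σ D A u v v' w ρ) {m : ℕ} {i : C} (hi : i ∈ D.O)
    (j : Fin (2 * m + 3)) (z : V) : rele σ D A v' w m j i z ↔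
      (z = D.b i ∨ (j.val = 2 * m + 2 ∧ z = (σ i)⁻¹ (D.bt i)) ∨ (j.val = 0 ∧ z = D.bt i)) := by
  have hsq : ∀ t : Fin 4, ¬ sqt σ D A v' w t i z := by
    intro t ht
    rcases ht with ⟨g, _, hg⟩ | ⟨_, hni, _⟩
    · exact P.base.even g i z hg hi
    · exact hni hi
  unfold rele
  constructor
  · rintro (h1 | h1 | ⟨_, h1⟩)
    · exact absurd h1 (hsq _)
    · exact absurd h1 (hsq _)
    · exact h1
  · intro h1
    exact Or.inr (Or.inr ⟨hi, h1⟩)

theorem cono_step (h : HD σ) {m : ℕ} {i : C} {j : Fin (2 * m + 3)} {z : V}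
    (hz : ¬ rele σ D A v' w m j i z) : (cg σ D A v' w m (some i)).Adj (z, j) (σ i z, j) := by
  refine ⟨?_, Or.inr ⟨rfl, i, z, rfl, Or.inl ⟨rfl, hz⟩⟩⟩
  intro he
  have h1 : z = σ i z := congrArg Prod.fst he
  exact (hd_ne h i z).1 h1.symm

theorem cono_path (h : HD σ) {m : ℕ} {i : C} {j : Fin (2 * m + 3)} (x : V) (r : ℕ)
    (hr : ∀ s < r, ¬ rele σ D A v' w m j i ((σ i ^ s) x)) :
    (cg σ D A v' w m (some i)).Reachable (x, j) ((σ i ^ r) x, j) := by
  induction r with
  | zero => exact SimpleGraph.Reachable.refl _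
  | succ r ih =>
    have h1 := ih (fun s hs => hr s (by omega))
    have h2 := cono_step h (hr r (by omega))
    have h3 : (σ i ^ (r + 1)) x = σ i ((σ i ^ r) x) := by
      rw [pow_succ', Equiv.Perm.mul_apply]
    rw [h3]
    exact h1.trans h2.reachable

theorem cono_vert {m : ℕ} {i : C} (hi : i ∈ D.O) (j : Fin (2 * m + 3)) :
    (cg σ D A v' w m (some i)).Adj (tok σ D (gt m j.val) i, j) (tok σ D (gt m j.val) i, j + 1) := by
  refine ⟨?_, Or.inl ⟨rfl, Or.inl ⟨rfl, Or.inr ⟨hi, rfl⟩⟩⟩⟩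
  intro he
  have h1 : j = j + 1 := congrArg Prod.snd he
  have h2 : (1 : Fin (2 * m + 3)) = 0 := by
    have h3 : j + 0 = j + 1 := by rw [add_zero]; exact h1
    exact (add_left_cancel h3).symm
  have h4 : 1 % (2 * m + 3) = 0 := congrArg Fin.val h2
  rw [Nat.mod_eq_of_lt (by omega)] at h4
  exact one_ne_zero h4

/-- every vertex of the layer is connected with `b` -/
theorem cono_layer (h : HD σ) (P : Plan σ D A u v v' w ρ) {m : ℕ} {i : C} (hi : i ∈ D.O)
    (j : Fin (2 * m + 3)) (x : V) :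
    (cg σ D A v' w m (some i)).Reachable (x, j) (D.b i, j) := by
  by_cases h2 : j.val = 2 * m + 2
  · -- last layer
    have hne : (D.b i : V) ≠ (σ i)⁻¹ (D.bt i) := by
      obtain ⟨p, z, _, hz⟩ := P.base.helpb i hi
      intro heq
      rw [← heq] at hz
      have h3 : z = D.b i ∧ σ p z = D.b i := by
        have := Sym2.eq_iff.1 hz
        rcases this with h3 | h3 <;> exact h3
      exact (hd_ne h p z).1 (h3.2.trans h3.1.symm)
    have hadj : (cg σ D A v' w m (some i)).Adj (D.b i, j) ((σ i)⁻¹ (D.bt i), j) := by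
      obtain ⟨p, z, hA, hz⟩ := P.base.helpb i hi
      refine ⟨fun he => hne (congrArg Prod.fst he), Or.inr ⟨rfl, p, z, hz.symm, Or.inr ⟨hi, ?_⟩⟩⟩
      exact Or.inl ⟨h2, hA, hz⟩
    obtain ⟨r, hr, hmin⟩ := cono_first h i x
      (fun z => z = D.b i ∨ z = (σ i)⁻¹ (D.bt i)) ⟨D.b i, Or.inl rfl⟩
    have hp := cono_path (D := D) (A := A) (v' := v') (w := w) h (m := m) (j := j) x r (fun s hs => by
      rw [cono_rele P hi]
      rintro (h3 | h3 | h3)
      · exact hmin s hs (Or.inl h3)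
      · exact hmin s hs (Or.inr h3.2)
      · omega)
    rcases hr with hr | hr
    · rw [hr] at hp
      exact hp
    · rw [hr] at hp
      exact hp.trans hadj.symm.reachable
  by_cases h0 : j.val = 0
  · -- layer 0
    have hrel : ∀ z : V, z ≠ D.b i → z ≠ D.bt i → ¬ rele σ D A v' w m j i z := by
      intro z hz1 hz2
      rw [cono_rele P hi]
      rintro (h3 | h3 | h3)
      · exact hz1 h3
      · omega
      · exact hz2 h3.2
    have hne : (σ i (D.b i) : V) ≠ σ i (D.bt i) := by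
      obtain ⟨p, z, _, hz⟩ := P.base.helpc i hi
      intro heq
      rw [← heq] at hz
      have h3 : z = σ i (D.b i) ∧ σ p z = σ i (D.b i) := by
        have := Sym2.eq_iff.1 hz
        rcases this with h3 | h3 <;> exact h3
      exact (hd_ne h p z).1 (h3.2.trans h3.1.symm)
    have hadj : (cg σ D A v' w m (some i)).Adj (σ i (D.b i), j) (σ i (D.bt i), j) := by
      obtain ⟨p, z, hA, hz⟩ := P.base.helpc i hi
      refine ⟨fun he => hne (congrArg Prod.fst he), Or.inr ⟨rfl, p, z, hz.symm, Or.inr ⟨hi, ?_⟩⟩⟩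
      exact Or.inr ⟨h0, hA, hz⟩
    -- `c` reaches `β`
    have hcb : (cg σ D A v' w m (some i)).Reachable (σ i (D.b i), j) (D.bt i, j) := by
      obtain ⟨r, hr, hmin⟩ := cono_seg h i (D.b i) (D.bt i)
      have hp := cono_path (D := D) (A := A) (v' := v') (w := w) h (m := m) (j := j) (σ i (D.b i)) r
        (fun s hs => hrel _ (hmin s hs).1 (hmin s hs).2)
      rw [hr] at hp
      exact hp
    have hbb : (cg σ D A v' w m (some i)).Reachable (σ i (D.bt i), j) (D.b i, j) := by
      obtain ⟨r, hr, hmin⟩ := cono_seg h i (D.bt i) (D.b i)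
      have hp := cono_path (D := D) (A := A) (v' := v') (w := w) h (m := m) (j := j) (σ i (D.bt i)) r
        (fun s hs => hrel _ (hmin s hs).2 (hmin s hs).1)
      rw [hr] at hp
      exact hp
    have hbtb : (cg σ D A v' w m (some i)).Reachable (D.bt i, j) (D.b i, j) :=
      hcb.symm.trans (hadj.reachable.trans hbb)
    obtain ⟨r, hr, hmin⟩ := cono_first h i x
      (fun z => z = D.b i ∨ z = D.bt i) ⟨D.b i, Or.inl rfl⟩
    have hp := cono_path (D := D) (A := A) (v' := v') (w := w) h (m := m) (j := j) x r (fun s hs =>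
      hrel _ (fun h3 => hmin s hs (Or.inl h3)) (fun h3 => hmin s hs (Or.inr h3)))
    rcases hr with hr | hr
    · rw [hr] at hp
      exact hp
    · rw [hr] at hp
      exact hp.trans hbtb
  · obtain ⟨r, hr, hmin⟩ := cono_first h i x (fun z => z = D.b i) ⟨D.b i, rfl⟩
    have hp := cono_path (D := D) (A := A) (v' := v') (w := w) h (m := m) (j := j) x r (fun s hs => by
      rw [cono_rele P hi]
      rintro (h3 | h3 | h3)
      · exact hmin s hs h3
      · exact h2 h3.1
      · exact h0 h3.1)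
    rw [hr] at hp
    exact hp

/-- block CONO: odd classes are connected -/
theorem cg_conn_odd (h : HD σ) (P : Plan σ D A u v v' w ρ) (m : ℕ) (i : C) (hi : i ∈ D.O) :
    (cg σ D A v' w m (some i)).Connected := by
  have hl := cono_layer h P (m := m) hi
  have hstep : ∀ j : Fin (2 * m + 3),
      (cg σ D A v' w m (some i)).Reachable (D.b i, j) (D.b i, j + 1) := fun j =>
    (hl j (tok σ D (gt m j.val) i)).symm.trans
      ((cono_vert hi j).reachable.trans (hl (j + 1) (tok σ D (gt m j.val) i)))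
  have hall : ∀ (n : ℕ) (hn : n < 2 * m + 3), (cg σ D A v' w m (some i)).Reachable (D.b i, 0)
      (D.b i, ⟨n, hn⟩) := by
    intro n
    induction n with
    | zero => intro hn; exact SimpleGraph.Reachable.refl _
    | succ n ih =>
      intro hn
      have h1 := (ih (by omega)).trans (hstep ⟨n, by omega⟩)
      have h2 : (⟨n, by omega⟩ + 1 : Fin (2 * m + 3)) = ⟨n + 1, hn⟩ := by
        apply Fin.ext
        show (n + 1 % (2 * m + 3)) % (2 * m + 3) = n + 1
        rw [Nat.mod_eq_of_lt (by omega : 1 < 2 * m + 3), Nat.mod_eq_of_lt hn]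
      rw [h2] at h1
      exact h1
  have hone : ∀ q : V × Fin (2 * m + 3),
      (cg σ D A v' w m (some i)).Reachable (D.b i, 0) q := by
    rintro ⟨x, j⟩
    exact (hall j.val j.isLt).trans (hl j x).symm
  have : Nonempty (V × Fin (2 * m + 3)) := ⟨(D.b i, 0)⟩
  exact ⟨fun p q => (hone p).symm.trans (hone q)⟩

end Pool.Agent.KZ
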