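import Pool.Agent.Lib_helper15.KZF.DefsA
import Pool.Agent.Lib_helper15.KZF.DefsN

set_option autoImplicit false

namespace Pool.Agent.KZ

open Finset

section General

variable {U : Type} [Fintype U] [DecidableEq U]

/-- block HC: a finite connected 2-regular graph is a Hamiltonian cycle -/
theorem ham_of_deg2 (F G : SimpleGraph U) (hFG : F ≤ G) (h2 : Deg2 F) (hc : F.Connected) :
    ∃ (a : U) (c : G.Walk a a), c.IsHamiltonianCycle ∧ ∀ e, e ∈ c.edges ↔ e ∈ F.edgeSet := by
  classical
  have hcyc : F.IsCycles := fun v _ => h2 v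
  obtain ⟨v⟩ := hc.nonempty
  have hn : (F.neighborSet v).Nonempty := by
    apply Set.nonempty_of_ncard_ne_zero
    rw [h2 v]; norm_num
  obtain ⟨p, hp, hs⟩ := hcyc.exists_cycle_toSubgraph_verts_eq_connectedComponentSupp
    (c := F.connectedComponentMk v) rfl hn
  have hall : ∀ w, w ∈ p.support := by
    intro w
    rw [← p.mem_verts_toSubgraph, hs, SimpleGraph.ConnectedComponent.mem_supp_iff]
    exact SimpleGraph.ConnectedComponent.eq.2 (hc.preconnected w v)
  have hcount : ∀ w, p.support.tail.count w = 1 := by
    intro w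
    apply List.count_eq_one_of_mem hp.support_nodup
    have hw := hall w
    by_cases hwv : w = v
    · subst hwv
      exact p.end_mem_tail_support hp.not_nil
    · rw [SimpleGraph.Walk.mem_support_iff] at hw
      exact hw.resolve_left hwv
  have hham : p.IsHamiltonianCycle :=
    SimpleGraph.Walk.isHamiltonianCycle_iff_isCycle_and_support_count_tail_eq_one.2 ⟨hp, hcount⟩
  refine ⟨v, p.map (SimpleGraph.Hom.ofLE hFG), ?_, ?_⟩
  · exact hham.map (f := SimpleGraph.Hom.ofLE hFG) Function.bijective_id
  · intro e
    rw [SimpleGraph.Walk.edges_map]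
    have hid : p.edges.map (Sym2.map (SimpleGraph.Hom.ofLE hFG)) = p.edges := by
      have : Sym2.map (SimpleGraph.Hom.ofLE hFG) = id := by
        funext e
        induction e with
        | _ x y => rfl
      rw [this, List.map_id]
    rw [hid]
    induction e with
    | _ x y =>
      rw [SimpleGraph.mem_edgeSet, ← SimpleGraph.Walk.adj_toSubgraph_iff_mem_edges]
      exact hp.adj_toSubgraph_iff_of_isCycles hcyc
        (by rw [SimpleGraph.Walk.mem_verts_toSubgraph]; exact hall x) y

end General

end Pool.Agent.KZ
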