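import Pool.Agent.Lib_helper15.KZF.DefsA
import Pool.Agent.Lib_helper15.KZF.DefsN
import Pool.Agent.Lib_helper15.KZF.ED

set_option autoImplicit false
set_option linter.unusedSectionVars false
set_option linter.unusedVariables false

namespace Pool.Agent.KZ

open Finset

variable {V C : Type} [Fintype V] [DecidableEq V] [Fintype C] [DecidableEq C]
variable {σ : C → Equiv.Perm V} {D : OddD V C} {A : Finset (Sq V C)} {u v v' w : C → V} {ρ : V → ℕ}

theorem cg_le (h : HD σ) (P : Plan σ D A u v v' w ρ) (m : ℕ) (c : Option C) :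
    cg σ D A v' w m c ≤ prodG σ (2 * m + 3) := by
  intro p q hpq
  obtain ⟨h0, h1⟩ := hpq
  refine ⟨h0, ?_⟩
  rcases h1 with ⟨h1, h2⟩ | ⟨h1, i, z, h2, _⟩
  · left
    refine ⟨h1, ?_⟩
    rcases h2 with h2 | h2
    · exact Or.inl h2.1
    · exact Or.inr h2.1
  · exact Or.inr ⟨h1, i, z, h2⟩

/-- the squares of type `t ≠ 3` -/
theorem parti_sqt {t : Fin 4} {i : C} {z : V} (h : sqt σ D A v' w t i z) :
    (∃ g : Fin 3, g.castSucc = t ∧ (g, i, z) ∈ A) ∨
      (t = 3 ∧ i ∉ D.O ∧ ed σ i z = s(v' i, w i)) := h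

theorem parti_cast_ne (g : Fin 3) : g.castSucc ≠ (3 : Fin 4) := by
  revert g; decide

theorem parti_occt (h : HD σ) (P : Plan σ D A u v v' w ρ) (t : Fin 4) (x : V) (i i' : C)
    (h1 : occt σ D A v' w t i x) (h2 : occt σ D A v' w t i' x) : i = i' := by
  have B := P.base
  by_contra hne
  have hsq3 : ∀ (i : C) (z : V), t = 3 → ed σ i z = s(v' i, w i) → (x = z ∨ x = σ i z) →
      x = v' i ∨ x = w i := by
    intro i z _ he hx
    have : x ∈ ed σ i z := by
      unfold ed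
      rw [Sym2.mem_iff]; exact hx
    rw [he, Sym2.mem_iff] at this
    exact this
  -- a square and a token of different colours
  have hst : ∀ (i i' : C) (z : V), sqt σ D A v' w t i z → (x = z ∨ x = σ i z) → i' ∈ D.O →
      x = tok σ D t i' → False := by
    intro i i' z hs hx hi' hx'
    rcases hs with ⟨g, hg, hA⟩ | ⟨ht, hO, he⟩
    · apply B.tokcov g i' hi'
      rw [hg, ← hx']
      exact ⟨i, z, hA, hx⟩
    · have h3 := hsq3 i z ht he hx
      have h4 : x = σ i' (D.b i') := by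
        rw [hx', ht]; unfold tok
        rw [if_neg (by decide), if_neg (by decide)]
      rcases h3 with h3 | h3
      · exact (P.tok' i' hi' i hO).1 (by rw [← h4, h3])
      · exact (P.tok' i' hi' i hO).2 (by rw [← h4, h3])
  rcases h1 with ⟨z, hs, hx⟩ | ⟨hO, hx⟩
  · rcases h2 with ⟨z', hs', hx'⟩ | ⟨hO', hx'⟩
    · rcases hs with ⟨g, hg, hA⟩ | ⟨ht, hO, he⟩
      · rcases hs' with ⟨g', hg', hA'⟩ | ⟨ht, _, _⟩
        · have hgg : g = g' := by
            apply Fin.castSucc_injective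
            rw [hg, hg']
          subst hgg
          have hd := B.sep g i z i' z' hA hA' (fun h => hne (Prod.mk.inj h).1)
          rw [Finset.disjoint_left] at hd
          apply hd (a := x)
          · rw [mem_insert, mem_singleton]; exact hx
          · rw [mem_insert, mem_singleton]; exact hx'
        · exact parti_cast_ne g (hg.trans ht)
      · rcases hs' with ⟨g', hg', _⟩ | ⟨_, hO', he'⟩
        · exact parti_cast_ne g' (hg'.trans ht)
        · have hd := P.sep' i hO i' hO' hne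
          rw [Finset.disjoint_left] at hd
          apply hd (a := x)
          · rw [mem_insert, mem_singleton]; exact hsq3 i z ht he hx
          · rw [mem_insert, mem_singleton]; exact hsq3 i' z' ht he' hx'
    · exact hst i i' z hs hx hO' hx'
  · rcases h2 with ⟨z', hs', hx'⟩ | ⟨hO', hx'⟩
    · exact hst i' i z' hs' hx' hO hx
    · exact hne (B.tokinj t i hO i' hO' (by rw [← hx, ← hx']))

theorem parti_vcl (h : HD σ) (P : Plan σ D A u v v' w ρ) (t : Fin 4) (x : V) :
    ∃! c : Option C, vcl σ D A v' w t x c := by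
  by_cases hex : ∃ i, occt σ D A v' w t i x
  · obtain ⟨i, hi⟩ := hex
    refine ⟨some i, hi, ?_⟩
    rintro (_ | i') hc
    · exact absurd hi (hc i)
    · rw [parti_occt h P t x i' i hc hi]
  · push Not at hex
    refine ⟨none, hex, ?_⟩
    rintro (_ | i') hc
    · rfl
    · exact absurd hc (hex i')

theorem parti_bort_rele (m : ℕ) (j : Fin (2 * m + 3)) (i : C) (z : V) (i' : C)
    (hb : bort σ D A m j i z i') : rele σ D A v' w m j i z := by
  obtain ⟨_, h1 | h1⟩ := hb
  · obtain ⟨hj, hA, _⟩ := h1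
    right; left
    have h2 : (j - 1).val = 2 * m + 1 := by
      have h3 : j ≠ 0 := by
        intro h0; rw [h0] at hj; simp at hj
      have := Fin.val_sub_one_of_ne_zero h3
      omega
    left
    refine ⟨1, ?_, hA⟩
    rw [h2]; unfold gt
    rw [if_neg (by omega), if_pos rfl]; rfl
  · obtain ⟨hj, hA, _⟩ := h1
    right; left
    have h2 : (j - 1).val = 2 * m + 2 := by
      have h3 : j = 0 := Fin.ext hj
      rw [h3]
      rw [Fin.coe_sub_one, if_pos rfl]
    left
    refine ⟨2, ?_, hA⟩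
    rw [h2]; unfold gt
    rw [if_neg (by omega), if_neg (by omega)]; rfl

theorem parti_bort_unique (P : Plan σ D A u v v' w ρ) (m : ℕ) (j : Fin (2 * m + 3)) (i : C)
    (z : V) (i1 i2 : C) (h1 : bort σ D A m j i z i1) (h2 : bort σ D A m j i z i2) : i1 = i2 := by
  have B := P.base
  by_contra hne
  obtain ⟨hO1, h1⟩ := h1
  obtain ⟨hO2, h2⟩ := h2
  have hd := B.five i1 hO1 i2 hO2 hne
  rw [Finset.disjoint_left] at hd
  rcases h1 with ⟨hj, _, he1⟩ | ⟨hj, _, he1⟩
  · rcases h2 with ⟨_, _, he2⟩ | ⟨hj2, _, _⟩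
    · rw [he1] at he2
      have h3 : D.b i1 ∈ s(D.b i2, (σ i2)⁻¹ (D.bt i2)) := by
        rw [← he2]; exact Sym2.mem_mk_left _ _
      rw [Sym2.mem_iff] at h3
      apply hd (a := D.b i1) (by simp)
      rcases h3 with h3 | h3 <;> rw [h3] <;> simp
    · omega
  · rcases h2 with ⟨hj2, _, _⟩ | ⟨_, _, he2⟩
    · omega
    · rw [he1] at he2
      have h3 : σ i1 (D.b i1) ∈ s(σ i2 (D.b i2), σ i2 (D.bt i2)) := by
        rw [← he2]; exact Sym2.mem_mk_left _ _
      rw [Sym2.mem_iff] at h3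
      apply hd (a := σ i1 (D.b i1)) (by simp)
      rcases h3 with h3 | h3 <;> rw [h3] <;> simp

theorem parti_hcl (P : Plan σ D A u v v' w ρ) (m : ℕ) (j : Fin (2 * m + 3)) (i : C) (z : V) :
    ∃! c : Option C, hcl σ D A v' w m j i z c := by
  by_cases hr : rele σ D A v' w m j i z
  · by_cases hb : ∃ i', bort σ D A m j i z i'
    · obtain ⟨i', hi'⟩ := hb
      refine ⟨some i', Or.inr hi', ?_⟩
      rintro (_ | i'') hc
      · exact absurd hi' (hc.2 i')
      · rcases hc with ⟨_, hc⟩ | hc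
        · exact absurd hr hc
        · rw [parti_bort_unique P m j i z i'' i' hc hi']
    · push Not at hb
      refine ⟨none, ⟨hr, hb⟩, ?_⟩
      rintro (_ | i'') hc
      · rfl
      · rcases hc with ⟨_, hc⟩ | hc
        · exact absurd hr hc
        · exact absurd hc (hb i'')
  · refine ⟨some i, Or.inl ⟨rfl, hr⟩, ?_⟩
    rintro (_ | i'') hc
    · exact absurd hc.1 hr
    · rcases hc with ⟨hc, _⟩ | hc
      · rw [hc]
      · exact absurd (parti_bort_rele m j i z i'' hc) hr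

theorem parti_fin {m : ℕ} {a b : Fin (2 * m + 3)} (h1 : b = a + 1) (h2 : a = b + 1) : False := by
  rw [h1] at h2
  have h3 : (1 : Fin (2 * m + 3)) + 1 = 0 := by
    have : a + (1 + 1) = a + 0 := by rw [add_zero, ← add_assoc]; exact h2.symm
    exact add_left_cancel this
  have h4 := congrArg Fin.val h3
  rw [Fin.val_add, Fin.val_one] at h4
  have h5 : (1 + 1) % (2 * m + 3) = 2 := Nat.mod_eq_of_lt (by omega)
  rw [h5] at h4
  simp at h4

theorem cg_part (h : HD σ) (P : Plan σ D A u v v' w ρ) (m : ℕ) (p q : V × Fin (2 * m + 3))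
    (hpq : (prodG σ (2 * m + 3)).Adj p q) : ∃! c : Option C, (cg σ D A v' w m c).Adj p q := by
  obtain ⟨h0, h1⟩ := hpq
  rcases h1 with ⟨h1, h2⟩ | ⟨h1, i, z, h2⟩
  · have hno : p.2 ≠ q.2 := fun h => h0 (Prod.ext h1 h)
    rcases h2 with h2 | h2
    · obtain ⟨c, hc, hu⟩ := parti_vcl h P (gt m p.2.val) p.1
      refine ⟨c, ⟨h0, Or.inl ⟨h1, Or.inl ⟨h2, hc⟩⟩⟩, ?_⟩
      rintro c' ⟨_, ⟨_, ⟨_, hc'⟩ | ⟨h3, _⟩⟩ | ⟨h3, _⟩⟩
      · exact hu c' hc'
      · exact (parti_fin h2 h3).elim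
      · exact absurd h3 hno
    · obtain ⟨c, hc, hu⟩ := parti_vcl h P (gt m q.2.val) q.1
      refine ⟨c, ⟨h0, Or.inl ⟨h1, Or.inr ⟨h2, hc⟩⟩⟩, ?_⟩
      rintro c' ⟨_, ⟨_, ⟨h3, _⟩ | ⟨_, hc'⟩⟩ | ⟨h3, _⟩⟩
      · exact (parti_fin h3 h2).elim
      · exact hu c' hc'
      · exact absurd h3 hno
  · have hno : p.1 ≠ q.1 := fun h => h0 (Prod.ext h h1)
    obtain ⟨c, hc, hu⟩ := parti_hcl P m p.2 i z
    refine ⟨c, ⟨h0, Or.inr ⟨h1, i, z, h2, hc⟩⟩, ?_⟩
    rintro c' ⟨_, ⟨h3, _⟩ | ⟨_, i', z', h3, hc'⟩⟩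
    · exact absurd h3 hno
    · obtain ⟨rfl, rfl⟩ := ed_inj h (h2.symm.trans h3)
      exact hu c' hc'

end Pool.Agent.KZ
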