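import Pool.Agent.Lib_helper15.KZF.DefsA
import Pool.Agent.Lib_helper15.KZF.DefsN
import Pool.Agent.Lib_helper15.KZF.ED

/-! KZ block PDEG -/

set_option autoImplicit false

namespace Pool.Agent.KZ

open Finset

variable {V C : Type} [Fintype V] [DecidableEq V] [Fintype C] [DecidableEq C]
variable {σ : C → Equiv.Perm V} {D : OddD V C} {A : Finset (Sq V C)} {u v v' w : C → V} {ρ : V → ℕ}

theorem pdeg_fin1 (m : ℕ) (j : Fin (2 * m + 3)) : j + 1 ≠ j := by
  intro h
  have h1 : (1 : Fin (2 * m + 3)) = 0 := by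
    have h2 : j + 1 = j + 0 := by rw [add_zero]; exact h
    exact add_left_cancel h2
  have h3 := congrArg Fin.val h1
  rw [Fin.val_zero] at h3
  have h4 : ((1 : Fin (2 * m + 3)) : ℕ) = 1 := by
    rw [Fin.val_one']
    exact Nat.mod_eq_of_lt (by omega)
  omega

theorem pdeg_fin2 (m : ℕ) (j : Fin (2 * m + 3)) : j + 1 ≠ j - 1 := by
  intro h
  have h1 : (1 : Fin (2 * m + 3)) + 1 = 0 := by
    have h2 : j + (1 + 1) = j + 0 := by
      rw [add_zero, ← add_assoc, h, sub_add_cancel]
    exact add_left_cancel h2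
  have h3 := congrArg Fin.val h1
  rw [Fin.val_zero, Fin.val_add] at h3
  have h4 : ((1 : Fin (2 * m + 3)) : ℕ) = 1 := by
    rw [Fin.val_one']
    exact Nat.mod_eq_of_lt (by omega)
  rw [h4, Nat.mod_eq_of_lt (by omega)] at h3
  omega

theorem pdeg_fin3 (m : ℕ) (j : Fin (2 * m + 3)) : j - 1 ≠ j := by
  intro h
  apply pdeg_fin1 m (j - 1)
  rw [sub_add_cancel, h]

theorem pdeg_inv_ne (h : HD σ) (i : C) (x : V) : (σ i)⁻¹ x ≠ x := by
  intro he
  apply (hd_ne h i x).1
  conv_lhs => rw [← he]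
  simp

theorem pdeg_inv_inj (h : HD σ) {i j : C} (hij : i ≠ j) (x : V) : (σ i)⁻¹ x ≠ (σ j)⁻¹ x := by
  intro he
  apply (h.disj i j ((σ i)⁻¹ x) hij).1
  conv_rhs => rw [he]
  simp

/-- the edges at `x` -/
theorem pdeg_edge (i : C) (x y : V) : (∃ z, s(x, y) = ed σ i z) ↔ (y = σ i x ∨ y = (σ i)⁻¹ x) := by
  constructor
  · rintro ⟨z, hz⟩
    unfold ed at hz
    rw [Sym2.eq_iff] at hz
    rcases hz with ⟨rfl, rfl⟩ | ⟨rfl, rfl⟩
    · exact Or.inl rfl
    · exact Or.inr (by simp)
  · rintro (rfl | rfl)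
    · exact ⟨x, rfl⟩
    · refine ⟨(σ i)⁻¹ x, ?_⟩
      unfold ed
      rw [Sym2.eq_swap]
      simp

theorem prod_deg (h : HD σ) (m : ℕ) (p : V × Fin (2 * m + 3)) :
    ((prodG σ (2 * m + 3)).neighborSet p).ncard = 2 * Fintype.card C + 2 := by
  obtain ⟨x, j⟩ := p
  let F : Bool ⊕ (Bool × C) → V × Fin (2 * m + 3) := fun s => match s with
    | Sum.inl true => (x, j + 1)
    | Sum.inl false => (x, j - 1)
    | Sum.inr (true, i) => (σ i x, j)
    | Sum.inr (false, i) => ((σ i)⁻¹ x, j)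
  have hF : Function.Injective F := by
    have e1 := pdeg_fin1 m j
    have e2 := pdeg_fin2 m j
    have e3 := pdeg_fin3 m j
    rintro (a | ⟨a, i⟩) (b | ⟨b, i'⟩) hab
    · cases a <;> cases b
      · rfl
      · exact absurd (Prod.ext_iff.1 hab).2.symm e2
      · exact absurd (Prod.ext_iff.1 hab).2 e2
      · rfl
    · cases a <;> cases b
      · exact absurd (Prod.ext_iff.1 hab).2 e3
      · exact absurd (Prod.ext_iff.1 hab).2 e3
      · exact absurd (Prod.ext_iff.1 hab).2 e1
      · exact absurd (Prod.ext_iff.1 hab).2 e1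
    · cases a <;> cases b
      · exact absurd (Prod.ext_iff.1 hab).2.symm e3
      · exact absurd (Prod.ext_iff.1 hab).2.symm e1
      · exact absurd (Prod.ext_iff.1 hab).2.symm e3
      · exact absurd (Prod.ext_iff.1 hab).2.symm e1
    · by_cases hii : i = i'
      · subst hii
        cases a <;> cases b
        · rfl
        · exact absurd (Prod.ext_iff.1 hab).1.symm (hd_ne h i x).2
        · exact absurd (Prod.ext_iff.1 hab).1 (hd_ne h i x).2
        · rfl
      · cases a <;> cases b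
        · exact absurd (Prod.ext_iff.1 hab).1 (pdeg_inv_inj h hii x)
        · exact absurd (Prod.ext_iff.1 hab).1.symm (h.disj i' i x (Ne.symm hii)).2
        · exact absurd (Prod.ext_iff.1 hab).1 (h.disj i i' x hii).2
        · exact absurd (Prod.ext_iff.1 hab).1 (h.disj i i' x hii).1
  have hrange : (prodG σ (2 * m + 3)).neighborSet (x, j) = Set.range F := by
    ext ⟨y, l⟩
    rw [SimpleGraph.mem_neighborSet, Set.mem_range]
    constructor
    · rintro ⟨-, h1⟩
      rcases h1 with ⟨h1, h2 | h2⟩ | ⟨h1, i, z, h2⟩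
      · simp only at h1 h2
        subst h1 h2
        exact ⟨Sum.inl true, rfl⟩
      · simp only at h1 h2
        subst h1
        refine ⟨Sum.inl false, ?_⟩
        show (x, j - 1) = (x, l)
        rw [h2, add_sub_cancel_right]
      · simp only at h1 h2
        subst h1
        rcases (pdeg_edge i x y).1 ⟨z, h2⟩ with rfl | rfl
        · exact ⟨Sum.inr (true, i), rfl⟩
        · exact ⟨Sum.inr (false, i), rfl⟩
    · rintro ⟨s, hs⟩
      rcases s with a | ⟨a, i⟩
      · cases a
        · have hs' : (x, j - 1) = (y, l) := hs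
          rw [Prod.mk.injEq] at hs'
          obtain ⟨rfl, rfl⟩ := hs'
          refine ⟨fun hh => pdeg_fin3 m j (Prod.ext_iff.1 hh).2.symm, Or.inl ⟨rfl, Or.inr ?_⟩⟩
          simp
        · have hs' : (x, j + 1) = (y, l) := hs
          rw [Prod.mk.injEq] at hs'
          obtain ⟨rfl, rfl⟩ := hs'
          exact ⟨fun hh => pdeg_fin1 m j (Prod.ext_iff.1 hh).2.symm, Or.inl ⟨rfl, Or.inl rfl⟩⟩
      · cases a
        · have hs' : ((σ i)⁻¹ x, j) = (y, l) := hs
          rw [Prod.mk.injEq] at hs'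
          obtain ⟨rfl, rfl⟩ := hs'
          refine ⟨fun hh => pdeg_inv_ne h i x (Prod.ext_iff.1 hh).1.symm, Or.inr ⟨rfl, i, ?_⟩⟩
          exact (pdeg_edge i x _).2 (Or.inr rfl)
        · have hs' : (σ i x, j) = (y, l) := hs
          rw [Prod.mk.injEq] at hs'
          obtain ⟨rfl, rfl⟩ := hs'
          refine ⟨fun hh => (hd_ne h i x).1 (Prod.ext_iff.1 hh).1.symm, Or.inr ⟨rfl, i, ?_⟩⟩
          exact (pdeg_edge i x _).2 (Or.inl rfl)
  rw [hrange, ← Set.image_univ, Set.ncard_image_of_injective _ hF, Set.ncard_univ,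
    Nat.card_eq_fintype_card, Fintype.card_sum, Fintype.card_prod, Fintype.card_bool]
  ring

end Pool.Agent.KZ
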