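import Pool.Agent.Lib_helper15.KZF.DefsA
import Pool.Agent.Lib_helper15.KZF.DefsN
import Pool.Agent.Lib_helper15.KZF.ED

/-! KZ block REGE -/

set_option autoImplicit false

namespace Pool.Agent.KZ

open Finset

variable {V C : Type} [Fintype V] [DecidableEq V] [Fintype C] [DecidableEq C]
variable {σ : C → Equiv.Perm V} {D : OddD V C} {A : Finset (Sq V C)} {u v v' w : C → V} {ρ : V → ℕ}

theorem rege_one (m : ℕ) : ((1 : Fin (2 * m + 3)) : ℕ) = 1 := by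
  rw [Fin.val_one']
  exact Nat.mod_eq_of_lt (by omega)

theorem rege_fin1 (m : ℕ) (j : Fin (2 * m + 3)) : j + 1 ≠ j := by
  intro h
  have h1 : (1 : Fin (2 * m + 3)) = 0 := by
    have h2 : j + 1 = j + 0 := by rw [add_zero]; exact h
    exact add_left_cancel h2
  have h3 := congrArg Fin.val h1
  rw [Fin.val_zero, rege_one] at h3
  omega

theorem rege_fin2 (m : ℕ) (j : Fin (2 * m + 3)) : j + 1 ≠ j - 1 := by
  intro h
  have h1 : (1 : Fin (2 * m + 3)) + 1 = 0 := by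
    have h2 : j + (1 + 1) = j + 0 := by
      rw [add_zero, ← add_assoc, h, sub_add_cancel]
    exact add_left_cancel h2
  have h3 := congrArg Fin.val h1
  rw [Fin.val_zero, Fin.val_add, rege_one, Nat.mod_eq_of_lt (by omega)] at h3
  omega

theorem rege_fin3 (m : ℕ) (j : Fin (2 * m + 3)) : j - 1 ≠ j := by
  intro h
  apply rege_fin1 m (j - 1)
  rw [sub_add_cancel, h]

theorem rege_pred (m : ℕ) (j : Fin (2 * m + 3)) :
    (j - 1).val = if j.val = 0 then 2 * m + 2 else j.val - 1 := by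
  rw [Fin.sub_def]
  simp only
  rw [rege_one]
  have hj := j.isLt
  split_ifs with h0
  · rw [h0, add_zero, Nat.mod_eq_of_lt (by omega)]
    omega
  · have e : 2 * m + 3 - 1 + j.val = (j.val - 1) + (2 * m + 3) := by omega
    rw [e, Nat.add_mod_right, Nat.mod_eq_of_lt (by omega)]

/-- types of the two gaps at a layer -/
theorem rege_types (m : ℕ) (j : Fin (2 * m + 3)) :
    (j.val = 0 ∧ gt m j.val = 0 ∧ gt m (j - 1).val = 2) ∨
    (j.val = 2 * m + 2 ∧ gt m j.val = 2 ∧ gt m (j - 1).val = 1) ∨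
    (j.val ≠ 0 ∧ j.val ≠ 2 * m + 2 ∧ ((gt m j.val = 0 ∧ gt m (j - 1).val = 3) ∨
      (gt m j.val = 3 ∧ gt m (j - 1).val = 0) ∨ (gt m j.val = 1 ∧ gt m (j - 1).val = 0))) := by
  have hj := j.isLt
  rw [rege_pred]
  unfold gt
  by_cases h0 : j.val = 0
  · left
    refine ⟨h0, ?_, ?_⟩
    · rw [h0, if_pos (by omega), if_pos (by omega)]
    · rw [if_pos h0, if_neg (by omega), if_neg (by omega)]
  · by_cases h1 : j.val = 2 * m + 2
    · right; left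
      refine ⟨h1, ?_, ?_⟩
      · rw [h1, if_neg (by omega), if_neg (by omega)]
      · rw [if_neg h0, if_neg (by omega), if_pos (by omega)]
    · right; right
      refine ⟨h0, h1, ?_⟩
      rw [if_neg h0]
      by_cases h2 : j.val = 2 * m + 1
      · right; right
        rw [if_neg (by omega), if_pos h2, if_pos (by omega), if_pos (by omega)]
        exact ⟨rfl, rfl⟩
      · by_cases h3 : j.val % 2 = 0
        · left
          rw [if_pos (by omega), if_pos h3, if_pos (by omega), if_neg (by omega)]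
          exact ⟨rfl, rfl⟩
        · right; left
          rw [if_pos (by omega), if_neg h3, if_pos (by omega), if_pos (by omega)]
          exact ⟨rfl, rfl⟩

theorem rege_inv_ne (h : HD σ) (i : C) (x : V) : (σ i)⁻¹ x ≠ x := by
  intro he
  apply (hd_ne h i x).1
  conv_lhs => rw [← he]
  simp

theorem rege_ed_inv (i : C) (x : V) : s(x, (σ i)⁻¹ x) = ed σ i ((σ i)⁻¹ x) := by
  unfold ed
  rw [Sym2.eq_swap]
  simp

/-- description of the edges of the class `some i` -/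
theorem rege_adj (h : HD σ) (m : ℕ) (i : C) (x y : V) (j l : Fin (2 * m + 3)) :
    (cg σ D A v' w m (some i)).Adj (x, j) (y, l) ↔
      (y = x ∧ l = j + 1 ∧ occt σ D A v' w (gt m j.val) i x) ∨
      (y = x ∧ l = j - 1 ∧ occt σ D A v' w (gt m (j - 1).val) i x) ∨
      (y = σ i x ∧ l = j ∧ ¬ rele σ D A v' w m j i x) ∨
      (y = (σ i)⁻¹ x ∧ l = j ∧ ¬ rele σ D A v' w m j i ((σ i)⁻¹ x)) ∨
      (l = j ∧ ∃ i' z, s(x, y) = ed σ i' z ∧ bort σ D A m j i' z i) := by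
  constructor
  · rintro ⟨-, h1⟩
    rcases h1 with ⟨h1, ⟨h2, h3⟩ | ⟨h2, h3⟩⟩ | ⟨h1, i', z, h2, h3⟩
    · exact Or.inl ⟨h1.symm, h2, h3⟩
    · refine Or.inr (Or.inl ⟨h1.symm, ?_, ?_⟩)
      · simp only at h2
        rw [h2, add_sub_cancel_right]
      · simp only at h1 h2 h3
        have e : j - 1 = l := by rw [h2, add_sub_cancel_right]
        rw [e, h1]
        exact h3
    · simp only at h1 h2 h3
      rcases h3 with ⟨rfl, h3⟩ | h3
      · unfold ed at h2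
        rw [Sym2.eq_iff] at h2
        rcases h2 with ⟨rfl, rfl⟩ | ⟨rfl, rfl⟩
        · exact Or.inr (Or.inr (Or.inl ⟨rfl, h1.symm, h3⟩))
        · refine Or.inr (Or.inr (Or.inr (Or.inl ⟨by simp, h1.symm, ?_⟩)))
          simpa using h3
      · exact Or.inr (Or.inr (Or.inr (Or.inr ⟨h1.symm, i', z, h2, h3⟩)))
  · rintro (⟨rfl, rfl, h1⟩ | ⟨rfl, rfl, h1⟩ | ⟨rfl, rfl, h1⟩ | ⟨rfl, rfl, h1⟩ | ⟨rfl, i', z, h1, h2⟩)
    · exact ⟨fun hh => rege_fin1 m j (Prod.ext_iff.1 hh).2.symm, Or.inl ⟨rfl, Or.inl ⟨rfl, h1⟩⟩⟩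
    · refine ⟨fun hh => rege_fin3 m j (Prod.ext_iff.1 hh).2.symm, Or.inl ⟨rfl, Or.inr ⟨?_, h1⟩⟩⟩
      simp
    · exact ⟨fun hh => (hd_ne h i x).1 (Prod.ext_iff.1 hh).1.symm, Or.inr ⟨rfl, i, x, rfl,
        Or.inl ⟨rfl, h1⟩⟩⟩
    · exact ⟨fun hh => rege_inv_ne h i x (Prod.ext_iff.1 hh).1.symm, Or.inr ⟨rfl, i, _,
        rege_ed_inv i x, Or.inl ⟨rfl, h1⟩⟩⟩
    · refine ⟨fun hh => ?_, Or.inr ⟨rfl, i', z, h1, Or.inr h2⟩⟩
      have h3 : x = y := (Prod.ext_iff.1 hh).1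
      subst h3
      unfold ed at h1
      rw [Sym2.eq_iff] at h1
      rcases h1 with ⟨h4, h5⟩ | ⟨h4, h5⟩
      · exact (hd_ne h i' z).1 (by rw [← h5, h4])
      · exact (hd_ne h i' z).1 (by rw [← h4, h5])

/-- counting: two of four -/
theorem rege_count {α : Type} (S : Set α) (e1 e2 e3 e4 : α) (P1 P2 P3 P4 : Prop)
    (hS : ∀ q, q ∈ S ↔ (q = e1 ∧ P1) ∨ (q = e2 ∧ P2) ∨ (q = e3 ∧ P3) ∨ (q = e4 ∧ P4))
    (h12 : e1 ≠ e2) (h13 : e1 ≠ e3) (h14 : e1 ≠ e4) (h23 : e2 ≠ e3) (h24 : e2 ≠ e4)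
    (h34 : e3 ≠ e4)
    (hP : (P1 ∧ P2 ∧ ¬ P3 ∧ ¬ P4) ∨ (P1 ∧ ¬ P2 ∧ P3 ∧ ¬ P4) ∨ (P1 ∧ ¬ P2 ∧ ¬ P3 ∧ P4) ∨
      (¬ P1 ∧ P2 ∧ P3 ∧ ¬ P4) ∨ (¬ P1 ∧ P2 ∧ ¬ P3 ∧ P4) ∨ (¬ P1 ∧ ¬ P2 ∧ P3 ∧ P4)) :
    S.ncard = 2 := by
  rw [Set.ncard_eq_two]
  rcases hP with ⟨p1, p2, p3, p4⟩ | ⟨p1, p2, p3, p4⟩ | ⟨p1, p2, p3, p4⟩ | ⟨p1, p2, p3, p4⟩ |
    ⟨p1, p2, p3, p4⟩ | ⟨p1, p2, p3, p4⟩
  · exact ⟨e1, e2, h12, by ext q; rw [hS]; simp [p1, p2, p3, p4]⟩
  · exact ⟨e1, e3, h13, by ext q; rw [hS]; simp [p1, p2, p3, p4]⟩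
  · exact ⟨e1, e4, h14, by ext q; rw [hS]; simp [p1, p2, p3, p4]⟩
  · exact ⟨e2, e3, h23, by ext q; rw [hS]; simp [p1, p2, p3, p4]⟩
  · exact ⟨e2, e4, h24, by ext q; rw [hS]; simp [p1, p2, p3, p4]⟩
  · exact ⟨e3, e4, h34, by ext q; rw [hS]; simp [p1, p2, p3, p4]⟩

/-- an even colour: the two edges at a vertex do not have the same type -/
theorem rege_both (h : HD σ) (P : Plan σ D A u v v' w ρ) (t : Fin 4) (i : C) (x : V)
    (h1 : sqt σ D A v' w t i x) (h2 : sqt σ D A v' w t i ((σ i)⁻¹ x)) : False := by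
  rcases h1 with ⟨g, hg, h1⟩ | ⟨ht, hi, h1⟩
  · rcases h2 with ⟨g', hg', h2⟩ | ⟨ht', -, h2⟩
    · have hgg : g = g' := Fin.castSucc_injective _ (hg.trans hg'.symm)
      subst hgg
      have h3 := P.base.sep g i x i ((σ i)⁻¹ x) h1 h2 (fun hh => by
        exact rege_inv_ne h i x (Prod.ext_iff.1 hh).2.symm)
      rw [Finset.disjoint_left] at h3
      exact h3 (a := x) (by simp) (by simp)
    · subst ht'
      exact absurd hg (by
        intro hh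
        have := congrArg Fin.val hh
        simp at this
        omega)
  · rcases h2 with ⟨g', hg', h2⟩ | ⟨ht', -, h2⟩
    · subst ht
      exact absurd hg' (by
        intro hh
        have := congrArg Fin.val hh
        simp at this
        omega)
    · have h3 := ed_inj h (h1.trans h2.symm)
      exact rege_inv_ne h i x h3.2.symm

/-- the same edge is not used in two adjacent gaps -/
theorem rege_adjt (h : HD σ) (P : Plan σ D A u v v' w ρ) (m : ℕ) (j : Fin (2 * m + 3)) (i : C)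
    (z : V) (h1 : sqt σ D A v' w (gt m j.val) i z) (h2 : sqt σ D A v' w (gt m (j - 1).val) i z) :
    False := by
  have key : ∀ t t' : Fin 4, t ≠ t' → (t = 3 → t' = 0) → (t' = 3 → t = 0) →
      sqt σ D A v' w t i z → sqt σ D A v' w t' i z → False := by
    intro t t' htt ha hb h1 h2
    have h03 : ∀ t : Fin 4, t = 0 → sqt σ D A v' w t i z →
        (i ∉ D.O → ed σ i z = s(v' i, w i) → False) := by
      intro t ht h1 hi he
      subst ht
      rcases h1 with ⟨g, hg, h1⟩ | ⟨ht, -, -⟩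
      · have hg0 : g = 0 := by
          apply Fin.castSucc_injective _
          rw [hg]; rfl
        subst hg0
        obtain ⟨z0, h3, h4, h5⟩ := P.m0 i hi
        obtain ⟨z1, -, h6⟩ := P.m0' i hi
        have := h5 z h1
        subst this
        exact h6 (he.symm.trans h4)
      · exact absurd ht (by decide)
    rcases h1 with ⟨g, hg, h1⟩ | ⟨ht, hi, h1⟩
    · rcases h2 with ⟨g', hg', h2⟩ | ⟨ht', hi, h2⟩
      · exact htt (by rw [← hg, ← hg', P.base.one g g' i z h1 h2])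
      · exact h03 t (hb ht') (Or.inl ⟨g, hg, h1⟩) hi h2
    · rcases h2 with ⟨g', hg', h2⟩ | ⟨ht', -, h2⟩
      · exact h03 t' (ha ht) (Or.inl ⟨g', hg', h2⟩) hi h1
      · exact htt (ht.trans ht'.symm)
  rcases rege_types m j with ⟨-, e1, e2⟩ | ⟨-, e1, e2⟩ | ⟨-, -, ⟨e1, e2⟩ | ⟨e1, e2⟩ | ⟨e1, e2⟩⟩ <;>
  · rw [e1] at h1
    rw [e2] at h2
    exact key _ _ (by decide) (by decide) (by decide) h1 h2

theorem rege_occt (i : C) (hi : i ∉ D.O) (t : Fin 4) (x : V) :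
    occt σ D A v' w t i x ↔ sqt σ D A v' w t i x ∨ sqt σ D A v' w t i ((σ i)⁻¹ x) := by
  unfold occt
  constructor
  · rintro (⟨z, h1, rfl | rfl⟩ | ⟨h1, -⟩)
    · exact Or.inl h1
    · exact Or.inr (by simpa using h1)
    · exact absurd h1 hi
  · rintro (h1 | h1)
    · exact Or.inl ⟨x, h1, Or.inl rfl⟩
    · exact Or.inl ⟨_, h1, Or.inr (by simp)⟩

theorem rege_rele (i : C) (hi : i ∉ D.O) (m : ℕ) (j : Fin (2 * m + 3)) (z : V) :
    rele σ D A v' w m j i z ↔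
      sqt σ D A v' w (gt m j.val) i z ∨ sqt σ D A v' w (gt m (j - 1).val) i z := by
  unfold rele
  constructor
  · rintro (h1 | h1 | ⟨h1, -⟩)
    · exact Or.inl h1
    · exact Or.inr h1
    · exact absurd h1 hi
  · rintro (h1 | h1)
    · exact Or.inl h1
    · exact Or.inr (Or.inl h1)

theorem rege_prop (a b a' b' : Prop) (h1 : a → b → False) (h2 : a' → b' → False)
    (h3 : a → a' → False) (h4 : b → b' → False) :
    ((a ∨ b) ∧ (a' ∨ b') ∧ ¬ ¬ (a ∨ a') ∧ ¬ ¬ (b ∨ b')) ∨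
    ((a ∨ b) ∧ ¬ (a' ∨ b') ∧ ¬ (a ∨ a') ∧ ¬ ¬ (b ∨ b')) ∨
    ((a ∨ b) ∧ ¬ (a' ∨ b') ∧ ¬ ¬ (a ∨ a') ∧ ¬ (b ∨ b')) ∨
    (¬ (a ∨ b) ∧ (a' ∨ b') ∧ ¬ (a ∨ a') ∧ ¬ ¬ (b ∨ b')) ∨
    (¬ (a ∨ b) ∧ (a' ∨ b') ∧ ¬ ¬ (a ∨ a') ∧ ¬ (b ∨ b')) ∨
    (¬ (a ∨ b) ∧ ¬ (a' ∨ b') ∧ ¬ (a ∨ a') ∧ ¬ (b ∨ b')) := by
  by_cases ha : a <;> by_cases hb : b <;> by_cases ha' : a' <;> by_cases hb' : b' <;>
    simp_all

theorem cg_deg_even (h : HD σ) (P : Plan σ D A u v v' w ρ) (m : ℕ) (i : C) (hi : i ∉ D.O) :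
    Deg2 (cg σ D A v' w m (some i)) := by
  rintro ⟨x, j⟩
  have e1 := rege_fin1 m j
  have e2 := rege_fin2 m j
  have e3 := rege_fin3 m j
  have f1 := (hd_ne h i x).1
  have f2 := (hd_ne h i x).2
  have f3 := rege_inv_ne h i x
  refine rege_count _ (x, j + 1) (x, j - 1) (σ i x, j) ((σ i)⁻¹ x, j)
    (occt σ D A v' w (gt m j.val) i x) (occt σ D A v' w (gt m (j - 1).val) i x)
    (¬ rele σ D A v' w m j i x) (¬ rele σ D A v' w m j i ((σ i)⁻¹ x)) ?_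
    (fun hh => e2 (Prod.ext_iff.1 hh).2) (fun hh => e1 (Prod.ext_iff.1 hh).2)
    (fun hh => e1 (Prod.ext_iff.1 hh).2) (fun hh => e3 (Prod.ext_iff.1 hh).2)
    (fun hh => e3 (Prod.ext_iff.1 hh).2) (fun hh => f2 (Prod.ext_iff.1 hh).1) ?_
  · rintro ⟨y, l⟩
    rw [SimpleGraph.mem_neighborSet, rege_adj h]
    simp only [Prod.mk.injEq, and_assoc]
    constructor
    · rintro (h1 | h1 | h1 | h1 | ⟨-, i', z, -, h1⟩)
      · exact Or.inl h1
      · exact Or.inr (Or.inl h1)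
      · exact Or.inr (Or.inr (Or.inl h1))
      · exact Or.inr (Or.inr (Or.inr h1))
      · exact absurd h1.1 hi
    · rintro (h1 | h1 | h1 | h1)
      · exact Or.inl h1
      · exact Or.inr (Or.inl h1)
      · exact Or.inr (Or.inr (Or.inl h1))
      · exact Or.inr (Or.inr (Or.inr (Or.inl h1)))
  · have a1 := fun h1 h2 => rege_both h P (gt m j.val) i x h1 h2
    have a2 := fun h1 h2 => rege_both h P (gt m (j - 1).val) i x h1 h2
    have a3 := fun h1 h2 => rege_adjt h P m j i x h1 h2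
    have a4 := fun h1 h2 => rege_adjt h P m j i ((σ i)⁻¹ x) h1 h2
    rw [rege_occt i hi, rege_occt i hi, rege_rele i hi, rege_rele i hi]
    exact rege_prop _ _ _ _ a1 a2 a3 a4

end Pool.Agent.KZ
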