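import Pool.Agent.Lib_helper15.KZF.DefsA
import Pool.Agent.Lib_helper15.KZF.DefsN
import Pool.Agent.Lib_helper15.KZF.ED

/-! KZ block REGO -/

set_option autoImplicit false

namespace Pool.Agent.KZ

open Finset

variable {V C : Type} [Fintype V] [DecidableEq V] [Fintype C] [DecidableEq C]
variable {σ : C → Equiv.Perm V} {D : OddD V C} {A : Finset (Sq V C)} {u v v' w : C → V} {ρ : V → ℕ}

theorem rego_one (m : ℕ) : ((1 : Fin (2 * m + 3)) : ℕ) = 1 := by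
  rw [Fin.val_one']
  exact Nat.mod_eq_of_lt (by omega)

theorem rego_fin1 (m : ℕ) (j : Fin (2 * m + 3)) : j + 1 ≠ j := by
  intro h
  have h1 : (1 : Fin (2 * m + 3)) = 0 := by
    have h2 : j + 1 = j + 0 := by rw [add_zero]; exact h
    exact add_left_cancel h2
  have h3 := congrArg Fin.val h1
  rw [Fin.val_zero, rego_one] at h3
  omega

theorem rego_fin2 (m : ℕ) (j : Fin (2 * m + 3)) : j + 1 ≠ j - 1 := by
  intro h
  have h1 : (1 : Fin (2 * m + 3)) + 1 = 0 := by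
    have h2 : j + (1 + 1) = j + 0 := by
      rw [add_zero, ← add_assoc, h, sub_add_cancel]
    exact add_left_cancel h2
  have h3 := congrArg Fin.val h1
  rw [Fin.val_zero, Fin.val_add, rego_one, Nat.mod_eq_of_lt (by omega)] at h3
  omega

theorem rego_fin3 (m : ℕ) (j : Fin (2 * m + 3)) : j - 1 ≠ j := by
  intro h
  apply rego_fin1 m (j - 1)
  rw [sub_add_cancel, h]

theorem rego_pred (m : ℕ) (j : Fin (2 * m + 3)) :
    (j - 1).val = if j.val = 0 then 2 * m + 2 else j.val - 1 := by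
  rw [Fin.sub_def]
  simp only
  rw [rego_one]
  have hj := j.isLt
  split_ifs with h0
  · rw [h0, add_zero, Nat.mod_eq_of_lt (by omega)]
    omega
  · have e : 2 * m + 3 - 1 + j.val = (j.val - 1) + (2 * m + 3) := by omega
    rw [e, Nat.add_mod_right, Nat.mod_eq_of_lt (by omega)]

/-- types of the two gaps at a layer -/
theorem rego_types (m : ℕ) (j : Fin (2 * m + 3)) :
    (j.val = 0 ∧ gt m j.val = 0 ∧ gt m (j - 1).val = 2) ∨
    (j.val = 2 * m + 2 ∧ gt m j.val = 2 ∧ gt m (j - 1).val = 1) ∨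
    (j.val ≠ 0 ∧ j.val ≠ 2 * m + 2 ∧ ((gt m j.val = 0 ∧ gt m (j - 1).val = 3) ∨
      (gt m j.val = 3 ∧ gt m (j - 1).val = 0) ∨ (gt m j.val = 1 ∧ gt m (j - 1).val = 0))) := by
  have hj := j.isLt
  rw [rego_pred]
  unfold gt
  by_cases h0 : j.val = 0
  · left
    refine ⟨h0, ?_, ?_⟩
    · rw [h0, if_pos (by omega), if_pos (by omega)]
    · rw [if_pos h0, if_neg (by omega), if_neg (by omega)]
  · by_cases h1 : j.val = 2 * m + 2
    · right; left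
      refine ⟨h1, ?_, ?_⟩
      · rw [h1, if_neg (by omega), if_neg (by omega)]
      · rw [if_neg h0, if_neg (by omega), if_pos (by omega)]
    · right; right
      refine ⟨h0, h1, ?_⟩
      rw [if_neg h0]
      by_cases h2 : j.val = 2 * m + 1
      · right; right
        rw [if_neg (by omega), if_pos h2, if_pos (by omega), if_pos (by omega)]
        exact ⟨rfl, rfl⟩
      · by_cases h3 : j.val % 2 = 0
        · left
          rw [if_pos (by omega), if_pos h3, if_pos (by omega), if_neg (by omega)]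
          exact ⟨rfl, rfl⟩
        · right; left
          rw [if_pos (by omega), if_neg h3, if_pos (by omega), if_pos (by omega)]
          exact ⟨rfl, rfl⟩

theorem rego_inv_ne (h : HD σ) (i : C) (x : V) : (σ i)⁻¹ x ≠ x := by
  intro he
  apply (hd_ne h i x).1
  conv_lhs => rw [← he]
  simp

theorem rego_ed_inv (i : C) (x : V) : s(x, (σ i)⁻¹ x) = ed σ i ((σ i)⁻¹ x) := by
  unfold ed
  rw [Sym2.eq_swap]
  simp

/-- description of the edges of the class `some i` -/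
theorem rego_adj (h : HD σ) (m : ℕ) (i : C) (x y : V) (j l : Fin (2 * m + 3)) :
    (cg σ D A v' w m (some i)).Adj (x, j) (y, l) ↔
      (y = x ∧ l = j + 1 ∧ occt σ D A v' w (gt m j.val) i x) ∨
      (y = x ∧ l = j - 1 ∧ occt σ D A v' w (gt m (j - 1).val) i x) ∨
      (y = σ i x ∧ l = j ∧ ¬ rele σ D A v' w m j i x) ∨
      (y = (σ i)⁻¹ x ∧ l = j ∧ ¬ rele σ D A v' w m j i ((σ i)⁻¹ x)) ∨
      (l = j ∧ ∃ i' z, s(x, y) = ed σ i' z ∧ bort σ D A m j i' z i) := by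
  constructor
  · rintro ⟨-, h1⟩
    rcases h1 with ⟨h1, ⟨h2, h3⟩ | ⟨h2, h3⟩⟩ | ⟨h1, i', z, h2, h3⟩
    · exact Or.inl ⟨h1.symm, h2, h3⟩
    · refine Or.inr (Or.inl ⟨h1.symm, ?_, ?_⟩)
      · simp only at h2
        rw [h2, add_sub_cancel_right]
      · simp only at h1 h2 h3
        have e : j - 1 = l := by rw [h2, add_sub_cancel_right]
        rw [e, h1]
        exact h3
    · simp only at h1 h2 h3
      rcases h3 with ⟨rfl, h3⟩ | h3
      · unfold ed at h2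
        rw [Sym2.eq_iff] at h2
        rcases h2 with ⟨rfl, rfl⟩ | ⟨rfl, rfl⟩
        · exact Or.inr (Or.inr (Or.inl ⟨rfl, h1.symm, h3⟩))
        · refine Or.inr (Or.inr (Or.inr (Or.inl ⟨by simp, h1.symm, ?_⟩)))
          simpa using h3
      · exact Or.inr (Or.inr (Or.inr (Or.inr ⟨h1.symm, i', z, h2, h3⟩)))
  · rintro (⟨rfl, rfl, h1⟩ | ⟨rfl, rfl, h1⟩ | ⟨rfl, rfl, h1⟩ | ⟨rfl, rfl, h1⟩ | ⟨rfl, i', z, h1, h2⟩)
    · exact ⟨fun hh => rego_fin1 m j (Prod.ext_iff.1 hh).2.symm, Or.inl ⟨rfl, Or.inl ⟨rfl, h1⟩⟩⟩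
    · refine ⟨fun hh => rego_fin3 m j (Prod.ext_iff.1 hh).2.symm, Or.inl ⟨rfl, Or.inr ⟨?_, h1⟩⟩⟩
      simp
    · exact ⟨fun hh => (hd_ne h i x).1 (Prod.ext_iff.1 hh).1.symm, Or.inr ⟨rfl, i, x, rfl,
        Or.inl ⟨rfl, h1⟩⟩⟩
    · exact ⟨fun hh => rego_inv_ne h i x (Prod.ext_iff.1 hh).1.symm, Or.inr ⟨rfl, i, _,
        rego_ed_inv i x, Or.inl ⟨rfl, h1⟩⟩⟩
    · refine ⟨fun hh => ?_, Or.inr ⟨rfl, i', z, h1, Or.inr h2⟩⟩
      have h3 : x = y := (Prod.ext_iff.1 hh).1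
      subst h3
      unfold ed at h1
      rw [Sym2.eq_iff] at h1
      rcases h1 with ⟨h4, h5⟩ | ⟨h4, h5⟩
      · exact (hd_ne h i' z).1 (by rw [← h5, h4])
      · exact (hd_ne h i' z).1 (by rw [← h4, h5])


/-- counting for an odd colour -/
theorem rego_final {α W : Type} (S : Set α) (up dn r l e1 e2 e3 e4 : α)
    (b c bm be bp x tb tc : W) (L0 LL : Prop)
    (hS : ∀ q, q ∈ S ↔ (q = up ∧ x = tb) ∨ (q = dn ∧ x = tc) ∨
      (q = r ∧ ¬ (x = b ∨ (LL ∧ x = bm) ∨ (L0 ∧ x = be))) ∨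
      (q = l ∧ ¬ (x = c ∨ (LL ∧ x = be) ∨ (L0 ∧ x = bp))) ∨
      (q = e1 ∧ LL ∧ x = b) ∨ (q = e2 ∧ LL ∧ x = bm) ∨
      (q = e3 ∧ L0 ∧ x = c) ∨ (q = e4 ∧ L0 ∧ x = bp))
    (n2 : up ≠ r) (n3 : up ≠ l) (n4 : dn ≠ r) (n5 : dn ≠ l) (n6 : r ≠ l)
    (m1 : x = b → l ≠ e1) (m2 : x = bm → l ≠ e2) (m3 : x = c → r ≠ e3) (m4 : x = bp → r ≠ e4)
    (h1 : b ≠ c) (h2 : b ≠ bm) (h3 : b ≠ be) (h4 : b ≠ bp) (h5 : c ≠ bm) (h6 : c ≠ be)
    (h7 : c ≠ bp) (h8 : bm ≠ be) (h9 : bm ≠ bp) (h10 : be ≠ bp)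
    (hlay : (L0 ∧ ¬ LL ∧ tb = b ∧ tc = be) ∨ (¬ L0 ∧ LL ∧ tb = be ∧ tc = c) ∨
      (¬ L0 ∧ ¬ LL ∧ tb = b ∧ tc = c) ∨ (¬ L0 ∧ ¬ LL ∧ tb = c ∧ tc = b)) :
    S.ncard = 2 := by
  rw [Set.ncard_eq_two]
  rcases hlay with ⟨p0, pl, rfl, rfl⟩ | ⟨p0, pl, rfl, rfl⟩ | ⟨p0, pl, rfl, rfl⟩ |
    ⟨p0, pl, rfl, rfl⟩
  · by_cases x1 : x = tb
    · subst x1
      exact ⟨up, l, n3, by ext q; rw [hS]; simp [p0, pl, h1, h2, h3, h4]⟩
    by_cases x2 : x = c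
    · subst x2
      exact ⟨r, e3, m3 rfl, by ext q; rw [hS]; simp [p0, pl, h1.symm, h5, h6, h7]⟩
    by_cases x3 : x = bm
    · subst x3
      exact ⟨r, l, n6, by ext q; rw [hS]; simp [p0, pl, h2.symm, h5.symm, h8, h9]⟩
    by_cases x4 : x = tc
    · subst x4
      exact ⟨dn, l, n5, by ext q; rw [hS]; simp [p0, pl, h3.symm, h6.symm, h8.symm, h10]⟩
    by_cases x5 : x = bp
    · subst x5
      exact ⟨r, e4, m4 rfl, by
        ext q; rw [hS]; simp [p0, pl, h4.symm, h7.symm, h9.symm, h10.symm]⟩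
    exact ⟨r, l, n6, by ext q; rw [hS]; simp [p0, pl, x1, x2, x3, x4, x5]⟩
  · by_cases x1 : x = b
    · subst x1
      exact ⟨l, e1, m1 rfl, by ext q; rw [hS]; simp [p0, pl, h1, h2, h3, h4]⟩
    by_cases x2 : x = tc
    · subst x2
      exact ⟨dn, r, n4, by ext q; rw [hS]; simp [p0, pl, h1.symm, h5, h6, h7]⟩
    by_cases x3 : x = bm
    · subst x3
      exact ⟨l, e2, m2 rfl, by ext q; rw [hS]; simp [p0, pl, h2.symm, h5.symm, h8, h9]⟩
    by_cases x4 : x = tb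
    · subst x4
      exact ⟨up, r, n2, by ext q; rw [hS]; simp [p0, pl, h3.symm, h6.symm, h8.symm, h10]⟩
    by_cases x5 : x = bp
    · subst x5
      exact ⟨r, l, n6, by
        ext q; rw [hS]; simp [p0, pl, h4.symm, h7.symm, h9.symm, h10.symm]⟩
    exact ⟨r, l, n6, by ext q; rw [hS]; simp [p0, pl, x1, x2, x3, x4, x5]⟩
  · by_cases x1 : x = tb
    · subst x1
      exact ⟨up, l, n3, by ext q; rw [hS]; simp [p0, pl, h1, h2, h3, h4]⟩
    by_cases x2 : x = tc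
    · subst x2
      exact ⟨dn, r, n4, by ext q; rw [hS]; simp [p0, pl, h1.symm, h5, h6, h7]⟩
    exact ⟨r, l, n6, by ext q; rw [hS]; simp [p0, pl, x1, x2]⟩
  · by_cases x1 : x = tc
    · subst x1
      exact ⟨dn, l, n5, by ext q; rw [hS]; simp [p0, pl, h1, h2, h3, h4]⟩
    by_cases x2 : x = tb
    · subst x2
      exact ⟨up, r, n2, by ext q; rw [hS]; simp [p0, pl, h1.symm, h5, h6, h7]⟩
    exact ⟨r, l, n6, by ext q; rw [hS]; simp [p0, pl, x1, x2]⟩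

theorem rego_sqt (B : Base σ D A) (i : C) (hi : i ∈ D.O) (t : Fin 4) (z : V) :
    ¬ sqt σ D A v' w t i z := by
  rintro (⟨g, -, h1⟩ | ⟨-, h1, -⟩)
  · exact B.even g i z h1 hi
  · exact h1 hi

theorem rego_occt (B : Base σ D A) (i : C) (hi : i ∈ D.O) (t : Fin 4) (x : V) :
    occt σ D A v' w t i x ↔ x = tok σ D t i := by
  unfold occt
  constructor
  · rintro (⟨z, h1, -⟩ | ⟨-, h1⟩)
    · exact absurd h1 (rego_sqt B i hi t z)
    · exact h1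
  · intro h1
    exact Or.inr ⟨hi, h1⟩

theorem rego_rele (B : Base σ D A) (i : C) (hi : i ∈ D.O) (m : ℕ) (j : Fin (2 * m + 3)) (z : V) :
    rele σ D A v' w m j i z ↔ (z = D.b i ∨ (j.val = 2 * m + 2 ∧ z = (σ i)⁻¹ (D.bt i)) ∨
      (j.val = 0 ∧ z = D.bt i)) := by
  unfold rele
  constructor
  · rintro (h1 | h1 | ⟨-, h1⟩)
    · exact absurd h1 (rego_sqt B i hi _ z)
    · exact absurd h1 (rego_sqt B i hi _ z)
    · exact h1
  · intro h1
    exact Or.inr (Or.inr ⟨hi, h1⟩)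

theorem rego_ed_ne (h : HD σ) (i : C) (z x y : V) (he : ed σ i z = s(x, y)) : x ≠ y := by
  rintro rfl
  unfold ed at he
  rw [Sym2.eq_iff] at he
  rcases he with ⟨h1, h2⟩ | ⟨h1, h2⟩
  · exact (hd_ne h i z).1 (by rw [h2, h1])
  · exact (hd_ne h i z).1 (by rw [h2, h1])

theorem cg_deg_odd (h : HD σ) (P : Plan σ D A u v v' w ρ) (m : ℕ) (i : C) (hi : i ∈ D.O) :
    Deg2 (cg σ D A v' w m (some i)) := by
  rintro ⟨x, j⟩
  have B := P.base
  obtain ⟨p, z1, hA1, hz1⟩ := B.helpb i hi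
  obtain ⟨q, z2, hA2, hz2⟩ := B.helpc i hi
  have hpi : p ≠ i := fun hh => B.even _ _ _ hA1 (hh ▸ hi)
  have hqi : q ≠ i := fun hh => B.even _ _ _ hA2 (hh ▸ hi)
  have hinv : ∀ y : V, σ i ((σ i)⁻¹ y) = y := fun y => by simp
  have hinv' : ∀ y : V, (σ i)⁻¹ (σ i y) = y := fun y => by simp
  -- distinctness
  have d1 : D.b i ≠ σ i (D.b i) := (hd_ne h i _).1.symm
  have d2 : D.b i ≠ (σ i)⁻¹ (D.bt i) := rego_ed_ne h p z1 _ _ hz1
  have d7 : σ i (D.b i) ≠ σ i (D.bt i) := rego_ed_ne h q z2 _ _ hz2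
  have d3 : D.b i ≠ D.bt i := fun hh => d7 (by rw [hh])
  have d4 : D.b i ≠ σ i (D.bt i) := by
    intro hh
    apply hqi
    have e : ed σ q z2 = ed σ i (D.b i) := by
      rw [hz2, ← hh]
      unfold ed
      exact Sym2.eq_swap
    exact (ed_inj h e).1
  have d5 : σ i (D.b i) ≠ (σ i)⁻¹ (D.bt i) := by
    intro hh
    apply hpi
    have e : ed σ p z1 = ed σ i (D.b i) := by
      rw [hz1, ← hh]
      rfl
    exact (ed_inj h e).1
  have d6 : σ i (D.b i) ≠ D.bt i := fun hh => d2 (by rw [← hh, hinv'])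
  have d8 : (σ i)⁻¹ (D.bt i) ≠ D.bt i := rego_inv_ne h i _
  have d9 : (σ i)⁻¹ (D.bt i) ≠ σ i (D.bt i) := (hd_ne h i _).2.symm
  have d10 : D.bt i ≠ σ i (D.bt i) := (hd_ne h i _).1.symm
  have e1 := rego_fin1 m j
  have e3 := rego_fin3 m j
  refine rego_final _ (x, j + 1) (x, j - 1) (σ i x, j) ((σ i)⁻¹ x, j)
    ((σ i)⁻¹ (D.bt i), j) (D.b i, j) (σ i (D.bt i), j) (σ i (D.b i), j)
    (D.b i) (σ i (D.b i)) ((σ i)⁻¹ (D.bt i)) (D.bt i) (σ i (D.bt i)) x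
    (tok σ D (gt m j.val) i) (tok σ D (gt m (j - 1).val) i) (j.val = 0) (j.val = 2 * m + 2) ?_
    (fun hh => e1 (Prod.ext_iff.1 hh).2) (fun hh => e1 (Prod.ext_iff.1 hh).2)
    (fun hh => e3 (Prod.ext_iff.1 hh).2) (fun hh => e3 (Prod.ext_iff.1 hh).2)
    (fun hh => (hd_ne h i x).2 (Prod.ext_iff.1 hh).1) ?_ ?_ ?_ ?_ d1 d2 d3 d4 d5 d6 d7 d8 d9 d10 ?_
  · rintro ⟨y, l⟩
    have r1 : ((σ i)⁻¹ x = D.b i ↔ x = σ i (D.b i)) :=
      ⟨fun hh => by rw [← hh, hinv], fun hh => by rw [hh, hinv']⟩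
    have r2 : ((σ i)⁻¹ x = (σ i)⁻¹ (D.bt i) ↔ x = D.bt i) :=
      ⟨fun hh => by simpa using hh, fun hh => by rw [hh]⟩
    have r3 : ((σ i)⁻¹ x = D.bt i ↔ x = σ i (D.bt i)) :=
      ⟨fun hh => by rw [← hh, hinv], fun hh => by rw [hh, hinv']⟩
    rw [SimpleGraph.mem_neighborSet, rego_adj h, rego_occt B i hi, rego_occt B i hi,
      rego_rele B i hi, rego_rele B i hi, r1, r2, r3]
    simp only [Prod.mk.injEq, and_assoc]
    refine or_congr Iff.rfl (or_congr Iff.rfl (or_congr Iff.rfl (or_congr Iff.rfl ?_)))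
    constructor
    · rintro ⟨hl, i', z, h1, h2⟩
      obtain ⟨-, ⟨hj, -, h3⟩ | ⟨hj, -, h3⟩⟩ := h2
      · rw [h3, Sym2.eq_iff] at h1
        rcases h1 with ⟨h4, h5⟩ | ⟨h4, h5⟩
        · exact Or.inl ⟨h5, hl, hj, h4⟩
        · exact Or.inr (Or.inl ⟨h5, hl, hj, h4⟩)
      · rw [h3, Sym2.eq_iff] at h1
        rcases h1 with ⟨h4, h5⟩ | ⟨h4, h5⟩
        · exact Or.inr (Or.inr (Or.inl ⟨h5, hl, hj, h4⟩))
        · exact Or.inr (Or.inr (Or.inr ⟨h5, hl, hj, h4⟩))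
    · rintro (⟨h5, hl, hj, h4⟩ | ⟨h5, hl, hj, h4⟩ | ⟨h5, hl, hj, h4⟩ | ⟨h5, hl, hj, h4⟩)
      · refine ⟨hl, p, z1, ?_, hi, Or.inl ⟨hj, hA1, hz1⟩⟩
        rw [hz1, h4, h5]
      · refine ⟨hl, p, z1, ?_, hi, Or.inl ⟨hj, hA1, hz1⟩⟩
        rw [hz1, h4, h5, Sym2.eq_swap]
      · refine ⟨hl, q, z2, ?_, hi, Or.inr ⟨hj, hA2, hz2⟩⟩
        rw [hz2, h4, h5]
      · refine ⟨hl, q, z2, ?_, hi, Or.inr ⟨hj, hA2, hz2⟩⟩
        rw [hz2, h4, h5, Sym2.eq_swap]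
  · intro hx hh
    have h1 := (Prod.ext_iff.1 hh).1
    simp only at h1
    rw [hx] at h1
    exact d3 (by simpa using h1)
  · intro hx hh
    have h1 := (Prod.ext_iff.1 hh).1
    simp only at h1
    rw [hx] at h1
    exact d5 (by rw [← h1, hinv])
  · intro hx hh
    have h1 := (Prod.ext_iff.1 hh).1
    simp only at h1
    rw [hx] at h1
    exact d6 (by simpa using h1)
  · intro hx hh
    have h1 := (Prod.ext_iff.1 hh).1
    simp only at h1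
    rw [hx] at h1
    exact d4 (by simpa using h1.symm)
  · rcases rego_types m j with ⟨f0, g1, g2⟩ | ⟨f0, g1, g2⟩ | ⟨f0, f1, ⟨g1, g2⟩ | ⟨g1, g2⟩ | ⟨g1, g2⟩⟩
    · refine Or.inl ⟨f0, by omega, ?_, ?_⟩
      · rw [g1]; rfl
      · rw [g2]; rfl
    · refine Or.inr (Or.inl ⟨by omega, f0, ?_, ?_⟩)
      · rw [g1]; rfl
      · rw [g2]; rfl
    · refine Or.inr (Or.inr (Or.inl ⟨f0, f1, ?_, ?_⟩))
      · rw [g1]; rfl
      · rw [g2]; rfl
    · refine Or.inr (Or.inr (Or.inr ⟨f0, f1, ?_, ?_⟩))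
      · rw [g1]; rfl
      · rw [g2]; rfl
    · refine Or.inr (Or.inr (Or.inr ⟨f0, f1, ?_, ?_⟩))
      · rw [g1]; rfl
      · rw [g2]; rfl

end Pool.Agent.KZ
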