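import Pool.Agent.Lib_helper15.KZF.DefsA
import Pool.Agent.Lib_helper15.KZF.DefsN
import Pool.Agent.Lib_helper15.KZF.PARTI
import Pool.Agent.Lib_helper15.KZF.PDEG
import Pool.Agent.Lib_helper15.KZF.REGE
import Pool.Agent.Lib_helper15.KZF.REGO

/-! Block REG0: class 0 is 2-regular (helper7). -/

set_option autoImplicit false

namespace Pool.Agent.KZ

open Finset

variable {V C : Type} [Fintype V] [DecidableEq V] [Fintype C] [DecidableEq C]
variable {σ : C → Equiv.Perm V} {D : OddD V C} {A : Finset (Sq V C)} {u v v' w : C → V} {ρ : V → ℕ}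

/-- block REG0: class 0 is 2-regular (counting) -/
theorem cg_deg_none (h : HD σ) (P : Plan σ D A u v v' w ρ) (m : ℕ) :
    Deg2 (cg σ D A v' w m none) := by
  classical
  intro p
  have hncard : ∀ G : SimpleGraph (V × Fin (2 * m + 3)),
      (G.neighborSet p).ncard = (univ.filter (fun q => G.Adj p q)).card := by
    intro G
    rw [Set.ncard_eq_toFinset_card']
    congr 1
    ext q
    simp
  have hdisj : ∀ c ∈ (univ : Finset (Option C)), ∀ c' ∈ (univ : Finset (Option C)), c ≠ c' →
      Disjoint (univ.filter (fun q => (cg σ D A v' w m c).Adj p q))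
        (univ.filter (fun q => (cg σ D A v' w m c').Adj p q)) := by
    intro c _ c' _ hcc
    rw [Finset.disjoint_left]
    intro q hq hq'
    rw [Finset.mem_filter] at hq hq'
    obtain ⟨c₀, _, hu⟩ := cg_part h P m p q (cg_le h P m c hq.2)
    exact hcc ((hu c hq.2).trans (hu c' hq'.2).symm)
  have hunion : (univ.filter (fun q => (prodG σ (2 * m + 3)).Adj p q)) =
      (univ : Finset (Option C)).biUnion
        (fun c => univ.filter (fun q => (cg σ D A v' w m c).Adj p q)) := by
    ext q
    simp only [Finset.mem_filter, Finset.mem_univ, true_and, Finset.mem_biUnion]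
    constructor
    · intro hq
      obtain ⟨c, hc, _⟩ := cg_part h P m p q hq
      exact ⟨c, hc⟩
    · rintro ⟨c, hc⟩
      exact cg_le h P m c hc
  have hcard : (univ.filter (fun q => (prodG σ (2 * m + 3)).Adj p q)).card =
      ∑ c : Option C, (univ.filter (fun q => (cg σ D A v' w m c).Adj p q)).card := by
    rw [hunion]
    exact Finset.card_biUnion hdisj
  have h1 := prod_deg h m p
  rw [hncard, hcard, Fintype.sum_option] at h1
  have h2 : ∀ i : C, (univ.filter (fun q => (cg σ D A v' w m (some i)).Adj p q)).card = 2 := by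
    intro i
    rw [← hncard]
    by_cases hi : i ∈ D.O
    · exact cg_deg_odd h P m i hi p
    · exact cg_deg_even h P m i hi p
  rw [Finset.sum_congr rfl (fun i _ => h2 i), Finset.sum_const, Finset.card_univ, smul_eq_mul] at h1
  rw [hncard]
  omega

end Pool.Agent.KZ
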