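import Pool.Agent.Lib_helper15.KZF.CON0
import Pool.Agent.Lib_helper15.KZF.CONE
import Pool.Agent.Lib_helper15.KZF.CONO
import Pool.Agent.Lib_helper15.KZF.DefsA
import Pool.Agent.Lib_helper15.KZF.DefsN
import Pool.Agent.Lib_helper15.KZF.HC
import Pool.Agent.Lib_helper15.KZF.PARTI
import Pool.Agent.Lib_helper15.KZF.REG0
import Pool.Agent.Lib_helper15.KZF.REGE
import Pool.Agent.Lib_helper15.KZF.REGO

set_option autoImplicit false

namespace Pool.Agent.KZ

open Finset

variable {V C : Type} [Fintype V] [DecidableEq V] [Fintype C] [DecidableEq C]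
variable {σ : C → Equiv.Perm V} {D : OddD V C} {A : Finset (Sq V C)} {u v v' w : C → V} {ρ : V → ℕ}

theorem core_deg (h : HD σ) (P : Plan σ D A u v v' w ρ) (m : ℕ) (c : Option C) :
    Deg2 (cg σ D A v' w m c) := by
  rcases c with _ | i
  · exact cg_deg_none h P m
  · by_cases hi : i ∈ D.O
    · exact cg_deg_odd h P m i hi
    · exact cg_deg_even h P m i hi

theorem core_conn (h : HD σ) (P : Plan σ D A u v v' w ρ) (m : ℕ) (c : Option C) :
    (cg σ D A v' w m c).Connected := by
  rcases c with _ | i
  · exact cg_conn_none h P m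
  · by_cases hi : i ∈ D.O
    · exact cg_conn_odd h P m i hi
    · exact cg_conn_even h P m i hi

/-- block CORE (from the above): the product is decomposed -/
theorem core (h : HD σ) (P : Plan σ D A u v v' w ρ) (m : ℕ) :
    HamDec (prodG σ (2 * m + 3)) (Fintype.card C + 1) := by
  classical
  have H : ∀ c : Option C, ∃ (a : V × Fin (2 * m + 3)) (cc : (prodG σ (2 * m + 3)).Walk a a),
      cc.IsHamiltonianCycle ∧ ∀ e, e ∈ cc.edges ↔ e ∈ (cg σ D A v' w m c).edgeSet := by
    intro c
    exact ham_of_deg2 (cg σ D A v' w m c) (prodG σ (2 * m + 3)) (cg_le h P m c)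
      (core_deg h P m c) (core_conn h P m c)
  choose a cc hcc he using H
  have hcard : Fintype.card (Option C) = Fintype.card C + 1 := Fintype.card_option
  let eqv : Fin (Fintype.card C + 1) ≃ Option C := (Fintype.equivFinOfCardEq hcard).symm
  refine ⟨fun j => a (eqv j), fun j => cc (eqv j), fun j => hcc (eqv j), ?_⟩
  intro e hE
  induction e using Sym2.ind with
  | _ p q =>
    rw [SimpleGraph.mem_edgeSet] at hE
    obtain ⟨c, hc, huniq⟩ := cg_part h P m p q hE
    refine ⟨eqv.symm c, ?_, ?_⟩
    · show s(p, q) ∈ (cc (eqv (eqv.symm c))).edges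
      rw [he, Equiv.apply_symm_apply, SimpleGraph.mem_edgeSet]
      exact hc
    · intro j hj
      have hj' : s(p, q) ∈ (cc (eqv j)).edges := hj
      rw [he, SimpleGraph.mem_edgeSet] at hj'
      have := huniq (eqv j) hj'
      rw [← this, Equiv.symm_apply_apply]

end Pool.Agent.KZ
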