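import Mathlib

/-!
# Kotzig's conjecture for large graphs: definitions of the deterministic core

Hamiltonian cycles are given by permutations `σ i` with one cycle.  `V × Fin 3`: the three layers.
Gap `g` is between layer `g` and layer `g + 1`.
-/

set_option autoImplicit false

namespace Pool.Agent.KZ

open Finset

variable {V C : Type} [Fintype V] [DecidableEq V] [Fintype C] [DecidableEq C]

/-- edge-disjoint Hamiltonian cycles `x ↦ σ i x` -/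
structure HD (σ : C → Equiv.Perm V) : Prop where
  three : 3 ≤ Fintype.card V
  cyc : ∀ i x y, ∃ k : ℕ, (σ i ^ k) x = y
  disj : ∀ i j x, i ≠ j → σ i x ≠ σ j x ∧ σ i x ≠ (σ j)⁻¹ x

/-- the edge of colour `i` from `x` to `σ i x` -/
def ed (σ : C → Equiv.Perm V) (i : C) (x : V) : Sym2 V := s(x, σ i x)

/-- the odd colours `O`, their tokens `b i` (and `σ i (b i)`), and the free tokens `bt i` -/
structure OddD (V C : Type) where
  O : Finset C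
  b : C → V
  bt : C → V

/-- squares: a square `(g, i, z)` is the edge `(i, z)` switched in gap `g`
(`g = 0`: the `M₀` edges, `g = 1, 2`: the letters) -/
abbrev Sq (V C : Type) := Fin 3 × C × V

/-- position of the token of the colour `i` in a gap of type `t` (`3` is the type `0'`) -/
def tok (σ : C → Equiv.Perm V) (D : OddD V C) (t : Fin 4) (i : C) : V :=
  if t = 0 then D.b i else if t = 2 then D.bt i else σ i (D.b i)

/-- the vertex `x` is covered by a square of `A` in the gap `g` -/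
def cov (σ : C → Equiv.Perm V) (A : Finset (Sq V C)) (g : Fin 3) (x : V) : Prop :=
  ∃ i z, (g, i, z) ∈ A ∧ (x = z ∨ x = σ i z)

/-- the vertex `x` is occupied in the gap `g` -/
def occ (σ : C → Equiv.Perm V) (D : OddD V C) (A : Finset (Sq V C)) (g : Fin 3) (x : V) : Prop :=
  cov σ A g x ∨ ∃ i ∈ D.O, x = tok σ D g.castSucc i

/-- the square `(g,i,z)` is borrowed by the odd colour `i'` in the layer `l` -/
def bor (σ : C → Equiv.Perm V) (D : OddD V C) (l g : Fin 3) (i : C) (z : V) (i' : C) : Prop :=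
  i' ∈ D.O ∧ ((l = 2 ∧ g = 1 ∧ ed σ i z = s(D.b i', (σ i')⁻¹ (D.bt i'))) ∨
    (l = 0 ∧ g = 2 ∧ ed σ i z = s(σ i' (D.b i'), σ i' (D.bt i'))))

/-- horizontal edges of class 0 in the layer `l` -/
def hor (σ : C → Equiv.Perm V) (D : OddD V C) (A : Finset (Sq V C)) (l : Fin 3) (x y : V) : Prop :=
  (∃ g i z, (g, i, z) ∈ A ∧ (l = g ∨ l = g + 1) ∧ s(x, y) = ed σ i z ∧ ∀ i', ¬ bor σ D l g i z i') ∨
  (∃ i ∈ D.O, s(x, y) = ed σ i (D.b i)) ∨
  (l = 2 ∧ ∃ i ∈ D.O, s(x, y) = ed σ i ((σ i)⁻¹ (D.bt i))) ∨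
  (l = 0 ∧ ∃ i ∈ D.O, s(x, y) = ed σ i (D.bt i))

/-- class 0 in the three-layer product -/
def F0 (σ : C → Equiv.Perm V) (D : OddD V C) (A : Finset (Sq V C)) : SimpleGraph (V × Fin 3) where
  Adj p q := p ≠ q ∧ ((p.1 = q.1 ∧ ((q.2 = p.2 + 1 ∧ ¬ occ σ D A p.2 p.1) ∨
      (p.2 = q.2 + 1 ∧ ¬ occ σ D A q.2 q.1))) ∨ (p.2 = q.2 ∧ hor σ D A p.2 p.1 q.1))
  symm := ⟨by
    rintro ⟨x, l⟩ ⟨y, l'⟩ ⟨h0, h⟩
    refine ⟨fun h => h0 h.symm, ?_⟩
    rcases h with ⟨h1, h2⟩ | ⟨h1, h2⟩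
    · exact Or.inl ⟨h1.symm, h2.symm⟩
    · refine Or.inr ⟨h1.symm, ?_⟩
      simp only at h1 h2 ⊢
      subst h1
      unfold hor at h2 ⊢
      rw [Sym2.eq_swap]
      exact h2⟩
  loopless := ⟨fun p h => h.1 rfl⟩

/-- the first labelled edge after `x` and the first one before `x` have different labels -/
def WordOk (σ : C → Equiv.Perm V) (A : Finset (Sq V C)) (i : C) : Prop :=
  ∀ x, ∃ s t : ℕ, ∃ g g' : Fin 3, g ≠ g' ∧
    (g, i, (σ i ^ s) x) ∈ A ∧ (∀ r < s, ∀ g'', (g'', i, (σ i ^ r) x) ∉ A) ∧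
    (g', i, ((σ i)⁻¹ ^ (t + 1)) x) ∈ A ∧ (∀ r < t, ∀ g'', (g'', i, ((σ i)⁻¹ ^ (r + 1)) x) ∉ A)

/-- conditions on the squares alone: even colours, one label per edge, disjoint squares and tokens,
helper squares of the odd colours -/
structure Base (σ : C → Equiv.Perm V) (D : OddD V C) (A : Finset (Sq V C)) : Prop where
  even : ∀ g i z, (g, i, z) ∈ A → i ∉ D.O
  one : ∀ g g' i z, (g, i, z) ∈ A → (g', i, z) ∈ A → g = g'
  sep : ∀ g i z i' z', (g, i, z) ∈ A → (g, i', z') ∈ A → (i, z) ≠ (i', z') →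
    Disjoint ({z, σ i z} : Finset V) {z', σ i' z'}
  tokinj : ∀ t : Fin 4, ∀ i ∈ D.O, ∀ i' ∈ D.O, tok σ D t i = tok σ D t i' → i = i'
  tokcov : ∀ g : Fin 3, ∀ i ∈ D.O, ¬ cov σ A g (tok σ D g.castSucc i)
  helpb : ∀ i ∈ D.O, ∃ p z, ((1 : Fin 3), p, z) ∈ A ∧ ed σ p z = s(D.b i, (σ i)⁻¹ (D.bt i))
  helpc : ∀ i ∈ D.O, ∃ q z, ((2 : Fin 3), q, z) ∈ A ∧ ed σ q z = s(σ i (D.b i), σ i (D.bt i))
  five : ∀ i ∈ D.O, ∀ i' ∈ D.O, i ≠ i' →
    Disjoint ({D.b i, σ i (D.b i), (σ i)⁻¹ (D.bt i), D.bt i, σ i (D.bt i)} : Finset V)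
      {D.b i', σ i' (D.b i'), (σ i')⁻¹ (D.bt i'), D.bt i', σ i' (D.bt i')}

/-- the whole plan: `u i v i` the `M₀` edge, `v' i w i` the `M₀'` edge of the even colour `i` -/
structure Plan (σ : C → Equiv.Perm V) (D : OddD V C) (A : Finset (Sq V C)) (u v v' w : C → V)
    (ρ : V → ℕ) : Prop where
  base : Base σ D A
  m0 : ∀ i ∉ D.O, ∃ z, ((0 : Fin 3), i, z) ∈ A ∧ ed σ i z = s(u i, v i) ∧
    ∀ z', ((0 : Fin 3), i, z') ∈ A → z' = z
  m0' : ∀ i ∉ D.O, ∃ z, ed σ i z = s(v' i, w i) ∧ s(v' i, w i) ≠ s(u i, v i)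
  word : ∀ i ∉ D.O, WordOk σ A i
  sep' : ∀ i ∉ D.O, ∀ j ∉ D.O, i ≠ j → Disjoint ({v' i, w i} : Finset V) {v' j, w j}
  tok' : ∀ i ∈ D.O, ∀ j ∉ D.O, σ i (D.b i) ≠ v' j ∧ σ i (D.b i) ≠ w j
  vv : ∀ i ∉ D.O, ∃ j ∉ D.O, v' j = v i
  vv' : ∀ i ∉ D.O, ∃ j ∉ D.O, v j = v' i
  rho0 : ∀ i ∉ D.O, ρ (u i) < ρ (v i)
  rho1 : ∀ i ∉ D.O, ρ (v' i) < ρ (w i)
  rho2 : ∀ i ∈ D.O, ρ (D.b i) < ρ (σ i (D.b i))
  conn : (F0 σ D A).Connected

/-! ### the product with `2 * m + 3` layers -/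

/-- type of the gap `j` -/
def gt (m j : ℕ) : Fin 4 :=
  if j ≤ 2 * m then (if j % 2 = 0 then 0 else 3) else if j = 2 * m + 1 then 1 else 2

/-- `{z, σ i z}` is an edge of type `t` of the even colour `i` -/
def sqt (σ : C → Equiv.Perm V) (D : OddD V C) (A : Finset (Sq V C)) (v' w : C → V) (t : Fin 4)
    (i : C) (z : V) : Prop :=
  (∃ g : Fin 3, g.castSucc = t ∧ (g, i, z) ∈ A) ∨ (t = 3 ∧ i ∉ D.O ∧ ed σ i z = s(v' i, w i))

/-- the colour `i` occupies the vertex `x` in a gap of type `t` -/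
def occt (σ : C → Equiv.Perm V) (D : OddD V C) (A : Finset (Sq V C)) (v' w : C → V) (t : Fin 4)
    (i : C) (x : V) : Prop :=
  (∃ z, sqt σ D A v' w t i z ∧ (x = z ∨ x = σ i z)) ∨ (i ∈ D.O ∧ x = tok σ D t i)

/-- the edge `(i,z)` is released in the layer `j` -/
def rele (σ : C → Equiv.Perm V) (D : OddD V C) (A : Finset (Sq V C)) (v' w : C → V) (m : ℕ)
    (j : Fin (2 * m + 3)) (i : C) (z : V) : Prop :=
  sqt σ D A v' w (gt m j.val) i z ∨ sqt σ D A v' w (gt m (j - 1).val) i z ∨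
  (i ∈ D.O ∧ (z = D.b i ∨ (j.val = 2 * m + 2 ∧ z = (σ i)⁻¹ (D.bt i)) ∨ (j.val = 0 ∧ z = D.bt i)))

/-- the edge `(i,z)` is borrowed by `i'` in the layer `j` -/
def bort (σ : C → Equiv.Perm V) (D : OddD V C) (A : Finset (Sq V C)) (m : ℕ)
    (j : Fin (2 * m + 3)) (i : C) (z : V) (i' : C) : Prop :=
  i' ∈ D.O ∧ ((j.val = 2 * m + 2 ∧ ((1 : Fin 3), i, z) ∈ A ∧
      ed σ i z = s(D.b i', (σ i')⁻¹ (D.bt i'))) ∨
    (j.val = 0 ∧ ((2 : Fin 3), i, z) ∈ A ∧ ed σ i z = s(σ i' (D.b i'), σ i' (D.bt i'))))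

/-- class of vertical edges -/
def vcl (σ : C → Equiv.Perm V) (D : OddD V C) (A : Finset (Sq V C)) (v' w : C → V) (t : Fin 4)
    (x : V) : Option C → Prop
  | none => ∀ i, ¬ occt σ D A v' w t i x
  | some i => occt σ D A v' w t i x

/-- class of horizontal edges -/
def hcl (σ : C → Equiv.Perm V) (D : OddD V C) (A : Finset (Sq V C)) (v' w : C → V) (m : ℕ)
    (j : Fin (2 * m + 3)) (i : C) (z : V) : Option C → Prop
  | none => rele σ D A v' w m j i z ∧ ∀ i', ¬ bort σ D A m j i z i'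
  | some i' => (i' = i ∧ ¬ rele σ D A v' w m j i z) ∨ bort σ D A m j i z i'

/-- the graph of the class `c` in the product with `2 m + 3` layers -/
def cg (σ : C → Equiv.Perm V) (D : OddD V C) (A : Finset (Sq V C)) (v' w : C → V) (m : ℕ)
    (c : Option C) : SimpleGraph (V × Fin (2 * m + 3)) where
  Adj p q := p ≠ q ∧ ((p.1 = q.1 ∧ ((q.2 = p.2 + 1 ∧ vcl σ D A v' w (gt m p.2.val) p.1 c) ∨
      (p.2 = q.2 + 1 ∧ vcl σ D A v' w (gt m q.2.val) q.1 c))) ∨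
      (p.2 = q.2 ∧ ∃ i z, s(p.1, q.1) = ed σ i z ∧ hcl σ D A v' w m p.2 i z c))
  symm := ⟨by
    rintro ⟨x, l⟩ ⟨y, l'⟩ ⟨h0, h⟩
    refine ⟨fun h => h0 h.symm, ?_⟩
    rcases h with ⟨h1, h2⟩ | ⟨h1, i, z, h2, h3⟩
    · exact Or.inl ⟨h1.symm, h2.symm⟩
    · refine Or.inr ⟨h1.symm, i, z, ?_, ?_⟩
      · rw [Sym2.eq_swap]; exact h2
      · simp only at h1 h3 ⊢
        subst h1
        exact h3⟩
  loopless := ⟨fun p h => h.1 rfl⟩

/-- the product of the cycle with `k` layers and the union of the Hamiltonian cycles -/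
def prodG (σ : C → Equiv.Perm V) (k : ℕ) [NeZero k] : SimpleGraph (V × Fin k) where
  Adj p q := p ≠ q ∧ ((p.1 = q.1 ∧ (q.2 = p.2 + 1 ∨ p.2 = q.2 + 1)) ∨
      (p.2 = q.2 ∧ ∃ i z, s(p.1, q.1) = ed σ i z))
  symm := ⟨by
    rintro ⟨x, l⟩ ⟨y, l'⟩ ⟨h0, h⟩
    refine ⟨fun h => h0 h.symm, ?_⟩
    rcases h with ⟨h1, h2⟩ | ⟨h1, i, z, h2⟩
    · exact Or.inl ⟨h1.symm, h2.symm⟩
    · exact Or.inr ⟨h1.symm, i, z, by rw [Sym2.eq_swap]; exact h2⟩⟩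
  loopless := ⟨fun p h => h.1 rfl⟩

/-- `p` edge-disjoint Hamiltonian cycles cover all edges -/
def HamDec {U : Type} [DecidableEq U] (G : SimpleGraph U) (p : ℕ) : Prop :=
  ∃ (a : Fin p → U) (c : ∀ j, G.Walk (a j) (a j)), (∀ j, (c j).IsHamiltonianCycle) ∧
    ∀ e ∈ G.edgeSet, ∃! j, e ∈ (c j).edges

end Pool.Agent.KZ

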