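import Pool.Agent.Lib_helper15.KZF.DefsS

/-!
# One-cycle permutations and positions: wanted statements (block CYC)
-/

set_option autoImplicit false

namespace Pool.Agent.KZ

open Finset

variable {V C : Type} [Fintype V] [DecidableEq V] [Fintype C] [DecidableEq C]
variable {σ : C → Equiv.Perm V}

end Pool.Agent.KZ

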