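import Pool.Agent.Lib_helper15.KZF.Defs

/-!
# Deterministic core: wanted statements (blocks D..)
-/

set_option autoImplicit false

namespace Pool.Agent.KZ

open Finset

section General

variable {U : Type} [Fintype U] [DecidableEq U]

/-- every vertex has exactly two neighbours -/
def Deg2 (G : SimpleGraph U) : Prop := ∀ p, (G.neighborSet p).ncard = 2

end General

variable {V C : Type} [Fintype V] [DecidableEq V] [Fintype C] [DecidableEq C]
variable {σ : C → Equiv.Perm V} {D : OddD V C} {A : Finset (Sq V C)} {u v v' w : C → V} {ρ : V → ℕ}

end Pool.Agent.KZ

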