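import Pool.Agent.Lib_helper15.KZF.DefsM

/-!
# Interface of the random part (definitions)

`N = card V`, `n = card C`.
-/

set_option autoImplicit false

namespace Pool.Agent.KZ

open Finset

variable {V C : Type} [Fintype V] [DecidableEq V] [Fintype C] [DecidableEq C]

/-- the neighbours of `x` are `nb σ p x`, `p : C × Bool` -/
def nb (σ : C → Equiv.Perm V) (p : C × Bool) (x : V) : V := if p.2 then σ p.1 x else (σ p.1)⁻¹ x

/-- start of the edge from `x` to `nb σ p x` -/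
def es (σ : C → Equiv.Perm V) (p : C × Bool) (x : V) : V := if p.2 then x else (σ p.1)⁻¹ x

/-- `x - w - y` is a path with two different colours -/
def dcol (σ : C → Equiv.Perm V) (x w y : V) : Prop :=
  ∃ i j z z', i ≠ j ∧ s(x, w) = ed σ i z ∧ s(w, y) = ed σ j z'

/-- number of common neighbours with two different colours -/
noncomputable def cdD (σ : C → Equiv.Perm V) (x y : V) : ℕ :=
  letI := Classical.propDecidable
  (univ.filter (fun w => dcol σ x w y)).card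

/-- output of stage 1: `z0 i`, `z1 i` the starts of the `M₀` and `M₀'` edges -/
structure Out1 (σ : C → Equiv.Perm V) (O : Finset C) (z0 z1 u v v' w b : C → V) (ρ : V → ℕ) :
    Prop where
  e0 : ∀ i ∉ O, ed σ i (z0 i) = s(u i, v i)
  e1 : ∀ i ∉ O, ed σ i (z1 i) = s(v' i, w i)
  ne : ∀ i ∉ O, z0 i ≠ z1 i
  dis0 : ∀ i ∉ O, ∀ j ∉ O, i ≠ j → Disjoint ({u i, v i} : Finset V) {u j, v j}
  dis1 : ∀ i ∉ O, ∀ j ∉ O, i ≠ j → Disjoint ({v' i, w i} : Finset V) {v' j, w j}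
  b0 : ∀ i ∈ O, ∀ j ∉ O, b i ≠ u j ∧ b i ≠ v j
  c1 : ∀ i ∈ O, ∀ j ∉ O, σ i (b i) ≠ v' j ∧ σ i (b i) ≠ w j
  binj : ∀ i ∈ O, ∀ j ∈ O, b i = b j → i = j
  cinj : ∀ i ∈ O, ∀ j ∈ O, σ i (b i) = σ j (b j) → i = j
  bc : ∀ i ∈ O, ∀ j ∈ O, b i ≠ σ j (b j)
  vv : ∀ i ∉ O, ∃ j ∉ O, v' j = v i
  vv' : ∀ i ∉ O, ∃ j ∉ O, v j = v' i
  rho0 : ∀ i ∉ O, ρ (u i) < ρ (v i)
  rho1 : ∀ i ∉ O, ρ (v' i) < ρ (w i)
  rho2 : ∀ i ∈ O, ρ (b i) < ρ (σ i (b i))

/-- vertices covered by the `M₀` edges -/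
noncomputable def cvd (O : Finset C) (u v : C → V) : Finset V :=
  letI := Classical.propDecidable
  univ.filter (fun x => ∃ i ∉ O, x = u i ∨ x = v i)

/-- the set `S` of density `κ` is regularly distributed up to `ε N` -/
structure Reg (σ : C → Equiv.Perm V) (S : Finset V) (κ ε : ℝ) (cl : C → Fin 3) : Prop where
  arc1 : ∀ i x (L : ℕ), L ≤ Fintype.card V →
    |(((range L).filter (fun r => (σ i ^ r) x ∈ S)).card : ℝ) - κ * L| ≤ ε * Fintype.card V
  arc2 : ∀ i x (L : ℕ), L ≤ Fintype.card V →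
    |(((range L).filter (fun r => (σ i ^ r) x ∈ S ∧ (σ i ^ (r + 1)) x ∈ S)).card : ℝ) - κ ^ 2 * L|
      ≤ ε * Fintype.card V
  deg : ∀ y k, |(((univ : Finset (C × Bool)).filter (fun p => cl p.1 = k ∧ nb σ p y ∈ S)).card : ℝ)
      - 2 * κ * (univ.filter (fun i => cl i = k)).card| ≤ ε * Fintype.card V
  codeg : ∀ x y, x ≠ y → ∃ T ⊆ S, (∀ w ∈ T, dcol σ x w y) ∧
    κ * cdD σ x y - ε * Fintype.card V ≤ T.card

/-! ### types and levels.
`Lv` the live even colours (their `M₀` edges may be used), `Uu` usable uncovered vertices,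
`ty i = 0`: reserve, `1`: `u i` leaf and `v i` spine, `2`: `v i` leaf and `u i` spine -/

def leaf (Lv : Finset C) (u v : C → V) (ty : C → Fin 3) (x : V) : Prop :=
  ∃ i ∈ Lv, (ty i = 1 ∧ x = u i) ∨ (ty i = 2 ∧ x = v i)

def spin (Lv : Finset C) (Uu : Finset V) (u v : C → V) (ty : C → Fin 3) (x : V) : Prop :=
  (∃ i ∈ Lv, (ty i = 1 ∧ x = v i) ∨ (ty i = 2 ∧ x = u i)) ∨ x ∈ Uu

def rese (Lv : Finset C) (u v : C → V) (ty : C → Fin 3) (x : V) : Prop :=
  ∃ i ∈ Lv, ty i = 0 ∧ (x = u i ∨ x = v i)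

/-- leaves whose mate has odd level -/
def oleaf (Lv : Finset C) (u v : C → V) (ty : C → Fin 3) (lev : V → ℕ) (x : V) : Prop :=
  ∃ i ∈ Lv, (ty i = 1 ∧ x = u i ∧ lev (v i) % 2 = 1) ∨ (ty i = 2 ∧ x = v i ∧ lev (u i) % 2 = 1)

/-- label of the spine edges between the levels `j - 1` and `j` -/
def lamb (j : ℕ) : Fin 3 := if j % 2 = 0 then 1 else 2

/-- `x y` may be a spine edge with label `g`, `y` on the higher level -/
def alw (Lv : Finset C) (Uu : Finset V) (u v : C → V) (ty : C → Fin 3) (lev : V → ℕ) (g : Fin 3)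
    (x y : V) : Prop :=
  spin Lv Uu u v ty x ∧ spin Lv Uu u v ty y ∧ lev y = lev x + 1 ∧ lamb (lev y) = g

open Classical in
/-- output of stage 2a -/
structure Types (σ : C → Equiv.Perm V) (Lv : Finset C) (Uu : Finset V) (u v : C → V)
    (cl : C → Fin 3) (δ : ℝ) (h : ℕ) (q κ ε : ℝ) (Sg : C → V → Finset V)
    (ty : C → Fin 3) (lev : V → ℕ) : Prop where
  lev1 : ∀ x, 1 ≤ lev x ∧ lev x ≤ h
  t1 : ∀ i x (L : ℕ) (g : Fin 3), g ≠ 0 → L ≤ Fintype.card V →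
    q ^ 2 * ((h : ℝ) - 1) / h ^ 2 * L - ε * Fintype.card V ≤
      ((range L).filter (fun r => alw Lv Uu u v ty lev g ((σ i ^ r) x) ((σ i ^ (r + 1)) x) ∨
        alw Lv Uu u v ty lev g ((σ i ^ (r + 1)) x) ((σ i ^ r) x))).card
  t2 : ∀ y (j : ℕ) k, 1 ≤ j → j ≤ h →
    (((univ : Finset (C × Bool)).filter (fun p => cl p.1 = k ∧ spin Lv Uu u v ty (nb σ p y) ∧
      lev (nb σ p y) = j)).card : ℝ) ≤
      2 * q / h * (univ.filter (fun i => cl i = k)).card + ε * Fintype.card V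
  t3 : ∀ x y, x ≠ y → (1 - δ) / 2 * κ * cdD σ x y - ε * Fintype.card V ≤
    (univ.filter (fun w => leaf Lv u v ty w ∧ dcol σ x w y)).card
  t3' : ∀ x, (1 - δ) * κ * Fintype.card C - ε * Fintype.card V ≤
    ((univ : Finset (C × Bool)).filter (fun p => leaf Lv u v ty (nb σ p x))).card
  t4 : ∀ i x (L : ℕ), L ≤ Fintype.card V → δ ^ 2 * κ ^ 2 * L - ε * Fintype.card V ≤
      ((range L).filter (fun r => rese Lv u v ty ((σ i ^ r) x) ∧ rese Lv u v ty ((σ i ^ (r + 1)) x) ∧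
        s((σ i ^ r) x, (σ i ^ (r + 1)) x) ≠ s(u i, v i))).card
  t5 : ∀ i, ((1 - δ) / 4) ^ 2 * κ ^ 2 * Fintype.card V - ε * Fintype.card V ≤
      (univ.filter (fun x => oleaf Lv u v ty lev x ∧ oleaf Lv u v ty lev (σ i x))).card
  t6 : ∀ i b, δ ^ 3 * (Sg i b).card - ε * Fintype.card V ≤
      ((Sg i b).filter (fun β => rese Lv u v ty β ∧ rese Lv u v ty (σ i β) ∧
        rese Lv u v ty ((σ i)⁻¹ β))).card

/-! ### positions, directions, intervals -/

/-- position of the edge `(i,x)` on the path `H_i` minus its `M₀` edge: `(σ i)^(ps+1) (z0 i) = x` -/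
noncomputable def ps (σ : C → Equiv.Perm V) (z0 : C → V) (i : C) (x : V) : ℕ :=
  sInf {r : ℕ | (σ i ^ (r + 1)) (z0 i) = x}

noncomputable def pd (σ : C → Equiv.Perm V) (z0 : C → V) (dir : C → Bool) (i : C) (x : V) : ℕ :=
  if dir i then ps σ z0 i x else Fintype.card V - 2 - ps σ z0 i x

/-- `(i,x)` is in the `r`-th mandatory interval (`m i` intervals of length `((N-1)/2)/m i`) -/
def mand (σ : C → Equiv.Perm V) (z0 : C → V) (dir : C → Bool) (m : C → ℕ) (i : C) (x : V)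
    (r : ℕ) : Prop :=
  x ≠ z0 i ∧ r < m i ∧ r * ((Fintype.card V - 1) / 2 / m i) ≤ pd σ z0 dir i x ∧
    pd σ z0 dir i x < (r + 1) * ((Fintype.card V - 1) / 2 / m i)

/-- `(i,x)` is in the optional region -/
def optr (σ : C → Equiv.Perm V) (z0 : C → V) (dir : C → Bool) (i : C) (x : V) : Prop :=
  x ≠ z0 i ∧ (Fintype.card V - 1) / 2 ≤ pd σ z0 dir i x

/-- label of the `r`-th letter if the first label is `g` -/
def lb (g : Fin 3) (r : ℕ) : Fin 3 := if r % 2 = 0 then g else (if g = 1 then 2 else 1)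

/-- the optional squares -/
noncomputable def Oset (σ : C → Equiv.Perm V) (z0 : C → V) (Es : Finset C) (m : C → ℕ)
    (dir : C → Bool) (gl : C → Fin 3) : Finset (Sq V C) :=
  letI := Classical.propDecidable
  univ.filter (fun s => s.2.1 ∈ Es ∧ s.1 = lb (gl s.2.1) (m s.2.1) ∧ optr σ z0 dir s.2.1 s.2.2)

open Classical in
/-- output of stage 2c.  `Db` a family of sets of leaves -/
structure Dirs (σ : C → Equiv.Perm V) (z0 : C → V) (Lv : Finset C) (Uu : Finset V) (u v : C → V)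
    (Es : Finset C) (m : C → ℕ) (h : ℕ) (q ε : ℝ) (ty : C → Fin 3) (lev : V → ℕ)
    (Db : Fin 3 → Finset V) (dir : C → Bool) (gl : C → Fin 3) : Prop where
  gl0 : ∀ i, gl i ≠ 0
  u1 : ∀ y (j : ℕ) (g : Fin 3), 1 ≤ j → j ≤ h →
    (∑ p ∈ (univ : Finset (C × Bool)).filter (fun p => p.1 ∈ Es ∧
      (∃ r, mand σ z0 dir m p.1 (es σ p y) r ∧ lb (gl p.1) r = g) ∧
      spin Lv Uu u v ty (nb σ p y) ∧ lev (nb σ p y) = j), (m p.1 : ℝ)) ≤
      q * (∑ i ∈ Es, (m i : ℝ)) / (2 * h) + ε * Fintype.card V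
  u2 : ∀ x y, x ≠ y → (Fintype.card V : ℝ) / 100 ≤ cdD σ x y →
    (Fintype.card V : ℝ) / 20000 ≤ (univ.filter (fun w => leaf Lv u v ty w ∧
      optn σ (Oset σ z0 Es m dir gl) 1 x w ∧ optn σ (Oset σ z0 Es m dir gl) 2 w y)).card
  u3 : ∀ x (g : Fin 3), g ≠ 0 → (Fintype.card V : ℝ) / 1000 ≤
    (univ.filter (fun w => leaf Lv u v ty w ∧ optn σ (Oset σ z0 Es m dir gl) g x w)).card
  u4 : ∀ x (g : Fin 3) k, g ≠ 0 → (Fintype.card V : ℝ) / 300 ≤
      ((univ : Finset (C × Bool)).filter (fun p => nb σ p x ∈ Db k)).card →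
    (Fintype.card V : ℝ) / 2000 ≤
      ((Db k).filter (fun w => optn σ (Oset σ z0 Es m dir gl) g x w)).card

end Pool.Agent.KZ

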