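import Pool.Agent.Lib_helper15.KZF.DefsD

/-!
# Merging: wanted statements (blocks M.., K..)
-/

set_option autoImplicit false

namespace Pool.Agent.KZ

open Finset

/-! ### general graph lemmas -/

section General

variable {U : Type} [Fintype U] [DecidableEq U]

/-- number of components -/
noncomputable def ncc (G : SimpleGraph U) : ℕ := Nat.card G.ConnectedComponent

/-- replace the edges `a a'`, `b b'` by `a b`, `a' b'` -/
def sw (G : SimpleGraph U) (a a' b b' : U) : SimpleGraph U :=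
  G.deleteEdges {s(a, a'), s(b, b')} ⊔ SimpleGraph.fromEdgeSet {s(a, b), s(a', b')}

end General

variable {V C : Type} [Fintype V] [DecidableEq V] [Fintype C] [DecidableEq C]
variable {σ : C → Equiv.Perm V} {D : OddD V C} {A : Finset (Sq V C)}

/-- the switch of the square `(g,v,w)` -/
def swg (F : SimpleGraph (V × Fin 3)) (g : Fin 3) (v w : V) : SimpleGraph (V × Fin 3) :=
  sw F (v, g) (v, g + 1) (w, g) (w, g + 1)

/-- the graph of the squares on `V` -/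
def Gam (σ : C → Equiv.Perm V) (A : Finset (Sq V C)) : SimpleGraph V where
  Adj x y := x ≠ y ∧ ∃ g i z, (g, i, z) ∈ A ∧ s(x, y) = ed σ i z
  symm := ⟨by
    rintro x y ⟨h0, g, i, z, h1, h2⟩
    exact ⟨fun h => h0 h.symm, g, i, z, h1, by rw [Sym2.eq_swap]; exact h2⟩⟩
  loopless := ⟨fun p h => h.1 rfl⟩

/-! ### the merging theorem -/

/-- optional squares -/
structure OptSys (σ : C → Equiv.Perm V) (D : OddD V C) (A Oe : Finset (Sq V C)) : Prop where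
  base : Base σ D A
  g0 : ∀ g j z, (g, j, z) ∈ Oe → g ≠ 0 ∧ j ∉ D.O ∧ ∀ g', (g', j, z) ∉ A
  lab : ∀ g g' j z z', (g, j, z) ∈ Oe → (g', j, z') ∈ Oe → g = g'

/-- admissible sets of optional squares: one per colour, compatible -/
structure Adm (σ : C → Equiv.Perm V) (D : OddD V C) (A Oe Q : Finset (Sq V C)) : Prop where
  sub : Q ⊆ Oe
  col : ∀ g j z g' z', (g, j, z) ∈ Q → (g', j, z') ∈ Q → z = z'
  base : Base σ D (A ∪ Q)

/-- `v w` is an optional edge with the label `g` -/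
def optn (σ : C → Equiv.Perm V) (Oe : Finset (Sq V C)) (g : Fin 3) (v w : V) : Prop :=
  ∃ j z, (g, j, z) ∈ Oe ∧ s(v, w) = ed σ j z

/-- data of the merging theorem: `W` free leaves, `d` the parts (`none` exceptional), `s` parts,
bridge ends `be` (a finset of triples (vertex, reserved gap, part)) -/
structure MergeHyp (σ : C → Equiv.Perm V) (D : OddD V C) (A Oe : Finset (Sq V C)) (K s : ℕ)
    (W : Finset V) (J : V → V → Prop) (d : V → Option (Fin s))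
    (be : Finset (V × Fin 3 × Fin s)) : Prop where
  hd : HD σ
  opt : OptSys σ D A Oe
  nccK : ncc (F0 σ D A) ≤ K
  leaf : ∀ w ∈ W, ¬ occ σ D A 1 w ∧ ¬ occ σ D A 2 w
  Jsymm : ∀ x y, J x y → J y x
  /-- many optional neighbours -/
  deg1 : ∀ v : V, ∀ g : Fin 3, g ≠ 0 → ∃ S ⊆ W, 20 * K + 20 ≤ S.card ∧
    ∀ w ∈ S, w ≠ v ∧ optn σ Oe g v w
  deg2 : ∀ v ∈ W, ∀ v' ∈ W, v ≠ v' → J v v' → ∃ S ⊆ W, 20 * K + 20 ≤ S.card ∧
    ∀ w ∈ S, w ≠ v ∧ w ≠ v' ∧ optn σ Oe 1 v w ∧ optn σ Oe 2 w v'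
  /-- every component has a vertical in gap 1 or 2, not reserved, or contains a bridge end -/
  comp : ∀ p : V × Fin 3, (∃ v g, g ≠ 0 ∧ ¬ occ σ D A g v ∧ (F0 σ D A).Reachable p (v, g) ∧
      ∀ b ∈ be, b.1 ≠ v) ∨ ∃ b ∈ be, (F0 σ D A).Reachable p (b.1, b.2.1)
  /-- bridge ends -/
  beW : ∀ b ∈ be, b.1 ∉ W ∧ b.2.1 ≠ 0 ∧ ¬ occ σ D A b.2.1 b.1
  beInj : ∀ b ∈ be, ∀ b' ∈ be, b.1 = b'.1 → b = b'
  beDeg : ∀ b ∈ be, ∃ S ⊆ W, 20 * K + 20 ≤ S.card ∧
    ∀ w ∈ S, d w = some b.2.2 ∧ optn σ Oe b.2.1 b.1 w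
  beCard : be.card ≤ 4
  /-- the parts are connected through the bridges -/
  tree : ∀ E : Fin s → Fin s → Prop, Equivalence E →
    (∀ b ∈ be, ∀ b' ∈ be, (F0 σ D A).Reachable (b.1, b.2.1) (b'.1, b'.2.1) → E b.2.2 b'.2.2) →
    ∀ x y, E x y
  /-- rigidity of the partition -/
  rigid : ∀ W' ⊆ W, (W \ W').card ≤ 6 * K + 6 → ∀ E : V → V → Prop, Equivalence E →
    (∀ x ∈ W', ∀ y ∈ W', J x y → E x y) →
    (∀ x ∈ W', ∀ y ∈ W', d x = d y → d x ≠ none → E x y) ∧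
    (∀ x ∈ W', ∃ y ∈ W', d y ≠ none ∧ E x y)

end Pool.Agent.KZ

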