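import Pool.Agent.Lib_helper15.KZF.DefsI

/-!
# Random part and assembly: wanted statements (blocks X, S1, S2A, KILL, S2C, S3, S3B, GAD, EXT,
WORD, FREE, ASA, ASB)
-/

set_option autoImplicit false

namespace Pool.Agent.KZ

open Finset

open Classical in
/-- vertices `β` whose two helper edges (for the token `b`, colour `i`) have colours in `X` -/
noncomputable def SgX {V C : Type} [Fintype V] [DecidableEq V] [Fintype C] [DecidableEq C]
    (σ : C → Equiv.Perm V) (X : Finset C) (i : C) (b : V) : Finset V :=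
  univ.filter (fun β => (∃ c ∈ X, ∃ z, ed σ c z = s(b, (σ i)⁻¹ β)) ∧
    (∃ c ∈ X, ∃ z, ed σ c z = s(σ i b, σ i β)))

/-- spine letters placed by the second nibble -/
structure Spl {V C : Type} [Fintype V] [DecidableEq V] [Fintype C] [DecidableEq C]
    (σ : C → Equiv.Perm V) (z0 : C → V) (Lv : Finset C) (Uu : Finset V) (u v : C → V)
    (Es : Finset C) (m : C → ℕ) (ty : C → Fin 3) (lev : V → ℕ) (dir : C → Bool) (gl : C → Fin 3)
    (Ls : Finset (Sq V C)) : Prop where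
  s1 : ∀ g i z, (g, i, z) ∈ Ls → i ∈ Es ∧ (∃ r, mand σ z0 dir m i z r ∧ g = lb (gl i) r) ∧
    (alw Lv Uu u v ty lev g z (σ i z) ∨ alw Lv Uu u v ty lev g (σ i z) z)
  s2 : ∀ g g' i z z' r, (g, i, z) ∈ Ls → (g', i, z') ∈ Ls → mand σ z0 dir m i z r →
    mand σ z0 dir m i z' r → z = z'
  s3 : ∀ g i z i' z', (g, i, z) ∈ Ls → (g, i', z') ∈ Ls → (i, z) ≠ (i', z') →
    Disjoint ({z, σ i z} : Finset V) {z', σ i' z'}

/-- all mandatory letters: `Ls` spine letters, the others on reserve edges -/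
structure Lett {V C : Type} [Fintype V] [DecidableEq V] [Fintype C] [DecidableEq C]
    (σ : C → Equiv.Perm V) (z0 : C → V) (Lv : Finset C) (u v : C → V)
    (Es : Finset C) (m : C → ℕ) (ty : C → Fin 3) (dir : C → Bool) (gl : C → Fin 3)
    (Ls Lm : Finset (Sq V C)) (Ru : Finset C) : Prop where
  sub : Ls ⊆ Lm
  all : ∀ i ∈ Es, ∀ r < m i, ∃ z, (lb (gl i) r, i, z) ∈ Lm ∧ mand σ z0 dir m i z r
  uni : ∀ g g' i z z' r, (g, i, z) ∈ Lm → (g', i, z') ∈ Lm → mand σ z0 dir m i z r →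
    mand σ z0 dir m i z' r → z = z'
  lab : ∀ g i z, (g, i, z) ∈ Lm → i ∈ Es ∧ ∃ r, mand σ z0 dir m i z r ∧ g = lb (gl i) r
  /-- the two ends of a reserve letter lie in different reserve pairs -/
  res : ∀ g i z, (g, i, z) ∈ Lm → (g, i, z) ∉ Ls → ∃ j ∈ Ru, ∃ j' ∈ Ru, j ≠ j' ∧
    (z = u j ∨ z = v j) ∧ (σ i z = u j' ∨ σ i z = v j')
  ru : Ru ⊆ Lv.filter (fun j => ty j = 0)
  /-- every reserve pair is touched by at most one letter -/
  one : ∀ j ∈ Ru, ∀ g i z g' i' z', (g, i, z) ∈ Lm → (g, i, z) ∉ Ls → (g', i', z') ∈ Lm →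
    (g', i', z') ∉ Ls → (z = u j ∨ z = v j ∨ σ i z = u j ∨ σ i z = v j) →
    (z' = u j ∨ z' = v j ∨ σ i' z' = u j ∨ σ i' z' = v j) → (g, i, z) = (g', i', z')

/-- gadgets of the odd colours: `bt` the free tokens, helper squares `(1, p i, zp i)` and
`(2, q i, zq i)`, reserve pairs `Rg` -/
structure Gadg {V C : Type} [Fintype V] [DecidableEq V] [Fintype C] [DecidableEq C]
    (σ : C → Equiv.Perm V) (O X : Finset C) (Lv : Finset C) (u v b : C → V) (ty : C → Fin 3)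
    (Ru : Finset C) (bt : C → V) (p q : C → C) (zp zq : C → V) (Rg : C → Finset C) : Prop where
  px : ∀ i ∈ O, p i ∈ X ∧ q i ∈ X
  ep : ∀ i ∈ O, ed σ (p i) (zp i) = s(b i, (σ i)⁻¹ (bt i))
  eq : ∀ i ∈ O, ed σ (q i) (zq i) = s(σ i (b i), σ i (bt i))
  col : ∀ i ∈ O, ∀ i' ∈ O, i ≠ i' → p i ≠ p i' ∧ p i ≠ q i' ∧ q i ≠ p i' ∧ q i ≠ q i'
  rg : ∀ i ∈ O, Rg i ⊆ Lv.filter (fun j => ty j = 0) \ Ru
  rgb : ∀ i ∈ O, ∀ x, (x = bt i ∨ x = σ i (bt i) ∨ x = (σ i)⁻¹ (bt i)) →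
    ∃ j ∈ Rg i, x = u j ∨ x = v j
  rgd : ∀ i ∈ O, ∀ i' ∈ O, i ≠ i' → Disjoint (Rg i) (Rg i')

/-- extra letters (label 1) of the colours `Y` on leaf - leaf edges, mates of odd level -/
structure Extr {V C : Type} [Fintype V] [DecidableEq V] [Fintype C] [DecidableEq C]
    (σ : C → Equiv.Perm V) (Y : Finset C) (Lv : Finset C) (u v : C → V) (ty : C → Fin 3)
    (lev : V → ℕ) (ze : C → V) : Prop where
  ol : ∀ c ∈ Y, oleaf Lv u v ty lev (ze c) ∧ oleaf Lv u v ty lev (σ c (ze c))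
  dis : ∀ c ∈ Y, ∀ c' ∈ Y, c ≠ c' → Disjoint ({ze c, σ c (ze c)} : Finset V)
    {ze c', σ c' (ze c')}

section Det

variable {V C : Type} [Fintype V] [DecidableEq V] [Fintype C] [DecidableEq C]
variable {σ : C → Equiv.Perm V} {D : OddD V C} {A : Finset (Sq V C)}

/-- hypotheses of the free lemma (regime A) -/
structure FreeHyp (σ : C → Equiv.Perm V) (D : OddD V C) (A : Finset (Sq V C)) (Lv : Finset C)
    (u v z0 : C → V) (ty : C → Fin 3) (lev : V → ℕ) (h : ℕ) : Prop where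
  hd : HD σ
  base : Base σ D A
  m0 : ∀ i, i ∉ D.O → ((0 : Fin 3), i, z0 i) ∈ A ∧ ed σ i (z0 i) = s(u i, v i)
  lv : Lv ⊆ univ \ D.O
  lev1 : ∀ x, lev x ≤ h
  /-- squares of the gaps 1, 2 at spine vertices are spine squares -/
  sp : ∀ g i z, g ≠ 0 → (g, i, z) ∈ A →
    (spin Lv ∅ u v ty z ∨ spin Lv ∅ u v ty (σ i z)) →
    alw Lv ∅ u v ty lev g z (σ i z) ∨ alw Lv ∅ u v ty lev g (σ i z) z
  spt : ∀ i ∈ D.O, ∀ t : Fin 4, ¬ spin Lv ∅ u v ty (tok σ D t i)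
  /-- leaves with mates of even level are free -/
  even : ∀ x, leaf Lv u v ty x → ¬ oleaf Lv u v ty lev x → ¬ occ σ D A 1 x ∧ ¬ occ σ D A 2 x
  odd : ∀ x, oleaf Lv u v ty lev x → ¬ occ σ D A 2 x
  /-- reserve pairs -/
  res : ∀ j ∈ Lv, ty j = 0 → ∀ g, g ≠ 0 → ¬ (occ σ D A g (u j) ∧ occ σ D A g (v j))
  res' : ∀ x, rese Lv u v ty x → ¬ (occ σ D A 1 x ∧ occ σ D A 2 x)
  hres : ∀ i ∈ D.O, rese Lv u v ty ((σ i)⁻¹ (D.bt i)) ∧ rese Lv u v ty (D.bt i) ∧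
    rese Lv u v ty (σ i (D.bt i))
  b2 : ∀ i ∈ D.O, ¬ occ σ D A 2 (D.b i)
  /-- every other vertex with an occupied gap 1 or 2 is a `b i` or a `c i` -/
  oth : ∀ x g, g ≠ 0 → occ σ D A g x → spin Lv ∅ u v ty x ∨ leaf Lv u v ty x ∨
    rese Lv u v ty x ∨ ∃ i ∈ D.O, x = D.b i ∨ x = σ i (D.b i)

end Det

end Pool.Agent.KZ

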