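import Pool.Agent.Lib_helper15.KZF.DefsA
import Pool.Agent.Lib_helper15.KZF.DefsN

/-!
# Hamiltonian decompositions of edge-disjoint unions; products of several cycles with a large graph
-/

set_option autoImplicit false

namespace Pool.Agent.KZ

open SimpleGraph

variable {U : Type} [DecidableEq U]

theorem uni_transfer {G H : SimpleGraph U} {a : U} {c : G.Walk a a} (hc : c.IsHamiltonianCycle)
    (h : ∀ e ∈ c.edges, e ∈ H.edgeSet) : (c.transfer H h).IsHamiltonianCycle := by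
  rw [Walk.isHamiltonianCycle_iff_isCycle_and_support_count_tail_eq_one] at hc ⊢
  refine ⟨hc.1.transfer h, ?_⟩
  rw [Walk.support_transfer]
  exact hc.2

/-- edge-disjoint unions -/
theorem hamDec_sup {G H : SimpleGraph U} {a b : ℕ} (hd : ∀ e ∈ G.edgeSet, e ∉ H.edgeSet)
    (hG : HamDec G a) (hH : HamDec H b) : HamDec (G ⊔ H) (a + b) := by
  obtain ⟨x, c, hc, hcu⟩ := hG
  obtain ⟨y, d, hdd, hdu⟩ := hH
  have h1 : ∀ j, ∀ e ∈ (c j).edges, e ∈ (G ⊔ H).edgeSet := fun j e he => by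
    rw [edgeSet_sup]; exact Or.inl ((c j).edges_subset_edgeSet he)
  have h2 : ∀ j, ∀ e ∈ (d j).edges, e ∈ (G ⊔ H).edgeSet := fun j e he => by
    rw [edgeSet_sup]; exact Or.inr ((d j).edges_subset_edgeSet he)
  -- the family indexed by `Fin a ⊕ Fin b`
  obtain ⟨f, hf⟩ : ∃ f : Fin a ⊕ Fin b → Σ z : U, {w : (G ⊔ H).Walk z z //
      w.IsHamiltonianCycle}, ∀ s, f s = Sum.elim
        (fun j => ⟨x j, (c j).transfer _ (h1 j), uni_transfer (hc j) (h1 j)⟩)
        (fun j => ⟨y j, (d j).transfer _ (h2 j), uni_transfer (hdd j) (h2 j)⟩) s :=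
    ⟨_, fun _ => rfl⟩
  have hfl : ∀ j, (f (Sum.inl j)).2.1.edges = (c j).edges := fun j => by
    rw [hf]; simp [Walk.edges_transfer]
  have hfr : ∀ j, (f (Sum.inr j)).2.1.edges = (d j).edges := fun j => by
    rw [hf]; simp [Walk.edges_transfer]
  refine ⟨fun k => (f (finSumFinEquiv.symm k)).1, fun k => (f (finSumFinEquiv.symm k)).2.1,
    fun k => (f (finSumFinEquiv.symm k)).2.2, ?_⟩
  intro e he
  rw [edgeSet_sup] at he
  have key : ∃! s, e ∈ (f s).2.1.edges := by
    rcases he with he | he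
    · obtain ⟨j, hj, hju⟩ := hcu e he
      refine ⟨Sum.inl j, ?_, ?_⟩
      · simp only [hfl]; exact hj
      · rintro (j' | j') hj'
        · simp only [hfl] at hj'
          rw [hju j' hj']
        · simp only [hfr] at hj'
          exact absurd ((d j').edges_subset_edgeSet hj') (hd e he)
    · obtain ⟨j, hj, hju⟩ := hdu e he
      refine ⟨Sum.inr j, ?_, ?_⟩
      · simp only [hfr]; exact hj
      · rintro (j' | j') hj'
        · simp only [hfl] at hj'
          exact absurd he (hd e ((c j').edges_subset_edgeSet hj'))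
        · simp only [hfr] at hj'
          rw [hju j' hj']
  obtain ⟨s, hs, hsu⟩ := key
  refine ⟨finSumFinEquiv s, ?_, ?_⟩
  · have h3 : finSumFinEquiv.symm (finSumFinEquiv s) = s := Equiv.symm_apply_apply _ _
    show e ∈ (f (finSumFinEquiv.symm (finSumFinEquiv s))).2.1.edges
    rw [h3]; exact hs
  · intro k hk
    have := hsu _ hk
    rw [← this, Equiv.apply_symm_apply]

/-- splitting a decomposition -/
theorem hamDec_split {G : SimpleGraph U} {a b : ℕ} (hG : HamDec G (a + b)) :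
    ∃ G1 G2 : SimpleGraph U, G1 ⊔ G2 = G ∧ (∀ e ∈ G1.edgeSet, e ∉ G2.edgeSet) ∧
      HamDec G1 a ∧ HamDec G2 b := by
  obtain ⟨x, c, hc, hcu⟩ := hG
  have hsub : ∀ k, ∀ e ∈ (c k).edges, e ∈ G.edgeSet := fun k e he =>
    (c k).edges_subset_edgeSet he
  have hnd : ∀ k, ∀ e ∈ (c k).edges, ¬ e.IsDiag := fun k e he =>
    G.not_isDiag_of_mem_edgeSet (hsub k e he)
  set G1 : SimpleGraph U := SimpleGraph.fromEdgeSet {e | ∃ j : Fin a, e ∈ (c (Fin.castAdd b j)).edges}
    with hG1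
  set G2 : SimpleGraph U := SimpleGraph.fromEdgeSet {e | ∃ j : Fin b, e ∈ (c (Fin.natAdd a j)).edges}
    with hG2
  have m1 : ∀ e, e ∈ G1.edgeSet ↔ ∃ j : Fin a, e ∈ (c (Fin.castAdd b j)).edges := by
    intro e
    rw [hG1, SimpleGraph.edgeSet_fromEdgeSet]
    constructor
    · rintro ⟨h, -⟩; exact h
    · rintro ⟨j, hj⟩; exact ⟨⟨j, hj⟩, hnd _ _ hj⟩
  have m2 : ∀ e, e ∈ G2.edgeSet ↔ ∃ j : Fin b, e ∈ (c (Fin.natAdd a j)).edges := by
    intro e
    rw [hG2, SimpleGraph.edgeSet_fromEdgeSet]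
    constructor
    · rintro ⟨h, -⟩; exact h
    · rintro ⟨j, hj⟩; exact ⟨⟨j, hj⟩, hnd _ _ hj⟩
  have huniq : ∀ k k' : Fin (a + b), ∀ e, e ∈ (c k).edges → e ∈ (c k').edges → k = k' := by
    intro k k' e h1 h2
    obtain ⟨j, -, hj⟩ := hcu e (hsub k e h1)
    rw [hj k h1, hj k' h2]
  refine ⟨G1, G2, ?_, ?_, ?_, ?_⟩
  · rw [← SimpleGraph.edgeSet_inj, SimpleGraph.edgeSet_sup]
    ext e
    rw [Set.mem_union, m1, m2]
    constructor
    · rintro (⟨j, hj⟩ | ⟨j, hj⟩)
      · exact hsub _ _ hj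
      · exact hsub _ _ hj
    · intro he
      obtain ⟨k, hk, -⟩ := hcu e he
      induction k using Fin.addCases with
      | left j => exact Or.inl ⟨j, hk⟩
      | right j => exact Or.inr ⟨j, hk⟩
  · intro e h1 h2
    obtain ⟨j, hj⟩ := (m1 e).1 h1
    obtain ⟨j', hj'⟩ := (m2 e).1 h2
    have h3 := huniq _ _ e hj hj'
    have h4 := congrArg Fin.val h3
    simp only [Fin.val_castAdd, Fin.val_natAdd] at h4
    have := j.isLt
    omega
  · refine ⟨fun j => x (Fin.castAdd b j), fun j => (c (Fin.castAdd b j)).transfer G1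
      (fun e he => (m1 e).2 ⟨j, he⟩), fun j => uni_transfer (hc _) _, ?_⟩
    intro e he
    obtain ⟨j, hj⟩ := (m1 e).1 he
    refine ⟨j, ?_, ?_⟩
    · simp only [Walk.edges_transfer]; exact hj
    · intro j' hj'
      simp only [Walk.edges_transfer] at hj'
      have h3 := huniq _ _ e hj' hj
      exact Fin.castAdd_injective a b h3
  · refine ⟨fun j => x (Fin.natAdd a j), fun j => (c (Fin.natAdd a j)).transfer G2
      (fun e he => (m2 e).2 ⟨j, he⟩), fun j => uni_transfer (hc _) _, ?_⟩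
    intro e he
    obtain ⟨j, hj⟩ := (m2 e).1 he
    refine ⟨j, ?_, ?_⟩
    · simp only [Walk.edges_transfer]; exact hj
    · intro j' hj'
      simp only [Walk.edges_transfer] at hj'
      have h3 := huniq _ _ e hj' hj
      exact Fin.natAdd_injective b a h3

/-- the product of unions is the union of the products -/
theorem boxProd_sup {W : Type} (K1 K2 : SimpleGraph W) (G1 G2 : SimpleGraph U) :
    SimpleGraph.boxProd (K1 ⊔ K2) (G1 ⊔ G2) =
      SimpleGraph.boxProd K1 G1 ⊔ SimpleGraph.boxProd K2 G2 := by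
  ext p q
  simp only [SimpleGraph.boxProd_adj, SimpleGraph.sup_adj]
  tauto

theorem boxProd_disj {W : Type} {K1 K2 : SimpleGraph W} {G1 G2 : SimpleGraph U}
    (hK : ∀ e ∈ K1.edgeSet, e ∉ K2.edgeSet) (hG : ∀ e ∈ G1.edgeSet, e ∉ G2.edgeSet) :
    ∀ e ∈ (SimpleGraph.boxProd K1 G1).edgeSet, e ∉ (SimpleGraph.boxProd K2 G2).edgeSet := by
  intro e
  induction e with
  | _ p q =>
    rw [SimpleGraph.mem_edgeSet, SimpleGraph.mem_edgeSet, SimpleGraph.boxProd_adj,
      SimpleGraph.boxProd_adj]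
    rintro (⟨h1, h2⟩ | ⟨h1, h2⟩) (⟨h3, h4⟩ | ⟨h3, h4⟩)
    · exact hK s(p.1, q.1) h1 h3
    · rw [h2] at h3; exact G2.loopless.irrefl _ h3
    · rw [h2] at h3; exact K2.loopless.irrefl _ h3
    · exact hG s(p.2, q.2) h1 h3

/-- from one cycle to several cycles -/
theorem several {N₀ : ℕ} (H : ∀ (V W : Type) [Fintype V] [DecidableEq V] [Fintype W]
      [DecidableEq W] (G : SimpleGraph V) (K : SimpleGraph W) (n : ℕ), HamDec G n → HamDec K 1 →
      _root_.Odd (Fintype.card W) → N₀ ≤ Fintype.card V → Fintype.card V ≤ 7 * n →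
      HamDec (K □ G) (n + 1))
    (V W : Type) [Fintype V] [DecidableEq V] [Fintype W] [DecidableEq W]
    (G : SimpleGraph V) (K : SimpleGraph W) (p q : ℕ) (hp : 1 ≤ p) (hK : HamDec K p)
    (hG : HamDec G q) (hW : _root_.Odd (Fintype.card W)) (h0 : N₀ ≤ Fintype.card V)
    (h7 : Fintype.card V ≤ 7 * (q / p)) : HamDec (K □ G) (p + q) := by
  induction p, hp using Nat.le_induction generalizing G K q with
  | base =>
    rw [add_comm]
    rw [Nat.div_one] at h7
    exact H V W G K q hG hK hW h0 h7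
  | succ p hp ih =>
    obtain ⟨K2, K1, hKs, hKd, hK2, hK1⟩ := hamDec_split hK
    obtain ⟨q1, hq1⟩ : ∃ q1, q1 = q / (p + 1) := ⟨_, rfl⟩
    have hq1q : q1 ≤ q := by rw [hq1]; exact Nat.div_le_self _ _
    obtain ⟨G2, G1, hGs, hGd, hG2, hG1⟩ := hamDec_split
      (a := q - q1) (b := q1) (by rw [Nat.sub_add_cancel hq1q]; exact hG)
    have h8 : q / (p + 1) ≤ (q - q1) / p := by
      rw [Nat.le_div_iff_mul_le (by omega)]
      have h9 : q1 * (p + 1) ≤ q := by rw [hq1]; exact Nat.div_mul_le_self _ _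
      have h10 : q1 * (p + 1) = q1 * p + q1 := by ring
      rw [← hq1]
      omega
    have h11 := ih G2 K2 (q - q1) hK2 hG2 (h7.trans (Nat.mul_le_mul_left 7 h8))
    have h12 := H V W G1 K1 q1 hG1 hK1 hW h0 (by rw [hq1]; exact h7)
    have h13 := hamDec_sup (boxProd_disj hKd hGd) h11 h12
    rw [← boxProd_sup, hKs, hGs] at h13
    have h14 : p + (q - q1) + (q1 + 1) = p + 1 + q := by omega
    rw [h14] at h13
    exact h13

end Pool.Agent.KZ
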